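import Pool.Agent.H916.Glob
import Pool.Graph.R_pool_sql_team_seeded_c8625f6e.K4H62.HF.Ram
import Pool.Graph.R_seed8.W619.TW.Hyp
import Pool.Graph.R_seed8.W602.GT.SpDefs

/-! Endomorphisms of the curves of genus at most one. -/

set_option autoImplicit false
set_option linter.overlappingInstances false
set_option linter.unusedSectionVars false

open FF Filter Pool.Agent.W603.LV Pool.Agent.W603.PV Pool.Agent.K4H62.EL
open Pool.Agent.W619.PQ Pool.Agent.K4H62.IT

namespace Pool.Agent.H916

section endo

variable {k : Type} [Field k] [IsAlgClosed k] [CharZero k]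

/-- Hurwitz -/
theorem canDeg_nonpos_below {E K : Type} [Field E] [Algebra k E] [IsFF k E] [Field K] [Algebra k K]
    [Algebra E K] [IsScalarTower k E K] [IsFF k K] [FiniteDimensional E K] :
    (Module.finrank E K : ℤ) * canDeg k E ≤ canDeg k K := by
  have h1 := Pool.Agent.K4H62.HF.canDeg_ext (k := k) (E := E) (K := K)
  have h2 : 0 ≤ disc k E K := by
    unfold disc
    refine finsum_nonneg fun P => ?_
    have h3 : (1 : ℤ) ≤ ram E P := by
      have := (ram_spec (F := E) P).1
      exact_mod_cast this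
    linarith
  linarith

/-- a curve with an endomorphism of degree at least two -/
theorem canDeg_le_of_endo {K : Type} [Field K] [Algebra k K] [IsFF k K] (σ : K →ₐ[k] K) {d : ℕ}
    (hd : 2 ≤ d) (h : ∀ g, hgt k (σ g) = d * hgt k g) : canDeg k K ≤ 0 := by
  let iG : Algebra K K := σ.toRingHom.toAlgebra
  have hT : @IsScalarTower k K K _ iG.toSMul _ :=
    IsScalarTower.of_algebraMap_eq fun c => (σ.commutes c).symm
  obtain ⟨t, ht⟩ := IsFF.exists_transcendental (k := k) (K := K)
  have h1 : hgt k (σ t) = (@Module.finrank K K _ _ iG.toModule : ℤ) * hgt k t :=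
    @hgt_algebraMap k _ K _ _ K _ _ iG hT _ _ _ _ t
  have h2 : 0 < hgt k t := by
    by_contra hc
    push Not at hc
    obtain ⟨c, hc⟩ := const_of_hgt hc
    apply ht
    rw [hc]
    exact isAlgebraic_algebraMap c
  have h3 : (@Module.finrank K K _ _ iG.toModule : ℤ) = d := by
    rw [h t] at h1
    exact (mul_right_cancel₀ h2.ne' h1).symm
  have h4 : @FiniteDimensional K K _ _ iG.toModule :=
    @FiniteDimensional.of_finrank_pos K K _ _ iG.toModule (by
      have : (2 : ℤ) ≤ d := by exact_mod_cast hd
      have h6 : (0 : ℤ) < (@Module.finrank K K _ _ iG.toModule : ℤ) := by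
        rw [h3]
        linarith
      exact_mod_cast h6)
  have h5' : (@Module.finrank K K _ _ iG.toModule : ℤ) * canDeg k K ≤ canDeg k K :=
    @canDeg_nonpos_below k _ _ _ K K _ _ _ _ _ iG hT _ h4
  rw [h3] at h5'
  by_contra hc
  push Not at hc
  have h6 : (2 : ℤ) ≤ d := by exact_mod_cast hd
  nlinarith

theorem weier_nonpos {G : Type} [Field G] [Algebra k G] [IsFF k G] {O : Place k G} {a b : k}
    {X Y : G} (hW : Weier O a b X Y) : canDeg k G ≤ 0 := by
  obtain ⟨σ, -, d, hd, h⟩ := exists_double hW
  exact canDeg_le_of_endo σ hd h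

/-- **Endomorphisms of large degree.** -/
theorem exists_endo {K : Type} [Field K] [Algebra k K] [IsFF k K] (hc : canDeg k K ≤ 0) :
    ∃ (σ : K →ₐ[k] K) (d : ℕ), 2 ≤ d ∧ ∀ g, hgt k (σ g) = d * hgt k g := by
  classical
  obtain ⟨D, hD⟩ := exists_der (k := k) (K := K)
  by_cases hrat : ∃ s : K, IntermediateField.adjoin k {s} = ⊤
  · obtain ⟨s, hs⟩ := hrat
    have hst : Transcendental k s := by
      intro hc
      have h1 := IsAlgClosed.degree_eq_one_of_irreducible k (minpoly.irreducible hc.isIntegral)
      obtain ⟨c, hc⟩ := minpoly.mem_range_of_degree_eq_one k s h1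
      obtain ⟨t, ht⟩ := IsFF.exists_transcendental (k := k) (K := K)
      have h2 : t ∈ IntermediateField.adjoin k {s} := by
        rw [hs]
        exact IntermediateField.mem_top
      rw [← hc] at h2
      have h3 : IntermediateField.adjoin k {algebraMap k K c} = ⊥ := by
        rw [IntermediateField.adjoin_simple_eq_bot_iff]
        exact IntermediateField.algebraMap_mem _ c
      rw [h3] at h2
      obtain ⟨d, hd⟩ := IntermediateField.mem_bot.1 h2
      apply ht
      rw [← hd]
      exact isAlgebraic_algebraMap d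
    have hs2 : Transcendental k (s ^ 2) := by
      intro h
      exact hst (h.of_pow (by norm_num))
    obtain ⟨σ, hσ⟩ := exists_hom (k := k) (Polynomial.aeval s : Polynomial k →ₐ[k] K)
      (Polynomial.aeval (s ^ 2) : Polynomial k →ₐ[k] K) (fun p => by
        constructor
        · intro h
          by_contra hne
          exact hst ⟨p, fun h0 => hne (by rw [h0, map_zero]), h⟩
        · intro h
          by_contra hne
          exact hs2 ⟨p, fun h0 => hne (by rw [h0, map_zero]), h⟩) (fun z => by
        have hz : z ∈ IntermediateField.adjoin k {s} := by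
          rw [hs]
          exact IntermediateField.mem_top
        rw [IntermediateField.mem_adjoin_simple_iff] at hz
        obtain ⟨p, q, hpq⟩ := hz
        by_cases hq : Polynomial.aeval s q = 0
        · refine ⟨0, 1, by rw [map_one]; exact one_ne_zero, ?_⟩
          rw [hpq, hq, div_zero, zero_mul, map_zero]
        · refine ⟨p, q, hq, ?_⟩
          rw [hpq, div_mul_cancel₀ _ hq])
    obtain ⟨d, hd⟩ := hgt_self σ
    refine ⟨σ, d, ?_, hd⟩
    have h1 := hσ Polynomial.X
    rw [Polynomial.aeval_X, Polynomial.aeval_X] at h1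
    have h2 := hd s
    have hs0 : s ≠ 0 := by
      rintro rfl
      exact hst isAlgebraic_zero
    rw [h1, hgt_pow hs0] at h2
    have h3 : 0 < hgt k s := by
      by_contra hc
      push Not at hc
      obtain ⟨c, hc⟩ := const_of_hgt hc
      apply hst
      rw [hc]
      exact isAlgebraic_algebraMap c
    have h4 := mul_right_cancel₀ h3.ne' h2
    push_cast at h4
    omega
  · obtain ⟨Q⟩ : Nonempty (Place k K) := by
      obtain ⟨Q, -⟩ := exists_place_not_mem (k := k) (K := K) ∅
      exact ⟨Q⟩
    obtain ⟨a, b, X, Y, hW⟩ := exists_weier hD Q (hno_of_canDeg hD hc Q) hrat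
    obtain ⟨σ, -, d, hd, h⟩ := exists_double hW
    exact ⟨σ, d, hd, h⟩

/-- the canonical degree is at least `-2` -/
theorem canDeg_ge_neg_two {K : Type} [Field K] [Algebra k K] [IsFF k K] : -2 ≤ canDeg k K := by
  by_cases h : ∃ t : K, IntermediateField.adjoin k {t} = ⊤
  · obtain ⟨t, ht⟩ := h
    rw [canDeg_rational ht]
  · have := Pool.Agent.W619.TW.canDeg_nonneg h
    omega

/-- iterating an endomorphism -/
theorem const_of_iterates {K : Type} [Field K] [Algebra k K] [IsFF k K] (σ : K →ₐ[k] K) {d : ℕ}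
    (hd : 2 ≤ d) (h : ∀ g, hgt k (σ g) = d * hgt k g) {n : ℕ} {f : Fin (n + 1) → K} {B : ℤ}
    (hB : ∀ t : ℕ, pht k (fun l => (σ : K → K)^[t] (f l)) ≤ B) (i : Fin (n + 1)) {j : Fin (n + 1)}
    (hj : f j ≠ 0) : ∃ c : k, f i = algebraMap k K c * f j := by
  by_cases hi : f i = 0
  · exact ⟨0, by rw [hi, map_zero, zero_mul]⟩
  have hne : ∀ (t : ℕ) {g : K}, g ≠ 0 → (σ : K → K)^[t] g ≠ 0 := by
    intro t g hg
    induction t with
    | zero => exact hg
    | succ t ih =>
      rw [Function.iterate_succ_apply']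
      exact (map_ne_zero σ).2 ih
  have hdiv : ∀ (t : ℕ) (g g' : K), (σ : K → K)^[t] (g / g') =
      (σ : K → K)^[t] g / (σ : K → K)^[t] g' := by
    intro t g g'
    induction t with
    | zero => rfl
    | succ t ih =>
      rw [Function.iterate_succ_apply', Function.iterate_succ_apply', Function.iterate_succ_apply',
        ih, map_div₀]
  have hht : ∀ (t : ℕ) (g : K), hgt k ((σ : K → K)^[t] g) = (d : ℤ) ^ t * hgt k g := by
    intro t g
    induction t with
    | zero => simp
    | succ t ih =>
      rw [Function.iterate_succ_apply', h, ih, pow_succ]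
      ring
  have h1 : hgt k (f i / f j) ≤ 0 := by
    by_contra hc
    push Not at hc
    have hB0 : 0 ≤ B := by
      have h2 := Pool.Agent.W603.CX.hgt_le_pht (k := k) f hj hj
      exact ((hgt_nonneg _).trans h2).trans (hB 0)
    obtain ⟨t, ht⟩ : ∃ t : ℕ, B.toNat < 2 ^ t := ⟨_, Nat.lt_two_pow_self⟩
    have h2 := Pool.Agent.W603.CX.hgt_le_pht (k := k) (fun l => (σ : K → K)^[t] (f l))
      (hne t hi) (hne t hj)
    rw [← hdiv, hht] at h2
    have h3 := h2.trans (hB t)
    have h4 : (B : ℤ) < 2 ^ t := by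
      have : (B.toNat : ℤ) < 2 ^ t := by exact_mod_cast ht
      omega
    have h5 : (2 : ℤ) ^ t ≤ (d : ℤ) ^ t := pow_le_pow_left₀ (by norm_num) (by exact_mod_cast hd) t
    have h6 : (d : ℤ) ^ t * 1 ≤ (d : ℤ) ^ t * hgt k (f i / f j) :=
      mul_le_mul_of_nonneg_left hc (by positivity)
    linarith
  obtain ⟨c, hc⟩ := const_of_hgt h1
  refine ⟨c, ?_⟩
  rw [← hc, div_mul_cancel₀ _ hj]

end endo

end Pool.Agent.H916
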