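import Pool.Agent.H916.LVoj

/-! Boundedness of the maps from curves to pairs over an algebraically closed field which are fibred
by curves. -/

set_option autoImplicit false
set_option linter.overlappingInstances false
set_option linter.unusedSectionVars false

open FF Pool.Agent.W603.LV Pool.Agent.W603.PV MvPolynomial
open Pool.Agent.W602.GT (val IsForm VarPts coords val_smul LogGeneralType)
open Pool.Agent.Y216 (OnVar)

namespace Pool.Agent.H916

/-- **Boundedness modulo a proper closed subset.** `X` is the projective variety over `k` with the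
generic point `x`, and `D` the closed subset of `X` given by the forms `Q i`. Outside of a proper
closed subset `G = 0` the degrees of the maps from each smooth curve to `X ∖ D` are bounded: for every
function field `E` of a projective curve and every finite set `S` of places (points of the curve)
there is a number `B` such that the degree of the maps `f` with `f ⁻¹ (D) ⊆ S`, whose image is not
contained in `D` or in `G = 0`, is at most `B`. -/
def BoundedOff (k : Type) {K : Type} [Field k] [Field K] [Algebra k K] {M : ℕ}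
    (x : Fin (M + 1) → K) {ι : Type} (Q : ι → MvPolynomial (Fin (M + 1)) k) : Prop :=
  ∃ G : MvPolynomial (Fin (M + 1)) k, IsForm G ∧ val x G ≠ 0 ∧
    ∀ (E : Type) [Field E] [Algebra k E] [IsFF k E] (S : Set (Place k E)), S.Finite → ∃ B : ℤ,
      ∀ f : Fin (M + 1) → E, OnVar k x f → val f G ≠ 0 → (∃ i, aeval f (Q i) ≠ 0) →
        (∀ P, Meets Q f P → P ∈ S) → pht k f ≤ B

/-- **Linear bounds.** Outside of a proper closed subset the degree of the maps `f` from projective
curves `C` to `X`, whose image is not contained in `D`, is at most `A (max (2 g(C) - 2, 0) + N)`,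
where `N` is the number of the points of `f ⁻¹ (D)`. -/
def LinearOff (k : Type) {K : Type} [Field k] [Field K] [Algebra k K] {M : ℕ}
    (x : Fin (M + 1) → K) {ι : Type} (Q : ι → MvPolynomial (Fin (M + 1)) k) : Prop :=
  ∃ G : MvPolynomial (Fin (M + 1)) k, IsForm G ∧ val x G ≠ 0 ∧ ∃ A : ℕ,
    ∀ (E : Type) [Field E] [Algebra k E] [IsFF k E] (f : Fin (M + 1) → E), OnVar k x f →
      val f G ≠ 0 → (∃ i, aeval f (Q i) ≠ 0) →
        pht k f ≤ A * (max (canDeg k E) 0 + {P : Place k E | Meets Q f P}.ncard)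

section meets

variable {k K : Type} [Field k] [IsAlgClosed k] [CharZero k] [Field K]
  [Algebra k K] {M N : ℕ} {x : Fin (M + 1) → K}
  {ι : Type} [Finite ι] {Q : ι → MvPolynomial (Fin (M + 1)) k} {y : Fin (N + 1) → K} {κ : Type}
  [Finite κ] {Q' : κ → MvPolynomial (Fin (N + 1)) k}

theorem meets_finite0 {L : Type} [Field L] [Algebra k L] [IsFF k L] {f : Fin (M + 1) → L}
    (hf : ∃ j, f j ≠ 0) (hfQ : ∃ i, aeval f (Q i) ≠ 0) : {P : Place k L | Meets Q f P}.Finite := by
  obtain ⟨i, hi⟩ := hfQ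
  obtain ⟨j, hj⟩ := hf
  have h4 : ((⋃ j, {P : Place k L | P.ord (f j) ≠ 0}) ∪
      {P : Place k L | P.ord (aeval f (Q i)) ≠ 0}).Finite :=
    (Set.finite_iUnion fun j => finite_support _).union (finite_support _)
  refine h4.subset fun P hP => ?_
  by_contra hcon
  rw [Set.mem_union, not_or] at hcon
  have h5 : P.ord (aeval f (Q i)) = 0 := not_not.1 hcon.2
  have h6 : ∀ j, P.ord (f j) = 0 := fun j => by
    by_contra h7
    exact hcon.1 (Set.mem_iUnion.2 ⟨j, h7⟩)
  have h7 := (hP i).resolve_left hi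
  obtain ⟨l, hl, hlo⟩ := exists_pord P ⟨j, hj⟩
  rw [h5, ← hlo, h6] at h7
  simp at h7

/-- **Maps of pairs, over an algebraically closed field.** -/
theorem PairMap.meets (h : PairMap x Q y Q') (hQ : ∀ i, IsForm (Q i)) (hQ' : ∀ i, IsForm (Q' i))
    {j0 : Fin (N + 1)} {e : ℕ} {H : Fin (N + 1) → MvPolynomial (Fin (M + 1)) k}
    (hH : RMap x y j0 e H) {L : Type} [Field L] [Algebra k L] [IsFF k L] {f : Fin (M + 1) → L}
    (hf : OnVar k x f) (hfj : aeval f (H j0) ≠ 0) {P : Place k L}
    (hP : Meets Q' (fun j => aeval f (H j)) P) : Meets Q f P := by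
  classical
  cases nonempty_fintype ι
  cases nonempty_fintype κ
  obtain ⟨g, hg⟩ : ∃ g : Fin (N + 1) → L, g = fun j => aeval f (H j) := ⟨_, rfl⟩
  rw [← hg] at hP
  have hgj : g j0 ≠ 0 := by
    rw [hg]
    exact hfj
  intro i
  by_cases hi : aeval f (Q i) = 0
  · exact Or.inl hi
  right
  obtain ⟨a, ha, hao⟩ := exists_pord P hf.1
  obtain ⟨b, hb', hbo⟩ := exists_pord P (f := g) ⟨j0, hgj⟩
  have hgb : aeval f (H b) ≠ 0 := by
    rw [hg] at hb'
    exact hb'
  obtain ⟨hxa, hyb, hrel⟩ := hH.graph hf ha hgb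
  obtain ⟨n, A, hA⟩ := h.null hxa hyb i
  have h5 := hA L (fun c => f c / f a) (fun c => aeval f (H c) / aeval f (H b)) hrel
  rw [finsum_eq_sum_of_fintype] at h5
  -- all terms are in the maximal ideal
  have hu : ∀ s, Ge P 0 ((Sum.elim (fun c => f c / f a) fun c =>
      aeval f (H c) / aeval f (H b) : Fin (M + 1) ⊕ Fin (N + 1) → L) s) := by
    rintro (c | c)
    · rw [Sum.elim_inl]
      by_cases hc : f c = 0
      · exact Or.inl (by rw [hc, zero_div])
      · right
        rw [P.ord_div hc ha, hao]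
        have := pord_le P hc
        omega
    · rw [Sum.elim_inr]
      by_cases hc : aeval f (H c) = 0
      · exact Or.inl (by rw [hc, zero_div])
      · right
        have hgc : g c ≠ 0 := by
          rw [hg]
          exact hc
        have h6 := pord_le P hgc
        rw [← hbo, hg] at h6
        have h7 : P.ord (aeval f (H b)) ≤ P.ord (aeval f (H c)) := h6
        rw [P.ord_div hc hgb]
        omega
  have h6 : Ge P 1 (∑ c, aeval (Sum.elim (fun c => f c / f a) fun c =>
      aeval f (H c) / aeval f (H b)) (A c) *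
        aeval (fun c => aeval f (H c) / aeval f (H b)) (Q' c)) := by
    refine Ge.sum _ _ fun c _ => ?_
    have h7 := ge_aevalF (P := P) hu (A := A c) fun m hm => Ge.const _
    have h8 : Ge P 1 (aeval (fun c => aeval f (H c) / aeval f (H b)) (Q' c)) := by
      obtain ⟨d, hd⟩ := hQ' c
      have h9 : aeval (fun c => aeval f (H c) / aeval f (H b)) (Q' c) =
          aeval g (Q' c) / aeval f (H b) ^ d := by
        have h1 := val_smul hd (aeval f (H b)) (fun c => aeval f (H c) / aeval f (H b))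
        have h3 : (fun i => aeval f (H b) * (aeval f (H i) / aeval f (H b))) = g := by
          rw [hg]
          funext i
          field_simp
        rw [h3] at h1
        unfold Pool.Agent.W602.GT.val at h1
        rw [h1, mul_div_cancel_left₀ _ (pow_ne_zero _ hgb)]
      rw [h9]
      rcases hP c with h10 | h10
      · exact Or.inl (by rw [h10, zero_div])
      · by_cases h11 : aeval g (Q' c) = 0
        · exact Or.inl (by rw [h11, zero_div])
        right
        have h12 : Q' c ≠ 0 := by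
          intro h0
          rw [h0, map_zero] at h11
          exact h11 rfl
        rw [hd.totalDegree h12] at h10
        rw [P.ord_div h11 (pow_ne_zero _ hgb), P.ord_pow]
        have h13 : P.ord (aeval f (H b)) = pord P g := by
          rw [← hbo, hg]
        rw [h13]
        omega
    simpa using h7.mul h8
  rw [← h5] at h6
  obtain ⟨d, hd⟩ := hQ i
  have hQi : Q i ≠ 0 := by
    intro h0
    rw [h0, map_zero] at hi
    exact hi rfl
  have h9 : aeval (fun c => f c / f a) (Q i) = aeval f (Q i) / f a ^ d := by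
    have h1 := val_smul hd (f a) (fun c => f c / f a)
    have h3 : (fun i => f a * (f i / f a)) = f := by
      funext i
      field_simp
    rw [h3] at h1
    unfold Pool.Agent.W602.GT.val at h1
    rw [h1, mul_div_cancel_left₀ _ (pow_ne_zero _ ha)]
  have h10 : aeval (fun c => f c / f a) (Q i) ≠ 0 := by
    rw [h9]
    exact div_ne_zero hi (pow_ne_zero _ ha)
  have h11 := h6.resolve_left (pow_ne_zero _ h10)
  rw [P.ord_pow] at h11
  have h12 : 0 < P.ord (aeval (fun c => f c / f a) (Q i)) := by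
    by_contra h13
    push Not at h13
    have h14 : (n : ℤ) * P.ord (aeval (fun c => f c / f a) (Q i)) ≤ 0 :=
      mul_nonpos_of_nonneg_of_nonpos (Int.natCast_nonneg _) h13
    omega
  rw [h9, P.ord_div hi (pow_ne_zero _ ha), P.ord_pow, hao] at h12
  rw [hd.totalDegree hQi]
  omega

end meets

section

variable {k : Type} [Field k] [IsAlgClosed k] [CharZero k]

/-- The data of the relative height inequality. -/
theorem exists_dataL {K : Type} [Field K] [Algebra k K] {M : ℕ} {x : Fin (M + 1) → K}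
    (hx : x ≠ 0) (hgen : coords k x = ⊤) {ι : Type} [Finite ι]
    {Q : ι → MvPolynomial (Fin (M + 1)) k} (hQ : ∀ i, IsForm (Q i))
    (hQx : ∃ i, aeval x (Q i) ≠ 0) {r : ℕ} {N : Fin r → ℕ} {y : ∀ l, Fin (N l + 1) → K}
    (hy : ∀ l, y l ≠ 0) {κ : Fin r → Type} (hκ : ∀ l, Finite (κ l))
    {Q' : ∀ l, κ l → MvPolynomial (Fin (N l + 1)) k} (hQ' : ∀ l c, IsForm (Q' l c))
    (hmap : ∀ l, PairMap x Q (y l) (Q' l))
    (hfib : LogHypFibres (⨆ l, coords k (y l)).toSubfield (cuspFun x Q)) :
    ∃ (H : ∀ l, Fin (N l + 1) → MvPolynomial (Fin (M + 1)) k)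
      (G : MvPolynomial (Fin (M + 1)) k), IsForm G ∧ val x G ≠ 0 ∧
      (∀ l (F : MvPolynomial (Fin (N l + 1)) k), IsForm F → IsForm (aeval (H l) F) ∧
        (val x (aeval (H l) F) = 0 ↔ val (y l) F = 0)) ∧
      (∀ (E : Type) [Field E] [Algebra k E] [IsFF k E] (f : Fin (M + 1) → E), OnVar k x f →
        val f G ≠ 0 → ∀ l, OnVar k (y l) (fun j => aeval f (H l j)) ∧
          ∀ P : Place k E, Meets (Q' l) (fun j => aeval f (H l j)) P → Meets Q f P) ∧ ∃ A : ℕ,
      ∀ (E : Type) [Field E] [Algebra k E] [IsFF k E] (f : Fin (M + 1) → E), OnVar k x f →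
        val f G ≠ 0 → pht k f ≤ A * (max (canDeg k E) 0 + {P : Place k E | Meets Q f P}.ncard +
          ∑ l, (pht k fun i => aeval f (H l i))) := by
  have ht : IntermediateField.adjoin k (Set.range (Fin.elim0 : Fin 0 → k)) = ⊤ := by
    rw [eq_top_iff]
    rintro z -
    exact IntermediateField.algebraMap_mem _ z
  obtain ⟨j, e, H, hH, G, hG, hGx, hGj, A, hA⟩ :=
    rel_log_rat (k := k) (k0 := k) ht hx hgen hy hQ hQx hfib
  refine ⟨H, G, hG, hGx, fun l F hF => ⟨isForm_comp0 (hH l).hom hF, (hH l).val_iff hF⟩,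
    fun E _ _ _ f hf hfG l => ⟨(hH l).on hf (hGj E f hf hfG l), fun P hP =>
      (hmap l).meets hQ (hQ' l) (hH l) hf (hGj E f hf hfG l) hP⟩, A, fun E _ _ _ f hf hfG => ?_⟩
  have h1 := hA E f hf hfG
  simpa using h1

/-- **Ascent of boundedness.** -/
theorem bounded_multiL {K : Type} [Field K] [Algebra k K] {M : ℕ} {x : Fin (M + 1) → K}
    (hx : x ≠ 0) (hgen : coords k x = ⊤) {ι : Type} [Finite ι]
    {Q : ι → MvPolynomial (Fin (M + 1)) k} (hQ : ∀ i, IsForm (Q i))
    (hQx : ∃ i, aeval x (Q i) ≠ 0) {r : ℕ} {N : Fin r → ℕ} {y : ∀ l, Fin (N l + 1) → K}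
    (hy : ∀ l, y l ≠ 0) {κ : Fin r → Type} (hκ : ∀ l, Finite (κ l))
    {Q' : ∀ l, κ l → MvPolynomial (Fin (N l + 1)) k} (hQ' : ∀ l c, IsForm (Q' l c))
    (hQ'y : ∀ l, ∃ c, aeval (y l) (Q' l c) ≠ 0) (hmap : ∀ l, PairMap x Q (y l) (Q' l))
    (hfib : LogHypFibres (⨆ l, coords k (y l)).toSubfield (cuspFun x Q)) :
    ((∀ l, BoundedOff k (y l) (Q' l)) → BoundedOff k x Q) ∧
    ((∀ l, LinearOff k (y l) (Q' l)) → LinearOff k x Q) := by
  classical
  obtain ⟨H, G, hG, hGx, hHf, hon, A, hA⟩ :=
    exists_dataL hx hgen hQ hQx hy hκ hQ' hmap hfib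
  choose c hc using hQ'y
  refine ⟨fun hV => ?_, fun hV => ?_⟩
  · choose G' hG' hG'y hB using hV
    refine ⟨G * ((∏ l, aeval (H l) (G' l)) * ∏ l, aeval (H l) (Q' l (c l))),
      isForm_mul0 hG (isForm_mul0 (isForm_prod0 fun l => (hHf l _ (hG' l)).1)
        (isForm_prod0 fun l => (hHf l _ (hQ' l (c l))).1)), ?_, fun E _ _ _ S hS => ?_⟩
    · rw [val_mul_ne0, val_mul_ne0, val_prod_ne0, val_prod_ne0]
      exact ⟨hGx, fun l h0 => hG'y l ((hHf l _ (hG' l)).2.1 h0),
        fun l h0 => hc l ((hHf l _ (hQ' l (c l))).2.1 h0)⟩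
    · choose B hB' using fun l => hB l E S hS
      refine ⟨A * (max (canDeg k E) 0 + S.ncard + ∑ l, B l), fun f hf hfG hfQ hfS => ?_⟩
      rw [val_mul_ne0, val_mul_ne0, val_prod_ne0, val_prod_ne0] at hfG
      obtain ⟨h1, h2, h3⟩ := hfG
      refine (hA E f hf h1).trans ?_
      refine mul_le_mul_of_nonneg_left ?_ (Int.natCast_nonneg _)
      have h4 : {P : Place k E | Meets Q f P}.ncard ≤ S.ncard :=
        Set.ncard_le_ncard (fun P hP => hfS P hP) hS
      have h5 : ∑ l, (pht k fun i => aeval f (H l i)) ≤ ∑ l, B l := by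
        refine Finset.sum_le_sum fun l _ => ?_
        refine hB' l _ (hon E f hf h1 l).1 ?_ ⟨c l, ?_⟩ fun P hP => hfS P ((hon E f hf h1 l).2 P hP)
        · rw [← val_comp0]
          exact h2 l
        · have h6 := h3 l
          rw [val_comp0] at h6
          exact h6
      have h6 : ({P : Place k E | Meets Q f P}.ncard : ℤ) ≤ S.ncard := by exact_mod_cast h4
      linarith
  · choose G' hG' hG'y A' hA' using hV
    refine ⟨G * ((∏ l, aeval (H l) (G' l)) * ∏ l, aeval (H l) (Q' l (c l))),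
      isForm_mul0 hG (isForm_mul0 (isForm_prod0 fun l => (hHf l _ (hG' l)).1)
        (isForm_prod0 fun l => (hHf l _ (hQ' l (c l))).1)), ?_, A * (1 + ∑ l, A' l),
        fun E _ _ _ f hf hfG hfQ => ?_⟩
    · rw [val_mul_ne0, val_mul_ne0, val_prod_ne0, val_prod_ne0]
      exact ⟨hGx, fun l h0 => hG'y l ((hHf l _ (hG' l)).2.1 h0),
        fun l h0 => hc l ((hHf l _ (hQ' l (c l))).2.1 h0)⟩
    · rw [val_mul_ne0, val_mul_ne0, val_prod_ne0, val_prod_ne0] at hfG
      obtain ⟨h1, h2, h3⟩ := hfG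
      refine (hA E f hf h1).trans ?_
      have h5 : ∑ l, (pht k fun i => aeval f (H l i)) ≤
          (∑ l, (A' l : ℤ)) * (max (canDeg k E) 0 + {P : Place k E | Meets Q f P}.ncard) := by
        rw [Finset.sum_mul]
        refine Finset.sum_le_sum fun l _ => ?_
        refine (hA' l E _ (hon E f hf h1 l).1 ?_ ⟨c l, ?_⟩).trans ?_
        · rw [← val_comp0]
          exact h2 l
        · have h6 := h3 l
          rw [val_comp0] at h6
          exact h6
        · refine mul_le_mul_of_nonneg_left ?_ (Int.natCast_nonneg _)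
          have h6 : {P : Place k E | Meets (Q' l) (fun j => aeval f (H l j)) P}.ncard ≤
              {P : Place k E | Meets Q f P}.ncard :=
            Set.ncard_le_ncard (fun P hP => (hon E f hf h1 l).2 P hP) (meets_finite0 hf.1 hfQ)
          have h7 : ({P : Place k E | Meets (Q' l) (fun j => aeval f (H l j)) P}.ncard : ℤ) ≤
              {P : Place k E | Meets Q f P}.ncard := by exact_mod_cast h6
          linarith
      have h7 := mul_le_mul_of_nonneg_left (add_le_add (le_refl (max (canDeg k E) 0 +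
        ({P : Place k E | Meets Q f P}.ncard : ℤ))) h5) (Int.natCast_nonneg A)
      refine h7.trans (le_of_eq ?_)
      push_cast
      ring

theorem bounded_homL {B K : Type} [Field B] [Field K] [Algebra k B] [Algebra k K]
    (φ : B →ₐ[k] K) {N : ℕ} {y : Fin (N + 1) → B} {κ : Type}
    {Q : κ → MvPolynomial (Fin (N + 1)) k} (h : BoundedOff k y Q) :
    BoundedOff k (fun i => φ (y i)) Q := by
  obtain ⟨G, hG, hGy, hA⟩ := h
  refine ⟨G, hG, fun h0 => hGy ((val_hom_eq φ y G).1 h0), fun L _ _ _ S hS => ?_⟩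
  obtain ⟨B, hB⟩ := hA L S hS
  exact ⟨B, fun f hf hfG hfQ => hB f
    ⟨hf.1, fun H hH hy => hf.2 H hH ((val_hom_eq φ y H).2 hy)⟩ hfG hfQ⟩

theorem linear_homL {B K : Type} [Field B] [Field K] [Algebra k B] [Algebra k K]
    (φ : B →ₐ[k] K) {N : ℕ} {y : Fin (N + 1) → B} {κ : Type}
    {Q : κ → MvPolynomial (Fin (N + 1)) k} (h : LinearOff k y Q) :
    LinearOff k (fun i => φ (y i)) Q := by
  obtain ⟨G, hG, hGy, A, hA⟩ := h
  refine ⟨G, hG, fun h0 => hGy ((val_hom_eq φ y G).1 h0), A, fun L _ _ _ f hf hfG hfQ => ?_⟩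
  exact hA L f ⟨hf.1, fun H hH hy => hf.2 H hH ((val_hom_eq φ y H).2 hy)⟩ hfG hfQ

/-- **Linear bounds for iterated fibrations by hyperbolic curves.** -/
theorem LogIterated.linear {K : Type} [Field K] [Algebra k K] {M : ℕ} {x : Fin (M + 1) → K}
    {ι : Type} {Q : ι → MvPolynomial (Fin (M + 1)) k} (h : LogIterated k x Q) :
    LinearOff k x Q := by
  induction h with
  | @step K _ _ M x ι _ Q r B iB iA N y κ Q' hx hgen hQ hQx hY φ hmap h ih =>
    have hf : ∀ l, y l ≠ 0 ∧ coords k (y l) = ⊤ ∧ Finite (κ l) ∧ (∀ i, IsForm (Q' l i)) ∧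
        ∃ i, aeval (y l) (Q' l i) ≠ 0 := by
      intro l
      obtain ⟨hx, hgen, hQ, hQx, -, -, -, -⟩ := hY l
      exact ⟨hx, hgen, inferInstance, hQ, hQx⟩
    have hy : ∀ l, (fun i => φ l (y l i)) ≠ 0 := by
      intro l h0
      apply (hf l).1
      funext i
      have h1 := congrFun h0 i
      exact (φ l).injective (by rw [Pi.zero_apply, map_zero]; exact h1)
    have hC : (⨆ l, coords k fun i => φ l (y l i)) = ⨆ l, (φ l).fieldRange := by
      congr 1
      funext l
      rw [coords_map, (hf l).2.1, ← AlgHom.fieldRange_eq_map]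
    refine (bounded_multiL hx hgen hQ hQx hy (fun l => (hf l).2.2.1) (fun l => (hf l).2.2.2.1)
      (fun l => ?_) hmap (by rw [hC]; exact h)).2 fun l => linear_homL (φ l) (ih l)
    obtain ⟨c, hc⟩ := (hf l).2.2.2.2
    exact ⟨c, fun h0 => hc ((val_hom_eq (φ l) (y l) (Q' l c)).1 h0)⟩

theorem bounded_of_linear {K : Type} [Field K] [Algebra k K] {M : ℕ} {x : Fin (M + 1) → K}
    {ι : Type} [Finite ι] {Q : ι → MvPolynomial (Fin (M + 1)) k} (h : LinearOff k x Q) :
    BoundedOff k x Q := by
  obtain ⟨G, hG, hGx, A, hA⟩ := h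
  refine ⟨G, hG, hGx, fun E _ _ _ S hS => ⟨A * (max (canDeg k E) 0 + S.ncard),
    fun f hf hfG hfQ hfS => ?_⟩⟩
  refine (hA E f hf hfG hfQ).trans (mul_le_mul_of_nonneg_left ?_ (Int.natCast_nonneg _))
  have h4 : {P : Place k E | Meets Q f P}.ncard ≤ S.ncard :=
    Set.ncard_le_ncard (fun P hP => hfS P hP) hS
  have h6 : ({P : Place k E | Meets Q f P}.ncard : ℤ) ≤ S.ncard := by exact_mod_cast h4
  linarith

end

end Pool.Agent.H916
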