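import Pool.Agent.H916.Multi

/-! Iterated fibrations by hyperbolic curves. -/

set_option autoImplicit false
set_option linter.overlappingInstances false
set_option linter.unusedSectionVars false

open FF Pool.Agent.W603.LV Pool.Agent.W603.PV MvPolynomial
open Pool.Agent.W602.GT (val IsForm VarPts coords val_smul GeneralType)
open Pool.Agent.W602.RG (HasValue PointedMaps PseudoGeomHyp)
open Pool.Agent.Y216 (OnVar canDeg_ratFunc CurveBound)
open Pool.Agent.R882.HY (PseudoBounded)

namespace Pool.Agent.H916

/-- **Iterated fibrations.** The smallest class of function fields `K` of varieties over `k` such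
that `K` belongs to the class whenever there are finitely many members `B l` of the class with
embeddings `B l → K` (dominant rational maps from the variety `X` to the varieties `Y l`) such that
the map from `X` to the product of the `Y l` has relative dimension zero over its image, or its
geometric generic fibre is a curve of genus at least two. (With no `B l` this says that `K` is `k` or
the function field of a curve of genus at least two.) -/
inductive Iterated (k : Type) [Field k] : ∀ (K : Type) [Field K] [Algebra k K], Prop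
  | step {K : Type} [Field K] [Algebra k K] {r : ℕ} {B : Fin r → Type} [iB : ∀ l, Field (B l)]
      [iA : ∀ l, Algebra k (B l)] (hess : Algebra.EssFiniteType k K) (φ : ∀ l, B l →ₐ[k] K)
      (hB : ∀ l, Iterated k (B l)) (h : HypFibres (⨆ l, (φ l).fieldRange)) : Iterated k K

variable {k : Type} [Field k]

theorem exists_model_ess {B : Type} [Field B] [Algebra k B] (h : Algebra.EssFiniteType k B) :
    ∃ (N : ℕ) (y : Fin (N + 1) → B), y ≠ 0 ∧ coords k y = ⊤ := by
  classical
  obtain ⟨s, hs⟩ := IntermediateField.fg_top k B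
  let e : s ≃ Fin (Fintype.card s) := Fintype.equivFin s
  let y : Fin (Fintype.card s + 1) → B := Fin.cons 1 fun i => ((e.symm i : s) : B)
  have hy0 : y 0 = 1 := rfl
  have hy0' : y 0 ≠ 0 := by
    rw [hy0]
    exact one_ne_zero
  refine ⟨Fintype.card s, y, fun h0 => hy0' (congrFun h0 0), ?_⟩
  rw [coords_eq hy0', eq_top_iff, ← hs, IntermediateField.adjoin_le_iff]
  intro z hz
  refine IntermediateField.subset_adjoin _ _ ⟨(e ⟨z, hz⟩).succ, ?_⟩
  change y (e ⟨z, hz⟩).succ / y 0 = z
  rw [hy0, div_one]
  change ((e.symm (e ⟨z, hz⟩) : s) : B) = z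
  rw [Equiv.symm_apply_apply]

theorem ess_coords {K : Type} [Field K] [Algebra k K] {n : ℕ} {y : Fin (n + 1) → K}
    (hgen : coords k y = ⊤) : Algebra.EssFiniteType k K := by
  classical
  have hfin : {z : K | ∃ i j, y j ≠ 0 ∧ z = y i / y j}.Finite := by
    refine (Set.finite_range fun p : Fin (n + 1) × Fin (n + 1) => y p.1 / y p.2).subset ?_
    rintro _ ⟨i, j, -, rfl⟩
    exact ⟨(i, j), rfl⟩
  rw [← IntermediateField.fg_top_iff]
  refine ⟨hfin.toFinset, ?_⟩
  rw [Set.Finite.coe_toFinset]
  exact hgen

theorem coords_map {B K : Type} [Field B] [Field K] [Algebra k B] [Algebra k K] (φ : B →ₐ[k] K)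
    {N : ℕ} (y : Fin (N + 1) → B) : coords k (fun i => φ (y i)) = (coords k y).map φ := by
  unfold Pool.Agent.W602.GT.coords
  rw [IntermediateField.adjoin_map]
  congr 1
  ext z
  constructor
  · rintro ⟨i, j, hj, rfl⟩
    refine ⟨y i / y j, ⟨i, j, fun h0 => hj ?_, rfl⟩, by simp⟩
    change φ (y j) = 0
    rw [h0, map_zero]
  · rintro ⟨_, ⟨i, j, hj, rfl⟩, rfl⟩
    refine ⟨i, j, fun h0 => hj ?_, by simp⟩
    have h1 : φ (y j) = 0 := h0
    rwa [map_eq_zero] at h1

theorem val_hom {B K : Type} [Field B] [Field K] [Algebra k B] [Algebra k K] (φ : B →ₐ[k] K)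
    {N : ℕ} (y : Fin (N + 1) → B) (H : MvPolynomial (Fin (N + 1)) k) :
    val (fun i => φ (y i)) H = φ (val y H) := by
  unfold Pool.Agent.W602.GT.val
  exact (MvPolynomial.comp_aeval_apply y φ H).symm

theorem val_hom_eq {B K : Type} [Field B] [Field K] [Algebra k B] [Algebra k K] (φ : B →ₐ[k] K)
    {N : ℕ} (y : Fin (N + 1) → B) (H : MvPolynomial (Fin (N + 1)) k) :
    val (fun i => φ (y i)) H = 0 ↔ val y H = 0 := by
  rw [val_hom]
  constructor
  · intro h
    rwa [map_eq_zero] at h
  · intro h
    rw [h, map_zero]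

theorem curveBound_hom {B K : Type} [Field B] [Field K] [Algebra k B] [Algebra k K]
    (φ : B →ₐ[k] K) {N : ℕ} {y : Fin (N + 1) → B} (h : CurveBound k y) :
    CurveBound k fun i => φ (y i) := by
  obtain ⟨G, hG, hGy, B, hB⟩ := h
  refine ⟨G, hG, fun h0 => hGy ((val_hom_eq φ y G).1 h0), B, fun L _ _ _ f hf hfG => ?_⟩
  exact hB L f ⟨hf.1, fun H hH hy => hf.2 H hH ((val_hom_eq φ y H).2 hy)⟩ hfG

theorem bounded_of_curveBound {K : Type} [Field K] [Algebra k K] {M : ℕ} {x : Fin (M + 1) → K}
    (h : CurveBound k x) : PseudoBounded k x := by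
  obtain ⟨G, hG, hGx, B, hB⟩ := h
  exact ⟨G, hG, hGx, fun E _ _ _ => ⟨B * max (canDeg k E) 0, fun f hf hfG => hB E f hf hfG⟩⟩

/-- **Iterated fibrations by curves of genus at least two.** -/
theorem Iterated.curveBound [IsAlgClosed k] [CharZero k] {K : Type} [Field K] [Algebra k K]
    (h : Iterated k K) : ∀ (M : ℕ) (x : Fin (M + 1) → K), x ≠ 0 → coords k x = ⊤ →
      CurveBound k x := by
  induction h with
  | @step K _ _ r B iB iA hess φ hB h ih =>
    intro M x hx hgen
    have hessB : ∀ l, Algebra.EssFiniteType k (B l) := by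
      intro l
      obtain ⟨hess', _, _, _⟩ := hB l
      exact hess'
    choose N y' hy' hgen' using fun l => exists_model_ess (hessB l)
    have hy : ∀ l, (fun i => φ l (y' l i)) ≠ 0 := by
      intro l h0
      apply hy' l
      funext i
      have h1 := congrFun h0 i
      exact (φ l).injective (by rw [Pi.zero_apply, map_zero]; exact h1)
    have hC : (⨆ l, coords k fun i => φ l (y' l i)) = ⨆ l, (φ l).fieldRange := by
      congr 1
      funext l
      rw [coords_map, hgen', ← AlgHom.fieldRange_eq_map]
    exact curveBound_multi hx hgen (y := fun l i => φ l (y' l i)) hy (by rw [hC]; exact h)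
      fun l => curveBound_hom (φ l) (ih l (N l) (y' l) (hy' l) (hgen' l))

end Pool.Agent.H916
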