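import Pool.Agent.H916.LPair
import Pool.Agent.H916.Tow

/-! Vojta's height inequality for pairs which are fibred by curves. -/

set_option autoImplicit false
set_option linter.overlappingInstances false
set_option linter.unusedSectionVars false

open FF Pool.Agent.W603.LV Pool.Agent.W603.PV MvPolynomial
open Pool.Agent.W602.GT (val IsForm VarPts coords val_smul LogGeneralType)
open Pool.Agent.Y216 (OnVar)

namespace Pool.Agent.H916

/-- **Vojta's height inequality.** `F` is a function field of one variable over `k`, `X` the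
projective variety over `F` with the generic point `x`, and `D` the closed subset of `X` given by the
forms `Q i`. Outside of a proper closed subset `G = 0` the height of the points `v` of `X ∖ D` over
finite extensions `L` of `F` is at most `A * (2 g(L) - 2 + N) + C * [L : F]`, where `N` is the number
of places of `L` at which `v` meets `D`. -/
def VojtaIneq (k : Type) {F K : Type} [Field k] [Field F] [Algebra k F] [Field K] [Algebra F K]
    {M : ℕ} (x : Fin (M + 1) → K) {ι : Type} (Q : ι → MvPolynomial (Fin (M + 1)) F) : Prop :=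
  ∃ G : MvPolynomial (Fin (M + 1)) F, IsForm G ∧ val x G ≠ 0 ∧ ∃ A C : ℕ,
    ∀ (L : Type) [Field L] [Algebra k L] [Algebra F L] [IsScalarTower k F L]
      [FiniteDimensional F L] (v : Fin (M + 1) → L), OnVar F x v → val v G ≠ 0 →
      (∃ i, aeval v (Q i) ≠ 0) →
        pht k v ≤ A * (canDeg k L + {P : Place k L | Meets Q v P}.ncard) +
          C * Module.finrank F L

/-- **Iterated fibrations by hyperbolic curves.** The smallest class of pairs `(X, D)` over `F`, where
`X` is a projective variety over `F` with the generic point `x` and `D` is a proper closed subset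
given by forms `Q i`, such that `(X, D)` belongs to the class whenever there are finitely many
members `(Y l, D' l)` of the class and dominant rational maps of pairs from `(X, D)` to
`(Y l, D' l)` (given by embeddings `φ l` of the function fields) such that the map from `X` to the
product of the `Y l` has relative dimension zero over its image, or its geometric generic fibre is a
curve which is hyperbolic after removing the points of `D`. (With no `Y l` this says that the
dimension of `X` is zero, or that `X ∖ D` is a hyperbolic curve over the algebraic closure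
of `F`.) -/
inductive LogIterated (F : Type) [Field F] : ∀ {K : Type} [Field K] [Algebra F K] {M : ℕ}
    (_ : Fin (M + 1) → K) {ι : Type} (_ : ι → MvPolynomial (Fin (M + 1)) F), Prop
  | step {K : Type} [Field K] [Algebra F K] {M : ℕ} {x : Fin (M + 1) → K} {ι : Type} [Finite ι]
      {Q : ι → MvPolynomial (Fin (M + 1)) F} {r : ℕ} {B : Fin r → Type} [iB : ∀ l, Field (B l)]
      [iA : ∀ l, Algebra F (B l)] {N : Fin r → ℕ} {y : ∀ l, Fin (N l + 1) → B l}
      {κ : Fin r → Type} {Q' : ∀ l, κ l → MvPolynomial (Fin (N l + 1)) F} (hx : x ≠ 0)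
      (hgen : coords F x = ⊤) (hQ : ∀ i, IsForm (Q i)) (hQx : ∃ i, aeval x (Q i) ≠ 0)
      (hY : ∀ l, LogIterated F (y l) (Q' l)) (φ : ∀ l, B l →ₐ[F] K)
      (hmap : ∀ l, PairMap x Q (fun j => φ l (y l j)) (Q' l))
      (h : LogHypFibres (⨆ l, (φ l).fieldRange).toSubfield (cuspFun x Q)) : LogIterated F x Q

section

variable {k F : Type} [Field k] [IsAlgClosed k] [CharZero k] [Field F] [Algebra k F] [IsFF k F]

theorem LogIterated.facts {K : Type} [Field K] [Algebra F K] {M : ℕ} {x : Fin (M + 1) → K}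
    {ι : Type} {Q : ι → MvPolynomial (Fin (M + 1)) F} (h : LogIterated F x Q) :
    x ≠ 0 ∧ coords F x = ⊤ ∧ Finite ι ∧ (∀ i, IsForm (Q i)) ∧ ∃ i, aeval x (Q i) ≠ 0 := by
  obtain ⟨hx, hgen, hQ, hQx, -, -, -, -⟩ := h
  exact ⟨hx, hgen, inferInstance, hQ, hQx⟩

/-- **Ascent of Vojta's inequality.** -/
theorem vojta_multi {K : Type} [Field K] [Algebra F K] {M : ℕ} {x : Fin (M + 1) → K} (hx : x ≠ 0)
    (hgen : coords F x = ⊤) {ι : Type} [Finite ι] {Q : ι → MvPolynomial (Fin (M + 1)) F}
    (hQ : ∀ i, IsForm (Q i)) (hQx : ∃ i, aeval x (Q i) ≠ 0) {r : ℕ} {N : Fin r → ℕ}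
    {y : ∀ l, Fin (N l + 1) → K} (hy : ∀ l, y l ≠ 0) {κ : Fin r → Type}
    (hκ : ∀ l, Finite (κ l)) {Q' : ∀ l, κ l → MvPolynomial (Fin (N l + 1)) F}
    (hQ' : ∀ l c, IsForm (Q' l c)) (hQ'y : ∀ l, ∃ c, aeval (y l) (Q' l c) ≠ 0)
    (hmap : ∀ l, PairMap x Q (y l) (Q' l))
    (hfib : LogHypFibres (⨆ l, coords F (y l)).toSubfield (cuspFun x Q))
    (hV : ∀ l, VojtaIneq k (y l) (Q' l)) : VojtaIneq k x Q := by
  classical
  have hF0 : CharZero F := charZero_of_injective_algebraMap (algebraMap k F).injective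
  let iK : Algebra k K := ((algebraMap F K).comp (algebraMap k F)).toAlgebra
  have tK : IsScalarTower k F K := IsScalarTower.of_algebraMap_eq fun _ => rfl
  have hessF : Algebra.EssFiniteType k F := IsFF.ess
  obtain ⟨s, hs⟩ := IntermediateField.fg_top k F
  obtain ⟨τ, t, ht⟩ : ∃ (τ : ℕ) (t : Fin τ → F), IntermediateField.adjoin k (Set.range t) = ⊤ := by
    refine ⟨s.card, fun i => (s.equivFin.symm i : F), ?_⟩
    have h1 : Set.range (fun i => ((s.equivFin.symm i : s) : F)) = (s : Set F) := by
      ext z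
      constructor
      · rintro ⟨i, rfl⟩
        exact (s.equivFin.symm i).2
      · intro hz
        exact ⟨s.equivFin ⟨z, hz⟩, congrArg Subtype.val (s.equivFin.symm_apply_apply ⟨z, hz⟩)⟩
    rw [h1]
    exact hs
  obtain ⟨j, e, H, hH, G, hG, hGx, hGj, A, hA⟩ :=
    rel_log_rat (k := k) (k0 := F) ht hx hgen hy hQ hQx hfib
  choose G' hG' hG'y A' C' hV' using hV
  choose c hc using hQ'y
  have hcount := fun l => (hmap l).count (k := k) hQ (hQ' l) (hH l)
  choose b hb using hcount
  refine ⟨G * ((∏ l, aeval (H l) (G' l)) * ∏ l, aeval (H l) (Q' l (c l))),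
    isForm_mul0 hG (isForm_mul0 (isForm_prod0 fun l => isForm_comp0 (hH l).hom (hG' l))
      (isForm_prod0 fun l => isForm_comp0 (hH l).hom (hQ' l (c l)))), ?_,
    A * (1 + ∑ l, A' l), A * (2 + ∑ l, (A' l * b l + C' l) + (∑ i, hgt k (t i)).toNat),
    fun L _ _ _ _ _ v hv hvG hvQ => ?_⟩
  · rw [val_mul_ne0, val_mul_ne0, val_prod_ne0, val_prod_ne0]
    exact ⟨hGx, fun l h0 => hG'y l (((hH l).val_iff (hG' l)).1 h0),
      fun l h0 => hc l (((hH l).val_iff (hQ' l (c l))).1 h0)⟩
  · rw [val_mul_ne0, val_mul_ne0, val_prod_ne0, val_prod_ne0] at hvG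
    obtain ⟨hv1, hv2, hv3⟩ := hvG
    have hff : IsFF k L := isFF_of_finite (k := k) (F := F) (L := L)
    have h1 := hA L v hv hv1
    have hn : (1 : ℤ) ≤ Module.finrank F L := by
      exact_mod_cast (Module.finrank_pos : 0 < Module.finrank F L)
    obtain ⟨n, hn'⟩ : ∃ n : ℤ, n = Module.finrank F L := ⟨_, rfl⟩
    obtain ⟨m, hm⟩ : ∃ m : ℤ, m = {P : Place k L | Meets Q v P}.ncard := ⟨_, rfl⟩
    have hcan : -2 ≤ canDeg k L := canDeg_ge_neg_two
    -- the heights of the images
    have h2 : ∀ l, (pht k fun i => aeval v (H l i)) ≤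
        A' l * (canDeg k L + m + b l * n) + C' l * n := by
      intro l
      have h3 := hV' l L (fun i => aeval v (H l i)) ((hH l).on hv (hGj L v hv hv1 l))
        (by rw [← val_comp0]; exact hv2 l) ⟨c l, by
          have h4 := hv3 l
          rw [val_comp0] at h4
          exact h4⟩
      have h4 := hb l L v hv (hGj L v hv hv1 l) hvQ
      rw [← hn', ← hm] at h4
      rw [← hn'] at h3
      refine h3.trans ?_
      have h5 : (0 : ℤ) ≤ A' l := Int.natCast_nonneg _
      nlinarith
    have h3 : ∑ i, hgt k (algebraMap F L (t i)) = n * ∑ i, hgt k (t i) := by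
      rw [Finset.mul_sum, hn']
      exact Finset.sum_congr rfl fun i _ => hgt_algebraMap _
    have h4 : ((∑ i, hgt k (t i)).toNat : ℤ) = ∑ i, hgt k (t i) :=
      Int.toNat_of_nonneg (Finset.sum_nonneg fun c _ => hgt_nonneg _)
    have h5 : ∑ l, (pht k fun i => aeval v (H l i)) ≤
        (∑ l, (A' l : ℤ)) * (canDeg k L + m) + (∑ l, ((A' l : ℤ) * b l + C' l)) * n := by
      refine (Finset.sum_le_sum fun l _ => h2 l).trans (le_of_eq ?_)
      rw [Finset.sum_mul, Finset.sum_mul, ← Finset.sum_add_distrib]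
      exact Finset.sum_congr rfl fun l _ => by ring
    have h6 : max (canDeg k L) 0 ≤ canDeg k L + 2 * n := by
      rw [← hn'] at hn
      refine max_le ?_ ?_ <;> linarith
    rw [h3, ← h4] at h1
    refine h1.trans ?_
    rw [← hn', ← hm]
    push_cast
    have h7 : (0 : ℤ) ≤ A := Int.natCast_nonneg _
    have h8 := mul_le_mul_of_nonneg_left (add_le_add (add_le_add h6 (le_refl m)) h5) h7
    nlinarith

theorem vojta_hom {B K : Type} [Field B] [Field K] [Algebra F B] [Algebra F K]
    (φ : B →ₐ[F] K) {N : ℕ} {y : Fin (N + 1) → B} {κ : Type}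
    {Q : κ → MvPolynomial (Fin (N + 1)) F} (h : VojtaIneq k y Q) :
    VojtaIneq k (fun i => φ (y i)) Q := by
  obtain ⟨G, hG, hGy, A, C, hA⟩ := h
  refine ⟨G, hG, fun h0 => hGy ((val_hom_eq φ y G).1 h0), A, C, fun L _ _ _ _ _ f hf hfG hfQ => ?_⟩
  exact hA L f ⟨hf.1, fun H hH hy => hf.2 H hH ((val_hom_eq φ y H).2 hy)⟩ hfG hfQ

/-- **Vojta's inequality for iterated fibrations by hyperbolic curves.** -/
theorem LogIterated.vojta {K : Type} [Field K] [Algebra F K] {M : ℕ} {x : Fin (M + 1) → K}
    {ι : Type} {Q : ι → MvPolynomial (Fin (M + 1)) F} (h : LogIterated F x Q) :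
    VojtaIneq k x Q := by
  induction h with
  | @step K _ _ M x ι _ Q r B iB iA N y κ Q' hx hgen hQ hQx hY φ hmap h ih =>
    have hf := fun l => (hY l).facts
    have hy : ∀ l, (fun i => φ l (y l i)) ≠ 0 := by
      intro l h0
      apply (hf l).1
      funext i
      have h1 := congrFun h0 i
      exact (φ l).injective (by rw [Pi.zero_apply, map_zero]; exact h1)
    have hC : (⨆ l, coords F fun i => φ l (y l i)) = ⨆ l, (φ l).fieldRange := by
      congr 1
      funext l
      rw [coords_map, (hf l).2.1, ← AlgHom.fieldRange_eq_map]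
    refine vojta_multi hx hgen hQ hQx hy (fun l => (hf l).2.2.1) (fun l => (hf l).2.2.2.1)
      (fun l => ?_) hmap (by rw [hC]; exact h) fun l => vojta_hom (φ l) (ih l)
    obtain ⟨c, hc⟩ := (hf l).2.2.2.2
    exact ⟨c, fun h0 => hc ((val_hom_eq (φ l) (y l) (Q' l c)).1 h0)⟩

end

/-- Pairs of log general type with maps to iterated fibrations. -/
theorem logHyp_of_lgt' {F : Type} [Field F] [CharZero F] {K : Type} [Field K] [Algebra F K] {M : ℕ} {x : Fin (M + 1) → K} (hx : x ≠ 0)
    (hgen : coords F x = ⊤) {ι : Type} [Finite ι] {Q : ι → MvPolynomial (Fin (M + 1)) F}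
    (hQx : ∃ i, aeval x (Q i) ≠ 0) {C : IntermediateField F K} {n : ℕ}
    (hgt : LogGeneralType F K n (fun P => Meets Q x P))
    (htr : Algebra.trdeg F K ≤ Algebra.trdeg F C + 1) :
    LogHypFibres C.toSubfield (cuspFun x Q) := by
  exact logHyp_of_lgt (ess_coords hgen) hx hQx hgt htr

end Pool.Agent.H916
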