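import Pool.Agent.H916.Rel

/-! The geometric generic fibre. -/

set_option autoImplicit false
set_option linter.overlappingInstances false
set_option linter.unusedSectionVars false

open FF Filter Pool.Agent.W603.LV Pool.Agent.W603.PV

namespace Pool.Agent.H916

/-- `Ω` is an algebraic closure of the field of functions of `Spec B0`, and `M` is the field of
functions of a component of the geometric generic fibre of `Spec B → Spec B0`. -/
structure FibreField (B0 B Ω M : Type) [CommRing B0] [CommRing B] [Field Ω] [Field M]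
    [Algebra B0 B] [Algebra B0 Ω] [Algebra B M] [Algebra Ω M] : Prop where
  inj0 : Function.Injective (algebraMap B0 B)
  inj : Function.Injective (algebraMap B M)
  alg : Algebra.IsAlgebraic B0 Ω
  closed : IsAlgClosed Ω
  gen : IntermediateField.adjoin Ω (Set.range (algebraMap B M)) = ⊤

theorem exists_fibreField {k B0 B : Type} [Field k] [CommRing B0] [CommRing B] [IsDomain B]
    [Algebra k B0] [Algebra k B] [Algebra B0 B] [IsScalarTower k B0 B]
    (inj0 : Function.Injective (algebraMap B0 B)) :
    ∃ (Ω M : Type) (_ : Field Ω) (_ : Field M) (_ : Algebra B0 Ω) (_ : Algebra B0 M)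
      (_ : Algebra B M) (_ : Algebra Ω M) (_ : Algebra k Ω) (_ : Algebra k M)
      (_ : IsScalarTower B0 B M) (_ : IsScalarTower B0 Ω M) (_ : IsScalarTower k B0 Ω)
      (_ : IsScalarTower k Ω M) (_ : IsScalarTower k B M), FibreField B0 B Ω M := by
  classical
  have hd0 : IsDomain B0 := inj0.isDomain (algebraMap B0 B)
  obtain ⟨K, i1, i2, i3, hBK⟩ : ∃ (K : Type) (_ : Field K) (_ : IsAlgClosed K) (_ : Algebra B K),
      Function.Injective (algebraMap B K) :=
    ⟨AlgebraicClosure (FractionRing B), inferInstance, inferInstance,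
      ((algebraMap (FractionRing B) (AlgebraicClosure (FractionRing B))).comp
        (algebraMap B (FractionRing B))).toAlgebra,
      (algebraMap (FractionRing B) (AlgebraicClosure (FractionRing B))).injective.comp
        (IsFractionRing.injective B (FractionRing B))⟩
  let ρ : B0 →+* K := (algebraMap B K).comp (algebraMap B0 B)
  have hρ : Function.Injective ρ := hBK.comp inj0
  -- the field of fractions of `B0`
  obtain ⟨F0, j1, j2, j3⟩ : ∃ (F0 : Type) (_ : Field F0) (_ : Algebra B0 F0),
      IsFractionRing B0 F0 := ⟨FractionRing B0, inferInstance, inferInstance, inferInstance⟩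
  let ρ0 : F0 →+* K := IsFractionRing.lift hρ
  have hρ0 : ∀ b, ρ0 (algebraMap B0 F0 b) = ρ b := fun b => IsFractionRing.lift_algebraMap hρ b
  let iFK : Algebra F0 K := ρ0.toAlgebra
  let Ω : IntermediateField F0 K := algebraicClosure F0 K
  have hclΩ : IsAlgClosed Ω :=
    (IsAlgClosed.algebraicClosure_eq_bot_iff Ω K).1 (algebraicClosure.algebraicClosure_eq_bot F0 K)
  let M : IntermediateField Ω K := IntermediateField.adjoin Ω (Set.range (algebraMap B K))
  let iB0Ω : Algebra B0 Ω := ((algebraMap F0 Ω).comp (algebraMap B0 F0)).toAlgebra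
  let iBM : Algebra B M := ((algebraMap B K).codRestrict M.toSubfield.toSubring fun b =>
    IntermediateField.subset_adjoin Ω _ ⟨b, rfl⟩ : B →+* M).toAlgebra
  let iB0M : Algebra B0 M := ((algebraMap Ω M).comp (algebraMap B0 Ω)).toAlgebra
  let ikΩ : Algebra k Ω := ((algebraMap B0 Ω).comp (algebraMap k B0)).toAlgebra
  let ikM : Algebra k M := ((algebraMap Ω M).comp (algebraMap k Ω)).toAlgebra
  have hBM : ∀ b : B, ((algebraMap B M b : M) : K) = algebraMap B K b := fun b => rfl
  have hB0Ω : ∀ b : B0, ((algebraMap B0 Ω b : Ω) : K) = ρ b := fun b => hρ0 b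
  have hΩM : ∀ c : Ω, ((algebraMap Ω M c : M) : K) = c := fun c => rfl
  have t1 : IsScalarTower B0 B M := IsScalarTower.of_algebraMap_eq fun b => by
    apply Subtype.ext
    change ((algebraMap Ω M (algebraMap B0 Ω b) : M) : K) = _
    rw [hΩM, hB0Ω, hBM]
    rfl
  have t2 : IsScalarTower B0 Ω M := IsScalarTower.of_algebraMap_eq fun b => rfl
  have t3 : IsScalarTower k B0 Ω := IsScalarTower.of_algebraMap_eq fun b => rfl
  have t4 : IsScalarTower k Ω M := IsScalarTower.of_algebraMap_eq fun b => rfl
  have t5 : IsScalarTower k B M := IsScalarTower.of_algebraMap_eq fun b => by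
    change algebraMap Ω M (algebraMap B0 Ω (algebraMap k B0 b)) = _
    rw [← IsScalarTower.algebraMap_apply B0 Ω M, IsScalarTower.algebraMap_apply B0 B M,
      ← IsScalarTower.algebraMap_apply k B0 B]
  refine ⟨Ω, M, inferInstance, inferInstance, iB0Ω, iB0M, iBM, inferInstance, ikΩ, ikM, t1, t2, t3,
    t4, t5, inj0, ?_, ?_, hclΩ, ?_⟩
  · intro b b' h
    apply hBK
    rw [← hBM, ← hBM, h]
  · refine ⟨fun c => ?_⟩
    have h1 : IsAlgebraic F0 c := by
      have h2 : IsAlgebraic F0 (c : K) := mem_algebraicClosure_iff.1 c.2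
      exact (isAlgebraic_algebraMap_iff (algebraMap Ω K).injective).1 h2
    have t0 : IsScalarTower B0 F0 Ω := IsScalarTower.of_algebraMap_eq fun b => rfl
    exact (IsFractionRing.isAlgebraic_iff B0 F0 Ω).2 h1
  · have h1 : (IntermediateField.adjoin Ω (Set.range (algebraMap B M))).map M.val =
        (⊤ : IntermediateField Ω M).map M.val := by
      rw [IntermediateField.adjoin_map, ← AlgHom.fieldRange_eq_map,
        IntermediateField.fieldRange_val, ← Set.range_comp]
      rfl
    exact IntermediateField.map_injective _ h1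

end Pool.Agent.H916
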