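import Pool.Agent.H916.LRel2
import Pool.Agent.H916.Fib
import Pool.Graph.R_pool_sql_team_seeded_c8625f6e.K4H62.IT.Curve

/-! Functions with poles exactly at the cusps, which are defined over the field of functions of the
total space. -/

set_option autoImplicit false
set_option linter.overlappingInstances false
set_option linter.unusedSectionVars false

open FF Filter Pool.Agent.W603.LV Pool.Agent.W603.PV Polynomial

namespace Pool.Agent.H916

section comb

variable {S N : Type} [Field S] [Field N] [Algebra S N] [CharZero S] [IsFF S N]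

omit [IsFF S N] in
theorem ord_nat (P : Place S N) {m : ℕ} (hm : m ≠ 0) : P.ord (m : N) = 0 := by
  have h3 : P.ord (algebraMap S N (m : S)) = 0 := P.ord_const (Nat.cast_ne_zero.2 hm)
  rwa [map_natCast] at h3

omit [CharZero S] [IsFF S N] in
theorem not_ge_iff {P : Place S N} {f : N} : ¬ Ge P 0 f ↔ P.ord f < 0 := by
  constructor
  · intro h
    by_contra hc
    exact h (Or.inr (not_lt.1 hc))
  · rintro h (h0 | h0)
    · rw [h0, P.ord_zero] at h
      omega
    · omega

omit [IsFF S N] in
/-- generic linear combinations have all the poles -/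
theorem exists_comb (T : Finset (Place S N)) {n : ℕ} (c : Fin n → N) :
    ∃ l : Fin n → ℕ, ∀ P ∈ T, (∃ j, P.ord (c j) < 0) → P.ord (∑ j, (l j : N) * c j) < 0 := by
  classical
  have hcN : CharZero N := charZero_of_injective_algebraMap (algebraMap S N).injective
  induction n with
  | zero => exact ⟨Fin.elim0, fun P _ ⟨j, _⟩ => j.elim0⟩
  | succ n ih =>
    obtain ⟨l, hl⟩ := ih (fun j => c (Fin.castSucc j))
    obtain ⟨z, hz⟩ : ∃ z, z = ∑ j, (l j : N) * c (Fin.castSucc j) := ⟨_, rfl⟩
    rw [← hz] at hl
    have hbad : ∀ P : Place S N, (P.ord z < 0 ∨ P.ord (c (Fin.last n)) < 0) →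
        {m : ℕ | ¬ P.ord (z + m * c (Fin.last n)) < 0}.Subsingleton := by
      intro P hP m hm m' hm'
      have h1 : Ge P 0 (z + m * c (Fin.last n)) := Or.inr (not_lt.1 hm)
      have h2 : Ge P 0 (z + m' * c (Fin.last n)) := Or.inr (not_lt.1 hm')
      by_contra hne
      have h3 : Ge P 0 (((m : N) - m') * c (Fin.last n)) := by
        have := h1.sub h2
        have e : z + m * c (Fin.last n) - (z + m' * c (Fin.last n)) =
            ((m : N) - m') * c (Fin.last n) := by ring
        rwa [e] at this
      have h4 : Ge P 0 (c (Fin.last n)) := by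
        have hd : ((m : S) - m') ≠ 0 := by
          rw [sub_ne_zero]
          exact_mod_cast hne
        have h5 := (Ge.const (P := P) ((m : S) - m')⁻¹).mul h3
        rw [map_inv₀, map_sub, map_natCast, map_natCast, inv_mul_cancel_left₀, zero_add] at h5
        · exact h5
        · rw [sub_ne_zero]
          exact_mod_cast hne
      have h5 : Ge P 0 z := by
        have := h1.sub ((Ge.natCast (P := P) m).mul h4)
        rwa [add_sub_cancel_right] at this
      rcases hP with h6 | h6
      · exact not_ge_iff.2 h6 h5
      · exact not_ge_iff.2 h6 h4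
    have hfin : (⋃ P ∈ {P : Place S N | P ∈ T ∧ (P.ord z < 0 ∨ P.ord (c (Fin.last n)) < 0)},
        {m : ℕ | ¬ P.ord (z + m * c (Fin.last n)) < 0}).Finite := by
      refine Set.Finite.biUnion (T.finite_toSet.subset fun P hP => hP.1) fun P hP => ?_
      exact (hbad P hP.2).finite
    obtain ⟨m, hm⟩ := hfin.exists_notMem
    refine ⟨Fin.snoc l m, fun P hPT hP => ?_⟩
    have hsum : ∑ j, ((Fin.snoc l m : Fin (n + 1) → ℕ) j : N) * c j = z + m * c (Fin.last n) := by
      rw [Fin.sum_univ_castSucc, hz]
      simp only [Fin.snoc_castSucc, Fin.snoc_last]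
    rw [hsum]
    have h1 : P.ord z < 0 ∨ P.ord (c (Fin.last n)) < 0 := by
      obtain ⟨j, hj⟩ := hP
      induction j using Fin.lastCases with
      | last => exact Or.inr hj
      | cast j => exact Or.inl (hl P hPT ⟨j, hj⟩)
    by_contra hc
    apply hm
    rw [Set.mem_iUnion₂]
    exact ⟨P, ⟨hPT, h1⟩, hc⟩

variable [IsAlgClosed S]

theorem cst_or_pole (a : N) : (∃ c : S, a = algebraMap S N c) ∨ ∃ P : Place S N, P.ord a < 0 := by
  by_cases h : ∀ P : Place S N, 0 ≤ P.ord a
  · exact Or.inl (Pool.Agent.K4H62.IT.const_of_reg h)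
  · push Not at h
    exact Or.inr h

/-- functions which are regular where given functions are regular are integral over them -/
theorem int_of_reg {J : Type} [Finite J] (a : J → N) (b : N)
    (hb : ∀ P : Place S N, (∀ j, Ge P 0 (a j)) → Ge P 0 b) :
    IsIntegral (Algebra.adjoin S (Set.range a)) b := by
  classical
  have hcN : CharZero N := charZero_of_injective_algebraMap (algebraMap S N).injective
  by_cases hall : ∀ j, ∃ c : S, a j = algebraMap S N c
  · have h1 : ∀ P : Place S N, 0 ≤ P.ord b := by
      intro P
      by_contra hc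
      refine not_ge_iff.2 (not_le.1 hc) (hb P fun j => ?_)
      obtain ⟨c, hc⟩ := hall j
      rw [hc]
      exact Ge.const c
    obtain ⟨c, hc⟩ := Pool.Agent.K4H62.IT.const_of_reg h1
    rw [hc]
    exact isIntegral_algebraMap (R := Algebra.adjoin S (Set.range a))
      (x := algebraMap S (Algebra.adjoin S (Set.range a)) c)
  · push Not at hall
    obtain ⟨j0, hj0⟩ := hall
    obtain ⟨P0, hP0⟩ := (cst_or_pole (S := S) (a j0)).resolve_left (fun ⟨c, hc⟩ => hj0 c hc)
    cases nonempty_fintype J
    obtain ⟨e⟩ : Nonempty (Fin (Fintype.card J) ≃ J) := ⟨(Fintype.equivFin J).symm⟩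
    have hTfin : (⋃ j : J, {P : Place S N | P.ord (a j) ≠ 0}).Finite :=
      Set.finite_iUnion fun j => finite_support (k := S) (a j)
    have hT : ∀ (P : Place S N) (j : J), P.ord (a j) ≠ 0 → P ∈ hTfin.toFinset := by
      intro P j hP
      rw [Set.Finite.mem_toFinset]
      exact Set.mem_iUnion.2 ⟨j, hP⟩
    obtain ⟨l, hl⟩ := exists_comb (S := S) hTfin.toFinset (fun i => a (e i))
    obtain ⟨t, ht⟩ : ∃ t, t = ∑ i, (l i : N) * a (e i) := ⟨_, rfl⟩
    rw [← ht] at hl
    have hreg : ∀ P : Place S N, 0 ≤ P.ord t → ∀ j, Ge P 0 (a j) := by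
      intro P hP j
      by_contra hc
      have h1 := not_ge_iff.1 hc
      have h2 := hl P (hT P j h1.ne) ⟨e.symm j, by rw [Equiv.apply_symm_apply]; exact h1⟩
      omega
    have htr : Transcendental S t := by
      intro hc
      have h2 := IsAlgClosed.degree_eq_one_of_irreducible S (minpoly.irreducible hc.isIntegral)
      obtain ⟨c, hc⟩ := minpoly.mem_range_of_degree_eq_one S t h2
      have h3 : 0 ≤ P0.ord t := by
        rw [← hc]
        by_cases h0 : c = 0
        · rw [h0, map_zero, P0.ord_zero]
        · rw [P0.ord_const h0]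
      exact not_ge_iff.2 hP0 (hreg P0 h3 j0)
    have h1 : b ∈ (integralClosure (Algebra.adjoin S {t}) N).toSubring := by
      refine H916.glob (S := S) (F := N) (K := N) (0 : Derivation ℤ N N) t htr _
        (fun y hy => ⟨hy, ?_⟩) b fun P hP => tau_coe _ P (hb P (hreg P hP))
      change (0 : N) ∈ _
      exact Subring.zero_mem _
    have h2 : IsIntegral (Algebra.adjoin S {t}) b := h1
    have htA : Algebra.adjoin S {t} ≤ Algebra.adjoin S (Set.range a) := by
      rw [Algebra.adjoin_le_iff, Set.singleton_subset_iff, ht]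
      refine Subalgebra.sum_mem _ fun i _ => Subalgebra.mul_mem _ (Subalgebra.natCast_mem _ _) ?_
      exact Algebra.subset_adjoin ⟨e i, rfl⟩
    obtain ⟨p, hp, he⟩ := h2
    refine ⟨p.map (Subalgebra.inclusion htA).toRingHom, hp.map _, ?_⟩
    rw [Polynomial.eval₂_map]
    exact he

end comb

section z

variable {C K Ω F : Type} [Field C] [Field K] [Field Ω] [Field F] [Algebra C K] [Algebra C Ω]
  [Algebra Ω F] [Algebra K F] [Algebra C F] [IsScalarTower C K F] [IsScalarTower C Ω F]
  [CharZero Ω] [IsAlgClosed Ω] [IsFF Ω F]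

/-- a function on the total space with poles exactly at the cusps of the generic fibre -/
theorem exists_z (halg : Algebra.IsAlgebraic C Ω) (hKF : Algebra.IsAlgebraic K F) {ι J : Type}
    [Finite ι] [Nonempty ι] [Finite J] (s : ι → J → K) :
    ∃ z : K, (∀ i, IsIntegral (Algebra.adjoin Ω (Set.range fun j => algebraMap K F (s i j)))
      (algebraMap K F z)) ∧ ∀ P : Place Ω F, P.ord (algebraMap K F z) < 0 ↔
        ∀ i, ∃ j, P.ord (algebraMap K F (s i j)) < 0 := by
  classical
  have hcF : CharZero F := charZero_of_injective_algebraMap (algebraMap Ω F).injective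
  obtain ⟨i0⟩ := ‹Nonempty ι›
  have hTfin : {P : Place Ω F | ∀ i, ∃ j, P.ord (algebraMap K F (s i j)) < 0}.Finite := by
    have h1 : (⋃ j : J, {P : Place Ω F | P.ord (algebraMap K F (s i0 j)) ≠ 0}).Finite :=
      Set.finite_iUnion fun j => finite_support (k := Ω) (algebraMap K F (s i0 j))
    refine h1.subset fun P hP => ?_
    have h2 : ∀ i, ∃ j, P.ord (algebraMap K F (s i j)) < 0 := hP
    obtain ⟨j, hj⟩ := h2 i0
    exact Set.mem_iUnion.2 ⟨j, hj.ne⟩
  obtain ⟨T, hT⟩ : ∃ T : Finset (Place Ω F), ∀ P, P ∈ T ↔
      ∀ i, ∃ j, P.ord (algebraMap K F (s i j)) < 0 := ⟨hTfin.toFinset, fun P => by simp⟩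
  -- one function for each cusp
  have hone : ∀ P : Place Ω F, P ∈ T → ∃ c : K, P.ord (algebraMap K F c) < 0 ∧ ∀ i,
      IsIntegral (Algebra.adjoin Ω (Set.range fun j => algebraMap K F (s i j)))
        (algebraMap K F c) := by
    intro P hP
    obtain ⟨b, hb, hbc⟩ := exists_pole P
    have hbP : P.ord b < 0 := by
      by_contra hc
      rcases cst_or_pole (S := Ω) b with ⟨c, hc'⟩ | ⟨Q, hQ⟩
      · exact hbc c hc'
      · by_cases hQP : Q = P
        · rw [hQP] at hQ
          exact hc hQ
        · exact not_ge_iff.2 hQ (hb Q hQP)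
    have hint : ∀ i, IsIntegral (Algebra.adjoin Ω (Set.range fun j => algebraMap K F (s i j))) b := by
      intro i
      refine int_of_reg _ b fun Q hQ => hb Q ?_
      rintro rfl
      obtain ⟨j, hj⟩ := (hT Q).1 hP i
      exact not_ge_iff.2 hj (hQ j)
    have hintC : ∀ i, IsIntegral (Algebra.adjoin C (Set.range (s i))) b := by
      intro i
      let A0 := Algebra.adjoin C (Set.range (s i))
      let Cl := integralClosure A0 F
      have h1 : ∀ y ∈ Algebra.adjoin Ω (Set.range fun j => algebraMap K F (s i j)), y ∈ Cl := by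
        intro y hy
        induction hy using Algebra.adjoin_induction with
        | mem y hy =>
          obtain ⟨j, rfl⟩ := hy
          exact isIntegral_algebraMap (R := A0) (A := F)
            (x := ⟨s i j, Algebra.subset_adjoin ⟨j, rfl⟩⟩)
        | algebraMap r =>
          have h2 : IsIntegral C (algebraMap Ω F r) := (halg.isAlgebraic r).isIntegral.algebraMap
          exact h2.tower_top
        | add x y _ _ hx hy => exact Cl.add_mem hx hy
        | mul x y _ _ hx hy => exact Cl.mul_mem hx hy
      let g : Algebra.adjoin Ω (Set.range fun j => algebraMap K F (s i j)) →+* Cl :=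
        (algebraMap _ F).codRestrict Cl (fun x => h1 x x.2)
      have h2 : IsIntegral Cl b := by
        obtain ⟨p, hp, he⟩ := hint i
        refine ⟨p.map g, hp.map g, ?_⟩
        rw [Polynomial.eval₂_map]
        exact he
      exact isIntegral_trans (R := A0) (A := Cl) b h2
    have hbK : IsIntegral K b := (hKF.isAlgebraic b).isIntegral
    obtain ⟨m, hm⟩ : ∃ m, m = minpoly K b := ⟨_, rfl⟩
    have hmm : m.Monic := by
      rw [hm]
      exact minpoly.monic hbK
    have hcoef : ∀ i n, IsIntegral (Algebra.adjoin C (Set.range (s i))) (m.coeff n) := by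
      intro i n
      obtain ⟨p, hp, he⟩ := hintC i
      refine Polynomial.isIntegral_coeff_of_dvd p m hp hmm ?_ n
      rw [hm]
      apply minpoly.dvd
      rw [Polynomial.aeval_map_algebraMap]
      exact he
    have hcoef' : ∀ i n, IsIntegral (Algebra.adjoin Ω (Set.range fun j => algebraMap K F (s i j)))
        (algebraMap K F (m.coeff n)) := by
      intro i n
      have h1 : ∀ y ∈ Algebra.adjoin C (Set.range (s i)), algebraMap K F y ∈
          Algebra.adjoin Ω (Set.range fun j => algebraMap K F (s i j)) := by
        intro y hy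
        induction hy using Algebra.adjoin_induction with
        | mem y hy =>
          obtain ⟨j, rfl⟩ := hy
          exact Algebra.subset_adjoin ⟨j, rfl⟩
        | algebraMap r =>
          rw [← IsScalarTower.algebraMap_apply C K F, IsScalarTower.algebraMap_apply C Ω F]
          exact Subalgebra.algebraMap_mem _ _
        | add x y _ _ hx hy =>
          rw [map_add]
          exact Subalgebra.add_mem _ hx hy
        | mul x y _ _ hx hy =>
          rw [map_mul]
          exact Subalgebra.mul_mem _ hx hy
      let g : Algebra.adjoin C (Set.range (s i)) →+*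
          Algebra.adjoin Ω (Set.range fun j => algebraMap K F (s i j)) :=
        ((algebraMap K F).comp (algebraMap _ K)).codRestrict _ (fun x => h1 x x.2)
      obtain ⟨p, hp, he⟩ := hcoef i n
      refine ⟨p.map g, hp.map g, ?_⟩
      rw [Polynomial.eval₂_map]
      have h2 := congrArg (algebraMap K F) he
      rw [map_zero, Polynomial.hom_eval₂] at h2
      exact h2
    by_contra hcon
    push Not at hcon
    have hge : ∀ n, Ge P 0 (algebraMap K F (m.coeff n)) := by
      intro n
      by_contra hc
      obtain ⟨i, hi⟩ := hcon (m.coeff n) (not_ge_iff.1 hc)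
      exact hi (hcoef' i n)
    have h1 : b ^ m.natDegree + ∑ j ∈ Finset.range m.natDegree,
        algebraMap K F (m.coeff j) * b ^ j = 0 := by
      have h2 : Polynomial.aeval b m = 0 := by
        rw [hm]
        exact minpoly.aeval K b
      rw [Polynomial.aeval_eq_sum_range, Finset.sum_range_succ, add_comm] at h2
      have h3 : m.coeff m.natDegree = 1 := hmm
      rw [h3, one_smul] at h2
      rw [← h2]
      congr 1
      exact Finset.sum_congr rfl fun j _ => (Algebra.smul_def _ _).symm
    have h2 := ge_root P (fun j => algebraMap K F (m.coeff j)) h1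
    have h3 : ∑ j ∈ Finset.range m.natDegree, max (-P.ord (algebraMap K F (m.coeff j))) 0 = 0 := by
      refine Finset.sum_eq_zero fun j _ => max_eq_right ?_
      rcases hge j with h4 | h4
      · rw [h4, P.ord_zero, neg_zero]
      · omega
    rw [h3, neg_zero] at h2
    exact not_ge_iff.2 hbP h2
  choose! c hc hci using hone
  obtain ⟨e⟩ : Nonempty (Fin T.card ≃ T) := ⟨T.equivFin.symm⟩
  obtain ⟨l, hl⟩ := exists_comb (S := Ω) T (fun i => algebraMap K F (c (e i : Place Ω F)))
  refine ⟨∑ i, (l i : K) * c (e i : Place Ω F), ?_, ?_⟩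
  · intro i
    rw [map_sum]
    refine (integralClosure (Algebra.adjoin Ω (Set.range fun j => algebraMap K F (s i j)))
      F).sum_mem fun n _ => ?_
    rw [map_mul, map_natCast]
    exact Subalgebra.mul_mem _ (Subalgebra.natCast_mem _ _) (hci _ (e n).2 i)
  · intro P
    have hsum : algebraMap K F (∑ i, (l i : K) * c (e i : Place Ω F)) =
        ∑ i, (l i : F) * algebraMap K F (c (e i : Place Ω F)) := by
      rw [map_sum]
      refine Finset.sum_congr rfl fun n _ => ?_
      rw [map_mul, map_natCast]
    rw [hsum]
    constructor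
    · intro hP
      by_contra hcon
      push Not at hcon
      obtain ⟨i, hi⟩ := hcon
      have hA : ∀ y : Algebra.adjoin Ω (Set.range fun j => algebraMap K F (s i j)),
          P.Reg (algebraMap _ F y) := by
        rintro ⟨y, hy⟩
        change P.Reg y
        induction hy using Algebra.adjoin_induction with
        | mem y hy =>
          obtain ⟨j, rfl⟩ := hy
          exact Or.inr (hi j)
        | algebraMap r => exact P.reg_const r
        | add x y _ _ hx hy => exact P.reg_add hx hy
        | mul x y _ _ hx hy => exact P.reg_mul hx hy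
      have h1 : Ge P 0 (∑ i, (l i : F) * algebraMap K F (c (e i : Place Ω F))) := by
        refine Ge.sum _ _ fun n _ => ?_
        have h2 : Ge P 0 (algebraMap K F (c (e n : Place Ω F))) :=
          P.reg_of_isIntegral hA (hci _ (e n).2 i)
        have h3 := (Ge.natCast (P := P) (l n)).mul h2
        rwa [zero_add] at h3
      exact not_ge_iff.2 hP h1
    · intro hP
      have hPT : P ∈ T := (hT P).2 hP
      refine hl P hPT ⟨e.symm ⟨P, hPT⟩, ?_⟩
      rw [Equiv.apply_symm_apply]
      exact hc P hPT

end z

end Pool.Agent.H916
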