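import Pool.Agent.H916.Glo

/-! Derivations and algebraic elements. -/

set_option autoImplicit false

open Polynomial

namespace Pool.Agent.H916

variable {F K : Type*} [Field F] [Field K] [Algebra F K]

theorem der_poly (E : Derivation ℤ F K) (F0 : Subfield F)
    (h0 : ∀ x ∈ F0, E x ∈ Set.range (algebraMap F K)) (a : F) (p : F0[X]) :
    ∃ r : F, E (aeval a p) = algebraMap F K r + algebraMap F K (aeval a (derivative p)) * E a := by
  induction p using Polynomial.induction_on' with
  | add p q hp hq =>
    obtain ⟨r, hr⟩ := hp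
    obtain ⟨s, hs⟩ := hq
    refine ⟨r + s, ?_⟩
    rw [map_add, map_add, hr, hs, derivative_add, map_add, map_add, map_add]
    ring
  | monomial n c =>
    obtain ⟨r, hr⟩ := h0 c c.2
    refine ⟨r * a ^ n, ?_⟩
    rw [derivative_monomial, aeval_monomial, aeval_monomial, E.leibniz, E.leibniz_pow]
    have e : algebraMap F0 F c = (c : F) := rfl
    rw [e, ← hr]
    rw [nsmul_eq_mul, Algebra.smul_def, Algebra.smul_def, Algebra.smul_def]
    simp only [map_mul, map_natCast, map_pow]
    rw [e]
    ring

theorem der_range [CharZero F] (E : Derivation ℤ F K) (F0 : Subfield F)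
    (h0 : ∀ x ∈ F0, E x ∈ Set.range (algebraMap F K)) (a : F) (ha : IsAlgebraic F0 a) :
    E a ∈ Set.range (algebraMap F K) := by
  obtain ⟨r, hr⟩ := der_poly E F0 h0 a (minpoly F0 a)
  rw [minpoly.aeval, map_zero] at hr
  have hc : CharZero F0 := (algebraMap F0 F).charZero
  have h1 : aeval a (derivative (minpoly F0 a)) ≠ 0 := by
    have hs := (minpoly.irreducible ha.isIntegral).separable
    have := hs.aeval_derivative_ne_zero (minpoly.aeval F0 a)
    exact this
  refine ⟨-r / aeval a (derivative (minpoly F0 a)), ?_⟩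
  have h2 : algebraMap F K (aeval a (derivative (minpoly F0 a))) ≠ 0 := by
    rwa [Ne, map_eq_zero]
  rw [map_div₀, map_neg, div_eq_iff h2]
  linear_combination hr

end Pool.Agent.H916
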