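import Mathlib

/-! Extension of homomorphisms to algebraically closed fields. -/

set_option autoImplicit false

namespace Pool.Agent.H916

open PrimeSpectrum TensorProduct

/-- Homomorphisms to algebraically closed fields extend generically. -/
theorem exists_homExt {A B : Type} [CommRing A] [CommRing B] [IsDomain B] [Algebra A B]
    (hinj : Function.Injective (algebraMap A B)) [IsNoetherianRing A] [Algebra.FiniteType A B] :
    ∃ u : A, u ≠ 0 ∧ ∀ (F : Type) [Field F] [IsAlgClosed F] (f : A →+* F), f u ≠ 0 →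
      ∃ g : B →+* F, ∀ a, g (algebraMap A B a) = f a := by
  classical
  have hdA : IsDomain A := hinj.isDomain (algebraMap A B)
  have hfp : (algebraMap A B).FinitePresentation :=
    RingHom.finitePresentation_algebraMap.2
      ((Algebra.FinitePresentation.of_finiteType (R := A) (A := B)).1 inferInstance)
  obtain ⟨S, hS⟩ := exists_constructibleSetData_iff.2 (isConstructible_range_comap hfp)
  obtain ⟨p0, hp0⟩ : ∃ p0 : PrimeSpectrum A, p0 = ⟨⊥, Ideal.isPrime_bot⟩ := ⟨_, rfl⟩
  have h0 : p0 ∈ S.toSet := by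
    rw [hS]
    refine ⟨⟨⊥, Ideal.isPrime_bot⟩, ?_⟩
    rw [hp0]
    apply PrimeSpectrum.ext
    exact Ideal.comap_bot_of_injective _ hinj
  unfold ConstructibleSetData.toSet at h0
  rw [Set.mem_iUnion₂] at h0
  obtain ⟨C, hC, h1, h2⟩ := h0
  have hg : ∀ i, C.g i = 0 := by
    intro i
    have h3 : C.g i ∈ p0.asIdeal := h1 ⟨i, rfl⟩
    rw [hp0] at h3
    exact h3
  have hf : C.f ≠ 0 := by
    intro h3
    apply h2
    rw [h3]
    rintro x hx
    rw [Set.mem_singleton_iff] at hx
    rw [hx]
    exact Ideal.zero_mem _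
  refine ⟨C.f, hf, ?_⟩
  intro F _ _ f hfu
  obtain ⟨p, hp⟩ : ∃ p : PrimeSpectrum A, p = ⟨RingHom.ker f, RingHom.ker_isPrime f⟩ := ⟨_, rfl⟩
  have hpS : p ∈ S.toSet := by
    unfold ConstructibleSetData.toSet
    rw [Set.mem_iUnion₂]
    refine ⟨C, hC, ?_, ?_⟩
    · rintro _ ⟨i, rfl⟩
      rw [hg]
      exact Ideal.zero_mem _
    · intro h3
      have h4 : C.f ∈ p.asIdeal := h3 rfl
      rw [hp] at h4
      exact hfu h4
  rw [hS] at hpS
  have hnt := (PrimeSpectrum.nontrivial_iff_mem_rangeComap p).2 hpS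
  -- a homomorphism from the residue field
  let iF : Algebra A F := f.toAlgebra
  let T : Type := p.asIdeal.ResidueField ⊗[A] B
  obtain ⟨m, hm⟩ := Ideal.exists_maximal T
  let _ : Field (T ⧸ m) := Ideal.Quotient.field m
  have hft : Algebra.FiniteType p.asIdeal.ResidueField T := inferInstance
  have hft2 : Algebra.FiniteType p.asIdeal.ResidueField (T ⧸ m) :=
    Algebra.FiniteType.of_surjective (Ideal.Quotient.mkₐ _ m) (Ideal.Quotient.mkₐ_surjective _ m)
  have hfin : Module.Finite p.asIdeal.ResidueField (T ⧸ m) :=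
    finite_of_finite_type_of_isJacobsonRing _ _
  have hker : RingHom.ker f = p.asIdeal := by rw [hp]
  let φ : p.asIdeal.ResidueField →+* F := Ideal.ResidueField.lift p.asIdeal f (by
    rw [hker]) (by
    intro a ha
    rw [Submonoid.mem_comap]
    have h3 : f a ≠ 0 := fun h4 => ha (by
      have : a ∈ RingHom.ker f := h4
      rwa [hker] at this)
    exact isUnit_iff_ne_zero.2 h3)
  let iR : Algebra p.asIdeal.ResidueField F := φ.toAlgebra
  let ψ : (T ⧸ m) →ₐ[p.asIdeal.ResidueField] F := IsAlgClosed.lift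
  refine ⟨(ψ : (T ⧸ m) →+* F).comp ((Ideal.Quotient.mk m).comp
    (Algebra.TensorProduct.includeRight : B →ₐ[A] T).toRingHom), fun a => ?_⟩
  have h3 : (Algebra.TensorProduct.includeRight : B →ₐ[A] T) (algebraMap A B a) =
      algebraMap p.asIdeal.ResidueField T (algebraMap A p.asIdeal.ResidueField a) := by
    rw [AlgHom.commutes]
    rfl
  change ψ (Ideal.Quotient.mk m ((Algebra.TensorProduct.includeRight : B →ₐ[A] T)
    (algebraMap A B a))) = f a
  rw [h3]
  change ψ (algebraMap p.asIdeal.ResidueField (T ⧸ m) (algebraMap A p.asIdeal.ResidueField a)) = _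
  rw [AlgHom.commutes]
  change φ (algebraMap A p.asIdeal.ResidueField a) = _
  exact Ideal.ResidueField.lift_algebraMap _ _ _ _ _

end Pool.Agent.H916
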