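import Pool.Agent.H916.RatRel

/-! Bounded families of pointed maps, and rational curves. -/

set_option autoImplicit false
set_option linter.overlappingInstances false
set_option linter.unusedSectionVars false

open FF Pool.Agent.W603.LV Pool.Agent.W603.PV MvPolynomial
open Pool.Agent.W602.GT (val IsForm VarPts coords val_smul)
open Pool.Agent.W602.RG (HasValue PointedMaps PseudoGeomHyp)
open Pool.Agent.Y216 (OnVar canDeg_ratFunc)
open Pool.Agent.R882.HY (RatThrough)
open scoped LinearAlgebra.Projectivization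

namespace Pool.Agent.H916

variable {k : Type} [Field k] [IsAlgClosed k] [CharZero k] {M : ℕ} {K : Type} [Field K]
  [Algebra k K]

theorem pht_nn {L : Type} [Field L] [Algebra k L] [IsFF k L] {f : Fin (M + 1) → L}
    (hf : ∃ j, f j ≠ 0) : 0 ≤ pht k f := by
  obtain ⟨j, hj⟩ := hf
  exact (hgt_nonneg _).trans (Pool.Agent.W603.CX.hgt_le_pht (k := k) f hj hj)

/-- regularity of a normalized map at the marked point -/
theorem value_norm {L : Type} [Field L] [Algebra k L] {c : Place k L} {p : Fin (M + 1) → k}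
    {f : Fin (M + 1) → L} (hf : ∃ j, f j ≠ 0) (hv : HasValue c p f) {j0 : Fin (M + 1)}
    (hp : p j0 ≠ 0) : f j0 ≠ 0 ∧ ∀ j, f j / f j0 = algebraMap k L (p j / p j0) ∨
      0 < c.ord (f j / f j0 - algebraMap k L (p j / p j0)) := by
  have hf0 := Pool.Agent.W273.RG.FNW.hv_ne hf hv hp
  refine ⟨hf0, fun j => ?_⟩
  have hc0 : (f j0)⁻¹ ≠ 0 := inv_ne_zero hf0
  have hv' := Pool.Agent.W273.RG.FNW.hv_scale hf hv hc0
  have h1 : (f j0)⁻¹ * f j0 = 1 := inv_mul_cancel₀ hf0
  have hpo := Pool.Agent.W273.RG.FNW.pord_zero hv' hp h1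
  have hxj0 : algebraMap k L (p j0) ≠ 0 := (map_ne_zero _).2 hp
  have e : algebraMap k L (p j0) * ((f j0)⁻¹ * f j) - algebraMap k L (p j) * ((f j0)⁻¹ * f j0) =
      algebraMap k L (p j0) * (f j / f j0 - algebraMap k L (p j / p j0)) := by
    rw [h1, map_div₀]
    field_simp
  rcases hv' j0 j with h3 | h3
  · left
    rw [e] at h3
    exact sub_eq_zero.1 ((mul_eq_zero.1 h3).resolve_left hxj0)
  · by_cases h4 : f j / f j0 - algebraMap k L (p j / p j0) = 0
    · left
      exact sub_eq_zero.1 h4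
    · right
      rw [e, c.ord_mul hxj0 h4, c.ord_const hp, zero_add, hpo] at h3
      exact h3

/-- values of polynomials -/
theorem value_poly {L : Type} [Field L] [Algebra k L] {c : Place k L} {n : ℕ} {u : Fin n → L}
    {v : Fin n → k} (h : ∀ j, u j = algebraMap k L (v j) ∨
      0 < c.ord (u j - algebraMap k L (v j))) (G : MvPolynomial (Fin n) k) :
    Ge c 1 (aeval u G - algebraMap k L (eval v G)) := by
  have h1 : ∀ j, Ge c 1 (u j - algebraMap k L (v j)) := by
    intro j
    rcases h j with h | h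
    · left; rw [h, sub_self]
    · right; omega
  have h2 : ∀ j, Ge c 0 (u j) := by
    intro j
    have h3 : u j = (u j - algebraMap k L (v j)) + algebraMap k L (v j) := by ring
    rw [h3]
    exact ((h1 j).mono (by norm_num)).add (Ge.const _)
  exact red_mvaeval c h2 h1 G

theorem val_div {p : Fin (M + 1) → k} {j0 : Fin (M + 1)} (hp : p j0 ≠ 0)
    {G : MvPolynomial (Fin (M + 1)) k} (hG : IsForm G) :
    eval (fun j => p j / p j0) G = 0 ↔ val p G = 0 := by
  obtain ⟨d, hd⟩ := hG
  have h6 : p = fun j => p j0 * (p j / p j0) := by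
    funext j
    field_simp
  have h7 : val (fun j => p j / p j0) G = eval (fun j => p j / p j0) G := by
    unfold Pool.Agent.W602.GT.val
    rw [MvPolynomial.aeval_def, MvPolynomial.eval₂_eq', MvPolynomial.eval_eq']
    rfl
  have h8 : val p G = p j0 ^ d * val (fun j => p j / p j0) G := by
    conv_lhs => rw [h6]
    exact val_smul hd _ _
  rw [h8, h7, mul_eq_zero]
  constructor
  · exact Or.inr
  · intro h
    exact h.resolve_left (pow_ne_zero _ hp)

/-- forms which are nonzero at the value are nonzero on the curve -/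
theorem value_ne {L : Type} [Field L] [Algebra k L] {c : Place k L} {p : Fin (M + 1) → k}
    (hp : p ≠ 0) {f : Fin (M + 1) → L} (hf : ∃ j, f j ≠ 0) (hv : HasValue c p f)
    {G : MvPolynomial (Fin (M + 1)) k} (hG : IsForm G) (hpG : val p G ≠ 0) : val f G ≠ 0 := by
  obtain ⟨j0, hj0⟩ := Function.ne_iff.1 hp
  have hj0 : p j0 ≠ 0 := hj0
  obtain ⟨hf0, hn⟩ := value_norm hf hv hj0
  have h1 := value_poly hn G
  intro h0
  have h2 : aeval (fun j => f j / f j0) G = 0 := by
    obtain ⟨d, hd⟩ := hG
    have h6 : f = fun j => f j0 * (f j / f j0) := by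
      funext j
      field_simp
    rw [h6, val_smul hd] at h0
    exact (mul_eq_zero.1 h0).resolve_left (pow_ne_zero _ hf0)
  rw [h2, zero_sub] at h1
  have h4 := h1.neg
  rw [neg_neg] at h4
  exact hpG ((val_div hj0 hG).1 (const_zero c h4))

/-- **Bend and break.** -/
theorem finite_or_rat {x : Fin (M + 1) → K} {L : Type} [Field L] [Algebra k L] [IsFF k L]
    {c : Place k L} {p : Fin (M + 1) → k} (hp : p ∈ VarPts k x) (D : ℤ)
    (hD : ∀ f : Fin (M + 1) → L, OnVar k x f → HasValue c p f → pht k f ≤ D) :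
    (PointedMaps x c p).Finite ∨ ∃ g : Fin (M + 1) → RatFunc k, OnVar k x g ∧
      (∀ G : MvPolynomial (Fin (M + 1)) k, IsForm G → val p G ≠ 0 → val g G ≠ 0) ∧
      0 < pht k g := by
  classical
  by_cases hfin : (PointedMaps x c p).Finite
  · exact Or.inl hfin
  right
  have hinf : (PointedMaps x c p).Infinite := hfin
  obtain ⟨j0, hj0⟩ := Function.ne_iff.1 hp.1
  have hj0 : p j0 ≠ 0 := hj0
  set W : Set (Fin (M + 1) → L) := {f | f j0 = 1 ∧ (∀ H : MvPolynomial (Fin (M + 1)) k, IsForm H →
    val x H = 0 → val f H = 0) ∧ HasValue c p f} with hW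
  have hWinf : W.Infinite := by
    intro hMfin
    obtain ⟨φ0, -⟩ := hinf.nonempty
    let g : (Fin (M + 1) → L) → ℙ L (Fin (M + 1) → L) := fun f =>
      if h : f ≠ 0 then Projectivization.mk L f h else φ0
    refine hinf ((hMfin.image g).subset ?_)
    rintro φ ⟨f, hf, hmap, hval, rfl⟩
    have hfne : ∃ j, f j ≠ 0 := Function.ne_iff.1 hf
    have hfj0 := Pool.Agent.W273.RG.FNW.hv_ne hfne hval hj0
    have hc0 : (f j0)⁻¹ ≠ 0 := inv_ne_zero hfj0
    have hf' : (fun j => (f j0)⁻¹ * f j) ≠ 0 := by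
      intro h0
      have := congrFun h0 j0
      simp only [Pi.zero_apply] at this
      exact (mul_ne_zero hc0 hfj0) this
    refine ⟨fun j => (f j0)⁻¹ * f j, ⟨inv_mul_cancel₀ hfj0, ?_,
      Pool.Agent.W273.RG.FNW.hv_scale hfne hval hc0⟩, ?_⟩
    · intro H hH hyH
      have h3 := hmap H hH hyH
      obtain ⟨e, he⟩ := hH
      rw [val_smul he, h3, mul_zero]
    · change (if h : (fun j => (f j0)⁻¹ * f j) ≠ 0 then
        Projectivization.mk L (fun j => (f j0)⁻¹ * f j) h else φ0) = _
      rw [dif_pos hf', Projectivization.mk_eq_mk_iff']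
      exact ⟨(f j0)⁻¹, by funext j; rfl⟩
  have hne : ∀ f ∈ W, ∃ j, f j ≠ 0 := fun f hf => ⟨j0, by rw [hf.1]; exact one_ne_zero⟩
  have hvalues : ∀ f ∈ W, ∀ j, f j = algebraMap k L (p j / p j0) ∨
      0 < c.ord (f j - algebraMap k L (p j / p j0)) := by
    intro f hf j
    have h1 := (value_norm (hne f hf) hf.2.2 hj0).2 j
    rw [hf.1, div_one] at h1
    exact h1
  have hhgt : ∀ f ∈ W, ∀ j, hgt k (f j) ≤ max D 0 := by
    intro f hf j
    have h5 := hD f ⟨hne f hf, hf.2.1⟩ hf.2.2
    by_cases h0 : f j = 0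
    · rw [h0, hgt_zero]
      exact le_max_right _ _
    · have h6 := Pool.Agent.W603.CX.hgt_le_pht (k := k) f (j := j) (l := j0) h0
        (by rw [hf.1]; exact one_ne_zero)
      rw [hf.1, div_one] at h6
      exact (h6.trans h5).trans (le_max_left _ _)
  let z : ℕ ↪ W := hWinf.natEmbedding W
  obtain ⟨g, ⟨j1, hj1⟩, hg1, hg2⟩ := Pool.Agent.TH152.BB.bb_val Pool.Agent.TH152.BB.bb_all c
    (fun m => (z m : Fin (M + 1) → L)) (fun j => p j / p j0) (max D 0)
    (fun a b hab => z.injective (Subtype.ext hab)) (fun m j => hvalues _ (z m).2 j)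
    (fun m j => hhgt _ (z m).2 j)
  have hg0 : g j0 = 1 := by
    have h1 := hg1 (X j0 - 1) (fun m => by
      rw [map_sub, aeval_X, map_one, (z m).2.1, sub_self])
    rw [map_sub, aeval_X, map_one] at h1
    exact sub_eq_zero.1 h1
  have hgne : ∃ j, g j ≠ 0 := ⟨j0, by rw [hg0]; exact one_ne_zero⟩
  refine ⟨g, ⟨hgne, fun H hH hyH => hg1 H fun m => (z m).2.2.1 H hH hyH⟩,
    fun G hG hpG h0 => hpG ((val_div hj0 hG).1 (hg2 G h0)), ?_⟩
  by_contra hcon
  push Not at hcon
  apply hj1
  apply Pool.Agent.Y216.const_of_hgt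
  by_cases h0 : g j1 = 0
  · rw [h0, hgt_zero]
  · have h2 := Pool.Agent.W603.CX.hgt_le_pht (k := k) g (j := j1) (l := j0) h0
      (by rw [hg0]; exact one_ne_zero)
    rw [hg0, div_one] at h2
    exact h2.trans hcon

/-- a nonconstant rational curve gives a rational curve through a general point -/
theorem exists_through {x : Fin (M + 1) → K} {g : Fin (M + 1) → RatFunc k} (hg : OnVar k x g)
    {G : MvPolynomial (Fin (M + 1)) k} (hGf : IsForm G) (hgG : val g G ≠ 0) (hpos : 0 < pht k g) :
    ∃ (p : Fin (M + 1) → k) (P : Fin (M + 1) → Polynomial k), RatThrough x p P ∧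
      val p G ≠ 0 := by
  classical
  -- polynomials
  obtain ⟨d, hd⟩ : ∃ d : Polynomial k, d = ∏ j, (g j).denom := ⟨_, rfl⟩
  have hd0 : d ≠ 0 := by
    rw [hd]
    exact Finset.prod_ne_zero_iff.2 fun j _ => RatFunc.denom_ne_zero _
  have hpoly : ∀ j, ∃ P : Polynomial k, algebraMap (Polynomial k) (RatFunc k) P =
      algebraMap (Polynomial k) (RatFunc k) d * g j := by
    intro j
    refine ⟨(g j).num * ∏ l ∈ Finset.univ.erase j, (g l).denom, ?_⟩
    have h1 : algebraMap (Polynomial k) (RatFunc k) (g j).denom ≠ 0 :=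
      RatFunc.algebraMap_ne_zero (RatFunc.denom_ne_zero _)
    conv_rhs => rw [← RatFunc.num_div_denom (g j)]
    rw [hd, ← Finset.mul_prod_erase Finset.univ _ (Finset.mem_univ j), map_mul, map_mul]
    field_simp
  choose Q hQ using hpoly
  have hdR : algebraMap (Polynomial k) (RatFunc k) d ≠ 0 := RatFunc.algebraMap_ne_zero hd0
  have hQval : ∀ F : MvPolynomial (Fin (M + 1)) k, algebraMap (Polynomial k) (RatFunc k)
      (aeval Q F) = val (fun j => algebraMap (Polynomial k) (RatFunc k) d * g j) F := by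
    intro F
    unfold Pool.Agent.W602.GT.val
    rw [← MvPolynomial.aeval_algebraMap_apply]
    congr 2
    funext j
    exact hQ j
  have hQF : ∀ F : MvPolynomial (Fin (M + 1)) k, IsForm F → (aeval Q F = 0 ↔ val g F = 0) := by
    intro F hF
    obtain ⟨e, he⟩ := hF
    have h1 := hQval F
    rw [val_smul he] at h1
    constructor
    · intro h0
      rw [h0, map_zero] at h1
      exact (mul_eq_zero.1 h1.symm).resolve_left (pow_ne_zero _ hdR)
    · intro h0
      rw [h0, mul_zero] at h1
      exact (RatFunc.algebraMap_injective k) (by rw [h1, map_zero])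
  have hQG : aeval Q G ≠ 0 := fun h0 => hgG ((hQF G hGf).1 h0)
  obtain ⟨j1, hj1⟩ := hg.1
  have hQj : Q j1 ≠ 0 := by
    intro h0
    have h1 := hQ j1
    rw [h0, map_zero] at h1
    exact (mul_ne_zero hdR hj1) h1.symm
  -- a general point
  obtain ⟨a, ha⟩ : ∃ a : k, (aeval Q G * Q j1).eval a ≠ 0 := by
    by_contra hcon
    push Not at hcon
    exact (mul_ne_zero hQG hQj) (Polynomial.funext fun a => by rw [hcon a, Polynomial.eval_zero])
  rw [Polynomial.eval_mul] at ha
  have hcompval : ∀ F : MvPolynomial (Fin (M + 1)) k,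
      aeval (fun j => (Q j).comp (Polynomial.X + Polynomial.C a)) F =
        (aeval Q F).comp (Polynomial.X + Polynomial.C a) := by
    intro F
    have h1 := MvPolynomial.comp_aeval_apply Q
      (Polynomial.aeval (Polynomial.X + Polynomial.C a) : Polynomial k →ₐ[k] Polynomial k) F
    exact h1.symm
  refine ⟨fun j => (Q j).eval a, fun j => (Q j).comp (Polynomial.X + Polynomial.C a),
    ⟨fun F hF hxF => ?_, fun i => ?_, fun h0 => ?_, ?_⟩, ?_⟩
  · rw [hcompval, (hQF F hF).2 (hg.2 F hF hxF), Polynomial.zero_comp]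
  · rw [Polynomial.eval_comp]
    simp
  · exact right_ne_zero_of_mul ha (congrFun h0 j1)
  · by_contra hcon
    push Not at hcon
    -- all the ratios are constant
    have h1 : ∀ i, ∃ b : k, Q i = Polynomial.C b * Q j1 := by
      intro i
      have h2 : ∀ s : k, (Q i).eval s * (Q j1).eval a = (Q j1).eval s * (Q i).eval a := by
        intro s
        have h3 := hcon i j1 (s - a) 0
        simp only [Polynomial.eval_comp, Polynomial.eval_add, Polynomial.eval_X,
          Polynomial.eval_C, sub_add_cancel, zero_add] at h3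
        exact h3
      refine ⟨(Q i).eval a / (Q j1).eval a, Polynomial.funext fun s => ?_⟩
      rw [Polynomial.eval_mul, Polynomial.eval_C]
      have h4 := right_ne_zero_of_mul ha
      field_simp
      rw [h2 s]
      ring
    have h5 : ∀ i, hgt k (g i / g j1) = 0 := by
      intro i
      obtain ⟨b, hb⟩ := h1 i
      have h6 : g i / g j1 = algebraMap k (RatFunc k) b := by
        have h7 := congrArg (algebraMap (Polynomial k) (RatFunc k)) hb
        rw [map_mul, hQ, hQ] at h7
        rw [div_eq_iff hj1]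
        have h8 : algebraMap (Polynomial k) (RatFunc k) d * g i =
            algebraMap (Polynomial k) (RatFunc k) d * (algebraMap k (RatFunc k) b * g j1) := by
          rw [h7]
          have h9 : algebraMap (Polynomial k) (RatFunc k) (Polynomial.C b) =
              algebraMap k (RatFunc k) b := by
            rw [IsScalarTower.algebraMap_apply k (Polynomial k) (RatFunc k)]
            rfl
          rw [h9]
          ring
        exact mul_left_cancel₀ hdR h8
      rw [h6]
      exact hgt_algebraic (isAlgebraic_algebraMap _)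
    have h6 := pht_le (k := k) g hj1
    rw [Finset.sum_eq_zero fun i _ => h5 i] at h6
    omega
  · have h1 : val (fun j => (Q j).eval a) G = (aeval Q G).eval a := by
      have h2 := Pool.Agent.R882.HY.aeval_poly Q a G
      rw [Polynomial.coe_aeval_eq_eval] at h2
      exact h2
    rw [h1]
    exact left_ne_zero_of_mul ha

/-- Rational curves outside of the exceptional set of a pseudo-geometrically hyperbolic variety. -/
theorem no_rat {x : Fin (M + 1) → K} {G : MvPolynomial (Fin (M + 1)) k} (hGf : IsForm G)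
    (h : ∀ (c : Place k (RatFunc k)), ∀ p ∈ VarPts k x, val p G ≠ 0 → (PointedMaps x c p).Finite)
    {g : Fin (M + 1) → RatFunc k} (hg : OnVar k x g) (hgG : val g G ≠ 0) : pht k g ≤ 0 := by
  classical
  by_contra hcon
  push Not at hcon
  obtain ⟨p, P, hP, hpG⟩ := exists_through hg hGf hgG hcon
  obtain ⟨c, i, j, hmaps⟩ := hP.maps
  have hpV : p ∈ VarPts k x := by
    refine ⟨hP.ne, fun H hH hHx => ?_⟩
    have h3 := Pool.Agent.R882.HY.aeval_poly P (0 : k) H
    rw [hP.mem H hH hHx, map_zero, Polynomial.coe_aeval_eq_eval] at h3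
    rw [← h3]
    congr 1
    funext l
    exact (hP.pt l).symm
  have hf := h c p hpV hpG
  -- the heights of the pointed maps are bounded
  let ht : ℙ (RatFunc k) (Fin (M + 1) → RatFunc k) → ℤ := fun φ => hgt k (φ.rep i / φ.rep j)
  obtain ⟨D, hD⟩ : ∃ D : ℤ, ∀ φ ∈ PointedMaps x c p, ht φ ≤ D := by
    obtain ⟨D, hD⟩ := (hf.image ht).bddAbove
    exact ⟨D, fun φ hφ => hD ⟨φ, hφ, rfl⟩⟩
  obtain ⟨q, hq⟩ : ∃ q : ℕ, q = D.toNat + 1 := ⟨_, rfl⟩
  obtain ⟨h1, h2, -, h3, h4, h5⟩ := hmaps q (by omega)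
  have hne : (fun l => Polynomial.aeval ((RatFunc.X : RatFunc k) ^ q) (P l)) ≠ 0 :=
    fun h0 => h3 (congrFun h0 i)
  have h6 := hD (Projectivization.mk (RatFunc k) _ hne) ⟨_, hne, h1.2, h2, rfl⟩
  obtain ⟨a, ha⟩ := Projectivization.exists_smul_eq_mk_rep (RatFunc k) _ hne
  have h7 : ht (Projectivization.mk (RatFunc k) _ hne) =
      hgt k (Polynomial.aeval ((RatFunc.X : RatFunc k) ^ q) (P i) /
        Polynomial.aeval ((RatFunc.X : RatFunc k) ^ q) (P j)) := by
    change hgt k ((Projectivization.mk (RatFunc k) _ hne).rep i /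
      (Projectivization.mk (RatFunc k) _ hne).rep j) = _
    rw [← ha]
    congr 1
    simp only [Pi.smul_apply, Units.smul_def, smul_eq_mul]
    rw [mul_div_mul_left _ _ a.ne_zero]
  rw [h7] at h6
  omega

end Pool.Agent.H916
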