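import Pool.Agent.H916.Hor2
import Pool.Agent.H916.Alg

/-! Extensions of the field of constants: the degree of the canonical divisor remains positive. -/

set_option autoImplicit false
set_option linter.overlappingInstances false

open FF Pool.Agent.W603.LV Module Polynomial

namespace Pool.Agent.H916

section der

variable {M F : Type*} [Field M] [Field F] [Algebra M F]

theorem der_inv (E : Derivation ℤ M F) (x : M) (hx : E x = 0) : E x⁻¹ = 0 := by
  by_cases h0 : x = 0
  · rw [h0, inv_zero, map_zero]
  · have h1 : E (x * x⁻¹) = 0 := by rw [mul_inv_cancel₀ h0, E.map_one_eq_zero]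
    rw [E.leibniz, hx, smul_zero, add_zero, Algebra.smul_def] at h1
    exact (mul_eq_zero.1 h1).resolve_left (by rwa [map_eq_zero])

/-- the kernel of a derivation -/
def kerF (E : Derivation ℤ M F) : Subfield M where
  carrier := {x | E x = 0}
  mul_mem' := by
    intro a b ha hb
    have ha' : E a = 0 := ha
    have hb' : E b = 0 := hb
    change E (a * b) = 0
    rw [E.leibniz, ha', hb', smul_zero, smul_zero, add_zero]
  one_mem' := E.map_one_eq_zero
  add_mem' := by
    intro a b ha hb
    have ha' : E a = 0 := ha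
    have hb' : E b = 0 := hb
    change E (a + b) = 0
    rw [map_add, ha', hb', add_zero]
  zero_mem' := map_zero E
  neg_mem' := by
    intro a ha
    have ha' : E a = 0 := ha
    change E (-a) = 0
    rw [map_neg, ha', neg_zero]
  inv_mem' := fun x hx => der_inv E x hx

theorem der_poly0 (E : Derivation ℤ M F) (a : M) (p : (kerF E)[X]) :
    E (aeval a p) = algebraMap M F (aeval a (derivative p)) * E a := by
  induction p using Polynomial.induction_on' with
  | add p q hp hq => rw [map_add, map_add, hp, hq, derivative_add, map_add, map_add, add_mul]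
  | monomial n c =>
    have hc : E (c : M) = 0 := c.2
    rw [derivative_monomial, aeval_monomial, aeval_monomial, E.leibniz, E.leibniz_pow]
    have e : algebraMap (kerF E) M c = (c : M) := rfl
    rw [e, hc, smul_zero, add_zero]
    rw [nsmul_eq_mul, Algebra.smul_def, Algebra.smul_def]
    simp only [map_mul, map_natCast, map_pow]
    rw [e]
    ring

theorem der_zero [CharZero M] (E : Derivation ℤ M F) {a : M} (ha : IsAlgebraic (kerF E) a) :
    E a = 0 := by
  have hr := der_poly0 E a (minpoly (kerF E) a)
  rw [minpoly.aeval, map_zero] at hr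
  have hc : CharZero (kerF E) := (algebraMap (kerF E) M).charZero
  have h1 : aeval a (derivative (minpoly (kerF E) a)) ≠ 0 := by
    have hs := (minpoly.irreducible ha.isIntegral).separable
    exact hs.aeval_derivative_ne_zero (minpoly.aeval (kerF E) a)
  exact (mul_eq_zero.1 hr.symm).resolve_left (by rwa [map_eq_zero])

theorem der_unique {k : Type*} [Field k] [Algebra k M] [CharZero M] [IsFF k M]
    (E : Derivation ℤ M F) (h0 : ∀ c : k, E (algebraMap k M c) = 0) {z : M}
    (hz : Transcendental k z) (hEz : E z = 0) (a : M) : E a = 0 := by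
  apply der_zero
  have h1 : IsAlgebraic (IntermediateField.adjoin k {z}) a := (IsFF.isAlgebraic hz).isAlgebraic a
  have h2 : ∀ x ∈ IntermediateField.adjoin k {z}, x ∈ kerF E := by
    intro x hx
    induction hx using IntermediateField.adjoin_induction with
    | mem y hy =>
      rw [Set.mem_singleton_iff] at hy
      rw [hy]
      exact hEz
    | algebraMap c => exact h0 c
    | add x y _ _ hx hy => exact add_mem hx hy
    | inv x _ hx => exact inv_mem hx
    | mul x y _ _ hx hy => exact mul_mem hx hy
  obtain ⟨p, hp, he⟩ := h1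
  let i : IntermediateField.adjoin k {z} →+* kerF E :=
    (algebraMap (IntermediateField.adjoin k {z}) M).codRestrict (kerF E) fun x => h2 x x.2
  refine ⟨p.map i, ?_, ?_⟩
  · rwa [Ne, Polynomial.map_eq_zero]
  · rw [Polynomial.aeval_def, Polynomial.eval₂_map]
    exact he

end der

section res

variable {k M S F : Type*} [Field k] [Field M] [Field S] [Field F] [Algebra k M] [Algebra S F]
  [Algebra M F]

variable (M) in
/-- the index of ramification -/
noncomputable def rm (Q : Place S F) : ℕ :=
  sInf {m : ℕ | 0 < m ∧ ∃ x : M, Q.ord (algebraMap M F x) = m}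

theorem rm_spec (Q : Place S F) (h : ∃ x : M, Q.ord (algebraMap M F x) ≠ 0) :
    0 < rm M Q ∧ ∃ x : M, Q.ord (algebraMap M F x) = rm M Q := by
  have h : (rm M Q) ∈ {m : ℕ | 0 < m ∧ ∃ x : M, Q.ord (algebraMap M F x) = m} := by
    refine Nat.sInf_mem ?_
    obtain ⟨x, hx⟩ := h
    rcases lt_or_gt_of_ne hx with h1 | h1
    · refine ⟨(Q.ord (algebraMap M F x⁻¹)).toNat, ?_, x⁻¹, ?_⟩
      · rw [map_inv₀, Q.ord_inv]
        omega
      · rw [map_inv₀, Q.ord_inv]
        omega
    · exact ⟨(Q.ord (algebraMap M F x)).toNat, by omega, x, by omega⟩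
  exact h

theorem rm_le (Q : Place S F) {x : M} (hx : 0 < Q.ord (algebraMap M F x)) :
    (rm M Q : ℤ) ≤ Q.ord (algebraMap M F x) := by
  have h : rm M Q ≤ (Q.ord (algebraMap M F x)).toNat :=
    Nat.sInf_le ⟨by omega, x, by omega⟩
  omega

theorem rm_dvd (Q : Place S F) (h : ∃ x : M, Q.ord (algebraMap M F x) ≠ 0) (x : M) :
    (rm M Q : ℤ) ∣ Q.ord (algebraMap M F x) := by
  by_cases hx : x = 0
  · rw [hx, map_zero, Q.ord_zero]
    exact dvd_zero _
  obtain ⟨h0, y, hy⟩ := rm_spec Q h
  have hy0 : y ≠ 0 := by
    rintro rfl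
    rw [map_zero, Q.ord_zero] at hy
    omega
  have h0' : (0 : ℤ) < rm M Q := by exact_mod_cast h0
  set m := Q.ord (algebraMap M F x) with hm
  have h1 : Q.ord (algebraMap M F (x * y ^ (-(m / rm M Q)))) = m % rm M Q := by
    rw [map_mul, map_zpow₀, Q.ord_mul (by simpa using hx) (zpow_ne_zero _ (by simpa using hy0)),
      Q.ord_zpow, hy, ← hm]
    have := Int.mul_ediv_add_emod m (rm M Q)
    linarith
  have h2 := Int.emod_nonneg m h0'.ne'
  have h3 := Int.emod_lt_of_pos m h0'
  by_contra hcon
  have h4 : 0 < m % rm M Q := lt_of_le_of_ne h2 (fun h => hcon (Int.dvd_of_emod_eq_zero h.symm))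
  have h5 := rm_le (M := M) Q (x := x * y ^ (-(m / rm M Q))) (by rw [h1]; exact h4)
  rw [h1] at h5
  omega

/-- the place below -/
noncomputable def below (hk : ∀ c : k, ∃ s : S, algebraMap M F (algebraMap k M c) =
    algebraMap S F s) (Q : Place S F) (h : ∃ x : M, Q.ord (algebraMap M F x) ≠ 0) : Place k M where
  ord x := Q.ord (algebraMap M F x) / rm M Q
  ord_zero := by rw [map_zero, Q.ord_zero, Int.zero_ediv]
  ord_mul {f g} hf hg := by
    rw [map_mul, Q.ord_mul (by simpa using hf) (by simpa using hg),
      Int.add_ediv_of_dvd_left (rm_dvd Q h f)]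
  ord_add {f g} hf hg hfg := by
    have h0 : (0 : ℤ) < rm M Q := by exact_mod_cast (rm_spec Q h).1
    have h1 := Q.ord_add (f := algebraMap M F f) (g := algebraMap M F g) (by simpa using hf)
      (by simpa using hg) (by rw [← map_add, Ne, map_eq_zero]; exact hfg)
    rw [map_add]
    rcases min_le_iff.1 h1 with h | h
    · exact min_le_iff.2 (Or.inl (Int.ediv_le_ediv h0 h))
    · exact min_le_iff.2 (Or.inr (Int.ediv_le_ediv h0 h))
  ord_const {c} hc := by
    obtain ⟨s, hs⟩ := hk c
    have hs0 : s ≠ 0 := by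
      rintro rfl
      rw [map_zero, map_eq_zero, map_eq_zero] at hs
      exact hc hs
    rw [hs, Q.ord_const hs0, Int.zero_ediv]
  surj := by
    obtain ⟨h0, y, hy⟩ := rm_spec Q h
    refine ⟨y, ?_, ?_⟩
    · rintro rfl
      rw [map_zero, Q.ord_zero] at hy
      omega
    · rw [hy, Int.ediv_self (by omega)]

theorem ord_below (hk : ∀ c : k, ∃ s : S, algebraMap M F (algebraMap k M c) =
    algebraMap S F s) (Q : Place S F) (h : ∃ x : M, Q.ord (algebraMap M F x) ≠ 0) (x : M) :
    Q.ord (algebraMap M F x) = rm M Q * (below hk Q h).ord x :=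
  (Int.mul_ediv_cancel' (rm_dvd Q h x)).symm

end res

section can

variable {S N : Type*} [Field S] [Field N] [Algebra S N] [CharZero S] [IsFF S N] [IsAlgClosed S]

/-- two pluricanonical forms -/
theorem exists_two_forms (hκ : 0 < canDeg S N) {δ : Derivation S N N} (hδ : δ ≠ 0) :
    ∃ (m : ℕ) (f g : N), 0 < m ∧ f ≠ 0 ∧ g ≠ 0 ∧ (∀ P : Place S N, Ge P (m * vo P δ) f) ∧
      (∀ P : Place S N, Ge P (m * vo P δ) g) ∧ ∀ c : S, g ≠ c • f := by
  obtain ⟨γ, N0, hγ, -⟩ := riemann S N
  obtain ⟨m, hm⟩ : ∃ m : ℕ, m = γ.toNat + 2 := ⟨_, rfl⟩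
  have hell : 2 ≤ ell (m • Kd hδ) := by
    have h1 := hγ (m • Kd hδ)
    rw [ddeg_nsmul, ddeg_Kd] at h1
    have h2 : (m : ℤ) * 1 ≤ m * canDeg S N := mul_le_mul_of_nonneg_left hκ (by positivity)
    omega
  have hell' : 1 < finrank S (LL (m • Kd hδ)) := by
    unfold ell at hell
    omega
  have hfin : Module.Finite S (LL (m • Kd hδ)) := Module.finite_of_finrank_pos (by omega)
  have hnt : Nontrivial (LL (m • Kd hδ)) := Module.nontrivial_of_finrank_pos (R := S) (by omega)
  obtain ⟨f, hf⟩ := exists_ne (0 : LL (m • Kd hδ))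
  by_contra hcon
  push Not at hcon
  have h3 : finrank S (LL (m • Kd hδ)) ≤ 1 := by
    refine finrank_le_one f fun g => ?_
    by_cases hg : g = 0
    · exact ⟨0, by rw [hg, zero_smul]⟩
    obtain ⟨c, hc⟩ := hcon m (f : N) (g : N) (by omega) (fun h => hf (Subtype.ext h))
      (fun h => hg (Subtype.ext h)) ((mem_pl hδ m _).1 f.2) ((mem_pl hδ m _).1 g.2)
    exact ⟨c, Subtype.ext hc.symm⟩
  omega

/-- the converse -/
theorem canDeg_pos_of {δ : Derivation S N N} (hδ : δ ≠ 0) {m : ℕ} (hm : 0 < m) {f g : N}
    (hf0 : f ≠ 0) (hf : ∀ P : Place S N, Ge P (m * vo P δ) f)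
    (hg : ∀ P : Place S N, Ge P (m * vo P δ) g) (hfg : ∀ c : S, g ≠ c • f) : 0 < canDeg S N := by
  classical
  set T : Finset (Place S N) := (finite_support (k := S) f).toFinset ∪
    (vo_finite hδ).toFinset with hT
  have h1 := sum_ord_finset f T (fun P hP => by simp [hT, hP])
  have h2 := canDeg_finset hδ T (fun P hP => by simp [hT, hP])
  have h3 : ∀ P : Place S N, m * vo P δ ≤ P.ord f := fun P => (hf P).resolve_left hf0
  have h4 := Finset.sum_le_sum fun P (_ : P ∈ T) => h3 P
  rw [← Finset.mul_sum, h1, h2] at h4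
  have hm' : (0 : ℤ) < m := by exact_mod_cast hm
  have h5 : 0 ≤ canDeg S N := by
    by_contra hc
    push Not at hc
    have := mul_pos hm' (neg_pos.2 hc)
    omega
  refine lt_of_le_of_ne h5 fun h0 => ?_
  rw [← h0] at h2
  -- the divisor of the first form is zero
  have h6 : ∀ P ∈ T, P.ord f - m * vo P δ = 0 := by
    have h7 : ∑ P ∈ T, (P.ord f - m * vo P δ) = 0 := by
      rw [Finset.sum_sub_distrib, ← Finset.mul_sum, h1, h2]
      ring
    exact (Finset.sum_eq_zero_iff_of_nonneg fun P _ => by
      have := h3 P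
      omega).1 h7
  have h8 : ∀ P : Place S N, P.ord f = m * vo P δ := by
    intro P
    by_cases hP : P ∈ T
    · have := h6 P hP
      omega
    · have e1 : P.ord f = 0 := by
        by_contra h
        exact hP (by simp [hT, h])
      have e2 : vo P δ = 0 := by
        by_contra h
        exact hP (by simp [hT, h])
      rw [e1, e2, mul_zero]
  have h9 : hgt S (g / f) ≤ 0 := by
    rw [hgt_finset (g / f) (finite_support (k := S) (g / f)).toFinset
      (fun P hP => by simpa using hP)]
    refine Finset.sum_nonpos fun P _ => ?_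
    refine max_le ?_ le_rfl
    by_cases hg0 : g = 0
    · rw [hg0, zero_div, P.ord_zero, neg_zero]
    · rw [P.ord_div hg0 hf0, h8]
      have := (hg P).resolve_left hg0
      omega
  obtain ⟨c, hc⟩ := const_of_hgt h9
  apply hfg c
  rw [div_eq_iff hf0] at hc
  rw [hc, Algebra.smul_def]

end can

section main

variable {k M S F : Type*} [Field k] [Field M] [Field S] [Field F] [Algebra k M] [Algebra S F]
  [Algebra M F] [CharZero k] [IsAlgClosed k] [IsFF k M] [CharZero S] [IsAlgClosed S] [IsFF S F]

/-- **Extension of the field of constants.** -/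
theorem canDeg_pos_bc (hk : ∀ c : k, ∃ s : S, algebraMap M F (algebraMap k M c) =
    algebraMap S F s) (hx : ∃ x : M, ∀ s : S, algebraMap M F x ≠ algebraMap S F s)
    (h : 0 < canDeg k M) : 0 < canDeg S F := by
  have hcM : CharZero M := charZero_of_injective_algebraMap (algebraMap k M).injective
  obtain ⟨z, hz⟩ := hx
  have hzk : Transcendental k z := by
    intro hc
    have h1 := IsAlgClosed.degree_eq_one_of_irreducible k (minpoly.irreducible hc.isIntegral)
    obtain ⟨c, hc⟩ := minpoly.mem_range_of_degree_eq_one k z h1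
    obtain ⟨s, hs⟩ := hk c
    exact hz s (by rw [← hc, hs])
  have hzS : Transcendental S (algebraMap M F z) := by
    intro hc
    have h1 := IsAlgClosed.degree_eq_one_of_irreducible S (minpoly.irreducible hc.isIntegral)
    obtain ⟨c, hc⟩ := minpoly.mem_range_of_degree_eq_one S _ h1
    exact hz c hc.symm
  obtain ⟨d, hd⟩ := exists_der (k := k) (K := M)
  obtain ⟨δ, hδd⟩ : ∃ δ, δ = dd d z := ⟨_, rfl⟩
  have hδz : δ z = 1 := by
    rw [hδd, dd_apply, inv_mul_cancel₀ (der_ne_zero hd hzk)]
  have hδ : δ ≠ 0 := by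
    rintro rfl
    simp at hδz
  obtain ⟨d', hd'⟩ := exists_der (k := S) (K := F)
  obtain ⟨δ', hδd'⟩ : ∃ δ', δ' = dd d' (algebraMap M F z) := ⟨_, rfl⟩
  have hδz' : δ' (algebraMap M F z) = 1 := by
    rw [hδd', dd_apply, inv_mul_cancel₀ (der_ne_zero hd' hzS)]
  have hδ' : δ' ≠ 0 := by
    rintro rfl
    simp at hδz'
  -- compatibility
  have hcomp : ∀ a : M, δ' (algebraMap M F a) = algebraMap M F (δ a) := by
    let E : Derivation ℤ M F := Derivation.mk'
      (AddMonoidHom.toIntLinearMap
        { toFun := fun a => δ' (algebraMap M F a) - algebraMap M F (δ a)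
          map_zero' := by simp
          map_add' := by
            intro a b
            simp only [map_add]
            ring })
      (by
        intro a b
        change δ' (algebraMap M F (a * b)) - algebraMap M F (δ (a * b)) =
          a • (δ' (algebraMap M F b) - algebraMap M F (δ b)) +
          b • (δ' (algebraMap M F a) - algebraMap M F (δ a))
        simp only [map_mul, Derivation.leibniz, smul_eq_mul, map_add, Algebra.smul_def]
        ring)
    have hE : ∀ a, E a = δ' (algebraMap M F a) - algebraMap M F (δ a) := fun a => rfl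
    intro a
    have h1 := der_unique (k := k) E (fun c => by
      obtain ⟨s, hs⟩ := hk c
      rw [hE, hs, δ'.map_algebraMap, δ.map_algebraMap, map_zero, sub_zero]) hzk
      (by rw [hE, hδz', hδz, map_one, sub_self]) a
    rw [hE] at h1
    exact sub_eq_zero.1 h1
  have key : ∀ (m : ℕ) (f : M), (∀ P : Place k M, Ge P (m * vo P δ) f) →
      ∀ Q : Place S F, Ge Q (m * vo Q δ') (algebraMap M F f) := by
    intro m f hf Q
    by_cases hQ : ∃ x : M, Q.ord (algebraMap M F x) ≠ 0
    · obtain ⟨P, hP⟩ : ∃ P, P = below hk Q hQ := ⟨_, rfl⟩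
      have he : ∀ x, Q.ord (algebraMap M F x) = rm M Q * P.ord x := by
        intro x
        rw [hP]
        exact ord_below hk Q hQ x
      have he0 : (0 : ℤ) < rm M Q := by exact_mod_cast (rm_spec Q hQ).1
      have h1 : Q.ord (algebraMap M F (unif P)) = rm M Q := by
        rw [he, ord_unif, mul_one]
      have h2 := (ord_der Q hδ' (f := algebraMap M F (unif P)) (by rw [h1]; omega)).2
      rw [hcomp, he, h1] at h2
      have h3 : P.ord (δ (unif P)) = vo P δ := rfl
      rw [h3] at h2
      rcases hf P with h4 | h4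
      · left
        rw [h4, map_zero]
      · right
        rw [he]
        have h5 : rm M Q * (m * vo P δ) ≤ rm M Q * P.ord f :=
          mul_le_mul_of_nonneg_left h4 he0.le
        have h6 : (m : ℤ) * (rm M Q * vo P δ) = m * (rm M Q - 1 + vo Q δ') := by rw [h2]
        have h7 : 0 ≤ (m : ℤ) * (rm M Q - 1) := mul_nonneg (Int.natCast_nonneg _) (by omega)
        nlinarith
    · push Not at hQ
      right
      rw [hQ]
      have h1 : vo Q δ' ≤ 0 := by
        by_contra hc
        push Not at hc
        have h2 : Ge Q (vo Q δ') (δ' (algebraMap M F z)) := by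
          obtain ⟨c, hc'⟩ := exists_const Q (Or.inr (hQ z).ge : Ge Q 0 (algebraMap M F z))
          have h3 : δ' (algebraMap M F z) = δ' (algebraMap M F z - algebraMap S F c) := by
            rw [map_sub, δ'.map_algebraMap, sub_zero]
          rw [h3]
          have h4 := hc'.resolve_left (sub_ne_zero.2 (hz c))
          have h5 := (ord_der Q hδ' (f := algebraMap M F z - algebraMap S F c) (by omega)).2
          right
          omega
        rw [hδz'] at h2
        rcases h2 with h2 | h2
        · exact one_ne_zero h2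
        · rw [Q.ord_one] at h2
          omega
      have := mul_nonneg (Int.natCast_nonneg m) (neg_nonneg.2 h1)
      linarith
  obtain ⟨m, f, g, hm, hf0, hg0, hf, hg, hfg⟩ := exists_two_forms h hδ
  refine canDeg_pos_of hδ' hm (f := algebraMap M F f) (g := algebraMap M F g)
    (by rwa [Ne, map_eq_zero]) (key m f hf) (key m g hg) ?_
  intro c hc
  -- the ratio is not constant
  have h1 : Transcendental k (g / f) := by
    intro hc
    have h1 := IsAlgClosed.degree_eq_one_of_irreducible k (minpoly.irreducible hc.isIntegral)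
    obtain ⟨c, hc⟩ := minpoly.mem_range_of_degree_eq_one k _ h1
    apply hfg c
    rw [eq_div_iff hf0] at hc
    rw [← hc, Algebra.smul_def]
  have h2 : algebraMap M F (g / f) = algebraMap S F c := by
    rw [map_div₀, hc, Algebra.smul_def, mul_div_assoc, div_self (by rwa [Ne, map_eq_zero]),
      mul_one]
  have h3 : δ (g / f) ≠ 0 := der_ne_zero hδ h1
  have h4 := hcomp (g / f)
  rw [h2, δ'.map_algebraMap] at h4
  exact h3 ((map_eq_zero _).1 h4.symm)

end main

end Pool.Agent.H916
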