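import Pool.Agent.H916.Spe
import Pool.Agent.H916.Am
import Pool.Agent.H916.Fib
import Pool.Graph.R_seed8.R885.Ext

/-! Heights of the points of an affine chart of a family of curves. -/

set_option autoImplicit false
set_option linter.overlappingInstances false
set_option linter.unusedSectionVars false

open FF Filter Pool.Agent.W603.LV Pool.Agent.W603.PV Pool.Agent.K4H62.EL

namespace Pool.Agent.H916

section alg

variable {k B : Type} [Field k] [IsAlgClosed k] [CharZero k] [CommRing B] [Algebra k B]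

/-- heights of polynomials in the coordinates -/
theorem hgt_adjoin {n : ℕ} (y : Fin n → B) {b : B} (hb : b ∈ Algebra.adjoin k (Set.range y)) :
    ∃ C : ℕ, ∀ (E : Type) [Field E] [Algebra k E] [IsFF k E] (φ : B →ₐ[k] E),
      hgt k (φ b) ≤ C * ∑ j, hgt k (φ (y j)) := by
  rw [Algebra.adjoin_range_eq_range_aeval] at hb
  obtain ⟨q, hq⟩ := hb
  refine ⟨q.totalDegree, fun E _ _ _ φ => ?_⟩
  have h1 := hgt_mvpolyF (k := k) (F := k) (fun j => φ (y j)) q
  have h2 : ∑ α ∈ q.support, hgt k (algebraMap k E (q.coeff α)) = 0 :=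
    Finset.sum_eq_zero fun α _ => hgt_algebraic (isAlgebraic_algebraMap _)
  rw [h2, add_zero] at h1
  have h3 : φ b = MvPolynomial.aeval (fun j => φ (y j)) q := by
    rw [← hq]
    change φ (MvPolynomial.aeval y q) = _
    rw [← MvPolynomial.comp_aeval_apply]
  rw [h3]
  exact h1

/-- heights of algebraic functions of the coordinates -/
theorem hgt_alg [IsDomain B] {n : ℕ} (y : Fin n → B) {a : B}
    (ha : IsAlgebraic (Algebra.adjoin k (Set.range y)) a) :
    ∃ g : B, g ≠ 0 ∧ ∃ C : ℕ, ∀ (E : Type) [Field E] [Algebra k E] [IsFF k E] (φ : B →ₐ[k] E),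
      φ g ≠ 0 → hgt k (φ a) ≤ C * ∑ j, hgt k (φ (y j)) := by
  obtain ⟨p, hp0, hp⟩ := ha
  choose C hC using fun d => hgt_adjoin y (p.coeff d).2
  refine ⟨(p.leadingCoeff : B), ?_, C p.natDegree + ∑ d ∈ Finset.range p.natDegree, C d,
    fun E _ _ _ φ hφ => ?_⟩
  · intro h0
    apply hp0
    rw [← Polynomial.leadingCoeff_eq_zero]
    exact Subtype.ext h0
  · have h1 := hgt_root (k := k) (D := p.natDegree) (fun d => φ ((p.coeff d : _) : B)) hφ (φ a) (by
      rw [Polynomial.aeval_eq_sum_range] at hp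
      have h2 := congrArg φ hp
      rw [map_zero, map_sum] at h2
      rw [← h2]
      refine Finset.sum_congr rfl fun d _ => ?_
      rw [Algebra.smul_def, map_mul, map_pow]
      rfl)
    refine h1.trans ?_
    push_cast
    rw [add_mul, Finset.sum_mul]
    exact add_le_add (hC _ E φ) (Finset.sum_le_sum fun d _ => hC d E φ)

end alg

/-- The hypotheses on the fibres in the chart in which the coordinates `i0` and `j0` are one. -/
structure ChartHyp (k : Type) [Field k] [IsAlgClosed k] [CharZero k] {n m : ℕ}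
    (Φ : Set (MvPolynomial (Fin n) k)) (Ψ : Set (MvPolynomial (Fin n ⊕ Fin m) k)) (i0 : Fin n)
    (j0 : Fin m) (T : Set (Fin n → k)) : Prop where
  hom : ∀ H ∈ Ψ, Hom2 H
  fin : T.Finite
  low : ∀ c : Fin n → k, c i0 = 1 → (∀ H ∈ Φ, MvPolynomial.aeval c H = 0) →
    ∀ (G : Type) [Field G] [Algebra k G] [IsFF k G] (O : Place k G) (a b : k) (X Y : G),
      Weier O a b X Y → ∀ x : Fin m → G, x j0 ≠ 0 →
      (∀ H ∈ Ψ, MvPolynomial.aeval (Sum.elim (fun l => algebraMap k G (c l)) x) H = 0) →
      ∀ i, ∃ e : k, x i = algebraMap k G e * x j0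
  dim : ∀ c : Fin n → k, c ∉ T → c i0 = 1 → (∀ H ∈ Φ, MvPolynomial.aeval c H = 0) →
    ∀ (K : Type) [Field K] [Algebra k K] (x : Fin m → K), x j0 = 1 →
      (∀ H ∈ Ψ, MvPolynomial.aeval (Sum.elim (fun l => algebraMap k K (c l)) x) H = 0) →
      ∀ i i', ¬ AlgebraicIndependent k ![x i, x i']
  bdd : ∀ c ∈ T, c i0 = 1 → (∀ H ∈ Φ, MvPolynomial.aeval c H = 0) →
    ∃ A : ℕ, ∀ (E : Type) [Field E] [Algebra k E] [IsFF k E] (x : Fin m → E), x j0 = 1 →
      (∀ H ∈ Ψ, MvPolynomial.aeval (Sum.elim (fun l => algebraMap k E (c l)) x) H = 0) →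
      ∑ l, hgt k (x l) ≤ A * (max (canDeg k E) 0 + 1)

section dim

variable {k : Type} [Field k] [IsAlgClosed k] [CharZero k]

/-- a point of an affine variety outside a hypersurface -/
theorem exists_pt {A : Type} [CommRing A] [IsDomain A] [Algebra k A] [Algebra.FiniteType k A]
    {w : A} (hw : w ≠ 0) : ∃ π : A →ₐ[k] k, π w ≠ 0 := by
  have h1 : Nontrivial (Localization.Away w) := by
    have h2 : IsDomain (Localization.Away w) := IsLocalization.isDomain_localization
      (powers_le_nonZeroDivisors_of_noZeroDivisors hw)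
    infer_instance
  have h2 : Algebra.FiniteType k (Localization.Away w) :=
    Algebra.FiniteType.trans (S := A) inferInstance
      (IsLocalization.finiteType_of_monoid_fg (Submonoid.powers w) _)
  obtain ⟨π⟩ := Pool.Agent.R885.exists_point k (Localization.Away w)
  refine ⟨π.comp (IsScalarTower.toAlgHom k A _), fun h0 => ?_⟩
  have h3 : IsUnit (algebraMap A (Localization.Away w) w) :=
    IsLocalization.map_units (Localization.Away w) (⟨w, Submonoid.mem_powers w⟩ :
      Submonoid.powers w)
  exact (h3.map π).ne_zero h0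

end dim

section prime

open MvPolynomial

variable {k : Type} [Field k] [IsAlgClosed k] [CharZero k] {n m : ℕ}
  {Φ : Set (MvPolynomial (Fin n) k)} {Ψ : Set (MvPolynomial (Fin n ⊕ Fin m) k)} {i0 : Fin n}
  {j0 : Fin m} {T : Set (Fin n → k)}

/-- The ideal `J` contains the equations in the chart. -/
structure Contains (Φ : Set (MvPolynomial (Fin n) k)) (Ψ : Set (MvPolynomial (Fin n ⊕ Fin m) k))
    (i0 : Fin n) (j0 : Fin m) (J : Ideal (MvPolynomial (Fin n ⊕ Fin m) k)) : Prop where
  base : ∀ H ∈ Φ, rename Sum.inl H ∈ J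
  total : ∀ H ∈ Ψ, H ∈ J
  one_i : X (Sum.inl i0) - 1 ∈ J
  one_j : X (Sum.inr j0) - 1 ∈ J

/-- **The dimension of the general closed fibre.** -/
theorem dim_fibre {B0 B : Type} [CommRing B0] [CommRing B] [IsDomain B] [Algebra k B0]
    [Algebra k B] [Algebra B0 B] [IsScalarTower k B0 B]
    (hinj0 : Function.Injective (algebraMap B0 B)) (y : Fin n → B0)
    (hy : Algebra.adjoin k (Set.range y) = ⊤) (x : Fin m → B)
    (hgen : Algebra.adjoin k (Set.range (fun l => algebraMap B0 B (y l)) ∪ Set.range x) = ⊤)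
    {i i' : Fin m} (hind : AlgebraicIndependent B0 ![x i, x i'])
    (hT : T.Finite) (hyT : ∀ c ∈ T, y ≠ fun l => algebraMap k B0 (c l)) :
    ∃ c : Fin n → k, c ∉ T ∧ ∃ (K : Type) (_ : Field K) (_ : Algebra k K) (g : B →ₐ[k] K),
      (∀ l, g (algebraMap B0 B (y l)) = algebraMap k K (c l)) ∧
      AlgebraicIndependent k ![g (x i), g (x i')] := by
  classical
  have hd0 : IsDomain B0 := hinj0.isDomain (algebraMap B0 B)
  have hft0 : Algebra.FiniteType k B0 := ⟨⟨(Set.finite_range y).toFinset, by
    rw [Set.Finite.coe_toFinset, hy]⟩⟩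
  have hN0 : IsNoetherianRing B0 := Algebra.FiniteType.isNoetherianRing k B0
  have hftB : Algebra.FiniteType k B := by
    refine ⟨⟨((Set.finite_range (fun l => algebraMap B0 B (y l))).union
      (Set.finite_range x)).toFinset, ?_⟩⟩
    rw [Set.Finite.coe_toFinset, hgen]
  -- the polynomial ring
  let P : Type := MvPolynomial (Fin 2) B0
  let iPB : Algebra P B := (aeval (R := B0) ![x i, x i']).toRingHom.toAlgebra
  have hPB : ∀ p : P, algebraMap P B p = aeval ![x i, x i'] p := fun _ => rfl
  have hinj : Function.Injective (algebraMap P B) := hind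
  have hdP : IsDomain P := hinj.isDomain (algebraMap P B)
  let ikP : Algebra k P := inferInstance
  have tw : IsScalarTower k P B := IsScalarTower.of_algebraMap_eq fun c => by
    rw [hPB, IsScalarTower.algebraMap_apply k B0 P]
    change _ = aeval ![x i, x i'] (C (algebraMap k B0 c))
    rw [aeval_C, ← IsScalarTower.algebraMap_apply]
  have hftPB : Algebra.FiniteType P B := Algebra.FiniteType.of_restrictScalars_finiteType k P B
  obtain ⟨u, hu0, hu⟩ := exists_homExt (A := P) (B := B) hinj
  -- a nonzero coefficient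
  obtain ⟨s, hs⟩ : ∃ s, u.coeff s ≠ 0 := by
    by_contra hcon
    push Not at hcon
    exact hu0 (MvPolynomial.ext _ _ fun s => by rw [hcon s, coeff_zero])
  -- avoiding the exceptional points
  have hl : ∀ c : T, ∃ l, y l ≠ algebraMap k B0 (c.1 l) := by
    intro c
    by_contra hcon
    push Not at hcon
    exact hyT c.1 c.2 (funext hcon)
  choose l hl using hl
  have hTf : Finite T := hT
  have hTft : Fintype T := Fintype.ofFinite T
  obtain ⟨w, hw⟩ : ∃ w : B0, w = u.coeff s *
      ∏ c : T, (y (l c) - algebraMap k B0 (c.1 (l c))) := ⟨_, rfl⟩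
  have hw0 : w ≠ 0 := by
    rw [hw]
    exact mul_ne_zero hs (Finset.prod_ne_zero_iff.2 fun c _ => sub_ne_zero.2 (hl c))
  obtain ⟨π, hπ⟩ := exists_pt (k := k) hw0
  rw [hw, map_mul, map_prod] at hπ
  have hπ1 := left_ne_zero_of_mul hπ
  have hπ2 := right_ne_zero_of_mul hπ
  obtain ⟨c, hc⟩ : ∃ c : Fin n → k, ∀ l, c l = π (y l) := ⟨_, fun _ => rfl⟩
  have hcT : c ∉ T := by
    intro hcT
    have h1 := Finset.prod_ne_zero_iff.1 hπ2 ⟨c, hcT⟩ (Finset.mem_univ _)
    apply h1
    rw [map_sub, ← hc, AlgHom.commutes]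
    exact sub_self _
  refine ⟨c, hcT, ?_⟩
  -- the field
  let L : Type := FractionRing (MvPolynomial (Fin 2) k)
  let K : Type := AlgebraicClosure L
  let f0 : MvPolynomial (Fin 2) k →ₐ[k] K :=
    (IsScalarTower.toAlgHom k L K).comp (IsScalarTower.toAlgHom k (MvPolynomial (Fin 2) k) L)
  have hf0 : Function.Injective f0 :=
    (algebraMap L K).injective.comp (IsFractionRing.injective (MvPolynomial (Fin 2) k) L)
  let f : P →+* K := (f0 : MvPolynomial (Fin 2) k →+* K).comp (MvPolynomial.map (π : B0 →+* k))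
  have hfu : f u ≠ 0 := by
    intro h0
    have h1 : MvPolynomial.map (π : B0 →+* k) u = 0 := hf0 (by
      rw [map_zero]
      exact h0)
    have h2 := congrArg (fun p => coeff s p) h1
    simp only [coeff_map, coeff_zero] at h2
    exact hπ1 h2
  obtain ⟨g, hg⟩ := hu K f hfu
  have hgB0 : ∀ b : B0, g (algebraMap B0 B b) = algebraMap k K (π b) := by
    intro b
    have h1 : algebraMap B0 B b = algebraMap P B (C b) := by
      rw [hPB, aeval_C]
    rw [h1, hg]
    change f0 (MvPolynomial.map (π : B0 →+* k) (C b)) = _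
    rw [map_C]
    change f0 (algebraMap k _ (π b)) = _
    rw [AlgHom.commutes]
  have hgX : ∀ j : Fin 2, g (![x i, x i'] j) = f0 (X j) := by
    intro j
    have h1 : ![x i, x i'] j = algebraMap P B (X j) := by
      rw [hPB, aeval_X]
    rw [h1, hg]
    change f0 (MvPolynomial.map (π : B0 →+* k) (X j)) = _
    rw [map_X]
  let gk : B →ₐ[k] K := { g with
    commutes' := fun c => by
      change g (algebraMap k B c) = _
      rw [IsScalarTower.algebraMap_apply k B0 B, hgB0, AlgHom.commutes]
      rfl }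
  refine ⟨K, inferInstance, inferInstance, gk, fun l => ?_, ?_⟩
  · rw [hc]
    exact hgB0 (y l)
  · have h1 : ![gk (x i), gk (x i')] = fun j => f0 (X j) := by
      funext j
      rw [← hgX j]
      fin_cases j <;> rfl
    rw [h1]
    exact (algebraicIndependent_X (Fin 2) k).map' (f := f0) hf0

open scoped IntermediateField.algebraAdjoinAdjoin in
/-- The field of functions of the fibre. -/
theorem fibre_ff {B0 B Ω M : Type} [CommRing B0] [CommRing B] [Algebra k B0] [Algebra k B]
    [Algebra B0 B] [Field Ω] [Field M] [Algebra B0 Ω] [Algebra B0 M] [Algebra B M] [Algebra Ω M]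
    [Algebra k Ω] [Algebra k M] [IsScalarTower B0 B M] [IsScalarTower B0 Ω M]
    [IsScalarTower k Ω M] [IsScalarTower k B M] (hF : FibreField B0 B Ω M) (y : Fin n → B0)
    (x : Fin m → B)
    (hgen : Algebra.adjoin k (Set.range (fun l => algebraMap B0 B (y l)) ∪ Set.range x) = ⊤)
    {i : Fin m} (hi : Transcendental B0 (x i))
    (hdim : ∀ i', ¬ AlgebraicIndependent B0 ![x i, x i']) : IsFF Ω M := by
  classical
  have hcl := hF.closed
  have halg := hF.alg
  have hd0 : IsDomain B := hF.inj.isDomain (algebraMap B M)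
  have hd1 : IsDomain B0 := hF.inj0.isDomain (algebraMap B0 B)
  have hinjM : Function.Injective (algebraMap B0 M) := by
    rw [IsScalarTower.algebraMap_eq B0 B M]
    exact hF.inj.comp hF.inj0
  have hinj0 : Function.Injective (algebraMap B0 Ω) := by
    rw [IsScalarTower.algebraMap_eq B0 Ω M] at hinjM
    exact Function.Injective.of_comp hinjM
  obtain ⟨t, ht⟩ : ∃ t : Fin m → M, ∀ l, t l = algebraMap B M (x l) := ⟨_, fun _ => rfl⟩
  have htr : Transcendental Ω (t i) := by
    intro hc
    apply hi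
    rw [ht] at hc
    have h1 : IsAlgebraic B0 (algebraMap B M (x i)) := IsAlgebraic.restrictScalars B0 hc
    exact (isAlgebraic_algebraMap_iff hF.inj).1 h1
  have htop : IntermediateField.adjoin Ω (Set.range t) = ⊤ := by
    rw [eq_top_iff, ← hF.gen, IntermediateField.adjoin_le_iff]
    rintro _ ⟨b, rfl⟩
    have hb : b ∈ Algebra.adjoin k (Set.range (fun l => algebraMap B0 B (y l)) ∪ Set.range x) := by
      rw [hgen]
      exact Algebra.mem_top
    induction hb using Algebra.adjoin_induction with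
    | mem z hz =>
      rcases hz with ⟨l, rfl⟩ | ⟨l, rfl⟩
      · change algebraMap B M (algebraMap B0 B (y l)) ∈ _
        rw [← IsScalarTower.algebraMap_apply B0 B M, IsScalarTower.algebraMap_apply B0 Ω M]
        exact IntermediateField.algebraMap_mem _ _
      · rw [← ht]
        exact IntermediateField.subset_adjoin _ _ ⟨l, rfl⟩
    | algebraMap c =>
      rw [← IsScalarTower.algebraMap_apply k B M, IsScalarTower.algebraMap_apply k Ω M]
      exact IntermediateField.algebraMap_mem _ _
    | add a b _ _ ha hb =>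
      rw [map_add]
      exact add_mem ha hb
    | mul a b _ _ ha hb =>
      rw [map_mul]
      exact mul_mem ha hb
  have halgt : ∀ l, IsAlgebraic (IntermediateField.adjoin Ω {t i}) (t l) := by
    intro l
    by_contra hcon
    apply hdim l
    -- independence over `Ω`
    have h1 : AlgebraicIndependent Ω ![t i, t l] := by
      have h2 : AlgebraicIndependent Ω (fun _ : Unit => t i) := by
        rw [algebraicIndependent_unique_type_iff]
        exact htr
      have h3 : Transcendental (Algebra.adjoin Ω (Set.range fun _ : Unit => t i)) (t l) := by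
        rw [Set.range_const]
        intro h4
        apply hcon
        exact (IsFractionRing.isAlgebraic_iff (Algebra.adjoin Ω {t i})
          (IntermediateField.adjoin Ω {t i}) M).1 h4
      have h4 := (h2.option_iff_transcendental (t l)).2 h3
      have h5 := h4.comp (fun j : Fin 2 => if j = 0 then some () else none) (by
        intro a b
        fin_cases a <;> fin_cases b <;> simp)
      convert h5 using 1
      funext j
      fin_cases j <;> rfl
    have h2 : AlgebraicIndependent B0 ![t i, t l] := h1.restrictScalars hinj0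
    have h3 : ![t i, t l] = (IsScalarTower.toAlgHom B0 B M) ∘ ![x i, x l] := by
      funext j
      fin_cases j
      · exact ht i
      · exact ht l
    rw [h3] at h2
    exact h2.of_comp _
  refine isFF_of_alg htr ?_ ?_
  · rw [← IntermediateField.fg_top_iff, ← htop]
    exact IntermediateField.fg_adjoin_of_finite (Set.finite_range _)
  · intro z
    have hz : z ∈ IntermediateField.adjoin Ω (Set.range t) := by
      rw [htop]
      exact IntermediateField.mem_top
    induction hz using IntermediateField.adjoin_induction with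
    | mem z hz =>
      obtain ⟨l, rfl⟩ := hz
      exact halgt l
    | algebraMap c =>
      exact isAlgebraic_algebraMap (⟨algebraMap Ω M c, IntermediateField.algebraMap_mem _ c⟩ :
        IntermediateField.adjoin Ω {t i})
    | add a b _ _ ha hb => exact ha.add hb
    | inv a _ ha => exact ha.inv
    | mul a b _ _ ha hb => exact ha.mul hb

/-- **The main case of the induction.** -/
theorem prime_main {B0 B : Type} [CommRing B0] [CommRing B] [IsDomain B] [Algebra k B0]
    [Algebra k B] [Algebra B0 B] [IsScalarTower k B0 B]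
    (hinj0 : Function.Injective (algebraMap B0 B)) (y : Fin n → B0)
    (hy : Algebra.adjoin k (Set.range y) = ⊤) (x : Fin m → B)
    (hgen : Algebra.adjoin k (Set.range (fun l => algebraMap B0 B (y l)) ∪ Set.range x) = ⊤)
    (h : ChartHyp k Φ Ψ i0 j0 T) (hyi : y i0 = 1) (hxj : x j0 = 1)
    (hΦ : ∀ H ∈ Φ, aeval y H = 0)
    (hΨ : ∀ H ∈ Ψ, aeval (Sum.elim (fun l => algebraMap B0 B (y l)) x) H = 0)
    (hyT : ∀ c ∈ T, y ≠ fun l => algebraMap k B0 (c l)) {i : Fin m}
    (hi : Transcendental B0 (x i)) :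
    ∃ g : B, g ≠ 0 ∧ ∃ A : ℕ, ∀ (E : Type) [Field E] [Algebra k E] [IsFF k E]
      (φ : B →ₐ[k] E), φ g ≠ 0 → ∑ l, hgt k (φ (x l)) ≤ A * (max (canDeg k E) 0 +
          ∑ j, hgt k (φ (algebraMap B0 B (y j)))) := by
  classical
  obtain ⟨Ω, M, a1, a2, a3, a4, a5, a6, a7, a8, t1, t2, t3, t4, t5, hF⟩ :=
    exists_fibreField (k := k) (B0 := B0) (B := B) hinj0
  have hcl := hF.closed
  have hinjk : Function.Injective (algebraMap k B) := (algebraMap k B).injective
  -- the dimension
  have hdim : ∀ i', ¬ AlgebraicIndependent B0 ![x i, x i'] := by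
    intro i' hind
    obtain ⟨c, hcT, K, k1, k2, g, hg, hgi⟩ := dim_fibre hinj0 y hy x hgen hind h.fin hyT
    refine h.dim c hcT ?_ ?_ K (fun l => g (x l)) ?_ ?_ i i' hgi
    · apply (algebraMap k K).injective
      rw [← hg, hyi, map_one, map_one, map_one]
    · intro H hH
      apply (algebraMap k K).injective
      have h1 := congrArg g (congrArg (algebraMap B0 B) (hΦ H hH))
      rw [map_zero, map_zero] at h1
      rw [map_zero, ← h1]
      have h2 : algebraMap B0 B (aeval y H) = aeval (fun l => algebraMap B0 B (y l)) H :=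
        (aeval_algebraMap_apply B y H).symm
      rw [h2, comp_aeval_apply]
      have h3 : (fun l => g (algebraMap B0 B (y l))) = fun l => algebraMap k K (c l) := funext hg
      rw [h3]
      exact (aeval_algebraMap_apply K c H).symm
    · rw [hxj, map_one]
    · intro H hH
      have h1 := congrArg g (hΨ H hH)
      rw [map_zero, comp_aeval_apply] at h1
      rw [← h1]
      congr 2
      funext l
      rcases l with l | l
      · exact (hg l).symm
      · rfl
  have hff : IsFF Ω M := fibre_ff hF y x hgen hi hdim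
  have hchk : CharZero Ω := charZero_of_injective_algebraMap (algebraMap k Ω).injective
  -- the genus
  have hpos : 0 < canDeg Ω M := by
    by_contra hcon
    push Not at hcon
    obtain ⟨G, g1, g2, g3, O, a, b, X, Y, ι, hW⟩ := exists_cubic (Ω := Ω) (M := M) hcon
    let g4 : Algebra k G := ((algebraMap Ω G).comp (algebraMap k Ω)).toAlgebra
    have g5 : IsScalarTower k Ω G := IsScalarTower.of_algebraMap_eq fun _ => rfl
    have hιk : ∀ c : k, ι (algebraMap k M c) = algebraMap k G c := by
      intro c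
      rw [IsScalarTower.algebraMap_apply k Ω M, AlgHom.commutes,
        ← IsScalarTower.algebraMap_apply k Ω G]
    let ιk : M →ₐ[k] G := { (ι : M →+* G) with commutes' := hιk }
    have hιB0 : ∀ b : B0, ι (algebraMap B M (algebraMap B0 B b)) =
        algebraMap Ω G (algebraMap B0 Ω b) := by
      intro b
      rw [← IsScalarTower.algebraMap_apply B0 B M, IsScalarTower.algebraMap_apply B0 Ω M,
        AlgHom.commutes]
    obtain ⟨c, G0, q1, q2, q3, O0, a0, b0, X0, Y0, x0, hW0, -, hx0, hne, hrel, hrel2⟩ :=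
      spec_cubic (k := k) hW (fun l => algebraMap B0 Ω (y l))
        (fun l => ι (algebraMap B M (x l))) (i := i) (j := j0) (by
          rw [hxj, map_one, map_one]
          exact one_ne_zero) (by
          intro c hc
          rw [hxj, map_one, map_one, mul_one, ← AlgHom.commutes ι c] at hc
          have h1 := ι.toRingHom.injective hc
          apply hi
          have h2 : IsAlgebraic B0 (algebraMap B M (x i)) := by
            rw [h1]
            exact (hF.alg.isAlgebraic c).algebraMap
          exact (isAlgebraic_algebraMap_iff hF.inj).1 h2) 1 (by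
          rw [map_one]
          exact one_ne_zero)
    have hci0 : c i0 = 1 := by
      have h1 := hrel (MvPolynomial.X i0 - 1) (by
        rw [map_sub, aeval_X, map_one, hyi, map_one, sub_self])
      rw [map_sub, aeval_X, map_one, sub_eq_zero] at h1
      exact h1
    obtain ⟨e, he⟩ := h.low c hci0 (fun H hH => hrel H (by
      have h2 : aeval (fun l => algebraMap B0 Ω (y l)) H = algebraMap B0 Ω (aeval y H) :=
        aeval_algebraMap_apply Ω y H
      rw [h2, hΦ H hH, map_zero])) G0 O0 a0 b0 X0 Y0 hW0 x0 hx0 (fun H hH => hrel2 H (h.hom H hH) (by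
      have h3 := congrArg (fun z => ιk (algebraMap B M z)) (hΨ H hH)
      simp only [map_zero] at h3
      have h4 : algebraMap B M (aeval (Sum.elim (fun l => algebraMap B0 B (y l)) x) H) =
          aeval (fun w => algebraMap B M (Sum.elim (fun l => algebraMap B0 B (y l)) x w)) H :=
        (aeval_algebraMap_apply M _ H).symm
      rw [h4, comp_aeval_apply] at h3
      rw [← h3]
      congr 2
      funext l
      rcases l with l | l
      · exact (hιB0 (y l)).symm
      · rfl)) i
    exact hne e he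
  have hGF : GenusFibres B0 B Ω M :=
    ⟨hF.inj0, hF.inj, hF.alg, hF.closed, hff, hF.gen, hpos⟩
  obtain ⟨z, hz⟩ : ∃ z : Fin (n + m) → B, ∀ q, z q = Sum.elim (fun l => algebraMap B0 B (y l)) x
      (finSumFinEquiv.symm q) := ⟨_, fun _ => rfl⟩
  have hzr : Set.range z = Set.range (fun l => algebraMap B0 B (y l)) ∪ Set.range x := by
    rw [← Set.Sum.elim_range]
    ext w
    constructor
    · rintro ⟨q, rfl⟩
      exact ⟨_, (hz q).symm⟩
    · rintro ⟨q, rfl⟩
      exact ⟨finSumFinEquiv q, by rw [hz, Equiv.symm_apply_apply]⟩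
  obtain ⟨g, hg0, A, hA⟩ := rel_gens (k := k) hGF z (by rw [hzr, hgen]) y hy
  refine ⟨g, hg0, A, fun E _ _ _ φ hφ => le_trans ?_ (hA E φ hφ)⟩
  rw [← (finSumFinEquiv (m := n) (n := m)).sum_comp, Fintype.sum_sum_type]
  have h1 : ∑ l, hgt k (φ (x l)) = ∑ l, hgt k (φ (z (finSumFinEquiv (m := n) (Sum.inr l)))) := by
    refine Finset.sum_congr rfl fun l _ => ?_
    rw [hz, Equiv.symm_apply_apply, Sum.elim_inr]
  rw [h1]
  exact le_add_of_nonneg_left (Finset.sum_nonneg fun _ _ => hgt_nonneg _)

/-- **Irreducible families.** -/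
theorem prime_case (h : ChartHyp k Φ Ψ i0 j0 T) {J : Ideal (MvPolynomial (Fin n ⊕ Fin m) k)}
    (hJ : J.IsPrime) (hc : Contains Φ Ψ i0 j0 J) :
    ∃ g : MvPolynomial (Fin n ⊕ Fin m) k, g ∉ J ∧ ∃ A : ℕ, ∀ (E : Type) [Field E] [Algebra k E]
      [IsFF k E] (φ : MvPolynomial (Fin n ⊕ Fin m) k →ₐ[k] E), (∀ H ∈ J, φ H = 0) → φ g ≠ 0 →
      ∑ l, hgt k (φ (X (Sum.inr l))) ≤ A * (max (canDeg k E) 0 + 1 +
        ∑ j, hgt k (φ (X (Sum.inl j)))) := by
  classical
  let B : Type := MvPolynomial (Fin n ⊕ Fin m) k ⧸ J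
  let mk : MvPolynomial (Fin n ⊕ Fin m) k →ₐ[k] B := Ideal.Quotient.mkₐ k J
  have hmk0 : ∀ H, mk H = 0 ↔ H ∈ J := fun H => Ideal.Quotient.eq_zero_iff_mem
  have hmks : Function.Surjective mk := Ideal.Quotient.mkₐ_surjective k J
  have hdom : IsDomain B := Ideal.Quotient.isDomain J
  -- lifting the points
  have lift : ∀ (E : Type) [Field E] [Algebra k E]
      (φ : MvPolynomial (Fin n ⊕ Fin m) k →ₐ[k] E), (∀ H ∈ J, φ H = 0) →
      ∃ φ' : B →ₐ[k] E, ∀ H, φ' (mk H) = φ H := fun E _ _ φ hφ =>
    ⟨Ideal.Quotient.liftₐ J φ hφ, fun H => Ideal.Quotient.liftₐ_apply J φ hφ _⟩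
  obtain ⟨x, hx⟩ : ∃ x : Fin m → B, ∀ l, x l = mk (X (Sum.inr l)) := ⟨_, fun _ => rfl⟩
  -- the base
  obtain ⟨B0, b1, b2, b3, b4, y, hinj0, hy, hyB⟩ : ∃ (B0 : Type) (_ : CommRing B0)
      (_ : Algebra k B0) (_ : Algebra B0 B) (_ : IsScalarTower k B0 B) (y : Fin n → B0),
      Function.Injective (algebraMap B0 B) ∧ Algebra.adjoin k (Set.range y) = ⊤ ∧
      ∀ l, algebraMap B0 B (y l) = mk (X (Sum.inl l)) := by
    refine ⟨Algebra.adjoin k (Set.range fun l => mk (X (Sum.inl l))), inferInstance, inferInstance,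
      inferInstance, inferInstance, fun l => ⟨_, Algebra.subset_adjoin ⟨l, rfl⟩⟩,
      Subtype.coe_injective, ?_, fun l => rfl⟩
    have h1 := Algebra.adjoin_adjoin_coe_preimage (R := k)
      (s := (Set.range fun l : Fin n => mk (X (Sum.inl l))))
    rw [← h1]
    congr 1
    ext z
    constructor
    · rintro ⟨l, rfl⟩
      exact ⟨l, rfl⟩
    · rintro ⟨l, hl⟩
      exact ⟨l, Subtype.ext hl⟩
  have hd0 : IsDomain B0 := hinj0.isDomain (algebraMap B0 B)
  have hmkf : ∀ H : MvPolynomial (Fin n ⊕ Fin m) k,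
      mk H = aeval (Sum.elim (fun l => algebraMap B0 B (y l)) x) H := by
    intro H
    have h1 : mk = aeval (Sum.elim (fun l => algebraMap B0 B (y l)) x) := by
      apply MvPolynomial.algHom_ext
      rintro (l | l)
      · rw [aeval_X, Sum.elim_inl, hyB]
      · rw [aeval_X, Sum.elim_inr, hx]
    rw [← h1]
  have hgen : Algebra.adjoin k (Set.range (fun l => algebraMap B0 B (y l)) ∪ Set.range x) = ⊤ := by
    rw [← Set.Sum.elim_range, Algebra.adjoin_range_eq_range_aeval, eq_top_iff]
    rintro z -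
    obtain ⟨H, rfl⟩ := hmks z
    exact ⟨H, (hmkf H).symm⟩
  have hyi : y i0 = 1 := by
    apply hinj0
    rw [hyB, map_one, ← sub_eq_zero, ← map_one mk, ← map_sub, hmk0]
    exact hc.one_i
  have hxj : x j0 = 1 := by
    rw [hx, ← sub_eq_zero, ← map_one mk, ← map_sub, hmk0]
    exact hc.one_j
  have hΦ : ∀ H ∈ Φ, aeval y H = 0 := by
    intro H hH
    apply hinj0
    rw [map_zero]
    have h1 := (hmk0 _).2 (hc.base H hH)
    rw [hmkf, aeval_rename] at h1
    have h2 : algebraMap B0 B (aeval y H) = aeval (fun l => algebraMap B0 B (y l)) H :=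
      (aeval_algebraMap_apply B y H).symm
    rw [h2]
    exact h1
  have hΨ : ∀ H ∈ Ψ, aeval (Sum.elim (fun l => algebraMap B0 B (y l)) x) H = 0 := by
    intro H hH
    rw [← hmkf, hmk0]
    exact hc.total H hH
  by_cases hyT : ∃ c ∈ T, y = fun l => algebraMap k B0 (c l)
  · -- an exceptional point
    obtain ⟨c, hcT, hyc⟩ := hyT
    have hinjk : Function.Injective (algebraMap k B0) := (algebraMap k B0).injective
    obtain ⟨A, hA⟩ := h.bdd c hcT (by
      apply hinjk
      rw [map_one, ← hyi, hyc]) (by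
      intro H hH
      apply hinjk
      have h1 := hΦ H hH
      rw [hyc] at h1
      rw [map_zero, ← h1]
      exact (aeval_algebraMap_apply B0 c H).symm)
    refine ⟨1, fun h1 => hJ.ne_top ((Ideal.eq_top_iff_one J).2 h1), A, fun E _ _ _ φ hφ _ => ?_⟩
    obtain ⟨φ', hφ'⟩ := lift E φ hφ
    have hyE : ∀ l, φ (X (Sum.inl l)) = algebraMap k E (c l) := by
      intro l
      rw [← hφ', ← hyB, hyc]
      change φ' (algebraMap B0 B (algebraMap k B0 (c l))) = _
      rw [← IsScalarTower.algebraMap_apply, AlgHom.commutes]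
    have h1 := hA E (fun l => φ (X (Sum.inr l))) (by
      rw [← hφ', ← hx, hxj, map_one]) (by
      intro H hH
      have h2 := hφ H (hc.total H hH)
      have h3 := comp_aeval_apply (f := X) φ H
      rw [aeval_X_left_apply] at h3
      rw [← h2, h3]
      congr 2
      funext l
      rcases l with l | l
      · exact (hyE l).symm
      · rfl)
    refine h1.trans (mul_le_mul_of_nonneg_left ?_ (Int.natCast_nonneg _))
    have h2 : 0 ≤ ∑ j, hgt k (φ (X (Sum.inl j))) := Finset.sum_nonneg fun _ _ => hgt_nonneg _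
    linarith
  push Not at hyT
  by_cases halg : ∀ i, IsAlgebraic B0 (x i)
  · -- the finite case
    have key : ∀ i, ∃ g : B, g ≠ 0 ∧ ∃ C : ℕ, ∀ (E : Type) [Field E] [Algebra k E] [IsFF k E]
        (φ : B →ₐ[k] E), φ g ≠ 0 → hgt k (φ (x i)) ≤
        C * ∑ j, hgt k (φ (algebraMap B0 B (y j))) := by
      intro i
      refine hgt_alg (k := k) (fun l => algebraMap B0 B (y l)) ?_
      obtain ⟨p, hp0, hp⟩ := halg i
      have hmem : ∀ b : B0, algebraMap B0 B b ∈ Algebra.adjoin k
          (Set.range fun l => algebraMap B0 B (y l)) := by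
        intro b
        have hb : b ∈ Algebra.adjoin k (Set.range y) := by
          rw [hy]
          exact Algebra.mem_top
        induction hb using Algebra.adjoin_induction with
        | mem z hz =>
          obtain ⟨l, rfl⟩ := hz
          exact Algebra.subset_adjoin ⟨l, rfl⟩
        | algebraMap c =>
          rw [← IsScalarTower.algebraMap_apply]
          exact Subalgebra.algebraMap_mem _ c
        | add a b _ _ ha hb =>
          rw [map_add]
          exact add_mem ha hb
        | mul a b _ _ ha hb =>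
          rw [map_mul]
          exact mul_mem ha hb
      let θ : B0 →+* Algebra.adjoin k (Set.range fun l => algebraMap B0 B (y l)) :=
        (algebraMap B0 B).codRestrict (Algebra.adjoin k
          (Set.range fun l => algebraMap B0 B (y l))).toSubring hmem
      have hθ : Function.Injective θ := fun a b hab =>
        hinj0 (congrArg (fun z : Algebra.adjoin k (Set.range fun l => algebraMap B0 B (y l)) =>
          (z : B)) hab)
      refine ⟨p.map θ, by rwa [Ne, Polynomial.map_eq_zero_iff hθ], ?_⟩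
      rw [Polynomial.aeval_def, Polynomial.eval₂_map]
      exact hp
    choose g hg0 C hC using key
    obtain ⟨G, hG⟩ := hmks (∏ i, g i)
    refine ⟨G, ?_, ∑ i, C i, fun E _ _ _ φ hφ hφG => ?_⟩
    · rw [← hmk0, hG]
      exact Finset.prod_ne_zero_iff.2 fun i _ => hg0 i
    · obtain ⟨φ', hφ'⟩ := lift E φ hφ
      rw [← hφ', hG, map_prod] at hφG
      have h1 : ∑ l, hgt k (φ (X (Sum.inr l))) ≤
          ∑ l, (C l : ℤ) * ∑ j, hgt k (φ' (algebraMap B0 B (y j))) := by
        refine Finset.sum_le_sum fun l _ => ?_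
        rw [← hφ', ← hx]
        exact hC l E φ' (Finset.prod_ne_zero_iff.1 hφG l (Finset.mem_univ l))
      refine h1.trans ?_
      rw [← Finset.sum_mul]
      have h2 : ∑ j, hgt k (φ' (algebraMap B0 B (y j))) = ∑ j, hgt k (φ (X (Sum.inl j))) :=
        Finset.sum_congr rfl fun j _ => by rw [hyB, hφ']
      rw [h2]
      push_cast
      refine mul_le_mul_of_nonneg_left ?_ (Finset.sum_nonneg fun _ _ => Int.natCast_nonneg _)
      have h3 : (0 : ℤ) ≤ max (canDeg k E) 0 := le_max_right _ _
      linarith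
  · -- curves
    push Not at halg
    obtain ⟨i, hi⟩ := halg
    obtain ⟨g, hg0, A, hA⟩ := prime_main hinj0 y hy x hgen h hyi hxj hΦ hΨ hyT hi
    obtain ⟨G, hG⟩ := hmks g
    refine ⟨G, ?_, A, fun E _ _ _ φ hφ hφG => ?_⟩
    · rw [← hmk0, hG]
      exact hg0
    · obtain ⟨φ', hφ'⟩ := lift E φ hφ
      rw [← hφ', hG] at hφG
      have h1 := hA E φ' hφG
      have h2 : ∑ j, hgt k (φ' (algebraMap B0 B (y j))) = ∑ j, hgt k (φ (X (Sum.inl j))) :=
        Finset.sum_congr rfl fun j _ => by rw [hyB, hφ']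
      have h3 : ∑ l, hgt k (φ' (x l)) = ∑ l, hgt k (φ (X (Sum.inr l))) :=
        Finset.sum_congr rfl fun j _ => by rw [hx, hφ']
      rw [h2, h3] at h1
      refine h1.trans (mul_le_mul_of_nonneg_left ?_ (Int.natCast_nonneg _))
      linarith

/-- **Families in a chart.** -/
theorem chart_case (h : ChartHyp k Φ Ψ i0 j0 T) (J : Ideal (MvPolynomial (Fin n ⊕ Fin m) k))
    (hc : Contains Φ Ψ i0 j0 J) :
    ∃ A : ℕ, ∀ (E : Type) [Field E] [Algebra k E]
      [IsFF k E] (φ : MvPolynomial (Fin n ⊕ Fin m) k →ₐ[k] E), (∀ H ∈ J, φ H = 0) →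
      ∑ l, hgt k (φ (X (Sum.inr l))) ≤ A * (max (canDeg k E) 0 + 1 +
        ∑ j, hgt k (φ (X (Sum.inl j)))) := by
  classical
  -- Noetherian induction
  induction J using IsNoetherian.induction with
  | hgt J ih =>
  have ih' : ∀ J' : Ideal (MvPolynomial (Fin n ⊕ Fin m) k), J < J' → ∃ A : ℕ,
      ∀ (E : Type) [Field E] [Algebra k E]
      [IsFF k E] (φ : MvPolynomial (Fin n ⊕ Fin m) k →ₐ[k] E), (∀ H ∈ J', φ H = 0) →
      ∑ l, hgt k (φ (X (Sum.inr l))) ≤ A * (max (canDeg k E) 0 + 1 +
        ∑ j, hgt k (φ (X (Sum.inl j)))) := fun J' hJ' => ih J' hJ'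
    ⟨fun H hH => hJ'.le (hc.base H hH), fun H hH => hJ'.le (hc.total H hH), hJ'.le hc.one_i,
      hJ'.le hc.one_j⟩
  have hnn : ∀ (E : Type) [Field E] [Algebra k E] [IsFF k E]
      (φ : MvPolynomial (Fin n ⊕ Fin m) k →ₐ[k] E), 0 ≤ max (canDeg k E) 0 + 1 +
        ∑ j, hgt k (φ (X (Sum.inl j))) := by
    intro E _ _ _ φ
    have h2 : 0 ≤ ∑ j, hgt k (φ (X (Sum.inl j))) := Finset.sum_nonneg fun _ _ => hgt_nonneg _
    have h3 : (0 : ℤ) ≤ max (canDeg k E) 0 := le_max_right _ _
    linarith
  by_cases hJt : J = ⊤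
  · refine ⟨0, fun E _ _ _ φ hφ => ?_⟩
    exfalso
    have h1 := hφ 1 (by rw [hJt]; exact Submodule.mem_top)
    rw [map_one] at h1
    exact one_ne_zero h1
  by_cases hJ : Ideal.IsPrime J
  · obtain ⟨g, hg, A, hA⟩ := prime_case h hJ hc
    obtain ⟨A', hA'⟩ := ih' (J ⊔ Ideal.span {g}) (by
      refine lt_of_le_of_ne le_sup_left fun h0 => hg ?_
      rw [h0]
      exact Ideal.mem_sup_right (Ideal.mem_span_singleton_self g))
    refine ⟨A + A', fun E _ _ _ φ hφ => ?_⟩
    have h0 := hnn E φ
    by_cases hφg : φ g = 0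
    · have h1 := hA' E φ (by
        intro H hH
        obtain ⟨a, ha, b, hb, rfl⟩ := Submodule.mem_sup.1 hH
        obtain ⟨c, rfl⟩ := Ideal.mem_span_singleton.1 hb
        rw [map_add, hφ a ha, map_mul, hφg, zero_mul, add_zero])
      refine h1.trans (mul_le_mul_of_nonneg_right ?_ h0)
      push_cast
      linarith [Int.natCast_nonneg A]
    · refine (hA E φ hφ hφg).trans (mul_le_mul_of_nonneg_right ?_ h0)
      push_cast
      linarith [Int.natCast_nonneg A']
  · obtain ⟨a, b, hab, ha, hb⟩ : ∃ a b, a * b ∈ J ∧ a ∉ J ∧ b ∉ J := by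
      by_contra hcon
      push Not at hcon
      apply hJ
      refine ⟨hJt, fun {a b} hab => ?_⟩
      by_cases ha : a ∈ J
      · exact Or.inl ha
      · exact Or.inr (hcon a b hab ha)
    have hlt : ∀ g, g ∉ J → J < J ⊔ Ideal.span {g} := fun g hg => by
      refine lt_of_le_of_ne le_sup_left fun h0 => hg ?_
      rw [h0]
      exact Ideal.mem_sup_right (Ideal.mem_span_singleton_self g)
    obtain ⟨A, hA⟩ := ih' (J ⊔ Ideal.span {a}) (hlt a ha)
    obtain ⟨A', hA'⟩ := ih' (J ⊔ Ideal.span {b}) (hlt b hb)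
    refine ⟨A + A', fun E _ _ _ φ hφ => ?_⟩
    have h0 := hnn E φ
    have h1 := hφ _ hab
    rw [map_mul, mul_eq_zero] at h1
    have h2 : ∀ g, φ g = 0 → ∀ H ∈ J ⊔ Ideal.span {g}, φ H = 0 := by
      intro g hg H hH
      obtain ⟨a, ha, b, hb, rfl⟩ := Submodule.mem_sup.1 hH
      obtain ⟨c, rfl⟩ := Ideal.mem_span_singleton.1 hb
      rw [map_add, hφ a ha, map_mul, hg, zero_mul, add_zero]
    rcases h1 with h1 | h1
    · refine (hA E φ (h2 a h1)).trans (mul_le_mul_of_nonneg_right ?_ h0)
      push_cast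
      linarith [Int.natCast_nonneg A']
    · refine (hA' E φ (h2 b h1)).trans (mul_le_mul_of_nonneg_right ?_ h0)
      push_cast
      linarith [Int.natCast_nonneg A]

end prime

end Pool.Agent.H916
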