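import Pool.Graph.R_seed8.W603.LV.Loc
import Pool.Graph.R_seed8.Helper386.D5V.Helper386_FF_Riemann

/-! Codimensions of the spaces given by vanishing conditions at places. -/

set_option autoImplicit false

open FF Pool.Agent.W603.LV Module

namespace Pool.Agent.H916

variable {S N : Type*} [Field S] [Field N] [Algebra S N]
variable {W : Type*} [AddCommGroup W] [Module S W]

/-- the vectors in `V` whose image vanishes to order `n` at `P` -/
def cut (P : Place S N) (b : W →ₗ[S] N) (V : Submodule S W) (n : ℤ) : Submodule S W where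
  carrier := {w | w ∈ V ∧ Ge P n (b w)}
  zero_mem' := ⟨V.zero_mem, by rw [map_zero]; exact Ge.zero⟩
  add_mem' := by
    rintro x y ⟨hx, hx'⟩ ⟨hy, hy'⟩
    exact ⟨V.add_mem hx hy, by rw [map_add]; exact hx'.add hy'⟩
  smul_mem' := by
    rintro c x ⟨hx, hx'⟩
    refine ⟨V.smul_mem c hx, ?_⟩
    rw [map_smul, Algebra.smul_def]
    have := (Ge.const (P := P) c).mul hx'
    rwa [zero_add] at this

theorem mem_cut {P : Place S N} {b : W →ₗ[S] N} {V : Submodule S W} {n : ℤ} {w : W} :
    w ∈ cut P b V n ↔ w ∈ V ∧ Ge P n (b w) := Iff.rfl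

theorem cut_le (P : Place S N) (b : W →ₗ[S] N) (V : Submodule S W) (n : ℤ) : cut P b V n ≤ V :=
  fun _ h => h.1

variable [CharZero S] [IsFF S N] [IsAlgClosed S] [FiniteDimensional S W]

theorem codim_step (P : Place S N) (b : W →ₗ[S] N) (V : Submodule S W) (n : ℤ)
    (h : ∀ w ∈ V, Ge P n (b w)) : finrank S V ≤ finrank S (cut P b V (n + 1)) + 1 := by
  obtain ⟨t, ht0, ht⟩ := P.surj
  have hreg : ∀ w : V, P.Reg (b w.1 * t ^ (-n)) := by
    rintro ⟨w, hw⟩
    by_cases hf0 : b w = 0
    · left; simp [hf0]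
    · right
      have h1 := (h w hw).resolve_left hf0
      rw [P.ord_mul hf0 (zpow_ne_zero _ ht0), P.ord_zpow, ht]
      omega
  let φ : V →ₗ[S] P.RF :=
    { toFun := fun w => P.red (b w.1 * t ^ (-n))
      map_add' := by
        intro f g
        rw [← P.red_add (hreg f) (hreg g), ← add_mul, ← map_add]; rfl
      map_smul' := by
        intro c f
        rw [RingHom.id_apply, Algebra.smul_def c (P.red _), Place.algebraMap_RF,
          ← P.red_mul (P.reg_const c) (hreg f), ← mul_assoc, ← Algebra.smul_def, ← map_smul]; rfl }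
  have hker : LinearMap.ker φ = (cut P b V (n + 1)).comap V.subtype := by
    ext f
    rw [LinearMap.mem_ker, Submodule.mem_comap]
    change P.red (b f.1 * t ^ (-n)) = 0 ↔ f.1 ∈ V ∧ Ge P (n + 1) (b f.1)
    rw [P.red_eq_zero_iff (hreg f)]
    by_cases hf0 : b f.1 = 0
    · simp [hf0, Ge]
    · rw [P.ord_mul hf0 (zpow_ne_zero _ ht0), P.ord_zpow, ht]
      have h1 : b f.1 * t ^ (-n) ≠ 0 := mul_ne_zero hf0 (zpow_ne_zero _ ht0)
      simp only [h1, false_or, Ge, hf0]
      constructor
      · intro h2
        exact ⟨f.2, by omega⟩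
      · rintro ⟨-, h2⟩
        omega
  let e : LinearMap.ker φ ≃ₗ[S] cut P b V (n + 1) :=
    (LinearEquiv.ofEq _ _ hker).trans (Submodule.comapSubtypeEquivOfLe (cut_le P b V _))
  have h4 := LinearMap.finrank_range_add_finrank_ker φ
  rw [e.finrank_eq] at h4
  have h5 : finrank S (LinearMap.range φ) ≤ P.deg := Submodule.finrank_le _
  rw [deg_one] at h5
  omega

theorem codim (P : Place S N) (b : W →ₗ[S] N) (V : Submodule S W) (n : ℤ) (c : ℕ)
    (h : ∀ w ∈ V, Ge P (n - c) (b w)) : finrank S V ≤ finrank S (cut P b V n) + c := by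
  induction c generalizing n with
  | zero =>
    have h1 : V ≤ cut P b V n := fun w hw => ⟨hw, by simpa using h w hw⟩
    have := Submodule.finrank_mono h1
    omega
  | succ c ih =>
    have h1 := ih (n - 1) (fun w hw => by
      have := h w hw
      push_cast at this
      rwa [sub_sub, add_comm (1 : ℤ)])
    have h2 := codim_step P b (cut P b V (n - 1)) (n - 1) (fun w hw => hw.2)
    have h3 : cut P b (cut P b V (n - 1)) (n - 1 + 1) ≤ cut P b V n := by
      intro w hw
      exact ⟨hw.1.1, by have := hw.2; rwa [sub_add_cancel] at this⟩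
    have := Submodule.finrank_mono h3
    omega

end Pool.Agent.H916
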