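import Pool.Agent.H916.GtFib
import Pool.Agent.H916.Endo
import Pool.Graph.R_pool_sql_team_seeded_c8625f6e.K4H62.EL.Inf

/-! Varieties which are fibred by curves of genus at most one are not hyperbolic. -/

set_option autoImplicit false
set_option linter.overlappingInstances false
set_option linter.unusedSectionVars false

open FF Pool.Agent.W603.LV Pool.Agent.W603.PV Pool.Agent.K4H62.EL
open Pool.Agent.W602.GT (GeneralType coords val IsForm VarPts Ruled)

namespace Pool.Agent.H916

/-- A variety which is dominated by a family of curves of genus at most one. -/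
theorem not_of_low {k K : Type} [Field k] [IsAlgClosed k] [CharZero k] [Field K] [Algebra k K]
    {M : ℕ} {x : Fin (M + 1) → K} (hx : x ≠ 0) (hgen : coords k x = ⊤)
    {Ω F : Type} [Field Ω] [Field F] [Algebra Ω F] [Algebra K F] [Algebra k Ω] [Algebra k F]
    [IsScalarTower k Ω F] [IsScalarTower k K F] [Algebra.IsAlgebraic K F] [CharZero Ω]
    [IsAlgClosed Ω] [IsFF Ω F] (hF : ∃ z : K, ∀ c : Ω, algebraMap Ω F c ≠ algebraMap K F z)
    (hc : canDeg Ω F ≤ 0) : ¬ GeomHyp1 k x ∧ ¬ Bounded1 k x := by
  classical
  by_cases hrat : ∃ s : F, IntermediateField.adjoin Ω {s} = ⊤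
  · -- rational curves
    obtain ⟨s, hs⟩ := hrat
    have hst : Transcendental Ω s := by
      intro hc
      have h1 := IsAlgClosed.degree_eq_one_of_irreducible Ω (minpoly.irreducible hc.isIntegral)
      obtain ⟨c, hc⟩ := minpoly.mem_range_of_degree_eq_one Ω s h1
      obtain ⟨t, ht⟩ := IsFF.exists_transcendental (k := Ω) (K := F)
      have h2 : t ∈ IntermediateField.adjoin Ω {s} := by
        rw [hs]
        exact IntermediateField.mem_top
      rw [← hc] at h2
      have h3 : IntermediateField.adjoin Ω {algebraMap Ω F c} = ⊥ := by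
        rw [IntermediateField.adjoin_simple_eq_bot_iff]
        exact IntermediateField.algebraMap_mem _ c
      rw [h3] at h2
      obtain ⟨d, hd⟩ := IntermediateField.mem_bot.1 h2
      apply ht
      rw [← hd]
      exact isAlgebraic_algebraMap d
    let C : IntermediateField k F := (⊥ : IntermediateField Ω F).restrictScalars k
    have hCmem : ∀ z : F, z ∈ C ↔ ∃ c : Ω, algebraMap Ω F c = z := fun z =>
      IntermediateField.mem_bot
    have hR : Ruled k F := by
      refine ⟨C, s, ?_, ?_⟩
      · rintro ⟨p, hp0, hp⟩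
        apply hst
        choose c hc using fun z : C => (hCmem z).1 z.2
        have hinj : Function.Injective (algebraMap Ω F) := (algebraMap Ω F).injective
        let g : C →+* Ω :=
          { toFun := c
            map_one' := hinj (by rw [hc, map_one]; rfl)
            map_mul' := fun a b => hinj (by rw [hc, map_mul, hc, hc]; rfl)
            map_zero' := hinj (by rw [hc, map_zero]; rfl)
            map_add' := fun a b => hinj (by rw [hc, map_add, hc, hc]; rfl) }
        refine ⟨p.map g, (Polynomial.map_ne_zero_iff g.injective).2 hp0, ?_⟩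
        rw [Polynomial.aeval_def, Polynomial.eval₂_map]
        have h1 : (algebraMap Ω F).comp g = algebraMap C F := RingHom.ext fun z => hc z
        rw [h1]
        exact hp
      · rw [eq_top_iff]
        rintro z -
        have hz : z ∈ IntermediateField.adjoin Ω {s} := by
          rw [hs]
          exact IntermediateField.mem_top
        induction hz using IntermediateField.adjoin_induction with
        | mem v hv => exact IntermediateField.subset_adjoin _ _ hv
        | algebraMap c =>
          exact IntermediateField.algebraMap_mem _ (⟨algebraMap Ω F c, (hCmem _).2 ⟨c, rfl⟩⟩ : C)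
        | add a b _ _ ha hb => exact add_mem ha hb
        | inv a _ ha => exact inv_mem ha
        | mul a b _ _ ha hb => exact mul_mem ha hb
    have key : ∀ R : MvPolynomial (Fin (M + 1)) k, IsForm R → val x R ≠ 0 →
        ∃ (p : Fin (M + 1) → k) (P : Fin (M + 1) → Polynomial k),
          Pool.Agent.R882.HY.RatThrough x p P ∧ val p R ≠ 0 := fun R hR' hRx =>
      Pool.Agent.R882.HY.rat_of_ruled (K := F) hR hx hgen hR' hRx
    exact ⟨not_geom_rat key, not_bdd_rat key⟩
  · -- curves of genus one
    obtain ⟨i, j, hj, hij⟩ : ∃ i j, x j ≠ 0 ∧ ∀ c : Ω, algebraMap Ω F c ≠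
        algebraMap K F (x i / x j) := by
      by_contra hcon
      push Not at hcon
      obtain ⟨z, hz⟩ := hF
      have h1 : coords k x ≤ ((⊥ : IntermediateField Ω F).restrictScalars k).comap
          (IsScalarTower.toAlgHom k K F) := by
        unfold Pool.Agent.W602.GT.coords
        rw [IntermediateField.adjoin_le_iff]
        rintro w ⟨i, j, hj, rfl⟩
        obtain ⟨c, hc⟩ := hcon i j hj
        exact IntermediateField.mem_bot.2 ⟨c, hc⟩
      rw [hgen] at h1
      have h2 : z ∈ ((⊥ : IntermediateField Ω F).restrictScalars k).comap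
        (IsScalarTower.toAlgHom k K F) := h1 trivial
      obtain ⟨c, hc⟩ := IntermediateField.mem_bot.1 h2
      exact hz c hc
    obtain ⟨D, hD⟩ := exists_der (k := Ω) (K := F)
    have key : ∀ R : MvPolynomial (Fin (M + 1)) k, IsForm R → val x R ≠ 0 →
      ∃ (p : Fin (M + 1) → k) (G : Type) (_ : Field G) (_ : Algebra k G) (_ : IsFF k G)
        (O : Place k G) (σ : G →ₐ[k] G) (d : ℕ) (f : Fin (M + 1) → G),
        EllMap x p G O σ d f i j ∧ val p R ≠ 0 := fun R hR hRx =>
      exists_ell (C := Ω) (F := F) hD (hno_of_canDeg hD hc) hrat hj hij hR hRx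
    exact ⟨not_geom_ell key, not_bdd_ell key⟩

/-- **Hyperbolic varieties have hyperbolic fibres.** -/
theorem hypFibres_of_low {k K : Type} [Field k] [IsAlgClosed k] [CharZero k] [Field K]
    [Algebra k K] (hess : Algebra.EssFiniteType k K) {M : ℕ} {x : Fin (M + 1) → K} (hx : x ≠ 0)
    (hgen : coords k x = ⊤) {C : IntermediateField k K} {w : ℕ} (hw : Algebra.trdeg k K = w)
    (htr : Algebra.trdeg k K ≤ Algebra.trdeg k C + 1) (h : GeomHyp1 k x ∨ Bounded1 k x) :
    HypFibres C := by
  have hadd := trdeg_add_eq k C (A := K)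
  have hle : Algebra.trdeg k C ≤ w := by
    rw [← hw, ← hadd]
    exact self_le_add_right _ _
  obtain ⟨b, hb⟩ := Cardinal.lt_aleph0.1 (lt_of_le_of_lt hle (Cardinal.natCast_lt_aleph0 (n := w)))
  have hle2 : Algebra.trdeg C K ≤ w := by
    rw [← hw, ← hadd]
    exact self_le_add_left _ _
  obtain ⟨r, hr⟩ := Cardinal.lt_aleph0.1
    (lt_of_le_of_lt hle2 (Cardinal.natCast_lt_aleph0 (n := w)))
  rw [hb, hw] at htr
  rw [hb, hr, hw] at hadd
  have h1 : w ≤ b + 1 := by exact_mod_cast htr
  have h2 : b + r = w := by exact_mod_cast hadd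
  rcases Nat.eq_zero_or_pos r with hr0 | hr0
  · left
    rw [hr0, Nat.cast_zero, trdeg_eq_zero_iff] at hr
    exact hr
  · right
    have h3 : w = b + 1 := by omega
    subst h3
    obtain ⟨Ω, F, i1, i2, i3, i4, i5, i6, i7, t1, t2, halg, hcomm, hF, hff, -⟩ :=
      gen_fib hess hb hw
    refine ⟨Ω, F, i1, i2, i3, i4, i5, hcomm, hF, hff, ?_⟩
    by_contra hcon
    push Not at hcon
    have hcl := hF.closed
    have hΩ0 : CharZero Ω := charZero_of_injective_algebraMap (algebraMap k Ω).injective
    have hz : ∃ z : K, ∀ c : Ω, algebraMap Ω F c ≠ algebraMap K F z := by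
      by_contra hno
      push Not at hno
      obtain ⟨t, ht⟩ := IsFF.exists_transcendental (k := Ω) (K := F)
      apply ht
      have h4 : t ∈ IntermediateField.adjoin Ω (Set.range (algebraMap K F)) := by
        rw [hF.gen]
        exact IntermediateField.mem_top
      have h5 : IntermediateField.adjoin Ω (Set.range (algebraMap K F)) ≤ ⊥ := by
        rw [IntermediateField.adjoin_le_iff]
        rintro _ ⟨z, rfl⟩
        obtain ⟨c, hc⟩ := hno z
        exact IntermediateField.mem_bot.2 ⟨c, hc⟩
      obtain ⟨c, hc⟩ := IntermediateField.mem_bot.1 (h5 h4)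
      rw [← hc]
      exact isAlgebraic_algebraMap c
    obtain ⟨h4, h5⟩ := not_of_low hx hgen hz hcon
    rcases h with h | h
    · exact h4 h
    · exact h5 h

end Pool.Agent.H916
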