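import Pool.Agent.H916.Jet2
import Pool.Graph.R_pool_sql_team_seeded_c8625f6e.K4H62.HF.Ram

/-! The core of the proof: a differential field with two rings whose intersection is the field of
constants (in the sense of small height) does not contain points of curves of genus at least two. -/

set_option autoImplicit false
set_option linter.overlappingInstances false

open FF Pool.Agent.W603.LV Module IntermediateField
open Pool.Agent.W603.PV (disc ram ram_spec isFF_of_finite)

namespace Pool.Agent.H916

section ext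

variable {k E K : Type} [Field k] [IsAlgClosed k] [CharZero k] [Field E] [Algebra k E] [IsFF k E]
  [Field K] [Algebra k K] [Algebra E K] [IsScalarTower k E K] [IsFF k K] [FiniteDimensional E K]

theorem canDeg_pos_ext (h : 0 < canDeg k E) : 0 < canDeg k K := by
  have h1 := Pool.Agent.K4H62.HF.canDeg_ext (k := k) (E := E) (K := K)
  have h2 : 0 ≤ disc k E K := by
    unfold disc
    refine finsum_nonneg fun P => ?_
    have h3 : (1 : ℤ) ≤ ram E P := by
      have := (ram_spec (F := E) P).1
      exact_mod_cast this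
    linarith
  have h3 : (0 : ℤ) < finrank E K := by exact_mod_cast finrank_pos (R := E) (M := K)
  have h4 := mul_pos h3 h
  linarith

end ext

section transfer

variable {S F K : Type*} [Field S] [Field F] [Field K] [Algebra S F] [Algebra F K] [Algebra S K]
  [IsScalarTower S F K]

theorem int_transfer {t : F} {a : F} (h : IsIntegral (Algebra.adjoin S {t}) a) :
    IsIntegral (Algebra.adjoin S {algebraMap F K t}) (algebraMap F K a) := by
  obtain ⟨p, hp, he⟩ := h
  have hmem : ∀ x : Algebra.adjoin S {t}, algebraMap F K (x : F) ∈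
      Algebra.adjoin S {algebraMap F K t} := by
    rintro ⟨x, hx⟩
    change algebraMap F K x ∈ _
    induction hx using Algebra.adjoin_induction with
    | mem y hy =>
      rw [Set.mem_singleton_iff] at hy
      subst hy
      exact Algebra.self_mem_adjoin_singleton S _
    | algebraMap r =>
      rw [← IsScalarTower.algebraMap_apply]
      exact Subalgebra.algebraMap_mem _ r
    | add x y _ _ hx hy =>
      rw [map_add]
      exact Subalgebra.add_mem _ hx hy
    | mul x y _ _ hx hy =>
      rw [map_mul]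
      exact Subalgebra.mul_mem _ hx hy
  let i : Algebra.adjoin S {t} →+* Algebra.adjoin S {algebraMap F K t} :=
    ((algebraMap F K).comp (algebraMap (Algebra.adjoin S {t}) F)).codRestrict
      (Algebra.adjoin S {algebraMap F K t}) hmem
  refine ⟨p.map i, hp.map i, ?_⟩
  rw [Polynomial.eval₂_map]
  have e : (algebraMap (Algebra.adjoin S {algebraMap F K t}) K).comp i =
      (algebraMap F K).comp (algebraMap (Algebra.adjoin S {t}) F) := by
    ext x
    rfl
  rw [e, ← Polynomial.hom_eval₂, he, map_zero]

end transfer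

section pole

variable {S N : Type*} [Field S] [Field N] [Algebra S N] [CharZero S] [IsFF S N] [IsAlgClosed S]

theorem exists_pole (P : Place S N) : ∃ f : N, (∀ Q, Q ≠ P → Ge Q 0 f) ∧
    ∀ c : S, f ≠ algebraMap S N c := by
  obtain ⟨γ, N0, hγ, -⟩ := riemann S N
  by_contra hc
  push Not at hc
  obtain ⟨n, hn⟩ : ∃ n : ℕ, n = γ.toNat + 2 := ⟨_, rfl⟩
  have h1 := hγ (Finsupp.single P (n : ℤ))
  rw [ddeg_single, deg_one] at h1
  have h2 : LL (Finsupp.single P (n : ℤ)) ≤ Submodule.span S {(1 : N)} := by
    intro f hf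
    obtain ⟨c, hc⟩ := hc f (fun Q hQ => by
      rcases mem_LL.1 hf with h | h
      · exact Or.inl h
      · right
        have := h Q
        rwa [Finsupp.single_eq_of_ne hQ, neg_zero] at this)
    rw [Submodule.mem_span_singleton]
    exact ⟨c, by rw [hc, Algebra.smul_def, mul_one]⟩
  have h3 := Submodule.finrank_mono h2
  have h4 : finrank S (Submodule.span S {(1 : N)}) = 1 := finrank_span_singleton one_ne_zero
  unfold ell at h1
  rw [h4] at h3
  push_cast at h1
  omega

end pole

variable {S K : Type} [Field S] [Field K] [Algebra S K] [CharZero S] [IsAlgClosed S]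

/-- the axioms -/
structure Sys {S K : Type} [Field S] [Field K] [Algebra S K] (D : Derivation ℤ K K)
    (K1 : IntermediateField S K) (z : K) (B0 B1 : Subring K) : Prop where
  stab : ∀ s : S, ∃ s' : S, D (algebraMap S K s) = algebraMap S K s'
  cst : ∀ x : K, D x = 0 → ∃ s : S, x = algebraMap S K s
  tr : Transcendental S z
  der : ∀ x ∈ K1, D x ∈ K1
  int0 : ∀ a ∈ K1, IsIntegral (Algebra.adjoin S {z}) a → a ∈ B0 ∧ D a ∈ B0
  int1 : ∀ a ∈ K1, IsIntegral (Algebra.adjoin S {z⁻¹}) a → a ∈ B1 ∧ D a ∈ B1
  inter : ∀ x ∈ B0, x ∈ B1 → ∃ s : S, x = algebraMap S K s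

variable {D : Derivation ℤ K K} {K1 : IntermediateField S K} {z : K} {B0 B1 : Subring K}

omit [IsAlgClosed S] in
theorem Sys.glob (h : Sys D K1 z B0 B1) (F : IntermediateField S K) (hF : F ≤ K1) [IsFF S F]
    (hz : z ∈ F) (φ : K) (hφ : ∀ P : Place S F, φ ∈ tau D P) : ∃ s : S, φ = algebraMap S K s := by
  obtain ⟨t, ht0⟩ : ∃ t : F, algebraMap F K t = z := ⟨⟨z, hz⟩, rfl⟩
  have ht : Transcendental S t := by
    intro hc
    apply h.tr
    rw [← ht0]
    exact hc.algebraMap
  have ht' : Transcendental S t⁻¹ := fun hc => ht (by simpa using hc.inv)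
  refine h.inter φ ?_ ?_
  · refine H916.glob D t ht B0 (fun a ha => ?_) φ fun P _ => hφ P
    have h1 := int_transfer (K := K) ha
    rw [ht0] at h1
    exact h.int0 _ (hF a.2) h1
  · refine H916.glob D t⁻¹ ht' B1 (fun a ha => ?_) φ fun P _ => hφ P
    have h1 := int_transfer (K := K) ha
    rw [map_inv₀, ht0] at h1
    exact h.int1 _ (hF a.2) h1

/-- a derivation of a field which preserves a subfield -/
def resD (D : Derivation ℤ K K) (N : IntermediateField S K) (hN : ∀ x ∈ N, D x ∈ N) :
    Derivation ℤ N N :=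
  Derivation.mk'
    (AddMonoidHom.toIntLinearMap
      { toFun := fun a => ⟨D a, hN a a.2⟩
        map_zero' := by
          apply Subtype.ext
          change D ((0 : N) : K) = 0
          have : ((0 : N) : K) = 0 := rfl
          rw [this, map_zero]
        map_add' := by
          intro a b
          apply Subtype.ext
          change D ((a + b : N) : K) = D a + D b
          have : ((a + b : N) : K) = a + b := rfl
          rw [this, map_add] })
    (by
      intro a b
      apply Subtype.ext
      change D ((a * b : N) : K) = (a : K) * D b + (b : K) * D a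
      have : ((a * b : N) : K) = a * b := rfl
      rw [this, D.leibniz, smul_eq_mul, smul_eq_mul])

omit [CharZero S] [IsAlgClosed S] in
theorem resD_apply (D : Derivation ℤ K K) (N : IntermediateField S K) (hN : ∀ x ∈ N, D x ∈ N)
    (a : N) : ((resD D N hN a : N) : K) = D a := rfl

/-- the case of a field which is preserved by the derivation -/
theorem Sys.stable (h : Sys D K1 z B0 B1) (N : IntermediateField S K) (hN1 : N ≤ K1) [IsFF S N]
    (hz : z ∈ N) (hN : ∀ x ∈ N, D x ∈ N) : canDeg S N ≤ 0 := by
  by_contra hκ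
  push Not at hκ
  have hreg : ∀ (P : Place S N) (f : N), Ge P 0 f → Ge P 0 (resD D N hN f) := by
    intro P f hf
    by_contra hc
    obtain ⟨φ, hφ, hφc⟩ := exists_pole P
    set g := resD D N hN f with hg
    have hg0 : g ≠ 0 := fun e => hc (Or.inl e)
    have hgo : P.ord g < 0 := not_le.1 fun e => hc (Or.inr e)
    have hgt : (g : K) ∈ tau D P := tau_der D P hf
    -- all elements of `N`
    have hall : ∀ x : N, (x : K) ∈ tau D P := by
      intro x
      obtain ⟨n, hn⟩ : ∃ n : ℕ, n = (-P.ord x).toNat := ⟨_, rfl⟩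
      have h1 : Ge P 0 (x / g ^ n) := by
        by_cases hx : x = 0
        · left
          rw [hx, zero_div]
        · right
          rw [P.ord_div hx (pow_ne_zero _ hg0), P.ord_pow]
          have h2 : (n : ℤ) * P.ord g ≤ n * (-1) :=
            mul_le_mul_of_nonneg_left (by omega) (Int.natCast_nonneg _)
          omega
      have h2 : ((x / g ^ n : N) : K) ∈ tau D P := tau_coe D P h1
      have h3 := Subring.mul_mem _ h2 (Subring.pow_mem _ hgt n)
      have h4 : ((x / g ^ n : N) : K) * (g : K) ^ n = ((x / g ^ n * g ^ n : N) : K) := rfl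
      rw [h4, div_mul_cancel₀ _ (pow_ne_zero _ hg0)] at h3
      exact h3
    obtain ⟨s, hs⟩ := h.glob N hN1 hz (φ : K) fun Q => by
      by_cases hQ : Q = P
      · rw [hQ]
        exact hall φ
      · exact tau_coe D Q (hφ Q hQ)
    exact hφc s (Subtype.ext hs)
  refine no_reg (S := S) (resD D N hN) hreg ?_ ?_ hκ
  · intro s
    obtain ⟨s', hs'⟩ := h.stab s
    exact ⟨s', Subtype.ext hs'⟩
  · intro f hf
    obtain ⟨s, hs⟩ := h.cst (f : K) (congrArg (Subtype.val : N → K) hf)
    exact ⟨s, Subtype.ext hs⟩

omit [IsAlgClosed S] [CharZero S] in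
theorem isFF_res (F : IntermediateField S K) (w : K) (h : IsFF S F⟮w⟯) :
    IsFF S (F⟮w⟯.restrictScalars S) := h

theorem exists_ext (F : IntermediateField S K) [IsFF S F] (w : K) (halg : IsAlgebraic F w) :
    ∃ N : IntermediateField S K, F ≤ N ∧ w ∈ N ∧ IsFF S N ∧ (∀ x ∈ N, IsAlgebraic F x) ∧
      (0 < canDeg S F → 0 < canDeg S N) ∧ ∀ K1 : IntermediateField S K, F ≤ K1 → w ∈ K1 →
      N ≤ K1 := by
  have hfin : FiniteDimensional F F⟮w⟯ :=
    IntermediateField.adjoin.finiteDimensional halg.isIntegral
  have hff : IsFF S F⟮w⟯ := isFF_of_finite (F := F)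
  refine ⟨F⟮w⟯.restrictScalars S, fun x hx =>
    IntermediateField.algebraMap_mem F⟮w⟯ (⟨x, hx⟩ : F),
    IntermediateField.mem_adjoin_simple_self F w, isFF_res F w hff, fun x hx => ?_, fun h => ?_,
    fun K1 hF hw => ?_⟩
  · have h1 : IsAlgebraic F (⟨x, hx⟩ : F⟮w⟯) := Algebra.IsAlgebraic.isAlgebraic _
    exact h1.algebraMap
  · have h1 : 0 < canDeg S F⟮w⟯ := canDeg_pos_ext (E := F) h
    exact h1
  · intro x hx
    have hx' : x ∈ F⟮w⟯ := hx
    refine IntermediateField.adjoin_induction (p := fun x _ => x ∈ K1) F ?_ ?_ ?_ ?_ ?_ hx'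
    · intro y hy
      rw [Set.mem_singleton_iff] at hy
      rw [hy]
      exact hw
    · intro y
      exact hF y.2
    · intro y y' _ _ hy hy'
      exact K1.add_mem hy hy'
    · intro y _ hy
      exact K1.inv_mem hy
    · intro y y' _ _ hy hy'
      exact K1.mul_mem hy hy'

theorem Sys.main (h : Sys D K1 z B0 B1) (F : IntermediateField S K) (hF : F ≤ K1) [IsFF S F]
    (hz : z ∈ F) : canDeg S F ≤ 0 := by
  by_contra hκ
  push Not at hκ
  have hcK : CharZero K := charZero_of_injective_algebraMap (algebraMap S K).injective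
  obtain ⟨t, ht0⟩ : ∃ t : F, algebraMap F K t = z := ⟨⟨z, hz⟩, rfl⟩
  have ht : Transcendental S t := by
    intro hc
    apply h.tr
    rw [← ht0]
    exact hc.algebraMap
  obtain ⟨w, hw⟩ : ∃ w, w = D z := ⟨_, rfl⟩
  have halg : IsAlgebraic F w := by
    have := jet_algebraic (S := S) (F := F) D h.stab (fun φ hφ => h.glob F hF hz φ hφ) hκ ht
    rwa [ht0, ← hw] at this
  obtain ⟨N, hFN, hwN, hff, hNalg, hpos, hN1⟩ := exists_ext F w halg
  have hNK : N ≤ K1 := hN1 K1 hF (by
    rw [hw]
    exact h.der z (hF hz))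
  -- `N` is preserved by the derivation
  have hDF : ∀ x ∈ F, D x ∈ N := by
    obtain ⟨d, hd⟩ := exists_der (k := S) (K := F)
    have hδz : dd d t t = 1 := by
      rw [dd_apply, inv_mul_cancel₀ (der_ne_zero hd ht)]
    intro x hx
    obtain ⟨α, hα⟩ := decomp (S := S) (F := F) D h.stab hδz ht ⟨x, hx⟩
    rw [ht0, ← hw] at hα
    have h1 : D x = (α : K) + ((dd d t (⟨x, hx⟩ : F) : F) : K) * w := hα
    rw [h1]
    exact N.add_mem (hFN α.2) (N.mul_mem (hFN (dd d t (⟨x, hx⟩ : F)).2) hwN)
  have hDN : ∀ x ∈ N, D x ∈ N := by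
    intro x hx
    let F0 : Subfield N := (inclusion hFN).toRingHom.fieldRange
    have hcN : CharZero N := charZero_of_injective_algebraMap (algebraMap S N).injective
    have h0 : ∀ y ∈ F0, EDer (F := N) D (0 : Derivation S N N) 0 y ∈
        Set.range (algebraMap N K) := by
      rintro _ ⟨y, rfl⟩
      refine ⟨⟨D (y : K), hDF _ y.2⟩, ?_⟩
      rw [EDer_apply, mul_zero, sub_zero]
      rfl
    have halg' : IsAlgebraic F0 (⟨x, hx⟩ : N) := by
      obtain ⟨p, hp, he⟩ := hNalg x hx
      refine ⟨p.map (inclusion hFN).toRingHom.rangeRestrictField, ?_, ?_⟩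
      · rw [Ne, Polynomial.map_eq_zero]
        exact hp
      · rw [Polynomial.aeval_def, Polynomial.eval₂_map]
        apply (algebraMap N K).injective
        rw [Polynomial.hom_eval₂, map_zero]
        exact he
    obtain ⟨y, hy⟩ := der_range _ F0 h0 ⟨x, hx⟩ halg'
    rw [EDer_apply, mul_zero, sub_zero] at hy
    have h1 : D x = (y : K) := hy.symm
    rw [h1]
    exact y.2
  exact absurd (hpos hκ) (not_lt.2 (h.stable N hNK (hFN hz) hDN))

end Pool.Agent.H916
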