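import Pool.Agent.H916.Pgh

/-! Varieties of general type which are fibred by curves. -/

set_option autoImplicit false
set_option linter.overlappingInstances false
set_option linter.unusedSectionVars false

open FF Pool.Agent.W603.LV Pool.Agent.W603.PV
open Pool.Agent.W602.GT (GeneralType coords)

namespace Pool.Agent.H916

theorem gen_fib {k B K : Type} [Field k] [CharZero k] [Field B] [Field K] [Algebra k B]
    [Algebra k K] [Algebra B K] [IsScalarTower k B K] (hess : Algebra.EssFiniteType k K) {b : ℕ}
    (hB : Algebra.trdeg k B = b) (hK : Algebra.trdeg k K = (b + 1 : ℕ)) :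
    ∃ (Ω F : Type) (_ : Field Ω) (_ : Field F) (_ : Algebra B Ω) (_ : Algebra Ω F)
      (_ : Algebra K F) (_ : Algebra k Ω) (_ : Algebra k F) (_ : IsScalarTower k Ω F)
      (_ : IsScalarTower k K F) (_ : Algebra.IsAlgebraic K F),
        (∀ c : B, algebraMap K F (algebraMap B K c) =
        algebraMap Ω F (algebraMap B Ω c)) ∧ FibreField B K Ω F ∧ IsFF Ω F ∧
        (GeneralType k K (b + 1) → 0 < canDeg Ω F) := by
  obtain ⟨Ω, F, i1, i2, i3, i4, i5, i6, i7, i8, t1, t2, t3, t4, t5, hF⟩ :=
    exists_fibreField (k := k) (B0 := B) (B := K) (algebraMap B K).injective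
  have hcl := hF.closed
  have halg := hF.alg
  have hB0 : CharZero B := charZero_of_injective_algebraMap (algebraMap k B).injective
  have hΩ0 : CharZero Ω := charZero_of_injective_algebraMap (algebraMap B Ω).injective
  have hBK : Algebra.trdeg B K = (1 : ℕ) := Pool.Agent.Y174.trdeg_LK (r := 1) hB hK
  -- the field of functions is algebraic over `K`
  have hKF : Algebra.IsAlgebraic K F := by
    refine ⟨fun x => ?_⟩
    have hx : x ∈ IntermediateField.adjoin Ω (Set.range (algebraMap K F)) := by
      rw [hF.gen]
      exact IntermediateField.mem_top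
    induction hx using IntermediateField.adjoin_induction with
    | mem y hy =>
      obtain ⟨b, rfl⟩ := hy
      exact isAlgebraic_algebraMap b
    | algebraMap c =>
      have h1 : IsAlgebraic B (algebraMap Ω F c) := (halg.isAlgebraic c).algebraMap
      exact h1.extendScalars (algebraMap B K).injective
    | add x y _ _ hx hy => exact hx.add hy
    | inv x _ hx => exact hx.inv
    | mul x y _ _ hx hy => exact hx.mul hy
  have htr : Algebra.trdeg Ω F = 1 := by
    have h1 := trdeg_add_eq B Ω (A := F)
    have h2 := trdeg_add_eq B K (A := F)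
    have h3 : Algebra.trdeg B Ω = 0 := trdeg_eq_zero
    have h4 : Algebra.trdeg K F = 0 := trdeg_eq_zero
    rw [h3, zero_add] at h1
    rw [h4, add_zero, hBK] at h2
    rw [h1, ← h2, Nat.cast_one]
  have hessF : Algebra.EssFiniteType Ω F := by
    rw [← IntermediateField.fg_top_iff]
    obtain ⟨s, hs⟩ := IntermediateField.fg_top k K
    have h1 : IntermediateField.adjoin Ω (algebraMap K F '' (s : Set K)) = ⊤ := by
      rw [eq_top_iff, ← hF.gen, IntermediateField.adjoin_le_iff]
      rintro _ ⟨u, rfl⟩
      have hu : u ∈ IntermediateField.adjoin k (s : Set K) := by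
        rw [hs]
        exact IntermediateField.mem_top
      induction hu using IntermediateField.adjoin_induction with
      | mem v hv => exact IntermediateField.subset_adjoin _ _ ⟨v, hv, rfl⟩
      | algebraMap c =>
        rw [← IsScalarTower.algebraMap_apply k K F, IsScalarTower.algebraMap_apply k Ω F]
        exact IntermediateField.algebraMap_mem _ _
      | add a b _ _ ha hb =>
        rw [map_add]
        exact add_mem ha hb
      | inv a _ ha =>
        rw [map_inv₀]
        exact inv_mem ha
      | mul a b _ _ ha hb =>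
        rw [map_mul]
        exact mul_mem ha hb
    rw [← h1]
    exact IntermediateField.fg_adjoin_of_finite (s.finite_toSet.image _)
  have hff : IsFF Ω F := ⟨hessF, htr⟩
  refine ⟨Ω, F, i1, i2, i3, i6, i5, i7, i8, t4, t5, hKF, fun c => ?_, hF, hff, fun h => ?_⟩
  · rw [← IsScalarTower.algebraMap_apply B K F, IsScalarTower.algebraMap_apply B Ω F]
  · exact canDeg_pos_of_gt (B := B) (Λ := Ω) (F := F) hess hB hK h

/-- **The fibres of a fibration by curves on a variety of general type.** -/
theorem hypFibres_of_gt {k K : Type} [Field k] [CharZero k] [Field K] [Algebra k K]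
    (hess : Algebra.EssFiniteType k K) {C : IntermediateField k K} {w : ℕ}
    (h : GeneralType k K w) (htr : Algebra.trdeg k K ≤ Algebra.trdeg k C + 1) : HypFibres C := by
  have hw := h.1
  have hadd := trdeg_add_eq k C (A := K)
  have hle : Algebra.trdeg k C ≤ w := by
    rw [← hw, ← hadd]
    exact self_le_add_right _ _
  obtain ⟨b, hb⟩ := Cardinal.lt_aleph0.1 (lt_of_le_of_lt hle (Cardinal.natCast_lt_aleph0 (n := w)))
  have hle2 : Algebra.trdeg C K ≤ w := by
    rw [← hw, ← hadd]
    exact self_le_add_left _ _
  obtain ⟨r, hr⟩ := Cardinal.lt_aleph0.1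
    (lt_of_le_of_lt hle2 (Cardinal.natCast_lt_aleph0 (n := w)))
  rw [hb, hw] at htr
  rw [hb, hr, hw] at hadd
  have h1 : w ≤ b + 1 := by exact_mod_cast htr
  have h2 : b + r = w := by exact_mod_cast hadd
  rcases Nat.eq_zero_or_pos r with hr0 | hr0
  · left
    rw [hr0, Nat.cast_zero, trdeg_eq_zero_iff] at hr
    exact hr
  · right
    have h3 : w = b + 1 := by omega
    subst h3
    obtain ⟨Ω, F, i1, i2, i3, i4, i5, -, -, -, -, -, hcomm, hF, hff, hpos⟩ := gen_fib hess hb hw
    exact ⟨Ω, F, i1, i2, i3, i4, i5, hcomm, hF, hff, hpos h⟩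

end Pool.Agent.H916
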