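import Pool.Agent.H916.LVoj
import Pool.Agent.H916.GtFib
import Pool.Graph.R_seed8.W369.RG.RIE

/-! Points over function fields which are points of constant varieties. -/

set_option autoImplicit false
set_option linter.overlappingInstances false
set_option linter.unusedSectionVars false

open FF Pool.Agent.W603.LV Pool.Agent.W603.PV MvPolynomial
open Pool.Agent.W602.GT (val IsForm coords val_smul GeneralType LogGeneralType)
open Pool.Agent.Y216 (OnVar)

namespace Pool.Agent.H916

/-- The point with the homogeneous coordinates `∑ i, t (j, i) u i`, where `t (j, i) ∈ k` are the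
homogeneous coordinates of a point of projective space over `k` and `u i ∈ L`. -/
def constPt {k L : Type} [Field k] [Field L] [Algebra k L] {M N : ℕ} (u : Fin N → L)
    (t : Fin (M + 1) × Fin N → k) : Fin (M + 1) → L := fun j => ∑ i, t (j, i) • u i

/-- `t` is a point of the closed subset (cone) given by the ideal `p`. -/
def Zero {k σ : Type} [Field k] (p : Ideal (MvPolynomial σ k)) (t : σ → k) : Prop :=
  ∀ f ∈ p, eval t f = 0

/-- The `L`-points, outside of `G = 0`, of the projective variety over `F` with the generic point `x`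
are `k`-points of finitely many constant varieties: there are elements `u i` of `L` which are linearly
independent over `k` and homogeneous prime ideals `p i` over `k`, that is, projective varieties `T i`
over `k` in one projective space, such that the linear map `t ↦ ∑ i, t (j, i) u i` maps the points of
`T i` over `k` to `L`-points of the variety, and every `L`-point outside of `G = 0` is the image of a
point over `k` of one of the `T i`. -/
def ConstantPoints (k : Type) {F K : Type} [Field k] [Field F] [Algebra k F] [Field K] [Algebra F K]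
    {M : ℕ} (x : Fin (M + 1) → K) (G : MvPolynomial (Fin (M + 1)) F) (L : Type) [Field L]
    [Algebra k L] [Algebra F L] : Prop :=
  ∃ (N : ℕ) (u : Fin N → L) (r : ℕ) (p : Fin r → Ideal (MvPolynomial (Fin (M + 1) × Fin N) k)),
    LinearIndependent k u ∧ (∀ i, (p i).IsPrime ∧ ∀ f ∈ p i, ∀ n, homogeneousComponent n f ∈ p i) ∧
    (∀ i t, Zero (p i) t → t ≠ 0 → OnVar F x (constPt u t)) ∧
    ∀ v : Fin (M + 1) → L, OnVar F x v → val v G ≠ 0 →
      ∃ i t, Zero (p i) t ∧ ∃ c : L, c ≠ 0 ∧ ∀ j, c * v j = constPt u t j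

/-- The heights of the `L`-points, outside of `G = 0`, of the projective variety over `F` with the
generic point `x` are bounded. -/
def HeightsBounded (k : Type) {F K : Type} [Field k] [Field F] [Algebra k F] [Field K] [Algebra F K]
    {M : ℕ} (x : Fin (M + 1) → K) (G : MvPolynomial (Fin (M + 1)) F) (L : Type) [Field L]
    [Algebra k L] [Algebra F L] : Prop :=
  ∃ B : ℤ, ∀ v : Fin (M + 1) → L, OnVar F x v → val v G ≠ 0 → pht k v ≤ B

section push

variable {k L σ : Type} [Field k] [Field L] [Algebra k L]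

/-- the polynomial with the coefficients `μ c` -/
noncomputable def push (μ : L →ₗ[k] k) (P : MvPolynomial σ L) : MvPolynomial σ k :=
  ∑ m ∈ P.support, monomial m (μ (P.coeff m))

theorem eval_push (μ : L →ₗ[k] k) (P : MvPolynomial σ L) (t : σ → k) :
    eval t (push μ P) = μ (eval (fun s => algebraMap k L (t s)) P) := by
  classical
  rw [push, map_sum, MvPolynomial.eval_eq, map_sum]
  refine Finset.sum_congr rfl fun m _ => ?_
  rw [eval_monomial]
  have h1 : P.coeff m * ∏ i ∈ m.support, algebraMap k L (t i) ^ m i =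
      (m.prod fun i e => t i ^ e) • P.coeff m := by
    rw [Algebra.smul_def, mul_comm, Finsupp.prod, map_prod]
    simp only [map_pow]
  rw [h1, map_smul, smul_eq_mul, mul_comm]

theorem push_hom (μ : L →ₗ[k] k) {P : MvPolynomial σ L} {n : ℕ} (hP : P.IsHomogeneous n) :
    (push μ P).IsHomogeneous n := by
  unfold push
  refine IsHomogeneous.sum _ _ _ fun m hm => ?_
  refine isHomogeneous_monomial _ ?_
  have h1 := hP (mem_support_iff.1 hm)
  rw [← h1, Finsupp.degree_eq_weight_one]
  rfl

end push

section main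

variable {k F K : Type} [Field k] [Field F] [Algebra k F] [Field K] [Algebra F K]
  {M : ℕ} {x : Fin (M + 1) → K} {L : Type} [Field L] [Algebra k L] [Algebra F L]
  [IsScalarTower k F L]

/-- the form `H (∑ i, u i X (j, i))` -/
noncomputable def comp {N : ℕ} (u : Fin N → L) (H : MvPolynomial (Fin (M + 1)) F) :
    MvPolynomial (Fin (M + 1) × Fin N) L :=
  aeval (fun j => ∑ i, C (u i) * X (j, i)) H

theorem eval_comp {N : ℕ} (u : Fin N → L) (H : MvPolynomial (Fin (M + 1)) F)
    (t : Fin (M + 1) × Fin N → k) :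
    eval (fun s => algebraMap k L (t s)) (comp u H) = val (constPt u t) H := by
  unfold comp Pool.Agent.W602.GT.val
  have h1 := MvPolynomial.comp_aeval_apply (fun j : Fin (M + 1) => ∑ i, C (u i) * X (j, i))
    (((aeval fun s => algebraMap k L (t s) : MvPolynomial (Fin (M + 1) × Fin N) L →ₐ[L] L)).restrictScalars F) H
  have h2 : ∀ P : MvPolynomial (Fin (M + 1) × Fin N) L,
      eval (fun s => algebraMap k L (t s)) P = (((aeval fun s => algebraMap k L (t s) :
        MvPolynomial (Fin (M + 1) × Fin N) L →ₐ[L] L)).restrictScalars F) P := by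
    intro P
    change _ = aeval _ P
    rw [MvPolynomial.aeval_eq_eval]
  rw [h2, h1]
  congr 1
  congr 1
  funext j
  rw [← h2, map_sum]
  unfold constPt
  refine Finset.sum_congr rfl fun i _ => ?_
  rw [map_mul, eval_C, eval_X, Algebra.smul_def, mul_comm]

theorem comp_hom {N : ℕ} (u : Fin N → L) {H : MvPolynomial (Fin (M + 1)) F} {d : ℕ}
    (hH : H.IsHomogeneous d) : (comp u H).IsHomogeneous (1 * d) := by
  unfold comp
  refine hH.aeval _ fun j => ?_
  refine IsHomogeneous.sum _ _ _ fun i _ => ?_
  have h1 := (isHomogeneous_C (Fin (M + 1) × Fin N) (u i)).mul (isHomogeneous_X L ((j, i) : Fin (M + 1) × Fin N))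
  rwa [zero_add] at h1

/-- the ideal of the cone of all `t` such that `constPt u t` is a point of the variety or zero -/
noncomputable def cone (k F : Type) [Field k] [Field F] [Algebra F K] [Algebra F L] [Algebra k L]
    (x : Fin (M + 1) → K) {N : ℕ} (u : Fin N → L) :
    Ideal (MvPolynomial (Fin (M + 1) × Fin N) k) :=
  Ideal.span {q | ∃ (H : MvPolynomial (Fin (M + 1)) F) (μ : L →ₗ[k] k), IsForm H ∧ val x H = 0 ∧
    q = push μ (comp u H)}

theorem zero_cone {N : ℕ} {u : Fin N → L} {t : Fin (M + 1) × Fin N → k} :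
    Zero (cone k F x u) t ↔ ∀ H : MvPolynomial (Fin (M + 1)) F, IsForm H → val x H = 0 →
      val (constPt u t) H = 0 := by
  constructor
  · intro h H hH hx
    refine (Module.forall_dual_apply_eq_zero_iff k _).1 fun μ => ?_
    have h1 := h _ (Ideal.subset_span ⟨H, μ, hH, hx, rfl⟩)
    rwa [eval_push, eval_comp] at h1
  · intro h f hf
    refine Submodule.span_induction (p := fun f _ => eval t f = 0) ?_ ?_ ?_ ?_ hf
    · rintro _ ⟨H, μ, hH, hx, rfl⟩
      rw [eval_push, eval_comp, h H hH hx, map_zero]
    · exact map_zero _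
    · intro a b _ _ ha hb
      rw [map_add, ha, hb, add_zero]
    · intro a b _ hb
      rw [smul_eq_mul, map_mul, hb, mul_zero]

attribute [local instance] MvPolynomial.gradedAlgebra in
theorem cone_hom {N : ℕ} {u : Fin N → L} :
    (cone k F x u).IsHomogeneous (homogeneousSubmodule (Fin (M + 1) × Fin N) k) := by
  refine Ideal.homogeneous_span _ _ ?_
  rintro _ ⟨H, μ, ⟨d, hd⟩, -, rfl⟩
  exact ⟨1 * d, push_hom μ (comp_hom u hd)⟩

attribute [local instance] MvPolynomial.gradedAlgebra in
theorem minimal_hom {σ : Type} {I p : Ideal (MvPolynomial σ k)}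
    (hI : I.IsHomogeneous (homogeneousSubmodule σ k)) (hp : p ∈ I.minimalPrimes) :
    ∀ f ∈ p, ∀ n, homogeneousComponent n f ∈ p := by
  classical
  have hpp : p.IsPrime := hp.1.1
  have h1 := Ideal.IsPrime.homogeneousCore (𝒜 := homogeneousSubmodule σ k) hpp
  have h2 : I ≤ (p.homogeneousCore (homogeneousSubmodule σ k)).toIdeal := by
    rw [← hI.toIdeal_homogeneousCore_eq_self]
    exact Ideal.homogeneousCore_mono _ hp.1.2
  have h3 := hp.2 ⟨h1, h2⟩ (Ideal.toIdeal_homogeneousCore_le _ p)
  have h4 : p.IsHomogeneous (homogeneousSubmodule σ k) := by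
    have h5 : p = (p.homogeneousCore (homogeneousSubmodule σ k)).toIdeal :=
      le_antisymm h3 (Ideal.toIdeal_homogeneousCore_le _ p)
    rw [h5]
    exact (p.homogeneousCore (homogeneousSubmodule σ k)).isHomogeneous
  intro f hf n
  exact homogeneousComponent_mem_of_mem h4 hf n

theorem constPt_ne {N : ℕ} {u : Fin N → L} (hu : LinearIndependent k u)
    {t : Fin (M + 1) × Fin N → k} (ht : t ≠ 0) : ∃ j, constPt u t j ≠ 0 := by
  by_contra hcon
  push Not at hcon
  apply ht
  funext s
  obtain ⟨j, i⟩ := s
  exact (Fintype.linearIndependent_iff.1 hu (fun i => t (j, i)) (hcon j)) i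

/-- bounded heights imply constant varieties -/
theorem constantPoints_of_bounded [IsAlgClosed k] [CharZero k] [IsFF k L]
    {G : MvPolynomial (Fin (M + 1)) F} (h : HeightsBounded k x G L) : ConstantPoints k x G L := by
  classical
  obtain ⟨B, hB⟩ := h
  obtain ⟨V, hV, hVB⟩ := Pool.Agent.W369.RG.RIE.main k L M B
  let b := Module.finBasis k V
  let u : Fin (Module.finrank k V) → L := fun i => (b i : L)
  have hu : LinearIndependent k u := b.linearIndependent.map' V.subtype V.ker_subtype
  let I := cone k F x u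
  have hfin := I.finite_minimalPrimes_of_isNoetherianRing (MvPolynomial (Fin (M + 1) × Fin (Module.finrank k V)) k)
  let e := hfin.toFinset.equivFin
  refine ⟨_, u, hfin.toFinset.card, fun i => (e.symm i : Ideal _), hu, fun i => ?_, fun i t ht ht0 => ?_,
    fun v hv hvG => ?_⟩
  · have h1 := hfin.mem_toFinset.1 (e.symm i).2
    exact ⟨h1.1.1, minimal_hom cone_hom h1⟩
  · have h1 := hfin.mem_toFinset.1 (e.symm i).2
    refine ⟨constPt_ne hu ht0, ?_⟩
    exact zero_cone.1 fun f hf => ht f (h1.1.2 hf)
  · obtain ⟨φ, hφ, hφV⟩ := hVB v hv.1 (hB v hv hvG)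
    let t : Fin (M + 1) × Fin (Module.finrank k V) → k := fun s => b.repr ⟨φ * v s.1, hφV s.1⟩ s.2
    have ht : ∀ j, constPt u t j = φ * v j := by
      intro j
      have h1 := b.sum_repr ⟨φ * v j, hφV j⟩
      have h2 := congrArg (fun z : V => (z : L)) h1
      simp only at h2
      rw [Submodule.coe_sum] at h2
      exact h2
    have h1 : Zero I t := by
      refine zero_cone.2 fun H hH hx => ?_
      obtain ⟨d, hd⟩ := hH
      have h3 := hv.2 H ⟨d, hd⟩ hx
      exact (val_scale_iff0 hφ ht ⟨d, hd⟩).2 h3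
    let m : Ideal (MvPolynomial (Fin (M + 1) × Fin (Module.finrank k V)) k) := RingHom.ker (eval t)
    have hm : m.IsPrime := RingHom.ker_isPrime _
    obtain ⟨p, hp, hpm⟩ := Ideal.exists_minimalPrimes_le (I := I) (J := m) fun f hf => h1 f hf
    refine ⟨e ⟨p, hfin.mem_toFinset.2 hp⟩, t, fun f hf => ?_, φ, hφ, fun j => (ht j).symm⟩
    have hf' : f ∈ ((e.symm (e ⟨p, hfin.mem_toFinset.2 hp⟩) : hfin.toFinset) : Ideal _) := hf
    rw [Equiv.symm_apply_apply] at hf'
    exact hpm hf'

/-- constant varieties have bounded heights -/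
theorem bounded_of_constantPoints [IsAlgClosed k] [CharZero k] [IsFF k L]
    {G : MvPolynomial (Fin (M + 1)) F} (h : ConstantPoints k x G L) : HeightsBounded k x G L := by
  classical
  obtain ⟨N, u, r, p, hu, -, -, h2⟩ := h
  have hfd : ∀ c : Fin N → k, hgt k (∑ i, c i • u i) ≤ ∑ i, hgt k (u i) := by
    intro c
    let q : MvPolynomial (Fin N) k := ∑ i, MvPolynomial.C (c i) * MvPolynomial.X i
    have hq : MvPolynomial.aeval u q = ∑ i, c i • u i := by
      simp only [q]
      rw [map_sum]
      refine Finset.sum_congr rfl fun i _ => ?_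
      rw [map_mul, MvPolynomial.aeval_C, MvPolynomial.aeval_X, Algebra.smul_def]
    have hdeg : q.totalDegree ≤ 1 := by
      refine (MvPolynomial.totalDegree_finsetSum _ _).trans (Finset.sup_le fun i _ => ?_)
      refine (MvPolynomial.totalDegree_mul _ _).trans ?_
      rw [MvPolynomial.totalDegree_C, MvPolynomial.totalDegree_X, zero_add]
    have h1 := hgt_mvpolyF (k := k) (F := k) u q
    have h2 : ∑ α ∈ q.support, hgt k (algebraMap k L (q.coeff α)) = 0 :=
      Finset.sum_eq_zero fun α _ => hgt_algebraic (isAlgebraic_algebraMap _)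
    rw [h2, add_zero, hq] at h1
    refine h1.trans ?_
    have h3 : (0 : ℤ) ≤ ∑ j, hgt k (u j) := Finset.sum_nonneg fun _ _ => hgt_nonneg _
    have h4 : ((q.totalDegree : ℕ) : ℤ) ≤ 1 := by exact_mod_cast hdeg
    calc (q.totalDegree : ℤ) * ∑ j, hgt k (u j) ≤ 1 * ∑ j, hgt k (u j) :=
        mul_le_mul_of_nonneg_right h4 h3
      _ = _ := one_mul _
  refine ⟨∑ _j : Fin (M + 1), (∑ i, hgt k (u i) + ∑ i, hgt k (u i)), fun v hv hvG => ?_⟩
  obtain ⟨i, t, -, c, hc, hct⟩ := h2 v hv hvG
  obtain ⟨l, hl⟩ := hv.1
  have hl' : c * v l ≠ 0 := mul_ne_zero hc hl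
  rw [← pht_scale hv.1 hc]
  refine (pht_le (k := k) (fun j => c * v j) (l := l) hl').trans (Finset.sum_le_sum fun j _ => ?_)
  by_cases hj : c * v j = 0
  · rw [hj, zero_div, hgt_zero]
    exact add_nonneg (Finset.sum_nonneg fun _ _ => hgt_nonneg _)
      (Finset.sum_nonneg fun _ _ => hgt_nonneg _)
  rw [div_eq_mul_inv]
  refine (hgt_mul hj (inv_ne_zero hl')).trans (add_le_add ?_ ?_)
  · rw [hct]
    exact hfd _
  · rw [hgt_inv, hct]
    exact hfd _

/-- a constant variety which dominates the variety, if the points are dense -/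
theorem dominated_of_dense {G : MvPolynomial (Fin (M + 1)) F} (hG : IsForm G) (hGx : val x G ≠ 0)
    {N : ℕ} {u : Fin N → L} {r : ℕ} {p : Fin r → Ideal (MvPolynomial (Fin (M + 1) × Fin N) k)}
    (h : ∀ v : Fin (M + 1) → L, OnVar F x v → val v G ≠ 0 →
      ∃ i t, Zero (p i) t ∧ ∃ c : L, c ≠ 0 ∧ ∀ j, c * v j = constPt u t j)
    (hd : ∀ H : MvPolynomial (Fin (M + 1)) F, IsForm H → val x H ≠ 0 →
      ∃ v : Fin (M + 1) → L, OnVar F x v ∧ val v H ≠ 0) :
    ∃ i, ∀ H : MvPolynomial (Fin (M + 1)) F, IsForm H → val x H ≠ 0 →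
      ∃ t, Zero (p i) t ∧ val (constPt u t) H ≠ 0 := by
  classical
  by_contra hcon
  push Not at hcon
  choose H hH hHx hHt using hcon
  obtain ⟨v, hv, hvH⟩ := hd (G * ∏ i, H i) (isForm_mul0 hG (isForm_prod0 hH)) (by
    rw [val_mul_ne0, val_prod_ne0]
    exact ⟨hGx, hHx⟩)
  rw [val_mul_ne0, val_prod_ne0] at hvH
  obtain ⟨i, t, ht, c, hc, hct⟩ := h v hv hvH.1
  exact hvH.2 i ((val_scale_iff0 hc (fun j => (hct j).symm) (hH i)).1 (hHt i t ht))

end main

section defs

/-- **The weak form of the conjecture**: there is a hypersurface `G = 0` which does not contain the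
projective variety over `F` with the generic point `x`, such that for every finite extension `L` of
`F` the `L`-points outside of `G = 0` are `k`-points of finitely many constant varieties. -/
def Parametrized (k F : Type) {K : Type} [Field k] [Field F] [Algebra k F] [Field K]
    [Algebra F K] {M : ℕ} (x : Fin (M + 1) → K) : Prop :=
  ∃ G : MvPolynomial (Fin (M + 1)) F, IsForm G ∧ val x G ≠ 0 ∧
    ∀ (L : Type) [Field L] [Algebra k L] [Algebra F L] [IsScalarTower k F L]
      [FiniteDimensional F L], ConstantPoints k x G L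

/-- The `L`-points are Zariski dense in the projective variety over `F` with the generic point `x`. -/
def DensePoints (F : Type) {K : Type} [Field F] [Field K] [Algebra F K] {M : ℕ} (x : Fin (M + 1) → K)
    (L : Type) [Field L] [Algebra F L] : Prop :=
  ∀ H : MvPolynomial (Fin (M + 1)) F, IsForm H → val x H ≠ 0 →
    ∃ v : Fin (M + 1) → L, OnVar F x v ∧ val v H ≠ 0

/-- The projective variety over `F` with the generic point `x` is dominated by a constant variety
over `L`: there are `u i ∈ L`, linearly independent over `k`, and a projective variety `T` over `k`,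
given by a homogeneous prime ideal, such that the linear map `t ↦ ∑ i, t (j, i) u i` maps the points of
`T` over `k` to a Zariski dense set of `L`-points of the variety. -/
def DominatedByConstant (k F : Type) {K : Type} [Field k] [Field F] [Algebra k F] [Field K]
    [Algebra F K] {M : ℕ} (x : Fin (M + 1) → K) (L : Type) [Field L]
    [Algebra k L] [Algebra F L] : Prop :=
  ∃ (N : ℕ) (u : Fin N → L) (p : Ideal (MvPolynomial (Fin (M + 1) × Fin N) k)),
    LinearIndependent k u ∧ p.IsPrime ∧ (∀ f ∈ p, ∀ n, homogeneousComponent n f ∈ p) ∧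
    (∀ t, Zero p t → t ≠ 0 → OnVar F x (constPt u t)) ∧
    ∀ H : MvPolynomial (Fin (M + 1)) F, IsForm H → val x H ≠ 0 →
      ∃ t, Zero p t ∧ val (constPt u t) H ≠ 0

end defs

section ascent

variable {k F : Type} [Field k] [IsAlgClosed k] [CharZero k] [Field F] [Algebra k F] [IsFF k F]

/-- Heights are bounded outside of a proper closed subset: there is a hypersurface `G = 0` which does
not contain the projective variety over `F` with the generic point `x`, such that for every finite
extension `L` of `F` the heights of the `L`-points of the variety outside of `G = 0` are bounded. -/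
def BoundedHeights (k F : Type) {K : Type} [Field k] [Field F] [Algebra k F] [Field K]
    [Algebra F K] {M : ℕ} (x : Fin (M + 1) → K) : Prop :=
  ∃ G : MvPolynomial (Fin (M + 1)) F, IsForm G ∧ val x G ≠ 0 ∧
    ∀ (L : Type) [Field L] [Algebra k L] [Algebra F L] [IsScalarTower k F L]
      [FiniteDimensional F L], HeightsBounded k x G L

theorem logHyp_of_hyp {F K : Type} [Field F] [Field K] [Algebra F K] {C : IntermediateField F K}
    (h : HypFibres C) {ι J : Type} (s : ι → J → K) : LogHypFibres C.toSubfield s := by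
  rcases h with h | ⟨Ω, E, i1, i2, i3, i4, i5, h1, h2, h3, h4⟩
  · exact Or.inl h
  · refine Or.inr ⟨Ω, E, i1, i2, i3, i4, i5, h1, h2, h3, ?_⟩
    have h5 : (0 : ℤ) ≤ ({P : Place Ω E | ∀ i, ∃ j, P.ord (algebraMap K E (s i j)) < 0}.ncard : ℤ) :=
      Int.natCast_nonneg _
    linarith

/-- **Ascent of bounded heights.** -/
theorem bounded_multiC {K : Type} [Field K] [Algebra F K] {M : ℕ} {x : Fin (M + 1) → K} (hx : x ≠ 0)
    (hgen : coords F x = ⊤) {r : ℕ} {N : Fin r → ℕ}
    {y : ∀ l, Fin (N l + 1) → K} (hy : ∀ l, y l ≠ 0)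
    (hfib : HypFibres (⨆ l, coords F (y l)))
    (hV : ∀ l, BoundedHeights k F (y l)) : BoundedHeights k F x := by
  classical
  have hF0 : CharZero F := charZero_of_injective_algebraMap (algebraMap k F).injective
  let iK : Algebra k K := ((algebraMap F K).comp (algebraMap k F)).toAlgebra
  have tK : IsScalarTower k F K := IsScalarTower.of_algebraMap_eq fun _ => rfl
  have hessF : Algebra.EssFiniteType k F := IsFF.ess
  obtain ⟨s, hs⟩ := IntermediateField.fg_top k F
  obtain ⟨τ, t, ht⟩ : ∃ (τ : ℕ) (t : Fin τ → F), IntermediateField.adjoin k (Set.range t) = ⊤ := by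
    refine ⟨s.card, fun i => (s.equivFin.symm i : F), ?_⟩
    have h1 : Set.range (fun i => ((s.equivFin.symm i : s) : F)) = (s : Set F) := by
      ext z
      constructor
      · rintro ⟨i, rfl⟩
        exact (s.equivFin.symm i).2
      · intro hz
        exact ⟨s.equivFin ⟨z, hz⟩, congrArg Subtype.val (s.equivFin.symm_apply_apply ⟨z, hz⟩)⟩
    rw [h1]
    exact hs
  let Q : Unit → MvPolynomial (Fin (M + 1)) F := fun _ => 1
  have hQ : ∀ i, IsForm (Q i) := fun _ => ⟨0, isHomogeneous_one _ _⟩
  have hQx : ∃ i, aeval x (Q i) ≠ 0 := ⟨(), by simp only [Q, map_one]; exact one_ne_zero⟩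
  have hmeet : ∀ (E : Type) [Field E] [Algebra k E] [Algebra F E] (f : Fin (M + 1) → E),
      {P : Place k E | Meets Q f P} = ∅ := by
    intro E _ _ _ f
    ext P
    simp only [Set.mem_ofPred_eq, Set.mem_empty_iff_false, iff_false]
    intro h
    rcases h () with h1 | h1
    · simp only [Q, map_one] at h1
      exact one_ne_zero h1
    · simp only [Q, map_one, totalDegree_one, Nat.cast_zero, zero_mul, P.ord_one] at h1
      exact lt_irrefl _ h1
  obtain ⟨j, e, H, hH, G, hG, hGx, hGj, A, hA⟩ :=
    rel_log_rat (k := k) (k0 := F) ht hx hgen hy hQ hQx (logHyp_of_hyp hfib _)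
  choose G' hG' hG'y hV' using hV
  refine ⟨G * ∏ l, aeval (H l) (G' l),
    isForm_mul0 hG (isForm_prod0 fun l => isForm_comp0 (hH l).hom (hG' l)), ?_,
    fun L _ _ _ _ _ => ?_⟩
  · rw [val_mul_ne0, val_prod_ne0]
    exact ⟨hGx, fun l h0 => hG'y l (((hH l).val_iff (hG' l)).1 h0)⟩
  · have hff : IsFF k L := isFF_of_finite (k := k) (F := F) (L := L)
    choose B hB using fun l => hV' l L
    refine ⟨A * (max (canDeg k L) 0 + ∑ l, B l + ∑ j, hgt k (algebraMap F L (t j))),
      fun v hv hvG => ?_⟩
    rw [val_mul_ne0, val_prod_ne0] at hvG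
    obtain ⟨hv1, hv2⟩ := hvG
    have h1 := hA L v hv hv1
    rw [hmeet L v, Set.ncard_empty, Nat.cast_zero, add_zero] at h1
    refine h1.trans ?_
    have h7 : (0 : ℤ) ≤ A := Int.natCast_nonneg _
    refine mul_le_mul_of_nonneg_left ?_ h7
    refine add_le_add (add_le_add le_rfl (Finset.sum_le_sum fun l _ => ?_)) le_rfl
    exact hB l (fun i => aeval v (H l i)) ((hH l).on hv (hGj L v hv hv1 l)) (by
      rw [← val_comp0]; exact hv2 l)

theorem bounded_homC {B K : Type} [Field B] [Field K] [Algebra F B] [Algebra F K]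
    (φ : B →ₐ[F] K) {N : ℕ} {y : Fin (N + 1) → B} (h : BoundedHeights k F y) :
    BoundedHeights k F (fun i => φ (y i)) := by
  obtain ⟨G, hG, hGy, hA⟩ := h
  refine ⟨G, hG, fun h0 => hGy ((val_hom_eq φ y G).1 h0), fun L _ _ _ _ _ => ?_⟩
  obtain ⟨B, hB⟩ := hA L
  exact ⟨B, fun f hf hfG =>
    hB f ⟨hf.1, fun H hH hy => hf.2 H hH ((val_hom_eq φ y H).2 hy)⟩ hfG⟩

/-- **Bounded heights for iterated fibrations by curves of genus at least two.** -/
theorem Iterated.boundedHeights {K : Type} [Field K] [Algebra F K]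
    (h : Iterated F K) : ∀ (M : ℕ) (x : Fin (M + 1) → K), x ≠ 0 → coords F x = ⊤ →
      BoundedHeights k F x := by
  induction h with
  | @step K _ _ r B iB iA hess φ hB h ih =>
    intro M x hx hgen
    have hessB : ∀ l, Algebra.EssFiniteType F (B l) := by
      intro l
      obtain ⟨hess', _, _, _⟩ := hB l
      exact hess'
    choose N y' hy' hgen' using fun l => exists_model_ess (hessB l)
    have hy : ∀ l, (fun i => φ l (y' l i)) ≠ 0 := by
      intro l h0
      apply hy' l
      funext i
      have h1 := congrFun h0 i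
      exact (φ l).injective (by rw [Pi.zero_apply, map_zero]; exact h1)
    have hC : (⨆ l, coords F fun i => φ l (y' l i)) = ⨆ l, (φ l).fieldRange := by
      congr 1
      funext l
      rw [coords_map, hgen', ← AlgHom.fieldRange_eq_map]
    exact bounded_multiC hx hgen (y := fun l i => φ l (y' l i)) hy (by rw [hC]; exact h)
      fun l => bounded_homC (φ l) (ih l (N l) (y' l) (hy' l) (hgen' l))

theorem parametrized_iff {K : Type} [Field K] [Algebra F K] {M : ℕ} {x : Fin (M + 1) → K} :
    Parametrized k F x ↔ BoundedHeights k F x := by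
  constructor
  · rintro ⟨G, hG, hGx, h⟩
    refine ⟨G, hG, hGx, fun L _ _ _ _ _ => ?_⟩
    have hff : IsFF k L := isFF_of_finite (k := k) (F := F) (L := L)
    exact bounded_of_constantPoints (h L)
  · rintro ⟨G, hG, hGx, h⟩
    refine ⟨G, hG, hGx, fun L _ _ _ _ _ => ?_⟩
    have hff : IsFF k L := isFF_of_finite (k := k) (F := F) (L := L)
    exact constantPoints_of_bounded (h L)

theorem Parametrized.dominated {K : Type} [Field K] [Algebra F K] {M : ℕ} {x : Fin (M + 1) → K}
    (h : Parametrized k F x) (L : Type) [Field L] [Algebra k L] [Algebra F L] [IsScalarTower k F L]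
    [FiniteDimensional F L] (hd : DensePoints F x L) : DominatedByConstant k F x L := by
  obtain ⟨G, hG, hGx, h⟩ := h
  obtain ⟨N, u, r, p, hu, hp, hT, hv⟩ := h L
  obtain ⟨i, hi⟩ := dominated_of_dense (k := k) hG hGx hv hd
  exact ⟨N, u, p i, hu, (hp i).1, (hp i).2, hT i, hi⟩

end ascent

end Pool.Agent.H916
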