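import Pool.Agent.H916.Core

/-! Adjoining the algebraic closure of the field of the elements of small height. -/

set_option autoImplicit false
set_option linter.overlappingInstances false

open FF Pool.Agent.W603.LV Module IntermediateField Matrix

namespace Pool.Agent.H916

section expand

variable {K0 K : Type} [Field K0] [Field K] [Algebra K0 K] [CharZero K0]

/-- the coefficients of an integral element are integral -/
theorem expand (S0 : Subfield K0) (hS0 : ∀ x : K0, IsAlgebraic S0 x → x ∈ S0) (R0 : Subring K0)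
    (hle : ∀ s ∈ S0, s ∈ R0) (hint : ∀ x : K0, IsIntegral R0 x → x ∈ R0) (θ : K)
    (hθ : IsAlgebraic S0 θ) (a : K) (ha : a ∈ K0⟮θ⟯) (hai : IsIntegral R0 a) :
    ∃ (n : ℕ) (b : Fin n → K0), (∀ j, b j ∈ R0) ∧
      a = ∑ j, algebraMap K0 K (b j) * θ ^ (j : ℕ) := by
  have hθ0 : IsIntegral S0 θ := hθ.isIntegral
  have hθ' : IsIntegral K0 θ := hθ0.tower_top
  have hfin : FiniteDimensional K0 K0⟮θ⟯ := adjoin.finiteDimensional hθ'
  set pb := adjoin.powerBasis hθ' with hpb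
  have hgen : pb.gen = AdjoinSimple.gen K0 θ := rfl
  have hgi : IsIntegral S0 (AdjoinSimple.gen K0 θ) := by
    have h1 : IsIntegral S0 (algebraMap K0⟮θ⟯ K (AdjoinSimple.gen K0 θ)) := by
      rw [AdjoinSimple.algebraMap_gen]
      exact hθ0
    exact (isIntegral_algebraMap_iff (algebraMap K0⟮θ⟯ K).injective).1 h1
  have hai' : IsIntegral R0 (⟨a, ha⟩ : K0⟮θ⟯) := by
    have h1 : IsIntegral R0 (algebraMap K0⟮θ⟯ K ⟨a, ha⟩) := hai
    exact (isIntegral_algebraMap_iff (algebraMap K0⟮θ⟯ K).injective).1 h1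
  have hbi : ∀ i, IsIntegral S0 (pb.basis i) := by
    intro i
    rw [PowerBasis.basis_eq_pow, hgen]
    exact hgi.pow _
  have hM : ∀ i j, ∃ m : S0, algebraMap S0 K0 m = Algebra.traceMatrix K0 pb.basis i j := by
    intro i j
    have h1 : IsIntegral S0 (Algebra.traceMatrix K0 pb.basis i j) :=
      Algebra.isIntegral_trace ((hbi i).mul (hbi j))
    exact ⟨⟨_, hS0 _ h1.isAlgebraic⟩, rfl⟩
  choose M0 hM0 using hM
  have hM0' : (Matrix.of M0).map (algebraMap S0 K0) = Algebra.traceMatrix K0 pb.basis := by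
    ext i j
    exact hM0 i j
  have hdet : (Matrix.of M0).det ≠ 0 := by
    intro h0
    have h1 := det_traceMatrix_ne_zero' (K := K0) pb
    apply h1
    rw [← hM0', ← RingHom.mapMatrix_apply, ← RingHom.map_det, h0, map_zero]
  have hinv : ((Matrix.of M0)⁻¹).map (algebraMap S0 K0) * Algebra.traceMatrix K0 pb.basis = 1 := by
    rw [← hM0', ← RingHom.mapMatrix_apply, ← RingHom.mapMatrix_apply, ← map_mul,
      Matrix.nonsing_inv_mul _ (isUnit_iff_ne_zero.2 hdet), map_one]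
  have hb := Algebra.traceMatrix_of_basis_mulVec pb.basis (⟨a, ha⟩ : K0⟮θ⟯)
  have hb2 : pb.basis.equivFun ⟨a, ha⟩ = ((Matrix.of M0)⁻¹).map (algebraMap S0 K0) *ᵥ
      (fun i => Algebra.trace K0 K0⟮θ⟯ (⟨a, ha⟩ * pb.basis i)) := by
    rw [← hb, Matrix.mulVec_mulVec, hinv, Matrix.one_mulVec]
  refine ⟨pb.dim, pb.basis.equivFun ⟨a, ha⟩, fun j => ?_, ?_⟩
  · rw [hb2]
    change ∑ i, ((Matrix.of M0)⁻¹.map (algebraMap S0 K0)) j i *
      (Algebra.trace K0 K0⟮θ⟯ (⟨a, ha⟩ * pb.basis i)) ∈ R0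
    refine Subring.sum_mem _ fun i _ => ?_
    refine R0.mul_mem (hle _ (((Matrix.of M0)⁻¹ j i).2)) (hint _ ?_)
    refine Algebra.isIntegral_trace (hai'.mul ?_)
    have h1 := hbi i
    let i0 : S0 →+* R0 := S0.subtype.codRestrict R0 (fun s => hle s s.2)
    obtain ⟨p, hp, he⟩ := h1
    refine ⟨p.map i0, hp.map i0, ?_⟩
    rw [Polynomial.eval₂_map]
    exact he
  · have h1 := congrArg (algebraMap K0⟮θ⟯ K) (pb.basis.sum_equivFun ⟨a, ha⟩)
    rw [map_sum] at h1
    have h2 : algebraMap K0⟮θ⟯ K ⟨a, ha⟩ = a := rfl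
    rw [h2] at h1
    refine h1.symm.trans (Finset.sum_congr rfl fun j _ => ?_)
    rw [Algebra.smul_def, map_mul, PowerBasis.basis_eq_pow, map_pow, hgen,
      AdjoinSimple.algebraMap_gen]
    rfl

end expand

end Pool.Agent.H916
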