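import Pool.Agent.H916.Ext

/-! Adjoining the algebraic closure of the field of the elements of small height: the axioms. -/

set_option autoImplicit false
set_option linter.overlappingInstances false

open FF Pool.Agent.W603.LV Module IntermediateField

namespace Pool.Agent.H916

variable {K0 K : Type} [Field K0] [Field K] [Algebra K0 K] [CharZero K0]

/-- derivations extend to algebraic extensions -/
theorem exists_der_ext [Algebra.IsAlgebraic K0 K] (D0 : Derivation ℤ K0 K0) :
    ∃ D : Derivation ℤ K K, ∀ x, D (algebraMap K0 K x) = algebraMap K0 K (D0 x) := by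
  have h1 : Algebra.FormallyEtale K0 K := Algebra.FormallyEtale.of_isSeparable K0 K
  let e := KaehlerDifferential.tensorKaehlerEquivOfFormallyEtale ℤ K0 K
  let l : Ω[K0⁄ℤ] →ₗ[K0] K := (Algebra.linearMap K0 K).comp D0.liftKaehlerDifferential
  let φ : Ω[K⁄ℤ] →ₗ[K] K := (LinearMap.liftBaseChange K l).comp e.symm.toLinearMap
  refine ⟨φ.compDer (KaehlerDifferential.D ℤ K), fun x => ?_⟩
  change (LinearMap.liftBaseChange K l) (e.symm (KaehlerDifferential.D ℤ K (algebraMap K0 K x))) = _
  rw [KaehlerDifferential.tensorKaehlerEquivOfFormallyEtale_symm_D_algebraMap,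
    LinearMap.liftBaseChange_tmul, one_smul]
  simp [l]

omit [CharZero K0] in
/-- the coefficients of the minimal polynomial of a constant are constants -/
theorem cst_coeff (D0 : Derivation ℤ K0 K0) (D : Derivation ℤ K K)
    (hD : ∀ x, D (algebraMap K0 K x) = algebraMap K0 K (D0 x)) (x : K) (hx : IsAlgebraic K0 x)
    (h : D x = 0) (i : ℕ) : D0 ((minpoly K0 x).coeff i) = 0 := by
  set p := minpoly K0 x with hp
  have hpm : p.Monic := minpoly.monic hx.isIntegral
  set n := p.natDegree with hn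
  set q : Polynomial K0 := ∑ j ∈ Finset.range n, Polynomial.monomial j (D0 (p.coeff j)) with hq
  have h1 : Polynomial.aeval x q = 0 := by
    have h2 : Polynomial.aeval x p = 0 := minpoly.aeval K0 x
    rw [Polynomial.aeval_eq_sum_range] at h2
    have h3 := congrArg D h2
    rw [map_sum, map_zero] at h3
    have h4 : ∀ j, D (p.coeff j • x ^ j) = algebraMap K0 K (D0 (p.coeff j)) * x ^ j := by
      intro j
      rw [Algebra.smul_def, D.leibniz, D.leibniz_pow, h, hD]
      simp only [smul_eq_mul, nsmul_eq_mul, mul_zero, zero_add]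
      ring
    rw [Finset.sum_congr rfl fun j _ => h4 j, ← hn, Finset.sum_range_succ] at h3
    have h5 : p.coeff n = 1 := hpm
    rw [h5, D0.map_one_eq_zero, map_zero, zero_mul, add_zero] at h3
    rw [hq, map_sum, ← h3]
    exact Finset.sum_congr rfl fun j _ => Polynomial.aeval_monomial _
  have h2 : q = 0 := by
    by_contra hq0
    have h3 := minpoly.degree_le_of_ne_zero K0 x hq0 h1
    rw [← hp, Polynomial.degree_eq_natDegree hpm.ne_zero, ← hn] at h3
    have h4 : q.degree < n := by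
      rw [hq]
      refine (Polynomial.degree_sum_le _ _).trans_lt
        ((Finset.sup_lt_iff (WithBot.bot_lt_coe n)).2 fun j hj => ?_)
      refine (Polynomial.degree_monomial_le _ _).trans_lt ?_
      exact WithBot.coe_lt_coe.2 (Finset.mem_range.1 hj)
    exact absurd h3 (not_le.2 h4)
  by_cases hi : i < n
  · have h3 := congrArg (fun r => Polynomial.coeff r i) h2
    simp only [hq, Polynomial.finsetSum_coeff, Polynomial.coeff_monomial,
      Polynomial.coeff_zero] at h3
    rw [Finset.sum_ite_eq', if_pos (Finset.mem_range.2 hi)] at h3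
    exact h3
  · by_cases hi' : i = n
    · rw [hi']
      have h5 : p.coeff n = 1 := hpm
      rw [h5, D0.map_one_eq_zero]
    · rw [Polynomial.coeff_eq_zero_of_natDegree_lt (by omega), map_zero]

variable (S0 : Subfield K0)

variable (K) in
/-- the compositum -/
def CM : IntermediateField (algebraicClosure S0 K) K :=
  IntermediateField.adjoin _ (Set.range (algebraMap K0 K))

variable {S0} in
theorem cm_prim {a : K} (ha : a ∈ CM K S0) : ∃ θ : K, IsAlgebraic S0 θ ∧ a ∈ K0⟮θ⟯ := by
  classical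
  have h1 : a ∈ IntermediateField.adjoin K0 ((algebraicClosure S0 K : Set K)) := by
    refine IntermediateField.adjoin_induction
      (p := fun x _ => x ∈ IntermediateField.adjoin K0 ((algebraicClosure S0 K : Set K)))
      _ ?_ ?_ ?_ ?_ ?_ ha
    · rintro _ ⟨x, rfl⟩
      exact IntermediateField.algebraMap_mem _ x
    · intro x
      exact IntermediateField.subset_adjoin K0 _ x.2
    · intro x y _ _ hx hy
      exact add_mem hx hy
    · intro x _ hx
      exact inv_mem hx
    · intro x y _ _ hx hy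
      exact mul_mem hx hy
  obtain ⟨T, hT, haT⟩ := IntermediateField.exists_finset_of_mem_adjoin h1
  have hTalg : ∀ x ∈ (T : Set K), IsAlgebraic S0 x := fun x hx => mem_algebraicClosure_iff.1 (hT hx)
  have hfin : FiniteDimensional S0 (IntermediateField.adjoin S0 (T : Set K)) :=
    IntermediateField.finiteDimensional_adjoin fun x hx => (hTalg x hx).isIntegral
  obtain ⟨θ, hθ⟩ := Field.exists_primitive_element S0 (IntermediateField.adjoin S0 (T : Set K))
  have hθalg : IsAlgebraic S0 (θ : K) := by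
    have : IsAlgebraic S0 θ := Algebra.IsAlgebraic.isAlgebraic θ
    exact this.algebraMap
  refine ⟨θ, hθalg, ?_⟩
  have key : ∀ y ∈ S0⟮θ⟯, (y : K) ∈ K0⟮(θ : K)⟯ := by
    intro y hy
    refine IntermediateField.adjoin_induction
      (p := fun (x : IntermediateField.adjoin S0 (T : Set K)) _ => (x : K) ∈ K0⟮(θ : K)⟯)
      _ ?_ ?_ ?_ ?_ ?_ hy
    · intro x hx
      rw [Set.mem_singleton_iff] at hx
      rw [hx]
      exact IntermediateField.mem_adjoin_simple_self K0 _
    · intro x
      have : ((algebraMap S0 (IntermediateField.adjoin S0 (T : Set K)) x : _) : K) =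
        algebraMap K0 K (x : K0) := rfl
      rw [this]
      exact IntermediateField.algebraMap_mem _ _
    · intro x y _ _ hx hy
      exact add_mem hx hy
    · intro x _ hx
      exact inv_mem hx
    · intro x y _ _ hx hy
      exact mul_mem hx hy
  refine (IntermediateField.adjoin_le_iff.2 ?_ : IntermediateField.adjoin K0 (T : Set K) ≤ _) haT
  intro t ht
  have h2 : (⟨t, IntermediateField.subset_adjoin S0 _ ht⟩ : IntermediateField.adjoin S0 (T : Set K)) ∈
      S0⟮θ⟯ := by
    rw [hθ]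
    exact IntermediateField.mem_top
  exact key _ h2

/-- the ring generated by `R0` and the algebraic closure of `S0` -/
def QQ (K : Type) [Field K] [Algebra K0 K] (S0 : Subfield K0) (R0 : Subring K0) : Subring K :=
  Subring.closure ({x | ∃ r ∈ R0, x = algebraMap K0 K r} ∪ {x | IsAlgebraic S0 x})

/-- the data in the ultraproduct -/
structure Pre {K0 : Type} [Field K0] (D0 : Derivation ℤ K0 K0) (S0 : Subfield K0) (z : K0)
    (R0 R1 : Subring K0) : Prop where
  closed : ∀ x : K0, IsAlgebraic S0 x → x ∈ S0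
  stab : ∀ s ∈ S0, D0 s ∈ S0
  cst : ∀ x, D0 x = 0 → x ∈ S0
  nz : z ∉ S0
  le0 : ∀ s ∈ S0, s ∈ R0
  le1 : ∀ s ∈ S0, s ∈ R1
  z0 : z ∈ R0
  z1 : z⁻¹ ∈ R1
  der0 : ∀ x ∈ R0, D0 x ∈ R0
  der1 : ∀ x ∈ R1, D0 x ∈ R1
  int0 : ∀ x, IsIntegral R0 x → x ∈ R0
  int1 : ∀ x, IsIntegral R1 x → x ∈ R1
  inter : ∀ x ∈ R0, x ∈ R1 → x ∈ S0

variable {S0}

/-- the derivation preserves the algebraic closure -/
theorem der_alg {D0 : Derivation ℤ K0 K0} {D : Derivation ℤ K K}
    (hD : ∀ x, D (algebraMap K0 K x) = algebraMap K0 K (D0 x)) (hS : ∀ s ∈ S0, D0 s ∈ S0)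
    {x : K} (hx : IsAlgebraic S0 x) : IsAlgebraic S0 (D x) := by
  have hc : CharZero K := charZero_of_injective_algebraMap (algebraMap K0 K).injective
  let A := algebraicClosure S0 K
  let F0 : Subfield A := (algebraMap S0 A).fieldRange
  have h0 : ∀ y ∈ F0, EDer (F := A) D (0 : Derivation A A A) 0 y ∈
      Set.range (algebraMap A K) := by
    rintro _ ⟨y, rfl⟩
    refine ⟨algebraMap S0 A ⟨D0 y, hS _ y.2⟩, ?_⟩
    rw [EDer_apply, mul_zero, sub_zero]
    exact (hD y).symm
  have hcA : CharZero A := charZero_of_injective_algebraMap (algebraMap S0 A).injective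
  have halg' : IsAlgebraic F0 (⟨x, mem_algebraicClosure_iff.2 hx⟩ : A) := by
    have h1 : IsAlgebraic S0 (⟨x, mem_algebraicClosure_iff.2 hx⟩ : A) :=
      Algebra.IsAlgebraic.isAlgebraic _
    obtain ⟨p, hp, he⟩ := h1
    refine ⟨p.map (algebraMap S0 A).rangeRestrictField, ?_, ?_⟩
    · rw [Ne, Polynomial.map_eq_zero]
      exact hp
    · rw [Polynomial.aeval_def, Polynomial.eval₂_map]
      exact he
  obtain ⟨y, hy⟩ := der_range _ F0 h0 ⟨x, mem_algebraicClosure_iff.2 hx⟩ halg'
  rw [EDer_apply, mul_zero, sub_zero] at hy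
  have h1 : D x = (y : K) := hy.symm
  rw [h1]
  exact mem_algebraicClosure_iff.1 y.2

omit [CharZero K0] in
theorem qq_int {R0 : Subring K0} (hle : ∀ s ∈ S0, s ∈ R0) {x : K} (hx : x ∈ QQ K S0 R0) :
    IsIntegral R0 x := by
  have h1 : QQ K S0 R0 ≤ (integralClosure R0 K).toSubring := by
    unfold QQ
    rw [Subring.closure_le]
    rintro x (⟨r, hr, rfl⟩ | hx)
    · exact isIntegral_algebraMap (R := R0) (A := K) (x := ⟨r, hr⟩)
    · have h2 : IsIntegral S0 x := (show IsAlgebraic S0 x from hx).isIntegral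
      let i0 : S0 →+* R0 := S0.subtype.codRestrict R0 (fun s => hle s s.2)
      obtain ⟨p, hp, he⟩ := h2
      refine ⟨p.map i0, hp.map i0, ?_⟩
      rw [Polynomial.eval₂_map]
      exact he
  exact h1 hx

theorem qq_der {D0 : Derivation ℤ K0 K0} {D : Derivation ℤ K K}
    (hD : ∀ x, D (algebraMap K0 K x) = algebraMap K0 K (D0 x)) (hS : ∀ s ∈ S0, D0 s ∈ S0)
    {R0 : Subring K0} (hR : ∀ x ∈ R0, D0 x ∈ R0) {x : K} (hx : x ∈ QQ K S0 R0) :
    D x ∈ QQ K S0 R0 := by
  have hsub : ∀ y ∈ ({x | ∃ r ∈ R0, x = algebraMap K0 K r} ∪ {x | IsAlgebraic S0 x} : Set K),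
      y ∈ QQ K S0 R0 ∧ D y ∈ QQ K S0 R0 := by
    rintro y (⟨r, hr, rfl⟩ | hy)
    · exact ⟨Subring.subset_closure (Or.inl ⟨r, hr, rfl⟩),
        Subring.subset_closure (Or.inl ⟨D0 r, hR r hr, hD r⟩)⟩
    · exact ⟨Subring.subset_closure (Or.inr hy), Subring.subset_closure (Or.inr (der_alg hD hS hy))⟩
  refine (Subring.closure_induction (p := fun x _ => x ∈ QQ K S0 R0 ∧ D x ∈ QQ K S0 R0)
    (fun y hy => hsub y hy) ?_ ?_ ?_ ?_ ?_ hx).2
  · rw [map_zero]
    exact ⟨Subring.zero_mem _, Subring.zero_mem _⟩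
  · rw [D.map_one_eq_zero]
    exact ⟨Subring.one_mem _, Subring.zero_mem _⟩
  · rintro x y _ _ ⟨h1, h2⟩ ⟨h3, h4⟩
    rw [map_add]
    exact ⟨Subring.add_mem _ h1 h3, Subring.add_mem _ h2 h4⟩
  · rintro x _ ⟨h1, h2⟩
    rw [map_neg]
    exact ⟨Subring.neg_mem _ h1, Subring.neg_mem _ h2⟩
  · rintro x y _ _ ⟨h1, h2⟩ ⟨h3, h4⟩
    rw [D.leibniz, smul_eq_mul, smul_eq_mul]
    exact ⟨Subring.mul_mem _ h1 h3,
      Subring.add_mem _ (Subring.mul_mem _ h1 h4) (Subring.mul_mem _ h3 h2)⟩

/-- an integral element of the compositum -/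
theorem qq_of_int {R0 : Subring K0} (hcl : ∀ x : K0, IsAlgebraic S0 x → x ∈ S0)
    (hle : ∀ s ∈ S0, s ∈ R0) (hint : ∀ x : K0, IsIntegral R0 x → x ∈ R0) {a : K}
    (ha : a ∈ CM K S0) (hai : IsIntegral R0 a) : a ∈ QQ K S0 R0 := by
  obtain ⟨θ, hθ, haθ⟩ := cm_prim ha
  obtain ⟨n, b, hb, rfl⟩ := expand S0 hcl R0 hle hint θ hθ a haθ hai
  have h1 : θ ∈ QQ K S0 R0 := Subring.subset_closure (Or.inr hθ)
  refine Subring.sum_mem _ fun j _ => Subring.mul_mem _
    (Subring.subset_closure (Or.inl ⟨b j, hb j, rfl⟩)) (Subring.pow_mem _ h1 _)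

omit [CharZero K0] in
/-- transitivity -/
theorem int_R0 {R0 : Subring K0} (hle : ∀ s ∈ S0, s ∈ R0) {t : K0} (ht : t ∈ R0) {a : K}
    (h : IsIntegral (Algebra.adjoin (algebraicClosure S0 K) {algebraMap K0 K t}) a) :
    IsIntegral R0 a := by
  let C := integralClosure R0 K
  have hmem : ∀ x ∈ Algebra.adjoin (algebraicClosure S0 K) {algebraMap K0 K t}, x ∈ C := by
    intro x hx
    induction hx using Algebra.adjoin_induction with
    | mem y hy =>
      rw [Set.mem_singleton_iff] at hy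
      rw [hy]
      exact isIntegral_algebraMap (R := R0) (A := K) (x := ⟨t, ht⟩)
    | algebraMap r =>
      have h2 : IsAlgebraic S0 (r : K) := mem_algebraicClosure_iff.1 r.2
      exact qq_int hle (Subring.subset_closure (Or.inr h2))
    | add x y _ _ hx hy => exact C.add_mem hx hy
    | mul x y _ _ hx hy => exact C.mul_mem hx hy
  let i : Algebra.adjoin (algebraicClosure S0 K) {algebraMap K0 K t} →+* C :=
    (algebraMap _ K).codRestrict C (fun x => hmem x x.2)
  have h1 : IsIntegral C a := by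
    obtain ⟨p, hp, he⟩ := h
    refine ⟨p.map i, hp.map i, ?_⟩
    rw [Polynomial.eval₂_map]
    exact he
  exact isIntegral_trans (R := R0) (A := C) a h1

theorem Pre.sys {D0 : Derivation ℤ K0 K0} {z : K0} {R0 R1 : Subring K0}
    (h : Pre D0 S0 z R0 R1) {D : Derivation ℤ K K} [Algebra.IsAlgebraic K0 K]
    (hD : ∀ x, D (algebraMap K0 K x) = algebraMap K0 K (D0 x)) :
    Sys D (CM K S0) (algebraMap K0 K z) (QQ K S0 R0) (QQ K S0 R1) where
  stab := fun s => ⟨⟨D s, mem_algebraicClosure_iff.2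
    (der_alg hD h.stab (mem_algebraicClosure_iff.1 s.2))⟩, rfl⟩
  cst := by
    intro x hx
    have h1 : IsAlgebraic K0 x := Algebra.IsAlgebraic.isAlgebraic x
    have h2 : ∀ i, (minpoly K0 x).coeff i ∈ S0 := fun i =>
      h.cst _ (cst_coeff D0 D hD x h1 hx i)
    have h3 : IsAlgebraic S0 x := by
      have h4 : minpoly K0 x ∈ Polynomial.lifts (algebraMap S0 K0) := by
        rw [Polynomial.lifts_iff_coeff_lifts]
        exact fun i => ⟨⟨_, h2 i⟩, rfl⟩
      obtain ⟨q, hq⟩ := (Polynomial.mem_lifts _).1 h4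
      refine ⟨q, ?_, ?_⟩
      · rintro rfl
        rw [Polynomial.map_zero] at hq
        exact minpoly.ne_zero h1.isIntegral hq.symm
      · have h5 := minpoly.aeval K0 x
        rw [← hq, Polynomial.aeval_map_algebraMap] at h5
        exact h5
    exact ⟨⟨x, mem_algebraicClosure_iff.2 h3⟩, rfl⟩
  tr := by
    intro hc
    apply h.nz
    apply h.closed
    have h1 : IsAlgebraic S0 (algebraMap K0 K z) := hc.restrictScalars S0
    exact (isAlgebraic_algebraMap_iff (algebraMap K0 K).injective).1 h1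
  der := by
    intro x hx
    have hSK : ∀ y : K, IsAlgebraic S0 y → y ∈ CM K S0 := fun y hy =>
      (CM K S0).algebraMap_mem ⟨y, mem_algebraicClosure_iff.2 hy⟩
    refine (IntermediateField.adjoin_induction (p := fun x _ => x ∈ CM K S0 ∧ D x ∈ CM K S0)
      _ ?_ ?_ ?_ ?_ ?_ hx).2
    · rintro _ ⟨x, rfl⟩
      rw [hD]
      exact ⟨IntermediateField.subset_adjoin _ _ ⟨_, rfl⟩,
        IntermediateField.subset_adjoin _ _ ⟨_, rfl⟩⟩
    · intro x
      have h1 := mem_algebraicClosure_iff.1 x.2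
      exact ⟨hSK _ h1, hSK _ (der_alg hD h.stab h1)⟩
    · rintro x y _ _ ⟨h1, h2⟩ ⟨h3, h4⟩
      rw [map_add]
      exact ⟨add_mem h1 h3, add_mem h2 h4⟩
    · rintro x _ ⟨h1, h2⟩
      rw [D.leibniz_inv, smul_eq_mul]
      exact ⟨inv_mem h1, mul_mem (neg_mem (pow_mem (inv_mem h1) 2)) h2⟩
    · rintro x y _ _ ⟨h1, h2⟩ ⟨h3, h4⟩
      rw [D.leibniz, smul_eq_mul, smul_eq_mul]
      exact ⟨mul_mem h1 h3, add_mem (mul_mem h1 h4) (mul_mem h3 h2)⟩
  int0 := by
    intro a ha hai
    have h1 := qq_of_int h.closed h.le0 h.int0 ha (int_R0 h.le0 h.z0 hai)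
    exact ⟨h1, qq_der hD h.stab h.der0 h1⟩
  int1 := by
    intro a ha hai
    rw [← map_inv₀] at hai
    have h1 := qq_of_int h.closed h.le1 h.int1 ha (int_R0 h.le1 h.z1 hai)
    exact ⟨h1, qq_der hD h.stab h.der1 h1⟩
  inter := by
    intro x hx0 hx1
    have h0 := qq_int h.le0 hx0
    have h1 := qq_int h.le1 hx1
    have h2 : IsAlgebraic K0 x := Algebra.IsAlgebraic.isAlgebraic x
    have hc : ∀ (R : Subring K0) (hR : ∀ y : K0, IsIntegral R y → y ∈ R), IsIntegral R x →
        ∀ i, (minpoly K0 x).coeff i ∈ R := by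
      intro R hR hx i
      obtain ⟨p, hp, he⟩ := hx
      apply hR
      refine Polynomial.isIntegral_coeff_of_dvd p _ hp (minpoly.monic h2.isIntegral) ?_ i
      apply minpoly.dvd
      rw [Polynomial.aeval_map_algebraMap]
      exact he
    have h3 : ∀ i, (minpoly K0 x).coeff i ∈ S0 := fun i =>
      h.inter _ (hc R0 h.int0 h0 i) (hc R1 h.int1 h1 i)
    have h4 : IsAlgebraic S0 x := by
      have h4 : minpoly K0 x ∈ Polynomial.lifts (algebraMap S0 K0) := by
        rw [Polynomial.lifts_iff_coeff_lifts]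
        exact fun i => ⟨⟨_, h3 i⟩, rfl⟩
      obtain ⟨q, hq⟩ := (Polynomial.mem_lifts _).1 h4
      refine ⟨q, ?_, ?_⟩
      · rintro rfl
        rw [Polynomial.map_zero] at hq
        exact minpoly.ne_zero h2.isIntegral hq.symm
      · have h5 := minpoly.aeval K0 x
        rw [← hq, Polynomial.aeval_map_algebraMap] at h5
        exact h5
    exact ⟨⟨x, mem_algebraicClosure_iff.2 h4⟩, rfl⟩

/-- **The theorem on the data in the ultraproduct.** -/
theorem Pre.main {D0 : Derivation ℤ K0 K0} {z : K0} {R0 R1 : Subring K0}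
    (h : Pre D0 S0 z R0 R1) [Algebra.IsAlgebraic K0 K] [IsAlgClosed K]
    (F : IntermediateField (algebraicClosure S0 K) K) (hF : F ≤ CM K S0)
    [IsFF (algebraicClosure S0 K) F] (hz : algebraMap K0 K z ∈ F) :
    canDeg (algebraicClosure S0 K) F ≤ 0 := by
  have h0 : IsAlgClosed (algebraicClosure S0 K) :=
    (IsAlgClosed.algebraicClosure_eq_bot_iff (algebraicClosure S0 K) K).1
      (algebraicClosure.algebraicClosure_eq_bot S0 K)
  have h1 : CharZero (algebraicClosure S0 K) :=
    charZero_of_injective_algebraMap (algebraMap S0 (algebraicClosure S0 K)).injective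
  obtain ⟨D, hD⟩ := exists_der_ext (K := K) D0
  exact (h.sys hD).main F hF hz

end Pool.Agent.H916
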