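import Pool.Graph.R_seed8.W603.PV.Hgt
import Pool.Graph.R_seed8.W603.LV.Ex
import Pool.Graph.R_seed8.W602.GT.SpDefs

/-!
# Families of projective varieties

Let `k` be an algebraically closed field of characteristic zero. A smooth projective curve over `k` is
given by its function field `K`: `IsFF k K` says that `K` is a finitely generated field of
transcendence degree one over `k`, and `canDeg k K` is `2 g - 2`. A morphism from the curve to a
closed subset of `ℙ^N` is a point `x : Fin (N + 1) → K` of it in homogeneous coordinates with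
values in `K`, and `pht k x`, minus the sum over all places of the minimal order of the coordinates, is
the degree of the pull-back of `O(1)`.
-/

set_option autoImplicit false
set_option linter.overlappingInstances false
set_option linter.unusedSectionVars false

open FF MvPolynomial Pool.Agent.W603.LV Pool.Agent.W603.PV
open Pool.Agent.W602.GT (coords)

namespace Pool.Agent.H916

section defs

/-- The genus of the smooth projective curve with the function field `K`. -/
noncomputable def genus (k K : Type) [Field k] [Field K] [Algebra k K] : ℝ :=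
  ((canDeg k K : ℝ) + 2) / 2

/-- A closed subset of `ℙ^N`: the set of the zeros of a set of forms. -/
structure PSet (k : Type) [Field k] (N : ℕ) where
  eqs : Set (MvPolynomial (Fin (N + 1)) k)
  hom : ∀ H ∈ eqs, ∃ d, H.IsHomogeneous d

/-- A morphism `f : X → Y` of projective schemes, as the graph in `ℙ^N × ℙ^M`: `Y ⊂ ℙ^N` is the
closed subset `base`, and `X` is the closed subset of `Y × ℙ^M` with the bihomogeneous equations `eqs`
(the variables `X (inl i)` and `X (inr j)` are the coordinates of `ℙ^N` and `ℙ^M`), and `f` is the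
projection to `Y`. -/
structure Family (k : Type) [Field k] (N M : ℕ) where
  base : PSet k N
  eqs : Set (MvPolynomial (Fin (N + 1) ⊕ Fin (M + 1)) k)
  bihom : ∀ H ∈ eqs, ∃ d e : ℕ,
    IsWeightedHomogeneous (Sum.elim (fun _ => 1) (fun _ => 0) : Fin (N + 1) ⊕ Fin (M + 1) → ℕ) H d ∧
    IsWeightedHomogeneous (Sum.elim (fun _ => 0) (fun _ => 1) : Fin (N + 1) ⊕ Fin (M + 1) → ℕ) H e

variable {k : Type} [Field k] {N M : ℕ}

/-- `x` are the homogeneous coordinates of a point of `X` with values in the field `K`. -/
def PSet.Pt (X : PSet k N) {K : Type} [Field K] [Algebra k K] (x : Fin (N + 1) → K) : Prop :=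
  (∃ j, x j ≠ 0) ∧ ∀ H ∈ X.eqs, aeval x H = 0

/-- `X` is algebraically hyperbolic: `deg φ^* O(1) ≤ α g(C)` for all morphisms `φ : C → X`. -/
def PSet.AlgHyp (X : PSet k N) : Prop :=
  ∃ α : ℝ, ∀ (K : Type) [Field K] [Algebra k K] [IsFF k K] (x : Fin (N + 1) → K), X.Pt x →
    (pht k x : ℝ) ≤ α * genus k K

/-- The dimension of `X` is at most `d`: the fields generated by the ratios of the coordinates of the
points of `X` (the function fields of the irreducible closed subsets) have transcendence degree at
most `d`. -/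
def PSet.DimLE (X : PSet k N) (d : ℕ) : Prop :=
  ∀ (K : Type) [Field K] [Algebra k K] (x : Fin (N + 1) → K), X.Pt x →
    Algebra.trdeg k (coords k x) ≤ d

/-- `(y, x)` are the homogeneous coordinates of a point of `X` with values in `K`. -/
def Family.Pt (X : Family k N M) {K : Type} [Field K] [Algebra k K] (y : Fin (N + 1) → K)
    (x : Fin (M + 1) → K) : Prop :=
  X.base.Pt y ∧ (∃ j, x j ≠ 0) ∧ ∀ H ∈ X.eqs, aeval (Sum.elim y x) H = 0

theorem fibre_hom {H : MvPolynomial (Fin (N + 1) ⊕ Fin (M + 1)) k} {e : ℕ}
    (h : IsWeightedHomogeneous (Sum.elim (fun _ => 0) (fun _ => 1) :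
      Fin (N + 1) ⊕ Fin (M + 1) → ℕ) H e) (c : Fin (N + 1) → k) :
    (aeval (Sum.elim (fun l => C (c l)) X : Fin (N + 1) ⊕ Fin (M + 1) →
      MvPolynomial (Fin (M + 1)) k) H).IsHomogeneous e := by
  classical
  rw [aeval_def, eval₂_eq']
  refine IsHomogeneous.sum _ _ _ fun s hs => ?_
  have h1 := h (mem_support_iff.1 hs)
  rw [← zero_add e]
  refine (isHomogeneous_C _ _).mul ?_
  rw [Fintype.prod_sum_type]
  have h2 : e = 0 + ∑ l : Fin (M + 1), s (Sum.inr l) := by
    rw [← h1, Finsupp.weight_apply, Finsupp.sum_fintype _ _ (by simp), Fintype.sum_sum_type]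
    simp
  rw [h2]
  refine IsHomogeneous.mul ?_ ?_
  · have h3 : ∏ x : Fin (N + 1), (Sum.elim (fun l => C (c l)) X : Fin (N + 1) ⊕ Fin (M + 1) →
        MvPolynomial (Fin (M + 1)) k) (Sum.inl x) ^ s (Sum.inl x) =
        C (∏ x : Fin (N + 1), c x ^ s (Sum.inl x)) := by
      rw [map_prod]
      simp
    rw [h3]
    exact isHomogeneous_C _ _
  · refine IsHomogeneous.prod _ _ _ fun l _ => ?_
    simpa using isHomogeneous_X_pow (R := k) l (s (Sum.inr l))

/-- The fibre of `X` over the point of `Y` with the homogeneous coordinates `c`. -/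
noncomputable def Family.fibre (X : Family k N M) (c : Fin (N + 1) → k) : PSet k M where
  eqs := (fun H => aeval (Sum.elim (fun l => C (c l)) MvPolynomial.X :
    Fin (N + 1) ⊕ Fin (M + 1) → MvPolynomial (Fin (M + 1)) k) H) '' X.eqs
  hom := by
    rintro _ ⟨H, hH, rfl⟩
    obtain ⟨d, e, -, h⟩ := X.bihom H hH
    exact ⟨e, fibre_hom h c⟩

/-- `X` is algebraically hyperbolic: `deg φ^* O(1, 1) ≤ α g(C)` for all morphisms `φ : C → X`. -/
def Family.AlgHyp (X : Family k N M) : Prop :=
  ∃ α : ℝ, ∀ (K : Type) [Field K] [Algebra k K] [IsFF k K] (y : Fin (N + 1) → K)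
    (x : Fin (M + 1) → K), X.Pt y x → (pht k y + pht k x : ℝ) ≤ α * genus k K

/-- For every curve `C` the degrees of the morphisms `φ : C → X` are bounded. -/
def Family.Bounded (X : Family k N M) : Prop :=
  ∀ (K : Type) [Field K] [Algebra k K] [IsFF k K], ∃ B : ℝ, ∀ (y : Fin (N + 1) → K)
    (x : Fin (M + 1) → K), X.Pt y x → (pht k y + pht k x : ℝ) ≤ B

/-- the coordinates `x` are proportional to constants -/
def IsConst (k : Type) [Field k] {K : Type} [Field K] [Algebra k K] {n : ℕ}
    (x : Fin (n + 1) → K) : Prop :=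
  ∀ i j, x j ≠ 0 → ∃ c : k, x i = algebraMap k K c * x j

/-- Every morphism from a curve of genus at most one to `X` is constant. -/
def PSet.NoLowGenus (X : PSet k N) : Prop :=
  ∀ (K : Type) [Field K] [Algebra k K] [IsFF k K], genus k K ≤ 1 → ∀ x : Fin (N + 1) → K,
    X.Pt x → IsConst k x

/-- Every morphism from a curve of genus at most one to `X` is constant. -/
def Family.NoLowGenus (X : Family k N M) : Prop :=
  ∀ (K : Type) [Field K] [Algebra k K] [IsFF k K], genus k K ≤ 1 → ∀ (y : Fin (N + 1) → K)
    (x : Fin (M + 1) → K), X.Pt y x → IsConst k y ∧ IsConst k x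

/-- The genus of (the smooth projective model of) every irreducible curve in `X` is greater than
one. -/
def Family.CurvesGeneral (X : Family k N M) : Prop :=
  ∀ (K : Type) [Field K] [Algebra k K] [IsFF k K] (y : Fin (N + 1) → K)
    (x : Fin (M + 1) → K), X.Pt y x → coords k y ⊔ coords k x = ⊤ → 1 < genus k K

end defs

end Pool.Agent.H916
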