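import Pool.Agent.H916.Endo
import Pool.Agent.H916.FDefs

/-! Families of projective varieties: the fibration property in relative dimension one. -/

set_option autoImplicit false
set_option linter.overlappingInstances false
set_option linter.unusedSectionVars false

open FF MvPolynomial Pool.Agent.W603.LV Pool.Agent.W603.PV Pool.Agent.K4H62.EL
open Pool.Agent.W602.GT (coords)

namespace Pool.Agent.H916

section basic

variable {k : Type} [Field k] {N M : ℕ}

theorem fibre_pt {F : Family k N M} {c : Fin (N + 1) → k} {K : Type} [Field K] [Algebra k K]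
    {x : Fin (M + 1) → K} : (F.fibre c).Pt x ↔ (∃ j, x j ≠ 0) ∧
      ∀ H ∈ F.eqs, aeval (Sum.elim (fun l => algebraMap k K (c l)) x) H = 0 := by
  unfold PSet.Pt
  refine and_congr Iff.rfl ?_
  have h1 : ∀ H : MvPolynomial (Fin (N + 1) ⊕ Fin (M + 1)) k,
      aeval x (aeval (Sum.elim (fun l => C (c l)) X : Fin (N + 1) ⊕ Fin (M + 1) →
        MvPolynomial (Fin (M + 1)) k) H) =
      aeval (Sum.elim (fun l => algebraMap k K (c l)) x) H := by
    intro H
    rw [comp_aeval_apply]
    congr 2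
    funext l
    rcases l with l | l
    · rw [Sum.elim_inl, Sum.elim_inl, aeval_C]
    · rw [Sum.elim_inr, Sum.elim_inr, aeval_X]
  constructor
  · intro h H hH
    rw [← h1]
    exact h _ ⟨H, hH, rfl⟩
  · rintro h _ ⟨H, hH, rfl⟩
    change aeval x (aeval _ H) = 0
    rw [h1]
    exact h H hH

theorem pt_algebraMap {X : PSet k N} {c : Fin (N + 1) → k} {K : Type} [Field K] [Algebra k K] :
    X.Pt (fun l => algebraMap k K (c l)) ↔ X.Pt c := by
  unfold PSet.Pt
  have h1 : ∀ H : MvPolynomial (Fin (N + 1)) k, aeval (fun l => algebraMap k K (c l)) H = 0 ↔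
      aeval c H = 0 := by
    intro H
    have h2 : aeval (fun l => algebraMap k K (c l)) H = algebraMap k K (aeval c H) :=
      aeval_algebraMap_apply K c H
    rw [h2, map_eq_zero]
  refine and_congr ?_ ?_
  · simp
  · exact forall₂_congr fun H _ => h1 H

theorem pt_fibre {F : Family k N M} {c : Fin (N + 1) → k} {K : Type} [Field K] [Algebra k K]
    {x : Fin (M + 1) → K} (hc : F.base.Pt c) :
    F.Pt (fun l => algebraMap k K (c l)) x ↔ (F.fibre c).Pt x := by
  rw [fibre_pt]
  unfold Family.Pt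
  rw [pt_algebraMap]
  exact ⟨fun h => h.2, fun h => ⟨hc, h⟩⟩

theorem isConst_alg {K : Type} [Field K] [Algebra k K] (c : Fin (N + 1) → k) :
    IsConst k (fun l => algebraMap k K (c l)) := by
  intro i j hj
  refine ⟨c i / c j, ?_⟩
  rw [map_div₀, div_mul_cancel₀ _ hj]

variable [IsAlgClosed k] [CharZero k]

theorem pht_nonneg' {K : Type} [Field K] [Algebra k K] [IsFF k K] {x : Fin (N + 1) → K}
    (hx : ∃ j, x j ≠ 0) : 0 ≤ pht k x := by
  obtain ⟨j, hj⟩ := hx
  exact (hgt_nonneg _).trans (Pool.Agent.W603.CX.hgt_le_pht (k := k) x hj hj)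

theorem pht_const' {K : Type} [Field K] [Algebra k K] [IsFF k K] {x : Fin (N + 1) → K}
    (hx : ∃ j, x j ≠ 0) (h : IsConst k x) : pht k x = 0 := by
  obtain ⟨j, hj⟩ := hx
  refine le_antisymm ?_ (pht_nonneg' ⟨j, hj⟩)
  refine (pht_le (k := k) x hj).trans (Finset.sum_nonpos fun l _ => ?_)
  obtain ⟨c, hc⟩ := h l j hj
  rw [hc, mul_div_cancel_right₀ _ hj, hgt_algebraic (isAlgebraic_algebraMap c)]

theorem genus_nonneg {K : Type} [Field K] [Algebra k K] [IsFF k K] : 0 ≤ genus k K := by
  unfold genus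
  have h1 : (-2 : ℤ) ≤ canDeg k K := canDeg_ge_neg_two
  have h2 : (-2 : ℝ) ≤ canDeg k K := by exact_mod_cast h1
  linarith

theorem unfold_genus {K : Type} [Field K] [Algebra k K] :
    genus k K = ((canDeg k K : ℝ) + 2) / 2 := rfl

theorem genus_le_one {K : Type} [Field K] [Algebra k K] : genus k K ≤ 1 ↔ canDeg k K ≤ 0 := by
  unfold genus
  constructor
  · intro h
    have h1 : (canDeg k K : ℝ) ≤ 0 := by linarith
    exact_mod_cast h1
  · intro h
    have h1 : (canDeg k K : ℝ) ≤ 0 := by exact_mod_cast h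
    linarith

/-- boundedness implies that the maps from the curves of genus at most one are constant -/
theorem const_of_bounded {K : Type} [Field K] [Algebra k K] [IsFF k K] (hK : genus k K ≤ 1)
    {n : ℕ} {f : Fin (n + 1) → K} {B : ℤ}
    (hB : ∀ (σ : K →ₐ[k] K), pht k (fun l => σ (f l)) ≤ B) : IsConst k f := by
  obtain ⟨σ, d, hd, h⟩ := exists_endo (genus_le_one.1 hK)
  intro i j hj
  refine const_of_iterates σ hd h (B := B) (fun t => ?_) i hj
  have h1 : ∃ τ : K →ₐ[k] K, ∀ g, τ g = (σ : K → K)^[t] g := by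
    induction t with
    | zero => exact ⟨AlgHom.id k K, fun g => rfl⟩
    | succ t ih =>
      obtain ⟨τ, hτ⟩ := ih
      refine ⟨σ.comp τ, fun g => ?_⟩
      rw [Function.iterate_succ_apply', AlgHom.comp_apply, hτ]
  obtain ⟨τ, hτ⟩ := h1
  have h2 := hB τ
  rwa [funext fun l => hτ (f l)] at h2

theorem pt_map {X : PSet k N} {K K' : Type} [Field K] [Algebra k K] [Field K'] [Algebra k K']
    (σ : K →ₐ[k] K') {x : Fin (N + 1) → K} (hx : X.Pt x) : X.Pt fun l => σ (x l) := by
  obtain ⟨⟨j, hj⟩, h⟩ := hx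
  refine ⟨⟨j, (map_ne_zero σ).2 hj⟩, fun H hH => ?_⟩
  rw [← comp_aeval_apply, h H hH, map_zero]

theorem fam_map {X : Family k N M} {K K' : Type} [Field K] [Algebra k K] [Field K'] [Algebra k K']
    (σ : K →ₐ[k] K') {y : Fin (N + 1) → K} {x : Fin (M + 1) → K} (h : X.Pt y x) :
    X.Pt (fun l => σ (y l)) fun l => σ (x l) := by
  obtain ⟨h1, ⟨j, hj⟩, h⟩ := h
  refine ⟨pt_map σ h1, ⟨j, (map_ne_zero σ).2 hj⟩, fun H hH => ?_⟩
  have h2 : Sum.elim (fun l => σ (y l)) (fun l => σ (x l)) = fun l => σ (Sum.elim y x l) := by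
    funext l
    rcases l with l | l <;> rfl
  rw [h2, ← comp_aeval_apply, h H hH, map_zero]

/-- fibres which are algebraically hyperbolic -/
theorem PSet.AlgHyp.const {X : PSet k N} (h : X.AlgHyp) {K : Type} [Field K] [Algebra k K]
    [IsFF k K] (hK : genus k K ≤ 1) {x : Fin (N + 1) → K} (hx : X.Pt x) : IsConst k x := by
  obtain ⟨α, hα⟩ := h
  refine const_of_bounded hK (B := ⌈α * genus k K⌉) fun σ => ?_
  have h1 := hα K (fun l => σ (x l)) (pt_map σ hx)
  have h2 := h1.trans (Int.le_ceil _)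
  exact_mod_cast h2

theorem Family.Bounded.noLow {X : Family k N M} (h : X.Bounded) : X.NoLowGenus := by
  intro K _ _ _ hK y x hyx
  obtain ⟨B, hB⟩ := h K
  constructor
  · refine const_of_bounded hK (B := ⌈B⌉) fun σ => ?_
    have h1 := hB _ _ (fam_map σ hyx)
    have h2 : 0 ≤ pht k (fun l => σ (x l)) := pht_nonneg' (fam_map σ hyx).2.1
    have h3 : (0 : ℝ) ≤ pht k (fun l => σ (x l)) := by exact_mod_cast h2
    have h4 : (pht k (fun l => σ (y l)) : ℝ) ≤ ⌈B⌉ := by
      have := Int.le_ceil B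
      linarith
    exact_mod_cast h4
  · refine const_of_bounded hK (B := ⌈B⌉) fun σ => ?_
    have h1 := hB _ _ (fam_map σ hyx)
    have h2 : 0 ≤ pht k (fun l => σ (y l)) := pht_nonneg' (fam_map σ hyx).1.1
    have h3 : (0 : ℝ) ≤ pht k (fun l => σ (y l)) := by exact_mod_cast h2
    have h4 : (pht k (fun l => σ (x l)) : ℝ) ≤ ⌈B⌉ := by
      have := Int.le_ceil B
      linarith
    exact_mod_cast h4

theorem Family.AlgHyp.bounded {X : Family k N M} (h : X.AlgHyp) : X.Bounded := by
  obtain ⟨α, hα⟩ := h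
  intro K _ _ _
  exact ⟨α * genus k K, fun y x hyx => hα K y x hyx⟩

/-- the dimension -/
theorem dim_two {X : PSet k N} (h : X.DimLE 1) {K : Type} [Field K] [Algebra k K]
    {x : Fin (N + 1) → K} (hx : X.Pt x) {j : Fin (N + 1)} (hj : x j = 1) (i i' : Fin (N + 1)) :
    ¬ AlgebraicIndependent k ![x i, x i'] := by
  intro hind
  have h1 := h K x hx
  have hmem : ∀ i, x i ∈ coords k x := fun i => by
    unfold Pool.Agent.W602.GT.coords
    refine IntermediateField.subset_adjoin _ _ ⟨i, j, by rw [hj]; exact one_ne_zero, ?_⟩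
    rw [hj, div_one]
  have h2 : AlgebraicIndependent k (![⟨x i, hmem i⟩, ⟨x i', hmem i'⟩] : Fin 2 → coords k x) := by
    refine AlgebraicIndependent.of_comp (coords k x).val ?_
    convert hind using 1
    funext l
    fin_cases l <;> rfl
  have h3 := h2.cardinalMk_le_trdeg
  rw [Cardinal.mk_fin] at h3
  have h4 := h3.trans h1
  norm_cast at h4

/-- **The relative height inequality for families of projective varieties.** -/
theorem core (X : Family k N M) (T : Set (Fin (N + 1) → k)) (hT : T.Finite)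
    (hlow : ∀ c, X.base.Pt c → ∀ (K : Type) [Field K] [Algebra k K] [IsFF k K], genus k K ≤ 1 →
      ∀ x : Fin (M + 1) → K, (X.fibre c).Pt x → IsConst k x)
    (hdim : ∀ c, X.base.Pt c → (∀ t ∈ T, ∀ a : k, c ≠ fun l => a * t l) → (X.fibre c).DimLE 1)
    (hexc : ∀ c, X.base.Pt c → (∃ t ∈ T, ∃ a : k, c = fun l => a * t l) → (X.fibre c).AlgHyp) :
    ∃ A : ℕ, ∀ (E : Type) [Field E] [Algebra k E] [IsFF k E] (y : Fin (N + 1) → E)
      (x : Fin (M + 1) → E), X.Pt y x → pht k x ≤ A * (max (canDeg k E) 0 + 1 + pht k y) := by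
  classical
  obtain ⟨A, hA⟩ := rel_ineq (Φ := X.base.eqs) (Ψ := X.eqs) X.base.hom X.bihom (fun i0 j0 => by
    refine ⟨{c | c i0 = 1 ∧ ∃ t ∈ T, ∃ a : k, c = fun l => a * t l}, ?_, ?_, ?_, ?_, ?_⟩
    · intro H hH
      exact BiForm.hom2 (X.bihom H hH)
    · refine (hT.image fun t => fun l => t l / t i0).subset ?_
      rintro c ⟨hc, t, ht, a, rfl⟩
      refine ⟨t, ht, ?_⟩
      funext l
      have h1 : a * t i0 = 1 := hc
      have h2 : t i0 ≠ 0 := right_ne_zero_of_mul (h1.trans_ne one_ne_zero)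
      change t l / t i0 = a * t l
      rw [div_eq_iff h2]
      linear_combination -(t l) * h1
    · intro c hc hΦ G _ _ _ O a b U V hW x hx hΨ i
      have hcp : X.base.Pt c := ⟨⟨i0, by rw [hc]; exact one_ne_zero⟩, hΦ⟩
      exact hlow c hcp G (genus_le_one.2 (weier_nonpos hW)) x (fibre_pt.2 ⟨⟨j0, hx⟩, hΨ⟩) i j0 hx
    · intro c hcT hc hΦ K _ _ x hx hΨ i i'
      have hcp : X.base.Pt c := ⟨⟨i0, by rw [hc]; exact one_ne_zero⟩, hΦ⟩
      refine dim_two (hdim c hcp ?_) (fibre_pt.2 ⟨⟨j0, by rw [hx]; exact one_ne_zero⟩, hΨ⟩) hx i i'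
      intro t ht a h0
      exact hcT ⟨hc, t, ht, a, h0⟩
    · rintro c ⟨hc, t, ht, a, hcta⟩ - hΦ
      have hcp : X.base.Pt c := ⟨⟨i0, by rw [hc]; exact one_ne_zero⟩, hΦ⟩
      obtain ⟨α, hα⟩ := hexc c hcp ⟨t, ht, a, hcta⟩
      refine ⟨(M + 1) * ⌈|α|⌉₊, fun E _ _ _ x hx hΨ => ?_⟩
      have hxp : (X.fibre c).Pt x := fibre_pt.2 ⟨⟨j0, by rw [hx]; exact one_ne_zero⟩, hΨ⟩
      have h1 := hα E x hxp
      have hx0 : x j0 ≠ 0 := by rw [hx]; exact one_ne_zero
      have h2 : (pht k x : ℝ) ≤ ⌈|α|⌉₊ * (max (canDeg k E) 0 + 1) := by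
        refine h1.trans ?_
        have e1 : α * genus k E ≤ ⌈|α|⌉₊ * genus k E :=
          mul_le_mul_of_nonneg_right ((le_abs_self α).trans (Nat.le_ceil _)) genus_nonneg
        refine e1.trans (mul_le_mul_of_nonneg_left ?_ (Nat.cast_nonneg _))
        unfold genus
        have e2 : (canDeg k E : ℝ) ≤ max (canDeg k E : ℝ) 0 := le_max_left _ _
        have e3 : (0 : ℝ) ≤ max (canDeg k E : ℝ) 0 := le_max_right _ _
        push_cast
        linarith
      have h2' : pht k x ≤ ⌈|α|⌉₊ * (max (canDeg k E) 0 + 1) := by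
        exact_mod_cast h2
      have h3 : ∀ l, hgt k (x l) ≤ pht k x := by
        intro l
        by_cases hl : x l = 0
        · rw [hl, hgt_zero]
          exact pht_nonneg' hxp.1
        · have h4 := Pool.Agent.W603.CX.hgt_le_pht (k := k) x hl hx0
          rwa [hx, div_one] at h4
      refine (Finset.sum_le_sum fun l _ => h3 l).trans ?_
      rw [Finset.sum_const, Finset.card_univ, Fintype.card_fin, nsmul_eq_mul]
      push_cast
      rw [mul_assoc]
      exact mul_le_mul_of_nonneg_left h2' (by positivity))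
  exact ⟨A, fun E _ _ _ y x h => hA E y x h.1.1 h.2.1 h.1.2 h.2.2⟩

theorem mem_coords {K : Type} [Field K] [Algebra k K] (x : Fin (N + 1) → K) (i : Fin (N + 1))
    {j : Fin (N + 1)} (hj : x j ≠ 0) : x i / x j ∈ coords k x := by
  unfold Pool.Agent.W602.GT.coords
  exact IntermediateField.subset_adjoin _ _ ⟨i, j, hj, rfl⟩

omit [CharZero k] in
theorem alg_const {K : Type} [Field K] [Algebra k K] {x : K} (hx : IsAlgebraic k x) :
    ∃ c : k, x = algebraMap k K c := by
  have h1 := IsAlgClosed.degree_eq_one_of_irreducible k (minpoly.irreducible hx.isIntegral)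
  obtain ⟨c, hc⟩ := minpoly.mem_range_of_degree_eq_one k x h1
  exact ⟨c, hc.symm⟩

theorem coords_bot {K : Type} [Field K] [Algebra k K] {x : Fin (N + 1) → K} (h : IsConst k x) :
    coords k x = ⊥ := by
  rw [eq_bot_iff]
  unfold Pool.Agent.W602.GT.coords
  rw [IntermediateField.adjoin_le_iff]
  rintro _ ⟨i, j, hj, rfl⟩
  obtain ⟨c, hc⟩ := h i j hj
  rw [hc, mul_div_cancel_right₀ _ hj]
  exact IntermediateField.algebraMap_mem _ c

theorem Family.NoLowGenus.curves {X : Family k N M} (h : X.NoLowGenus) : X.CurvesGeneral := by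
  intro K _ _ _ y x hyx htop
  by_contra hcon
  push Not at hcon
  obtain ⟨h1, h2⟩ := h K hcon y x hyx
  rw [coords_bot h1, coords_bot h2, sup_idem] at htop
  obtain ⟨t, ht⟩ := IsFF.exists_transcendental (k := k) (K := K)
  have h3 : t ∈ (⊥ : IntermediateField k K) := by
    rw [htop]
    exact IntermediateField.mem_top
  obtain ⟨c, hc⟩ := IntermediateField.mem_bot.1 h3
  apply ht
  rw [← hc]
  exact isAlgebraic_algebraMap c

theorem Family.CurvesGeneral.noLow {X : Family k N M} (h : X.CurvesGeneral) : X.NoLowGenus := by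
  classical
  intro K _ _ _ hK y x hyx
  obtain ⟨L, hL⟩ : ∃ L : IntermediateField k K, L = coords k y ⊔ coords k x := ⟨_, rfl⟩
  have hyL0 : ∀ {i j}, y j ≠ 0 → y i / y j ∈ L := by
    intro i j hj
    have h1 : coords k y ≤ L := hL ▸ le_sup_left
    exact h1 (mem_coords y i hj)
  have hxL0 : ∀ {i j}, x j ≠ 0 → x i / x j ∈ L := by
    intro i j hj
    have h1 : coords k x ≤ L := hL ▸ le_sup_right
    exact h1 (mem_coords x i hj)
  by_cases halg : ∀ t ∈ L, IsAlgebraic k t
  · constructor
    · intro i j hj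
      obtain ⟨c, hc⟩ := alg_const (halg _ (hyL0 (i := i) hj))
      exact ⟨c, by rw [← hc, div_mul_cancel₀ _ hj]⟩
    · intro i j hj
      obtain ⟨c, hc⟩ := alg_const (halg _ (hxL0 (i := i) hj))
      exact ⟨c, by rw [← hc, div_mul_cancel₀ _ hj]⟩
  · exfalso
    push Not at halg
    obtain ⟨t, htL, ht⟩ := halg
    have hfd : FiniteDimensional (IntermediateField.adjoin k {t}) K := IsFF.finite ht
    have hle : IntermediateField.adjoin k {t} ≤ L := by
      rw [IntermediateField.adjoin_simple_le_iff]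
      exact htL
    have hfL : FiniteDimensional L K := by
      let i1 : Algebra (IntermediateField.adjoin k {t}) L :=
        (IntermediateField.inclusion hle).toAlgebra
      have i2 : IsScalarTower (IntermediateField.adjoin k {t}) L K :=
        IsScalarTower.of_algebraMap_eq fun _ => rfl
      exact FiniteDimensional.right (IntermediateField.adjoin k {t}) L K
    have hFF : IsFF k L := Pool.Agent.W619.PQ.isFF_down (E := K)
    obtain ⟨⟨⟨i0, hi0⟩, hyΦ⟩, ⟨j0, hj0⟩, hyxΨ⟩ := hyx
    have hyL : ∀ l, y l / y i0 ∈ L := fun l => hyL0 hi0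
    have hxL : ∀ l, x l / x j0 ∈ L := fun l => hxL0 hj0
    obtain ⟨y', hy'⟩ : ∃ y' : Fin (N + 1) → L, ∀ l, ((y' l : L) : K) = y l / y i0 :=
      ⟨fun l => ⟨_, hyL l⟩, fun _ => rfl⟩
    obtain ⟨x', hx'⟩ : ∃ x' : Fin (M + 1) → L, ∀ l, ((x' l : L) : K) = x l / x j0 :=
      ⟨fun l => ⟨_, hxL l⟩, fun _ => rfl⟩
    have hy'1 : y' i0 = 1 := Subtype.ext (by rw [hy', div_self hi0]; rfl)
    have hx'1 : x' j0 = 1 := Subtype.ext (by rw [hx', div_self hj0]; rfl)
    have hval : ∀ {ι : Type} (z : ι → L) (H : MvPolynomial ι k),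
        aeval (fun l => ((z l : L) : K)) H = ((aeval z H : L) : K) := by
      intro ι z H
      exact (comp_aeval_apply (f := z) L.val H).symm
    have hpt : X.Pt y' x' := by
      refine ⟨⟨⟨i0, by rw [hy'1]; exact one_ne_zero⟩, fun H hH => ?_⟩,
        ⟨j0, by rw [hx'1]; exact one_ne_zero⟩, fun H hH => ?_⟩
      · apply Subtype.ext
        rw [← hval]
        obtain ⟨d, hd⟩ := X.base.hom H hH
        have h1 := (form_scale (K := K) hd y (inv_ne_zero hi0)).2 (hyΦ H hH)
        have h2 : (fun l => ((y' l : L) : K)) = fun l => (y i0)⁻¹ * y l := by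
          funext l
          rw [hy', div_eq_inv_mul]
        rw [h2, h1]
        rfl
      · apply Subtype.ext
        rw [← hval]
        have h1 := (BiForm.scale (K := K) (X.bihom H hH) y x (inv_ne_zero hi0)
          (inv_ne_zero hj0)).2 (hyxΨ H hH)
        have h2 : (fun l => ((Sum.elim y' x' l : L) : K)) =
            Sum.elim (fun l => (y i0)⁻¹ * y l) (fun l => (x j0)⁻¹ * x l) := by
          funext l
          rcases l with l | l
          · rw [Sum.elim_inl, Sum.elim_inl, hy', div_eq_inv_mul]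
          · rw [Sum.elim_inr, Sum.elim_inr, hx', div_eq_inv_mul]
        rw [h2, h1]
        rfl
    -- the coordinates
    have hmap : ∀ {n : ℕ} (z : Fin (n + 1) → L) (w : Fin (n + 1) → K) (i0 : Fin (n + 1)),
        w i0 ≠ 0 → (∀ l, ((z l : L) : K) = w l / w i0) →
        coords k w ≤ (coords k z).map L.val := by
      intro n z w i0 hi0 hz
      unfold Pool.Agent.W602.GT.coords
      rw [IntermediateField.adjoin_map]
      refine IntermediateField.adjoin.mono _ _ _ ?_
      rintro _ ⟨i, j, hj, rfl⟩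
      refine ⟨z i / z j, ⟨i, j, ?_, rfl⟩, ?_⟩
      · intro h0
        have h1 := hz j
        rw [h0] at h1
        have h2 : w j / w i0 = 0 := h1.symm
        rw [div_eq_zero_iff] at h2
        exact h2.elim hj hi0
      · change ((z i / z j : L) : K) = _
        rw [IntermediateField.coe_div, hz, hz, div_div_div_cancel_right₀ hi0]
    have htop : coords k y' ⊔ coords k x' = ⊤ := by
      have h1 : L ≤ (coords k y' ⊔ coords k x').map L.val := by
        rw [IntermediateField.map_sup]
        calc L = coords k y ⊔ coords k x := hL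
          _ ≤ _ := sup_le_sup (hmap y' y i0 hi0 hy') (hmap x' x j0 hj0 hx')
      rw [eq_top_iff]
      rintro ⟨z, hz⟩ -
      obtain ⟨z', hz', hzz⟩ := h1 hz
      have h2 : z' = ⟨z, hz⟩ := Subtype.ext hzz
      rwa [← h2]
    have h1 := h L y' x' hpt htop
    have h2 := canDeg_nonpos_below (k := k) (E := L) (K := K)
    have h3 : 0 < canDeg k L := by
      by_contra hc
      push Not at hc
      have := genus_le_one.2 hc
      linarith
    have h4 := genus_le_one.1 hK
    have h5 : (0 : ℤ) < Module.finrank L K := by exact_mod_cast Module.finrank_pos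
    have := mul_pos h5 h3
    linarith

/-- from the relative inequality to hyperbolicity -/
theorem algHyp_of_core (X : Family k N M) (hY : X.base.AlgHyp)
    (hfib : ∀ c, X.base.Pt c → ∀ (K : Type) [Field K] [Algebra k K] [IsFF k K], genus k K ≤ 1 →
      ∀ x : Fin (M + 1) → K, (X.fibre c).Pt x → IsConst k x) {A : ℕ}
    (hA : ∀ (E : Type) [Field E] [Algebra k E] [IsFF k E] (y : Fin (N + 1) → E)
      (x : Fin (M + 1) → E), X.Pt y x → pht k x ≤ A * (max (canDeg k E) 0 + 1 + pht k y)) :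
    X.AlgHyp := by
  obtain ⟨α, hα⟩ := id hY
  refine ⟨|α| + A * (2 + 2 + |α|), fun K _ _ _ y x hyx => ?_⟩
  have hg := genus_nonneg (k := k) (K := K)
  by_cases hK : genus k K ≤ 1
  · have h1 : IsConst k y := hY.const hK hyx.1
    have h2 : IsConst k x := by
      obtain ⟨i0, hi0⟩ := hyx.1.1
      choose c hc using fun l => h1 l i0 hi0
      have hsc : ∀ l, (y i0)⁻¹ * y l = algebraMap k K (c l) := fun l => by
        rw [hc l, mul_comm, mul_assoc, mul_inv_cancel₀ hi0, mul_one]
      have h3 : X.base.Pt c := by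
        rw [← pt_algebraMap (K := K)]
        refine ⟨⟨i0, ?_⟩, fun H hH => ?_⟩
        · change algebraMap k K (c i0) ≠ 0
          rw [← hsc, inv_mul_cancel₀ hi0]
          exact one_ne_zero
        · obtain ⟨d, hd⟩ := X.base.hom H hH
          have h4 := (form_scale (K := K) hd y (inv_ne_zero hi0)).2 (hyx.1.2 H hH)
          rwa [funext hsc] at h4
      refine hfib c h3 K hK x (fibre_pt.2 ⟨hyx.2.1, fun H hH => ?_⟩)
      have h4 := (BiForm.scale (K := K) (X.bihom H hH) y x (inv_ne_zero hi0)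
        one_ne_zero).2 (hyx.2.2 H hH)
      rw [funext hsc] at h4
      simpa using h4
    rw [pht_const' hyx.1.1 h1, pht_const' hyx.2.1 h2]
    push_cast
    rw [add_zero]
    positivity
  · push Not at hK
    have h1 := hA K y x hyx
    have h2 := hα K y hyx.1
    have h3 : (pht k y : ℝ) ≤ |α| * genus k K :=
      h2.trans (mul_le_mul_of_nonneg_right (le_abs_self α) hg)
    have h4 : (pht k x : ℝ) ≤ A * (max (canDeg k K : ℝ) 0 + 1 + pht k y) := by exact_mod_cast h1
    have h5 : max (canDeg k K : ℝ) 0 ≤ 2 * genus k K := by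
      unfold genus
      rw [unfold_genus] at hK
      exact max_le (by linarith) (by linarith)
    have h6 : max (canDeg k K : ℝ) 0 + 1 + pht k y ≤ (2 + 2 + |α|) * genus k K := by
      linarith
    have h7 : (A : ℝ) * (max (canDeg k K : ℝ) 0 + 1 + pht k y) ≤
        A * ((2 + 2 + |α|) * genus k K) := mul_le_mul_of_nonneg_left h6 (Nat.cast_nonneg _)
    linarith

/-- **Fibration property.** -/
theorem Family.fibration (X : Family k N M) (hY : X.base.AlgHyp)
    (hfib : ∀ c : Fin (N + 1) → k, X.base.Pt c → (X.fibre c).AlgHyp)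
    (T : Set (Fin (N + 1) → k)) (hT : T.Finite)
    (hdim : ∀ c : Fin (N + 1) → k, X.base.Pt c → (∀ t ∈ T, ∀ a : k, c ≠ fun l => a * t l) →
      (X.fibre c).DimLE 1) : X.AlgHyp := by
  have hlow : ∀ c, X.base.Pt c → ∀ (K : Type) [Field K] [Algebra k K] [IsFF k K], genus k K ≤ 1 →
      ∀ x : Fin (M + 1) → K, (X.fibre c).Pt x → IsConst k x :=
    fun c hc K _ _ _ hK x hx => (hfib c hc).const hK hx
  obtain ⟨A, hA⟩ := core X T hT hlow hdim fun c hc _ => hfib c hc
  exact algHyp_of_core X hY hlow hA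

/-- proportional points have the same fibres -/
theorem fibre_scale {X : Family k N M} {t : Fin (N + 1) → k} {a : k} (ha : a ≠ 0) {K : Type}
    [Field K] [Algebra k K] {x : Fin (M + 1) → K} :
    (X.fibre (fun l => a * t l)).Pt x ↔ (X.fibre t).Pt x := by
  rw [fibre_pt, fibre_pt]
  refine and_congr Iff.rfl (forall₂_congr fun H hH => ?_)
  have h1 := BiForm.scale (K := K) (X.bihom H hH) (fun l => algebraMap k K (t l)) x
    ((map_ne_zero (algebraMap k K)).2 ha) one_ne_zero
  rw [← h1]
  simp only [map_mul, one_mul]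

/-- **Equivalence of the notions of hyperbolicity for families of curves.** -/
theorem Family.tfae (X : Family k N M) (hY : X.base.AlgHyp)
    (T : Set (Fin (N + 1) → k)) (hT : T.Finite)
    (hdim : ∀ c : Fin (N + 1) → k, X.base.Pt c → (∀ t ∈ T, ∀ a : k, c ≠ fun l => a * t l) →
      (X.fibre c).DimLE 1)
    (hexc : ∀ t ∈ T, X.base.Pt t → (X.fibre t).NoLowGenus → (X.fibre t).AlgHyp) :
    [X.AlgHyp, X.Bounded, X.NoLowGenus, X.CurvesGeneral].TFAE := by
  tfae_have 1 → 2 := fun h => h.bounded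
  tfae_have 2 → 3 := fun h => h.noLow
  tfae_have 3 → 4 := fun h => h.curves
  tfae_have 4 → 3 := fun h => h.noLow
  tfae_have 3 → 1 := by
    intro h
    have hlow : ∀ c, X.base.Pt c → (X.fibre c).NoLowGenus := fun c hc K _ _ _ hK x hx =>
      (h K hK _ x ((pt_fibre hc).2 hx)).2
    obtain ⟨A, hA⟩ := core X T hT hlow hdim (fun c hc ⟨t, ht, a, hca⟩ => by
      have ha : a ≠ 0 := by
        rintro rfl
        obtain ⟨⟨j, hj⟩, -⟩ := hc
        apply hj
        rw [hca]
        exact zero_mul _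
      have htp : X.base.Pt t := by
        obtain ⟨⟨j, hj⟩, hcH⟩ := hc
        refine ⟨⟨j, fun h0 => hj ?_⟩, fun H hH => ?_⟩
        · rw [hca]
          change a * t j = 0
          rw [h0, mul_zero]
        · obtain ⟨d, hd⟩ := X.base.hom H hH
          have h1 := hcH H hH
          rw [hca] at h1
          exact (form_scale (K := k) hd t ha).1 h1
      obtain ⟨α, hα⟩ := hexc t ht htp (hlow t htp)
      refine ⟨α, fun K _ _ _ x hx => hα K x ?_⟩
      rw [hca] at hx
      exact (fibre_scale ha).1 hx)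
    exact algHyp_of_core X hY hlow hA
  tfae_finish

end basic

end Pool.Agent.H916
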