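import Pool.Agent.H916.Hor3

/-! Elements which are given locally, at each place of a function field, by polynomials in regular
functions and their derivatives. -/

set_option autoImplicit false
set_option linter.overlappingInstances false

open FF Pool.Agent.W603.LV Module IsDedekindDomain IntermediateField

namespace Pool.Agent.H916

section

variable {S F K : Type*} [Field S] [Field F] [Field K] [Algebra S F] [Algebra F K]

/-- the ring generated by the regular functions at `P` and their derivatives -/
def tau (D : Derivation ℤ K K) (P : Place S F) : Subring K :=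
  Subring.closure ({x | ∃ f : F, P.Reg f ∧ x = algebraMap F K f} ∪
    {x | ∃ f : F, P.Reg f ∧ x = D (algebraMap F K f)})

theorem tau_coe (D : Derivation ℤ K K) (P : Place S F) {f : F}
    (hf : P.Reg f) : algebraMap F K f ∈ tau D P :=
  Subring.subset_closure (Or.inl ⟨f, hf, rfl⟩)

theorem tau_der (D : Derivation ℤ K K) (P : Place S F) {f : F}
    (hf : P.Reg f) : D (algebraMap F K f) ∈ tau D P :=
  Subring.subset_closure (Or.inr ⟨f, hf, rfl⟩)

section ded

variable {C : Type*} [CommRing C] [IsDedekindDomain C] [Algebra S C] [Algebra C F]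
  [IsFractionRing C F] [IsScalarTower S C F]

/-- the elements `x` with a denominator outside of a prime ideal -/
def Tv (B : Subring K) (hCB : ∀ c : C, algebraMap F K (algebraMap C F c) ∈ B)
    (v : HeightOneSpectrum C) : Subring K where
  carrier := {x | ∃ s : C, s ∉ v.asIdeal ∧ algebraMap F K (algebraMap C F s) * x ∈ B}
  one_mem' := ⟨1, fun h => v.isPrime.ne_top ((Ideal.eq_top_iff_one _).2 h), by
    rw [mul_one]; exact hCB 1⟩
  zero_mem' := ⟨1, fun h => v.isPrime.ne_top ((Ideal.eq_top_iff_one _).2 h), by
    rw [mul_zero]; exact B.zero_mem⟩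
  mul_mem' := by
    rintro x y ⟨s, hs, hsx⟩ ⟨s', hs', hsy⟩
    refine ⟨s * s', fun h => (v.isPrime.mem_or_mem h).elim hs hs', ?_⟩
    have := B.mul_mem hsx hsy
    rw [map_mul, map_mul]
    have e : algebraMap F K (algebraMap C F s) * algebraMap F K (algebraMap C F s') * (x * y) =
        algebraMap F K (algebraMap C F s) * x * (algebraMap F K (algebraMap C F s') * y) := by
      ring
    rwa [e]
  add_mem' := by
    rintro x y ⟨s, hs, hsx⟩ ⟨s', hs', hsy⟩
    refine ⟨s * s', fun h => (v.isPrime.mem_or_mem h).elim hs hs', ?_⟩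
    have := B.add_mem (B.mul_mem (hCB s') hsx) (B.mul_mem (hCB s) hsy)
    rw [map_mul, map_mul]
    have e : algebraMap F K (algebraMap C F s) * algebraMap F K (algebraMap C F s') * (x + y) =
        algebraMap F K (algebraMap C F s') * (algebraMap F K (algebraMap C F s) * x) +
        algebraMap F K (algebraMap C F s) * (algebraMap F K (algebraMap C F s') * y) := by
      ring
    rwa [e]
  neg_mem' := by
    rintro x ⟨s, hs, hsx⟩
    refine ⟨s, hs, ?_⟩
    rw [mul_neg]
    exact B.neg_mem hsx

theorem tau_le (D : Derivation ℤ K K) (B : Subring K)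
    (hCB : ∀ c : C, algebraMap F K (algebraMap C F c) ∈ B)
    (hCD : ∀ c : C, D (algebraMap F K (algebraMap C F c)) ∈ B) (v : HeightOneSpectrum C) :
    tau D (placeOf v : Place S F) ≤ Tv B hCB v := by
  have hreg : ∀ f : F, (placeOf v : Place S F).Reg f → algebraMap F K f ∈ Tv B hCB v ∧
      D (algebraMap F K f) ∈ Tv B hCB v := by
    intro f hf
    by_cases hf0 : f = 0
    · subst hf0
      rw [map_zero, map_zero]
      exact ⟨(Tv B hCB v).zero_mem, (Tv B hCB v).zero_mem⟩
    obtain ⟨n, d, hnd⟩ := HeightOneSpectrum.exists_primeCompl_mul_eq_of_integer (K := F) v f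
      ((placeOf_nonneg (k := S) (L := F) v hf0).1 (((placeOf v : Place S F).reg_iff hf0).1 hf))
    have hnd' : algebraMap F K f * algebraMap F K (algebraMap C F d) =
        algebraMap F K (algebraMap C F n) := by
      rw [← map_mul, hnd]
    refine ⟨⟨d, d.2, ?_⟩, ⟨d * d, fun h => (v.isPrime.mem_or_mem h).elim d.2 d.2, ?_⟩⟩
    · rw [mul_comm, hnd']
      exact hCB n
    · have h1 := congrArg D hnd'
      rw [D.leibniz, smul_eq_mul, smul_eq_mul] at h1
      have e : algebraMap F K (algebraMap C F ((d : C) * d)) * D (algebraMap F K f) =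
          algebraMap F K (algebraMap C F d) * D (algebraMap F K (algebraMap C F n)) -
            algebraMap F K (algebraMap C F n) * D (algebraMap F K (algebraMap C F d)) := by
        rw [← h1, ← hnd', map_mul, map_mul]
        ring
      rw [e]
      exact B.sub_mem (B.mul_mem (hCB d) (hCD n)) (B.mul_mem (hCB n) (hCD d))
  unfold tau
  rw [Subring.closure_le]
  rintro x (⟨f, hf, rfl⟩ | ⟨f, hf, rfl⟩)
  · exact (hreg f hf).1
  · exact (hreg f hf).2

/-- the ideal of denominators -/
def Id (B : Subring K) (hCB : ∀ c : C, algebraMap F K (algebraMap C F c) ∈ B) (φ : K) :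
    Ideal C where
  carrier := {s | algebraMap F K (algebraMap C F s) * φ ∈ B}
  zero_mem' := by
    change algebraMap F K (algebraMap C F 0) * φ ∈ B
    rw [map_zero, map_zero, zero_mul]
    exact B.zero_mem
  add_mem' := by
    intro a b ha hb
    have ha' : algebraMap F K (algebraMap C F a) * φ ∈ B := ha
    have hb' : algebraMap F K (algebraMap C F b) * φ ∈ B := hb
    change algebraMap F K (algebraMap C F (a + b)) * φ ∈ B
    have := B.add_mem ha' hb'
    rw [map_add, map_add, add_mul]
    exact this
  smul_mem' := by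
    intro a b hb
    have hb' : algebraMap F K (algebraMap C F b) * φ ∈ B := hb
    change algebraMap F K (algebraMap C F (a * b)) * φ ∈ B
    have := B.mul_mem (hCB a) hb'
    rw [map_mul, map_mul, mul_assoc]
    exact this

theorem glob_ded (D : Derivation ℤ K K) (B : Subring K)
    (hCB : ∀ c : C, algebraMap F K (algebraMap C F c) ∈ B)
    (hCD : ∀ c : C, D (algebraMap F K (algebraMap C F c)) ∈ B) (φ : K)
    (v0 : HeightOneSpectrum C)
    (hφ : ∀ v : HeightOneSpectrum C, φ ∈ tau D (placeOf v : Place S F)) : φ ∈ B := by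
  have key : ∀ v : HeightOneSpectrum C, ∃ s : C, s ∉ v.asIdeal ∧ s ∈ Id B hCB φ :=
    fun v => tau_le (S := S) D B hCB hCD v (hφ v)
  have hI : Id B hCB φ = ⊤ := by
    by_contra hne
    obtain ⟨M, hM, hIM⟩ := Ideal.exists_le_maximal _ hne
    have hM0 : M ≠ ⊥ := by
      intro h0
      obtain ⟨s, hs, hs'⟩ := key v0
      have h1 : s ∈ M := hIM hs'
      rw [h0, Ideal.mem_bot] at h1
      exact hs (h1 ▸ v0.asIdeal.zero_mem)
    obtain ⟨s, hs, hs'⟩ := key ⟨M, hM.isPrime, hM0⟩
    exact hs (hIM hs')
  have h1 : (1 : C) ∈ Id B hCB φ := hI ▸ Submodule.mem_top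
  have h2 : algebraMap F K (algebraMap C F 1) * φ ∈ B := h1
  rwa [map_one, map_one, one_mul] at h2

end ded

variable [CharZero S] [IsFF S F]

theorem glob (D : Derivation ℤ K K) (t : F) (ht : Transcendental S t) (B : Subring K)
    (hB : ∀ a : F, IsIntegral (Algebra.adjoin S {t}) a → algebraMap F K a ∈ B ∧
      D (algebraMap F K a) ∈ B)
    (φ : K) (hφ : ∀ P : Place S F, 0 ≤ P.ord t → φ ∈ tau D P) : φ ∈ B := by
  classical
  open scoped algebraAdjoinAdjoin in
  let A := Algebra.adjoin S {t}
  let e := Polynomial.algEquivOfTranscendental S t ht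
  have hpid : IsPrincipalIdealRing A := IsPrincipalIdealRing.of_surjective e.toRingEquiv e.surjective
  have hded : IsDedekindDomain A := inferInstance
  have hfin := IsFF.finite ht
  have hchar : CharZero S⟮t⟯ := charZero_of_injective_algebraMap (algebraMap S S⟮t⟯).injective
  have hsep : Algebra.IsSeparable S⟮t⟯ F := inferInstance
  have hdC : IsDedekindDomain (integralClosure A F) := integralClosure.isDedekindDomain A S⟮t⟯ F
  have hfC : IsFractionRing (integralClosure A F) F :=
    integralClosure.isFractionRing_of_finite_extension S⟮t⟯ F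
  have hsc : IsScalarTower S (integralClosure A F) F := by
    refine IsScalarTower.of_algebraMap_eq fun c => ?_
    rw [IsScalarTower.algebraMap_apply S A (integralClosure A F),
      ← IsScalarTower.algebraMap_apply A (integralClosure A F) F,
      ← IsScalarTower.algebraMap_apply S A F]
  have ht0 : t ≠ 0 := by
    rintro rfl
    exact ht isAlgebraic_zero
  -- a place where `t` is regular
  obtain ⟨v0, -⟩ : ∃ v0 : HeightOneSpectrum (integralClosure A F), True := by
    obtain ⟨Z, hZ, -, hZ2⟩ := zeros (k := S) (K := F) ht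
    have hpos : 0 < finrank S⟮t⟯ F := finrank_pos
    obtain ⟨w, hw⟩ : Z.Nonempty := by
      rw [Finset.nonempty_iff_ne_empty]
      rintro rfl
      simp at hZ2
      omega
    have hw0 := (hZ w).1 hw
    have hregA : ∀ a : A, w.Reg (algebraMap A F a) := by
      rintro ⟨a, ha⟩
      change w.Reg a
      induction ha using Algebra.adjoin_induction with
      | mem y hy =>
        rw [Set.mem_singleton_iff] at hy
        subst hy
        exact Or.inr hw0.le
      | algebraMap r => exact w.reg_const r
      | add x y _ _ hx hy => exact w.reg_add hx hy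
      | mul x y _ _ hx hy => exact w.reg_mul hx hy
    obtain ⟨v, -⟩ := exists_placeOf_eq (B := integralClosure A F) w (fun b => by
      have hb : IsIntegral A (b : F) := b.2
      exact w.reg_of_isIntegral hregA hb)
    exact ⟨v, trivial⟩
  refine glob_ded (S := S) (C := integralClosure A F) D B
    (fun c => (hB (algebraMap (integralClosure A F) F c) c.2).1)
    (fun c => (hB (algebraMap (integralClosure A F) F c) c.2).2) φ v0 fun v => ?_
  refine hφ _ ?_
  have hint : IsIntegral A t := isIntegral_algebraMap (R := A)
    (x := ⟨t, Algebra.self_mem_adjoin_singleton S t⟩)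
  have h1 : (placeOf v : Place S F).Reg (algebraMap (integralClosure A F) F ⟨t, hint⟩) :=
    placeOf_reg v _
  exact ((placeOf v : Place S F).reg_iff ht0).1 h1

end

end Pool.Agent.H916
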