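import Pool.Agent.H916.Chart
import Pool.Graph.R_seed8.W603.CX.Basic
import Pool.Graph.R_seed8.Y221.AH.Hp

/-! Heights of the points of a projective family. -/

set_option autoImplicit false
set_option linter.overlappingInstances false
set_option linter.unusedSectionVars false

open FF Filter Pool.Agent.W603.LV Pool.Agent.W603.PV Pool.Agent.K4H62.EL MvPolynomial
open Pool.Agent.W619.PQ Pool.Agent.K4H62.IT

namespace Pool.Agent.H916

section bi

variable {k : Type} [Field k] [IsAlgClosed k] [CharZero k] {N M : ℕ}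

/-- bihomogeneous polynomials -/
def BiForm (H : MvPolynomial (Fin (N + 1) ⊕ Fin (M + 1)) k) : Prop :=
  ∃ d e : ℕ, IsWeightedHomogeneous (Sum.elim (fun _ => 1) (fun _ => 0) :
    Fin (N + 1) ⊕ Fin (M + 1) → ℕ) H d ∧ IsWeightedHomogeneous (Sum.elim (fun _ => 0) (fun _ => 1) :
    Fin (N + 1) ⊕ Fin (M + 1) → ℕ) H e

theorem BiForm.hom2 {H : MvPolynomial (Fin (N + 1) ⊕ Fin (M + 1)) k} (h : BiForm H) : Hom2 H := by
  obtain ⟨d, e, -, h⟩ := h
  exact ⟨e, h⟩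

theorem BiForm.scale {K : Type} [Field K] [Algebra k K]
    {H : MvPolynomial (Fin (N + 1) ⊕ Fin (M + 1)) k} (h : BiForm H) (y : Fin (N + 1) → K)
    (x : Fin (M + 1) → K) {a b : K} (ha : a ≠ 0) (hb : b ≠ 0) :
    aeval (Sum.elim (fun l => a * y l) (fun l => b * x l)) H = 0 ↔ aeval (Sum.elim y x) H = 0 := by
  rw [hom2_scale h.hom2 _ _ hb]
  obtain ⟨d, e, h, -⟩ := h
  have h1 := aeval_weighted h (Sum.elim y x) a
  have h2 : (fun i => a ^ (Sum.elim (fun _ => 1) (fun _ => 0) : Fin (N + 1) ⊕ Fin (M + 1) → ℕ) i *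
      (Sum.elim y x : Fin (N + 1) ⊕ Fin (M + 1) → K) i) = Sum.elim (fun l => a * y l) x := by
    funext i
    rcases i with i | i
    · simp
    · simp
  rw [h2] at h1
  rw [h1, mul_eq_zero]
  constructor
  · intro h
    exact h.resolve_left (pow_ne_zero _ ha)
  · exact Or.inr

theorem form_scale {K : Type} [Field K] [Algebra k K] {n : ℕ}
    {H : MvPolynomial (Fin n) k} {d : ℕ} (h : H.IsHomogeneous d) (y : Fin n → K)
    {a : K} (ha : a ≠ 0) : aeval (fun l => a * y l) H = 0 ↔ aeval y H = 0 := by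
  have h1 := aeval_weighted h y a
  have h2 : (fun i => a ^ (1 : Fin n → ℕ) i * y i) = fun l => a * y l := by
    funext i
    simp
  rw [h2] at h1
  rw [h1, mul_eq_zero]
  constructor
  · intro h
    exact h.resolve_left (pow_ne_zero _ ha)
  · exact Or.inr

/-- **The relative height inequality.** -/
theorem rel_ineq {Φ : Set (MvPolynomial (Fin (N + 1)) k)}
    {Ψ : Set (MvPolynomial (Fin (N + 1) ⊕ Fin (M + 1)) k)} (hΦ : ∀ H ∈ Φ, ∃ d, H.IsHomogeneous d)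
    (hΨ : ∀ H ∈ Ψ, BiForm H) (h : ∀ (i0 : Fin (N + 1)) (j0 : Fin (M + 1)), ∃ T,
      ChartHyp k Φ Ψ i0 j0 T) :
    ∃ A : ℕ, ∀ (E : Type) [Field E] [Algebra k E] [IsFF k E] (y : Fin (N + 1) → E)
      (x : Fin (M + 1) → E), (∃ i, y i ≠ 0) → (∃ j, x j ≠ 0) → (∀ H ∈ Φ, aeval y H = 0) →
      (∀ H ∈ Ψ, aeval (Sum.elim y x) H = 0) →
      pht k x ≤ A * (max (canDeg k E) 0 + 1 + pht k y) := by
  classical
  have key : ∀ (i0 : Fin (N + 1)) (j0 : Fin (M + 1)), ∃ A : ℕ, ∀ (E : Type) [Field E] [Algebra k E]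
      [IsFF k E] (φ : MvPolynomial (Fin (N + 1) ⊕ Fin (M + 1)) k →ₐ[k] E),
      (∀ H ∈ Φ, φ (rename Sum.inl H) = 0) → (∀ H ∈ Ψ, φ H = 0) → φ (X (Sum.inl i0)) = 1 →
      φ (X (Sum.inr j0)) = 1 →
      ∑ l, hgt k (φ (X (Sum.inr l))) ≤ A * (max (canDeg k E) 0 + 1 +
        ∑ j, hgt k (φ (X (Sum.inl j)))) := by
    intro i0 j0
    obtain ⟨T, hT⟩ := h i0 j0
    let S : Set (MvPolynomial (Fin (N + 1) ⊕ Fin (M + 1)) k) :=
      (rename Sum.inl '' Φ) ∪ Ψ ∪ {X (Sum.inl i0) - 1, X (Sum.inr j0) - 1}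
    obtain ⟨A, hA⟩ := chart_case hT (Ideal.span S)
      ⟨fun H hH => Ideal.subset_span (Or.inl (Or.inl ⟨H, hH, rfl⟩)),
        fun H hH => Ideal.subset_span (Or.inl (Or.inr hH)),
        Ideal.subset_span (Or.inr (Or.inl rfl)), Ideal.subset_span (Or.inr (Or.inr rfl))⟩
    refine ⟨A, fun E _ _ _ φ h1 h2 h3 h4 => hA E φ ?_⟩
    have h5 : Ideal.span S ≤ RingHom.ker φ := by
      rw [Ideal.span_le]
      rintro H ((⟨G, hG, rfl⟩ | hH) | hH)
      · exact h1 G hG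
      · exact h2 H hH
      · rcases hH with rfl | hH
        · change φ (X (Sum.inl i0) - 1) = 0
          rw [map_sub, h3, map_one, sub_self]
        · rw [Set.mem_singleton_iff] at hH
          rw [hH]
          change φ (X (Sum.inr j0) - 1) = 0
          rw [map_sub, h4, map_one, sub_self]
    exact fun H hH => h5 hH
  choose A hA using key
  refine ⟨(∑ i0, ∑ j0, A i0 j0) * (N + 1), fun E _ _ _ y x ⟨i0, hy⟩ ⟨j0, hx⟩ hyΦ hyxΨ => ?_⟩
  have hyi : (y i0)⁻¹ ≠ 0 := inv_ne_zero hy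
  have hxi : (x j0)⁻¹ ≠ 0 := inv_ne_zero hx
  have h1 := hA i0 j0 E (aeval (Sum.elim (fun l => (y i0)⁻¹ * y l) (fun l => (x j0)⁻¹ * x l)))
    (fun H hH => by
      rw [aeval_rename]
      obtain ⟨d, hd⟩ := hΦ H hH
      exact (form_scale hd y hyi).2 (hyΦ H hH))
    (fun H hH => ((hΨ H hH).scale y x hyi hxi).2 (hyxΨ H hH))
    (by rw [aeval_X, Sum.elim_inl, inv_mul_cancel₀ hy])
    (by rw [aeval_X, Sum.elim_inr, inv_mul_cancel₀ hx])
  simp only [aeval_X, Sum.elim_inl, Sum.elim_inr] at h1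
  have h2 := pht_le (k := k) x hx
  have h3 : ∀ l, hgt k (x l / x j0) = hgt k ((x j0)⁻¹ * x l) := fun l => by
    rw [div_eq_inv_mul]
  rw [Finset.sum_congr rfl fun l _ => h3 l] at h2
  have hynn : 0 ≤ pht k y := by
    have h4 := Pool.Agent.W603.CX.hgt_le_pht (k := k) y hy hy
    exact (hgt_nonneg _).trans h4
  have h4 : ∀ l, hgt k ((y i0)⁻¹ * y l) ≤ pht k y := by
    intro l
    by_cases hl : y l = 0
    · rw [hl, mul_zero, hgt_zero]
      exact hynn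
    · rw [← div_eq_inv_mul]
      exact Pool.Agent.W603.CX.hgt_le_pht y hl hy
  have h5 : ∑ j, hgt k ((y i0)⁻¹ * y j) ≤ (N + 1) * pht k y := by
    refine (Finset.sum_le_sum fun j _ => h4 j).trans ?_
    rw [Finset.sum_const, Finset.card_univ, Fintype.card_fin, nsmul_eq_mul]
    push_cast
    exact le_rfl
  have hm : (0 : ℤ) ≤ max (canDeg k E) 0 := le_max_right _ _
  have h6 : (A i0 j0 : ℤ) ≤ ∑ i0, ∑ j0, (A i0 j0 : ℤ) := by
    have e1 : (A i0 j0 : ℤ) ≤ ∑ j0, (A i0 j0 : ℤ) :=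
      Finset.single_le_sum (f := fun j0 => (A i0 j0 : ℤ)) (fun _ _ => Int.natCast_nonneg _)
        (Finset.mem_univ j0)
    have e2 : (∑ j0, (A i0 j0 : ℤ)) ≤ ∑ i0, ∑ j0, (A i0 j0 : ℤ) :=
      Finset.single_le_sum (f := fun i0 => ∑ j0, (A i0 j0 : ℤ))
        (fun _ _ => Finset.sum_nonneg fun _ _ => Int.natCast_nonneg _) (Finset.mem_univ i0)
    exact e1.trans e2
  have h7 : max (canDeg k E) 0 + 1 + ∑ j, hgt k ((y i0)⁻¹ * y j) ≤
      (N + 1) * (max (canDeg k E) 0 + 1 + pht k y) := by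
    have : (max (canDeg k E) 0 + 1) ≤ (N + 1) * (max (canDeg k E) 0 + 1) := by
      have e1 : (0 : ℤ) ≤ N := Int.natCast_nonneg _
      nlinarith
    linarith
  have h8 : 0 ≤ max (canDeg k E) 0 + 1 + ∑ j, hgt k ((y i0)⁻¹ * y j) := by
    have : 0 ≤ ∑ j, hgt k ((y i0)⁻¹ * y j) := Finset.sum_nonneg fun _ _ => hgt_nonneg _
    linarith
  calc pht k x ≤ ∑ l, hgt k ((x j0)⁻¹ * x l) := h2
    _ ≤ A i0 j0 * (max (canDeg k E) 0 + 1 + ∑ j, hgt k ((y i0)⁻¹ * y j)) := h1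
    _ ≤ (∑ i0, ∑ j0, (A i0 j0 : ℤ)) * (max (canDeg k E) 0 + 1 +
        ∑ j, hgt k ((y i0)⁻¹ * y j)) := mul_le_mul_of_nonneg_right h6 h8
    _ ≤ (∑ i0, ∑ j0, (A i0 j0 : ℤ)) * ((N + 1) * (max (canDeg k E) 0 + 1 + pht k y)) :=
        mul_le_mul_of_nonneg_left h7 (Finset.sum_nonneg fun _ _ =>
          Finset.sum_nonneg fun _ _ => Int.natCast_nonneg _)
    _ = (((∑ i0, ∑ j0, A i0 j0) * (N + 1) : ℕ) : ℤ) * (max (canDeg k E) 0 + 1 + pht k y) := by
        push_cast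
        ring

end bi

end Pool.Agent.H916
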