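import Pool.Agent.H916.Fib
import Pool.Graph.R_pool_sql_team_seeded_c8625f6e.K4H62.IT.Fib
import Pool.Graph.R_seed8.W602.GT.Defs

/-! The fibres of a fibration by curves on a variety of general type. -/

set_option autoImplicit false
set_option linter.overlappingInstances false
set_option linter.unusedSectionVars false

open FF Pool.Agent.W603.LV Pool.Agent.W619.PQ Pool.Agent.K4H62.IT Pool.Agent.W602.GT
open Pool.Agent.W619.Y (KodTr)

namespace Pool.Agent.H916

theorem kodTr_of_gt {k K : Type} [Field k] [Field K] [Algebra k K] {w : ℕ}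
    (h : GeneralType k K w) : KodTr k K w w := by
  obtain ⟨-, N, hN, ω, h1, h2, D, hD, h3⟩ := h
  refine ⟨N, hN, ω, fun l => ⟨h1 l, fun v hv _ D' hD' => ?_, fun v _ hB => hB.elim⟩, D,
    fun l => ?_, h3⟩
  · rcases h2 v hv l D' (fun i => hD' i) with h | h
    · exact Or.inl h
    · refine Or.inr ⟨1, Finset.mem_singleton_self _, one_ne_zero, ?_⟩
      rw [Nat.cast_zero, zero_mul]
      exact h
  · refine Fin.cases hD (fun i => ?_) l
    intro h0
    have h4 := h3.ne_zero i
    rw [h0, zero_div] at h4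
    exact h4 rfl

theorem uniq_of_nonpos {Λ F : Type} [Field Λ] [Field F] [Algebra Λ F] [CharZero Λ]
    [IsAlgClosed Λ] [IsFF Λ F] (hc : canDeg Λ F ≤ 0) : Uniq Λ F := by
  intro N D hD g1 g2 h10 h20 h1 h2
  rcases Nat.eq_zero_or_pos N with rfl | hN
  · obtain ⟨c, hc⟩ := const_of_reg (k := Λ) (b := g1 / g2) (fun P => by
      have hg : ∀ g : F, g ≠ 0 → (∀ P : Place Λ F, ((0 : ℕ) : ℤ) * vo P D ≤ P.ord g) →
          P.ord g = 0 := by
        intro g hg0 hg
        obtain ⟨c, hc⟩ := const_of_reg (k := Λ) (b := g) (fun P => by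
          have := hg P
          simpa using this)
        rw [hc]
        refine P.ord_const ?_
        rintro rfl
        rw [map_zero] at hc
        exact hg0 hc
      rw [P.ord_div h10 h20, hg g1 h10 h1, hg g2 h20 h2]
      norm_num)
    exact ⟨c, by rw [← hc, div_mul_cancel₀ _ h20]⟩
  · by_contra hcon
    push Not at hcon
    have h3 := canDeg_pos_of hD hN h20 (fun P => Or.inr (h2 P)) (fun P => Or.inr (h1 P))
      (fun c => by
        rw [Algebra.smul_def]
        exact hcon c)
    omega

section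

variable {k B K Λ F : Type} [Field k] [CharZero k] [Field B] [Field K] [Field Λ] [Field F]
  [Algebra k B] [Algebra k K] [Algebra B K]
  [IsScalarTower k B K] [Algebra B Λ] [Algebra Λ F] [Algebra K F] [Algebra B F]
  [IsScalarTower B Λ F] [IsScalarTower B K F] [Algebra k Λ] [Algebra k F] [IsScalarTower k Λ F]
  [IsScalarTower k K F] [IsScalarTower k B Λ] [IsAlgClosed Λ] [CharZero Λ]

/-- On a variety of general type the fibres of a fibration by curves have genus at least two. -/
theorem canDeg_pos_of_gt (hess : Algebra.EssFiniteType k K) [Algebra.IsAlgebraic B Λ]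
    [Algebra.IsAlgebraic K F] [hFF : IsFF Λ F] {b : ℕ}
    (hB : Algebra.trdeg k B = b) (hK : Algebra.trdeg k K = (b + 1 : ℕ))
    (h : GeneralType k K (b + 1)) : 0 < canDeg Λ F := by
  classical
  by_contra hcon
  have hU : Uniq Λ F := uniq_of_nonpos (not_lt.1 hcon)
  have e2 : K ≃ₐ[k] (⊤ : IntermediateField k K) := IntermediateField.topEquiv.symm
  have h4 : KodTr k (⊤ : IntermediateField k K) (b + 1) (b + 1) :=
    Pool.Agent.Y174.kod_equiv e2 hess hK (kodTr_of_gt h)
  have h5 : Algebra.trdeg k (⊤ : IntermediateField k K) = (b + 1 : ℕ) := by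
    rw [← e2.trdeg_eq]
    exact hK
  have h6 : Algebra.EssFiniteType k (⊤ : IntermediateField k K) := ess_equiv e2 hess
  have h7 := sub_base (k := k) (B := B) (Λ := Λ) (F := F) hess hU hB hK
    (⊤ : IntermediateField k K) h6 h5 h4
  have hBK : Algebra.trdeg B K = (1 : ℕ) := Pool.Agent.Y174.trdeg_LK (r := 1) hB hK
  have h8 : Algebra.IsAlgebraic B K := ⟨fun x => h7 x trivial⟩
  have h9 : Algebra.trdeg B K = 0 := trdeg_eq_zero
  rw [h9] at hBK
  have h10 : (0 : ℕ) = 1 := by exact_mod_cast hBK
  exact zero_ne_one h10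

end

end Pool.Agent.H916
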