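import Pool.Agent.H916.Cod

/-! Derivations of a function field in one variable which extend a derivation of the field of
constants and preserve all the local rings: pluricanonical forms, and points which are not moved. -/

set_option autoImplicit false

open FF Pool.Agent.W603.LV Module

namespace Pool.Agent.H916

variable {S N : Type*} [Field S] [Field N] [Algebra S N]

variable (S) in
/-- the derivation maps the constants to constants -/
def Pres (D : Derivation ℤ N N) : Prop :=
  ∀ s : S, ∃ s' : S, D (algebraMap S N s) = algebraMap S N s'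

/-- the commutator with a derivation over the constants -/
def comm (D : Derivation ℤ N N) (h : Pres S D) (δ : Derivation S N N) : Derivation S N N :=
  Derivation.mk'
    { toFun := fun a => D (δ a) - δ (D a)
      map_add' := by
        intro a b
        simp only [map_add]
        ring
      map_smul' := by
        intro s a
        obtain ⟨s', hs'⟩ := h s
        have e1 : ∀ b : N, s • b = algebraMap S N s * b := fun b => Algebra.smul_def s b
        have e2 : δ (s • a) = s • δ a := δ.map_smul s a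
        have e3 : D (s • a) = algebraMap S N s * D a + a * algebraMap S N s' := by
          rw [e1, D.leibniz, hs', smul_eq_mul, smul_eq_mul]
        have e4 : D (s • δ a) = algebraMap S N s * D (δ a) + δ a * algebraMap S N s' := by
          rw [e1, D.leibniz, hs', smul_eq_mul, smul_eq_mul]
        rw [e2, e3, e4, map_add, δ.leibniz, δ.leibniz, δ.map_algebraMap, δ.map_algebraMap,
          RingHom.id_apply, e1]
        simp only [smul_eq_mul]
        ring }
    (by
      intro a b
      change D (δ (a * b)) - δ (D (a * b)) = a • (D (δ b) - δ (D b)) + b • (D (δ a) - δ (D a))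
      simp only [Derivation.leibniz, smul_eq_mul, map_add]
      ring)

theorem comm_apply (D : Derivation ℤ N N) (h : Pres S D) (δ : Derivation S N N) (a : N) :
    comm D h δ a = D (δ a) - δ (D a) := rfl

variable [CharZero S] [IsFF S N]

theorem comm_eq (D : Derivation ℤ N N) (h : Pres S D) (δ : Derivation S N N) {z : N}
    (hz : δ z = 1) (a : N) : D (δ a) = δ (D a) - δ (D z) * δ a := by
  have hδ : δ ≠ 0 := by
    rintro rfl
    simp at hz
  obtain ⟨c, hc⟩ := der_smul (D' := comm D h δ) hδ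
  have h1 := congrArg (fun E : Derivation S N N => E z) hc
  have h2 := congrArg (fun E : Derivation S N N => E a) hc
  simp only [comm_apply, Derivation.coe_smul, Pi.smul_apply, smul_eq_mul, hz] at h1 h2
  have h3 : D (1 : N) = 0 := D.map_one_eq_zero
  rw [h3] at h1
  linear_combination h2 - δ a * h1

/-- the derivation `d / d π` -/
noncomputable def dd (δ : Derivation S N N) (π : N) : Derivation S N N := (δ π)⁻¹ • δ

omit [CharZero S] [IsFF S N] in
theorem dd_apply (δ : Derivation S N N) (π a : N) : dd δ π a = (δ π)⁻¹ * δ a := rfl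

variable [IsAlgClosed S]

theorem dd_self {δ : Derivation S N N} (hδ : δ ≠ 0) (P : Place S N) {π : N} (hπ : P.ord π = 1) :
    dd δ π π = 1 := by
  rw [dd_apply, inv_mul_cancel₀ (der_pi_ne_zero hδ P hπ)]

theorem dd_reg {δ : Derivation S N N} (hδ : δ ≠ 0) (P : Place S N) {π : N} (hπ : P.ord π = 1)
    {f : N} (hf : Ge P 0 f) : Ge P 0 (dd δ π f) :=
  der_reg P hπ _ (dd_self hδ P hπ) hf

/-- the action of the derivation on the pluricanonical forms, in coordinates -/
theorem twist (D : Derivation ℤ N N) (h : Pres S D) {δ : Derivation S N N} {z : N}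
    (hz : δ z = 1) (P : Place S N) {π : N} (hπ : P.ord π = 1) (m : ℕ) (φ : N) :
    D (δ π ^ m * φ) + m * δ (D z) * (δ π ^ m * φ) =
      δ π ^ m * (D φ + m * dd δ π (D π) * φ) := by
  have hδ : δ ≠ 0 := by
    rintro rfl
    simp at hz
  have h0 := der_pi_ne_zero hδ P hπ
  have h1 := comm_eq D h δ hz π
  rw [dd_apply, D.leibniz, D.leibniz_pow, h1]
  simp only [smul_eq_mul, nsmul_eq_mul]
  rcases m with _ | m
  · simp
  · simp only [Nat.add_sub_cancel]
    field_simp
    ring

/-- the action of the derivation on `m`-fold differentials -/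
noncomputable def tw (D : Derivation ℤ N N) (δ : Derivation S N N) (z : N) (m : ℕ) (f : N) : N :=
  D f + m * δ (D z) * f

variable (D : Derivation ℤ N N) (h : Pres S D) (hreg : ∀ (P : Place S N) (f : N), Ge P 0 f →
  Ge P 0 (D f)) {δ : Derivation S N N} {z : N} (hz : δ z = 1) (m : ℕ)

include h hreg hz

theorem tw_reg (P : Place S N) {f : N} (hf : Ge P (m * vo P δ) f) :
    Ge P (m * vo P δ) (tw D δ z m f) := by
  have hδ : δ ≠ 0 := by
    rintro rfl
    simp at hz
  have hπ := ord_unif P
  have h0 := der_pi_ne_zero hδ P hπ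
  set β := δ (unif P) with hβ
  have hord : P.ord (β ^ m) = m * vo P δ := by
    rw [P.ord_pow]
    rfl
  obtain ⟨φ, hφ⟩ : ∃ φ, φ = f / β ^ m := ⟨_, rfl⟩
  have hf' : f = β ^ m * φ := by
    rw [hφ, mul_div_cancel₀ _ (pow_ne_zero _ h0)]
  have hφ0 : Ge P 0 φ := by
    refine Ge.of_mul' (h := β ^ m) (m := m * vo P δ) (pow_ne_zero _ h0) hord ?_
    rw [← hf', zero_add]
    exact hf
  have h1 := twist D h hz P hπ m φ
  rw [← hβ, ← hf'] at h1
  unfold tw
  rw [h1]
  have h2 : Ge P 0 (D φ + m * dd δ (unif P) (D (unif P)) * φ) := by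
    refine (hreg P φ hφ0).add ?_
    have h3 := dd_reg hδ P hπ (hreg P _ (Or.inr (by omega) : Ge P 0 (unif P)))
    have h4 := ((Ge.natCast (P := P) m).mul h3).mul hφ0
    simpa using h4
  have h3 : Ge P (m * vo P δ) (β ^ m) := Or.inr hord.ge
  have := h3.mul h2
  rwa [add_zero] at this

/-- at a point which is moved, the order of an `m`-fold differential drops by one -/
theorem tw_ord (P : Place S N) (hP : ¬ Ge P 1 (D (unif P))) {f : N} (hf0 : f ≠ 0) {n : ℕ}
    (hf : P.ord f = m * vo P δ + (n + 1 : ℕ)) :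
    tw D δ z m f ≠ 0 ∧ P.ord (tw D δ z m f) = m * vo P δ + n := by
  have hδ : δ ≠ 0 := by
    rintro rfl
    simp at hz
  have hπ := ord_unif P
  have h0 := der_pi_ne_zero hδ P hπ
  set π := unif P with hπd
  have hπ0 : π ≠ 0 := by
    intro h
    rw [h, P.ord_zero] at hπ
    omega
  set β := δ π with hβ
  have hord : P.ord (β ^ m) = m * vo P δ := by
    rw [P.ord_pow]
    rfl
  have hDπ : D π ≠ 0 ∧ P.ord (D π) = 0 := by
    have h1 := hreg P π (Or.inr (by omega))
    have h2 : D π ≠ 0 := fun e => hP (Or.inl e)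
    refine ⟨h2, ?_⟩
    have h3 := h1.resolve_left h2
    have h4 : ¬ 1 ≤ P.ord (D π) := fun e => hP (Or.inr e)
    omega
  obtain ⟨ε, hε⟩ : ∃ ε, ε = f / (β ^ m * π ^ (n + 1)) := ⟨_, rfl⟩
  have hb : β ^ m * π ^ (n + 1) ≠ 0 := mul_ne_zero (pow_ne_zero _ h0) (pow_ne_zero _ hπ0)
  have hε0 : ε ≠ 0 := by
    rw [hε]
    exact div_ne_zero hf0 hb
  have hεo : P.ord ε = 0 := by
    rw [hε, P.ord_div hf0 hb, P.ord_mul (pow_ne_zero _ h0) (pow_ne_zero _ hπ0), hord, hf,
      P.ord_pow, hπ]
    ring
  have hf' : f = β ^ m * (π ^ (n + 1) * ε) := by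
    rw [hε]
    field_simp
  have h1 := twist D h hz P hπ m (π ^ (n + 1) * ε)
  rw [← hβ, ← hf'] at h1
  have h2 : D (π ^ (n + 1) * ε) + m * dd δ π (D π) * (π ^ (n + 1) * ε) =
      π ^ n * (((n + 1 : ℕ) : N) * D π * ε + π * (D ε + m * dd δ π (D π) * ε)) := by
    rw [D.leibniz, D.leibniz_pow]
    simp only [smul_eq_mul, nsmul_eq_mul, Nat.add_sub_cancel]
    ring
  unfold tw
  rw [h1, h2]
  have hc0 : ((n + 1 : ℕ) : N) ≠ 0 := by
    have h3 : algebraMap S N ((n + 1 : ℕ) : S) ≠ 0 := by
      rw [Ne, map_eq_zero]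
      exact Nat.cast_ne_zero.2 (Nat.succ_ne_zero n)
    rwa [map_natCast] at h3
  have hco : P.ord ((n + 1 : ℕ) : N) = 0 := by
    have h3 : P.ord (algebraMap S N ((n + 1 : ℕ) : S)) = 0 :=
      P.ord_const (Nat.cast_ne_zero.2 (Nat.succ_ne_zero n))
    rwa [map_natCast] at h3
  have h3 : ((n + 1 : ℕ) : N) * D π * ε ≠ 0 := mul_ne_zero (mul_ne_zero hc0 hDπ.1) hε0
  have h4 : P.ord (((n + 1 : ℕ) : N) * D π * ε) = 0 := by
    rw [P.ord_mul (mul_ne_zero hc0 hDπ.1) hε0, P.ord_mul hc0 hDπ.1, hco, hDπ.2, hεo]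
    rfl
  have h5 : Ge P 1 (π * (D ε + m * dd δ π (D π) * ε)) := by
    have e1 : Ge P 1 π := Or.inr hπ.ge
    have e2 : Ge P 0 ε := Or.inr hεo.ge
    have e3 := dd_reg hδ P hπ (hreg P _ (e1.mono (by norm_num)))
    have e4 := ((Ge.natCast (P := P) m).mul e3).mul e2
    have e5 := e1.mul ((hreg P _ e2).add (by simpa using e4))
    simpa using e5
  have h6 : ((n + 1 : ℕ) : N) * D π * ε + π * (D ε + m * dd δ π (D π) * ε) ≠ 0 ∧
      P.ord (((n + 1 : ℕ) : N) * D π * ε + π * (D ε + m * dd δ π (D π) * ε)) = 0 := by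
    rcases h5 with h5 | h5
    · rw [h5, add_zero]
      exact ⟨h3, h4⟩
    · by_cases h7 : π * (D ε + m * dd δ π (D π) * ε) = 0
      · rw [h7, add_zero]
        exact ⟨h3, h4⟩
      · have := P.ord_add_eq h3 h7 (by omega)
        rwa [h4] at this
  refine ⟨mul_ne_zero (pow_ne_zero _ h0) (mul_ne_zero (pow_ne_zero _ hπ0) h6.1), ?_⟩
  rw [P.ord_mul (pow_ne_zero _ h0) (mul_ne_zero (pow_ne_zero _ hπ0) h6.1), hord,
    P.ord_mul (pow_ne_zero _ hπ0) h6.1, h6.2, P.ord_pow, hπ]
  ring

end Pool.Agent.H916
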