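import Pool.Agent.H916.Hor1

/-! The Wronskians of the pluricanonical systems: there is a point which is not moved. -/

set_option autoImplicit false

open FF Pool.Agent.W603.LV Module

namespace Pool.Agent.H916

variable {S N : Type*} [Field S] [Field N] [Algebra S N] [CharZero S] [IsFF S N] [IsAlgClosed S]

/-- the canonical divisor given by a derivation -/
noncomputable def Kd {δ : Derivation S N N} (hδ : δ ≠ 0) : Place S N →₀ ℤ :=
  Finsupp.ofSupportFinite (fun P => - vo P δ) (by
    refine (vo_finite hδ).subset fun P hP => ?_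
    rw [Function.mem_support] at hP
    exact fun h => hP (by rw [h, neg_zero]))

theorem Kd_apply {δ : Derivation S N N} (hδ : δ ≠ 0) (P : Place S N) : Kd hδ P = - vo P δ := rfl

theorem ddeg_eq (E : Place S N →₀ ℤ) (T : Finset (Place S N)) (hT : ∀ P, E P ≠ 0 → P ∈ T) :
    ddeg E = ∑ P ∈ T, E P := by
  unfold ddeg
  rw [Finsupp.sum_of_support_subset (s := T)]
  · refine Finset.sum_congr rfl fun P _ => ?_
    rw [deg_one]
    simp
  · intro P hP
    exact hT P (Finsupp.mem_support_iff.1 hP)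
  · intro P _
    simp

theorem ddeg_Kd {δ : Derivation S N N} (hδ : δ ≠ 0) : ddeg (Kd hδ) = canDeg S N := by
  rw [ddeg_eq (Kd hδ) (vo_finite hδ).toFinset]
  · have h1 := canDeg_finset hδ (vo_finite hδ).toFinset (fun P hP => by simpa using hP)
    simp only [Kd_apply, Finset.sum_neg_distrib]
    rw [h1, neg_neg]
  · intro P hP
    rw [Kd_apply] at hP
    simp only [Set.Finite.mem_toFinset, Set.mem_ofPred_eq]
    exact fun h => hP (by rw [h, neg_zero])

theorem mem_pl {δ : Derivation S N N} (hδ : δ ≠ 0) (m : ℕ) (f : N) :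
    f ∈ LL (m • Kd hδ) ↔ ∀ P : Place S N, Ge P (m * vo P δ) f := by
  rw [mem_LL]
  have e : ∀ P : Place S N, -(m • Kd hδ) P = m * vo P δ := by
    intro P
    rw [Finsupp.smul_apply, Kd_apply, nsmul_eq_mul]
    ring
  simp only [e]
  constructor
  · rintro (h | h) P
    · exact Or.inl h
    · exact Or.inr (h P)
  · intro h
    by_cases hf : f = 0
    · exact Or.inl hf
    · exact Or.inr fun P => (h P).resolve_left hf

/-- functions with orders `0, 1, …, r - 1` -/
theorem wr_unit (P : Place S N) {π : N} (hπ : P.ord π = 1) {d : Derivation S N N} (hd : d π = 1)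
    {r : ℕ} (φ : Fin r → N) (hφ0 : ∀ i, φ i ≠ 0) (hφ : ∀ i, P.ord (φ i) = (i : ℕ)) :
    wr d φ ≠ 0 ∧ P.ord (wr d φ) = 0 := by
  have hd0 : d ≠ 0 := by
    rintro rfl
    simp at hd
  have hvo : vo P d = 0 := by
    rw [← vo_eq P hπ hd0, hd, P.ord_one]
  have hge : ∀ i (j : ℕ), Ge P ((((i : Fin r) : ℕ) - j : ℕ) : ℤ) ((⇑d)^[j] (φ i)) := fun i j =>
    ge_iter P hπ hd (Or.inr (hφ i).ge) j
  have hex : ∀ (i : Fin r) (j : ℕ), j ≤ (i : ℕ) → (⇑d)^[j] (φ i) ≠ 0 ∧
      P.ord ((⇑d)^[j] (φ i)) = (i : ℕ) - j := by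
    intro i j
    induction j with
    | zero =>
      intro _
      exact ⟨hφ0 i, by simpa using hφ i⟩
    | succ j ih =>
      intro hj
      obtain ⟨h1, h2⟩ := ih (by omega)
      rw [Function.iterate_succ_apply']
      obtain ⟨h3, h4⟩ := ord_der P hd0 (f := (⇑d)^[j] (φ i)) (by rw [h2]; omega)
      refine ⟨h3, ?_⟩
      rw [h4, h2, hvo]
      push_cast
      ring
  have hO : ∀ i j, wm (n := r) d φ i j ∈ P.O := fun i j =>
    (hge i j).mono (Int.natCast_nonneg _)
  set M : Matrix (Fin r) (Fin r) P.O := Matrix.of fun i j => ⟨wm (n := r) d φ i j, hO i j⟩ with hM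
  have h1 : wr d φ = ((M.det : P.O) : N) := by
    unfold wr
    have h2 : wm (n := r) d φ = P.O.subtype.mapMatrix M := by
      ext i j
      rfl
    rw [h2, ← RingHom.map_det]
    rfl
  have hu : IsUnit M.det := by
    have h3 : P.resHom M.det ≠ 0 := by
      rw [RingHom.map_det]
      have h4 : (P.resHom.mapMatrix M).IsUpperTriangular := by
        intro i j hij
        change P.resHom (M i j) = 0
        have h5 : P.red (wm (n := r) d φ i j) = P.resHom (M i j) := P.red_of_reg (hO i j)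
        rw [← h5, P.red_eq_zero_iff (hO i j)]
        have hij' : (j : ℕ) < (i : ℕ) := hij
        rcases hge i j with h6 | h6
        · exact Or.inl h6
        · right
          have h7 : (1 : ℤ) ≤ ((((i : Fin r) : ℕ) - (j : ℕ) : ℕ) : ℤ) := by omega
          exact lt_of_lt_of_le (by norm_num) (h7.trans h6)
      rw [Matrix.det_of_isUpperTriangular h4]
      refine Finset.prod_ne_zero_iff.2 fun i _ => ?_
      change P.resHom (M i i) ≠ 0
      have h5 : P.red (wm (n := r) d φ i i) = P.resHom (M i i) := P.red_of_reg (hO i i)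
      rw [← h5]
      obtain ⟨h6, h7⟩ := hex i i le_rfl
      exact P.red_ne_zero h6 (by rw [sub_self] at h7; exact h7)
    by_contra hc
    apply h3
    change IsLocalRing.residue P.O _ = 0
    rw [IsLocalRing.residue_eq_zero_iff]
    exact hc
  have h2 := (P.isUnit_O_iff (f := ((M.det : P.O) : N)) M.det.2).1 hu
  rw [h1]
  exact h2

omit [CharZero S] [IsFF S N] [IsAlgClosed S] in
theorem iter_const (d : Derivation S N N) (c : S) (x : N) (j : ℕ) :
    (⇑d)^[j] (c • x) = c • (⇑d)^[j] x := by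
  induction j with
  | zero => rfl
  | succ j ih => rw [Function.iterate_succ_apply', ih, Derivation.map_smul,
      ← Function.iterate_succ_apply' (⇑d)]

omit [CharZero S] [IsFF S N] [IsAlgClosed S] in
theorem wr_lin (d : Derivation S N N) {r : ℕ} (A : Matrix (Fin r) (Fin r) S) (b : Fin r → N) :
    wr d (fun i => ∑ l, A i l • b l) = algebraMap S N A.det * wr d b := by
  unfold wr
  rw [RingHom.map_det, ← Matrix.det_mul]
  congr 1
  ext i j
  rw [Matrix.mul_apply]
  change (⇑d)^[(j : ℕ)] (∑ l, A i l • b l) = ∑ l, algebraMap S N (A i l) * (⇑d)^[(j : ℕ)] (b l)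
  rw [iter_sum]
  refine Finset.sum_congr rfl fun l _ => ?_
  rw [iter_const, Algebra.smul_def]

/-- the order of the Wronskian at a point where the orders are `0, 1, …, r - 1` -/
theorem wr_order {δ : Derivation S N N} (hδ : δ ≠ 0) (P : Place S N) (m : ℕ) {r : ℕ}
    (f : Fin r → N) (hf0 : ∀ i, f i ≠ 0) (hf : ∀ i, P.ord (f i) = m * vo P δ + (i : ℕ)) :
    wr δ f ≠ 0 ∧ P.ord (wr δ f) = (tri r + r * m) * vo P δ := by
  have hπ := ord_unif P
  set π := unif P with hπd
  set β := δ π with hβ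
  have hβ0 : β ≠ 0 := der_pi_ne_zero hδ P hπ
  have hord : P.ord β = vo P δ := rfl
  set φ : Fin r → N := fun i => f i / β ^ m with hφ
  have h1 : f = fun i => β ^ m * φ i := by
    funext i
    simp only [hφ]
    rw [mul_div_cancel₀ _ (pow_ne_zero _ hβ0)]
  have h2 : δ = β • dd δ π := by
    ext a
    rw [Derivation.coe_smul, Pi.smul_apply, dd_apply, smul_eq_mul, ← hβ, mul_inv_cancel_left₀ hβ0]
  obtain ⟨h3, h4⟩ := wr_unit P hπ (dd_self hδ P hπ) φ
    (fun i => div_ne_zero (hf0 i) (pow_ne_zero _ hβ0)) (fun i => by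
      simp only [hφ]
      rw [P.ord_div (hf0 i) (pow_ne_zero _ hβ0), hf, P.ord_pow, hord]
      ring)
  have h5 : wr δ f = (∏ i : Fin r, β ^ (i : ℕ) * β ^ m) * wr (dd δ π) φ := by
    rw [h1]
    conv_lhs => rw [h2]
    exact wr_change _ _ _ _
  have hprod0 : (∏ i : Fin r, β ^ (i : ℕ) * β ^ m) ≠ 0 :=
    Finset.prod_ne_zero_iff.2 fun i _ => mul_ne_zero (pow_ne_zero _ hβ0) (pow_ne_zero _ hβ0)
  have hprod : P.ord (∏ i : Fin r, β ^ (i : ℕ) * β ^ m) = (tri r + r * m) * vo P δ := by
    have h6 : ∀ s : Finset (Fin r), P.ord (∏ i ∈ s, β ^ (i : ℕ) * β ^ m) =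
        ∑ i ∈ s, (((i : ℕ) : ℤ) + m) * vo P δ := by
      intro s
      induction s using Finset.induction_on with
      | empty => simpa using P.ord_one
      | insert a s ha ih =>
        rw [Finset.prod_insert ha, Finset.sum_insert ha, P.ord_mul
          (mul_ne_zero (pow_ne_zero _ hβ0) (pow_ne_zero _ hβ0))
          (Finset.prod_ne_zero_iff.2 fun i _ =>
            mul_ne_zero (pow_ne_zero _ hβ0) (pow_ne_zero _ hβ0)), ih,
          P.ord_mul (pow_ne_zero _ hβ0) (pow_ne_zero _ hβ0), P.ord_pow, P.ord_pow, hord]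
        ring
    rw [h6, ← Finset.sum_mul, Finset.sum_add_distrib]
    simp [tri]
  rw [h5]
  refine ⟨mul_ne_zero hprod0 h3, ?_⟩
  rw [P.ord_mul hprod0 h3, hprod, h4, add_zero]

variable (D : Derivation ℤ N N) (h : Pres S D) (hreg : ∀ (P : Place S N) (f : N), Ge P 0 f →
  Ge P 0 (D f))

include h hreg

/-- at a point which is moved, the orders are `0, 1, …, r - 1` -/
theorem orders {δ : Derivation S N N} (hδ : δ ≠ 0) {z : N} (hz : δ z = 1) (m : ℕ)
    (P : Place S N) (hP : ¬ Ge P 1 (D (unif P))) {r : ℕ} (hr : finrank S (LL (m • Kd hδ)) = r) :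
    ∀ i : Fin r, ∃ f ∈ LL (m • Kd hδ), f ≠ 0 ∧ P.ord f = m * vo P δ + (i : ℕ) := by
  set Q : ℕ → Prop := fun n => ∃ f ∈ LL (m • Kd hδ), f ≠ 0 ∧ P.ord f = m * vo P δ + n with hQ
  have hstep : ∀ n, Q (n + 1) → Q n := by
    rintro n ⟨f, hf, hf0, hfo⟩
    obtain ⟨h1, h2⟩ := tw_ord D h hreg hz m P hP hf0 hfo
    refine ⟨_, ?_, h1, h2⟩
    rw [mem_pl] at hf ⊢
    exact fun P' => tw_reg D h hreg hz m P' (hf P')
  have hmono : ∀ n l, Q (n + l) → Q n := by
    intro n l
    induction l with
    | zero => exact id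
    | succ l ih => exact fun h' => ih (hstep _ h')
  have hall : ∀ n, n < r → Q n := by
    intro n hn
    by_contra hc
    have h1 : ∀ l, n ≤ l → ¬ Q l := by
      intro l hl hQl
      obtain ⟨j, rfl⟩ := Nat.exists_eq_add_of_le hl
      exact hc (hmono n j hQl)
    have h2 : cut P (LL (m • Kd hδ)).subtype ⊤ (m * vo P δ + n) = ⊥ := by
      rw [eq_bot_iff]
      intro f hf
      rw [Submodule.mem_bot]
      by_contra hf0
      have hf0' : (f : N) ≠ 0 := fun e => hf0 (Subtype.ext e)
      have h3 : m * vo P δ + n ≤ P.ord (f : N) := hf.2.resolve_left hf0'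
      obtain ⟨l, hl⟩ := Int.eq_ofNat_of_zero_le (sub_nonneg.2 h3)
      apply h1 (n + l) (by omega)
      exact ⟨f, f.2, hf0', by push_cast; omega⟩
    have h3 := codim P (LL (m • Kd hδ)).subtype ⊤ (m * vo P δ + n) n (fun w _ => by
      have := (mem_pl hδ m (w : N)).1 w.2 P
      simpa using this)
    rw [h2, finrank_bot, finrank_top, hr] at h3
    omega
  exact fun i => hall i i.2

/-- there is a point which is not moved -/
theorem exists_fixed (hκ : 0 < canDeg S N) : ∃ P : Place S N, Ge P 1 (D (unif P)) := by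
  by_contra hc
  push Not at hc
  obtain ⟨t, ht⟩ := IsFF.exists_transcendental (k := S) (K := N)
  obtain ⟨d, hd⟩ := exists_der (k := S) (K := N)
  obtain ⟨δ, hδd⟩ : ∃ δ, δ = dd d t := ⟨_, rfl⟩
  have hz : δ t = 1 := by
    rw [hδd, dd_apply, inv_mul_cancel₀ (der_ne_zero hd ht)]
  have hδ : δ ≠ 0 := by
    rintro rfl
    simp at hz
  obtain ⟨γ, N0, hγ, -⟩ := riemann S N
  obtain ⟨m, hm⟩ : ∃ m : ℕ, m = γ.toNat + 1 := ⟨_, rfl⟩
  have hell : 0 < ell (m • Kd hδ) := by
    have h1 := hγ (m • Kd hδ)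
    rw [ddeg_nsmul, ddeg_Kd] at h1
    have h2 : (m : ℤ) * 1 ≤ m * canDeg S N := mul_le_mul_of_nonneg_left hκ (by positivity)
    omega
  obtain ⟨r, hr⟩ : ∃ r, finrank S (LL (m • Kd hδ)) = r := ⟨_, rfl⟩
  have hr0 : 0 < r := by
    unfold ell at hell
    rw [hr] at hell
    exact_mod_cast hell
  let b := finBasisOfFinrankEq S (LL (m • Kd hδ)) hr
  have hW : wr δ (fun i => (b i : N)) ≠ 0 := by
    apply wr_ne_zero hδ
    exact b.linearIndependent.map' (LL (m • Kd hδ)).subtype (Submodule.ker_subtype _)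
  have hord : ∀ P : Place S N, P.ord (wr δ (fun i => (b i : N))) =
      (tri r + r * m) * vo P δ := by
    intro P
    choose f hf hf0 hfo using orders D h hreg hδ hz m P (hc P) hr
    obtain ⟨h1, h2⟩ := wr_order hδ P m f hf0 hfo
    set A : Matrix (Fin r) (Fin r) S := Matrix.of fun i l => b.repr ⟨f i, hf i⟩ l with hA
    have h3 : f = fun i => ∑ l, A i l • (b l : N) := by
      funext i
      have h4 := b.sum_repr ⟨f i, hf i⟩
      have h5 := congrArg (LL (m • Kd hδ)).subtype h4
      rw [map_sum] at h5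
      simp only [map_smul, Submodule.subtype_apply] at h5
      exact h5.symm
    rw [h3, wr_lin] at h1 h2
    have h4 : A.det ≠ 0 := by
      intro e
      rw [e, map_zero, zero_mul] at h1
      exact h1 rfl
    rw [P.ord_mul (by rwa [Ne, map_eq_zero]) hW, P.ord_const h4, zero_add] at h2
    exact h2
  classical
  set T : Finset (Place S N) := (finite_support (k := S) (wr δ (fun i => (b i : N)))).toFinset ∪
    (vo_finite hδ).toFinset with hT
  have h1 := sum_ord_finset (wr δ (fun i => (b i : N))) T (fun P hP => by simp [hT, hP])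
  have h2 := canDeg_finset hδ T (fun P hP => by simp [hT, hP])
  rw [Finset.sum_congr rfl fun P _ => hord P, ← Finset.mul_sum, h2] at h1
  have h3 : 0 < tri r + r * m := by
    have h4 : 0 ≤ tri r := Finset.sum_nonneg fun i _ => Int.natCast_nonneg _
    have h5 : (0 : ℤ) < r * m := by
      have : 0 < r * m := Nat.mul_pos hr0 (by omega)
      exact_mod_cast this
    omega
  have h4 := (mul_eq_zero.1 h1).resolve_left h3.ne'
  omega

end Pool.Agent.H916
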