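import Pool.Agent.H916.Alg

/-! Functions on the prolongation of a curve. -/

set_option autoImplicit false

open FF Pool.Agent.W603.LV Module

namespace Pool.Agent.H916

section space

variable {S F : Type*} [Field S] [Field F] [Algebra S F]

/-- the divisor of the points in a finite set -/
noncomputable def TD (T : Finset (Place S F)) : Place S F →₀ ℤ := ∑ P ∈ T, Finsupp.single P 1

open Classical in
theorem TD_apply (T : Finset (Place S F)) (P : Place S F) :
    TD T P = if P ∈ T then 1 else 0 := by
  unfold TD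
  rw [Finsupp.finsetSum_apply]
  simp only [Finsupp.single_apply]
  rw [Finset.sum_ite_eq' T P]

variable [CharZero S] [IsFF S F] [IsAlgClosed S]

theorem ddeg_TD (T : Finset (Place S F)) : ddeg (TD T) = T.card := by
  classical
  rw [ddeg_eq (TD T) T]
  · have : ∀ P ∈ T, TD T P = 1 := fun P hP => by rw [TD_apply, if_pos hP]
    rw [Finset.sum_congr rfl this]
    simp
  · intro P hP
    rw [TD_apply] at hP
    by_contra hc
    rw [if_neg hc] at hP
    exact hP rfl

variable {δ : Derivation S F F} (hδ : δ ≠ 0) (T : Finset (Place S F)) (c n : ℕ)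

/-- the divisors of the poles of the coefficients -/
noncomputable def EE (j : ℕ) : Place S F →₀ ℤ := j • Kd hδ + (c * (n - j)) • TD T

theorem EE_in {P : Place S F} (hP : P ∈ T) {j : ℕ} (hj : j ≤ n) :
    EE hδ T c n j P = -(j * vo P δ) + c * (n - j) := by
  classical
  unfold EE
  rw [Finsupp.add_apply, Finsupp.smul_apply, Finsupp.smul_apply, TD_apply, if_pos hP, Kd_apply,
    nsmul_eq_mul, nsmul_eq_mul]
  push_cast [Nat.cast_sub hj]
  ring

theorem EE_out {P : Place S F} (hP : P ∉ T) (hv : vo P δ = 0) (j : ℕ) :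
    EE hδ T c n j P = 0 := by
  classical
  unfold EE
  rw [Finsupp.add_apply, Finsupp.smul_apply, Finsupp.smul_apply, TD_apply, if_neg hP, Kd_apply, hv]
  simp

theorem ddeg_EE (j : ℕ) : ddeg (EE hδ T c n j) =
    j * canDeg S F + ((c * (n - j) : ℕ) : ℤ) * T.card := by
  unfold EE
  rw [ddeg_add, ddeg_nsmul, ddeg_nsmul, ddeg_Kd, ddeg_TD]

/-- the space of the coefficients -/
abbrev WW : Type _ := ∀ j : Fin (n + 1), LL (EE hδ T c n j)

/-- the coefficients of the expansion with respect to `D u = α + β D z` -/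
noncomputable def cf (α β : F) (i j : ℕ) : F := (Nat.choose j i : F) * (β⁻¹ ^ j * (-α) ^ (j - i))

/-- the coefficient of `(D u) ^ i` -/
noncomputable def bb (α β : F) (i : ℕ) : WW hδ T c n →ₗ[S] F :=
  ∑ j : Fin (n + 1), (LinearMap.mulLeft S (cf α β i j)).comp
    ((LL (EE hδ T c n j)).subtype.comp (LinearMap.proj j))

theorem bb_apply (α β : F) (i : ℕ) (a : WW hδ T c n) :
    bb hδ T c n α β i a = ∑ j : Fin (n + 1), cf α β i j * (a j : F) := by
  unfold bb
  rw [LinearMap.sum_apply]
  rfl

theorem bb_ge {P : Place S F} (hP : P ∈ T) {α β : F} (hβ : P.ord β = vo P δ)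
    (hα : Ge P (-c) α) {i : ℕ} (hi : i ≤ n) (a : WW hδ T c n) :
    Ge P (0 - ((c * (n - i) : ℕ) : ℤ)) (bb hδ T c n α β i a) := by
  rw [bb_apply]
  refine Ge.sum _ _ fun j _ => ?_
  have hjn : (j : ℕ) ≤ n := by omega
  by_cases hij : i ≤ j
  · have h1 : Ge P (j * vo P δ - c * (n - j)) (a j : F) := by
      have h2 := (mem_LL (D := EE hδ T c n j)).1 (a j).2
      rcases h2 with h2 | h2
      · exact Or.inl h2
      · right
        have h3 := h2 P
        rw [EE_in hδ T c n hP hjn] at h3
        linarith
    have h2 : Ge P (-(j * vo P δ)) (β⁻¹ ^ (j : ℕ)) := by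
      right
      rw [P.ord_pow, P.ord_inv, hβ]
      apply le_of_eq
      ring
    have h3 : Ge P (((j : ℕ) - i : ℕ) * (-c)) ((-α) ^ ((j : ℕ) - i)) := hα.neg.pow _
    have h4 := ((Ge.natCast (P := P) (Nat.choose j i)).mul (h2.mul h3)).mul h1
    refine h4.mono ?_
    apply le_of_eq
    push_cast [Nat.cast_sub hi, Nat.cast_sub hij]
    ring
  · left
    unfold cf
    rw [Nat.choose_eq_zero_of_lt (not_le.1 hij)]
    simp

/-- the value at `w` -/
noncomputable def evw {K : Type*} [Field K] [Algebra F K] (w : K) (a : WW hδ T c n) : K :=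
  ∑ j : Fin (n + 1), algebraMap F K (a j : F) * w ^ (j : ℕ)

theorem evw_bb {K : Type*} [Field K] [Algebra F K] {w y : K} {α β : F} (hβ0 : β ≠ 0)
    (hy : y = algebraMap F K α + algebraMap F K β * w) (a : WW hδ T c n) :
    evw hδ T c n w a = ∑ i ∈ Finset.range (n + 1),
      algebraMap F K (bb hδ T c n α β i a) * y ^ i := by
  have hβ0' : algebraMap F K β ≠ 0 := by rwa [Ne, map_eq_zero]
  have hw : w = algebraMap F K β⁻¹ * (y + algebraMap F K (-α)) := by
    rw [hy, map_neg, map_inv₀]
    field_simp
    ring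
  unfold evw
  simp only [bb_apply, map_sum, Finset.sum_mul]
  rw [Finset.sum_comm]
  refine Finset.sum_congr rfl fun j _ => ?_
  have h1 : w ^ (j : ℕ) = ∑ i ∈ Finset.range (n + 1),
      algebraMap F K (cf α β i j) * y ^ i := by
    conv_lhs => rw [hw, mul_pow, add_pow]
    rw [Finset.mul_sum]
    rw [Finset.sum_subset (Finset.range_mono (show (j : ℕ) + 1 ≤ n + 1 by omega))]
    · refine Finset.sum_congr rfl fun i _ => ?_
      unfold cf
      simp only [map_mul, map_pow, map_natCast]
      ring
    · intro i _ hi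
      rw [Finset.mem_range, not_lt] at hi
      rw [Nat.choose_eq_zero_of_lt (by omega)]
      simp
  rw [h1, Finset.mul_sum]
  refine Finset.sum_congr rfl fun i _ => ?_
  rw [map_mul]
  ring

/-- the conditions at the places in a finite set -/
def VV (al be : Place S F → F) (A : Finset (Place S F × ℕ)) : Submodule S (WW hδ T c n) where
  carrier := {a | ∀ q ∈ A, Ge q.1 0 (bb hδ T c n (al q.1) (be q.1) q.2 a)}
  zero_mem' := fun q _ => by rw [map_zero]; exact Ge.zero
  add_mem' := fun ha hb q hq => by rw [map_add]; exact (ha q hq).add (hb q hq)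
  smul_mem' := fun s a ha q hq => by
    rw [map_smul, Algebra.smul_def]
    have := (Ge.const (P := q.1) s).mul (ha q hq)
    rwa [zero_add] at this

theorem VV_rank (al be : Place S F → F) (A : Finset (Place S F × ℕ))
    (hA : ∀ q ∈ A, ∀ a : WW hδ T c n,
      Ge q.1 (0 - ((c * (n - q.2) : ℕ) : ℤ)) (bb hδ T c n (al q.1) (be q.1) q.2 a)) :
    finrank S (WW hδ T c n) ≤ finrank S (VV hδ T c n al be A) + ∑ q ∈ A, c * (n - q.2) := by
  classical
  induction A using Finset.induction_on with
  | empty =>
    have h1 : VV hδ T c n al be ∅ = ⊤ := by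
      rw [eq_top_iff]
      intro a _ q hq
      exact absurd hq (Finset.notMem_empty q)
    rw [h1, finrank_top]
    omega
  | insert q A hq ih =>
    have h1 := ih fun q' hq' => hA q' (Finset.mem_insert_of_mem hq')
    have h2 := codim q.1 (bb hδ T c n (al q.1) (be q.1) q.2) (VV hδ T c n al be A) 0
      (c * (n - q.2)) (fun w _ => hA q (Finset.mem_insert_self q A) w)
    have h3 : cut q.1 (bb hδ T c n (al q.1) (be q.1) q.2) (VV hδ T c n al be A) 0 ≤
        VV hδ T c n al be (insert q A) := by
      intro w hw q' hq'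
      rcases Finset.mem_insert.1 hq' with rfl | hq'
      · exact hw.2
      · exact hw.1 q' hq'
    have h4 := Submodule.finrank_mono h3
    rw [Finset.sum_insert hq]
    omega

end space

end Pool.Agent.H916
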