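import Pool.Agent.H916.Jet

/-! The derivative of a function is algebraic, if there are no functions on the prolongation of the
curve except for the constants. -/

set_option autoImplicit false

open FF Pool.Agent.W603.LV Module IntermediateField

namespace Pool.Agent.H916

variable {S F K : Type*} [Field S] [Field F] [Field K] [Algebra S F] [Algebra F K]

/-- `D - w δ` as a derivation -/
def EDer (D : Derivation ℤ K K) (δ : Derivation S F F) (w : K) : Derivation ℤ F K :=
  Derivation.mk'
    (AddMonoidHom.toIntLinearMap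
      { toFun := fun a => D (algebraMap F K a) - algebraMap F K (δ a) * w
        map_zero' := by simp
        map_add' := by
          intro a b
          simp only [map_add]
          ring })
    (by
      intro a b
      change D (algebraMap F K (a * b)) - algebraMap F K (δ (a * b)) * w =
        a • (D (algebraMap F K b) - algebraMap F K (δ b) * w) +
          b • (D (algebraMap F K a) - algebraMap F K (δ a) * w)
      rw [Algebra.smul_def, Algebra.smul_def, map_mul, D.leibniz, δ.leibniz]
      simp only [smul_eq_mul, map_add, map_mul]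
      ring)

theorem EDer_apply (D : Derivation ℤ K K) (δ : Derivation S F F) (w : K) (a : F) :
    EDer D δ w a = D (algebraMap F K a) - algebraMap F K (δ a) * w := rfl

/-- the field of the elements whose image under a derivation is in `F` -/
def rangeField (E : Derivation ℤ F K) (hS : ∀ s : S, E (algebraMap S F s) ∈
    Set.range (algebraMap F K)) : IntermediateField S F where
  carrier := {x | E x ∈ Set.range (algebraMap F K)}
  mul_mem' := by
    rintro a b ⟨a', ha⟩ ⟨b', hb⟩
    refine ⟨a * b' + b * a', ?_⟩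
    rw [E.leibniz, ← ha, ← hb, Algebra.smul_def, Algebra.smul_def, map_add, map_mul, map_mul]
  add_mem' := by
    rintro a b ⟨a', ha⟩ ⟨b', hb⟩
    exact ⟨a' + b', by rw [map_add, map_add, ha, hb]⟩
  algebraMap_mem' := hS
  inv_mem' := by
    rintro a ⟨a', ha⟩
    refine ⟨-a⁻¹ ^ 2 * a', ?_⟩
    rw [E.leibniz_inv, ← ha, Algebra.smul_def, map_mul]

variable [CharZero S] [IsFF S F]

theorem decomp (D : Derivation ℤ K K)
    (hS : ∀ s : S, ∃ s' : S, D (algebraMap F K (algebraMap S F s)) =
      algebraMap F K (algebraMap S F s')) {δ : Derivation S F F} {z : F} (hz : δ z = 1)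
    (htr : Transcendental S z) (a : F) :
    ∃ α : F, D (algebraMap F K a) =
      algebraMap F K α + algebraMap F K (δ a) * D (algebraMap F K z) := by
  have hcF : CharZero F := charZero_of_injective_algebraMap (algebraMap S F).injective
  set w := D (algebraMap F K z) with hw
  have hSE : ∀ s : S, EDer D δ w (algebraMap S F s) ∈ Set.range (algebraMap F K) := by
    intro s
    obtain ⟨s', hs'⟩ := hS s
    refine ⟨algebraMap S F s', ?_⟩
    rw [EDer_apply, hs', δ.map_algebraMap, map_zero, zero_mul, sub_zero]
  have hzE : z ∈ rangeField (S := S) (EDer D δ w) hSE := by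
    refine ⟨0, ?_⟩
    rw [EDer_apply, hz, map_one, one_mul, map_zero, ← hw, sub_self]
  have hle : S⟮z⟯ ≤ rangeField (S := S) (EDer D δ w) hSE := by
    rw [IntermediateField.adjoin_simple_le_iff]
    exact hzE
  have halg : IsAlgebraic (S⟮z⟯.toSubfield) a := (IsFF.isAlgebraic htr).isAlgebraic a
  obtain ⟨α, hα⟩ := der_range (EDer D δ w) S⟮z⟯.toSubfield (fun x hx => hle hx) a halg
  refine ⟨α, ?_⟩
  rw [hα, EDer_apply]
  ring

variable [IsAlgClosed S]

theorem jet_algebraic (D : Derivation ℤ K K)
    (hS : ∀ s : S, ∃ s' : S, D (algebraMap F K (algebraMap S F s)) =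
      algebraMap F K (algebraMap S F s'))
    (hG : ∀ φ : K, (∀ P : Place S F, φ ∈ tau D P) → ∃ c : S,
      φ = algebraMap F K (algebraMap S F c))
    (hκ : 0 < canDeg S F) {z : F} (hz : Transcendental S z) :
    IsAlgebraic F (D (algebraMap F K z)) := by
  classical
  by_contra hw
  set w := D (algebraMap F K z) with hwd
  obtain ⟨d, hd⟩ := exists_der (k := S) (K := F)
  obtain ⟨δ, hδd⟩ : ∃ δ, δ = dd d z := ⟨_, rfl⟩
  have hδz : δ z = 1 := by
    rw [hδd, dd_apply, inv_mul_cancel₀ (der_ne_zero hd hz)]
  have hδ : δ ≠ 0 := by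
    rintro rfl
    simp at hδz
  choose al hal using decomp D hS hδz hz
  obtain ⟨T, hT⟩ : ∃ T : Finset (Place S F), T = (vo_finite hδ).toFinset ∪
    (finite_support (k := S) z).toFinset := ⟨_, rfl⟩
  have hTv : ∀ P, P ∉ T → vo P δ = 0 := by
    intro P hP
    by_contra hc
    apply hP
    rw [hT]
    simp [hc]
  have hTz : ∀ P : Place S F, P ∉ T → P.ord z = 0 := by
    intro P hP
    by_contra hc
    apply hP
    rw [hT]
    simp [hc]
  obtain ⟨c, hc⟩ : ∃ c : ℕ, ∀ P ∈ T, Ge P (-c) (al (unif P)) := by
    refine ⟨∑ P ∈ T, (-P.ord (al (unif P))).toNat, fun P hP => Or.inr ?_⟩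
    have h1 : (-P.ord (al (unif P))).toNat ≤ ∑ P ∈ T, (-P.ord (al (unif P))).toNat :=
      Finset.single_le_sum (f := fun P : Place S F => (-P.ord (al (unif P))).toNat)
        (fun _ _ => Nat.zero_le _) hP
    omega
  obtain ⟨γ, N0, hγ, -⟩ := riemann S F
  obtain ⟨n, hn⟩ : ∃ n : ℕ, n = 2 * (γ.toNat + 1) := ⟨_, rfl⟩
  set be : Place S F → F := fun P => δ (unif P) with hbe
  set al' : Place S F → F := fun P => al (unif P) with hal'
  set A := T ×ˢ Finset.range (n + 1) with hA
  have hβ0 : ∀ P : Place S F, be P ≠ 0 := fun P => der_pi_ne_zero hδ P (ord_unif P)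
  have hrank := VV_rank hδ T c n al' be A (fun q hq a => by
    obtain ⟨h1, h2⟩ := Finset.mem_product.1 hq
    exact bb_ge hδ T c n h1 rfl (hc _ h1) (by
      have := Finset.mem_range.1 h2
      omega) a)
  -- the lower bound
  have hlow : 2 ≤ finrank S (VV hδ T c n al' be A) := by
    have h1 : (finrank S (WW hδ T c n) : ℤ) = ∑ j : Fin (n + 1), ell (EE hδ T c n j) := by
      unfold WW ell
      rw [Module.finrank_pi_fintype]
      push_cast
      rfl
    have h2 : ∑ j : Fin (n + 1), (((j : ℕ) : ℤ) * canDeg S F +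
        ((c * (n - j) : ℕ) : ℤ) * T.card - γ) ≤ ∑ j : Fin (n + 1), ell (EE hδ T c n j) := by
      refine Finset.sum_le_sum fun j _ => ?_
      have := hγ (EE hδ T c n j)
      rw [ddeg_EE] at this
      exact this
    have h3 : ∑ q ∈ A, c * (n - q.2) = T.card * ∑ i ∈ Finset.range (n + 1), c * (n - i) := by
      rw [hA, Finset.sum_product]
      simp
    have h4 : ∑ j : Fin (n + 1), (((c * (n - j) : ℕ) : ℤ) * T.card) =
        ((T.card * ∑ i ∈ Finset.range (n + 1), c * (n - i) : ℕ) : ℤ) := by
      rw [← Finset.sum_mul, Finset.sum_range (fun i => c * (n - i))]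
      push_cast
      ring
    have h5 : ∑ j : Fin (n + 1), ((j : ℕ) : ℤ) = (n * (n + 1) / 2 : ℕ) := by
      have h6 := Finset.sum_range_id_mul_two (n + 1)
      have h7 : ∑ i ∈ Finset.range (n + 1), i = n * (n + 1) / 2 := by
        rw [Nat.add_sub_cancel, mul_comm (n + 1) n] at h6
        omega
      rw [← h7, Finset.sum_range]
      push_cast
      rfl
    have h6 : n * (n + 1) / 2 = (γ.toNat + 1) * (n + 1) := by
      rw [hn, mul_assoc, Nat.mul_div_cancel_left _ (by norm_num : 0 < 2)]
    rw [Finset.sum_sub_distrib, Finset.sum_add_distrib, ← Finset.sum_mul, h4, h5, h6,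
      ← h1] at h2
    simp only [Finset.sum_const, Finset.card_univ, Fintype.card_fin, nsmul_eq_mul] at h2
    rw [h3] at hrank
    have h7 : (finrank S (WW hδ T c n) : ℤ) ≤ finrank S (VV hδ T c n al' be A) +
        ((T.card * ∑ i ∈ Finset.range (n + 1), c * (n - i) : ℕ) : ℤ) := by
      exact_mod_cast hrank
    have h8 : (((γ.toNat + 1) * (n + 1) : ℕ) : ℤ) ≤
        (((γ.toNat + 1) * (n + 1) : ℕ) : ℤ) * canDeg S F := by
      apply le_mul_of_one_le_right (Int.natCast_nonneg _)
      omega
    have h9 : γ ≤ γ.toNat := Int.self_le_toNat γ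
    have h10 : ((n + 1 : ℕ) : ℤ) * γ ≤ ((n + 1 : ℕ) : ℤ) * γ.toNat :=
      mul_le_mul_of_nonneg_left h9 (Int.natCast_nonneg _)
    have h11 : (((γ.toNat + 1) * (n + 1) : ℕ) : ℤ) = ((n + 1 : ℕ) : ℤ) * γ.toNat + (n + 1) := by
      push_cast
      ring
    have h12 : (2 : ℤ) ≤ n := by
      rw [hn]
      push_cast
      omega
    have : (2 : ℤ) ≤ finrank S (VV hδ T c n al' be A) := by linarith
    exact_mod_cast this
  -- the values are constant
  have hwT : ∀ P : Place S F, 0 ≤ P.ord z → w ∈ tau D P := fun P hP => by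
    rw [hwd]
    exact tau_der D P (Or.inr hP)
  have hval : ∀ a ∈ VV hδ T c n al' be A, ∃ s : S, evw hδ T c n w a =
      algebraMap F K (algebraMap S F s) := by
    intro a ha
    refine hG _ fun P => ?_
    by_cases hP : P ∈ T
    · rw [evw_bb hδ T c n (hβ0 P) (hal (unif P)) a]
      refine Subring.sum_mem _ fun i hi => ?_
      refine Subring.mul_mem _ (tau_coe D P (ha (P, i) (Finset.mem_product.2 ⟨hP, hi⟩))) ?_
      refine Subring.pow_mem _ (tau_der D P (Or.inr ?_)) i
      rw [ord_unif]
      norm_num
    · unfold evw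
      refine Subring.sum_mem _ fun j _ => ?_
      refine Subring.mul_mem _ (tau_coe D P ?_) (Subring.pow_mem _ (hwT P ?_) _)
      · rcases (mem_LL (D := EE hδ T c n j)).1 (a j).2 with h1 | h1
        · exact Or.inl h1
        · right
          have := h1 P
          rwa [EE_out hδ T c n hP (hTv P hP), neg_zero] at this
      · rw [hTz P hP]
  -- they determine the coefficients
  have hzero : ∀ a ∈ VV hδ T c n al' be A, ∀ s : S, evw hδ T c n w a =
      algebraMap F K (algebraMap S F s) → (a 0 : F) = algebraMap S F s ∧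
        ∀ j : Fin (n + 1), j ≠ 0 → (a j : F) = 0 := by
    intro a _ s hs
    have hw' : Transcendental F w := hw
    rw [transcendental_iff_injective] at hw'
    set p : Polynomial F := ∑ j : Fin (n + 1), Polynomial.monomial (j : ℕ) (a j : F) with hp
    have hpc : ∀ j : Fin (n + 1), p.coeff j = (a j : F) := by
      intro j
      rw [hp, Polynomial.finsetSum_coeff]
      rw [Finset.sum_eq_single j]
      · rw [Polynomial.coeff_monomial, if_pos rfl]
      · intro i _ hij
        rw [Polynomial.coeff_monomial, if_neg (fun e => hij (Fin.ext e))]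
      · intro h
        exact absurd (Finset.mem_univ j) h
    have h1 : Polynomial.aeval w p = Polynomial.aeval w (Polynomial.C (algebraMap S F s)) := by
      rw [Polynomial.aeval_C, ← hs, hp, map_sum]
      unfold evw
      refine Finset.sum_congr rfl fun j _ => ?_
      rw [Polynomial.aeval_monomial]
    have h2 := hw' h1
    constructor
    · have h3 := hpc 0
      rw [h2] at h3
      rw [← h3]
      simp
    · intro j hj
      rw [← hpc j, h2, Polynomial.coeff_C, if_neg]
      intro e
      exact hj (Fin.ext e)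
  -- the upper bound
  let g : VV hδ T c n al' be A →ₗ[S] F :=
    (LL (EE hδ T c n 0)).subtype.comp ((LinearMap.proj (R := S)
      (φ := fun j : Fin (n + 1) => LL (EE hδ T c n j)) 0).comp
        (VV hδ T c n al' be A).subtype)
  have hg : ∀ a : VV hδ T c n al' be A, g a = ((a : WW hδ T c n) 0 : F) := fun a => rfl
  have hinj : Function.Injective g := by
    rw [injective_iff_map_eq_zero]
    intro a ha
    obtain ⟨s, hs⟩ := hval a a.2
    obtain ⟨h1, h2⟩ := hzero a a.2 s hs
    apply Subtype.ext
    funext j
    apply Subtype.ext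
    by_cases hj : j = 0
    · subst hj
      exact ha
    · exact h2 j hj
  have hrange : LinearMap.range g ≤ Submodule.span S {(1 : F)} := by
    rintro x ⟨a, rfl⟩
    obtain ⟨s, hs⟩ := hval a a.2
    obtain ⟨h1, -⟩ := hzero a a.2 s hs
    rw [Submodule.mem_span_singleton]
    exact ⟨s, by rw [hg, h1, Algebra.smul_def, mul_one]⟩
  have h1 := Submodule.finrank_mono hrange
  rw [finrank_span_singleton (one_ne_zero (α := F)), LinearMap.finrank_range_of_inj hinj] at h1
  omega

end Pool.Agent.H916
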