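import Pool.Agent.H916.LJet
import Pool.Agent.H916.Bc

/-! Extensions of the field of constants: the degree of the logarithmic canonical divisor remains
positive. -/

set_option autoImplicit false
set_option linter.overlappingInstances false
set_option linter.unusedSectionVars false

open FF Pool.Agent.W603.LV Module Polynomial

namespace Pool.Agent.H916

/-- the number of the places which are poles of a function -/
noncomputable def npo (k : Type*) {K : Type*} [Field k] [Field K] [Algebra k K] (z : K) : ℕ :=
  {P : Place k K | P.ord z < 0}.ncard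

section can

variable {S N : Type*} [Field S] [Field N] [Algebra S N] [CharZero S] [IsFF S N]

theorem exists_Z (z : N) : ∃ Z : Finset (Place S N), (∀ P, P ∈ Z ↔ P.ord z < 0) ∧
    npo S z = Z.card := by
  have hfin : {P : Place S N | P.ord z < 0}.Finite :=
    (finite_support (k := S) z).subset fun P (hP : P.ord z < 0) => by
      simp only [Set.mem_ofPred_eq]
      exact hP.ne
  refine ⟨hfin.toFinset, fun P => by simp, ?_⟩
  exact Set.ncard_eq_toFinset_card _ hfin

variable [IsAlgClosed S]

open scoped Classical in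
theorem mem_pll {δ : Derivation S N N} (hδ : δ ≠ 0) (Z : Finset (Place S N)) (m : ℕ) (f : N) :
    f ∈ LL (m • (Kd hδ + TD Z)) ↔
      ∀ P : Place S N, Ge P (m * (vo P δ - if P ∈ Z then 1 else 0)) f := by
  rw [mem_LL]
  have e : ∀ P : Place S N, -(m • (Kd hδ + TD Z)) P =
      m * (vo P δ - if P ∈ Z then 1 else 0) := by
    intro P
    rw [Finsupp.smul_apply, Finsupp.add_apply, Kd_apply, TD_apply, nsmul_eq_mul]
    ring
  simp only [e]
  constructor
  · rintro (h | h) P
    · exact Or.inl h
    · exact Or.inr (h P)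
  · intro h
    by_cases hf : f = 0
    · exact Or.inl hf
    · exact Or.inr fun P => (h P).resolve_left hf

open scoped Classical in
/-- two logarithmic pluricanonical forms -/
theorem exists_two_logforms (Z : Finset (Place S N)) (hκ : 0 < canDeg S N + Z.card)
    {δ : Derivation S N N} (hδ : δ ≠ 0) :
    ∃ (m : ℕ) (f g : N), 0 < m ∧ f ≠ 0 ∧ g ≠ 0 ∧
      (∀ P : Place S N, Ge P (m * (vo P δ - if P ∈ Z then 1 else 0)) f) ∧
      (∀ P : Place S N, Ge P (m * (vo P δ - if P ∈ Z then 1 else 0)) g) ∧
      ∀ c : S, g ≠ c • f := by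
  obtain ⟨γ, N0, hγ, -⟩ := riemann S N
  obtain ⟨m, hm⟩ : ∃ m : ℕ, m = γ.toNat + 2 := ⟨_, rfl⟩
  obtain ⟨κ, hκd⟩ : ∃ κ : ℤ, κ = canDeg S N + Z.card := ⟨_, rfl⟩
  have hell : 2 ≤ ell (m • (Kd hδ + TD Z)) := by
    have h1 := hγ (m • (Kd hδ + TD Z))
    rw [ddeg_nsmul, ddeg_add, ddeg_Kd, ddeg_TD, ← hκd] at h1
    have h2 : (m : ℤ) * 1 ≤ m * κ := mul_le_mul_of_nonneg_left (by omega) (by positivity)
    omega
  have hell' : 1 < finrank S (LL (m • (Kd hδ + TD Z))) := by
    unfold ell at hell
    omega
  have hfin : Module.Finite S (LL (m • (Kd hδ + TD Z))) :=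
    Module.finite_of_finrank_pos (by omega)
  have hnt : Nontrivial (LL (m • (Kd hδ + TD Z))) :=
    Module.nontrivial_of_finrank_pos (R := S) (by omega)
  obtain ⟨f, hf⟩ := exists_ne (0 : LL (m • (Kd hδ + TD Z)))
  by_contra hcon
  push Not at hcon
  have h3 : finrank S (LL (m • (Kd hδ + TD Z))) ≤ 1 := by
    refine finrank_le_one f fun g => ?_
    by_cases hg : g = 0
    · exact ⟨0, by rw [hg, zero_smul]⟩
    obtain ⟨c, hc⟩ := hcon m (f : N) (g : N) (by omega) (fun h => hf (Subtype.ext h))
      (fun h => hg (Subtype.ext h)) ((mem_pll hδ Z m _).1 f.2) ((mem_pll hδ Z m _).1 g.2)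
    exact ⟨c, Subtype.ext hc.symm⟩
  omega

open scoped Classical in
/-- the converse -/
theorem canDeg_pos_of_log (Z : Finset (Place S N)) {δ : Derivation S N N} (hδ : δ ≠ 0) {m : ℕ}
    (hm : 0 < m) {f g : N} (hf0 : f ≠ 0)
    (hf : ∀ P : Place S N, Ge P (m * (vo P δ - if P ∈ Z then 1 else 0)) f)
    (hg : ∀ P : Place S N, Ge P (m * (vo P δ - if P ∈ Z then 1 else 0)) g)
    (hfg : ∀ c : S, g ≠ c • f) : 0 < canDeg S N + Z.card := by
  set T : Finset (Place S N) := Z ∪ ((finite_support (k := S) f).toFinset ∪
    (vo_finite hδ).toFinset) with hT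
  have h1 := sum_ord_finset f T (fun P hP => by simp [hT, hP])
  have h2' := canDeg_finset hδ T (fun P hP => by simp [hT, hP])
  have h2 : ∑ P ∈ T, (vo P δ - if P ∈ Z then 1 else 0) = -(canDeg S N + Z.card) := by
    rw [Finset.sum_sub_distrib, h2', ← Finset.sum_filter]
    have h3 : T.filter (fun P => P ∈ Z) = Z := by
      ext P
      rw [Finset.mem_filter]
      exact ⟨fun h => h.2, fun h => ⟨by rw [hT]; exact Finset.mem_union_left _ h, h⟩⟩
    rw [h3]
    simp only [Finset.sum_const, nsmul_eq_mul, mul_one]
    ring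
  have h3 : ∀ P : Place S N, m * (vo P δ - if P ∈ Z then 1 else 0) ≤ P.ord f :=
    fun P => (hf P).resolve_left hf0
  have h4 := Finset.sum_le_sum fun P (_ : P ∈ T) => h3 P
  rw [← Finset.mul_sum, h1, h2] at h4
  have hm' : (0 : ℤ) < m := by exact_mod_cast hm
  have h5 : 0 ≤ canDeg S N + Z.card := by
    by_contra hc
    push Not at hc
    have := mul_pos hm' (neg_pos.2 hc)
    omega
  refine lt_of_le_of_ne h5 fun h0 => ?_
  rw [← h0] at h2
  -- the divisor of the first form is zero
  have h6 : ∀ P ∈ T, P.ord f - m * (vo P δ - if P ∈ Z then 1 else 0) = 0 := by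
    have h7 : ∑ P ∈ T, (P.ord f - m * (vo P δ - if P ∈ Z then 1 else 0)) = 0 := by
      rw [Finset.sum_sub_distrib, ← Finset.mul_sum, h1, h2]
      ring
    exact (Finset.sum_eq_zero_iff_of_nonneg fun P _ => by
      have := h3 P
      omega).1 h7
  have h8 : ∀ P : Place S N, P.ord f = m * (vo P δ - if P ∈ Z then 1 else 0) := by
    intro P
    by_cases hP : P ∈ T
    · have := h6 P hP
      omega
    · have e1 : P.ord f = 0 := by
        by_contra h
        exact hP (by simp [hT, h])
      have e2 : vo P δ = 0 := by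
        by_contra h
        exact hP (by simp [hT, h])
      have e3 : P ∉ Z := fun h => hP (by rw [hT]; exact Finset.mem_union_left _ h)
      rw [e1, e2, if_neg e3, sub_zero, mul_zero]
  have h9 : hgt S (g / f) ≤ 0 := by
    rw [hgt_finset (g / f) (finite_support (k := S) (g / f)).toFinset
      (fun P hP => by simpa using hP)]
    refine Finset.sum_nonpos fun P _ => ?_
    refine max_le ?_ le_rfl
    by_cases hg0 : g = 0
    · rw [hg0, zero_div, P.ord_zero, neg_zero]
    · rw [P.ord_div hg0 hf0, h8]
      have := (hg P).resolve_left hg0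
      omega
  obtain ⟨c, hc⟩ := const_of_hgt h9
  apply hfg c
  rw [div_eq_iff hf0] at hc
  rw [hc, Algebra.smul_def]

end can

section main

variable {k M S F : Type*} [Field k] [Field M] [Field S] [Field F] [Algebra k M] [Algebra S F]
  [Algebra M F] [CharZero k] [IsAlgClosed k] [IsFF k M] [CharZero S] [IsAlgClosed S] [IsFF S F]

/-- **Extension of the field of constants, with cusps.** -/
theorem npo_pos_bc (hk : ∀ c : k, ∃ s : S, algebraMap M F (algebraMap k M c) =
    algebraMap S F s) (hx : ∃ x : M, ∀ s : S, algebraMap M F x ≠ algebraMap S F s) (b : M)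
    (h : 0 < canDeg k M + npo k b) : 0 < canDeg S F + npo S (algebraMap M F b) := by
  classical
  have hcM : CharZero M := charZero_of_injective_algebraMap (algebraMap k M).injective
  obtain ⟨ZM, hZM, hcardM⟩ := exists_Z (S := k) b
  obtain ⟨ZF, hZF, hcardF⟩ := exists_Z (S := S) (algebraMap M F b)
  rw [hcardM] at h
  rw [hcardF]
  obtain ⟨z, hz⟩ := hx
  have hzk : Transcendental k z := by
    intro hc
    have h1 := IsAlgClosed.degree_eq_one_of_irreducible k (minpoly.irreducible hc.isIntegral)
    obtain ⟨c, hc⟩ := minpoly.mem_range_of_degree_eq_one k z h1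
    obtain ⟨s, hs⟩ := hk c
    exact hz s (by rw [← hc, hs])
  have hzS : Transcendental S (algebraMap M F z) := by
    intro hc
    have h1 := IsAlgClosed.degree_eq_one_of_irreducible S (minpoly.irreducible hc.isIntegral)
    obtain ⟨c, hc⟩ := minpoly.mem_range_of_degree_eq_one S _ h1
    exact hz c hc.symm
  obtain ⟨d, hd⟩ := exists_der (k := k) (K := M)
  obtain ⟨δ, hδd⟩ : ∃ δ, δ = dd d z := ⟨_, rfl⟩
  have hδz : δ z = 1 := by
    rw [hδd, dd_apply, inv_mul_cancel₀ (der_ne_zero hd hzk)]
  have hδ : δ ≠ 0 := by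
    rintro rfl
    simp at hδz
  obtain ⟨d', hd'⟩ := exists_der (k := S) (K := F)
  obtain ⟨δ', hδd'⟩ : ∃ δ', δ' = dd d' (algebraMap M F z) := ⟨_, rfl⟩
  have hδz' : δ' (algebraMap M F z) = 1 := by
    rw [hδd', dd_apply, inv_mul_cancel₀ (der_ne_zero hd' hzS)]
  have hδ' : δ' ≠ 0 := by
    rintro rfl
    simp at hδz'
  -- compatibility
  have hcomp : ∀ a : M, δ' (algebraMap M F a) = algebraMap M F (δ a) := by
    let E : Derivation ℤ M F := Derivation.mk'
      (AddMonoidHom.toIntLinearMap
        { toFun := fun a => δ' (algebraMap M F a) - algebraMap M F (δ a)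
          map_zero' := by simp
          map_add' := by
            intro a b
            simp only [map_add]
            ring })
      (by
        intro a b
        change δ' (algebraMap M F (a * b)) - algebraMap M F (δ (a * b)) =
          a • (δ' (algebraMap M F b) - algebraMap M F (δ b)) +
          b • (δ' (algebraMap M F a) - algebraMap M F (δ a))
        simp only [map_mul, Derivation.leibniz, smul_eq_mul, map_add, Algebra.smul_def]
        ring)
    have hE : ∀ a, E a = δ' (algebraMap M F a) - algebraMap M F (δ a) := fun a => rfl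
    intro a
    have h1 := der_unique (k := k) E (fun c => by
      obtain ⟨s, hs⟩ := hk c
      rw [hE, hs, δ'.map_algebraMap, δ.map_algebraMap, map_zero, sub_zero]) hzk
      (by rw [hE, hδz', hδz, map_one, sub_self]) a
    rw [hE] at h1
    exact sub_eq_zero.1 h1
  have key : ∀ (m : ℕ) (f : M), (∀ P : Place k M, Ge P (m * (vo P δ - if P ∈ ZM then 1 else 0)) f) →
      ∀ Q : Place S F, Ge Q (m * (vo Q δ' - if Q ∈ ZF then 1 else 0)) (algebraMap M F f) := by
    intro m f hf Q
    by_cases hQ : ∃ x : M, Q.ord (algebraMap M F x) ≠ 0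
    · obtain ⟨P, hP⟩ : ∃ P, P = below hk Q hQ := ⟨_, rfl⟩
      have he : ∀ x, Q.ord (algebraMap M F x) = rm M Q * P.ord x := by
        intro x
        rw [hP]
        exact ord_below hk Q hQ x
      have he0 : (0 : ℤ) < rm M Q := by exact_mod_cast (rm_spec Q hQ).1
      have h1 : Q.ord (algebraMap M F (unif P)) = rm M Q := by
        rw [he, ord_unif, mul_one]
      have h2 := (ord_der Q hδ' (f := algebraMap M F (unif P)) (by rw [h1]; omega)).2
      rw [hcomp, he, h1] at h2
      have h3 : P.ord (δ (unif P)) = vo P δ := rfl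
      rw [h3] at h2
      have hiff : Q ∈ ZF ↔ P ∈ ZM := by
        rw [hZF, hZM, he]
        constructor
        · intro h
          by_contra hc
          push Not at hc
          have := mul_nonneg he0.le hc
          omega
        · intro h
          exact mul_neg_of_pos_of_neg he0 h
      rcases hf P with h4 | h4
      · left
        rw [h4, map_zero]
      · right
        rw [he]
        have h5 := mul_le_mul_of_nonneg_left h4 he0.le
        refine le_trans ?_ h5
        by_cases hPZ : P ∈ ZM
        · rw [if_pos hPZ, if_pos (hiff.2 hPZ)]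
          have h6 : (m : ℤ) * (rm M Q * vo P δ) = m * (rm M Q - 1 + vo Q δ') := by rw [h2]
          apply le_of_eq
          linear_combination -h6
        · rw [if_neg hPZ, if_neg (fun h => hPZ (hiff.1 h))]
          have h6 : (m : ℤ) * (rm M Q * vo P δ) = m * (rm M Q - 1 + vo Q δ') := by rw [h2]
          have h7 : 0 ≤ (m : ℤ) * (rm M Q - 1) := mul_nonneg (Int.natCast_nonneg _) (by omega)
          nlinarith
    · push Not at hQ
      right
      rw [hQ]
      have h1 : vo Q δ' ≤ 0 := by
        by_contra hc
        push Not at hc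
        have h2 : Ge Q (vo Q δ') (δ' (algebraMap M F z)) := by
          obtain ⟨c, hc'⟩ := exists_const Q (Or.inr (hQ z).ge : Ge Q 0 (algebraMap M F z))
          have h3 : δ' (algebraMap M F z) = δ' (algebraMap M F z - algebraMap S F c) := by
            rw [map_sub, δ'.map_algebraMap, sub_zero]
          rw [h3]
          have h4 := hc'.resolve_left (sub_ne_zero.2 (hz c))
          have h5 := (ord_der Q hδ' (f := algebraMap M F z - algebraMap S F c) (by omega)).2
          right
          omega
        rw [hδz'] at h2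
        rcases h2 with h2 | h2
        · exact one_ne_zero h2
        · rw [Q.ord_one] at h2
          omega
      have h2 : (0 : ℤ) ≤ if Q ∈ ZF then 1 else 0 := by split_ifs <;> norm_num
      have := mul_nonneg (Int.natCast_nonneg m)
        (show 0 ≤ -(vo Q δ' - if Q ∈ ZF then (1 : ℤ) else 0) by linarith)
      linarith
  obtain ⟨m, f, g, hm, hf0, hg0, hf, hg, hfg⟩ := exists_two_logforms ZM h hδ
  refine canDeg_pos_of_log ZF hδ' hm (f := algebraMap M F f) (g := algebraMap M F g)
    (by rwa [Ne, map_eq_zero]) (key m f hf) (key m g hg) ?_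
  intro c hc
  -- the ratio is not constant
  have h1 : Transcendental k (g / f) := by
    intro hc
    have h1 := IsAlgClosed.degree_eq_one_of_irreducible k (minpoly.irreducible hc.isIntegral)
    obtain ⟨c, hc⟩ := minpoly.mem_range_of_degree_eq_one k _ h1
    apply hfg c
    rw [eq_div_iff hf0] at hc
    rw [← hc, Algebra.smul_def]
  have h2 : algebraMap M F (g / f) = algebraMap S F c := by
    rw [map_div₀, hc, Algebra.smul_def, mul_div_assoc, div_self (by rwa [Ne, map_eq_zero]),
      mul_one]
  have h3 : δ (g / f) ≠ 0 := der_ne_zero hδ h1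
  have h4 := hcomp (g / f)
  rw [h2, δ'.map_algebraMap] at h4
  exact h3 ((map_eq_zero _).1 h4.symm)

end main

end Pool.Agent.H916
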