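import Pool.Agent.H916.LJet2
import Pool.Agent.H916.LBc
import Pool.Agent.H916.Core

/-! The core of the proof for hyperbolic curves with cusps. -/

set_option autoImplicit false
set_option linter.overlappingInstances false
set_option linter.unusedSectionVars false

open FF Pool.Agent.W603.LV Module IntermediateField
open Pool.Agent.W603.PV (isFF_of_finite)

namespace Pool.Agent.H916

variable {S K : Type} [Field S] [Field K] [Algebra S K] [CharZero S] [IsAlgClosed S]

variable {D : Derivation ℤ K K} {K1 : IntermediateField S K} {z : K} {B0 B1 : Subring K}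

theorem sysL_glob (h : Sys D K1 z B0 B1) (hl : D z / z ∈ B1) (F : IntermediateField S K)
    (hF : F ≤ K1) [IsFF S F] (hz : z ∈ F) (φ : K)
    (hφ0 : ∀ P : Place S F, 0 ≤ P.ord (⟨z, hz⟩ : F) → φ ∈ tau D P)
    (hφ1 : ∀ P : Place S F, P.ord (⟨z, hz⟩ : F) < 0 → φ ∈ tauX D {D z / z} P) :
    ∃ s : S, φ = algebraMap S K s := by
  obtain ⟨t, ht00⟩ : ∃ t : F, t = ⟨z, hz⟩ := ⟨_, rfl⟩
  have ht0 : algebraMap F K t = z := by
    rw [ht00]
    rfl
  rw [← ht00] at hφ0 hφ1
  have ht : Transcendental S t := by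
    intro hc
    apply h.tr
    rw [← ht0]
    exact hc.algebraMap
  have ht' : Transcendental S t⁻¹ := fun hc => ht (by simpa using hc.inv)
  refine h.inter φ ?_ ?_
  · refine H916.glob D t ht B0 (fun a ha => ?_) φ fun P hP => hφ0 P hP
    have h1 := int_transfer (K := K) ha
    rw [ht0] at h1
    exact h.int0 _ (hF a.2) h1
  · refine globX D t⁻¹ ht' {D z / z} B1 ?_ (fun a ha => ?_) φ fun P hP => ?_
    · rw [Set.singleton_subset_iff]
      exact hl
    · have h1 := int_transfer (K := K) ha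
      rw [map_inv₀, ht0] at h1
      exact h.int1 _ (hF a.2) h1
    · by_cases hP' : P.ord t < 0
      · exact hφ1 P hP'
      · exact tau_le_tauX D _ P (hφ0 P (not_lt.1 hP'))

/-- the case of a field which is preserved by the derivation -/
theorem sysL_stable (h : Sys D K1 z B0 B1) (hl : D z / z ∈ B1) (N : IntermediateField S K)
    (hN1 : N ≤ K1) [IsFF S N] (hz : z ∈ N) (hN : ∀ x ∈ N, D x ∈ N) :
    canDeg S N + npo S (⟨z, hz⟩ : N) ≤ 0 := by
  by_contra hκ
  push Not at hκ
  obtain ⟨Z, hZ, hcard⟩ := exists_Z (S := S) (⟨z, hz⟩ : N)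
  rw [hcard] at hκ
  -- if the local ring with further elements contains an element with a pole, it is everything
  have hkey : ∀ (P : Place S N) (R : Subring K), tau D P ≤ R →
      (R ≤ tauX D {D z / z} P) → (0 ≤ P.ord (⟨z, hz⟩ : N) → R ≤ tau D P) → ∀ g : N, (g : K) ∈ R →
      ¬ Ge P 0 g → False := by
    intro P R hR hR1 hR2 g hgt hc
    obtain ⟨φ, hφ, hφc⟩ := exists_pole P
    have hg0 : g ≠ 0 := fun e => hc (Or.inl e)
    have hgo : P.ord g < 0 := not_le.1 fun e => hc (Or.inr e)
    -- all elements of `N`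
    have hall : ∀ x : N, (x : K) ∈ R := by
      intro x
      obtain ⟨n, hn⟩ : ∃ n : ℕ, n = (-P.ord x).toNat := ⟨_, rfl⟩
      have h1 : Ge P 0 (x / g ^ n) := by
        by_cases hx : x = 0
        · left
          rw [hx, zero_div]
        · right
          rw [P.ord_div hx (pow_ne_zero _ hg0), P.ord_pow]
          have h2 : (n : ℤ) * P.ord g ≤ n * (-1) :=
            mul_le_mul_of_nonneg_left (by omega) (Int.natCast_nonneg _)
          omega
      have h2 : ((x / g ^ n : N) : K) ∈ R := hR (tau_coe D P h1)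
      have h3 := Subring.mul_mem _ h2 (Subring.pow_mem _ hgt n)
      have h4 : ((x / g ^ n : N) : K) * (g : K) ^ n = ((x / g ^ n * g ^ n : N) : K) := rfl
      rw [h4, div_mul_cancel₀ _ (pow_ne_zero _ hg0)] at h3
      exact h3
    obtain ⟨s, hs⟩ := sysL_glob h hl N hN1 hz (φ : K) (fun Q hQ0 => by
      by_cases hQ : Q = P
      · rw [hQ] at hQ0 ⊢
        exact hR2 hQ0 (hall φ)
      · exact tau_coe D Q (hφ Q hQ)) (fun Q hQ0 => by
      by_cases hQ : Q = P
      · rw [hQ]
        exact hR1 (hall φ)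
      · exact tau_le_tauX D _ Q (tau_coe D Q (hφ Q hQ)))
    exact hφc s (Subtype.ext hs)
  have hreg : ∀ (P : Place S N) (f : N), Ge P 0 f → Ge P 0 (resD D N hN f) := by
    intro P f hf
    by_contra hc
    exact hkey P (tau D P) le_rfl (tau_le_tauX D _ P) (fun _ => le_rfl) (resD D N hN f)
      (tau_der D P hf) hc
  have hcN : CharZero N := charZero_of_injective_algebraMap (algebraMap S N).injective
  refine no_reg_log (S := S) (resD D N hN) hreg ?_ ?_ Z ?_ hκ
  · intro s
    obtain ⟨s', hs'⟩ := h.stab s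
    exact ⟨s', Subtype.ext hs'⟩
  · intro f hf
    obtain ⟨s, hs⟩ := h.cst (f : K) (congrArg (Subtype.val : N → K) hf)
    exact ⟨s, Subtype.ext hs⟩
  · intro P hP
    have hPz := (hZ P).1 hP
    have hπ := ord_unif P
    have hπ0 : unif P ≠ 0 := by
      intro h
      rw [h, P.ord_zero] at hπ
      omega
    by_contra hc
    have h1 := dlog_mem (K := K) D P hPz hπ
    refine hkey P (tauX D {D z / z} P) (tau_le_tauX D _ P) le_rfl (fun h2 => by omega)
      (resD D N hN (unif P) / unif P) h1 ?_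
    rintro (h3 | h3)
    · rw [div_eq_zero_iff] at h3
      rcases h3 with h3 | h3
      · exact hc (Or.inl h3)
      · exact hπ0 h3
    · apply hc
      by_cases h4 : resD D N hN (unif P) = 0
      · exact Or.inl h4
      · right
        rw [P.ord_div h4 hπ0, hπ] at h3
        omega

theorem exists_extL (F : IntermediateField S K) [IsFF S F] (z : F) (w : K)
    (halg : IsAlgebraic F w) :
    ∃ N : IntermediateField S K, F ≤ N ∧ w ∈ N ∧ IsFF S N ∧ (∀ x ∈ N, IsAlgebraic F x) ∧
      (∀ hz : (z : K) ∈ N, 0 < canDeg S F + npo S z →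
        0 < canDeg S N + npo S (⟨z, hz⟩ : N)) ∧ ∀ K1 : IntermediateField S K, F ≤ K1 → w ∈ K1 →
      N ≤ K1 := by
  have hfin : FiniteDimensional F F⟮w⟯ :=
    IntermediateField.adjoin.finiteDimensional halg.isIntegral
  have hff : IsFF S F⟮w⟯ := isFF_of_finite (F := F)
  refine ⟨F⟮w⟯.restrictScalars S, fun x hx =>
    IntermediateField.algebraMap_mem F⟮w⟯ (⟨x, hx⟩ : F),
    IntermediateField.mem_adjoin_simple_self F w, isFF_res F w hff, fun x hx => ?_,
    fun hz h => ?_, fun K1 hF hw => ?_⟩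
  · have h1 : IsAlgebraic F (⟨x, hx⟩ : F⟮w⟯) := Algebra.IsAlgebraic.isAlgebraic _
    exact h1.algebraMap
  · have hnt : ∃ x : F, ∀ s : S, algebraMap F F⟮w⟯ x ≠ algebraMap S F⟮w⟯ s := by
      obtain ⟨t, ht⟩ := IsFF.exists_transcendental (k := S) (K := F)
      refine ⟨t, fun s hs => ht ?_⟩
      have h1 : algebraMap S F⟮w⟯ s = algebraMap F F⟮w⟯ (algebraMap S F s) := rfl
      rw [h1] at hs
      rw [(algebraMap F F⟮w⟯).injective hs]
      exact isAlgebraic_algebraMap s
    have h1 := npo_pos_bc (k := S) (M := F) (S := S) (F := F⟮w⟯)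
      (fun c => ⟨c, rfl⟩) hnt z h
    exact h1
  · intro x hx
    have hx' : x ∈ F⟮w⟯ := hx
    refine IntermediateField.adjoin_induction (p := fun x _ => x ∈ K1) F ?_ ?_ ?_ ?_ ?_ hx'
    · intro y hy
      rw [Set.mem_singleton_iff] at hy
      rw [hy]
      exact hw
    · intro y
      exact hF y.2
    · intro y y' _ _ hy hy'
      exact K1.add_mem hy hy'
    · intro y _ hy
      exact K1.inv_mem hy
    · intro y y' _ _ hy hy'
      exact K1.mul_mem hy hy'

theorem sysL_main (h : Sys D K1 z B0 B1) (hl : D z / z ∈ B1) (F : IntermediateField S K)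
    (hF : F ≤ K1) [IsFF S F] (hz : z ∈ F) : canDeg S F + npo S (⟨z, hz⟩ : F) ≤ 0 := by
  by_contra hκ
  push Not at hκ
  have hcK : CharZero K := charZero_of_injective_algebraMap (algebraMap S K).injective
  obtain ⟨t, ht00⟩ : ∃ t : F, t = ⟨z, hz⟩ := ⟨_, rfl⟩
  have ht0 : algebraMap F K t = z := by
    rw [ht00]
    rfl
  have ht : Transcendental S t := by
    intro hc
    apply h.tr
    rw [← ht0]
    exact hc.algebraMap
  obtain ⟨Z, hZ, hcard⟩ := exists_Z (S := S) t
  obtain ⟨w, hw⟩ : ∃ w, w = D z := ⟨_, rfl⟩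
  have halg : IsAlgebraic F w := by
    have := jet_algebraic_log (S := S) (F := F) D h.stab ht (fun φ hφ0 hφ1 => by
      rw [ht0] at hφ1
      rw [ht00] at hφ0 hφ1
      exact sysL_glob h hl F hF hz φ hφ0 hφ1) Z hZ (by rw [← hcard, ht00]; exact hκ)
    rwa [ht0, ← hw] at this
  obtain ⟨N, hFN, hwN, hff, hNalg, hpos, hN1⟩ := exists_extL F t w halg
  have hNK : N ≤ K1 := hN1 K1 hF (by
    rw [hw]
    exact h.der z (hF hz))
  -- `N` is preserved by the derivation
  have hDF : ∀ x ∈ F, D x ∈ N := by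
    obtain ⟨d, hd⟩ := exists_der (k := S) (K := F)
    have hδz : dd d t t = 1 := by
      rw [dd_apply, inv_mul_cancel₀ (der_ne_zero hd ht)]
    intro x hx
    obtain ⟨α, hα⟩ := decomp (S := S) (F := F) D h.stab hδz ht ⟨x, hx⟩
    rw [ht0, ← hw] at hα
    have h1 : D x = (α : K) + ((dd d t (⟨x, hx⟩ : F) : F) : K) * w := hα
    rw [h1]
    exact N.add_mem (hFN α.2) (N.mul_mem (hFN (dd d t (⟨x, hx⟩ : F)).2) hwN)
  have hDN : ∀ x ∈ N, D x ∈ N := by
    intro x hx
    let F0 : Subfield N := (inclusion hFN).toRingHom.fieldRange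
    have hcN : CharZero N := charZero_of_injective_algebraMap (algebraMap S N).injective
    have h0 : ∀ y ∈ F0, EDer (F := N) D (0 : Derivation S N N) 0 y ∈
        Set.range (algebraMap N K) := by
      rintro _ ⟨y, rfl⟩
      refine ⟨⟨D (y : K), hDF _ y.2⟩, ?_⟩
      rw [EDer_apply, mul_zero, sub_zero]
      rfl
    have halg' : IsAlgebraic F0 (⟨x, hx⟩ : N) := by
      obtain ⟨p, hp, he⟩ := hNalg x hx
      refine ⟨p.map (inclusion hFN).toRingHom.rangeRestrictField, ?_, ?_⟩
      · rw [Ne, Polynomial.map_eq_zero]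
        exact hp
      · rw [Polynomial.aeval_def, Polynomial.eval₂_map]
        apply (algebraMap N K).injective
        rw [Polynomial.hom_eval₂, map_zero]
        exact he
    obtain ⟨y, hy⟩ := der_range _ F0 h0 ⟨x, hx⟩ halg'
    rw [EDer_apply, mul_zero, sub_zero] at hy
    have h1 : D x = (y : K) := hy.symm
    rw [h1]
    exact y.2
  have hzN : z ∈ N := hFN hz
  have h1 : 0 < canDeg S N + npo S (⟨z, hzN⟩ : N) := by
    subst ht00
    exact hpos hzN hκ
  exact absurd h1 (not_lt.2 (sysL_stable h hl N hNK hzN hDN))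

end Pool.Agent.H916
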