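import Pool.Agent.H916.LHor
import Pool.Agent.H916.Glo

/-! Elements which are given locally by polynomials in regular functions, their derivatives and some
further elements. -/

set_option autoImplicit false
set_option linter.overlappingInstances false

open FF Pool.Agent.W603.LV Module IsDedekindDomain IntermediateField

namespace Pool.Agent.H916

variable {S F K : Type*} [Field S] [Field F] [Field K] [Algebra S F] [Algebra F K]

/-- the ring generated by the regular functions at `P`, their derivatives and a set -/
def tauX (D : Derivation ℤ K K) (X : Set K) (P : Place S F) : Subring K :=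
  Subring.closure ((tau D P : Set K) ∪ X)

theorem tau_le_tauX (D : Derivation ℤ K K) (X : Set K) (P : Place S F) : tau D P ≤ tauX D X P :=
  fun _ hx => Subring.subset_closure (Or.inl hx)

theorem mem_tauX (D : Derivation ℤ K K) {X : Set K} (P : Place S F) {x : K} (hx : x ∈ X) :
    x ∈ tauX D X P :=
  Subring.subset_closure (Or.inr hx)

section ded

variable {C : Type*} [CommRing C] [IsDedekindDomain C] [Algebra S C] [Algebra C F]
  [IsFractionRing C F] [IsScalarTower S C F]

theorem globX_ded (D : Derivation ℤ K K) (X : Set K) (B : Subring K) (hXB : X ⊆ B)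
    (hCB : ∀ c : C, algebraMap F K (algebraMap C F c) ∈ B)
    (hCD : ∀ c : C, D (algebraMap F K (algebraMap C F c)) ∈ B) (φ : K)
    (v0 : HeightOneSpectrum C)
    (hφ : ∀ v : HeightOneSpectrum C, φ ∈ tauX D X (placeOf v : Place S F)) : φ ∈ B := by
  have hle : ∀ v : HeightOneSpectrum C, tauX D X (placeOf v : Place S F) ≤ Tv B hCB v := by
    intro v
    unfold tauX
    rw [Subring.closure_le]
    rintro x (hx | hx)
    · exact tau_le D B hCB hCD v hx
    · exact ⟨1, fun h => v.isPrime.ne_top ((Ideal.eq_top_iff_one _).2 h), by
        rw [map_one, map_one, one_mul]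
        exact hXB hx⟩
  have key : ∀ v : HeightOneSpectrum C, ∃ s : C, s ∉ v.asIdeal ∧ s ∈ Id B hCB φ :=
    fun v => hle v (hφ v)
  have hI : Id B hCB φ = ⊤ := by
    by_contra hne
    obtain ⟨M, hM, hIM⟩ := Ideal.exists_le_maximal _ hne
    have hM0 : M ≠ ⊥ := by
      intro h0
      obtain ⟨s, hs, hs'⟩ := key v0
      have h1 : s ∈ M := hIM hs'
      rw [h0, Ideal.mem_bot] at h1
      exact hs (h1 ▸ v0.asIdeal.zero_mem)
    obtain ⟨s, hs, hs'⟩ := key ⟨M, hM.isPrime, hM0⟩
    exact hs (hIM hs')
  have h1 : (1 : C) ∈ Id B hCB φ := hI ▸ Submodule.mem_top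
  have h2 : algebraMap F K (algebraMap C F 1) * φ ∈ B := h1
  rwa [map_one, map_one, one_mul] at h2

end ded

variable [CharZero S] [IsFF S F]

theorem globX (D : Derivation ℤ K K) (t : F) (ht : Transcendental S t) (X : Set K) (B : Subring K)
    (hXB : X ⊆ B)
    (hB : ∀ a : F, IsIntegral (Algebra.adjoin S {t}) a → algebraMap F K a ∈ B ∧
      D (algebraMap F K a) ∈ B)
    (φ : K) (hφ : ∀ P : Place S F, 0 ≤ P.ord t → φ ∈ tauX D X P) : φ ∈ B := by
  classical
  open scoped algebraAdjoinAdjoin in
  let A := Algebra.adjoin S {t}
  let e := Polynomial.algEquivOfTranscendental S t ht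
  have hpid : IsPrincipalIdealRing A := IsPrincipalIdealRing.of_surjective e.toRingEquiv e.surjective
  have hded : IsDedekindDomain A := inferInstance
  have hfin := IsFF.finite ht
  have hchar : CharZero S⟮t⟯ := charZero_of_injective_algebraMap (algebraMap S S⟮t⟯).injective
  have hsep : Algebra.IsSeparable S⟮t⟯ F := inferInstance
  have hdC : IsDedekindDomain (integralClosure A F) := integralClosure.isDedekindDomain A S⟮t⟯ F
  have hfC : IsFractionRing (integralClosure A F) F :=
    integralClosure.isFractionRing_of_finite_extension S⟮t⟯ F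
  have hsc : IsScalarTower S (integralClosure A F) F := by
    refine IsScalarTower.of_algebraMap_eq fun c => ?_
    rw [IsScalarTower.algebraMap_apply S A (integralClosure A F),
      ← IsScalarTower.algebraMap_apply A (integralClosure A F) F,
      ← IsScalarTower.algebraMap_apply S A F]
  have ht0 : t ≠ 0 := by
    rintro rfl
    exact ht isAlgebraic_zero
  -- a place where `t` is regular
  obtain ⟨v0, -⟩ : ∃ v0 : HeightOneSpectrum (integralClosure A F), True := by
    obtain ⟨Z, hZ, -, hZ2⟩ := zeros (k := S) (K := F) ht
    have hpos : 0 < finrank S⟮t⟯ F := finrank_pos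
    obtain ⟨w, hw⟩ : Z.Nonempty := by
      rw [Finset.nonempty_iff_ne_empty]
      rintro rfl
      simp at hZ2
      omega
    have hw0 := (hZ w).1 hw
    have hregA : ∀ a : A, w.Reg (algebraMap A F a) := by
      rintro ⟨a, ha⟩
      change w.Reg a
      induction ha using Algebra.adjoin_induction with
      | mem y hy =>
        rw [Set.mem_singleton_iff] at hy
        subst hy
        exact Or.inr hw0.le
      | algebraMap r => exact w.reg_const r
      | add x y _ _ hx hy => exact w.reg_add hx hy
      | mul x y _ _ hx hy => exact w.reg_mul hx hy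
    obtain ⟨v, -⟩ := exists_placeOf_eq (B := integralClosure A F) w (fun b => by
      have hb : IsIntegral A (b : F) := b.2
      exact w.reg_of_isIntegral hregA hb)
    exact ⟨v, trivial⟩
  refine globX_ded (S := S) (C := integralClosure A F) D X B hXB
    (fun c => (hB (algebraMap (integralClosure A F) F c) c.2).1)
    (fun c => (hB (algebraMap (integralClosure A F) F c) c.2).2) φ v0 fun v => ?_
  refine hφ _ ?_
  have hint : IsIntegral A t := isIntegral_algebraMap (R := A)
    (x := ⟨t, Algebra.self_mem_adjoin_singleton S t⟩)
  have h1 : (placeOf v : Place S F).Reg (algebraMap (integralClosure A F) F ⟨t, hint⟩) :=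
    placeOf_reg v _
  exact ((placeOf v : Place S F).reg_iff ht0).1 h1

end Pool.Agent.H916
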