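import Pool.Agent.H916.LRing
import Pool.Agent.H916.Bb

/-! The relative height inequality for rational maps between projective varieties with a boundary,
over a field which is finitely generated over the field of constants. -/

set_option autoImplicit false
set_option linter.overlappingInstances false
set_option linter.unusedSectionVars false

open FF Pool.Agent.W603.LV Pool.Agent.W603.PV MvPolynomial
open Pool.Agent.W602.GT (val IsForm VarPts coords val_smul)
open Pool.Agent.Y216 (OnVar)

namespace Pool.Agent.H916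

/-- The point `f` of projective space meets the closed subset `{Q i = 0 for all i}` at the place
`P`: the orders at `P` of the values of the forms `Q i` which are not zero are larger than those of
general forms of the same degree. -/
def Meets {k k0 E : Type} [Field k] [Field k0] [Field E] [Algebra k E] [Algebra k0 E] {M : ℕ}
    {ι : Type} (Q : ι → MvPolynomial (Fin (M + 1)) k0) (f : Fin (M + 1) → E) (P : Place k E) :
    Prop :=
  ∀ i, aeval f (Q i) = 0 ∨ (Q i).totalDegree * pord P f < P.ord (aeval f (Q i))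

section base

variable {k : Type} [Field k] {M N : ℕ} {K : Type} [Field K] [Algebra k K]

theorem isForm_mul0 {G H : MvPolynomial (Fin (M + 1)) k} (hG : IsForm G) (hH : IsForm H) :
    IsForm (G * H) := by
  obtain ⟨d, hd⟩ := hG
  obtain ⟨e, he⟩ := hH
  exact ⟨d + e, hd.mul he⟩

theorem isForm_prod0 {ι : Type} [Fintype ι] {G : ι → MvPolynomial (Fin (M + 1)) k}
    (hG : ∀ l, IsForm (G l)) : IsForm (∏ l, G l) := by
  choose d hd using hG
  exact ⟨_, IsHomogeneous.prod Finset.univ G d fun l _ => hd l⟩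

/-- composition of forms -/
theorem isForm_comp0 {e : ℕ} {H : Fin (N + 1) → MvPolynomial (Fin (M + 1)) k}
    (hH : ∀ j, (H j).IsHomogeneous e) {G : MvPolynomial (Fin (N + 1)) k} (hG : IsForm G) :
    IsForm (aeval H G) := by
  obtain ⟨d, hd⟩ := hG
  exact ⟨e * d, hd.aeval H hH⟩

theorem val_comp0 {E : Type} [Field E] [Algebra k E] (f : Fin (M + 1) → E)
    (H : Fin (N + 1) → MvPolynomial (Fin (M + 1)) k) (G : MvPolynomial (Fin (N + 1)) k) :
    val f (aeval H G) = val (fun j => aeval f (H j)) G := by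
  unfold Pool.Agent.W602.GT.val
  exact MvPolynomial.comp_aeval_apply H (aeval f : MvPolynomial (Fin (M + 1)) k →ₐ[k] E) G

theorem val_scale_iff0 {E : Type} [Field E] [Algebra k E] {f g : Fin (N + 1) → E} {c : E}
    (hc : c ≠ 0) (h : ∀ j, f j = c * g j) {G : MvPolynomial (Fin (N + 1)) k} (hG : IsForm G) :
    val f G = 0 ↔ val g G = 0 := by
  obtain ⟨d, hd⟩ := hG
  have h1 : f = fun j => c * g j := funext h
  rw [h1, val_smul hd, mul_eq_zero]
  constructor
  · intro h
    exact h.resolve_left (pow_ne_zero _ hc)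
  · exact Or.inr

theorem val_prod_ne0 {ι : Type} [Fintype ι] {G : ι → MvPolynomial (Fin (M + 1)) k} {E : Type}
    [Field E] [Algebra k E] {f : Fin (M + 1) → E} :
    val f (∏ l, G l) ≠ 0 ↔ ∀ l, val f (G l) ≠ 0 := by
  unfold Pool.Agent.W602.GT.val
  rw [map_prod, Finset.prod_ne_zero_iff]
  exact ⟨fun h l => h l (Finset.mem_univ l), fun h l _ => h l⟩

theorem val_mul_ne0 {G G' : MvPolynomial (Fin (M + 1)) k} {E : Type}
    [Field E] [Algebra k E] {f : Fin (M + 1) → E} :
    val f (G * G') ≠ 0 ↔ val f G ≠ 0 ∧ val f G' ≠ 0 := by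
  unfold Pool.Agent.W602.GT.val
  rw [map_mul, mul_ne_zero_iff]

/-- A rational map `X ⇢ Y` given by forms. -/
structure RMap (x : Fin (M + 1) → K) (y : Fin (N + 1) → K) (j0 : Fin (N + 1)) (e : ℕ)
    (H : Fin (N + 1) → MvPolynomial (Fin (M + 1)) k) : Prop where
  hom : ∀ j, (H j).IsHomogeneous e
  ne : aeval x (H j0) ≠ 0
  ny : y j0 ≠ 0
  eq : ∀ j, y j / y j0 = aeval x (H j) / aeval x (H j0)

variable {x : Fin (M + 1) → K} {y : Fin (N + 1) → K} {j0 : Fin (N + 1)} {e : ℕ}
  {H : Fin (N + 1) → MvPolynomial (Fin (M + 1)) k}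

theorem RMap.val_iff (h : RMap x y j0 e H) {G : MvPolynomial (Fin (N + 1)) k}
    (hG : IsForm G) : val x (aeval H G) = 0 ↔ val y G = 0 := by
  rw [val_comp0]
  refine val_scale_iff0 (c := aeval x (H j0) / y j0) (div_ne_zero h.ne h.ny) (fun j => ?_) hG
  have h1 := h.eq j
  rw [div_eq_div_iff h.ny h.ne] at h1
  have h2 := h.ny
  field_simp
  rw [← h1, mul_comm]

theorem RMap.on (h : RMap x y j0 e H) {E : Type} [Field E] [Algebra k E]
    {f : Fin (M + 1) → E} (hf : OnVar k x f) (hfj : aeval f (H j0) ≠ 0) :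
    OnVar k y fun j => aeval f (H j) := by
  refine ⟨⟨j0, hfj⟩, fun G hG hy => ?_⟩
  rw [← val_comp0]
  exact hf.2 _ (isForm_comp0 h.hom hG) ((h.val_iff hG).2 hy)

end base

/-- the extension of the fields in a geometric generic fibre is algebraic -/
theorem alg_KF {C K Ω F : Type} [Field C] [Field K] [Field Ω] [Field F] [Algebra C K]
    [Algebra C Ω] [Algebra Ω F] [Algebra K F] [Algebra C F] [IsScalarTower C K F]
    [IsScalarTower C Ω F] (hF : FibreField C K Ω F) : Algebra.IsAlgebraic K F := by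
  have halg := hF.alg
  refine ⟨fun x => ?_⟩
  have hx : x ∈ IntermediateField.adjoin Ω (Set.range (algebraMap K F)) := by
    rw [hF.gen]
    exact IntermediateField.mem_top
  induction hx using IntermediateField.adjoin_induction with
  | mem y hy =>
    obtain ⟨b, rfl⟩ := hy
    exact isAlgebraic_algebraMap b
  | algebraMap c =>
    have h1 : IsAlgebraic C (algebraMap Ω F c) := (halg.isAlgebraic c).algebraMap
    exact h1.extendScalars (algebraMap C K).injective
  | add x y _ _ hx hy => exact hx.add hy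
  | inv x _ hx => exact hx.inv
  | mul x y _ _ hx hy => exact hx.mul hy

/-- a function with poles at the cusps -/
theorem exists_z_fib {K : Type} [Field K] [CharZero K] {C : Subfield K} {ι J : Type} [Finite ι]
    [Nonempty ι] [Finite J] {s : ι → J → K} (h : LogHypFibres C s) :
    ∃ z : K, Algebra.IsAlgebraic C K ∨
      ∃ (Ω F : Type) (_ : Field Ω) (_ : Field F) (_ : Algebra C Ω) (_ : Algebra Ω F)
      (_ : Algebra K F), (∀ c : C, algebraMap K F c = algebraMap Ω F (algebraMap C Ω c)) ∧
      FibreField C K Ω F ∧ IsFF Ω F ∧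
      (∀ i, IsIntegral (Algebra.adjoin Ω (Set.range fun j => algebraMap K F (s i j)))
        (algebraMap K F z)) ∧
      0 < canDeg Ω F + npo Ω (algebraMap K F z) := by
  rcases h with h | ⟨Ω, F, i1, i2, i3, i4, i5, hcomm, hF, hff, hpos⟩
  · exact ⟨0, Or.inl h⟩
  · have t1 : IsScalarTower C K F := inferInstance
    have t2 : IsScalarTower C Ω F := IsScalarTower.of_algebraMap_eq fun c => hcomm c
    have hcl := hF.closed
    have hcC : CharZero C := (algebraMap C K).charZero
    have hcΩ : CharZero Ω := charZero_of_injective_algebraMap (algebraMap C Ω).injective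
    obtain ⟨z, hz1, hz2⟩ := exists_z (C := C) (Ω := Ω) (F := F) hF.alg (alg_KF hF) s
    refine ⟨z, Or.inr ⟨Ω, F, i1, i2, i3, i4, i5, hcomm, hF, hff, hz1, ?_⟩⟩
    have h1 : npo Ω (algebraMap K F z) =
        {P : Place Ω F | ∀ i, ∃ j, P.ord (algebraMap K F (s i j)) < 0}.ncard := by
      unfold npo
      congr 1
      ext P
      exact hz2 P
    rw [h1]
    exact hpos

section meets

variable {k k0 E : Type} [Field k] [Field k0] [Field E] [Algebra k E] [Algebra k0 E] {M : ℕ}

/-- the condition at a place in terms of the functions `f j ^ d / Q i (f)` -/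
theorem meets_iff {ι : Type} {Q : ι → MvPolynomial (Fin (M + 1)) k0} {f : Fin (M + 1) → E}
    (hf : ∃ j, f j ≠ 0) {p : ι → Prop} (hp : ∀ i, ¬ p i → aeval f (Q i) = 0)
    (hp' : ∀ i, p i → aeval f (Q i) ≠ 0) (P : Place k E) :
    Meets Q f P ↔ ∀ i : {i // p i}, ∃ j, P.ord (f j ^ (Q i).totalDegree / aeval f (Q i)) < 0 := by
  constructor
  · rintro h ⟨i, hi⟩
    have h1 := (h i).resolve_left (hp' i hi)
    obtain ⟨j, hj, hjo⟩ := exists_pord P hf
    refine ⟨j, ?_⟩
    change P.ord (f j ^ (Q i).totalDegree / aeval f (Q i)) < 0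
    rw [P.ord_div (pow_ne_zero _ hj) (hp' i hi), P.ord_pow, hjo]
    omega
  · intro h i
    by_cases hi : p i
    · right
      obtain ⟨j, hj⟩ := h ⟨i, hi⟩
      change P.ord (f j ^ (Q i).totalDegree / aeval f (Q i)) < 0 at hj
      by_cases h0 : f j = 0
      · rcases Nat.eq_zero_or_pos (Q i).totalDegree with hd | hd
        · rw [hd, pow_zero, P.ord_div one_ne_zero (hp' i hi), P.ord_one] at hj
          rw [hd, Nat.cast_zero, zero_mul]
          omega
        · rw [h0, zero_pow hd.ne', zero_div, P.ord_zero] at hj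
          omega
      · rw [P.ord_div (pow_ne_zero _ h0) (hp' i hi), P.ord_pow] at hj
        have h1 := pord_le P h0
        have h2 : ((Q i).totalDegree : ℤ) * pord P f ≤ (Q i).totalDegree * P.ord (f j) :=
          mul_le_mul_of_nonneg_left h1 (Int.natCast_nonneg _)
        omega
    · exact Or.inl (hp i hi)

end meets

/-- The functions `x j ^ d / Q i (x)`, for the forms which do not vanish on the variety. -/
noncomputable def cuspFun {k0 K : Type} [Field k0] [Field K] [Algebra k0 K] {M : ℕ} {ι : Type}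
    (x : Fin (M + 1) → K) (Q : ι → MvPolynomial (Fin (M + 1)) k0) :
    {i // aeval x (Q i) ≠ 0} → Fin (M + 1) → K :=
  fun i j => x j ^ (Q i).totalDegree / aeval x (Q i)

section main

variable {k k0 K : Type} [Field k] [IsAlgClosed k] [CharZero k] [Field k0] [Field K]
  [Algebra k k0] [Algebra k0 K] [Algebra k K] [IsScalarTower k k0 K] {M r : ℕ} {N : Fin r → ℕ}

/-- **The relative height inequality for rational maps.** -/
theorem rel_log_rat {τ : ℕ} {t : Fin τ → k0} (ht : IntermediateField.adjoin k (Set.range t) = ⊤)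
    {x : Fin (M + 1) → K} (hx : x ≠ 0) (hgen : coords k0 x = ⊤)
    {y : ∀ l : Fin r, Fin (N l + 1) → K} (hy : ∀ l, y l ≠ 0) {ι : Type} [Finite ι]
    {Q : ι → MvPolynomial (Fin (M + 1)) k0} (hQ : ∀ i, IsForm (Q i))
    (hQx : ∃ i, aeval x (Q i) ≠ 0)
    (hfib : LogHypFibres (⨆ l, coords k0 (y l)).toSubfield (cuspFun x Q)) :
    ∃ (j : ∀ l, Fin (N l + 1)) (e : ℕ) (H : ∀ l, Fin (N l + 1) → MvPolynomial (Fin (M + 1)) k0),
      (∀ l, RMap x (y l) (j l) e (H l)) ∧ ∃ G : MvPolynomial (Fin (M + 1)) k0,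
      IsForm G ∧ val x G ≠ 0 ∧
      (∀ (E : Type) [Field E] [Algebra k0 E] (f : Fin (M + 1) → E), OnVar k0 x f → val f G ≠ 0 →
        ∀ l, aeval f (H l (j l)) ≠ 0) ∧ ∃ A : ℕ,
      ∀ (E : Type) [Field E] [Algebra k E] [Algebra k0 E] [IsScalarTower k k0 E] [IsFF k E]
        (f : Fin (M + 1) → E), OnVar k0 x f → val f G ≠ 0 →
        pht k f ≤ A * (max (canDeg k E) 0 + {P : Place k E | Meets Q f P}.ncard +
          ∑ l, (pht k fun i => aeval f (H l i)) + ∑ j, hgt k (algebraMap k0 E (t j))) := by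
  classical
  have hcK : CharZero K := charZero_of_injective_algebraMap (algebraMap k K).injective
  cases nonempty_fintype ι
  obtain ⟨i0, hi0⟩ := Function.ne_iff.1 hx
  have hi0 : x i0 ≠ 0 := hi0
  have hj : ∀ l, ∃ j, y l j ≠ 0 := fun l => Function.ne_iff.1 (hy l)
  choose j hj using hj
  have hne' : Nonempty {i // aeval x (Q i) ≠ 0} := by
    obtain ⟨i, hi⟩ := hQx
    exact ⟨⟨i, hi⟩⟩
  obtain ⟨z, hz⟩ := exists_z_fib hfib
  -- the functions
  let S : Type := (Σ l : Fin r, Fin (N l + 1)) ⊕ ({i // aeval x (Q i) ≠ 0} × Fin (M + 1)) ⊕ Unit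
  let v : S → K := Sum.elim (fun s => y s.1 s.2 / y s.1 (j s.1))
    (Sum.elim (fun s => cuspFun x Q s.1 s.2) fun _ => z)
  let c : S ≃ Fin (Fintype.card S) := Fintype.equivFin S
  let y' : Fin (Fintype.card S + 1) → K := Fin.cons 1 fun s => v (c.symm s)
  have hy'0 : y' 0 = 1 := rfl
  have hy's : ∀ s : S, y' (c s).succ = v s := fun s => by
    change v (c.symm (c s)) = v s
    rw [Equiv.symm_apply_apply]
  have hy'ne : y' 0 ≠ 0 := by
    rw [hy'0]
    exact one_ne_zero
  obtain ⟨e, H', hH', hne, heq⟩ := exists_forms (k := k0) hi0 hy'ne (by rw [hgen]; exact le_top)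
  obtain ⟨R, i1, i2, i3, i4, xh, η, n, zz, hinj, hxh, hη, -, -, hR⟩ :=
    exists_ring (k := k0) hi0 hH' hne
  let ikR : Algebra k R := ((algebraMap k0 R).comp (algebraMap k k0)).toAlgebra
  have t1 : IsScalarTower k k0 R := IsScalarTower.of_algebraMap_eq fun _ => rfl
  have t2 : IsScalarTower k R K := IsScalarTower.of_algebraMap_eq fun b => by
    change _ = algebraMap R K (algebraMap k0 R (algebraMap k k0 b))
    rw [← IsScalarTower.algebraMap_apply k0 R K, ← IsScalarTower.algebraMap_apply k k0 K]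
  have hηv : ∀ s : S, algebraMap R K (η (c s).succ) = v s := fun s => by
    rw [hη, ← heq, hy's, hy'0, div_one]
  have heq' : ∀ s : S, v s = aeval x (H' (c s).succ) / aeval x (H' 0) := fun s => by
    rw [← heq, hy's, hy'0, div_one]
  -- the generators
  let W : Type := Fin (M + 1) ⊕ S ⊕ Fin τ
  let wW : W → R := Sum.elim xh (Sum.elim (fun s => η (c s).succ) fun j => algebraMap k0 R (t j))
  let cW : W ≃ Fin (Fintype.card W) := Fintype.equivFin W
  let V : Type := (Σ l : Fin r, Fin (N l + 1)) ⊕ Fin τ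
  let vV : V → R := Sum.elim (fun s => η (c (Sum.inl s)).succ) fun j => algebraMap k0 R (t j)
  let cV : V ≃ Fin (Fintype.card V) := Fintype.equivFin V
  have hk0 : ∀ (L : IntermediateField k K), (∀ j, algebraMap k0 K (t j) ∈ L) →
      ∀ c : k0, algebraMap k0 K c ∈ L := by
    intro L hL c
    have hc : c ∈ IntermediateField.adjoin k (Set.range t) := by
      rw [ht]
      exact IntermediateField.mem_top
    induction hc using IntermediateField.adjoin_induction with
    | mem y hy =>
      obtain ⟨j, rfl⟩ := hy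
      exact hL j
    | algebraMap c =>
      rw [← IsScalarTower.algebraMap_apply k k0 K]
      exact L.algebraMap_mem c
    | add x y _ _ hx hy =>
      rw [map_add]
      exact add_mem hx hy
    | inv x _ hx =>
      rw [map_inv₀]
      exact inv_mem hx
    | mul x y _ _ hx hy =>
      rw [map_mul]
      exact mul_mem hx hy
  have hVK : ∀ s, algebraMap R K (vV s) = Sum.elim (fun s => v (Sum.inl s))
      (fun j => algebraMap k0 K (t j)) s := by
    intro s
    rcases s with s | j
    · exact hηv _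
    · change algebraMap R K (algebraMap k0 R (t j)) = _
      rw [← IsScalarTower.algebraMap_apply k0 R K]
      rfl
  have hC : (⨆ l, coords k0 (y l)).toSubfield = (IntermediateField.adjoin k
      (Set.range fun a => algebraMap R K (vV (cV.symm a)))).toSubfield := by
    have hmemV : ∀ s, algebraMap R K (vV s) ∈ IntermediateField.adjoin k
        (Set.range fun a => algebraMap R K (vV (cV.symm a))) := fun s =>
      IntermediateField.subset_adjoin _ _ ⟨cV s, by simp only [Equiv.symm_apply_apply]⟩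
    have hk0' := hk0 _ (fun j => by
      have h1 := hmemV (Sum.inr j)
      rw [hVK] at h1
      exact h1)
    apply le_antisymm
    · let L0 : IntermediateField k0 K := (IntermediateField.adjoin k
        (Set.range fun a => algebraMap R K (vV (cV.symm a)))).toSubfield.toIntermediateField hk0'
      have h1 : (⨆ l, coords k0 (y l)) ≤ L0 := by
        refine iSup_le fun l => ?_
        rw [coords_eq (hj l), IntermediateField.adjoin_le_iff]
        rintro _ ⟨a, rfl⟩
        have h2 := hmemV (Sum.inl ⟨l, a⟩)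
        rw [hVK] at h2
        exact h2
      exact h1
    · have h1 : IntermediateField.adjoin k
          (Set.range fun a => algebraMap R K (vV (cV.symm a))) ≤
          (⨆ l, coords k0 (y l)).restrictScalars k := by
        rw [IntermediateField.adjoin_le_iff]
        rintro _ ⟨a, rfl⟩
        change algebraMap R K (vV (cV.symm a)) ∈ (⨆ l, coords k0 (y l))
        rw [hVK]
        rcases cV.symm a with ⟨l, b⟩ | j
        · have h3 : coords k0 (y l) ≤ ⨆ l, coords k0 (y l) :=
            le_iSup (fun l => coords k0 (y l)) _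
          refine h3 ?_
          exact IntermediateField.subset_adjoin _ _ ⟨_, _, hj l, rfl⟩
        · exact IntermediateField.algebraMap_mem _ _
      exact h1
  have hWK : ∀ s, algebraMap R K (wW s) = Sum.elim (fun i => x i / x i0) (Sum.elim v
      (fun j => algebraMap k0 K (t j))) s := by
    intro s
    rcases s with i | s | j
    · exact hxh i
    · exact hηv s
    · change algebraMap R K (algebraMap k0 R (t j)) = _
      rw [← IsScalarTower.algebraMap_apply k0 R K]
      rfl
  have hgenW : IntermediateField.adjoin k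
      (Set.range fun a => algebraMap R K (wW (cW.symm a))) = ⊤ := by
    have hmemW : ∀ s, algebraMap R K (wW s) ∈ IntermediateField.adjoin k
        (Set.range fun a => algebraMap R K (wW (cW.symm a))) := fun s =>
      IntermediateField.subset_adjoin _ _ ⟨cW s, by simp only [Equiv.symm_apply_apply]⟩
    have hk0' := hk0 _ (fun j => by
      have h1 := hmemW (Sum.inr (Sum.inr j))
      rw [hWK] at h1
      exact h1)
    let L0 : IntermediateField k0 K := (IntermediateField.adjoin k
      (Set.range fun a => algebraMap R K (wW (cW.symm a)))).toSubfield.toIntermediateField hk0'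
    have h1 : (⊤ : IntermediateField k0 K) ≤ L0 := by
      rw [← hgen, coords_eq hi0, IntermediateField.adjoin_le_iff]
      rintro _ ⟨a, rfl⟩
      have h2 := hmemW (Sum.inl a)
      rw [hWK] at h2
      exact h2
    rw [eq_top_iff]
    intro u _
    exact h1 (IntermediateField.mem_top (x := u))
  obtain ⟨g, hg, A, hA⟩ := ring_log' (k := k) (R := R) hinj (w := fun a => wW (cW.symm a))
    (η := fun a => vV (cV.symm a)) (C := (⨆ l, coords k0 (y l)).toSubfield) hC hgenW
    (s := fun (i : {i // aeval x (Q i) ≠ 0}) j => η (c (Sum.inr (Sum.inl (i, j)))).succ)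
    (z := η (c (Sum.inr (Sum.inr ()))).succ)
    (fun a => by
      rcases h : cV.symm a with s | j
      · exact ⟨cW (Sum.inr (Sum.inl (Sum.inl s))), by
          simp only [Equiv.symm_apply_apply]
          rfl⟩
      · exact ⟨cW (Sum.inr (Sum.inr j)), by
          simp only [Equiv.symm_apply_apply]
          rfl⟩)
    (fun i j => ⟨cW (Sum.inr (Sum.inl (Sum.inr (Sum.inl (i, j))))), by
      simp only [Equiv.symm_apply_apply]
      rfl⟩)
    ⟨cW (Sum.inr (Sum.inl (Sum.inr (Sum.inr ())))), by
      simp only [Equiv.symm_apply_apply]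
      rfl⟩
    (by
      rcases hz with hz | ⟨Ω, F, j1, j2, j3, j4, j5, hcomm, hF, hff, hint, hpos⟩
      · exact Or.inl hz
      · refine Or.inr ⟨Ω, F, j1, j2, j3, j4, j5, hcomm, hF, hff, fun i => ?_, ?_⟩
        · have h1 : (fun j => algebraMap K F (algebraMap R K
              (η (c (Sum.inr (Sum.inl (i, j)))).succ))) =
              fun j => algebraMap K F (cuspFun x Q i j) := by
            funext j
            rw [hηv]
            rfl
          rw [h1, hηv]
          exact hint i
        · rw [hηv]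
          exact hpos)
  obtain ⟨G, hGf, hGx, hG⟩ := hR g hg
  -- relations between the forms
  have hHj : ∀ l, aeval x (H' (c (Sum.inl ⟨l, j l⟩)).succ) = aeval x (H' 0) := by
    intro l
    have h1 := heq' (Sum.inl ⟨l, j l⟩)
    change y l (j l) / y l (j l) = _ at h1
    rw [div_self (hj l), eq_comm, div_eq_iff hne, one_mul] at h1
    exact h1
  have hHj' : ∀ (E : Type) [Field E] [Algebra k0 E] (f : Fin (M + 1) → E), OnVar k0 x f →
      ∀ l, aeval f (H' (c (Sum.inl ⟨l, j l⟩)).succ) = aeval f (H' 0) := by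
    intro E _ _ f hf l
    have h1 := hf.2 (H' (c (Sum.inl ⟨l, j l⟩)).succ - H' 0) ⟨e, (hH' _).sub (hH' _)⟩ (by
      unfold Pool.Agent.W602.GT.val
      rw [map_sub, hHj, sub_self])
    unfold Pool.Agent.W602.GT.val at h1
    rwa [map_sub, sub_eq_zero] at h1
  have hHs : ∀ (E : Type) [Field E] [Algebra k0 E] (f : Fin (M + 1) → E), OnVar k0 x f →
      ∀ (i : {i // aeval x (Q i) ≠ 0}) (a : Fin (M + 1)),
      f a ^ (Q i).totalDegree * aeval f (H' 0) =
        aeval f (Q i) * aeval f (H' (c (Sum.inr (Sum.inl (i, a)))).succ) := by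
    intro E _ _ f hf i a
    obtain ⟨d, hd⟩ := hQ i
    have hQi0 : Q i ≠ 0 := by
      intro h0
      apply i.2
      rw [h0, map_zero]
    have hdd : (Q i).totalDegree = d := hd.totalDegree hQi0
    have h1 := hf.2 (X a ^ (Q i).totalDegree * H' 0 -
      Q i * H' (c (Sum.inr (Sum.inl (i, a)))).succ) ⟨d + e, by
        refine IsHomogeneous.sub ?_ (hd.mul (hH' _))
        have h2 := ((isHomogeneous_X k0 a).pow (Q i).totalDegree).mul (hH' 0)
        have h3 : 1 * (Q i).totalDegree + e = d + e := by rw [one_mul, hdd]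
        rwa [h3] at h2⟩ (by
      unfold Pool.Agent.W602.GT.val
      have h2 := heq' (Sum.inr (Sum.inl (i, a)))
      change x a ^ (Q i).totalDegree / aeval x (Q i) = _ at h2
      rw [div_eq_div_iff i.2 hne] at h2
      rw [map_sub, map_mul, map_mul, map_pow, aeval_X, h2]
      ring)
    unfold Pool.Agent.W602.GT.val at h1
    rw [map_sub, map_mul, map_mul, map_pow, aeval_X, sub_eq_zero] at h1
    exact h1
  refine ⟨j, e, fun l a => H' (c (Sum.inl ⟨l, a⟩)).succ, fun l => ⟨fun a => hH' _, ?_, hj l,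
    fun a => ?_⟩, G * ∏ i : {i // aeval x (Q i) ≠ 0}, Q i,
    isForm_mul0 hGf (isForm_prod0 fun i => hQ i), ?_, fun E _ _ f hf hfG l => ?_,
    A * (∑ l, (N l + 1) + 1), fun E _ _ _ _ _ f hf hfG => ?_⟩
  · rw [hHj]
    exact hne
  · change v (Sum.inl ⟨l, a⟩) = _
    rw [heq', hHj]
  · rw [val_mul_ne0, val_prod_ne0]
    exact ⟨hGx, fun i => i.2⟩
  · rw [val_mul_ne0] at hfG
    change aeval f (H' (c (Sum.inl ⟨l, j l⟩)).succ) ≠ 0
    rw [hHj' E f hf]
    exact (hG E f hf hfG.1).2.1
  · rw [val_mul_ne0, val_prod_ne0] at hfG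
    have hf1 := hHj' E f hf
    obtain ⟨hfi, hf0, φ0, hφg, hφx, hφη⟩ := hG E f hf hfG.1
    let φ : R →ₐ[k] E := φ0.restrictScalars k
    have hφ : ∀ b, φ b = φ0 b := fun _ => rfl
    have h1 := hA E φ hφg
    -- the left hand side
    have hL : pht k f ≤ ∑ a, hgt k (φ (wW (cW.symm a))) := by
      refine (pht_le (k := k) f hfi).trans ?_
      rw [Equiv.sum_comp cW.symm (fun s => hgt k (φ (wW s))), Fintype.sum_sum_type]
      have h2 : ∑ i, hgt k (f i / f i0) = ∑ i, hgt k (φ (wW (Sum.inl i))) := by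
        refine Finset.sum_congr rfl fun i _ => ?_
        change _ = hgt k (φ0 (xh i))
        rw [hφx]
      rw [h2]
      have h3 := Finset.sum_nonneg fun (s : S ⊕ Fin τ) (_ : s ∈ Finset.univ) =>
        hgt_nonneg (k := k) (φ (wW (Sum.inr s)))
      exact le_add_of_nonneg_right h3
    -- the places
    have hfQ : ∀ i : {i // aeval x (Q i) ≠ 0}, aeval f (Q i) ≠ 0 := fun i => hfG.2 i
    have hMt : {P : Place k E | ∀ (i : {i // aeval x (Q i) ≠ 0}), ∃ a,
        P.ord (φ (η (c (Sum.inr (Sum.inl (i, a)))).succ)) < 0} =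
        {P : Place k E | Meets Q f P} := by
      ext P
      change (∀ (i : {i // aeval x (Q i) ≠ 0}), ∃ a,
        P.ord (φ (η (c (Sum.inr (Sum.inl (i, a)))).succ)) < 0) ↔ Meets Q f P
      rw [meets_iff (k := k) hf.1 (p := fun i => aeval x (Q i) ≠ 0) (fun i hi => by
        rw [not_not] at hi
        exact hf.2 (Q i) (hQ i) hi) (fun i hi => hfQ ⟨i, hi⟩) P]
      have h2 : ∀ (i : {i // aeval x (Q i) ≠ 0}) a, φ (η (c (Sum.inr (Sum.inl (i, a)))).succ) =
          f a ^ (Q i).totalDegree / aeval f (Q i) := by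
        intro i a
        rw [hφ, hφη, div_eq_div_iff hf0 (hfQ i), hHs E f hf i a]
        ring
      simp only [h2]
    rw [hMt] at h1
    -- the heights of the base
    have hynn : ∀ l, 0 ≤ pht k fun i => aeval f (H' (c (Sum.inl ⟨l, i⟩)).succ) := fun l =>
      pht_nn ⟨j l, by rw [hf1]; exact hf0⟩
    have h4 : ∀ s : (Σ l : Fin r, Fin (N l + 1)), hgt k (φ (vV (Sum.inl s))) ≤
        pht k fun i => aeval f (H' (c (Sum.inl ⟨s.1, i⟩)).succ) := by
      rintro ⟨l, a⟩
      change hgt k (φ0 (η (c (Sum.inl ⟨l, a⟩)).succ)) ≤ _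
      rw [hφη]
      by_cases h0 : aeval f (H' (c (Sum.inl ⟨l, a⟩)).succ) = 0
      · rw [h0, zero_div, hgt_zero]
        exact hynn l
      · have h5 := Pool.Agent.W603.CX.hgt_le_pht (k := k)
          (fun i => aeval f (H' (c (Sum.inl ⟨l, i⟩)).succ)) (j := a) (l := j l) h0
          (by rw [hf1]; exact hf0)
        rw [hf1] at h5
        exact h5
    have h5 : ∑ a, hgt k (φ (vV (cV.symm a))) ≤
        ∑ l, ((N l : ℤ) + 1) * (pht k fun i => aeval f (H' (c (Sum.inl ⟨l, i⟩)).succ)) +
          ∑ j, hgt k (algebraMap k0 E (t j)) := by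
      rw [Equiv.sum_comp cV.symm (fun s => hgt k (φ (vV s))), Fintype.sum_sum_type]
      refine add_le_add ?_ (le_of_eq ?_)
      · refine (Finset.sum_le_sum fun s _ => h4 s).trans ?_
        rw [Fintype.sum_sigma]
        refine Finset.sum_le_sum fun l _ => ?_
        change (∑ _ : Fin (N l + 1), pht k fun i =>
          aeval f (H' (c (Sum.inl ⟨l, i⟩)).succ)) ≤ _
        rw [Finset.sum_const, Finset.card_univ, Fintype.card_fin, nsmul_eq_mul]
        push_cast
        exact le_rfl
      · refine Finset.sum_congr rfl fun j _ => ?_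
        change hgt k (φ0 (algebraMap k0 R (t j))) = _
        rw [AlgHom.commutes]
    have h6 : ∑ l, ((N l : ℤ) + 1) *
        (pht k fun i => aeval f (H' (c (Sum.inl ⟨l, i⟩)).succ)) ≤
        (∑ l, ((N l : ℤ) + 1)) *
          ∑ l, pht k fun i => aeval f (H' (c (Sum.inl ⟨l, i⟩)).succ) := by
      rw [Finset.sum_mul]
      refine Finset.sum_le_sum fun l _ => ?_
      refine mul_le_mul_of_nonneg_left ?_ (by positivity)
      exact Finset.single_le_sum (f := fun l => pht k fun i =>
        aeval f (H' (c (Sum.inl ⟨l, i⟩)).succ)) (fun l _ => hynn l) (Finset.mem_univ l)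
    have hs : 0 ≤ ∑ l, pht k fun i => aeval f (H' (c (Sum.inl ⟨l, i⟩)).succ) :=
      Finset.sum_nonneg fun l _ => hynn l
    have hN : (0 : ℤ) ≤ ∑ l, ((N l : ℤ) + 1) := Finset.sum_nonneg fun l _ => by positivity
    have hm : (0 : ℤ) ≤ max (canDeg k E) 0 := le_max_right _ _
    have hn0 : (0 : ℤ) ≤ {P : Place k E | Meets Q f P}.ncard := Int.natCast_nonneg _
    have ht0 : (0 : ℤ) ≤ ∑ j, hgt k (algebraMap k0 E (t j)) :=
      Finset.sum_nonneg fun _ _ => hgt_nonneg _
    have h7 : max (canDeg k E) 0 + {P : Place k E | Meets Q f P}.ncard +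
        ∑ a, hgt k (φ (vV (cV.symm a))) ≤
        ((∑ l, ((N l : ℤ) + 1)) + 1) * (max (canDeg k E) 0 +
          {P : Place k E | Meets Q f P}.ncard +
          ∑ l, (pht k fun i => aeval f (H' (c (Sum.inl ⟨l, i⟩)).succ)) +
          ∑ j, hgt k (algebraMap k0 E (t j))) := by
      have h8 := h5.trans (add_le_add h6 le_rfl)
      nlinarith
    calc pht k f ≤ ∑ a, hgt k (φ (wW (cW.symm a))) := hL
      _ ≤ A * (max (canDeg k E) 0 + {P : Place k E | Meets Q f P}.ncard +
          ∑ a, hgt k (φ (vV (cV.symm a)))) := h1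
      _ ≤ A * (((∑ l, ((N l : ℤ) + 1)) + 1) * (max (canDeg k E) 0 +
          {P : Place k E | Meets Q f P}.ncard +
          ∑ l, (pht k fun i => aeval f (H' (c (Sum.inl ⟨l, i⟩)).succ)) +
          ∑ j, hgt k (algebraMap k0 E (t j)))) :=
        mul_le_mul_of_nonneg_left h7 (Int.natCast_nonneg _)
      _ = ((A * (∑ l, (N l + 1) + 1) : ℕ) : ℤ) * (max (canDeg k E) 0 +
          {P : Place k E | Meets Q f P}.ncard +
          ∑ l, (pht k fun i => aeval f (H' (c (Sum.inl ⟨l, i⟩)).succ)) +
          ∑ j, hgt k (algebraMap k0 E (t j))) := by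
        push_cast
        ring

end main

end Pool.Agent.H916
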