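import Pool.Agent.H916.GtFib
import Pool.Agent.H916.LRat
import Pool.Graph.R_seed8.Y174.L1

/-! The fibres of a fibration by curves on a pair of log general type. -/

set_option autoImplicit false
set_option linter.overlappingInstances false
set_option linter.unusedSectionVars false

open FF Pool.Agent.W603.LV Pool.Agent.W619.PQ Pool.Agent.K4H62.IT Pool.Agent.W602.GT
open Pool.Agent.Y174 (PairSec IsPullFib BdFib LiesFib LogFld)

namespace Pool.Agent.H916

/-- Logarithmic forms are sections of the pair. -/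
theorem pairSec_of_log {k K : Type} [Field k] [CharZero k] [Field K] [Algebra k K]
    (hess : Algebra.EssFiniteType k K) {n N : ℕ} (hn : Algebra.trdeg k K = n)
    {Bd : Place k K → Prop} {δ : Place k K → ℝ} (hδ1 : ∀ v, Bd v → δ v = 1)
    (hδ0 : ∀ v, ¬ Bd v → δ v = 0) {ω : (Fin n → Derivation k K K) → K} (h1 : IsPluri N ω)
    (h2 : ∀ P : Place k K, Divisorial n P → LogAt P ω)
    (h3 : ∀ P : Place k K, Divisorial n P → ¬ Bd P → RegAt P ω) :
    PairSec k K n δ {1} N 0 ω := by
  refine ⟨h1, fun v hv D hD => ?_⟩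
  by_cases hB : Bd v
  · have h4 := (Pool.Agent.Y174.log_to_pres hn hess (fun _ => True) hv ω h1 (c := 0)
      (fun D' hD' => ?_) D (fun j => hD j)).1 trivial
    · rcases h4 with h4 | h4
      · exact Or.inl h4
      · refine Or.inr ⟨1, Finset.mem_singleton_self _, one_ne_zero, ?_⟩
        rw [hδ1 v hB]
        simpa using h4
    · rcases h2 v hv D' (fun j => (hD' j).2 trivial) with h | h
      · exact Or.inl h
      · exact Or.inr (by exact_mod_cast h)
  · rcases h3 v hv hB D (fun i => hD i) with h | h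
    · exact Or.inl h
    · refine Or.inr ⟨1, Finset.mem_singleton_self _, one_ne_zero, ?_⟩
      rw [hδ0 v hB]
      have h5 : (0 : ℝ) ≤ ((v.ord (ω D) : ℤ) : ℝ) := by exact_mod_cast h
      simpa using h5

section

variable {k B K Λ F : Type} [Field k] [CharZero k] [Field B] [Field K] [Field Λ] [Field F]
  [Algebra k B] [Algebra k K] [Algebra B K]
  [IsScalarTower k B K] [Algebra B Λ] [Algebra Λ F] [Algebra K F] [Algebra B F]
  [IsScalarTower B Λ F] [IsScalarTower B K F] [Algebra k Λ] [Algebra k F] [IsScalarTower k Λ F]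
  [IsScalarTower k K F] [IsScalarTower k B Λ] [IsAlgClosed Λ]

/-- Restrictions of logarithmic pluricanonical forms are logarithmic. -/
theorem reg_resL (hess : Algebra.EssFiniteType k K) {b : ℕ}
    (hK : Algebra.trdeg k K = (b + 1 : ℕ))
    [Algebra.IsAlgebraic K F] (hFF : IsFF Λ F) {tB : Fin b → B} (htB : IsTranscendenceBasis k tB)
    {ξ : K} (hxB : IsTranscendenceBasis B (fun _ : Fin (0 + 1) => ξ))
    {Ef : Fin (b + 1) → Derivation k K K}
    (hEd : ∀ i j, Ef i (Fin.append (algebraMap B K ∘ tB) (fun _ : Fin (0 + 1) => ξ) j) =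
      if i = j then 1 else 0) {D : Derivation Λ F F} (hD1 : D (algebraMap K F ξ) = 1) {N : ℕ}
    {δ : Place k K → ℝ} {δ' : Place Λ F → ℝ} (hδ : IsPullFib δ δ')
    {ω : (Fin (b + 1) → Derivation k K K) → K}
    (hsec : PairSec k K (b + (0 + 1)) δ {1} N 0 ω) (Q : Place Λ F) :
    algebraMap K F (ω Ef) = 0 ∨
      (N : ℝ) * ((vo Q D : ℤ) - δ' Q) ≤ (Q.ord (algebraMap K F (ω Ef)) : ℤ) := by
  classical
  have hB0 : CharZero B := charZero_of_injective_algebraMap (algebraMap k B).injective
  have hΛ0 : CharZero Λ := charZero_of_injective_algebraMap (algebraMap B Λ).injective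
  have hDne : D ≠ 0 := by
    intro h
    rw [h] at hD1
    exact zero_ne_one hD1
  by_cases h0 : algebraMap K F (ω Ef) = 0
  · exact Or.inl h0
  right
  have h1 := Pool.Agent.Y174.res_sec (Λ := Λ) (F := F) hess hK htB hxB
    (E := Ef) hEd hδ hsec
  obtain ⟨s, hs0, hs⟩ := Q.surj
  -- the frame at the place
  obtain ⟨c, hc⟩ : ∃ c : F, c = s ^ (-(vo Q D)) := ⟨_, rfl⟩
  have hc0 : c ≠ 0 := by
    rw [hc]
    exact zpow_ne_zero _ hs0
  have hcord : Q.ord c = -(vo Q D) := by
    rw [hc, Q.ord_zpow, hs, mul_one]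
  have hpres : ∀ l : Fin (0 + 1), ∀ f, Q.Reg f → Q.Reg ((fun _ : Fin (0 + 1) => c • D) l f) := by
    intro l f hf
    change Q.Reg (c * D f)
    obtain ⟨g, hg, hg'⟩ := der_mul Q hs hDne (f := f) hf
    rw [hg', ← mul_assoc]
    refine Q.reg_mul (Or.inr ?_) hg
    have hDs : D s ≠ 0 := der_pi_ne_zero hDne Q hs
    rw [Q.ord_mul hc0 hDs, hcord, vo_eq Q hs hDne]
    simp
  have hdiv : IsDivisorial Q (0 + 1) := by
    have : IsEmpty (Fin (0 + 1 - 1)) := inferInstanceAs (IsEmpty (Fin 0))
    refine ⟨Fin.elim0, fun p hp => ?_⟩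
    have h3 : p = MvPolynomial.C (MvPolynomial.coeff 0 p) :=
      MvPolynomial.eq_C_of_isEmpty p
    have h4 : MvPolynomial.coeff 0 p ≠ 0 := by
      intro h5
      rw [h5, map_zero] at h3
      exact hp h3
    rw [h3, MvPolynomial.aeval_C]
    exact ⟨(_root_.map_ne_zero _).2 h4, Q.ord_const h4⟩
  have h2 := h1.2 Q hdiv (fun _ => c • D) hpres
  have h5 : (Matrix.of fun (_ _ : Fin (0 + 1)) => (c • D) (algebraMap K F ξ)).det = c := by
    have : Unique (Fin (0 + 1)) := inferInstanceAs (Unique (Fin 1))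
    rw [Matrix.det_unique, Matrix.of_apply]
    change c * D (algebraMap K F ξ) = c
    rw [hD1, mul_one]
  beta_reduce at h2
  rw [h5] at h2
  have hcN : c ^ N ≠ 0 := pow_ne_zero _ hc0
  rcases h2 with h2 | ⟨s', hs', hs'0, h2⟩
  · exact absurd h2 (mul_ne_zero hcN h0)
  · rw [Q.ord_mul hcN h0, Q.ord_pow, hcord] at h2
    simp only [Nat.cast_zero, zero_mul, zero_sub] at h2
    push_cast at h2 ⊢
    linarith


open scoped Classical in
/-- the multiplicities of the boundary -/
theorem isPullFib_ind (Bd : Place k K → Prop) :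
    IsPullFib (fun v => if Bd v then (1 : ℝ) else 0)
      (fun w : Place Λ F => if BdFib Bd w then (1 : ℝ) else 0) := by
  intro v w e hw
  have he : (1 : ℝ) ≤ e := by exact_mod_cast hw.1
  by_cases hv : Bd v
  · beta_reduce
    rw [if_pos hv, if_pos ⟨v, e, hw, hv⟩, sub_self, mul_zero, sub_zero, max_eq_right]
    exact zero_le_one
  · have hn : ¬ BdFib Bd w := by
      rintro ⟨v', e', hw', hv'⟩
      obtain ⟨s, -, hs⟩ := v.surj
      obtain ⟨s', -, hs'⟩ := v'.surj
      have g1 := (hw.2 s).symm.trans (hw'.2 s)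
      have g2 := (hw.2 s').symm.trans (hw'.2 s')
      rw [hs, mul_one] at g1
      rw [hs', mul_one] at g2
      have g3 : (e : ℤ) ∣ e' := ⟨_, g2.symm⟩
      have g4 : (e' : ℤ) ∣ e := ⟨_, g1⟩
      have g5 : (e : ℤ) = e' :=
        Int.dvd_antisymm (Int.natCast_nonneg _) (Int.natCast_nonneg _) g3 g4
      have g6 : (e : ℤ) ≠ 0 := by
        have := hw.1
        omega
      have g7 : v = v' := by
        apply Place.ext
        funext f
        have g8 := (hw.2 f).symm.trans (hw'.2 f)
        rw [← g5] at g8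
        exact mul_left_cancel₀ g6 g8
      exact hv (g7 ▸ hv')
    beta_reduce
    rw [if_neg hv, if_neg hn, sub_zero, mul_one, max_eq_left]
    linarith

/-- a field with a transcendence basis which is algebraic over the base -/
theorem alg_of_basis_top {k B K : Type} [Field k] [Field B] [Field K] [Algebra k B] [Algebra k K]
    [Algebra B K] [IsScalarTower k B K] {d : ℕ} {y : Fin d → K} (hy : IsTranscendenceBasis k y)
    (hyB : ∀ i, IsAlgebraic B (y i)) : Algebra.IsAlgebraic B K := by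
  obtain ⟨A, hA⟩ : ∃ A : IntermediateField B K, A = algebraicClosure B K := ⟨_, rfl⟩
  have hAalg : ∀ z : K, z ∈ A ↔ IsAlgebraic B z := fun z => by
    rw [hA, mem_algebraicClosure_iff]
  have hAB : Algebra.IsAlgebraic B A := by
    refine ⟨fun z => ?_⟩
    exact (isAlgebraic_algebraMap_iff (R := B) (algebraMap A K).injective).1 ((hAalg _).1 z.2)
  have h1 : Algebra.adjoin k (Set.range y) ≤ (A.restrictScalars k).toSubalgebra := by
    rw [Algebra.adjoin_le_iff]
    rintro _ ⟨i, rfl⟩
    exact (hAalg _).2 (hyB i)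
  let g : Algebra.adjoin k (Set.range y) →+* A :=
    { toFun := fun e => ⟨(e : K), h1 e.2⟩
      map_one' := rfl
      map_mul' := fun _ _ => rfl
      map_zero' := rfl
      map_add' := fun _ _ => rfl }
  have hginj : Function.Injective g := by
    intro a b hab
    have h2 : ((g a : A) : K) = g b := congrArg Subtype.val hab
    exact Subtype.ext h2
  refine ⟨fun x => ?_⟩
  obtain ⟨p, hp0, hp⟩ := hy.isAlgebraic.isAlgebraic x
  have h2 : IsAlgebraic A x := by
    refine ⟨p.map g, (Polynomial.map_ne_zero_iff hginj).2 hp0, ?_⟩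
    rw [Polynomial.aeval_def, Polynomial.eval₂_map]
    exact hp
  exact h2.restrictScalars B

/-- one of the ratios is transcendental over the base -/
theorem exists_ratio {b N : ℕ}
    (hB : Algebra.trdeg k B = b) (hK : Algebra.trdeg k K = (b + 1 : ℕ))
    {y : Fin (b + 1) → K} (hy : IsTranscendenceBasis k y)
    {Ef : Fin (b + 1) → Derivation k K K} (hEd : ∀ i j, Ef i (y j) = if i = j then 1 else 0)
    {ω : Fin (b + 1 + 1) → (Fin (b + 1) → Derivation k K K) → K} (h1 : ∀ l, IsPluri N (ω l))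
    {DD : Fin (b + 1) → Derivation k K K} (hD0 : ω 0 DD ≠ 0)
    (hDi : AlgebraicIndependent k (fun i : Fin (b + 1) => ω i.succ DD / ω 0 DD)) :
    ω 0 Ef ≠ 0 ∧ ∃ l : Fin (b + 1), ¬ IsAlgebraic B (ω l.succ Ef / ω 0 Ef) := by
  have hval : ∀ l, ω l DD = (Matrix.of fun i j => DD i (y j)).det ^ N * ω l Ef := fun l =>
    Pool.Agent.W636.PG.form_eq k K (b + 1) N _ hy Ef hEd (ω l) (h1 l) DD
  have hdet0 : (Matrix.of fun i j => DD i (y j)).det ^ N ≠ 0 := by
    intro h0
    apply hD0
    rw [hval, h0, zero_mul]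
  have ha0 : ω 0 Ef ≠ 0 := by
    intro h0
    apply hD0
    rw [hval, h0, mul_zero]
  have hrat : ∀ l : Fin (b + 1), ω l.succ DD / ω 0 DD = ω l.succ Ef / ω 0 Ef := by
    intro l
    rw [hval, hval, mul_div_mul_left _ _ hdet0]
  have hrb : IsTranscendenceBasis k (fun l : Fin (b + 1) => ω l.succ DD / ω 0 DD) := by
    refine hDi.isTranscendenceBasis_of_lift_trdeg_le_of_finite ?_
    rw [hK]
    simp
  refine ⟨ha0, ?_⟩
  by_contra hcon
  push Not at hcon
  have h8 : Algebra.IsAlgebraic B K := alg_of_basis_top hrb fun i => by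
    rw [hrat]
    exact hcon i
  have h9 : Algebra.trdeg B K = 0 := trdeg_eq_zero
  have hBK : Algebra.trdeg B K = (1 : ℕ) := Pool.Agent.Y174.trdeg_LK (r := 1) hB hK
  rw [h9] at hBK
  have h10 : (0 : ℕ) = 1 := by exact_mod_cast hBK
  exact zero_ne_one h10

variable [CharZero Λ]

open scoped Classical in
theorem reg_resZ (hess : Algebra.EssFiniteType k K) {b : ℕ}
    (hK : Algebra.trdeg k K = (b + 1 : ℕ))
    [Algebra.IsAlgebraic K F] (hFF : IsFF Λ F) {tB : Fin b → B} (htB : IsTranscendenceBasis k tB)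
    {ξ : K} (hxB : IsTranscendenceBasis B (fun _ : Fin (0 + 1) => ξ))
    {Ef : Fin (b + 1) → Derivation k K K}
    (hEd : ∀ i j, Ef i (Fin.append (algebraMap B K ∘ tB) (fun _ : Fin (0 + 1) => ξ) j) =
      if i = j then 1 else 0) {D : Derivation Λ F F} (hD1 : D (algebraMap K F ξ) = 1) {N : ℕ}
    {Bd : Place k K → Prop} {ω : (Fin (b + 1) → Derivation k K K) → K}
    (h1 : IsPluri N ω) (h2 : ∀ P : Place k K, Divisorial (b + 1) P → LogAt P ω)
    (h3 : ∀ P : Place k K, Divisorial (b + 1) P → ¬ Bd P → RegAt P ω)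
    (Z : Finset (Place Λ F)) (hZ : ∀ w : Place Λ F, BdFib Bd w → w ∈ Z) (Q : Place Λ F) :
    Ge Q (N * (vo Q D - if Q ∈ Z then 1 else 0)) (algebraMap K F (ω Ef)) := by
  have hsec : PairSec k K (b + (0 + 1)) (fun v => if Bd v then (1 : ℝ) else 0) {1} N 0 ω :=
    pairSec_of_log hess hK (fun v hv => if_pos hv) (fun v hv => if_neg hv) h1 h2 h3
  rcases reg_resL (Λ := Λ) (F := F) hess hK hFF htB hxB hEd hD1 (isPullFib_ind Bd) hsec Q
    with h | h
  · exact Or.inl h
  · right
    have h6 : (if BdFib Bd Q then (1 : ℝ) else 0) ≤ if Q ∈ Z then 1 else 0 := by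
      by_cases hQ : BdFib Bd Q
      · rw [if_pos hQ, if_pos (hZ Q hQ)]
      · rw [if_neg hQ]
        split_ifs
        · exact zero_le_one
        · exact le_rfl
    have h7 : (N : ℝ) * ((vo Q D : ℤ) - (if Q ∈ Z then (1 : ℝ) else 0)) ≤
        (Q.ord (algebraMap K F (ω Ef)) : ℤ) := by
      refine le_trans ?_ h
      have h8 : (0 : ℝ) ≤ N := Nat.cast_nonneg N
      exact mul_le_mul_of_nonneg_left (by linarith) h8
    have h9 : (((N : ℤ) * (vo Q D - if Q ∈ Z then 1 else 0) : ℤ) : ℝ) ≤
        ((Q.ord (algebraMap K F (ω Ef)) : ℤ) : ℝ) := by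
      refine le_trans (le_of_eq ?_) h7
      split_ifs <;> push_cast <;> ring
    exact_mod_cast h9

/-- **Fibres of pairs of log general type.** -/
theorem canDeg_pos_of_lgt (hess : Algebra.EssFiniteType k K) [Algebra.IsAlgebraic B Λ]
    [Algebra.IsAlgebraic K F] [hFF : IsFF Λ F] {b : ℕ}
    (hB : Algebra.trdeg k B = b) (hK : Algebra.trdeg k K = (b + 1 : ℕ))
    {Bd : Place k K → Prop} (h : LogGeneralType k K (b + 1) Bd) (Z : Finset (Place Λ F))
    (hZ : ∀ w : Place Λ F, BdFib Bd w → w ∈ Z) : 0 < canDeg Λ F + Z.card := by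
  classical
  obtain ⟨-, N, hN, ω, h1, h2, h3, DD, hD0, hDi⟩ := h
  -- the coordinates
  obtain ⟨tB, htB⟩ := Pool.Agent.W636.PG.exists_basis k B b hB
  have hBK : Algebra.trdeg B K = (1 : ℕ) := Pool.Agent.Y174.trdeg_LK (r := 1) hB hK
  obtain ⟨xx, hxx⟩ := Pool.Agent.W636.PG.exists_basis B K 1 hBK
  obtain ⟨ξ, hξ⟩ : ∃ ξ, ξ = xx 0 := ⟨_, rfl⟩
  have hxB : IsTranscendenceBasis B (fun _ : Fin (0 + 1) => ξ) := by
    have : (fun _ : Fin (0 + 1) => ξ) = xx := by
      funext i
      rw [hξ]
      congr 1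
      exact Subsingleton.elim _ _
    rw [this]
    exact hxx
  have hbas := Pool.Agent.Y174.basis_append htB hxB
  obtain ⟨Ef, hEd⟩ := Pool.Agent.W636.PG.exists_duals k K (b + 1) _ hbas
  obtain ⟨ha0, l, hl⟩ := exists_ratio hB hK hbas hEd h1 hD0 hDi
  -- the vector field on the fibre
  have hξB : ¬ IsAlgebraic B ξ := by
    have h1 := hxB.1
    have : Unique (Fin (0 + 1)) := inferInstanceAs (Unique (Fin 1))
    rw [algebraicIndependent_unique_type_iff] at h1
    exact h1
  have hξF : Transcendental Λ (algebraMap K F ξ) := by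
    intro h
    apply hξB
    have h1 : IsAlgebraic B (algebraMap K F ξ) := h.restrictScalars B
    exact (isAlgebraic_algebraMap_iff (R := B) (algebraMap K F).injective).1 h1
  have hd0 := der_ne (k := Λ) (K := F)
  have hd1 := der_ne_zero hd0 hξF
  obtain ⟨D, hDd⟩ : ∃ D : Derivation Λ F F, D = (der Λ F (algebraMap K F ξ))⁻¹ • der Λ F :=
    ⟨_, rfl⟩
  have hD1 : D (algebraMap K F ξ) = 1 := by
    rw [hDd, Derivation.smul_apply, smul_eq_mul, inv_mul_cancel₀ hd1]
  have hDne : D ≠ 0 := by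
    intro h
    rw [h] at hD1
    exact zero_ne_one hD1
  have hreg : ∀ l, ∀ Q : Place Λ F,
      Ge Q (N * (vo Q D - if Q ∈ Z then 1 else 0)) (algebraMap K F (ω l Ef)) := fun l Q =>
    reg_resZ hess hK hFF htB hxB hEd hD1 (h1 l) (fun P hP => h2 P hP l)
      (fun P hP hB => h3 P hP hB l) Z hZ Q
  have hne : algebraMap K F (ω 0 Ef) ≠ 0 := (_root_.map_ne_zero _).2 ha0
  refine canDeg_pos_of_log Z hDne hN (f := algebraMap K F (ω 0 Ef))
    (g := algebraMap K F (ω l.succ Ef)) hne (hreg 0) (hreg l.succ) fun c hc => hl ?_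
  have h5 : algebraMap K F (ω l.succ Ef / ω 0 Ef) = algebraMap Λ F c := by
    rw [map_div₀, hc, Algebra.smul_def, mul_div_cancel_right₀ _ hne]
  have h3 : IsAlgebraic B (algebraMap K F (ω l.succ Ef / ω 0 Ef)) := by
    rw [h5]
    exact (Algebra.IsAlgebraic.isAlgebraic c).algebraMap
  exact (isAlgebraic_algebraMap_iff (R := B) (algebraMap K F).injective).1 h3

end

/-- the geometric generic fibre of a fibration by curves -/
theorem gen_fibL {k B K : Type} [Field k] [CharZero k] [Field B] [Field K] [Algebra k B]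
    [Algebra k K] [Algebra B K] [IsScalarTower k B K] (hess : Algebra.EssFiniteType k K) {b : ℕ}
    (hB : Algebra.trdeg k B = b) (hK : Algebra.trdeg k K = (b + 1 : ℕ)) :
    ∃ (Ω F : Type) (_ : Field Ω) (_ : Field F) (_ : Algebra B Ω) (_ : Algebra Ω F)
      (_ : Algebra K F) (_ : Algebra.IsAlgebraic K F),
        (∀ c : B, algebraMap K F (algebraMap B K c) =
        algebraMap Ω F (algebraMap B Ω c)) ∧ FibreField B K Ω F ∧ IsFF Ω F ∧
        (∀ Bd : Place k K → Prop, LogGeneralType k K (b + 1) Bd → ∀ Z : Finset (Place Ω F),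
          (∀ w : Place Ω F, BdFib Bd w → w ∈ Z) → 0 < canDeg Ω F + Z.card) := by
  obtain ⟨Ω, F, i1, i2, i3, i4, i5, i6, i7, i8, t1, t2, t3, t4, t5, hF⟩ :=
    exists_fibreField (k := k) (B0 := B) (B := K) (algebraMap B K).injective
  have hcl := hF.closed
  have halg := hF.alg
  have hB0 : CharZero B := charZero_of_injective_algebraMap (algebraMap k B).injective
  have hΩ0 : CharZero Ω := charZero_of_injective_algebraMap (algebraMap B Ω).injective
  have hBK : Algebra.trdeg B K = (1 : ℕ) := Pool.Agent.Y174.trdeg_LK (r := 1) hB hK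
  have hKF : Algebra.IsAlgebraic K F := alg_KF hF
  have htr : Algebra.trdeg Ω F = 1 := by
    have h1 := trdeg_add_eq B Ω (A := F)
    have h2 := trdeg_add_eq B K (A := F)
    have h3 : Algebra.trdeg B Ω = 0 := trdeg_eq_zero
    have h4 : Algebra.trdeg K F = 0 := trdeg_eq_zero
    rw [h3, zero_add] at h1
    rw [h4, add_zero, hBK] at h2
    rw [h1, ← h2, Nat.cast_one]
  have hessF : Algebra.EssFiniteType Ω F := by
    rw [← IntermediateField.fg_top_iff]
    obtain ⟨s, hs⟩ := IntermediateField.fg_top k K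
    have h1 : IntermediateField.adjoin Ω (algebraMap K F '' (s : Set K)) = ⊤ := by
      rw [eq_top_iff, ← hF.gen, IntermediateField.adjoin_le_iff]
      rintro _ ⟨u, rfl⟩
      have hu : u ∈ IntermediateField.adjoin k (s : Set K) := by
        rw [hs]
        exact IntermediateField.mem_top
      induction hu using IntermediateField.adjoin_induction with
      | mem v hv => exact IntermediateField.subset_adjoin _ _ ⟨v, hv, rfl⟩
      | algebraMap c =>
        rw [← IsScalarTower.algebraMap_apply k K F, IsScalarTower.algebraMap_apply k Ω F]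
        exact IntermediateField.algebraMap_mem _ _
      | add a b _ _ ha hb =>
        rw [map_add]
        exact add_mem ha hb
      | inv a _ ha =>
        rw [map_inv₀]
        exact inv_mem ha
      | mul a b _ _ ha hb =>
        rw [map_mul]
        exact mul_mem ha hb
    rw [← h1]
    exact IntermediateField.fg_adjoin_of_finite (s.finite_toSet.image _)
  have hff : IsFF Ω F := ⟨hessF, htr⟩
  refine ⟨Ω, F, i1, i2, i3, i6, i5, hKF, fun c => ?_, hF, hff, fun Bd h Z hZ => ?_⟩
  · rw [← IsScalarTower.algebraMap_apply B K F, IsScalarTower.algebraMap_apply B Ω F]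
  · exact canDeg_pos_of_lgt (B := B) (Λ := Ω) (F := F) hess hB hK h Z hZ

section

variable {k K : Type} [Field k] [CharZero k] [Field K] [Algebra k K] {M : ℕ}

/-- the cusps of the fibres -/
theorem cusp_of_bd {Ω F : Type} [Field Ω] [Field F] [Algebra Ω F] [Algebra K F]
    {x : Fin (M + 1) → K} (hx : ∃ j, x j ≠ 0) {ι : Type}
    {Q : ι → MvPolynomial (Fin (M + 1)) k} {w : Place Ω F}
    (h : BdFib (fun P : Place k K => Meets Q x P) w) :
    ∀ i, ∃ j, w.ord (algebraMap K F (cuspFun x Q i j)) < 0 := by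
  obtain ⟨v, e, ⟨he, hv⟩, hm⟩ := h
  intro i
  obtain ⟨j, hj⟩ := (meets_iff (k := k) (k0 := k) (E := K) hx
    (p := fun i => MvPolynomial.aeval x (Q i) ≠ 0) (fun i hi => not_not.1 hi) (fun i hi => hi) v).1
    hm i
  refine ⟨j, ?_⟩
  rw [hv]
  have he' : (0 : ℤ) < e := by exact_mod_cast he
  exact mul_neg_of_pos_of_neg he' hj

/-- **The fibres of a fibration by curves on a pair of log general type.** -/
theorem logHyp_of_lgt (hess : Algebra.EssFiniteType k K) {C : IntermediateField k K} {w : ℕ}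
    {x : Fin (M + 1) → K} (hx : x ≠ 0) {ι : Type} [Finite ι]
    {Q : ι → MvPolynomial (Fin (M + 1)) k} (hQx : ∃ i, MvPolynomial.aeval x (Q i) ≠ 0)
    (h : LogGeneralType k K w (fun P => Meets Q x P))
    (htr : Algebra.trdeg k K ≤ Algebra.trdeg k C + 1) :
    LogHypFibres C.toSubfield (cuspFun x Q) := by
  classical
  have hw := h.1
  have hadd := trdeg_add_eq k C (A := K)
  have hle : Algebra.trdeg k C ≤ w := by
    rw [← hw, ← hadd]
    exact self_le_add_right _ _
  obtain ⟨b, hb⟩ := Cardinal.lt_aleph0.1 (lt_of_le_of_lt hle (Cardinal.natCast_lt_aleph0 (n := w)))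
  have hle2 : Algebra.trdeg C K ≤ w := by
    rw [← hw, ← hadd]
    exact self_le_add_left _ _
  obtain ⟨r, hr⟩ := Cardinal.lt_aleph0.1
    (lt_of_le_of_lt hle2 (Cardinal.natCast_lt_aleph0 (n := w)))
  rw [hb, hw] at htr
  rw [hb, hr, hw] at hadd
  have h1 : w ≤ b + 1 := by exact_mod_cast htr
  have h2 : b + r = w := by exact_mod_cast hadd
  rcases Nat.eq_zero_or_pos r with hr0 | hr0
  · left
    rw [hr0, Nat.cast_zero, trdeg_eq_zero_iff] at hr
    refine ⟨fun z => ?_⟩
    obtain ⟨p, hp0, hp⟩ := hr.isAlgebraic z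
    exact ⟨p, hp0, hp⟩
  · right
    have h3 : w = b + 1 := by omega
    subst h3
    let iA : Algebra k C.toSubfield := inferInstanceAs (Algebra k C)
    have iT : IsScalarTower k C.toSubfield K := IsScalarTower.of_algebraMap_eq fun c => rfl
    let e : C ≃ₐ[k] C.toSubfield :=
      { toFun := fun c => ⟨c.1, c.2⟩
        invFun := fun c => ⟨c.1, c.2⟩
        left_inv := fun _ => rfl
        right_inv := fun _ => rfl
        map_mul' := fun _ _ => rfl
        map_add' := fun _ _ => rfl
        commutes' := fun _ => rfl }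
    have hb' : Algebra.trdeg k C.toSubfield = b := by
      rw [← e.trdeg_eq]
      exact hb
    obtain ⟨Ω, F, i1, i2, i3, i4, i5, halg, hcomm, hF, hff, hpos⟩ := gen_fibL hess hb' hw
    have hcl := hF.closed
    have hC0 : CharZero C.toSubfield :=
      charZero_of_injective_algebraMap (algebraMap k C.toSubfield).injective
    have hΩ0 : CharZero Ω :=
      charZero_of_injective_algebraMap (algebraMap C.toSubfield Ω).injective
    obtain ⟨j0, hj0⟩ := Function.ne_iff.1 hx
    -- the cusps are finite in number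
    have hfin : {P : Place Ω F | ∀ i, ∃ j, P.ord (algebraMap K F (cuspFun x Q i j)) < 0}.Finite := by
      obtain ⟨i, hi⟩ := hQx
      have h4 : (⋃ j, {P : Place Ω F | P.ord (algebraMap K F (cuspFun x Q ⟨i, hi⟩ j)) ≠ 0}).Finite :=
        Set.finite_iUnion fun j => finite_support _
      refine h4.subset fun P hP => ?_
      obtain ⟨j, hj⟩ := hP ⟨i, hi⟩
      exact Set.mem_iUnion.2 ⟨j, ne_of_lt hj⟩
    refine ⟨Ω, F, i1, i2, i3, i4, i5, hcomm, hF, hff, ?_⟩
    rw [Set.ncard_eq_toFinset_card _ hfin]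
    refine hpos _ h hfin.toFinset fun P hP => ?_
    rw [Set.Finite.mem_toFinset]
    exact cusp_of_bd ⟨j0, hj0⟩ hP

end

end Pool.Agent.H916
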