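import Pool.Agent.H916.Hor3

/-! A derivation of a function field which preserves all local rings, extends a derivation of the
constants and vanishes at the cusps has new constants, if the curve without the cusps is
hyperbolic. -/

set_option autoImplicit false

open FF Pool.Agent.W603.LV Module

namespace Pool.Agent.H916

variable {S N : Type*} [Field S] [Field N] [Algebra S N] [CharZero S] [IsFF S N] [IsAlgClosed S]

variable (D : Derivation ℤ N N) (hreg : ∀ (P : Place S N) (f : N), Ge P 0 f → Ge P 0 (D f))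

include hreg

theorem no_reg_log (h : Pres S D) (hC : ∀ f : N, D f = 0 → ∃ c : S, f = algebraMap S N c)
    (Z : Finset (Place S N)) (hZ : ∀ P ∈ Z, Ge P 1 (D (unif P)))
    (hκ : 0 < canDeg S N + Z.card) : False := by
  classical
  rcases Z.eq_empty_or_nonempty with rfl | ⟨P0, hP0Z⟩
  · exact no_reg D hreg h hC (by simpa using hκ)
  have hP0 := hZ P0 hP0Z
  obtain ⟨γ, N0, hγ, -⟩ := riemann S N
  -- the first nonconstant function with its only pole at `P0`
  have hex : ∃ n : ℕ, ∃ f ∈ LL (Finsupp.single P0 (n : ℤ)), ∀ c : S, f ≠ algebraMap S N c := by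
    by_contra hc
    push Not at hc
    obtain ⟨n, hn⟩ : ∃ n : ℕ, n = γ.toNat + 2 := ⟨_, rfl⟩
    have h1 := hγ (Finsupp.single P0 (n : ℤ))
    rw [ddeg_single, deg_one] at h1
    have h2 : LL (Finsupp.single P0 (n : ℤ)) ≤ Submodule.span S {(1 : N)} := by
      intro f hf
      obtain ⟨c, hc⟩ := hc n f hf
      rw [Submodule.mem_span_singleton]
      exact ⟨c, by rw [hc, Algebra.smul_def, mul_one]⟩
    have h3 := Submodule.finrank_mono h2
    have h4 : finrank S (Submodule.span S {(1 : N)}) = 1 := finrank_span_singleton one_ne_zero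
    unfold ell at h1
    rw [h4] at h3
    push_cast at h1
    omega
  obtain ⟨a, ha⟩ : ∃ a, a = Nat.find hex := ⟨_, rfl⟩
  obtain ⟨f, hf, hfc⟩ := Nat.find_spec hex
  rw [← ha] at hf
  have hmin : ∀ n : ℕ, n < a → ∀ g ∈ LL (Finsupp.single P0 (n : ℤ)), ∃ c : S,
      g = algebraMap S N c := by
    intro n hn g hg
    by_contra hc
    push Not at hc
    exact Nat.find_min hex (ha ▸ hn) ⟨g, hg, hc⟩
  have hf0 : f ≠ 0 := by
    intro e
    exact hfc 0 (by rw [e, map_zero])
  have hftr : Transcendental S f := by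
    intro hc
    have h2 := IsAlgClosed.degree_eq_one_of_irreducible S (minpoly.irreducible hc.isIntegral)
    obtain ⟨c, hc⟩ := minpoly.mem_range_of_degree_eq_one S f h2
    exact hfc c hc.symm
  have hmem : ∀ (n : ℤ) (g : N), g ∈ LL (Finsupp.single P0 n) ↔ Ge P0 (-n) g ∧
      ∀ Q, Q ≠ P0 → Ge Q 0 g := by
    intro n g
    rw [mem_LL]
    constructor
    · rintro (e | e)
      · rw [e]
        exact ⟨Ge.zero, fun _ _ => Ge.zero⟩
      · refine ⟨Or.inr (by simpa using e P0), fun Q hQ => Or.inr ?_⟩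
        have := e Q
        rwa [Finsupp.single_eq_of_ne hQ, neg_zero] at this
    · rintro ⟨h1, h2⟩
      by_cases hg : g = 0
      · exact Or.inl hg
      · right
        intro Q
        by_cases hQ : Q = P0
        · subst hQ
          simpa using h1.resolve_left hg
        · rw [Finsupp.single_eq_of_ne hQ, neg_zero]
          exact (h2 Q hQ).resolve_left hg
  obtain ⟨hf1, hf2⟩ := (hmem _ _).1 hf
  have ha0 : 0 < a := by
    by_contra hc
    have ha' : a = 0 := by omega
    subst ha'
    obtain ⟨T, hT, hT2⟩ := poles (k := S) hftr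
    have h3 : T = ∅ := by
      ext Q
      rw [hT]
      simp only [Finset.notMem_empty, iff_false, not_lt]
      by_cases hQ : Q = P0
      · subst hQ
        simpa using hf1.resolve_left hf0
      · exact (hf2 Q hQ).resolve_left hf0
    rw [h3] at hT2
    have := IsFF.finite hftr
    have h1 : 0 < finrank (IntermediateField.adjoin S {f}) N := finrank_pos
    simp at hT2
    omega
  have hfa : P0.ord f = -a := by
    have h1 := hf1.resolve_left hf0
    by_contra hc
    obtain ⟨c, hc'⟩ := hmin (a - 1) (by omega) f ((hmem _ _).2 ⟨Or.inr (by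
      rw [Nat.cast_sub (by omega)]
      push_cast
      omega), hf2⟩)
    exact hfc c hc'
  -- the differential equation
  obtain ⟨α, hα⟩ := exists_const P0 (f := D f / f) (by
    have h1 := der_ge' D hreg P0 hP0 hf1
    refine Ge.of_mul' (h := f) (m := -a) hf0 hfa ?_
    rw [mul_div_cancel₀ _ hf0, zero_add]
    exact h1)
  obtain ⟨β, hβ⟩ := hmin (a - 1) (by omega) (D f - algebraMap S N α * f) ((hmem _ _).2 ⟨by
    have h1 : Ge P0 (-a) f := hf1
    have h2 := hα.mul h1
    have h3 : (D f / f - algebraMap S N α) * f = D f - algebraMap S N α * f := by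
      field_simp
    rw [h3] at h2
    refine h2.mono ?_
    rw [Nat.cast_sub (by omega)]
    push_cast
    omega, fun Q hQ => (hreg Q f (hf2 Q hQ)).sub (by
      have := (Ge.const (P := Q) α).mul (hf2 Q hQ)
      rwa [zero_add] at this)⟩)
  have hDf : D f = algebraMap S N α * f + algebraMap S N β := by
    rw [← hβ]
    ring
  -- the special values
  have hram : ∀ (Q : Place S N) (b b' : S), D (algebraMap S N b) = algebraMap S N b' → Q ≠ P0 →
      (2 ≤ Q.ord (f - algebraMap S N b) ∨ Q ∈ Z ∧ 1 ≤ Q.ord (f - algebraMap S N b)) →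
      b' = α * b + β := by
    intro Q b b' hb hQ h2
    have h3 : Ge Q 1 (D (f - algebraMap S N b)) := by
      rcases h2 with h2 | ⟨h1, h2⟩
      · exact (der_ge D hreg Q (f := f - algebraMap S N b) (n := 2) (Or.inr h2)).mono
          (by norm_num)
      · exact der_ge' D hreg Q (hZ Q h1) (f := f - algebraMap S N b) (n := 1) (Or.inr h2)
    have h2' : Ge Q 1 (f - algebraMap S N b) := by
      right
      rcases h2 with h2 | ⟨h1, h2⟩
      · omega
      · exact h2
    have h4 : D (f - algebraMap S N b) = algebraMap S N α * (f - algebraMap S N b) +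
        algebraMap S N (α * b + β - b') := by
      rw [map_sub, hDf, hb]
      simp only [map_add, map_sub, map_mul]
      ring
    rw [h4] at h3
    have h5 : Ge Q 1 (algebraMap S N α * (f - algebraMap S N b)) := by
      have := (Ge.const (P := Q) α).mul h2'
      exact this.mono (by norm_num)
    have h6 : Ge Q 1 (algebraMap S N (α * b + β - b')) := by
      have := h3.sub h5
      rwa [add_sub_cancel_left] at this
    have := const_zero Q h6
    linear_combination -this
  have huniq : ∀ (Q Q' : Place S N) (b c : S), Q ≠ P0 → Q' ≠ P0 →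
      (2 ≤ Q.ord (f - algebraMap S N b) ∨ Q ∈ Z ∧ 1 ≤ Q.ord (f - algebraMap S N b)) →
      (2 ≤ Q'.ord (f - algebraMap S N c) ∨ Q' ∈ Z ∧ 1 ≤ Q'.ord (f - algebraMap S N c)) →
      b = c := by
    intro Q Q' b c hQ hQ' hb hc
    by_contra hne
    obtain ⟨b', hb'⟩ := h b
    obtain ⟨c', hc'⟩ := h c
    have e1 := hram Q b b' hb' hQ hb
    have e2 := hram Q' c c' hc' hQ' hc
    have hbc : algebraMap S N (b - c) ≠ 0 := by
      rw [Ne, map_eq_zero]
      exact sub_ne_zero.2 hne
    have e3 : D (algebraMap S N (b - c)) = algebraMap S N α * algebraMap S N (b - c) := by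
      rw [map_sub, map_sub, hb', hc', e1, e2]
      simp only [map_add, map_mul]
      ring
    have e4 : D (f - algebraMap S N b) = algebraMap S N α * (f - algebraMap S N b) := by
      rw [map_sub, hDf, hb', e1]
      simp only [map_add, map_mul]
      ring
    have e5 : D ((f - algebraMap S N b) / algebraMap S N (b - c)) = 0 := by
      have e6 : D ((f - algebraMap S N b) / algebraMap S N (b - c) * algebraMap S N (b - c)) =
          D (f - algebraMap S N b) := by
        rw [div_mul_cancel₀ _ hbc]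
      rw [D.leibniz, e3, e4] at e6
      simp only [smul_eq_mul] at e6
      have e7 : algebraMap S N (b - c) * D ((f - algebraMap S N b) / algebraMap S N (b - c)) = 0 := by
        have e8 : (f - algebraMap S N b) / algebraMap S N (b - c) * (algebraMap S N α *
            algebraMap S N (b - c)) = algebraMap S N α * (f - algebraMap S N b) := by
          field_simp
        linear_combination e6 - e8
      exact (mul_eq_zero.1 e7).resolve_left hbc
    obtain ⟨q, hq⟩ := hC _ e5
    apply hfc (q * (b - c) + b)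
    rw [div_eq_iff hbc] at hq
    rw [map_add, map_mul, ← hq]
    ring
  obtain ⟨b0, hb0⟩ : ∃ b0 : S, ∀ (Q : Place S N) (b : S), Q ≠ P0 →
      (2 ≤ Q.ord (f - algebraMap S N b) ∨ Q ∈ Z ∧ 1 ≤ Q.ord (f - algebraMap S N b)) →
      b = b0 := by
    by_cases hc : ∃ (Q : Place S N) (b : S), Q ≠ P0 ∧
      (2 ≤ Q.ord (f - algebraMap S N b) ∨ Q ∈ Z ∧ 1 ≤ Q.ord (f - algebraMap S N b))
    · obtain ⟨Q, b, hQ, hb⟩ := hc
      exact ⟨b, fun Q' b' hQ' hb' => huniq _ _ _ _ hQ' hQ hb' hb⟩
    · push Not at hc
      refine ⟨0, fun Q b hQ hb => ?_⟩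
      obtain ⟨h1, h2⟩ := hc Q b hQ
      rcases hb with hb | ⟨hb1, hb2⟩
      · omega
      · have := h2 hb1
        omega
  -- the canonical degree
  obtain ⟨d, hd⟩ := exists_der (k := S) (K := N)
  obtain ⟨δ, hδd⟩ : ∃ δ, δ = dd d f := ⟨_, rfl⟩
  have hz : δ f = 1 := by
    rw [hδd, dd_apply, inv_mul_cancel₀ (der_ne_zero hd hftr)]
  have hδ : δ ≠ 0 := by
    rintro rfl
    simp at hz
  set g : N := f - algebraMap S N b0 with hg
  have hne : ∀ b : S, f - algebraMap S N b ≠ 0 := fun b e => hfc b (sub_eq_zero.1 e)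
  have hder : ∀ b : S, δ (f - algebraMap S N b) = 1 := fun b => by
    rw [map_sub, hz, δ.map_algebraMap, sub_zero]
  have hlow : ∀ Q : Place S N, Q ≠ P0 → 0 ≤ Q.ord g ∧ - Q.ord g ≤ vo Q δ ∧
      (0 < Q.ord g → 1 - Q.ord g ≤ vo Q δ) ∧ (Q ∈ Z → 0 < Q.ord g) := by
    intro Q hQ
    obtain ⟨b, hb⟩ := exists_const Q (hf2 Q hQ)
    have h1 := hb.resolve_left (hne b)
    have h2 := (ord_der Q hδ (f := f - algebraMap S N b) (by omega)).2
    rw [hder, Q.ord_one] at h2
    have h3 : 0 ≤ Q.ord g := ((hf2 Q hQ).sub (Ge.const b0)).resolve_left (hne b0)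
    by_cases hbb : b = b0
    · have e : Q.ord g = Q.ord (f - algebraMap S N b) := by rw [hg, hbb]
      refine ⟨h3, ?_, fun _ => ?_, fun _ => ?_⟩ <;> omega
    · have h4 : Q.ord (f - algebraMap S N b) = 1 := by
        by_contra hc
        exact hbb (hb0 Q b hQ (Or.inl (by omega)))
      refine ⟨h3, by omega, fun h5 => ?_, fun h5 => ?_⟩
      · omega
      · exact absurd (hb0 Q b hQ (Or.inr ⟨h5, h1⟩)) hbb
  obtain ⟨T, hT⟩ : ∃ T : Finset (Place S N), T = Z ∪ ((finite_support (k := S) g).toFinset ∪
    (vo_finite hδ).toFinset) := ⟨_, rfl⟩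
  have hP0T : P0 ∈ T := by
    rw [hT]
    exact Finset.mem_union_left _ hP0Z
  have s1 := sum_ord_finset g T (fun P hP => by rw [hT]; simp [hP])
  have s2 := canDeg_finset hδ T (fun P hP => by rw [hT]; simp [hP])
  rw [← Finset.add_sum_erase _ _ hP0T] at s1 s2
  have hgP0 : P0.ord g = -a := by
    have h1 : P0.ord f < P0.ord (algebraMap S N b0) ∨ b0 = 0 := by
      by_cases hb : b0 = 0
      · exact Or.inr hb
      · left
        rw [P0.ord_const hb, hfa]
        omega
    rcases h1 with h1 | h1
    · by_cases hb : b0 = 0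
      · rw [hg, hb, map_zero, sub_zero, hfa]
      · have hb' : -algebraMap S N b0 ≠ 0 := by
          rw [Ne, neg_eq_zero, map_eq_zero]
          exact hb
        rw [hg, sub_eq_add_neg, (P0.ord_add_eq hf0 hb' (by rw [P0.ord_neg]; exact h1)).2, hfa]
    · rw [hg, h1, map_zero, sub_zero, hfa]
  have hvP0 : vo P0 δ = a + 1 := by
    have h2 := (ord_der P0 hδ (f := f) (by rw [hfa]; omega)).2
    rw [hz, P0.ord_one, hfa] at h2
    omega
  rw [hgP0] at s1
  rw [hvP0] at s2
  have s3 : ∑ Q ∈ T.erase P0, (-Q.ord g + if Q ∈ Z.erase P0 then 1 else 0) ≤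
      ∑ Q ∈ T.erase P0, vo Q δ := by
    refine Finset.sum_le_sum fun Q hQ => ?_
    obtain ⟨h1, h2, h3, h4⟩ := hlow Q (Finset.ne_of_mem_erase hQ)
    split_ifs with hQQ
    · have := h3 (h4 (Finset.mem_of_mem_erase hQQ))
      omega
    · omega
  rw [Finset.sum_add_distrib, Finset.sum_neg_distrib, ← Finset.sum_filter] at s3
  have s4 : (T.erase P0).filter (fun Q => Q ∈ Z.erase P0) = Z.erase P0 := by
    ext Q
    rw [Finset.mem_filter]
    constructor
    · exact fun h => h.2
    · intro h
      refine ⟨Finset.mem_erase.2 ⟨Finset.ne_of_mem_erase h, ?_⟩, h⟩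
      rw [hT]
      exact Finset.mem_union_left _ (Finset.mem_of_mem_erase h)
  rw [s4, Finset.sum_const, nsmul_eq_mul, mul_one] at s3
  have s5 := Finset.card_erase_of_mem hP0Z
  have s6 : 0 < Z.card := Finset.card_pos.2 ⟨P0, hP0Z⟩
  rw [s5] at s3
  push_cast [Nat.cast_sub (show 1 ≤ Z.card by omega)] at s3
  omega

end Pool.Agent.H916
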