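import Pool.Agent.H916.LGlo
import Pool.Agent.H916.Jet2

/-! Functions on the logarithmic prolongation of a curve with cusps. -/

set_option autoImplicit false
set_option linter.unusedSectionVars false

open FF Pool.Agent.W603.LV Module IntermediateField

namespace Pool.Agent.H916

section space

variable {S F : Type*} [Field S] [Field F] [Algebra S F] [CharZero S] [IsFF S F] [IsAlgClosed S]

variable (κ : Place S F →₀ ℤ) (T : Finset (Place S F)) (c n : ℕ)

/-- the divisors of the poles of the coefficients -/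
noncomputable def EL (j : ℕ) : Place S F →₀ ℤ := j • κ + (c * (n - j)) • TD T

omit [CharZero S] [IsFF S F] [IsAlgClosed S] in
theorem EL_in {P : Place S F} (hP : P ∈ T) {j : ℕ} (hj : j ≤ n) :
    EL κ T c n j P = j * κ P + c * (n - j) := by
  classical
  unfold EL
  rw [Finsupp.add_apply, Finsupp.smul_apply, Finsupp.smul_apply, TD_apply, if_pos hP,
    nsmul_eq_mul, nsmul_eq_mul]
  push_cast [Nat.cast_sub hj]
  ring

omit [CharZero S] [IsFF S F] [IsAlgClosed S] in
theorem EL_out {P : Place S F} (hP : P ∉ T) (hv : κ P = 0) (j : ℕ) :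
    EL κ T c n j P = 0 := by
  classical
  unfold EL
  rw [Finsupp.add_apply, Finsupp.smul_apply, Finsupp.smul_apply, TD_apply, if_neg hP, hv]
  simp

theorem ddeg_EL (j : ℕ) : ddeg (EL κ T c n j) =
    j * ddeg κ + ((c * (n - j) : ℕ) : ℤ) * T.card := by
  unfold EL
  rw [ddeg_add, ddeg_nsmul, ddeg_nsmul, ddeg_TD]

/-- the space of the coefficients -/
abbrev WL : Type _ := ∀ j : Fin (n + 1), LL (EL κ T c n j)

/-- the coefficient of `y ^ i` -/
noncomputable def bL (α β : F) (i : ℕ) : WL κ T c n →ₗ[S] F :=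
  ∑ j : Fin (n + 1), (LinearMap.mulLeft S (cf α β i j)).comp
    ((LL (EL κ T c n j)).subtype.comp (LinearMap.proj j))

omit [CharZero S] [IsFF S F] [IsAlgClosed S] in
theorem bL_apply (α β : F) (i : ℕ) (a : WL κ T c n) :
    bL κ T c n α β i a = ∑ j : Fin (n + 1), cf α β i j * (a j : F) := by
  unfold bL
  rw [LinearMap.sum_apply]
  rfl

theorem bL_ge {P : Place S F} (hP : P ∈ T) {α β : F} (hβ : P.ord β = -κ P)
    (hα : Ge P (-c) α) {i : ℕ} (hi : i ≤ n) (a : WL κ T c n) :
    Ge P (0 - ((c * (n - i) : ℕ) : ℤ)) (bL κ T c n α β i a) := by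
  rw [bL_apply]
  refine Ge.sum _ _ fun j _ => ?_
  have hjn : (j : ℕ) ≤ n := by omega
  by_cases hij : i ≤ j
  · have h1 : Ge P (-(j * κ P) - c * (n - j)) (a j : F) := by
      have h2 := (mem_LL (D := EL κ T c n j)).1 (a j).2
      rcases h2 with h2 | h2
      · exact Or.inl h2
      · right
        have h3 := h2 P
        rw [EL_in κ T c n hP hjn] at h3
        linarith
    have h2 : Ge P (j * κ P) (β⁻¹ ^ (j : ℕ)) := by
      right
      rw [P.ord_pow, P.ord_inv, hβ]
      apply le_of_eq
      ring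
    have h3 : Ge P (((j : ℕ) - i : ℕ) * (-c)) ((-α) ^ ((j : ℕ) - i)) := hα.neg.pow _
    have h4 := ((Ge.natCast (P := P) (Nat.choose j i)).mul (h2.mul h3)).mul h1
    refine h4.mono ?_
    apply le_of_eq
    push_cast [Nat.cast_sub hi, Nat.cast_sub hij]
    ring
  · left
    unfold cf
    rw [Nat.choose_eq_zero_of_lt (not_le.1 hij)]
    simp

/-- the value at `w` -/
noncomputable def evL {K : Type*} [Field K] [Algebra F K] (w : K) (a : WL κ T c n) : K :=
  ∑ j : Fin (n + 1), algebraMap F K (a j : F) * w ^ (j : ℕ)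

theorem evL_bL {K : Type*} [Field K] [Algebra F K] {w y : K} {α β : F} (hβ0 : β ≠ 0)
    (hy : y = algebraMap F K α + algebraMap F K β * w) (a : WL κ T c n) :
    evL κ T c n w a = ∑ i ∈ Finset.range (n + 1),
      algebraMap F K (bL κ T c n α β i a) * y ^ i := by
  have hβ0' : algebraMap F K β ≠ 0 := by rwa [Ne, map_eq_zero]
  have hw : w = algebraMap F K β⁻¹ * (y + algebraMap F K (-α)) := by
    rw [hy, map_neg, map_inv₀]
    field_simp
    ring
  unfold evL
  simp only [bL_apply, map_sum, Finset.sum_mul]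
  rw [Finset.sum_comm]
  refine Finset.sum_congr rfl fun j _ => ?_
  have h1 : w ^ (j : ℕ) = ∑ i ∈ Finset.range (n + 1),
      algebraMap F K (cf α β i j) * y ^ i := by
    conv_lhs => rw [hw, mul_pow, add_pow]
    rw [Finset.mul_sum]
    rw [Finset.sum_subset (Finset.range_mono (show (j : ℕ) + 1 ≤ n + 1 by omega))]
    · refine Finset.sum_congr rfl fun i _ => ?_
      unfold cf
      simp only [map_mul, map_pow, map_natCast]
      ring
    · intro i _ hi
      rw [Finset.mem_range, not_lt] at hi
      rw [Nat.choose_eq_zero_of_lt (by omega)]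
      simp
  rw [h1, Finset.mul_sum]
  refine Finset.sum_congr rfl fun i _ => ?_
  rw [map_mul]
  ring

/-- the conditions at the places in a finite set -/
def VL (al be : Place S F → F) (A : Finset (Place S F × ℕ)) : Submodule S (WL κ T c n) where
  carrier := {a | ∀ q ∈ A, Ge q.1 0 (bL κ T c n (al q.1) (be q.1) q.2 a)}
  zero_mem' := fun q _ => by rw [map_zero]; exact Ge.zero
  add_mem' := fun ha hb q hq => by rw [map_add]; exact (ha q hq).add (hb q hq)
  smul_mem' := fun s a ha q hq => by
    rw [map_smul, Algebra.smul_def]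
    have := (Ge.const (P := q.1) s).mul (ha q hq)
    rwa [zero_add] at this

theorem VL_rank (al be : Place S F → F) (A : Finset (Place S F × ℕ))
    (hA : ∀ q ∈ A, ∀ a : WL κ T c n,
      Ge q.1 (0 - ((c * (n - q.2) : ℕ) : ℤ)) (bL κ T c n (al q.1) (be q.1) q.2 a)) :
    finrank S (WL κ T c n) ≤ finrank S (VL κ T c n al be A) + ∑ q ∈ A, c * (n - q.2) := by
  classical
  induction A using Finset.induction_on with
  | empty =>
    have h1 : VL κ T c n al be ∅ = ⊤ := by
      rw [eq_top_iff]
      intro a _ q hq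
      exact absurd hq (Finset.notMem_empty q)
    rw [h1, finrank_top]
    omega
  | insert q A hq ih =>
    have h1 := ih fun q' hq' => hA q' (Finset.mem_insert_of_mem hq')
    have h2 := codim q.1 (bL κ T c n (al q.1) (be q.1) q.2) (VL κ T c n al be A) 0
      (c * (n - q.2)) (fun w _ => hA q (Finset.mem_insert_self q A) w)
    have h3 : cut q.1 (bL κ T c n (al q.1) (be q.1) q.2) (VL κ T c n al be A) 0 ≤
        VL κ T c n al be (insert q A) := by
      intro w hw q' hq'
      rcases Finset.mem_insert.1 hq' with rfl | hq'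
      · exact hw.2
      · exact hw.1 q' hq'
    have h4 := Submodule.finrank_mono h3
    rw [Finset.sum_insert hq]
    omega

end space

variable {S F K : Type*} [Field S] [Field F] [Field K] [Algebra S F] [Algebra F K]
  [CharZero S] [IsFF S F] [IsAlgClosed S]

omit [IsFF S F] [IsAlgClosed S] in
/-- the logarithmic derivative of a uniformizer at a pole of `z` -/
theorem dlog_mem (D : Derivation ℤ K K) (P : Place S F) {z : F} (hz : P.ord z < 0)
    {π : F} (hπ : P.ord π = 1) :
    D (algebraMap F K π) / algebraMap F K π ∈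
      tauX D {D (algebraMap F K z) / algebraMap F K z} P := by
  have hcF : CharZero F := charZero_of_injective_algebraMap (algebraMap S F).injective
  have hcK : CharZero K := charZero_of_injective_algebraMap (algebraMap F K).injective
  have hπ0 : π ≠ 0 := by
    intro h
    rw [h, P.ord_zero] at hπ
    omega
  have hz0 : z ≠ 0 := by
    intro h
    rw [h, P.ord_zero] at hz
    omega
  obtain ⟨e, he⟩ : ∃ e : ℕ, e = (-P.ord z).toNat := ⟨_, rfl⟩
  have he0 : 0 < e := by omega
  obtain ⟨u, hu⟩ : ∃ u : F, u = z * π ^ e := ⟨_, rfl⟩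
  have hu0 : u ≠ 0 := by
    rw [hu]
    exact mul_ne_zero hz0 (pow_ne_zero _ hπ0)
  have huo : P.ord u = 0 := by
    rw [hu, P.ord_mul hz0 (pow_ne_zero _ hπ0), P.ord_pow, hπ]
    omega
  have hπK : algebraMap F K π ≠ 0 := by rwa [Ne, map_eq_zero]
  have hzK : algebraMap F K z ≠ 0 := by rwa [Ne, map_eq_zero]
  have huK : algebraMap F K u ≠ 0 := by rwa [Ne, map_eq_zero]
  have heK : ((e : ℕ) : K) ≠ 0 := Nat.cast_ne_zero.2 he0.ne'
  -- the formula
  have h1 : D (algebraMap F K u) / algebraMap F K u = D (algebraMap F K z) / algebraMap F K z +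
      e * (D (algebraMap F K π) / algebraMap F K π) := by
    have h2 : D (algebraMap F K u) = algebraMap F K z * (e * algebraMap F K π ^ (e - 1) *
        D (algebraMap F K π)) + algebraMap F K π ^ e * D (algebraMap F K z) := by
      rw [hu, map_mul, D.leibniz, map_pow, D.leibniz_pow]
      simp only [smul_eq_mul, nsmul_eq_mul]
      ring
    have h3 : algebraMap F K u = algebraMap F K z * algebraMap F K π ^ e := by
      rw [hu, map_mul, map_pow]
    rw [h2, h3]
    obtain ⟨e', rfl⟩ : ∃ e', e = e' + 1 := ⟨e - 1, by omega⟩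
    rw [Nat.add_sub_cancel]
    field_simp
    ring
  have h2 : D (algebraMap F K π) / algebraMap F K π = algebraMap F K ((e : F)⁻¹) *
      (D (algebraMap F K u) * algebraMap F K u⁻¹ - D (algebraMap F K z) / algebraMap F K z) := by
    rw [map_inv₀, map_inv₀, map_natCast, ← div_eq_mul_inv, h1]
    field_simp
    ring
  rw [h2]
  have heF : ((e : ℕ) : F) ≠ 0 := Nat.cast_ne_zero.2 he0.ne'
  refine Subring.mul_mem _ (tau_le_tauX D _ P (tau_coe D P ?_)) (Subring.sub_mem _
    (Subring.mul_mem _ (tau_le_tauX D _ P (tau_der D P (Or.inr huo.ge)))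
      (tau_le_tauX D _ P (tau_coe D P ?_))) (mem_tauX D P rfl))
  · right
    rw [P.ord_inv]
    have h3 : P.ord (algebraMap S F ((e : ℕ) : S)) = 0 :=
      P.ord_const (Nat.cast_ne_zero.2 he0.ne')
    rw [map_natCast] at h3
    rw [h3, neg_zero]
  · right
    rw [P.ord_inv, huo, neg_zero]

end Pool.Agent.H916
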