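import Pool.Agent.H916.LJet

/-! The derivative of a function is algebraic, if there are no functions on the logarithmic
prolongation of the curve except for the constants. -/

set_option autoImplicit false
set_option linter.unusedSectionVars false

open FF Pool.Agent.W603.LV Module IntermediateField

namespace Pool.Agent.H916

variable {S F K : Type*} [Field S] [Field F] [Field K] [Algebra S F] [Algebra F K]
  [CharZero S] [IsFF S F] [IsAlgClosed S]

theorem jet_algebraic_log (D : Derivation ℤ K K)
    (hS : ∀ s : S, ∃ s' : S, D (algebraMap F K (algebraMap S F s)) =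
      algebraMap F K (algebraMap S F s')) {z : F} (hz : Transcendental S z)
    (hG : ∀ φ : K, (∀ P : Place S F, 0 ≤ P.ord z → φ ∈ tau D P) →
      (∀ P : Place S F, P.ord z < 0 → φ ∈
        tauX D {D (algebraMap F K z) / algebraMap F K z} P) → ∃ c : S,
      φ = algebraMap F K (algebraMap S F c)) (Z : Finset (Place S F))
    (hZ : ∀ P, P ∈ Z ↔ P.ord z < 0) (hκ : 0 < canDeg S F + Z.card) :
    IsAlgebraic F (D (algebraMap F K z)) := by
  classical
  by_contra hw
  set w := D (algebraMap F K z) with hwd
  obtain ⟨d, hd⟩ := exists_der (k := S) (K := F)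
  obtain ⟨δ, hδd⟩ : ∃ δ, δ = dd d z := ⟨_, rfl⟩
  have hδz : δ z = 1 := by
    rw [hδd, dd_apply, inv_mul_cancel₀ (der_ne_zero hd hz)]
  have hδ : δ ≠ 0 := by
    rintro rfl
    simp at hδz
  obtain ⟨κ, hκd⟩ : ∃ κ : Place S F →₀ ℤ, κ = Kd hδ + TD Z := ⟨_, rfl⟩
  have hκP : ∀ P, κ P = -vo P δ + if P ∈ Z then 1 else 0 := by
    intro P
    rw [hκd, Finsupp.add_apply, Kd_apply, TD_apply]
  have hκdeg : ddeg κ = canDeg S F + Z.card := by
    rw [hκd, ddeg_add, ddeg_Kd, ddeg_TD]
  choose al hal using decomp D hS hδz hz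
  obtain ⟨T, hT⟩ : ∃ T : Finset (Place S F), T = Z ∪ ((vo_finite hδ).toFinset ∪
    (finite_support (k := S) z).toFinset) := ⟨_, rfl⟩
  have hTZ : ∀ P, P ∉ T → P ∉ Z := by
    intro P hP hc
    apply hP
    rw [hT]
    simp [hc]
  have hTv : ∀ P, P ∉ T → κ P = 0 := by
    intro P hP
    have h1 : vo P δ = 0 := by
      by_contra hc
      apply hP
      rw [hT]
      simp [hc]
    rw [hκP, h1, if_neg (hTZ P hP)]
    simp
  have hTz : ∀ P : Place S F, P ∉ T → P.ord z = 0 := by
    intro P hP
    by_contra hc
    apply hP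
    rw [hT]
    simp [hc]
  have hun : ∀ P : Place S F, unif P ≠ 0 := by
    intro P h
    have := ord_unif P
    rw [h, P.ord_zero] at this
    omega
  -- the local coordinates
  set be : Place S F → F := fun P => if P ∈ Z then δ (unif P) / unif P else δ (unif P) with hbe
  set al' : Place S F → F := fun P => if P ∈ Z then al (unif P) / unif P else al (unif P) with hal'
  set y : Place S F → K := fun P => if P ∈ Z then
    D (algebraMap F K (unif P)) / algebraMap F K (unif P) else
      D (algebraMap F K (unif P)) with hy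
  have hyP : ∀ P, y P = algebraMap F K (al' P) + algebraMap F K (be P) * w := by
    intro P
    by_cases hP : P ∈ Z
    · simp only [hy, hal', hbe, if_pos hP]
      have h1 : algebraMap F K (unif P) ≠ 0 := by
        rw [Ne, map_eq_zero]
        exact hun P
      rw [hal (unif P), map_div₀, map_div₀, ← hwd]
      field_simp
    · simp only [hy, hal', hbe, if_neg hP]
      exact hal (unif P)
  have hbP : ∀ P, be P ≠ 0 ∧ P.ord (be P) = -κ P := by
    intro P
    have h0 : δ (unif P) ≠ 0 := der_pi_ne_zero hδ P (ord_unif P)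
    have h1 : P.ord (δ (unif P)) = vo P δ := rfl
    by_cases hP : P ∈ Z
    · simp only [hbe, if_pos hP]
      refine ⟨div_ne_zero h0 (hun P), ?_⟩
      rw [P.ord_div h0 (hun P), h1, ord_unif, hκP, if_pos hP]
      ring
    · simp only [hbe, if_neg hP]
      refine ⟨h0, ?_⟩
      rw [h1, hκP, if_neg hP]
      ring
  have hyt : ∀ P : Place S F, P.ord z < 0 → y P ∈
      tauX D {D (algebraMap F K z) / algebraMap F K z} P := by
    intro P hP
    simp only [hy, if_pos ((hZ P).2 hP)]
    exact dlog_mem D P hP (ord_unif P)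
  have hyt' : ∀ P : Place S F, 0 ≤ P.ord z → y P ∈ tau D P := by
    intro P hP
    have h1 : P ∉ Z := fun h => by
      have := (hZ P).1 h
      omega
    simp only [hy, if_neg h1]
    refine tau_der D P (Or.inr ?_)
    rw [ord_unif]
    norm_num
  obtain ⟨c, hc⟩ : ∃ c : ℕ, ∀ P ∈ T, Ge P (-c) (al' P) := by
    refine ⟨∑ P ∈ T, (-P.ord (al' P)).toNat, fun P hP => Or.inr ?_⟩
    have h1 : (-P.ord (al' P)).toNat ≤ ∑ P ∈ T, (-P.ord (al' P)).toNat :=
      Finset.single_le_sum (f := fun P : Place S F => (-P.ord (al' P)).toNat)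
        (fun _ _ => Nat.zero_le _) hP
    omega
  obtain ⟨γ, N0, hγ, -⟩ := riemann S F
  obtain ⟨n, hn⟩ : ∃ n : ℕ, n = 2 * (γ.toNat + 1) := ⟨_, rfl⟩
  set A := T ×ˢ Finset.range (n + 1) with hA
  have hrank := VL_rank κ T c n al' be A (fun q hq a => by
    obtain ⟨h1, h2⟩ := Finset.mem_product.1 hq
    exact bL_ge κ T c n h1 (hbP _).2 (hc _ h1) (by
      have := Finset.mem_range.1 h2
      omega) a)
  -- the lower bound
  have hlow : 2 ≤ finrank S (VL κ T c n al' be A) := by
    have h1 : (finrank S (WL κ T c n) : ℤ) = ∑ j : Fin (n + 1), ell (EL κ T c n j) := by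
      unfold WL ell
      rw [Module.finrank_pi_fintype]
      push_cast
      rfl
    have h2 : ∑ j : Fin (n + 1), (((j : ℕ) : ℤ) * ddeg κ +
        ((c * (n - j) : ℕ) : ℤ) * T.card - γ) ≤ ∑ j : Fin (n + 1), ell (EL κ T c n j) := by
      refine Finset.sum_le_sum fun j _ => ?_
      have := hγ (EL κ T c n j)
      rw [ddeg_EL] at this
      exact this
    have h3 : ∑ q ∈ A, c * (n - q.2) = T.card * ∑ i ∈ Finset.range (n + 1), c * (n - i) := by
      rw [hA, Finset.sum_product]
      simp
    have h4 : ∑ j : Fin (n + 1), (((c * (n - j) : ℕ) : ℤ) * T.card) =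
        ((T.card * ∑ i ∈ Finset.range (n + 1), c * (n - i) : ℕ) : ℤ) := by
      rw [← Finset.sum_mul, Finset.sum_range (fun i => c * (n - i))]
      push_cast
      ring
    have h5 : ∑ j : Fin (n + 1), ((j : ℕ) : ℤ) = (n * (n + 1) / 2 : ℕ) := by
      have h6 := Finset.sum_range_id_mul_two (n + 1)
      have h7 : ∑ i ∈ Finset.range (n + 1), i = n * (n + 1) / 2 := by
        rw [Nat.add_sub_cancel, mul_comm (n + 1) n] at h6
        omega
      rw [← h7, Finset.sum_range]
      push_cast
      rfl
    have h6 : n * (n + 1) / 2 = (γ.toNat + 1) * (n + 1) := by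
      rw [hn, mul_assoc, Nat.mul_div_cancel_left _ (by norm_num : 0 < 2)]
    rw [Finset.sum_sub_distrib, Finset.sum_add_distrib, ← Finset.sum_mul, h4, h5, h6,
      ← h1] at h2
    simp only [Finset.sum_const, Finset.card_univ, Fintype.card_fin, nsmul_eq_mul] at h2
    rw [h3] at hrank
    have h7 : (finrank S (WL κ T c n) : ℤ) ≤ finrank S (VL κ T c n al' be A) +
        ((T.card * ∑ i ∈ Finset.range (n + 1), c * (n - i) : ℕ) : ℤ) := by
      exact_mod_cast hrank
    have h8 : (((γ.toNat + 1) * (n + 1) : ℕ) : ℤ) ≤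
        (((γ.toNat + 1) * (n + 1) : ℕ) : ℤ) * ddeg κ := by
      apply le_mul_of_one_le_right (Int.natCast_nonneg _)
      omega
    have h9 : γ ≤ γ.toNat := Int.self_le_toNat γ
    have h10 : ((n + 1 : ℕ) : ℤ) * γ ≤ ((n + 1 : ℕ) : ℤ) * γ.toNat :=
      mul_le_mul_of_nonneg_left h9 (Int.natCast_nonneg _)
    have h11 : (((γ.toNat + 1) * (n + 1) : ℕ) : ℤ) = ((n + 1 : ℕ) : ℤ) * γ.toNat + (n + 1) := by
      push_cast
      ring
    have h12 : (2 : ℤ) ≤ n := by
      rw [hn]
      push_cast
      omega
    have : (2 : ℤ) ≤ finrank S (VL κ T c n al' be A) := by linarith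
    exact_mod_cast this
  -- the values are constant
  have hwT : ∀ P : Place S F, 0 ≤ P.ord z → w ∈ tau D P := fun P hP => by
    rw [hwd]
    exact tau_der D P (Or.inr hP)
  have hval : ∀ a ∈ VL κ T c n al' be A, ∃ s : S, evL κ T c n w a =
      algebraMap F K (algebraMap S F s) := by
    intro a ha
    have key : ∀ (P : Place S F) (R : Subring K), tau D P ≤ R → y P ∈ R → P ∈ T →
        evL κ T c n w a ∈ R := by
      intro P R hR hyR hP
      rw [evL_bL κ T c n (hbP P).1 (hyP P) a]
      refine Subring.sum_mem _ fun i hi => ?_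
      exact Subring.mul_mem _ (hR (tau_coe D P (ha (P, i) (Finset.mem_product.2 ⟨hP, hi⟩))))
        (Subring.pow_mem _ hyR i)
    refine hG _ (fun P hzP => ?_) fun P hzP => ?_
    · by_cases hP : P ∈ T
      · exact key P _ le_rfl (hyt' P hzP) hP
      · unfold evL
        refine Subring.sum_mem _ fun j _ => ?_
        refine Subring.mul_mem _ (tau_coe D P ?_) (Subring.pow_mem _ (hwT P ?_) _)
        · rcases (mem_LL (D := EL κ T c n j)).1 (a j).2 with h1 | h1
          · exact Or.inl h1
          · right
            have := h1 P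
            rwa [EL_out κ T c n hP (hTv P hP), neg_zero] at this
        · rw [hTz P hP]
    · have hP : P ∈ T := by
        rw [hT]
        exact Finset.mem_union_left _ ((hZ P).2 hzP)
      exact key P _ (tau_le_tauX D _ P) (hyt P hzP) hP
  -- they determine the coefficients
  have hzero : ∀ a ∈ VL κ T c n al' be A, ∀ s : S, evL κ T c n w a =
      algebraMap F K (algebraMap S F s) → (a 0 : F) = algebraMap S F s ∧
        ∀ j : Fin (n + 1), j ≠ 0 → (a j : F) = 0 := by
    intro a _ s hs
    have hw' : Transcendental F w := hw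
    rw [transcendental_iff_injective] at hw'
    set p : Polynomial F := ∑ j : Fin (n + 1), Polynomial.monomial (j : ℕ) (a j : F) with hp
    have hpc : ∀ j : Fin (n + 1), p.coeff j = (a j : F) := by
      intro j
      rw [hp, Polynomial.finsetSum_coeff]
      rw [Finset.sum_eq_single j]
      · rw [Polynomial.coeff_monomial, if_pos rfl]
      · intro i _ hij
        rw [Polynomial.coeff_monomial, if_neg (fun e => hij (Fin.ext e))]
      · intro h
        exact absurd (Finset.mem_univ j) h
    have h1 : Polynomial.aeval w p = Polynomial.aeval w (Polynomial.C (algebraMap S F s)) := by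
      rw [Polynomial.aeval_C, ← hs, hp, map_sum]
      unfold evL
      refine Finset.sum_congr rfl fun j _ => ?_
      rw [Polynomial.aeval_monomial]
    have h2 := hw' h1
    constructor
    · have h3 := hpc 0
      rw [h2] at h3
      rw [← h3]
      simp
    · intro j hj
      rw [← hpc j, h2, Polynomial.coeff_C, if_neg]
      intro e
      exact hj (Fin.ext e)
  -- the upper bound
  let g : VL κ T c n al' be A →ₗ[S] F :=
    (LL (EL κ T c n 0)).subtype.comp ((LinearMap.proj (R := S)
      (φ := fun j : Fin (n + 1) => LL (EL κ T c n j)) 0).comp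
        (VL κ T c n al' be A).subtype)
  have hg : ∀ a : VL κ T c n al' be A, g a = ((a : WL κ T c n) 0 : F) := fun a => rfl
  have hinj : Function.Injective g := by
    rw [injective_iff_map_eq_zero]
    intro a ha
    obtain ⟨s, hs⟩ := hval a a.2
    obtain ⟨h1, h2⟩ := hzero a a.2 s hs
    apply Subtype.ext
    funext j
    apply Subtype.ext
    by_cases hj : j = 0
    · subst hj
      exact ha
    · exact h2 j hj
  have hrange : LinearMap.range g ≤ Submodule.span S {(1 : F)} := by
    rintro x ⟨a, rfl⟩
    obtain ⟨s, hs⟩ := hval a a.2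
    obtain ⟨h1, -⟩ := hzero a a.2 s hs
    rw [Submodule.mem_span_singleton]
    exact ⟨s, by rw [hg, h1, Algebra.smul_def, mul_one]⟩
  have h1 := Submodule.finrank_mono hrange
  rw [finrank_span_singleton (one_ne_zero (α := F)), LinearMap.finrank_range_of_inj hinj] at h1
  omega

end Pool.Agent.H916
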