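import Pool.Agent.H916.LGt
import Pool.Agent.H916.Endo

/-! Rational maps of pairs, and their counting functions. -/

set_option autoImplicit false
set_option linter.overlappingInstances false
set_option linter.unusedSectionVars false

open FF Pool.Agent.W603.LV Pool.Agent.W603.PV MvPolynomial
open Pool.Agent.W602.GT (val IsForm VarPts coords val_smul)
open Pool.Agent.Y216 (OnVar)

namespace Pool.Agent.H916

/-- Let `x` and `y` be the generic points, over the field `K`, of projective varieties `X` and `Y`
over `F`. The point `(f, g)` over `E` is a point of the closure of the image of `(x, y)` in the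
product of the projective spaces: if `X ⇢ Y` is the rational map with `x ↦ y` then this is the closure
of the graph. The condition is that `f i ≠ 0`, `g j ≠ 0` for some `i` and `j` and that the affine
coordinates `x a / x i` and `y b / y j` satisfy no polynomial relation over `F` which is not satisfied
by `f a / f i` and `g b / g j`. -/
def InClosure (F : Type) [Field F] {K E : Type} [Field K] [Algebra F K] [Field E] [Algebra F E]
    {M N : ℕ} (x : Fin (M + 1) → K) (y : Fin (N + 1) → K) (f : Fin (M + 1) → E)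
    (g : Fin (N + 1) → E) : Prop :=
  ∃ i j, f i ≠ 0 ∧ g j ≠ 0 ∧ ∀ Φ : MvPolynomial (Fin (M + 1) ⊕ Fin (N + 1)) F,
    aeval (Sum.elim (fun a => x a / x i) fun b => y b / y j) Φ = 0 →
      aeval (Sum.elim (fun a => f a / f i) fun b => g b / g j) Φ = 0

/-- The rational map `X ⇢ Y` with `x ↦ y` is a map of the pairs `(X, D)` and `(Y, D')`, where `D` is
given by the forms `Q i` and `D'` by the forms `Q' i`: if `(f, g)` is a geometric point of the closure
of the graph and `g` is a point of `D'` then `f` is a point of `D`. (If `X ⇢ Y` is a morphism then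
this says that it maps `X ∖ D` to `Y ∖ D'`.) -/
def PairMap {F K : Type} [Field F] [Field K] [Algebra F K] {M N : ℕ} (x : Fin (M + 1) → K)
    {ι : Type} (Q : ι → MvPolynomial (Fin (M + 1)) F) (y : Fin (N + 1) → K) {κ : Type}
    (Q' : κ → MvPolynomial (Fin (N + 1)) F) : Prop :=
  ∀ (f : Fin (M + 1) → AlgebraicClosure F) (g : Fin (N + 1) → AlgebraicClosure F),
    InClosure F x y f g → (∀ i, aeval g (Q' i) = 0) → ∀ i, aeval f (Q i) = 0

section null

variable {F K : Type} [Field F] [Field K] [Algebra F K] {M N : ℕ} {x : Fin (M + 1) → K}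
  {ι : Type} {Q : ι → MvPolynomial (Fin (M + 1)) F} {y : Fin (N + 1) → K} {κ : Type} [Finite κ]
  {Q' : κ → MvPolynomial (Fin (N + 1)) F}

/-- The equation which follows from the Nullstellensatz. -/
theorem PairMap.null (h : PairMap x Q y Q') {a : Fin (M + 1)} {b : Fin (N + 1)} (ha : x a ≠ 0)
    (hb : y b ≠ 0) (i : ι) :
    ∃ (n : ℕ) (A : κ → MvPolynomial (Fin (M + 1) ⊕ Fin (N + 1)) F),
      ∀ (E : Type) [Field E] [Algebra F E] (f : Fin (M + 1) → E) (g : Fin (N + 1) → E),
        (∀ Φ : MvPolynomial (Fin (M + 1) ⊕ Fin (N + 1)) F,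
          aeval (Sum.elim (fun c => x c / x a) fun c => y c / y b) Φ = 0 →
          aeval (Sum.elim f g) Φ = 0) →
        aeval f (Q i) ^ n = ∑ᶠ c, aeval (Sum.elim f g) (A c) * aeval g (Q' c) := by
  classical
  cases nonempty_fintype κ
  let R := MvPolynomial (Fin (M + 1) ⊕ Fin (N + 1)) F
  let p0 : Fin (M + 1) ⊕ Fin (N + 1) → K := Sum.elim (fun c => x c / x a) fun c => y c / y b
  let I : Ideal R := RingHom.ker (aeval p0 : R →ₐ[F] K) ⊔
    Ideal.span (Set.range fun c => rename Sum.inr (Q' c))
  have h1 : rename Sum.inl (Q i) ∈ I.radical := by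
    rw [← vanishingIdeal_zeroLocus_eq_radical (K := AlgebraicClosure F) I]
    intro p hp
    rw [mem_zeroLocus_iff] at hp
    have hker : ∀ Φ : R, aeval p0 Φ = 0 → aeval p Φ = 0 := fun Φ hΦ =>
      hp Φ (Ideal.mem_sup_left hΦ)
    have hpa : p (Sum.inl a) = 1 := by
      have h2 := hker (X (Sum.inl a) - 1) (by
        rw [map_sub, aeval_X, map_one, sub_eq_zero]
        exact div_self ha)
      rwa [map_sub, aeval_X, map_one, sub_eq_zero] at h2
    have hpb : p (Sum.inr b) = 1 := by
      have h2 := hker (X (Sum.inr b) - 1) (by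
        rw [map_sub, aeval_X, map_one, sub_eq_zero]
        exact div_self hb)
      rwa [map_sub, aeval_X, map_one, sub_eq_zero] at h2
    have h3 : (Sum.elim (fun c => p (Sum.inl c) / p (Sum.inl a)) fun c =>
        p (Sum.inr c) / p (Sum.inr b)) = p := by
      funext c
      rcases c with c | c
      · rw [Sum.elim_inl, hpa, div_one]
      · rw [Sum.elim_inr, hpb, div_one]
    have h4 := h (fun c => p (Sum.inl c)) (fun c => p (Sum.inr c))
      ⟨a, b, by change p (Sum.inl a) ≠ 0; rw [hpa]; exact one_ne_zero,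
        by change p (Sum.inr b) ≠ 0; rw [hpb]; exact one_ne_zero, fun Φ hΦ => by
        rw [h3]
        exact hker Φ hΦ⟩ (fun c => by
          have h5 := hp _ (Ideal.mem_sup_right (Ideal.subset_span ⟨c, rfl⟩))
          rw [aeval_rename] at h5
          exact h5) i
    rw [aeval_rename]
    exact h4
  obtain ⟨n, hn⟩ := h1
  obtain ⟨B, hB, S, hS, hBS⟩ := Submodule.mem_sup.1 hn
  obtain ⟨A, hA⟩ := Ideal.mem_span_range_iff_exists_fun.1 hS
  refine ⟨n, A, fun E _ _ f g hfg => ?_⟩
  have h2 := congrArg (aeval (Sum.elim f g)) hBS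
  rw [map_add, hfg B hB, zero_add, ← hA, map_sum, map_pow, aeval_rename] at h2
  rw [finsum_eq_sum_of_fintype]
  change aeval (Sum.elim f g ∘ Sum.inl) (Q i) ^ n = _
  rw [← h2]
  refine Finset.sum_congr rfl fun c _ => ?_
  rw [map_mul, aeval_rename]
  rfl

end null

section rmap

variable {F K : Type} [Field F] [Field K] [Algebra F K] {M N : ℕ} {x : Fin (M + 1) → K}
  {y : Fin (N + 1) → K} {j0 : Fin (N + 1)} {e : ℕ}
  {H : Fin (N + 1) → MvPolynomial (Fin (M + 1)) F}

/-- relations on the graph -/
theorem RMap.graph (h : RMap x y j0 e H) {E : Type} [Field E] [Algebra F E]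
    {f : Fin (M + 1) → E} (hf : OnVar F x f) {a : Fin (M + 1)} {b : Fin (N + 1)} (hfa : f a ≠ 0)
    (hgb : aeval f (H b) ≠ 0) :
    x a ≠ 0 ∧ y b ≠ 0 ∧ ∀ Φ : MvPolynomial (Fin (M + 1) ⊕ Fin (N + 1)) F,
      aeval (Sum.elim (fun c => x c / x a) fun c => y c / y b) Φ = 0 →
      aeval (Sum.elim (fun c => f c / f a) fun c => aeval f (H c) / aeval f (H b)) Φ = 0 := by
  classical
  have hxa : x a ≠ 0 := by
    intro h0
    apply hfa
    have h1 := hf.2 (X a) ⟨1, isHomogeneous_X F a⟩ (by
      unfold Pool.Agent.W602.GT.val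
      rw [aeval_X, h0])
    unfold Pool.Agent.W602.GT.val at h1
    rwa [aeval_X] at h1
  have hHb : aeval x (H b) ≠ 0 := by
    intro h0
    exact hgb (hf.2 (H b) ⟨e, h.hom b⟩ h0)
  have hyb : y b ≠ 0 := by
    intro h0
    have h1 := h.eq b
    rw [h0, zero_div, eq_comm, div_eq_zero_iff] at h1
    exact h1.elim hHb h.ne
  have hyc : ∀ c, y c / y b = aeval x (H c) / aeval x (H b) := by
    intro c
    have h1 := h.eq c
    have h2 := h.eq b
    have h3 := h.ne
    have h4 := h.ny
    have h5 : y c / y b = (y c / y j0) / (y b / y j0) := by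
      field_simp
    rw [h5, h1, h2]
    field_simp
  refine ⟨hxa, hyb, fun Φ hΦ => ?_⟩
  -- affine coordinates
  have hdeh : ∀ {L : Type} [Field L] [Algebra F L] (u : Fin (M + 1) → L), u a ≠ 0 → ∀ c,
      aeval (fun c => u c / u a) (H c) = aeval u (H c) / u a ^ e := by
    intro L _ _ u hu c
    have h1 := val_smul (h.hom c) (u a) (fun c => u c / u a)
    have h3 : (fun i => u a * (u i / u a)) = u := by
      funext i
      field_simp
    rw [h3] at h1
    unfold Pool.Agent.W602.GT.val at h1
    rw [h1, mul_div_cancel_left₀ _ (pow_ne_zero _ hu)]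
  -- clearing denominators
  have hclear : ∀ Ψ : MvPolynomial (Fin (M + 1) ⊕ Fin (N + 1)) F, ∃ (n : ℕ)
      (P : MvPolynomial (Fin (M + 1)) F), ∀ {L : Type} [Field L] [Algebra F L]
        (u : Fin (M + 1) → L), u a ≠ 0 → aeval u (H b) ≠ 0 →
        aeval (fun c => u c / u a) P = aeval (fun c => u c / u a) (H b) ^ n *
          aeval (Sum.elim (fun c => u c / u a) fun c => aeval u (H c) / aeval u (H b)) Ψ := by
    intro Ψ
    induction Ψ using MvPolynomial.induction_on with
    | C r => exact ⟨0, C r, fun u _ _ => by simp⟩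
    | add p q hp hq =>
      obtain ⟨n, P, hP⟩ := hp
      obtain ⟨m, P', hP'⟩ := hq
      refine ⟨n + m, P * H b ^ m + P' * H b ^ n, fun u hu hub => ?_⟩
      rw [map_add, map_mul, map_mul, hP u hu hub, hP' u hu hub, map_pow, map_pow, map_add, pow_add]
      ring
    | mul_X p s hp =>
      obtain ⟨n, P, hP⟩ := hp
      rcases s with c | c
      · refine ⟨n, P * X c, fun u hu hub => ?_⟩
        rw [map_mul, hP u hu hub, map_mul, aeval_X, aeval_X, Sum.elim_inl]
        ring
      · refine ⟨n + 1, P * H c, fun u hu hub => ?_⟩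
        rw [map_mul, hP u hu hub, map_mul, aeval_X, Sum.elim_inr, hdeh u hu c, hdeh u hu b,
          pow_succ]
        have h1 := pow_ne_zero e hu
        field_simp
  obtain ⟨n, P, hP⟩ := hclear Φ
  have h1 : aeval (fun c => x c / x a) P = 0 := by
    rw [hP x hxa hHb]
    have h2 : (fun c => aeval x (H c) / aeval x (H b)) = fun c => y c / y b :=
      funext fun c => (hyc c).symm
    rw [h2, hΦ, mul_zero]
  have h2 := on_aff hxa hfa hf.2 h1
  rw [hP f hfa hgb] at h2
  refine (mul_eq_zero.1 h2).resolve_left (pow_ne_zero _ ?_)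
  rw [hdeh f hfa b]
  exact div_ne_zero hgb (pow_ne_zero _ hfa)

end rmap

section count

variable {k F K : Type} [Field k] [IsAlgClosed k] [CharZero k] [Field F] [Field K]
  [Algebra k F] [Algebra F K] {M N : ℕ} {x : Fin (M + 1) → K}
  {ι : Type} [Finite ι] {Q : ι → MvPolynomial (Fin (M + 1)) F} {y : Fin (N + 1) → K} {κ : Type}
  [Finite κ] {Q' : κ → MvPolynomial (Fin (N + 1)) F}

theorem ge_aevalF {L : Type} [Field L] [Algebra k L] [Algebra F L] {σ : Type} {P : Place k L}
    {u : σ → L} (hu : ∀ s, Ge P 0 (u s)) {A : MvPolynomial σ F}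
    (hA : ∀ m ∈ A.support, Ge P 0 (algebraMap F L (A.coeff m))) : Ge P 0 (aeval u A) := by
  classical
  rw [aeval_def, eval₂_eq]
  refine Ge.sum _ _ fun m hm => ?_
  have h1 : Ge P 0 (∏ i ∈ m.support, u i ^ m i) := by
    have h2 := Ge.prod m.support (fun i => u i ^ m i) (fun _ => (0 : ℤ)) fun i _ => by
      simpa using (hu i).pow (m i)
    simpa using h2
  simpa using (hA m hm).mul h1

/-- **Counting functions of maps of pairs.** -/
theorem PairMap.count (h : PairMap x Q y Q') (hQ : ∀ i, IsForm (Q i)) (hQ' : ∀ i, IsForm (Q' i))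
    {j0 : Fin (N + 1)} {e : ℕ} {H : Fin (N + 1) → MvPolynomial (Fin (M + 1)) F}
    (hH : RMap x y j0 e H) [IsFF k F] :
    ∃ c : ℕ, ∀ (L : Type) [Field L] [Algebra k L] [Algebra F L] [IsScalarTower k F L]
      [FiniteDimensional F L] [IsFF k L] (f : Fin (M + 1) → L), OnVar F x f →
      aeval f (H j0) ≠ 0 → (∃ i, aeval f (Q i) ≠ 0) →
      (({P : Place k L | Meets Q' (fun j => aeval f (H j)) P}.ncard : ℕ) : ℤ) ≤
        {P : Place k L | Meets Q f P}.ncard + c * Module.finrank F L := by
  classical
  cases nonempty_fintype ι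
  cases nonempty_fintype κ
  have hnull : ∀ (a : Fin (M + 1)) (b : Fin (N + 1)) (i : ι), ∃ (n : ℕ)
      (A : κ → MvPolynomial (Fin (M + 1) ⊕ Fin (N + 1)) F), x a ≠ 0 → y b ≠ 0 →
      ∀ (E : Type) [Field E] [Algebra F E] (f : Fin (M + 1) → E) (g : Fin (N + 1) → E),
        (∀ Φ : MvPolynomial (Fin (M + 1) ⊕ Fin (N + 1)) F,
          aeval (Sum.elim (fun c => x c / x a) fun c => y c / y b) Φ = 0 →
          aeval (Sum.elim f g) Φ = 0) →
        aeval f (Q i) ^ n = ∑ᶠ c, aeval (Sum.elim f g) (A c) * aeval g (Q' c) := by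
    intro a b i
    by_cases ha : x a ≠ 0
    · by_cases hb : y b ≠ 0
      · obtain ⟨n, A, hA⟩ := h.null ha hb i
        exact ⟨n, A, fun _ _ => hA⟩
      · exact ⟨0, 0, fun _ h => absurd h hb⟩
    · exact ⟨0, 0, fun h _ => absurd h ha⟩
  choose n A hA using hnull
  -- the coefficients
  let S : Finset F := (Finset.univ : Finset (Fin (M + 1) × Fin (N + 1) × ι × κ)).biUnion fun s =>
    ((A s.1 s.2.1 s.2.2.1 s.2.2.2).support.image fun m => (A s.1 s.2.1 s.2.2.1 s.2.2.2).coeff m)
  have hS : ∀ a b i c m, m ∈ (A a b i c).support → (A a b i c).coeff m ∈ S := by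
    intro a b i c m hm
    refine Finset.mem_biUnion.2 ⟨(a, b, i, c), Finset.mem_univ _, ?_⟩
    exact Finset.mem_image.2 ⟨m, hm, rfl⟩
  refine ⟨(∑ c ∈ S, hgt k c).toNat, fun L _ _ _ _ _ _ f hf hfj hfQ => ?_⟩
  have hsum : ((∑ c ∈ S, hgt k c).toNat : ℤ) = ∑ c ∈ S, hgt k c :=
    Int.toNat_of_nonneg (Finset.sum_nonneg fun c _ => hgt_nonneg c)
  obtain ⟨g, hg⟩ : ∃ g : Fin (N + 1) → L, g = fun j => aeval f (H j) := ⟨_, rfl⟩
  rw [← hg]
  have hgj : g j0 ≠ 0 := by
    rw [hg]
    exact hfj
  -- the places of bad reduction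
  have hbad : {P : Place k L | ∃ c ∈ S, P.ord (algebraMap F L c) < 0}.Finite := by
    have h4 : (⋃ c ∈ S, {P : Place k L | P.ord (algebraMap F L c) ≠ 0}).Finite :=
      Set.Finite.biUnion S.finite_toSet fun c _ => finite_support _
    refine h4.subset fun P hP => ?_
    obtain ⟨c, hc, hP⟩ := hP
    exact Set.mem_biUnion hc (ne_of_lt hP)
  have hcard : ((hbad.toFinset.card : ℕ) : ℤ) ≤ (∑ c ∈ S, hgt k c) * Module.finrank F L := by
    refine (card_poles S (fun c => algebraMap F L c) hbad.toFinset fun P hP => ?_).trans ?_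
    · rw [Set.Finite.mem_toFinset] at hP
      exact hP
    · rw [Finset.sum_mul]
      refine Finset.sum_le_sum fun c _ => ?_
      rw [hgt_algebraMap c, mul_comm]
  have hfin : {P : Place k L | Meets Q f P}.Finite := by
    obtain ⟨i, hi⟩ := hfQ
    obtain ⟨j, hj⟩ := hf.1
    have h4 : ((⋃ j, {P : Place k L | P.ord (f j) ≠ 0}) ∪
        {P : Place k L | P.ord (aeval f (Q i)) ≠ 0}).Finite :=
      (Set.finite_iUnion fun j => finite_support _).union (finite_support _)
    refine h4.subset fun P hP => ?_
    by_contra hcon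
    rw [Set.mem_union, not_or] at hcon
    have h5 : P.ord (aeval f (Q i)) = 0 := not_not.1 hcon.2
    have h6 : ∀ j, P.ord (f j) = 0 := fun j => by
      by_contra h7
      exact hcon.1 (Set.mem_iUnion.2 ⟨j, h7⟩)
    have h7 := (hP i).resolve_left hi
    obtain ⟨l, hl, hlo⟩ := exists_pord P hf.1
    rw [h5, ← hlo, h6] at h7
    simp at h7
  have hsub : {P : Place k L | Meets Q' g P} ⊆ {P : Place k L | Meets Q f P} ∪
      {P : Place k L | ∃ c ∈ S, P.ord (algebraMap F L c) < 0} := by
    intro P hP
    by_contra hcon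
    rw [Set.mem_union, not_or] at hcon
    obtain ⟨hm, hb⟩ := hcon
    apply hm
    intro i
    by_cases hi : aeval f (Q i) = 0
    · exact Or.inl hi
    right
    obtain ⟨a, ha, hao⟩ := exists_pord P hf.1
    obtain ⟨b, hb', hbo⟩ := exists_pord P (f := g) ⟨j0, hgj⟩
    have hgb : aeval f (H b) ≠ 0 := by
      rw [hg] at hb'
      exact hb'
    obtain ⟨hxa, hyb, hrel⟩ := hH.graph hf ha hgb
    have h5 := hA a b i hxa hyb L (fun c => f c / f a) (fun c => aeval f (H c) / aeval f (H b)) hrel
    rw [finsum_eq_sum_of_fintype] at h5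
    -- all terms are in the maximal ideal
    have hu : ∀ s, Ge P 0 ((Sum.elim (fun c => f c / f a) fun c =>
        aeval f (H c) / aeval f (H b) : Fin (M + 1) ⊕ Fin (N + 1) → L) s) := by
      rintro (c | c)
      · rw [Sum.elim_inl]
        by_cases hc : f c = 0
        · exact Or.inl (by rw [hc, zero_div])
        · right
          rw [P.ord_div hc ha, hao]
          have := pord_le P hc
          omega
      · rw [Sum.elim_inr]
        by_cases hc : aeval f (H c) = 0
        · exact Or.inl (by rw [hc, zero_div])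
        · right
          have hgc : g c ≠ 0 := by
            rw [hg]
            exact hc
          have h6 := pord_le P hgc
          rw [← hbo, hg] at h6
          have h7 : P.ord (aeval f (H b)) ≤ P.ord (aeval f (H c)) := h6
          rw [P.ord_div hc hgb]
          omega
    have h6 : Ge P 1 (∑ c, aeval (Sum.elim (fun c => f c / f a) fun c =>
        aeval f (H c) / aeval f (H b)) (A a b i c) *
          aeval (fun c => aeval f (H c) / aeval f (H b)) (Q' c)) := by
      refine Ge.sum _ _ fun c _ => ?_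
      have h7 := ge_aevalF (P := P) hu (A := A a b i c) fun m hm => by
        by_contra h8
        have h9 : ¬ (0 : ℤ) ≤ P.ord (algebraMap F L ((A a b i c).coeff m)) := fun h9 =>
          h8 (Or.inr h9)
        exact hb ⟨_, hS a b i c m hm, by omega⟩
      have h8 : Ge P 1 (aeval (fun c => aeval f (H c) / aeval f (H b)) (Q' c)) := by
        obtain ⟨d, hd⟩ := hQ' c
        have h9 : aeval (fun c => aeval f (H c) / aeval f (H b)) (Q' c) =
            aeval g (Q' c) / aeval f (H b) ^ d := by
          have h1 := val_smul hd (aeval f (H b)) (fun c => aeval f (H c) / aeval f (H b))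
          have h3 : (fun i => aeval f (H b) * (aeval f (H i) / aeval f (H b))) = g := by
            rw [hg]
            funext i
            field_simp
          rw [h3] at h1
          unfold Pool.Agent.W602.GT.val at h1
          rw [h1, mul_div_cancel_left₀ _ (pow_ne_zero _ hgb)]
        rw [h9]
        rcases hP c with h10 | h10
        · exact Or.inl (by rw [h10, zero_div])
        · by_cases h11 : aeval g (Q' c) = 0
          · exact Or.inl (by rw [h11, zero_div])
          right
          have h12 : Q' c ≠ 0 := by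
            intro h0
            rw [h0, map_zero] at h11
            exact h11 rfl
          rw [hd.totalDegree h12] at h10
          rw [P.ord_div h11 (pow_ne_zero _ hgb), P.ord_pow]
          have h13 : P.ord (aeval f (H b)) = pord P g := by
            rw [← hbo, hg]
          rw [h13]
          omega
      simpa using h7.mul h8
    rw [← h5] at h6
    obtain ⟨d, hd⟩ := hQ i
    have hQi : Q i ≠ 0 := by
      intro h0
      rw [h0, map_zero] at hi
      exact hi rfl
    have h9 : aeval (fun c => f c / f a) (Q i) = aeval f (Q i) / f a ^ d := by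
      have h1 := val_smul hd (f a) (fun c => f c / f a)
      have h3 : (fun i => f a * (f i / f a)) = f := by
        funext i
        field_simp
      rw [h3] at h1
      unfold Pool.Agent.W602.GT.val at h1
      rw [h1, mul_div_cancel_left₀ _ (pow_ne_zero _ ha)]
    have h10 : aeval (fun c => f c / f a) (Q i) ≠ 0 := by
      rw [h9]
      exact div_ne_zero hi (pow_ne_zero _ ha)
    have h11 := h6.resolve_left (pow_ne_zero _ h10)
    rw [P.ord_pow] at h11
    have h12 : 0 < P.ord (aeval (fun c => f c / f a) (Q i)) := by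
      by_contra h13
      push Not at h13
      have h14 : (n a b i : ℤ) * P.ord (aeval (fun c => f c / f a) (Q i)) ≤ 0 :=
        mul_nonpos_of_nonneg_of_nonpos (Int.natCast_nonneg _) h13
      omega
    rw [h9, P.ord_div hi (pow_ne_zero _ ha), P.ord_pow, hao] at h12
    rw [hd.totalDegree hQi]
    omega
  have h1 := Set.ncard_le_ncard hsub (hfin.union hbad)
  have h2 := Set.ncard_union_le {P : Place k L | Meets Q f P}
    {P : Place k L | ∃ c ∈ S, P.ord (algebraMap F L c) < 0}
  rw [Set.ncard_eq_toFinset_card _ hbad] at h2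
  rw [hsum]
  have h3 : (({P : Place k L | Meets Q' g P}.ncard : ℕ) : ℤ) ≤
      {P : Place k L | Meets Q f P}.ncard + hbad.toFinset.card := by
    exact_mod_cast h1.trans h2
  linarith

end count

end Pool.Agent.H916
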