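import Pool.Agent.H916.Ul
import Pool.Agent.H916.Bc

/-! The relative height inequality for families of projective curves of genus at least two. -/

set_option autoImplicit false
set_option linter.overlappingInstances false
set_option linter.unusedSectionVars false

open FF Filter Pool.Agent.W603.LV Pool.Agent.W603.PV

namespace Pool.Agent.H916

/-- The dominant morphism `X = Spec B → Y = Spec B0` is a fibration in curves of geometric genus at
least two (which may be affine or projective, and singular): `Ω` is an algebraic closure of the field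
of functions of `Y`, and `M` is the field of functions of a component of the geometric generic
fibre. -/
structure GenusFibres (B0 B Ω M : Type) [CommRing B0] [CommRing B] [Field Ω] [Field M]
    [Algebra B0 B] [Algebra B0 Ω] [Algebra B M] [Algebra Ω M] : Prop where
  inj0 : Function.Injective (algebraMap B0 B)
  inj : Function.Injective (algebraMap B M)
  alg : Algebra.IsAlgebraic B0 Ω
  closed : IsAlgClosed Ω
  ff : IsFF Ω M
  gen : IntermediateField.adjoin Ω (Set.range (algebraMap B M)) = ⊤
  pos : 0 < canDeg Ω M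

theorem isFF_of_alg {S F : Type} [Field S] [Field F] [Algebra S F] {f : F}
    (hf : Transcendental S f) (hess : Algebra.EssFiniteType S F)
    (halg : ∀ y : F, IsAlgebraic (IntermediateField.adjoin S {f}) y) : IsFF S F := by
  have h1 : Algebra.IsAlgebraic (IntermediateField.adjoin S {f}) F := ⟨halg⟩
  have h3 : Algebra.EssFiniteType (IntermediateField.adjoin S {f}) F :=
    Algebra.EssFiniteType.of_comp S (IntermediateField.adjoin S {f}) F
  have h4 := IntermediateField.fg_top (IntermediateField.adjoin S {f}) F
  obtain ⟨s, hs⟩ := h4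
  have h5 : FiniteDimensional (IntermediateField.adjoin S {f})
      (IntermediateField.adjoin (IntermediateField.adjoin S {f}) (s : Set F)) :=
    IntermediateField.finiteDimensional_adjoin (fun x _ => (h1.isAlgebraic x).isIntegral)
  rw [hs] at h5
  exact IsFF.of_finite hf (IntermediateField.topEquiv.toLinearEquiv.finiteDimensional)

section nopoint

variable {k B0 B Ω M : Type} [Field k] [IsAlgClosed k] [CharZero k] [CommRing B0]
  [CommRing B] [Field Ω] [Field M] [Algebra k B0] [Algebra k B] [Algebra B0 B] [Algebra B0 Ω]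
  [Algebra B0 M] [Algebra B M] [Algebra Ω M] [IsScalarTower k B0 B] [IsScalarTower B0 B M]
  [IsScalarTower B0 Ω M]

theorem alg_B (h : GenusFibres B0 B Ω M) (x : M) : IsAlgebraic B x := by
  have hdom : IsDomain B := h.inj.isDomain (algebraMap B M)
  have hx : x ∈ IntermediateField.adjoin Ω (Set.range (algebraMap B M)) := by
    rw [h.gen]
    exact IntermediateField.mem_top
  induction hx using IntermediateField.adjoin_induction with
  | mem y hy =>
    obtain ⟨b, rfl⟩ := hy
    exact isAlgebraic_algebraMap b
  | algebraMap c =>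
    have h1 : IsAlgebraic B0 (algebraMap Ω M c) := (h.alg.isAlgebraic c).algebraMap
    exact h1.extendScalars h.inj0
  | add x y _ _ hx hy => exact hx.add hy
  | inv x _ hx => exact hx.inv
  | mul x y _ _ hx hy => exact hx.mul hy

variable {K0 : Type} [Field K0] [CharZero K0]

theorem no_point_aux (K : Type) [Field K] [Algebra K0 K] [IsAlgClosed K]
    [Algebra.IsAlgebraic K0 K] (h : GenusFibres B0 B Ω M) {N : ℕ} (x : Fin N → B)
    (hx : Algebra.adjoin k (Set.range x) = ⊤) {D0 : Derivation ℤ K0 K0} {S0 : Subfield K0}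
    {z : K0} {R0 R1 : Subring K0} (hpre : Pre D0 S0 z R0 R1) (Φ : B →+* K0)
    (hΦ : Function.Injective Φ) (h0 : ∀ b : B0, Φ (algebraMap B0 B b) ∈ S0)
    (hz : z ∈ Set.range Φ) : False := by
  classical
  have hff := h.ff
  have hcl := h.closed
  have hdom : IsDomain B := h.inj.isDomain (algebraMap B M)
  have hk0 : CharZero B := charZero_of_injective_algebraMap (algebraMap k B).injective
  have hcM : CharZero M := charZero_of_injective_algebraMap h.inj
  have hcΩ : CharZero Ω := (algebraMap Ω M).charZero
  have hfaith : FaithfulSMul B M := (faithfulSMul_iff_algebraMap_injective _ _).2 h.inj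
  have halgB : Algebra.IsAlgebraic B M := ⟨alg_B h⟩
  let iBK : Algebra B K :=
    ((algebraMap K0 K).comp Φ).toAlgebra
  have hBK : ∀ b : B, algebraMap B K b =
      algebraMap K0 K (Φ b) := fun b => rfl
  have hBKi : Function.Injective (algebraMap B K) := by
    intro b b' hb
    rw [hBK, hBK] at hb
    exact hΦ ((algebraMap K0 K).injective hb)
  have hfaith' : FaithfulSMul B K :=
    (faithfulSMul_iff_algebraMap_injective _ _).2 hBKi
  let ψ : M →ₐ[B] K := IsAlgClosed.lift
  have hψB : ∀ b : B, ψ (algebraMap B M b) = algebraMap K0 K (Φ b) :=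
    fun b => ψ.commutes b
  -- the constants
  have hψΩ : ∀ c : Ω, IsAlgebraic S0 (ψ (algebraMap Ω M c)) := by
    intro c
    obtain ⟨p, hp0, hp⟩ := ((h.alg.isAlgebraic c).algebraMap : IsAlgebraic B0 (algebraMap Ω M c))
    let θ : B0 →+* S0 := (Φ.comp (algebraMap B0 B)).codRestrict S0 h0
    have hθ : Function.Injective θ := by
      intro a b hab
      exact h.inj0 (hΦ (congrArg (fun y : S0 => (y : K0)) hab))
    refine ⟨p.map θ, ?_, ?_⟩
    · rwa [Ne, Polynomial.map_eq_zero_iff hθ]
    · rw [Polynomial.aeval_def, Polynomial.eval₂_map]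
      rw [Polynomial.aeval_def] at hp
      have h1 := congrArg ψ hp
      rw [map_zero] at h1
      have h2 := Polynomial.hom_eval₂ p (algebraMap B0 M) (ψ : M →+* K) (algebraMap Ω M c)
      have h3 : ((ψ : M →+* K).comp (algebraMap B0 M)) =
          (algebraMap S0 K).comp θ := by
        ext b
        change ψ (algebraMap B0 M b) = algebraMap K0 K (Φ (algebraMap B0 B b))
        rw [IsScalarTower.algebraMap_apply B0 B M, hψB]
      rw [h3] at h2
      exact h2.symm.trans h1
  obtain ⟨F, hF⟩ : ∃ F : IntermediateField (algebraicClosure S0 K)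
      K, F = IntermediateField.adjoin _
        (Set.range fun l => ψ (algebraMap B M (x l))) := ⟨_, rfl⟩
  have hxF : ∀ l, ψ (algebraMap B M (x l)) ∈ F := fun l => by
    rw [hF]
    exact IntermediateField.subset_adjoin _ _ ⟨l, rfl⟩
  have hSF : ∀ y : K, IsAlgebraic S0 y → y ∈ F := fun y hy =>
    F.algebraMap_mem ⟨y, mem_algebraicClosure_iff.2 hy⟩
  have hBF : ∀ b : B, ψ (algebraMap B M b) ∈ F := by
    intro b
    have hb : b ∈ Algebra.adjoin k (Set.range x) := by
      rw [hx]
      exact Algebra.mem_top
    induction hb using Algebra.adjoin_induction with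
    | mem y hy =>
      obtain ⟨l, rfl⟩ := hy
      exact hxF l
    | algebraMap c =>
      rw [IsScalarTower.algebraMap_apply k B0 B, ← IsScalarTower.algebraMap_apply B0 B M,
        IsScalarTower.algebraMap_apply B0 Ω M]
      exact hSF _ (hψΩ _)
    | add x y _ _ hx hy =>
      rw [map_add, map_add]
      exact add_mem hx hy
    | mul x y _ _ hx hy =>
      rw [map_mul, map_mul]
      exact mul_mem hx hy
  have hMF : ∀ y : M, ψ y ∈ F := by
    intro y
    have hy : y ∈ IntermediateField.adjoin Ω (Set.range (algebraMap B M)) := by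
      rw [h.gen]
      exact IntermediateField.mem_top
    induction hy using IntermediateField.adjoin_induction with
    | mem y hy =>
      obtain ⟨b, rfl⟩ := hy
      exact hBF b
    | algebraMap c => exact hSF _ (hψΩ c)
    | add x y _ _ hx hy =>
      rw [map_add]
      exact add_mem hx hy
    | inv x _ hx =>
      rw [map_inv₀]
      exact inv_mem hx
    | mul x y _ _ hx hy =>
      rw [map_mul]
      exact mul_mem hx hy
  obtain ⟨b0, hb0⟩ := hz
  have hzF : algebraMap K0 K z ∈ F := by
    rw [← hb0, ← hψB]
    exact hBF b0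
  -- the point is transcendental
  have hztr : ∀ s : algebraicClosure S0 K,
      algebraMap K0 K z ≠ (s : K) := by
    intro s hs
    apply hpre.nz
    apply hpre.closed
    have h1 : IsAlgebraic S0 (algebraMap K0 K z) := by
      rw [hs]
      exact mem_algebraicClosure_iff.1 s.2
    exact (isAlgebraic_algebraMap_iff (algebraMap K0 K).injective).1 h1
  have hclS : IsAlgClosed (algebraicClosure S0 K) :=
    (IsAlgClosed.algebraicClosure_eq_bot_iff (algebraicClosure S0 K)
      K).1 (algebraicClosure.algebraicClosure_eq_bot S0 K)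
  have hcS : CharZero (algebraicClosure S0 K) :=
    charZero_of_injective_algebraMap
      (algebraMap S0 (algebraicClosure S0 K)).injective
  have hzt : Transcendental (algebraicClosure S0 K)
      (⟨_, hzF⟩ : F) := by
    intro hc
    have h1 := IsAlgClosed.degree_eq_one_of_irreducible _ (minpoly.irreducible hc.isIntegral)
    obtain ⟨c, hc⟩ := minpoly.mem_range_of_degree_eq_one _ _ h1
    exact hztr c (congrArg (fun y : F => (y : K)) hc).symm
  -- `b0` is transcendental
  have hb0t : Transcendental Ω (algebraMap B M b0) := by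
    intro hc
    have h1 := IsAlgClosed.degree_eq_one_of_irreducible _ (minpoly.irreducible hc.isIntegral)
    obtain ⟨c, hc⟩ := minpoly.mem_range_of_degree_eq_one _ _ h1
    have h2 : IsAlgebraic S0 (ψ (algebraMap B M b0)) := by
      rw [← hc]
      exact hψΩ c
    refine hztr ⟨_, mem_algebraicClosure_iff.2 h2⟩ ?_
    rw [← hb0, ← hψB]
  -- the field is a function field
  have hFF : IsFF (algebraicClosure S0 K) F := by
    refine isFF_of_alg hzt ?_ ?_
    · rw [hF]
      exact IntermediateField.essFiniteType_iff.2 (IntermediateField.fg_adjoin_of_finite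
        (Set.finite_range _))
    · obtain ⟨zF, hzFd⟩ : ∃ zF : F, zF = ⟨_, hzF⟩ := ⟨_, rfl⟩
      rw [← hzFd]
      -- generators are algebraic
      have e1 : ∀ c : M, IsAlgebraic (IntermediateField.adjoin
          (algebraicClosure S0 K) {zF}) (⟨ψ c, hMF c⟩ : F) := by
        intro c
        have e2 : IsAlgebraic (IntermediateField.adjoin Ω {algebraMap B M b0}) c :=
          (IsFF.isAlgebraic hb0t).isAlgebraic c
        obtain ⟨p, hp0, hp⟩ := e2
        have e3 : ∀ y ∈ IntermediateField.adjoin Ω {algebraMap B M b0}, (⟨ψ y, hMF y⟩ : F) ∈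
            (IntermediateField.adjoin (algebraicClosure S0 K) {zF}) := by
          intro y hy
          induction hy using IntermediateField.adjoin_induction with
          | mem y hy =>
            rw [Set.mem_singleton_iff] at hy
            have e4 : (⟨ψ y, hMF y⟩ : F) = zF := by
              apply Subtype.ext
              rw [hzFd]
              change ψ y = algebraMap K0 K z
              rw [hy, hψB, hb0]
            rw [e4]
            exact IntermediateField.mem_adjoin_simple_self _ _
          | algebraMap c =>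
            have e4 : (⟨ψ (algebraMap Ω M c), hMF _⟩ : F) = algebraMap
                (algebraicClosure S0 K) F
                ⟨ψ (algebraMap Ω M c), mem_algebraicClosure_iff.2 (hψΩ c)⟩ := rfl
            rw [e4]
            exact IntermediateField.algebraMap_mem _ _
          | add x y _ _ hx hy =>
            have e4 : (⟨ψ (x + y), hMF _⟩ : F) = ⟨ψ x, hMF x⟩ + ⟨ψ y, hMF y⟩ :=
              Subtype.ext (map_add ψ x y)
            rw [e4]
            exact add_mem hx hy
          | inv x _ hx =>
            have e4 : (⟨ψ x⁻¹, hMF _⟩ : F) = (⟨ψ x, hMF x⟩ : F)⁻¹ :=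
              Subtype.ext (map_inv₀ ψ x)
            rw [e4]
            exact inv_mem hx
          | mul x y _ _ hx hy =>
            have e4 : (⟨ψ (x * y), hMF _⟩ : F) = ⟨ψ x, hMF x⟩ * ⟨ψ y, hMF y⟩ :=
              Subtype.ext (map_mul ψ x y)
            rw [e4]
            exact mul_mem hx hy
        let ψF : M →+* F := (ψ : M →+* K).codRestrict F.toSubfield hMF
        let i : IntermediateField.adjoin Ω {algebraMap B M b0} →+* (IntermediateField.adjoin
            (algebraicClosure S0 K) {zF}) :=
          (ψF.comp (algebraMap (IntermediateField.adjoin Ω {algebraMap B M b0}) M)).codRestrict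
            (IntermediateField.adjoin (algebraicClosure S0 K) {zF}).toSubfield
            fun y => e3 y y.2
        refine ⟨p.map i, ?_, ?_⟩
        · rwa [Ne, Polynomial.map_eq_zero]
        · rw [Polynomial.aeval_def, Polynomial.eval₂_map]
          have e5 : (algebraMap (IntermediateField.adjoin
              (algebraicClosure S0 K) {zF}) F).comp i =
              ψF.comp (algebraMap (IntermediateField.adjoin Ω {algebraMap B M b0}) M) := by
            ext y
            rfl
          rw [e5]
          have e6 := Polynomial.hom_eval₂ p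
            (algebraMap (IntermediateField.adjoin Ω {algebraMap B M b0}) M) ψF c
          rw [Polynomial.aeval_def] at hp
          rw [hp, map_zero] at e6
          exact e6.symm
      have hall : ∀ y ∈ IntermediateField.adjoin (algebraicClosure S0 K)
          (Set.range fun l => ψ (algebraMap B M (x l))), ∃ hy : y ∈ F,
          IsAlgebraic (IntermediateField.adjoin (algebraicClosure S0 K) {zF}) (⟨y, hy⟩ : F) := by
        intro y hy
        induction hy using IntermediateField.adjoin_induction with
        | mem y hy =>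
          obtain ⟨l, rfl⟩ := hy
          exact ⟨hxF l, e1 _⟩
        | algebraMap c =>
          refine ⟨F.algebraMap_mem c, ?_⟩
          have e4 : (⟨algebraMap (algebraicClosure S0 K) K c, F.algebraMap_mem c⟩ : F) =
              algebraMap (IntermediateField.adjoin (algebraicClosure S0 K) {zF}) F
                (algebraMap _ _ c) := rfl
          rw [e4]
          exact isAlgebraic_algebraMap _
        | add x y _ _ hx hy =>
          obtain ⟨hx, hx'⟩ := hx
          obtain ⟨hy, hy'⟩ := hy
          exact ⟨add_mem hx hy, hx'.add hy'⟩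
        | inv x _ hx =>
          obtain ⟨hx, hx'⟩ := hx
          exact ⟨inv_mem hx, hx'.inv⟩
        | mul x y _ _ hx hy =>
          obtain ⟨hx, hx'⟩ := hx
          obtain ⟨hy, hy'⟩ := hy
          exact ⟨mul_mem hx hy, hx'.mul hy'⟩
      rintro ⟨y, hy⟩
      have h1 : y ∈ IntermediateField.adjoin (algebraicClosure S0 K)
          (Set.range fun l => ψ (algebraMap B M (x l))) := hF.le hy
      obtain ⟨_, h2⟩ := hall y h1
      exact h2
  have hFle : F ≤ CM K S0 := by
    rw [hF]
    unfold CM
    rw [IntermediateField.adjoin_le_iff]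
    rintro _ ⟨l, rfl⟩
    change ψ (algebraMap B M (x l)) ∈ _
    rw [hψB]
    exact IntermediateField.subset_adjoin _ _ ⟨_, rfl⟩
  have hle := hpre.main F hFle hzF
  let iMF : Algebra M F :=
    ((ψ : M →+* K).codRestrict F.toSubfield hMF).toAlgebra
  have hMFa : ∀ y : M, ((algebraMap M F y : F) : K) = ψ y := fun y => rfl
  have hpos : 0 < canDeg (algebraicClosure S0 K) F := by
    refine canDeg_pos_bc (k := Ω) (M := M) ?_ ?_ h.pos
    · intro c
      refine ⟨⟨ψ (algebraMap Ω M c), mem_algebraicClosure_iff.2 (hψΩ c)⟩, ?_⟩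
      exact Subtype.ext rfl
    · refine ⟨algebraMap B M b0, fun s hs => ?_⟩
      have e1 := congrArg (fun y : F => (y : K)) hs
      have e2 : ψ (algebraMap B M b0) = (s : K) := e1
      rw [hψB, hb0] at e2
      exact hztr s e2
  omega

/-- **There are no points.** -/
theorem no_point (h : GenusFibres B0 B Ω M) {N : ℕ} (x : Fin N → B)
    (hx : Algebra.adjoin k (Set.range x) = ⊤) {D0 : Derivation ℤ K0 K0} {S0 : Subfield K0}
    {z : K0} {R0 R1 : Subring K0} (hpre : Pre D0 S0 z R0 R1) (Φ : B →+* K0)
    (hΦ : Function.Injective Φ) (h0 : ∀ b : B0, Φ (algebraMap B0 B b) ∈ S0)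
    (hz : z ∈ Set.range Φ) : False :=
  no_point_aux (AlgebraicClosure K0) h x hx hpre Φ hΦ h0 hz

end nopoint

section ultra

/-- an ultrafilter on the set of the nonzero elements and numbers -/
theorem exists_ultra (B : Type) [CommRing B] [IsDomain B] :
    ∃ U : Ultrafilter ({g : B // g ≠ 0} × ℕ), ∀ (h : B), h ≠ 0 → ∀ A : ℕ,
      ∀ᶠ i in (U : Filter ({g : B // g ≠ 0} × ℕ)), h ∣ i.1.1 ∧ A ≤ i.2 := by
  classical
  let S : ({g : B // g ≠ 0} × ℕ) → Set ({g : B // g ≠ 0} × ℕ) := fun j =>
    {i | j.1.1 ∣ i.1.1 ∧ j.2 ≤ i.2}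
  have hS : ∀ T : Finset (Set ({g : B // g ≠ 0} × ℕ)), (T : Set _) ⊆ Set.range S →
      ∃ j, S j ⊆ ⋂₀ (T : Set (Set ({g : B // g ≠ 0} × ℕ))) := by
    intro T
    induction T using Finset.induction_on with
    | empty =>
      intro _
      exact ⟨(⟨1, one_ne_zero⟩, 0), by simp⟩
    | insert a T _ ih =>
      intro hT
      rw [Finset.coe_insert] at hT ⊢
      obtain ⟨j, hj⟩ := ih fun x hx => hT (Set.mem_insert_of_mem _ hx)
      obtain ⟨j', hj'⟩ := hT (Set.mem_insert _ _)
      refine ⟨(⟨j.1.1 * j'.1.1, mul_ne_zero j.1.2 j'.1.2⟩, max j.2 j'.2), ?_⟩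
      rw [Set.sInter_insert]
      rintro i ⟨h1, h2⟩
      refine ⟨?_, hj ⟨(dvd_mul_right _ _).trans h1, (le_max_left _ _).trans h2⟩⟩
      rw [← hj']
      exact ⟨(dvd_mul_left _ _).trans h1, (le_max_right _ _).trans h2⟩
  obtain ⟨U, hU⟩ := Ultrafilter.exists_ultrafilter_of_finite_inter_nonempty (Set.range S)
    (fun T hT => by
      obtain ⟨j, hj⟩ := hS T hT
      exact ⟨j, hj ⟨dvd_rfl, le_rfl⟩⟩)
  exact ⟨U, fun h hh A => hU ⟨(⟨h, hh⟩, A), rfl⟩⟩

end ultra

section main

variable {k B0 B Ω M : Type} [Field k] [IsAlgClosed k] [CharZero k] [CommRing B0]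
  [CommRing B] [Field Ω] [Field M] [Algebra k B0] [Algebra k B] [Algebra B0 B] [Algebra B0 Ω]
  [Algebra B0 M] [Algebra B M] [Algebra Ω M] [IsScalarTower k B0 B] [IsScalarTower B0 B M]
  [IsScalarTower B0 Ω M]

theorem rel_gens (h : GenusFibres B0 B Ω M) {N : ℕ} (x : Fin N → B)
    (hx : Algebra.adjoin k (Set.range x) = ⊤) {m : ℕ} (a : Fin m → B0)
    (ha : Algebra.adjoin k (Set.range a) = ⊤) :
    ∃ g : B, g ≠ 0 ∧ ∃ A : ℕ, ∀ (E : Type) [Field E] [Algebra k E] [IsFF k E]
      (φ : B →ₐ[k] E), φ g ≠ 0 → ∑ l, hgt k (φ (x l)) ≤ A * (max (canDeg k E) 0 +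
          ∑ j, hgt k (φ (algebraMap B0 B (a j)))) := by
  classical
  by_contra hcon
  push Not at hcon
  have hdom : IsDomain B := h.inj.isDomain (algebraMap B M)
  obtain ⟨U, hU⟩ := exists_ultra B
  have key : ∀ i : ({g : B // g ≠ 0} × ℕ), ∃ (E : Type) (_ : Field E) (_ : Algebra k E)
      (_ : IsFF k E) (φ : B →ₐ[k] E), φ i.1.1 ≠ 0 ∧ i.2 * (max (canDeg k E) 0 +
          ∑ j, hgt k (φ (algebraMap B0 B (a j)))) < ∑ l, hgt k (φ (x l)) :=
    fun i => by
      obtain ⟨E, i1, i2, i3, φ, h1, h2⟩ := hcon i.1.1 i.1.2 i.2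
      exact ⟨E, i1, i2, i3, φ, h1, h2⟩
  choose E iE1 iE2 iE3 φ hφ0 hφ using key
  let χ : ({g : B // g ≠ 0} × ℕ) → ℤ := fun i => max (canDeg k (E i)) 0 +
    ∑ j, hgt k (φ i (algebraMap B0 B (a j)))
  have hsum0 : ∀ i, 0 ≤ ∑ j, hgt k (φ i (algebraMap B0 B (a j))) := fun i =>
    Finset.sum_nonneg fun _ _ => hgt_nonneg _
  have hχ : ∀ i, max (canDeg k (E i)) 0 ≤ χ i := fun i => by
    have := hsum0 i
    change max (canDeg k (E i)) 0 ≤ max (canDeg k (E i)) 0 + _
    linarith
  have hχ0 : ∀ i, 0 ≤ χ i := fun i => (le_max_right _ _).trans (hχ i)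
  let Φ : B →+* UP U E :=
    { toFun := fun b => um U fun i => φ i b
      map_one' := by
        rw [← um_one]
        congr 1
        funext i
        rw [map_one]
      map_mul' := by
        intro b c
        rw [← um_mul]
        congr 1
        funext i
        rw [map_mul]
      map_zero' := by
        rw [← um_zero]
        congr 1
        funext i
        rw [map_zero]
      map_add' := by
        intro b c
        rw [← um_add]
        congr 1
        funext i
        rw [map_add] }
  have hΦ : ∀ b, Φ b = um U fun i => φ i b := fun b => rfl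
  have hΦi : Function.Injective Φ := by
    rw [injective_iff_map_eq_zero]
    intro b hb
    by_contra hb0
    rw [hΦ, um_zero_iff] at hb
    obtain ⟨i, h1, h2, -⟩ := (hb.and (hU b hb0 0)).exists
    obtain ⟨c, hc⟩ := h2
    apply hφ0 i
    rw [hc, map_mul, h1, zero_mul]
  have h0 : ∀ b : B0, Φ (algebraMap B0 B b) ∈ small k U χ := by
    intro b
    have hb : b ∈ Algebra.adjoin k (Set.range a) := by
      rw [ha]
      exact Algebra.mem_top
    induction hb using Algebra.adjoin_induction with
    | mem y hy =>
      obtain ⟨j, rfl⟩ := hy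
      rw [hΦ, mem_small]
      refine ⟨1, Eventually.of_forall fun i => ?_⟩
      have h1 : hgt k (φ i (algebraMap B0 B (a j))) ≤
          ∑ j, hgt k (φ i (algebraMap B0 B (a j))) :=
        Finset.single_le_sum (f := fun j => hgt k (φ i (algebraMap B0 B (a j))))
          (fun _ _ => hgt_nonneg _) (Finset.mem_univ j)
      have h2 : (0 : ℤ) ≤ max (canDeg k (E i)) 0 := le_max_right _ _
      change _ ≤ ((1 : ℕ) : ℤ) * (max (canDeg k (E i)) 0 + _)
      push_cast
      linarith
    | algebraMap c =>
      rw [← IsScalarTower.algebraMap_apply k B0 B]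
      have h1 : Φ (algebraMap k B c) = algebraMap k (UP U E) c := by
        rw [hΦ, ← um_alg]
        congr 1
        funext i
        rw [AlgHom.commutes]
      rw [h1]
      exact alg_small c
    | add x y _ _ hx hy =>
      rw [map_add, map_add]
      exact add_mem hx hy
    | mul x y _ _ hx hy =>
      rw [map_mul, map_mul]
      exact mul_mem hx hy
  obtain ⟨l, hl⟩ : ∃ l, Φ (x l) ∉ small k U χ := by
    by_contra hc
    push Not at hc
    have h1 : ∀ l, ∃ B : ℕ, ∀ᶠ i in (U : Filter _), hgt k (φ i (x l)) ≤ B * χ i := by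
      intro l
      have h2 := hc l
      rw [hΦ, mem_small] at h2
      exact h2
    choose C hC using h1
    have h2 : ∀ᶠ i in (U : Filter _), ∀ l ∈ (Finset.univ : Finset (Fin N)),
        hgt k (φ i (x l)) ≤ C l * χ i := (Filter.eventually_all_finset _).2 fun l _ => hC l
    obtain ⟨i, h3, -, h4⟩ := (h2.and (hU 1 one_ne_zero (∑ l, C l))).exists
    have h5 := hφ i
    have h6 := Finset.sum_le_sum fun l (hl : l ∈ (Finset.univ : Finset (Fin N))) => h3 l hl
    rw [← Finset.sum_mul] at h6
    have h7 : ((∑ l, C l : ℕ) : ℤ) ≤ i.2 := by exact_mod_cast h4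
    have h8 := mul_le_mul_of_nonneg_right h7 (hχ0 i)
    push_cast at h8
    change (i.2 : ℤ) * χ i < _ at h5
    linarith
  obtain ⟨D0, R0, R1, hpre⟩ := exists_pre (k := k) (U := U) χ hχ _ hl
  have hcZ : CharZero (UP U E) := charZero_of_injective_algebraMap (algebraMap k (UP U E)).injective
  exact no_point h x hx hpre Φ hΦi h0 ⟨x l, rfl⟩

end main

end Pool.Agent.H916
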