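import Pool.Agent.H916.LUl
import Pool.Agent.H916.Rel

/-! The relative height inequality for families of curves with cusps: the number of the distinct
poles of one function. -/

set_option autoImplicit false
set_option linter.overlappingInstances false
set_option linter.unusedSectionVars false

open FF Filter Pool.Agent.W603.LV Pool.Agent.W603.PV

namespace Pool.Agent.H916

/-- The dominant morphism `X = Spec B → Y = Spec B0` is a fibration in curves: `Ω` is an algebraic
closure of the field of functions of `Y`, and `M` is the field of functions of a component of the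
geometric generic fibre. -/
structure CurveFibres (B0 B Ω M : Type) [CommRing B0] [CommRing B] [Field Ω] [Field M]
    [Algebra B0 B] [Algebra B0 Ω] [Algebra B M] [Algebra Ω M] : Prop where
  inj0 : Function.Injective (algebraMap B0 B)
  inj : Function.Injective (algebraMap B M)
  alg : Algebra.IsAlgebraic B0 Ω
  closed : IsAlgClosed Ω
  ff : IsFF Ω M
  gen : IntermediateField.adjoin Ω (Set.range (algebraMap B M)) = ⊤

section nopoint

variable {k B0 B Ω M : Type} [Field k] [IsAlgClosed k] [CharZero k] [CommRing B0]
  [CommRing B] [Field Ω] [Field M] [Algebra k B0] [Algebra k B] [Algebra B0 B] [Algebra B0 Ω]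
  [Algebra B0 M] [Algebra B M] [Algebra Ω M] [IsScalarTower k B0 B] [IsScalarTower B0 B M]
  [IsScalarTower B0 Ω M]

theorem alg_BC (h : CurveFibres B0 B Ω M) (x : M) : IsAlgebraic B x := by
  have hdom : IsDomain B := h.inj.isDomain (algebraMap B M)
  have hx : x ∈ IntermediateField.adjoin Ω (Set.range (algebraMap B M)) := by
    rw [h.gen]
    exact IntermediateField.mem_top
  induction hx using IntermediateField.adjoin_induction with
  | mem y hy =>
    obtain ⟨b, rfl⟩ := hy
    exact isAlgebraic_algebraMap b
  | algebraMap c =>
    have h1 : IsAlgebraic B0 (algebraMap Ω M c) := (h.alg.isAlgebraic c).algebraMap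
    exact h1.extendScalars h.inj0
  | add x y _ _ hx hy => exact hx.add hy
  | inv x _ hx => exact hx.inv
  | mul x y _ _ hx hy => exact hx.mul hy

variable {K0 : Type} [Field K0] [CharZero K0]

theorem no_point_auxL (K : Type) [Field K] [Algebra K0 K] [IsAlgClosed K]
    [Algebra.IsAlgebraic K0 K] (h : CurveFibres B0 B Ω M) {N : ℕ} (x : Fin N → B)
    (hx : Algebra.adjoin k (Set.range x) = ⊤) {D0 : Derivation ℤ K0 K0} {S0 : Subfield K0}
    {z : K0} {R0 R1 : Subring K0} (hpre : Pre D0 S0 z R0 R1) (Φ : B →+* K0)
    (hΦ : Function.Injective Φ) (h0 : ∀ b : B0, Φ (algebraMap B0 B b) ∈ S0)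
    (hl : D0 z / z ∈ R1) (b0 : B) (hb0 : Φ b0 = z)
    (hpos : 0 < canDeg Ω M + npo Ω (algebraMap B M b0)) : False := by
  classical
  have hff := h.ff
  have hcl := h.closed
  have hdom : IsDomain B := h.inj.isDomain (algebraMap B M)
  have hk0 : CharZero B := charZero_of_injective_algebraMap (algebraMap k B).injective
  have hcM : CharZero M := charZero_of_injective_algebraMap h.inj
  have hcΩ : CharZero Ω := (algebraMap Ω M).charZero
  have hfaith : FaithfulSMul B M := (faithfulSMul_iff_algebraMap_injective _ _).2 h.inj
  have halgB : Algebra.IsAlgebraic B M := ⟨alg_BC h⟩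
  let iBK : Algebra B K :=
    ((algebraMap K0 K).comp Φ).toAlgebra
  have hBK : ∀ b : B, algebraMap B K b =
      algebraMap K0 K (Φ b) := fun b => rfl
  have hBKi : Function.Injective (algebraMap B K) := by
    intro b b' hb
    rw [hBK, hBK] at hb
    exact hΦ ((algebraMap K0 K).injective hb)
  have hfaith' : FaithfulSMul B K :=
    (faithfulSMul_iff_algebraMap_injective _ _).2 hBKi
  let ψ : M →ₐ[B] K := IsAlgClosed.lift
  have hψB : ∀ b : B, ψ (algebraMap B M b) = algebraMap K0 K (Φ b) :=
    fun b => ψ.commutes b
  -- the constants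
  have hψΩ : ∀ c : Ω, IsAlgebraic S0 (ψ (algebraMap Ω M c)) := by
    intro c
    obtain ⟨p, hp0, hp⟩ := ((h.alg.isAlgebraic c).algebraMap : IsAlgebraic B0 (algebraMap Ω M c))
    let θ : B0 →+* S0 := (Φ.comp (algebraMap B0 B)).codRestrict S0 h0
    have hθ : Function.Injective θ := by
      intro a b hab
      exact h.inj0 (hΦ (congrArg (fun y : S0 => (y : K0)) hab))
    refine ⟨p.map θ, ?_, ?_⟩
    · rwa [Ne, Polynomial.map_eq_zero_iff hθ]
    · rw [Polynomial.aeval_def, Polynomial.eval₂_map]
      rw [Polynomial.aeval_def] at hp
      have h1 := congrArg ψ hp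
      rw [map_zero] at h1
      have h2 := Polynomial.hom_eval₂ p (algebraMap B0 M) (ψ : M →+* K) (algebraMap Ω M c)
      have h3 : ((ψ : M →+* K).comp (algebraMap B0 M)) =
          (algebraMap S0 K).comp θ := by
        ext b
        change ψ (algebraMap B0 M b) = algebraMap K0 K (Φ (algebraMap B0 B b))
        rw [IsScalarTower.algebraMap_apply B0 B M, hψB]
      rw [h3] at h2
      exact h2.symm.trans h1
  obtain ⟨F, hF⟩ : ∃ F : IntermediateField (algebraicClosure S0 K)
      K, F = IntermediateField.adjoin _
        (Set.range fun l => ψ (algebraMap B M (x l))) := ⟨_, rfl⟩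
  have hxF : ∀ l, ψ (algebraMap B M (x l)) ∈ F := fun l => by
    rw [hF]
    exact IntermediateField.subset_adjoin _ _ ⟨l, rfl⟩
  have hSF : ∀ y : K, IsAlgebraic S0 y → y ∈ F := fun y hy =>
    F.algebraMap_mem ⟨y, mem_algebraicClosure_iff.2 hy⟩
  have hBF : ∀ b : B, ψ (algebraMap B M b) ∈ F := by
    intro b
    have hb : b ∈ Algebra.adjoin k (Set.range x) := by
      rw [hx]
      exact Algebra.mem_top
    induction hb using Algebra.adjoin_induction with
    | mem y hy =>
      obtain ⟨l, rfl⟩ := hy
      exact hxF l
    | algebraMap c =>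
      rw [IsScalarTower.algebraMap_apply k B0 B, ← IsScalarTower.algebraMap_apply B0 B M,
        IsScalarTower.algebraMap_apply B0 Ω M]
      exact hSF _ (hψΩ _)
    | add x y _ _ hx hy =>
      rw [map_add, map_add]
      exact add_mem hx hy
    | mul x y _ _ hx hy =>
      rw [map_mul, map_mul]
      exact mul_mem hx hy
  have hMF : ∀ y : M, ψ y ∈ F := by
    intro y
    have hy : y ∈ IntermediateField.adjoin Ω (Set.range (algebraMap B M)) := by
      rw [h.gen]
      exact IntermediateField.mem_top
    induction hy using IntermediateField.adjoin_induction with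
    | mem y hy =>
      obtain ⟨b, rfl⟩ := hy
      exact hBF b
    | algebraMap c => exact hSF _ (hψΩ c)
    | add x y _ _ hx hy =>
      rw [map_add]
      exact add_mem hx hy
    | inv x _ hx =>
      rw [map_inv₀]
      exact inv_mem hx
    | mul x y _ _ hx hy =>
      rw [map_mul]
      exact mul_mem hx hy
  have hzF : algebraMap K0 K z ∈ F := by
    rw [← hb0, ← hψB]
    exact hBF b0
  -- the point is transcendental
  have hztr : ∀ s : algebraicClosure S0 K,
      algebraMap K0 K z ≠ (s : K) := by
    intro s hs
    apply hpre.nz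
    apply hpre.closed
    have h1 : IsAlgebraic S0 (algebraMap K0 K z) := by
      rw [hs]
      exact mem_algebraicClosure_iff.1 s.2
    exact (isAlgebraic_algebraMap_iff (algebraMap K0 K).injective).1 h1
  have hclS : IsAlgClosed (algebraicClosure S0 K) :=
    (IsAlgClosed.algebraicClosure_eq_bot_iff (algebraicClosure S0 K)
      K).1 (algebraicClosure.algebraicClosure_eq_bot S0 K)
  have hcS : CharZero (algebraicClosure S0 K) :=
    charZero_of_injective_algebraMap
      (algebraMap S0 (algebraicClosure S0 K)).injective
  have hzt : Transcendental (algebraicClosure S0 K)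
      (⟨_, hzF⟩ : F) := by
    intro hc
    have h1 := IsAlgClosed.degree_eq_one_of_irreducible _ (minpoly.irreducible hc.isIntegral)
    obtain ⟨c, hc⟩ := minpoly.mem_range_of_degree_eq_one _ _ h1
    exact hztr c (congrArg (fun y : F => (y : K)) hc).symm
  -- `b0` is transcendental
  have hb0t : Transcendental Ω (algebraMap B M b0) := by
    intro hc
    have h1 := IsAlgClosed.degree_eq_one_of_irreducible _ (minpoly.irreducible hc.isIntegral)
    obtain ⟨c, hc⟩ := minpoly.mem_range_of_degree_eq_one _ _ h1
    have h2 : IsAlgebraic S0 (ψ (algebraMap B M b0)) := by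
      rw [← hc]
      exact hψΩ c
    refine hztr ⟨_, mem_algebraicClosure_iff.2 h2⟩ ?_
    rw [← hb0, ← hψB]
  -- the field is a function field
  have hFF : IsFF (algebraicClosure S0 K) F := by
    refine isFF_of_alg hzt ?_ ?_
    · rw [hF]
      exact IntermediateField.essFiniteType_iff.2 (IntermediateField.fg_adjoin_of_finite
        (Set.finite_range _))
    · obtain ⟨zF, hzFd⟩ : ∃ zF : F, zF = ⟨_, hzF⟩ := ⟨_, rfl⟩
      rw [← hzFd]
      -- generators are algebraic
      have e1 : ∀ c : M, IsAlgebraic (IntermediateField.adjoin
          (algebraicClosure S0 K) {zF}) (⟨ψ c, hMF c⟩ : F) := by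
        intro c
        have e2 : IsAlgebraic (IntermediateField.adjoin Ω {algebraMap B M b0}) c :=
          (IsFF.isAlgebraic hb0t).isAlgebraic c
        obtain ⟨p, hp0, hp⟩ := e2
        have e3 : ∀ y ∈ IntermediateField.adjoin Ω {algebraMap B M b0}, (⟨ψ y, hMF y⟩ : F) ∈
            (IntermediateField.adjoin (algebraicClosure S0 K) {zF}) := by
          intro y hy
          induction hy using IntermediateField.adjoin_induction with
          | mem y hy =>
            rw [Set.mem_singleton_iff] at hy
            have e4 : (⟨ψ y, hMF y⟩ : F) = zF := by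
              apply Subtype.ext
              rw [hzFd]
              change ψ y = algebraMap K0 K z
              rw [hy, hψB, hb0]
            rw [e4]
            exact IntermediateField.mem_adjoin_simple_self _ _
          | algebraMap c =>
            have e4 : (⟨ψ (algebraMap Ω M c), hMF _⟩ : F) = algebraMap
                (algebraicClosure S0 K) F
                ⟨ψ (algebraMap Ω M c), mem_algebraicClosure_iff.2 (hψΩ c)⟩ := rfl
            rw [e4]
            exact IntermediateField.algebraMap_mem _ _
          | add x y _ _ hx hy =>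
            have e4 : (⟨ψ (x + y), hMF _⟩ : F) = ⟨ψ x, hMF x⟩ + ⟨ψ y, hMF y⟩ :=
              Subtype.ext (map_add ψ x y)
            rw [e4]
            exact add_mem hx hy
          | inv x _ hx =>
            have e4 : (⟨ψ x⁻¹, hMF _⟩ : F) = (⟨ψ x, hMF x⟩ : F)⁻¹ :=
              Subtype.ext (map_inv₀ ψ x)
            rw [e4]
            exact inv_mem hx
          | mul x y _ _ hx hy =>
            have e4 : (⟨ψ (x * y), hMF _⟩ : F) = ⟨ψ x, hMF x⟩ * ⟨ψ y, hMF y⟩ :=
              Subtype.ext (map_mul ψ x y)
            rw [e4]
            exact mul_mem hx hy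
        let ψF : M →+* F := (ψ : M →+* K).codRestrict F.toSubfield hMF
        let i : IntermediateField.adjoin Ω {algebraMap B M b0} →+* (IntermediateField.adjoin
            (algebraicClosure S0 K) {zF}) :=
          (ψF.comp (algebraMap (IntermediateField.adjoin Ω {algebraMap B M b0}) M)).codRestrict
            (IntermediateField.adjoin (algebraicClosure S0 K) {zF}).toSubfield
            fun y => e3 y y.2
        refine ⟨p.map i, ?_, ?_⟩
        · rwa [Ne, Polynomial.map_eq_zero]
        · rw [Polynomial.aeval_def, Polynomial.eval₂_map]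
          have e5 : (algebraMap (IntermediateField.adjoin
              (algebraicClosure S0 K) {zF}) F).comp i =
              ψF.comp (algebraMap (IntermediateField.adjoin Ω {algebraMap B M b0}) M) := by
            ext y
            rfl
          rw [e5]
          have e6 := Polynomial.hom_eval₂ p
            (algebraMap (IntermediateField.adjoin Ω {algebraMap B M b0}) M) ψF c
          rw [Polynomial.aeval_def] at hp
          rw [hp, map_zero] at e6
          exact e6.symm
      have hall : ∀ y ∈ IntermediateField.adjoin (algebraicClosure S0 K)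
          (Set.range fun l => ψ (algebraMap B M (x l))), ∃ hy : y ∈ F,
          IsAlgebraic (IntermediateField.adjoin (algebraicClosure S0 K) {zF}) (⟨y, hy⟩ : F) := by
        intro y hy
        induction hy using IntermediateField.adjoin_induction with
        | mem y hy =>
          obtain ⟨l, rfl⟩ := hy
          exact ⟨hxF l, e1 _⟩
        | algebraMap c =>
          refine ⟨F.algebraMap_mem c, ?_⟩
          have e4 : (⟨algebraMap (algebraicClosure S0 K) K c, F.algebraMap_mem c⟩ : F) =
              algebraMap (IntermediateField.adjoin (algebraicClosure S0 K) {zF}) F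
                (algebraMap _ _ c) := rfl
          rw [e4]
          exact isAlgebraic_algebraMap _
        | add x y _ _ hx hy =>
          obtain ⟨hx, hx'⟩ := hx
          obtain ⟨hy, hy'⟩ := hy
          exact ⟨add_mem hx hy, hx'.add hy'⟩
        | inv x _ hx =>
          obtain ⟨hx, hx'⟩ := hx
          exact ⟨inv_mem hx, hx'.inv⟩
        | mul x y _ _ hx hy =>
          obtain ⟨hx, hx'⟩ := hx
          obtain ⟨hy, hy'⟩ := hy
          exact ⟨mul_mem hx hy, hx'.mul hy'⟩
      rintro ⟨y, hy⟩
      have h1 : y ∈ IntermediateField.adjoin (algebraicClosure S0 K)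
          (Set.range fun l => ψ (algebraMap B M (x l))) := hF.le hy
      obtain ⟨_, h2⟩ := hall y h1
      exact h2
  have hFle : F ≤ CM K S0 := by
    rw [hF]
    unfold CM
    rw [IntermediateField.adjoin_le_iff]
    rintro _ ⟨l, rfl⟩
    change ψ (algebraMap B M (x l)) ∈ _
    rw [hψB]
    exact IntermediateField.subset_adjoin _ _ ⟨_, rfl⟩
  have hle := preL_main hpre hl F hFle hzF
  let iMF : Algebra M F :=
    ((ψ : M →+* K).codRestrict F.toSubfield hMF).toAlgebra
  have hMFa : ∀ y : M, ((algebraMap M F y : F) : K) = ψ y := fun y => rfl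
  have hpos' := npo_pos_bc (k := Ω) (M := M) (S := algebraicClosure S0 K) (F := F) (fun c => by
      refine ⟨⟨ψ (algebraMap Ω M c), mem_algebraicClosure_iff.2 (hψΩ c)⟩, ?_⟩
      exact Subtype.ext rfl) (by
      refine ⟨algebraMap B M b0, fun s hs => ?_⟩
      have e1 := congrArg (fun y : F => (y : K)) hs
      have e2 : ψ (algebraMap B M b0) = (s : K) := e1
      rw [hψB, hb0] at e2
      exact hztr s e2) (algebraMap B M b0) hpos
  have h7 : (algebraMap M F (algebraMap B M b0) : F) = ⟨algebraMap K0 K z, hzF⟩ := by
    apply Subtype.ext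
    rw [hMFa, hψB, hb0]
  rw [h7] at hpos'
  omega

end nopoint

end Pool.Agent.H916
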