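import Pool.Agent.H916.LRel

/-! The relative height inequality for families of curves with cusps. -/

set_option autoImplicit false
set_option linter.overlappingInstances false
set_option linter.unusedSectionVars false

open FF Filter Pool.Agent.W603.LV Pool.Agent.W603.PV

namespace Pool.Agent.H916

section alg

variable {B0 B Ω M : Type} [CommRing B0]
  [CommRing B] [Field Ω] [Field M] [Algebra B0 B] [Algebra B0 Ω]
  [Algebra B0 M] [Algebra B M] [Algebra Ω M] [IsScalarTower B0 B M]
  [IsScalarTower B0 Ω M]

/-- if a nonconstant function goes to a field, all functions become algebraic over it -/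
theorem alg_over (h : CurveFibres B0 B Ω M) {K0 : Type} [Field K0] (S0 : Subfield K0)
    (Φ : B →+* K0) (hΦ : Function.Injective Φ) (h0 : ∀ b : B0, Φ (algebraMap B0 B b) ∈ S0) (b : B)
    (hb : Transcendental Ω (algebraMap B M b)) (hbS : Φ b ∈ S0) (x : B) :
    IsAlgebraic S0 (Φ x) := by
  have hff := h.ff
  have hdom : IsDomain B := h.inj.isDomain (algebraMap B M)
  obtain ⟨R, hR⟩ : ∃ R : Subring B, R = S0.toSubring.comap Φ := ⟨_, rfl⟩
  have hmR : ∀ y, y ∈ R ↔ Φ y ∈ S0 := fun y => by
    rw [hR]
    exact Iff.rfl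
  have hRM : ∀ y : R, algebraMap R M y = algebraMap B M (y : B) := fun y => rfl
  have hRMi : Function.Injective (algebraMap R M) := by
    intro y y' hy
    rw [hRM, hRM] at hy
    exact Subtype.ext (h.inj hy)
  have hΩ : ∀ c : Ω, IsAlgebraic R (algebraMap Ω M c) := by
    intro c
    obtain ⟨p, hp0, hp⟩ := ((h.alg.isAlgebraic c).algebraMap : IsAlgebraic B0 (algebraMap Ω M c))
    let θ : B0 →+* R := (algebraMap B0 B).codRestrict R fun y => (hmR _).2 (h0 y)
    have hθ : Function.Injective θ := by
      intro a b hab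
      exact h.inj0 (congrArg (fun y : R => (y : B)) hab)
    refine ⟨p.map θ, ?_, ?_⟩
    · rwa [Ne, Polynomial.map_eq_zero_iff hθ]
    · rw [Polynomial.aeval_def, Polynomial.eval₂_map]
      rw [Polynomial.aeval_def] at hp
      have h3 : (algebraMap R M).comp θ = algebraMap B0 M := by
        ext y
        change algebraMap B M (algebraMap B0 B y) = _
        rw [← IsScalarTower.algebraMap_apply]
      rw [h3]
      exact hp
  have hΩb : ∀ y ∈ IntermediateField.adjoin Ω {algebraMap B M b},
      y ∈ Subalgebra.algebraicClosure R M := by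
    intro y hy
    rw [Subalgebra.mem_algebraicClosure]
    induction hy using IntermediateField.adjoin_induction with
    | mem y hy =>
      rw [Set.mem_singleton_iff] at hy
      rw [hy]
      exact isAlgebraic_algebraMap (⟨b, (hmR b).2 hbS⟩ : R)
    | algebraMap c => exact hΩ c
    | add x y _ _ hx hy => exact hx.add hy
    | inv x _ hx => exact hx.inv
    | mul x y _ _ hx hy => exact hx.mul hy
  have hall : ∀ y : M, IsAlgebraic R y := by
    intro y
    have h1 : IsAlgebraic (IntermediateField.adjoin Ω {algebraMap B M b}) y :=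
      (IsFF.isAlgebraic hb).isAlgebraic y
    obtain ⟨p, hp0, hp⟩ := h1
    let i : IntermediateField.adjoin Ω {algebraMap B M b} →+* Subalgebra.algebraicClosure R M :=
      (algebraMap (IntermediateField.adjoin Ω {algebraMap B M b}) M).codRestrict _
        fun x => hΩb x x.2
    have h2 : IsAlgebraic (Subalgebra.algebraicClosure R M) y := by
      refine ⟨p.map i, ?_, ?_⟩
      · rwa [Ne, Polynomial.map_eq_zero_iff i.injective]
      · rw [Polynomial.aeval_def, Polynomial.eval₂_map]
        exact hp
    exact h2.restrictScalars R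
  obtain ⟨p, hp0, hp⟩ := hall (algebraMap B M x)
  let θ : R →+* S0 := (Φ.comp R.subtype).codRestrict S0 fun y => (hmR _).1 y.2
  have hθ : Function.Injective θ := by
    intro a b hab
    exact Subtype.ext (hΦ (congrArg (fun y : S0 => (y : K0)) hab))
  refine ⟨p.map θ, ?_, ?_⟩
  · rwa [Ne, Polynomial.map_eq_zero_iff hθ]
  · rw [Polynomial.aeval_def, Polynomial.eval₂_map]
    rw [Polynomial.aeval_def] at hp
    have h2 : Polynomial.eval₂ (algebraMap R B) x p = 0 := by
      apply h.inj
      rw [map_zero, Polynomial.hom_eval₂]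
      exact hp
    have h3 := congrArg Φ h2
    rw [map_zero, Polynomial.hom_eval₂] at h3
    exact h3

end alg

section ultra

variable {k : Type} [Field k] {K : Type} [Field K] [Algebra k K] [CharZero k] [IsFF k K]

/-- the poles in a set are counted by `ph` -/
theorem npo_le {ι : Type} [Fintype ι] (a : K) (S : Set (Place k K)) (hS : S.Finite)
    (T : ι → Set (Place k K)) (h : ∀ P : Place k K, P.ord a < 0 → P ∈ S ∨ ∃ i, P ∈ T i) :
    (npo k a : ℤ) ≤ S.ncard + ∑ i, ph (T i) a := by
  classical
  obtain ⟨Z, hZ, hcard⟩ := exists_Z (S := k) a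
  have hs : ∀ P : Place k K, P.ord a ≠ 0 → P ∈ (finite_support (k := k) a).toFinset :=
    fun P hP => by simpa using hP
  obtain ⟨s, hsd⟩ : ∃ s, s = (finite_support (k := k) a).toFinset := ⟨_, rfl⟩
  rw [← hsd] at hs
  have h1 : ((Z.card : ℕ) : ℤ) = ∑ P ∈ s, if P.ord a < 0 then 1 else 0 := by
    rw [← Finset.sum_filter]
    have h5 : s.filter (fun P => P.ord a < 0) = Z := by
      ext P
      rw [Finset.mem_filter, hZ]
      exact ⟨fun h => h.2, fun h => ⟨hs P h.ne, h⟩⟩
    rw [h5]
    simp
  have h2 : ((s.filter fun P => P ∈ S).card : ℤ) ≤ S.ncard := by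
    have h3 : ((s.filter fun P => P ∈ S : Finset (Place k K)) : Set (Place k K)) ⊆ S := by
      intro P hP
      rw [Finset.mem_coe, Finset.mem_filter] at hP
      exact hP.2
    have h4 := Set.ncard_le_ncard h3 hS
    rw [Set.ncard_coe_finset] at h4
    exact_mod_cast h4
  have h3 : ((s.filter fun P => P ∈ S).card : ℤ) = ∑ P ∈ s, if P ∈ S then 1 else 0 := by
    rw [← Finset.sum_filter]
    simp
  rw [hcard, h1]
  refine le_trans ?_ (add_le_add_left h2 _)
  rw [h3, Finset.sum_congr rfl fun i _ => ph_finset (T i) a s hs, Finset.sum_comm,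
    ← Finset.sum_add_distrib]
  refine Finset.sum_le_sum fun P _ => ?_
  have h0 : ∀ i, 0 ≤ if P ∈ T i then max (-P.ord a) 0 else 0 := fun i => by
    split_ifs
    · exact le_max_right _ _
    · exact le_rfl
  have h0' := Finset.sum_nonneg fun i (_ : i ∈ Finset.univ) => h0 i
  by_cases hP : P.ord a < 0
  · rw [if_pos hP]
    rcases h P hP with h4 | ⟨i, hi⟩
    · rw [if_pos h4]
      linarith
    · have h5 := Finset.single_le_sum (f := fun i => if P ∈ T i then max (-P.ord a) 0 else 0)
        (fun i _ => h0 i) (Finset.mem_univ i)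
      have h6 : (0 : ℤ) ≤ if P ∈ S then 1 else 0 := by split_ifs <;> norm_num
      rw [if_pos hi] at h5
      have h7 := le_max_left (-P.ord a) 0
      omega
  · rw [if_neg hP]
    have h6 : (0 : ℤ) ≤ if P ∈ S then 1 else 0 := by split_ifs <;> norm_num
    linarith

end ultra

section int

variable {B0 B Ω M : Type} [CommRing B0]
  [CommRing B] [Field Ω] [Field M] [Algebra B0 B] [Algebra B0 Ω]
  [Algebra B0 M] [Algebra B M] [Algebra Ω M] [IsScalarTower B0 B M]
  [IsScalarTower B0 Ω M]

/-- integrality in the ultraproduct -/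
theorem int_ultra (h : CurveFibres B0 B Ω M) {K0 : Type} [Field K0] (S0 : Subfield K0)
    (R : Subring K0) (hSR : ∀ s ∈ S0, s ∈ R) (Φ : B →+* K0) (hΦ : Function.Injective Φ)
    (h0 : ∀ b : B0, Φ (algebraMap B0 B b) ∈ S0) {J : Type} (s : J → B) (hs : ∀ j, Φ (s j) ∈ R)
    (b : B) (hint : IsIntegral (Algebra.adjoin Ω (Set.range fun j => algebraMap B M (s j)))
      (algebraMap B M b)) : IsIntegral R (Φ b) := by
  classical
  have hff := h.ff
  have hcl := h.closed
  have hdom : IsDomain B := h.inj.isDomain (algebraMap B M)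
  have hfaith : FaithfulSMul B M := (faithfulSMul_iff_algebraMap_injective _ _).2 h.inj
  have halgB : Algebra.IsAlgebraic B M := ⟨alg_BC h⟩
  obtain ⟨K, iK, iA, hclK, halgK⟩ : ∃ (K : Type) (_ : Field K) (_ : Algebra K0 K),
      IsAlgClosed K ∧ Algebra.IsAlgebraic K0 K :=
    ⟨AlgebraicClosure K0, inferInstance, inferInstance, inferInstance, inferInstance⟩
  let iBK : Algebra B K := ((algebraMap K0 K).comp Φ).toAlgebra
  have hBK : ∀ b : B, algebraMap B K b = algebraMap K0 K (Φ b) := fun b => rfl
  have hBKi : Function.Injective (algebraMap B K) := by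
    intro b b' hb
    rw [hBK, hBK] at hb
    exact hΦ ((algebraMap K0 K).injective hb)
  have hfaith' : FaithfulSMul B K := (faithfulSMul_iff_algebraMap_injective _ _).2 hBKi
  let ψ : M →ₐ[B] K := IsAlgClosed.lift
  have hψB : ∀ b : B, ψ (algebraMap B M b) = algebraMap K0 K (Φ b) := fun b => ψ.commutes b
  let C := integralClosure R K
  have hψΩ : ∀ c : Ω, ψ (algebraMap Ω M c) ∈ C := by
    intro c
    obtain ⟨p, hp0, hp⟩ := ((h.alg.isAlgebraic c).algebraMap : IsAlgebraic B0 (algebraMap Ω M c))
    let θ : B0 →+* S0 := (Φ.comp (algebraMap B0 B)).codRestrict S0 h0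
    have hθ : Function.Injective θ := by
      intro a b hab
      exact h.inj0 (hΦ (congrArg (fun y : S0 => (y : K0)) hab))
    have halg : IsAlgebraic S0 (ψ (algebraMap Ω M c)) := by
      refine ⟨p.map θ, ?_, ?_⟩
      · rwa [Ne, Polynomial.map_eq_zero_iff hθ]
      · rw [Polynomial.aeval_def, Polynomial.eval₂_map]
        rw [Polynomial.aeval_def] at hp
        have h1 := congrArg ψ hp
        rw [map_zero] at h1
        have h2 := Polynomial.hom_eval₂ p (algebraMap B0 M) (ψ : M →+* K) (algebraMap Ω M c)
        have h3 : ((ψ : M →+* K).comp (algebraMap B0 M)) =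
            (algebraMap S0 K).comp θ := by
          ext b
          change ψ (algebraMap B0 M b) = algebraMap K0 K (Φ (algebraMap B0 B b))
          rw [IsScalarTower.algebraMap_apply B0 B M, hψB]
        rw [h3] at h2
        exact h2.symm.trans h1
    obtain ⟨q, hq, he⟩ := halg.isIntegral
    let i0 : S0 →+* R := S0.subtype.codRestrict R (fun s => hSR s s.2)
    refine ⟨q.map i0, hq.map i0, ?_⟩
    rw [Polynomial.eval₂_map]
    exact he
  have hψa : ∀ y ∈ Algebra.adjoin Ω (Set.range fun j => algebraMap B M (s j)), ψ y ∈ C := by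
    intro y hy
    induction hy using Algebra.adjoin_induction with
    | mem y hy =>
      obtain ⟨j, rfl⟩ := hy
      change ψ (algebraMap B M (s j)) ∈ C
      rw [hψB]
      exact isIntegral_algebraMap (R := R) (A := K) (x := ⟨Φ (s j), hs j⟩)
    | algebraMap r => exact hψΩ r
    | add x y _ _ hx hy =>
      rw [map_add]
      exact C.add_mem hx hy
    | mul x y _ _ hx hy =>
      rw [map_mul]
      exact C.mul_mem hx hy
  let i : Algebra.adjoin Ω (Set.range fun j => algebraMap B M (s j)) →+* C :=
    ((ψ : M →+* K).comp (algebraMap _ M)).codRestrict C (fun x => hψa x x.2)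
  have h1 : IsIntegral C (ψ (algebraMap B M b)) := by
    obtain ⟨p, hp, he⟩ := hint
    refine ⟨p.map i, hp.map i, ?_⟩
    rw [Polynomial.eval₂_map]
    have h2 := congrArg ψ he
    rw [map_zero] at h2
    have h3 := Polynomial.hom_eval₂ p (algebraMap (Algebra.adjoin Ω
      (Set.range fun j => algebraMap B M (s j))) M) (ψ : M →+* K) (algebraMap B M b)
    exact h3.symm.trans h2
  have h2 : IsIntegral R (ψ (algebraMap B M b)) := isIntegral_trans (R := R) (A := C) _ h1
  rw [hψB] at h2
  exact (isIntegral_algebraMap_iff (algebraMap K0 K).injective).1 h2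

end int

section main

variable {k B0 B Ω M : Type} [Field k] [IsAlgClosed k] [CharZero k] [CommRing B0]
  [CommRing B] [Field Ω] [Field M] [Algebra k B0] [Algebra k B] [Algebra B0 B] [Algebra B0 Ω]
  [Algebra B0 M] [Algebra B M] [Algebra Ω M] [IsScalarTower k B0 B] [IsScalarTower B0 B M]
  [IsScalarTower B0 Ω M]

/-- **The relative height inequality with the number of the places at which the point meets the
cusps.** The function `b` has poles at the cusps; for each `i` it is integral over the functions
`s i j`, and the point meets the cusps where for each `i` one of these functions has a pole. -/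
theorem rel_gens_meet (h : CurveFibres B0 B Ω M) {N : ℕ} (x : Fin N → B)
    (hx : Algebra.adjoin k (Set.range x) = ⊤) {m : ℕ} (a : Fin m → B0)
    (ha : Algebra.adjoin k (Set.range a) = ⊤) (b : B)
    (hpos : 0 < canDeg Ω M + npo Ω (algebraMap B M b)) {ι J : Type} [Fintype ι] [Nonempty ι]
    [Fintype J] (s : ι → J → B) (hint : ∀ i, IsIntegral (Algebra.adjoin Ω
      (Set.range fun j => algebraMap B M (s i j))) (algebraMap B M b)) :
    ∃ g : B, g ≠ 0 ∧ ∃ A : ℕ, ∀ (E : Type) [Field E] [Algebra k E] [IsFF k E]
      (φ : B →ₐ[k] E), φ g ≠ 0 → ∑ l, hgt k (φ (x l)) ≤ A * (max (canDeg k E) 0 +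
          {P : Place k E | ∀ i, ∃ j, P.ord (φ (s i j)) < 0}.ncard +
          ∑ j, hgt k (φ (algebraMap B0 B (a j)))) := by
  classical
  by_contra hcon
  push Not at hcon
  have hff := h.ff
  have hcl := h.closed
  have hdom : IsDomain B := h.inj.isDomain (algebraMap B M)
  obtain ⟨U, hU⟩ := exists_ultra B
  have key : ∀ i : ({g : B // g ≠ 0} × ℕ), ∃ (E : Type) (_ : Field E) (_ : Algebra k E)
      (_ : IsFF k E) (φ : B →ₐ[k] E), φ i.1.1 ≠ 0 ∧ i.2 * (max (canDeg k E) 0 +
          {P : Place k E | ∀ i, ∃ j, P.ord (φ (s i j)) < 0}.ncard +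
          ∑ j, hgt k (φ (algebraMap B0 B (a j)))) < ∑ l, hgt k (φ (x l)) :=
    fun i => by
      obtain ⟨E, i1, i2, i3, φ, h1, h2⟩ := hcon i.1.1 i.1.2 i.2
      exact ⟨E, i1, i2, i3, φ, h1, h2⟩
  choose E iE1 iE2 iE3 φ hφ0 hφ using key
  let Mt : ∀ n : ({g : B // g ≠ 0} × ℕ), Set (Place k (E n)) := fun n =>
    {P : Place k (E n) | ∀ i, ∃ j, P.ord (φ n (s i j)) < 0}
  let χ : ({g : B // g ≠ 0} × ℕ) → ℤ := fun i => max (canDeg k (E i)) 0 + (Mt i).ncard +
    ∑ j, hgt k (φ i (algebraMap B0 B (a j)))
  have hsum0 : ∀ i, 0 ≤ ∑ j, hgt k (φ i (algebraMap B0 B (a j))) := fun i =>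
    Finset.sum_nonneg fun _ _ => hgt_nonneg _
  have hnpo0 : ∀ i, (0 : ℤ) ≤ (Mt i).ncard := fun i => Int.natCast_nonneg _
  have hχ : ∀ i, max (canDeg k (E i)) 0 ≤ χ i := fun i => by
    have h1 := hsum0 i
    have h2 := hnpo0 i
    change max (canDeg k (E i)) 0 ≤ max (canDeg k (E i)) 0 + (Mt i).ncard + _
    linarith
  have hχN : ∀ i, ((Mt i).ncard : ℤ) ≤ χ i := fun i => by
    have h1 := hsum0 i
    have h2 : (0 : ℤ) ≤ max (canDeg k (E i)) 0 := le_max_right _ _
    change ((Mt i).ncard : ℤ) ≤ max (canDeg k (E i)) 0 + (Mt i).ncard + _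
    linarith
  have hχ0 : ∀ i, 0 ≤ χ i := fun i => (le_max_right _ _).trans (hχ i)
  let Φ : B →+* UP U E :=
    { toFun := fun b => um U fun i => φ i b
      map_one' := by
        rw [← um_one]
        congr 1
        funext i
        rw [map_one]
      map_mul' := by
        intro b c
        rw [← um_mul]
        congr 1
        funext i
        rw [map_mul]
      map_zero' := by
        rw [← um_zero]
        congr 1
        funext i
        rw [map_zero]
      map_add' := by
        intro b c
        rw [← um_add]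
        congr 1
        funext i
        rw [map_add] }
  have hΦ : ∀ b, Φ b = um U fun i => φ i b := fun b => rfl
  have hΦi : Function.Injective Φ := by
    rw [injective_iff_map_eq_zero]
    intro b hb
    by_contra hb0
    rw [hΦ, um_zero_iff] at hb
    obtain ⟨i, h1, h2, -⟩ := (hb.and (hU b hb0 0)).exists
    obtain ⟨c, hc⟩ := h2
    apply hφ0 i
    rw [hc, map_mul, h1, zero_mul]
  have h0 : ∀ b : B0, Φ (algebraMap B0 B b) ∈ small k U χ := by
    intro b
    have hb : b ∈ Algebra.adjoin k (Set.range a) := by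
      rw [ha]
      exact Algebra.mem_top
    induction hb using Algebra.adjoin_induction with
    | mem y hy =>
      obtain ⟨j, rfl⟩ := hy
      rw [hΦ, mem_small]
      refine ⟨1, Eventually.of_forall fun i => ?_⟩
      have h1 : hgt k (φ i (algebraMap B0 B (a j))) ≤
          ∑ j, hgt k (φ i (algebraMap B0 B (a j))) :=
        Finset.single_le_sum (f := fun j => hgt k (φ i (algebraMap B0 B (a j))))
          (fun _ _ => hgt_nonneg _) (Finset.mem_univ j)
      have h2 : (0 : ℤ) ≤ max (canDeg k (E i)) 0 := le_max_right _ _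
      have h3 := hnpo0 i
      change _ ≤ ((1 : ℕ) : ℤ) * (max (canDeg k (E i)) 0 + _ + _)
      push_cast
      linarith
    | algebraMap c =>
      rw [← IsScalarTower.algebraMap_apply k B0 B]
      have h1 : Φ (algebraMap k B c) = algebraMap k (UP U E) c := by
        rw [hΦ, ← um_alg]
        congr 1
        funext i
        rw [AlgHom.commutes]
      rw [h1]
      exact alg_small c
    | add x y _ _ hx hy =>
      rw [map_add, map_add]
      exact add_mem hx hy
    | mul x y _ _ hx hy =>
      rw [map_mul, map_mul]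
      exact mul_mem hx hy
  obtain ⟨l, hl⟩ : ∃ l, Φ (x l) ∉ small k U χ := by
    by_contra hc
    push Not at hc
    have h1 : ∀ l, ∃ B : ℕ, ∀ᶠ i in (U : Filter _), hgt k (φ i (x l)) ≤ B * χ i := by
      intro l
      have h2 := hc l
      rw [hΦ, mem_small] at h2
      exact h2
    choose C hC using h1
    have h2 : ∀ᶠ i in (U : Filter _), ∀ l ∈ (Finset.univ : Finset (Fin N)),
        hgt k (φ i (x l)) ≤ C l * χ i := (Filter.eventually_all_finset _).2 fun l _ => hC l
    obtain ⟨i, h3, -, h4⟩ := (h2.and (hU 1 one_ne_zero (∑ l, C l))).exists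
    have h5 := hφ i
    have h6 := Finset.sum_le_sum fun l (hl : l ∈ (Finset.univ : Finset (Fin N))) => h3 l hl
    rw [← Finset.sum_mul] at h6
    have h7 : ((∑ l, C l : ℕ) : ℤ) ≤ i.2 := by exact_mod_cast h4
    have h8 := mul_le_mul_of_nonneg_right h7 (hχ0 i)
    push_cast at h8
    change (i.2 : ℤ) * χ i < _ at h5
    linarith
  have hcZ : CharZero (UP U E) := charZero_of_injective_algebraMap (algebraMap k (UP U E)).injective
  by_cases hb : Transcendental Ω (algebraMap B M b)
  · by_cases hbS : Φ b ∈ small k U χ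
    · exact hl (small_closed (alg_over h _ Φ hΦi h0 b hb hbS (x l)))
    · -- the number of the poles
      let T : ι → ∀ n : ({g : B // g ≠ 0} × ℕ), Set (Place k (E n)) := fun i n =>
        {P : Place k (E n) | ∀ j, 0 ≤ P.ord (φ n (s i j))}
      have hT : ∀ i, ∃ C : ℕ, ∀ᶠ n in (U : Filter _), ph (T i n) (φ n b) ≤ C * χ n := by
        intro i
        have h1 := int_ultra h (small k U χ) (RT U χ (T i)) (fun s hs => small_le_RT hs) Φ hΦi h0
          (s i) (fun j => by
            rw [hΦ, mem_RT]
            refine ⟨0, Eventually.of_forall fun n => ?_⟩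
            rw [ph_zero_of _ _ fun P (hP : P ∈ T i n) => by
              have h2 : ∀ j, 0 ≤ P.ord (φ n (s i j)) := hP
              exact h2 j]
            simp) b (hint i)
        have h2 := RT_int h1
        rwa [hΦ, mem_RT] at h2
      choose C hC using hT
      have hCall : ∀ᶠ n in (U : Filter _), ∀ i ∈ (Finset.univ : Finset ι),
          ph (T i n) (φ n b) ≤ C i * χ n := (Filter.eventually_all_finset _).2 fun i _ => hC i
      have hN : ∀ᶠ n in (U : Filter _), (npo k (φ n b) : ℤ) ≤ ((1 + ∑ i, C i : ℕ) : ℤ) * χ n := by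
        filter_upwards [hCall] with n hn
        have hfin : (Mt n).Finite := by
          obtain ⟨i0⟩ := ‹Nonempty ι›
          have h1 : (⋃ j : J, {P : Place k (E n) | P.ord (φ n (s i0 j)) ≠ 0}).Finite :=
            Set.finite_iUnion fun j => finite_support (k := k) (φ n (s i0 j))
          refine h1.subset fun P hP => ?_
          have h2 : ∀ i, ∃ j, P.ord (φ n (s i j)) < 0 := hP
          obtain ⟨j, hj⟩ := h2 i0
          exact Set.mem_iUnion.2 ⟨j, hj.ne⟩
        have h1 := npo_le (k := k) (φ n b) (Mt n) hfin (fun i => T i n) fun P _ => by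
          by_cases h2 : P ∈ Mt n
          · exact Or.inl h2
          · right
            have h3 : ¬ ∀ i, ∃ j, P.ord (φ n (s i j)) < 0 := h2
            push Not at h3
            obtain ⟨i, hi⟩ := h3
            exact ⟨i, hi⟩
        have h2 := Finset.sum_le_sum fun i (hi : i ∈ (Finset.univ : Finset ι)) => hn i hi
        rw [← Finset.sum_mul] at h2
        have h3 := hχN n
        push_cast
        linarith
      obtain ⟨D0, R0, R1, hpre, hlog⟩ := exists_preL (k := k) (U := U) χ hχ
        (fun i => φ i b) hN hbS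
      exact no_point_auxL (AlgebraicClosure (UP U E)) h x hx hpre Φ hΦi h0 hlog b rfl hpos
  · -- the function is constant
    have hb' : IsAlgebraic Ω (algebraMap B M b) := by
      unfold Transcendental at hb
      rwa [not_not] at hb
    have h1 : npo Ω (algebraMap B M b) = 0 := by
      have h2 := IsAlgClosed.degree_eq_one_of_irreducible Ω (minpoly.irreducible hb'.isIntegral)
      obtain ⟨c, hc⟩ := minpoly.mem_range_of_degree_eq_one Ω _ h2
      unfold npo
      have h3 : {P : Place Ω M | P.ord (algebraMap B M b) < 0} = ∅ := by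
        rw [Set.eq_empty_iff_forall_notMem]
        intro P hP
        have hP' : P.ord (algebraMap B M b) < 0 := hP
        rw [← hc] at hP'
        by_cases hc0 : c = 0
        · rw [hc0, map_zero, P.ord_zero] at hP'
          omega
        · rw [P.ord_const hc0] at hP'
          omega
      rw [h3, Set.ncard_empty]
    rw [h1] at hpos
    have hG : GenusFibres B0 B Ω M :=
      { inj0 := h.inj0
        inj := h.inj
        alg := h.alg
        closed := h.closed
        ff := h.ff
        gen := h.gen
        pos := by simpa using hpos }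
    obtain ⟨D0, R0, R1, hpre⟩ := exists_pre (k := k) (U := U) χ hχ _ hl
    exact no_point hG x hx hpre Φ hΦi h0 ⟨x l, rfl⟩

end main

end Pool.Agent.H916
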