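import Pool.Agent.H916.RatRing
import Pool.Agent.H916.Glob

/-! The relative height inequality for rational maps between projective varieties. -/

set_option autoImplicit false
set_option linter.overlappingInstances false
set_option linter.unusedSectionVars false

open FF Pool.Agent.W603.LV Pool.Agent.W603.PV MvPolynomial
open Pool.Agent.W602.GT (val IsForm VarPts coords val_smul)
open Pool.Agent.Y216 (OnVar)

namespace Pool.Agent.H916

/-- The geometric generic fibre of the variety with function field `K` over the variety with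
function field `C` is (birational to) a curve of genus at least two, or the relative dimension is
zero. -/
def HypFibres {k K : Type} [Field k] [Field K] [Algebra k K] (C : IntermediateField k K) : Prop :=
  Algebra.IsAlgebraic C K ∨
  ∃ (Ω F : Type) (_ : Field Ω) (_ : Field F) (_ : Algebra C Ω) (_ : Algebra Ω F)
    (_ : Algebra K F), (∀ c : C, algebraMap K F c = algebraMap Ω F (algebraMap C Ω c)) ∧
    FibreField C K Ω F ∧ IsFF Ω F ∧ 0 < canDeg Ω F

variable {k : Type} [Field k] [IsAlgClosed k] [CharZero k] {M N : ℕ} {K : Type} [Field K]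
  [Algebra k K]

/-- the ring-theoretic form -/
theorem ring_ineq {B : Type} [CommRing B] [Algebra k B] [Algebra B K] [IsScalarTower k B K]
    (hinj : Function.Injective (algebraMap B K)) {xh : Fin (M + 1) → B} {η : Fin (N + 1) → B}
    {n : ℕ} {z : Fin n → B} (hz : Algebra.adjoin k (Set.range z) = ⊤) (hzx : ∀ i, ∃ l, z l = xh i)
    (hgx : IntermediateField.adjoin k (Set.range fun i => algebraMap B K (xh i)) = ⊤)
    {C : IntermediateField k K}
    (hC : IntermediateField.adjoin k (Set.range fun j => algebraMap B K (η j)) = C)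
    (hfib : HypFibres C) :
    ∃ g : B, g ≠ 0 ∧ ∃ A : ℕ, ∀ (E : Type) [Field E] [Algebra k E] [IsFF k E]
      (φ : B →ₐ[k] E), φ g ≠ 0 → ∑ i, hgt k (φ (xh i)) ≤ A * (max (canDeg k E) 0 +
          ∑ j, hgt k (φ (η j))) := by
  classical
  have hdom : IsDomain B := hinj.isDomain (algebraMap B K)
  let B0 : Subalgebra k B := Algebra.adjoin k (Set.range η)
  have hη : ∀ j, η j ∈ B0 := fun j => Algebra.subset_adjoin ⟨j, rfl⟩
  -- the map to the function field of the base
  have hBC : ∀ b : B0, algebraMap B K b ∈ C := by
    rintro ⟨b, hb⟩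
    change algebraMap B K b ∈ C
    have hb' : b ∈ Algebra.adjoin k (Set.range η) := hb
    rw [Algebra.adjoin_range_eq_range_aeval] at hb'
    obtain ⟨p, rfl⟩ := hb'
    change algebraMap B K (aeval η p) ∈ C
    rw [← MvPolynomial.aeval_algebraMap_apply, ← hC]
    have h1 : (aeval (fun j => algebraMap B K (η j)) p : K) ∈ Algebra.adjoin k
        (Set.range fun j => algebraMap B K (η j)) := by
      rw [Algebra.adjoin_range_eq_range_aeval]
      exact ⟨p, rfl⟩
    exact IntermediateField.algebra_adjoin_le_adjoin _ _ h1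
  let ι : B0 →+* C := ((algebraMap B K).comp (algebraMap B0 B)).codRestrict C.toSubfield.toSubring
    hBC
  have hι : ∀ b : B0, ((ι b : C) : K) = algebraMap B K b := fun b => rfl
  let iB0C : Algebra B0 C := ι.toAlgebra
  have hιinj : Function.Injective (algebraMap B0 C) := by
    intro a b hab
    have h1 : algebraMap B K a = algebraMap B K b := by
      rw [← hι, ← hι]
      exact congrArg (fun c : C => (c : K)) hab
    exact Subtype.ext (hinj h1)
  have halgC : Algebra.IsAlgebraic B0 C := by
    refine ⟨fun c => ?_⟩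
    obtain ⟨c, hc⟩ := c
    have hc' := hc
    rw [← hC, IntermediateField.mem_adjoin_range_iff] at hc'
    obtain ⟨p, q, hpq⟩ := hc'
    have hp : ∀ p : MvPolynomial (Fin (N + 1)) k, ∃ b : B0, ((ι b : C) : K) =
        aeval (fun j => algebraMap B K (η j)) p := by
      intro p
      refine ⟨⟨aeval η p, ?_⟩, ?_⟩
      · change aeval η p ∈ Algebra.adjoin k (Set.range η)
        rw [Algebra.adjoin_range_eq_range_aeval]
        exact ⟨p, rfl⟩
      · rw [hι]
        change algebraMap B K (aeval η p) = _
        rw [← MvPolynomial.aeval_algebraMap_apply]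
        rfl
    obtain ⟨a, ha⟩ := hp p
    obtain ⟨b, hb⟩ := hp q
    by_cases hb0 : b = 0
    · have h1 : (⟨c, hc⟩ : C) = 0 := by
        apply Subtype.ext
        change c = 0
        rw [hpq, ← hb, hb0, map_zero]
        simp
      rw [h1]
      exact isAlgebraic_zero
    · have hιb : ((ι b : C) : K) ≠ 0 := by
        intro h0
        apply hb0
        apply hιinj
        rw [map_zero]
        exact Subtype.ext h0
      refine ⟨Polynomial.C b * Polynomial.X - Polynomial.C a, ?_, ?_⟩
      · intro h0
        have h1 := congrArg (fun P => P.coeff 1) h0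
        simp only [Polynomial.coeff_sub, Polynomial.coeff_C_mul, Polynomial.coeff_X_one, mul_one,
          Polynomial.coeff_C_succ, sub_zero, Polynomial.coeff_zero] at h1
        exact hb0 h1
      · rw [map_sub, map_mul, Polynomial.aeval_C, Polynomial.aeval_C, Polynomial.aeval_X]
        apply Subtype.ext
        change ((ι b : C) : K) * c - ((ι a : C) : K) = 0
        rw [ha, hpq, ← hb, mul_div_cancel₀ _ hιb, sub_self]
  rcases hfib with halg | ⟨Ω, F, iΩ, iF, iCΩ, iΩF, iKF, hcomm, hF, hff, hpos⟩
  · -- relative dimension zero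
    have h1 : ∀ i, IsAlgebraic (Algebra.adjoin k (Set.range η)) (xh i) := by
      intro i
      have h2 : IsAlgebraic C (algebraMap B K (xh i)) := halg.isAlgebraic _
      have t0 : IsScalarTower B0 C K := IsScalarTower.of_algebraMap_eq fun b => rfl
      have h3 : IsAlgebraic B0 (algebraMap B K (xh i)) := h2.restrictScalars B0
      have t3 : IsScalarTower B0 B K := IsScalarTower.of_algebraMap_eq fun b => rfl
      exact (isAlgebraic_algebraMap_iff hinj).1 h3
    choose g hg Cc hCc using fun i => hgt_alg (k := k) η (h1 i)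
    refine ⟨∏ i, g i, Finset.prod_ne_zero_iff.2 fun i _ => hg i, ∑ i, Cc i,
      fun E _ _ _ φ hφ => ?_⟩
    rw [map_prod, Finset.prod_ne_zero_iff] at hφ
    push_cast
    rw [Finset.sum_mul]
    refine Finset.sum_le_sum fun i _ => ?_
    refine (hCc i E φ (hφ i (Finset.mem_univ i))).trans ?_
    have h3 : (0 : ℤ) ≤ Cc i := Int.natCast_nonneg _
    have h4 : (0 : ℤ) ≤ max (canDeg k E) 0 := le_max_right _ _
    nlinarith
  · have hCinj : Function.Injective (algebraMap B0 B) := Subtype.val_injective
    let iBF : Algebra B F := ((algebraMap K F).comp (algebraMap B K)).toAlgebra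
    let iB0Ω : Algebra B0 Ω := ((algebraMap C Ω).comp (algebraMap B0 C)).toAlgebra
    have s2 : IsScalarTower B0 C Ω := IsScalarTower.of_algebraMap_eq fun b => rfl
    have s3 : IsScalarTower B0 B F := inferInstance
    have s1 : IsScalarTower B0 Ω F := IsScalarTower.of_algebraMap_eq fun b => by
      exact hcomm (ι b)
    have hCalg : Algebra.IsAlgebraic C Ω := hF.alg
    have hG : GenusFibres B0 B Ω F :=
      { inj0 := hCinj
        inj := by
          change Function.Injective ((algebraMap K F).comp (algebraMap B K))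
          exact (algebraMap K F).injective.comp hinj
        alg := Algebra.IsAlgebraic.trans B0 C Ω
        closed := hF.closed
        ff := hff
        gen := by
          rw [eq_top_iff, ← hF.gen, IntermediateField.adjoin_le_iff]
          rintro _ ⟨u, rfl⟩
          have hu : u ∈ IntermediateField.adjoin k (Set.range fun i => algebraMap B K (xh i)) := by
            rw [hgx]
            exact IntermediateField.mem_top
          induction hu using IntermediateField.adjoin_induction with
          | mem v hv =>
            obtain ⟨i, rfl⟩ := hv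
            exact IntermediateField.subset_adjoin _ _ ⟨xh i, rfl⟩
          | algebraMap c =>
            refine IntermediateField.subset_adjoin _ _ ⟨algebraMap k B c, ?_⟩
            change algebraMap K F (algebraMap B K (algebraMap k B c)) = _
            rw [← IsScalarTower.algebraMap_apply k B K]
          | add a b _ _ ha hb =>
            rw [map_add]
            exact add_mem ha hb
          | inv a _ ha =>
            rw [map_inv₀]
            exact inv_mem ha
          | mul a b _ _ ha hb =>
            rw [map_mul]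
            exact mul_mem ha hb
        pos := hpos }
    let η0 : Fin (N + 1) → B0 := fun j => ⟨η j, hη j⟩
    have hη0 : Algebra.adjoin k (Set.range η0) = ⊤ := by
      apply Subalgebra.map_injective (f := B0.val) Subtype.val_injective
      rw [AlgHom.map_adjoin, Algebra.map_top, Subalgebra.range_val, ← Set.range_comp]
      rfl
    obtain ⟨g, hg, A, hA⟩ := rel_gens (k := k) hG z hz η0 hη0
    refine ⟨g, hg, (M + 1) * A, fun E _ _ _ φ hφ => ?_⟩
    have h1 := hA E φ hφ
    choose l hl using hzx
    have h2 : ∀ i, hgt k (φ (xh i)) ≤ ∑ l, hgt k (φ (z l)) := by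
      intro i
      rw [← hl i]
      exact Finset.single_le_sum (f := fun l => hgt k (φ (z l))) (fun _ _ => hgt_nonneg _)
        (Finset.mem_univ (l i))
    calc ∑ i, hgt k (φ (xh i)) ≤ ∑ _i : Fin (M + 1), ∑ l, hgt k (φ (z l)) :=
          Finset.sum_le_sum fun i _ => h2 i
      _ = (M + 1) * ∑ l, hgt k (φ (z l)) := by
          rw [Finset.sum_const, Finset.card_univ, Fintype.card_fin, nsmul_eq_mul]
          push_cast
          rfl
      _ ≤ (M + 1) * (A * (max (canDeg k E) 0 + ∑ j, hgt k (φ (algebraMap B0 B (η0 j))))) :=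
          mul_le_mul_of_nonneg_left h1 (by positivity)
      _ = (((M + 1) * A : ℕ) : ℤ) * (max (canDeg k E) 0 + ∑ j, hgt k (φ (η j))) := by
          push_cast
          rw [← mul_assoc]
          rfl

/-- **The relative height inequality for rational maps.** -/
theorem rel_rat {x : Fin (M + 1) → K} {i0 : Fin (M + 1)} (hx : x i0 ≠ 0) (hgen : coords k x = ⊤)
    {y : Fin (N + 1) → K} {e : ℕ} {H : Fin (N + 1) → MvPolynomial (Fin (M + 1)) k}
    (hH : ∀ j, (H j).IsHomogeneous e) {j0 : Fin (N + 1)} (hy : y j0 ≠ 0)
    (hj0 : aeval x (H j0) ≠ 0) (hyH : ∀ j, y j / y j0 = aeval x (H j) / aeval x (H j0))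
    (hfib : HypFibres (coords k y)) :
    ∃ G : MvPolynomial (Fin (M + 1)) k, IsForm G ∧ val x G ≠ 0 ∧ ∃ A : ℕ,
      ∀ (E : Type) [Field E] [Algebra k E] [IsFF k E] (f : Fin (M + 1) → E), OnVar k x f →
        val f G ≠ 0 → f i0 ≠ 0 ∧ aeval f (H j0) ≠ 0 ∧
          pht k f ≤ A * (max (canDeg k E) 0 + pht k fun j => aeval f (H j)) := by
  classical
  obtain ⟨B, i1, i2, i3, i4, xh, η, n, z, hinj, hxh, hη, hzx, hz, hB⟩ :=
    exists_ring (k := k) hx hH hj0
  obtain ⟨g, hg, A, hA⟩ := ring_ineq (k := k) hinj (xh := xh) (η := η) hz hzx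
    (by
      rw [← hgen, coords_eq hx]
      congr 2
      funext i
      exact hxh i)
    (C := coords k y) (by
      rw [coords_eq hy]
      congr 2
      funext j
      rw [hη, hyH]) hfib
  obtain ⟨G, hGf, hGx, hG⟩ := hB g hg
  refine ⟨G, hGf, hGx, A * (N + 1), fun E _ _ _ f hf hfG => ?_⟩
  obtain ⟨hfi, hfj, φ, hφg, hφx, hφη⟩ := hG E f hf hfG
  refine ⟨hfi, hfj, ?_⟩
  have h1 := hA E φ hφg
  rw [Finset.sum_congr rfl fun i _ => congrArg (hgt k) (hφx i),
    Finset.sum_congr rfl fun j _ => congrArg (hgt k) (hφη j)] at h1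
  have h2 := pht_le (k := k) f hfi
  have hynn : 0 ≤ pht k fun j => aeval f (H j) := by
    have h4 := Pool.Agent.W603.CX.hgt_le_pht (k := k) (fun j => aeval f (H j)) hfj hfj
    exact (hgt_nonneg _).trans h4
  have h4 : ∀ l, hgt k (aeval f (H l) / aeval f (H j0)) ≤ pht k fun j => aeval f (H j) := by
    intro l
    by_cases hl : aeval f (H l) = 0
    · rw [hl, zero_div, hgt_zero]
      exact hynn
    · exact Pool.Agent.W603.CX.hgt_le_pht (fun j => aeval f (H j)) hl hfj
  have h5 : ∑ j, hgt k (aeval f (H j) / aeval f (H j0)) ≤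
      (N + 1) * pht k fun j => aeval f (H j) := by
    refine (Finset.sum_le_sum fun j _ => h4 j).trans ?_
    rw [Finset.sum_const, Finset.card_univ, Fintype.card_fin, nsmul_eq_mul]
    push_cast
    exact le_rfl
  have hm : (0 : ℤ) ≤ max (canDeg k E) 0 := le_max_right _ _
  have h6 : max (canDeg k E) 0 + ∑ j, hgt k (aeval f (H j) / aeval f (H j0)) ≤
      (N + 1) * (max (canDeg k E) 0 + pht k fun j => aeval f (H j)) := by
    have e1 : (0 : ℤ) ≤ N := Int.natCast_nonneg _
    nlinarith
  calc pht k f ≤ ∑ l, hgt k (f l / f i0) := h2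
    _ ≤ A * (max (canDeg k E) 0 + ∑ j, hgt k (aeval f (H j) / aeval f (H j0))) := h1
    _ ≤ A * ((N + 1) * (max (canDeg k E) 0 + pht k fun j => aeval f (H j))) :=
        mul_le_mul_of_nonneg_left h6 (Int.natCast_nonneg _)
    _ = ((A * (N + 1) : ℕ) : ℤ) * (max (canDeg k E) 0 + pht k fun j => aeval f (H j)) := by
        push_cast
        ring

end Pool.Agent.H916
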