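import Pool.Agent.H916.LPole
import Pool.Agent.H916.RatRel

/-! The relative height inequality for curves with cusps, for rings of functions. -/

set_option autoImplicit false
set_option linter.overlappingInstances false
set_option linter.unusedSectionVars false

open FF Pool.Agent.W603.LV Pool.Agent.W603.PV MvPolynomial

namespace Pool.Agent.H916

variable {k : Type} [Field k] [IsAlgClosed k] [CharZero k] {K : Type}
  [Field K] [Algebra k K]

/-- The geometric generic fibre of the variety with function field `K` over the variety with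
function field `C` is a curve, and this curve without the places at which, for each `i`, one of the
functions `s i j` has a pole is hyperbolic, or the relative dimension is zero. -/
def LogHypFibres {K : Type} [Field K] (C : Subfield K) {ι J : Type} (s : ι → J → K) : Prop :=
  Algebra.IsAlgebraic C K ∨
  ∃ (Ω F : Type) (_ : Field Ω) (_ : Field F) (_ : Algebra C Ω) (_ : Algebra Ω F)
    (_ : Algebra K F), (∀ c : C, algebraMap K F c = algebraMap Ω F (algebraMap C Ω c)) ∧
    FibreField C K Ω F ∧ IsFF Ω F ∧ 0 < canDeg Ω F +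
      {P : Place Ω F | ∀ i, ∃ j, P.ord (algebraMap K F (s i j)) < 0}.ncard

section base

variable {B : Type} [CommRing B] [Algebra k B] [Algebra B K] [IsScalarTower k B K]

/-- the field of functions of the base -/
theorem base_alg (hinj : Function.Injective (algebraMap B K)) {m : ℕ} {η : Fin m → B}
    {C : Subfield K} (hC : C = (IntermediateField.adjoin k
      (Set.range fun j => algebraMap B K (η j))).toSubfield) :
    ∃ ι : Algebra.adjoin k (Set.range η) →+* C, (∀ b, ((ι b : C) : K) = algebraMap B K b) ∧
      Function.Injective ι ∧ ∀ c : C, ∃ a b : Algebra.adjoin k (Set.range η), b ≠ 0 ∧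
        (ι b : C) * c = ι a := by
  classical
  have hdom : IsDomain B := hinj.isDomain (algebraMap B K)
  have hmem : ∀ x : K, x ∈ C ↔ x ∈ IntermediateField.adjoin k
      (Set.range fun j => algebraMap B K (η j)) := fun x => by
    rw [hC]
    exact Iff.rfl
  have hBC : ∀ b : Algebra.adjoin k (Set.range η), algebraMap B K b ∈ C := by
    rintro ⟨b, hb⟩
    change algebraMap B K b ∈ C
    rw [Algebra.adjoin_range_eq_range_aeval] at hb
    obtain ⟨p, rfl⟩ := hb
    change algebraMap B K (aeval η p) ∈ C
    rw [← MvPolynomial.aeval_algebraMap_apply, hmem]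
    have h1 : (aeval (fun j => algebraMap B K (η j)) p : K) ∈ Algebra.adjoin k
        (Set.range fun j => algebraMap B K (η j)) := by
      rw [Algebra.adjoin_range_eq_range_aeval]
      exact ⟨p, rfl⟩
    exact IntermediateField.algebra_adjoin_le_adjoin _ _ h1
  let ι : Algebra.adjoin k (Set.range η) →+* C :=
    ((algebraMap B K).comp (algebraMap (Algebra.adjoin k (Set.range η)) B)).codRestrict C hBC
  have hι : ∀ b, ((ι b : C) : K) = algebraMap B K b := fun b => rfl
  have hιinj : Function.Injective ι := by
    intro a b hab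
    have h1 : algebraMap B K a = algebraMap B K b := by
      rw [← hι, ← hι]
      exact congrArg (fun c : C => (c : K)) hab
    exact Subtype.ext (hinj h1)
  refine ⟨ι, hι, hιinj, ?_⟩
  rintro ⟨c, hc⟩
  have hc' := hc
  rw [hmem, IntermediateField.mem_adjoin_range_iff] at hc'
  obtain ⟨p, q, hpq⟩ := hc'
  have hp : ∀ p : MvPolynomial (Fin m) k, ∃ b : Algebra.adjoin k (Set.range η),
      ((ι b : C) : K) = aeval (fun j => algebraMap B K (η j)) p := by
    intro p
    refine ⟨⟨aeval η p, ?_⟩, ?_⟩
    · rw [Algebra.adjoin_range_eq_range_aeval]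
      exact ⟨p, rfl⟩
    · rw [hι]
      change algebraMap B K (aeval η p) = _
      rw [← MvPolynomial.aeval_algebraMap_apply]
      rfl
  obtain ⟨a, ha⟩ := hp p
  obtain ⟨b, hb⟩ := hp q
  by_cases hb0 : b = 0
  · refine ⟨0, 1, one_ne_zero, ?_⟩
    have h1 : (⟨c, hc⟩ : C) = 0 := by
      apply Subtype.ext
      change c = 0
      rw [hpq, ← hb, hb0, map_zero]
      simp
    rw [h1, map_one, map_zero, one_mul]
  · refine ⟨a, b, hb0, ?_⟩
    have hιb : ((ι b : C) : K) ≠ 0 := by
      intro h0
      apply hb0
      apply hιinj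
      rw [map_zero]
      exact Subtype.ext h0
    apply Subtype.ext
    change ((ι b : C) : K) * c = ((ι a : C) : K)
    rw [ha, hpq, ← hb, mul_div_cancel₀ _ hιb]

/-- The ring-theoretic form, for rings of finite type. -/
theorem ring_log (hinj : Function.Injective (algebraMap B K)) {n : ℕ} {w : Fin n → B}
    (hw : Algebra.adjoin k (Set.range w) = ⊤) {m : ℕ} {η : Fin m → B} {C : Subfield K}
    (hC : C = (IntermediateField.adjoin k
      (Set.range fun j => algebraMap B K (η j))).toSubfield)
    (hgen : IntermediateField.adjoin k (Set.range fun i => algebraMap B K (w i)) = ⊤)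
    {Ω F : Type} [Field Ω] [Field F] [Algebra C Ω] [Algebra Ω F] [Algebra K F]
    (hcomm : ∀ c : C, algebraMap K F c = algebraMap Ω F (algebraMap C Ω c))
    (hF : FibreField C K Ω F) (hff : IsFF Ω F) {ι J : Type} [Fintype ι] [Nonempty ι] [Fintype J]
    {s : ι → J → B} {z : B}
    (hint : ∀ i, IsIntegral (Algebra.adjoin Ω (Set.range fun j =>
      algebraMap K F (algebraMap B K (s i j)))) (algebraMap K F (algebraMap B K z)))
    (hpos : 0 < canDeg Ω F + npo Ω (algebraMap K F (algebraMap B K z))) :
    ∃ g : B, g ≠ 0 ∧ ∃ A : ℕ, ∀ (E : Type) [Field E] [Algebra k E] [IsFF k E]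
      (φ : B →ₐ[k] E), φ g ≠ 0 → ∑ l, hgt k (φ (w l)) ≤ A * (max (canDeg k E) 0 +
          {P : Place k E | ∀ i, ∃ j, P.ord (φ (s i j)) < 0}.ncard +
          ∑ j, hgt k (φ (η j))) := by
  classical
  have hdom : IsDomain B := hinj.isDomain (algebraMap B K)
  obtain ⟨ρ, hρ, hρinj, hfrac⟩ := base_alg (k := k) hinj hC
  let B0 : Subalgebra k B := Algebra.adjoin k (Set.range η)
  have hη : ∀ j, η j ∈ B0 := fun j => Algebra.subset_adjoin ⟨j, rfl⟩
  let iB0C : Algebra B0 C := ρ.toAlgebra
  have halgC : Algebra.IsAlgebraic B0 C := by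
    refine ⟨fun c => ?_⟩
    obtain ⟨a, b, hb0, hab⟩ := hfrac c
    refine ⟨Polynomial.C b * Polynomial.X - Polynomial.C a, ?_, ?_⟩
    · intro h0
      have h1 := congrArg (fun P => P.coeff 1) h0
      simp only [Polynomial.coeff_sub, Polynomial.coeff_C_mul, Polynomial.coeff_X_one, mul_one,
        Polynomial.coeff_C_succ, sub_zero, Polynomial.coeff_zero] at h1
      exact hb0 h1
    · rw [map_sub, map_mul, Polynomial.aeval_C, Polynomial.aeval_C, Polynomial.aeval_X]
      change (ρ b : C) * c - ρ a = 0
      rw [hab, sub_self]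
  have hCinj : Function.Injective (algebraMap B0 B) := Subtype.val_injective
  let iBF : Algebra B F := ((algebraMap K F).comp (algebraMap B K)).toAlgebra
  let iB0Ω : Algebra B0 Ω := ((algebraMap C Ω).comp (algebraMap B0 C)).toAlgebra
  have s2 : IsScalarTower B0 C Ω := IsScalarTower.of_algebraMap_eq fun b => rfl
  have s3 : IsScalarTower B0 B F := inferInstance
  have s1 : IsScalarTower B0 Ω F := IsScalarTower.of_algebraMap_eq fun b => by
    change algebraMap K F (algebraMap B K (b : B)) = _
    rw [← hρ]
    exact hcomm (ρ b)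
  have hCalg : Algebra.IsAlgebraic C Ω := hF.alg
  have hG : CurveFibres B0 B Ω F :=
    { inj0 := hCinj
      inj := by
        change Function.Injective ((algebraMap K F).comp (algebraMap B K))
        exact (algebraMap K F).injective.comp hinj
      alg := Algebra.IsAlgebraic.trans B0 C Ω
      closed := hF.closed
      ff := hff
      gen := by
        rw [eq_top_iff, ← hF.gen, IntermediateField.adjoin_le_iff]
        rintro _ ⟨u, rfl⟩
        have hu : u ∈ IntermediateField.adjoin k (Set.range fun i => algebraMap B K (w i)) := by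
          rw [hgen]
          exact IntermediateField.mem_top
        induction hu using IntermediateField.adjoin_induction with
        | mem v hv =>
          obtain ⟨i, rfl⟩ := hv
          exact IntermediateField.subset_adjoin _ _ ⟨w i, rfl⟩
        | algebraMap c =>
          refine IntermediateField.subset_adjoin _ _ ⟨algebraMap k B c, ?_⟩
          change algebraMap K F (algebraMap B K (algebraMap k B c)) = _
          rw [← IsScalarTower.algebraMap_apply k B K]
        | add a b _ _ ha hb =>
          rw [map_add]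
          exact add_mem ha hb
        | inv a _ ha =>
          rw [map_inv₀]
          exact inv_mem ha
        | mul a b _ _ ha hb =>
          rw [map_mul]
          exact mul_mem ha hb }
  let η0 : Fin m → B0 := fun j => ⟨η j, hη j⟩
  have hη0 : Algebra.adjoin k (Set.range η0) = ⊤ := by
    apply Subalgebra.map_injective (f := B0.val) Subtype.val_injective
    rw [AlgHom.map_adjoin, Algebra.map_top, Subalgebra.range_val, ← Set.range_comp]
    rfl
  exact rel_gens_meet (k := k) hG w hw η0 hη0 z hpos s hint

end base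

/-- The ring-theoretic form. -/
theorem ring_log' {R : Type} [CommRing R] [Algebra k R] [Algebra R K] [IsScalarTower k R K]
    (hinj : Function.Injective (algebraMap R K)) {n : ℕ} {w : Fin n → R}
    {m : ℕ} {η : Fin m → R} {C : Subfield K}
    (hC : C = (IntermediateField.adjoin k
      (Set.range fun j => algebraMap R K (η j))).toSubfield)
    (hgen : IntermediateField.adjoin k (Set.range fun i => algebraMap R K (w i)) = ⊤)
    {ι J : Type} [Fintype ι] [Nonempty ι] [Fintype J] {s : ι → J → R} {z : R}
    (hη : ∀ j, ∃ l, w l = η j) (hsw : ∀ i j, ∃ l, w l = s i j) (hzw : ∃ l, w l = z)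
    (h : Algebra.IsAlgebraic C K ∨
      ∃ (Ω F : Type) (_ : Field Ω) (_ : Field F) (_ : Algebra C Ω) (_ : Algebra Ω F)
      (_ : Algebra K F), (∀ c : C, algebraMap K F c = algebraMap Ω F (algebraMap C Ω c)) ∧
      FibreField C K Ω F ∧ IsFF Ω F ∧
      (∀ i, IsIntegral (Algebra.adjoin Ω (Set.range fun j =>
        algebraMap K F (algebraMap R K (s i j)))) (algebraMap K F (algebraMap R K z))) ∧
      0 < canDeg Ω F + npo Ω (algebraMap K F (algebraMap R K z))) :
    ∃ g : R, g ≠ 0 ∧ ∃ A : ℕ, ∀ (E : Type) [Field E] [Algebra k E] [IsFF k E]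
      (φ : R →ₐ[k] E), φ g ≠ 0 → ∑ l, hgt k (φ (w l)) ≤ A * (max (canDeg k E) 0 +
          {P : Place k E | ∀ i, ∃ j, P.ord (φ (s i j)) < 0}.ncard +
          ∑ j, hgt k (φ (η j))) := by
  classical
  have hdomR : IsDomain R := hinj.isDomain (algebraMap R K)
  let B : Subalgebra k R := Algebra.adjoin k (Set.range w)
  have hwB : ∀ l, w l ∈ B := fun l => Algebra.subset_adjoin ⟨l, rfl⟩
  have hηB : ∀ j, η j ∈ B := fun j => by
    obtain ⟨l, hl⟩ := hη j
    rw [← hl]
    exact hwB l
  have hsB : ∀ i j, s i j ∈ B := fun i j => by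
    obtain ⟨l, hl⟩ := hsw i j
    rw [← hl]
    exact hwB l
  have hzB : z ∈ B := by
    obtain ⟨l, hl⟩ := hzw
    rw [← hl]
    exact hwB l
  let iBK : Algebra B K := inferInstance
  have hBK : ∀ b : B, algebraMap B K b = algebraMap R K b := fun b => rfl
  have hinjB : Function.Injective (algebraMap B K) := by
    intro a b hab
    exact Subtype.ext (hinj hab)
  let w' : Fin n → B := fun l => ⟨w l, hwB l⟩
  let η' : Fin m → B := fun j => ⟨η j, hηB j⟩
  have hw' : Algebra.adjoin k (Set.range w') = ⊤ := by
    apply Subalgebra.map_injective (f := B.val) Subtype.val_injective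
    rw [AlgHom.map_adjoin, Algebra.map_top, Subalgebra.range_val, ← Set.range_comp]
    rfl
  have hdomB : IsDomain B := hinjB.isDomain (algebraMap B K)
  rcases h with halg | ⟨Ω, F, i1, i2, i3, i4, i5, hcomm, hF, hff, hint, hpos⟩
  · -- relative dimension zero
    obtain ⟨ρ, hρ, hρinj, hfrac⟩ := base_alg (k := k) hinjB (η := η') (C := C) hC
    have h1 : ∀ l, IsAlgebraic (Algebra.adjoin k (Set.range η')) (w' l) := by
      intro l
      let iB0C : Algebra (Algebra.adjoin k (Set.range η')) C := ρ.toAlgebra
      have halgC : Algebra.IsAlgebraic (Algebra.adjoin k (Set.range η')) C := by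
        refine ⟨fun c => ?_⟩
        obtain ⟨a, b, hb0, hab⟩ := hfrac c
        refine ⟨Polynomial.C b * Polynomial.X - Polynomial.C a, ?_, ?_⟩
        · intro h0
          have h1 := congrArg (fun P => P.coeff 1) h0
          simp only [Polynomial.coeff_sub, Polynomial.coeff_C_mul, Polynomial.coeff_X_one, mul_one,
            Polynomial.coeff_C_succ, sub_zero, Polynomial.coeff_zero] at h1
          exact hb0 h1
        · rw [map_sub, map_mul, Polynomial.aeval_C, Polynomial.aeval_C, Polynomial.aeval_X]
          change (ρ b : C) * c - ρ a = 0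
          rw [hab, sub_self]
      have h2 : IsAlgebraic C (algebraMap B K (w' l)) := halg.isAlgebraic _
      have t0 : IsScalarTower (Algebra.adjoin k (Set.range η')) C K :=
        IsScalarTower.of_algebraMap_eq fun b => (hρ b).symm
      have h3 : IsAlgebraic (Algebra.adjoin k (Set.range η')) (algebraMap B K (w' l)) :=
        h2.restrictScalars _
      have t3 : IsScalarTower (Algebra.adjoin k (Set.range η')) B K :=
        IsScalarTower.of_algebraMap_eq fun b => rfl
      exact (isAlgebraic_algebraMap_iff hinjB).1 h3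
    choose g hg Cc hCc using fun l => hgt_alg (k := k) η' (h1 l)
    refine ⟨((∏ l, g l : B) : R), fun h0 => ?_, ∑ l, Cc l, fun E _ _ _ φ hφ => ?_⟩
    · exact Finset.prod_ne_zero_iff.2 (fun l _ => hg l) (Subtype.ext h0)
    · have hφ' : (φ.comp B.val) (∏ l, g l) ≠ 0 := hφ
      rw [map_prod, Finset.prod_ne_zero_iff] at hφ'
      push_cast
      rw [Finset.sum_mul]
      refine Finset.sum_le_sum fun l _ => ?_
      refine (hCc l E (φ.comp B.val) (hφ' l (Finset.mem_univ l))).trans ?_
      have h3 : (0 : ℤ) ≤ Cc l := Int.natCast_nonneg _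
      have h4 : (0 : ℤ) ≤ max (canDeg k E) 0 := le_max_right _ _
      have h5 : (0 : ℤ) ≤ {P : Place k E | ∀ i, ∃ j, P.ord (φ (s i j)) < 0}.ncard :=
        Int.natCast_nonneg _
      change Cc l * ∑ j, hgt k (φ (η j)) ≤ _
      nlinarith
  · obtain ⟨g, hg, A, hA⟩ := ring_log (k := k) (B := B) hinjB hw' (η := η') (C := C) hC hgen hcomm
      hF hff (s := fun i j => (⟨s i j, hsB i j⟩ : B)) (z := ⟨z, hzB⟩) hint hpos
    exact ⟨(g : R), fun h0 => hg (Subtype.ext h0), A, fun E _ _ _ φ hφ =>
      hA E (φ.comp B.val) hφ⟩

end Pool.Agent.H916
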