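import Pool.Graph.R_pool_sql_team_seeded_b677cdb8.E8helper90.AF.Hgt
import Pool.Graph.R_seed8.W619.PQ.Rat
import Pool.Graph.R_seed8.W619.PQ.Genus

/-! The number of the poles of a function at the places in a given set; derivations with few poles. -/

set_option autoImplicit false

open FF Pool.Agent.W603.LV Pool.Agent.W619.PQ IntermediateField
open Pool.Agent.E8helper90.AF (pol pol_finset pol_nonneg)

namespace Pool.Agent.H916

section ph

variable {k K : Type} [Field k] [Field K] [Algebra k K]

open scoped Classical in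
/-- the number of the poles at the places in a set -/
noncomputable def ph (T : Set (Place k K)) (a : K) : ℤ :=
  ∑ᶠ P : Place k K, if P ∈ T then max (-P.ord a) 0 else 0

open scoped Classical in
theorem ph_finset (T : Set (Place k K)) (a : K) (s : Finset (Place k K))
    (hs : ∀ P, P.ord a ≠ 0 → P ∈ s) :
    ph T a = ∑ P ∈ s, if P ∈ T then max (-P.ord a) 0 else 0 := by
  unfold ph
  rw [finsum_eq_sum_of_support_subset (s := s)]
  intro P hP
  apply hs P
  intro h
  apply hP
  simp [h]

theorem ph_nonneg (T : Set (Place k K)) (a : K) : 0 ≤ ph T a := by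
  refine finsum_nonneg fun P => ?_
  split_ifs
  · exact le_max_right _ _
  · exact le_rfl

theorem ge_neg {P : Place k K} {a : K} : Ge P (-max (-P.ord a) 0) a := by
  right
  have := le_max_left (-P.ord a) 0
  omega

variable [CharZero k] [IsFF k K] [IsAlgClosed k]

omit [IsAlgClosed k] in
open scoped Classical in
theorem ph_le_of (T : Set (Place k K)) (a : K) (s : Finset (Place k K)) (B : Place k K → ℤ)
    (hB0 : ∀ P, 0 ≤ B P) (hB : ∀ P ∈ T, Ge P (-B P) a) (hs : ∀ P ∉ s, B P = 0) :
    ph T a ≤ ∑ P ∈ s, if P ∈ T then B P else 0 := by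
  let s' := s ∪ (finite_support (k := k) a).toFinset
  have h1 : ∀ P : Place k K, P.ord a ≠ 0 → P ∈ s' := fun P hP => by
    rw [Finset.mem_union]
    exact Or.inr (by simpa using hP)
  have h2 : ∑ P ∈ s, (if P ∈ T then B P else 0) = ∑ P ∈ s', if P ∈ T then B P else 0 :=
    Finset.sum_subset (Finset.subset_union_left : s ⊆ s') fun P _ hP => by
      rw [hs P hP, ite_self]
  rw [h2, ph_finset T a s' h1]
  refine Finset.sum_le_sum fun P _ => ?_
  split_ifs with hP
  · rcases hB P hP with h | h
    · rw [h, P.ord_zero]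
      have := hB0 P
      omega
    · have := hB0 P
      omega
  · exact le_rfl

omit [IsAlgClosed k] in
theorem ph_le_hgt (T : Set (Place k K)) (a : K) : ph T a ≤ hgt k a := by
  classical
  have h1 : ∀ P : Place k K, P.ord a ≠ 0 → P ∈ (finite_support (k := k) a).toFinset :=
    fun P hP => by simpa using hP
  rw [ph_finset T a _ h1, hgt_finset a _ h1]
  refine Finset.sum_le_sum fun P _ => ?_
  split_ifs
  · exact le_rfl
  · exact le_max_right _ _

omit [IsAlgClosed k] in
theorem hgt_le_ph {T0 T1 : Set (Place k K)} (h : ∀ P, P ∈ T0 ∨ P ∈ T1) (a : K) :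
    hgt k a ≤ ph T0 a + ph T1 a := by
  classical
  have h1 : ∀ P : Place k K, P.ord a ≠ 0 → P ∈ (finite_support (k := k) a).toFinset :=
    fun P hP => by simpa using hP
  rw [ph_finset T0 a _ h1, ph_finset T1 a _ h1, hgt_finset a _ h1, ← Finset.sum_add_distrib]
  refine Finset.sum_le_sum fun P _ => ?_
  have h2 := le_max_right (-P.ord a) 0
  rcases h P with h3 | h3
  · rw [if_pos h3]
    split_ifs <;> omega
  · rw [if_pos h3]
    split_ifs <;> omega

omit [IsAlgClosed k] in
theorem ph_sum_le {J : Type} (T : Set (Place k K)) (a : K) (J0 : Finset J) (c : J → K)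
    (h : ∀ P ∈ T, Ge P (-∑ j ∈ J0, max (-P.ord (c j)) 0) a) :
    ph T a ≤ ∑ j ∈ J0, ph T (c j) := by
  classical
  obtain ⟨s, hs⟩ := exists_supp (k := k) J0 c
  have h1 := ph_le_of T a s (fun P => ∑ j ∈ J0, max (-P.ord (c j)) 0)
    (fun P => Finset.sum_nonneg fun _ _ => le_max_right _ _) h (fun P hP => by
      refine Finset.sum_eq_zero fun j hj => ?_
      have h2 : P.ord (c j) = 0 := by
        by_contra h3
        exact hP (hs j hj P h3)
      rw [h2, neg_zero, max_self])
  refine h1.trans (le_of_eq ?_)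
  rw [Finset.sum_congr rfl fun j hj => ph_finset T (c j) s (hs j hj), Finset.sum_comm]
  refine Finset.sum_congr rfl fun P _ => ?_
  split_ifs
  · rfl
  · rw [Finset.sum_const_zero]

omit [IsAlgClosed k] in
theorem ph_add_le (T : Set (Place k K)) (a b : K) : ph T (a + b) ≤ ph T a + ph T b := by
  have h1 := ph_sum_le T (a + b) Finset.univ ![a, b] fun P _ => by
    rw [Fin.sum_univ_two]
    simp only [Matrix.cons_val_zero, Matrix.cons_val_one]
    have h2 := le_max_right (-P.ord a) 0
    have h3 := le_max_right (-P.ord b) 0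
    exact ((ge_neg (P := P) (a := a)).mono (by omega)).add
      ((ge_neg (P := P) (a := b)).mono (by omega))
  rw [Fin.sum_univ_two] at h1
  simpa using h1

omit [IsAlgClosed k] in
theorem ph_mul_le (T : Set (Place k K)) (a b : K) : ph T (a * b) ≤ ph T a + ph T b := by
  have h1 := ph_sum_le T (a * b) Finset.univ ![a, b] fun P _ => by
    rw [Fin.sum_univ_two]
    simp only [Matrix.cons_val_zero, Matrix.cons_val_one]
    exact ((ge_neg (P := P) (a := a)).mul (ge_neg (P := P) (a := b))).mono (by omega)
  rw [Fin.sum_univ_two] at h1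
  simpa using h1

omit [CharZero k] [IsFF k K] [IsAlgClosed k] in
theorem ph_neg (T : Set (Place k K)) (a : K) : ph T (-a) = ph T a := by
  unfold ph
  refine finsum_congr fun P => ?_
  rw [P.ord_neg]

omit [CharZero k] [IsFF k K] [IsAlgClosed k] in
theorem ph_zero_of (T : Set (Place k K)) (a : K) (h : ∀ P ∈ T, 0 ≤ P.ord a) : ph T a = 0 := by
  unfold ph
  refine finsum_eq_zero_of_forall_eq_zero fun P => ?_
  split_ifs with hP
  · exact max_eq_right (by have := h P hP; omega)
  · rfl

omit [CharZero k] [IsFF k K] [IsAlgClosed k] in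
/-- roots of monic polynomials -/
theorem ge_root (P : Place k K) {n : ℕ} (c : ℕ → K) {a : K}
    (h : a ^ n + ∑ j ∈ Finset.range n, c j * a ^ j = 0) :
    Ge P (-∑ j ∈ Finset.range n, max (-P.ord (c j)) 0) a := by
  by_contra hc
  obtain ⟨m, hm⟩ : ∃ m, m = ∑ j ∈ Finset.range n, max (-P.ord (c j)) 0 := ⟨_, rfl⟩
  rw [← hm] at hc
  have hm0 : 0 ≤ m := by
    rw [hm]
    exact Finset.sum_nonneg fun _ _ => le_max_right _ _
  have ha : a ≠ 0 := fun e => hc (Or.inl e)
  have hlt : P.ord a < -m := not_le.1 fun e => hc (Or.inr e)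
  have h1 : Ge P (n * P.ord a + 1) (∑ j ∈ Finset.range n, c j * a ^ j) := by
    refine Ge.sum _ _ fun j hj => ?_
    have hj' := Finset.mem_range.1 hj
    have h2 : max (-P.ord (c j)) 0 ≤ m := by
      rw [hm]
      exact Finset.single_le_sum (f := fun j => max (-P.ord (c j)) 0)
        (fun _ _ => le_max_right _ _) hj
    have h3 : Ge P (j * P.ord a) (a ^ j) := Or.inr (by rw [P.ord_pow])
    refine ((ge_neg (P := P) (a := c j)).mul h3).mono ?_
    obtain ⟨l, rfl⟩ : ∃ l : ℕ, n = j + 1 + l := ⟨n - (j + 1), by omega⟩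
    push_cast
    have h4 : (l : ℤ) * P.ord a ≤ 0 :=
      mul_nonpos_of_nonneg_of_nonpos (Int.natCast_nonneg _) (by omega)
    nlinarith
  have h2 : a ^ n = -∑ j ∈ Finset.range n, c j * a ^ j := eq_neg_of_add_eq_zero_left h
  have h3 : Ge P (n * P.ord a + 1) (a ^ n) := by
    rw [h2]
    exact h1.neg
  rcases h3 with h3 | h3
  · exact pow_ne_zero n ha h3
  · rw [P.ord_pow] at h3
    omega

omit [IsAlgClosed k] in
theorem ph_root (T : Set (Place k K)) {n : ℕ} (c : ℕ → K) {a : K}
    (h : a ^ n + ∑ j ∈ Finset.range n, c j * a ^ j = 0) :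
    ph T a ≤ ∑ j ∈ Finset.range n, ph T (c j) :=
  ph_sum_le T a _ c fun P _ => ge_root P c h

theorem ge_der0 (P : Place k K) {D : Derivation k K K} (hD : D ≠ 0) {f : K} (hf : Ge P 0 f) :
    Ge P (vo P D) (D f) := by
  obtain ⟨c, hc⟩ := exists_const P hf
  have h1 : D f = D (f - algebraMap k K c) := by
    rw [map_sub, D.map_algebraMap, sub_zero]
  rw [h1]
  rcases hc with hc | hc
  · left
    rw [hc, map_zero]
  · right
    have h2 := (ord_der P hD (f := f - algebraMap k K c) (by omega)).2
    omega

/-- derivatives -/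
theorem ph_der (T : Set (Place k K)) {D : Derivation k K K} (hD : D ≠ 0) (a : K) :
    ph T (D a) ≤ 2 * ph T a + pol D := by
  classical
  obtain ⟨s, h1, -, h2, -⟩ := Pool.Agent.E8helper90.AF.exists_supp' hD hD a (0 : K)
  have h3 := ph_le_of T (D a) s (fun P => 2 * max (-P.ord a) 0 + max (-vo P D) 0)
    (fun P => by positivity) (fun P _ => ?_) (fun P hP => by
      have h4 : P.ord a = 0 := by
        by_contra h5
        exact hP (h2 P h5)
      have h5 : vo P D = 0 := by
        by_contra h6
        exact hP (h1 P h6)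
      rw [h4, h5]
      simp)
  · refine h3.trans ?_
    rw [ph_finset T a s h2, pol_finset D s h1, Finset.mul_sum, ← Finset.sum_add_distrib]
    refine Finset.sum_le_sum fun P _ => ?_
    have := le_max_right (-vo P D) 0
    split_ifs
    · exact le_rfl
    · omega
  · by_cases h : P.ord a < 0
    · refine Or.inr ?_
      rw [(ord_der P hD h.ne).2]
      have := le_max_left (-vo P D) 0
      have := le_max_left (-P.ord a) 0
      have := le_max_right (-P.ord a) 0
      omega
    · push Not at h
      refine (ge_der0 P hD (Or.inr h)).mono ?_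
      have := le_max_left (-vo P D) 0
      have := le_max_right (-P.ord a) 0
      omega

end ph

section der

variable {k K : Type} [Field k] [Field K] [Algebra k K] [CharZero k] [IsFF k K] [IsAlgClosed k]

/-- **A derivation with few poles.** -/
theorem exists_pol_der : ∃ D : Derivation k K K, D ≠ 0 ∧ pol D ≤ max (canDeg k K) 0 := by
  classical
  by_cases hrat : ∃ t : K, k⟮t⟯ = ⊤
  · obtain ⟨x, hx⟩ := hrat
    have ht := transcendental_of_top hx
    obtain ⟨D, hD, hDx⟩ := exists_ddx ht
    obtain ⟨P, hP, hP2⟩ := pole_unique hx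
    have h0 : ∀ Q : Place k K, vo Q D ≠ 0 → Q ∈ ({P} : Finset (Place k K)) := by
      intro Q hQ
      rw [Finset.mem_singleton]
      by_contra hne
      apply hQ
      refine (vo_finite_place hx hD hDx Q ?_).1
      by_contra hcon
      exact hne (hP2 Q (by omega))
    refine ⟨D, hD, ?_⟩
    rw [pol_finset D {P} h0, Finset.sum_singleton, vo_infinite_place hD hDx P hP]
    exact le_max_right _ _
  · obtain ⟨f, hf0, hf⟩ := exists_regular hrat (der_ne (k := k) (K := K))
    have hfi := inv_ne_zero hf0
    have hD : f⁻¹ • der k K ≠ 0 := by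
      intro h
      rcases smul_eq_zero.1 h with h | h
      · exact hfi h
      · exact der_ne h
    have hv : ∀ P : Place k K, vo P (f⁻¹ • der k K) ≤ 0 := by
      intro P
      rw [vo_smul P der_ne hfi, P.ord_inv]
      have := hf P
      omega
    have h1 := canDeg_finset (k := k) hD (vo_finite hD).toFinset fun P hP => by simpa using hP
    refine ⟨_, hD, ?_⟩
    rw [pol_finset _ (vo_finite hD).toFinset fun P hP => by simpa using hP]
    have h3 : ∀ P : Place k K, max (-vo P (f⁻¹ • der k K)) 0 = -vo P (f⁻¹ • der k K) := fun P =>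
      max_eq_left (by have := hv P; omega)
    rw [Finset.sum_congr rfl fun P _ => h3 P, Finset.sum_neg_distrib, h1, neg_neg]
    exact le_max_left _ _

end der

end Pool.Agent.H916
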