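import Pool.Agent.H916.Ext2
import Pool.Agent.H916.Ph
import Pool.Graph.R_seed8.W603.CY.Ultra

/-! Ultraproducts of function fields, over an arbitrary set of indices. -/

set_option autoImplicit false
set_option linter.unusedSectionVars false

open FF Filter Pool.Agent.W603.LV Pool.Agent.W603.PV
open Pool.Agent.W603.CY (hgt_add_le hgt_mul_le)
open Pool.Agent.E8helper90.AF (pol hgt_der)

namespace Pool.Agent.H916

section field

variable {ι : Type} (U : Ultrafilter ι) (L : ι → Type) [∀ i, Field (L i)]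

/-- the families which vanish almost everywhere -/
def ui : Ideal (∀ i, L i) where
  carrier := {x | ∀ᶠ i in (U : Filter ι), x i = 0}
  add_mem' := by
    intro a b ha hb
    have ha' : ∀ᶠ i in (U : Filter ι), a i = 0 := ha
    have hb' : ∀ᶠ i in (U : Filter ι), b i = 0 := hb
    change ∀ᶠ i in (U : Filter ι), (a + b) i = 0
    filter_upwards [ha', hb'] with i h1 h2
    rw [Pi.add_apply, h1, h2, add_zero]
  zero_mem' := Eventually.of_forall fun _ => rfl
  smul_mem' := by
    intro c x hx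
    have hx' : ∀ᶠ i in (U : Filter ι), x i = 0 := hx
    change ∀ᶠ i in (U : Filter ι), (c • x) i = 0
    filter_upwards [hx'] with i h1
    rw [Pi.smul_apply', h1, smul_zero]

theorem mem_ui {x : ∀ i, L i} : x ∈ ui U L ↔ ∀ᶠ i in (U : Filter ι), x i = 0 := Iff.rfl

instance ui_max : (ui U L).IsMaximal := by
  rw [Ideal.isMaximal_iff]
  refine ⟨fun h => ?_, fun J x hJ hx hxJ => ?_⟩
  · obtain ⟨i, hi⟩ := ((mem_ui U L).1 h).exists
    exact one_ne_zero hi
  · have h1 : ∀ᶠ i in (U : Filter ι), ¬ x i = 0 :=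
      Ultrafilter.eventually_not.2 hx
    have h2 : 1 - (fun i => (x i)⁻¹) * x ∈ ui U L := by
      rw [mem_ui]
      filter_upwards [h1] with i hi
      rw [Pi.sub_apply, Pi.mul_apply, Pi.one_apply, inv_mul_cancel₀ hi, sub_self]
    have h3 := J.add_mem (hJ h2) (J.mul_mem_left (fun i => (x i)⁻¹) hxJ)
    rwa [sub_add_cancel] at h3

/-- the ultraproduct -/
abbrev UP : Type := (∀ i, L i) ⧸ ui U L

noncomputable instance : Field (UP U L) := Ideal.Quotient.field (ui U L)

variable {L}

/-- the class of a family -/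
def um (x : ∀ i, L i) : UP U L := Ideal.Quotient.mk (ui U L) x

theorem um_surj (x : UP U L) : ∃ a : ∀ i, L i, um U a = x := Ideal.Quotient.mk_surjective x

theorem um_eq {x y : ∀ i, L i} : um U x = um U y ↔ ∀ᶠ i in (U : Filter ι), x i = y i := by
  unfold um
  rw [Ideal.Quotient.mk_eq_mk_iff_sub_mem, mem_ui]
  simp only [Pi.sub_apply, sub_eq_zero]

theorem um_zero_iff {x : ∀ i, L i} : um U x = 0 ↔ ∀ᶠ i in (U : Filter ι), x i = 0 := by
  unfold um
  rw [Ideal.Quotient.eq_zero_iff_mem, mem_ui]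

theorem um_ne_iff {x : ∀ i, L i} : um U x ≠ 0 ↔ ∀ᶠ i in (U : Filter ι), x i ≠ 0 := by
  rw [Ne, um_zero_iff]
  exact Ultrafilter.eventually_not.symm

theorem um_add (x y : ∀ i, L i) : um U (fun i => x i + y i) = um U x + um U y :=
  map_add (Ideal.Quotient.mk (ui U L)) x y

theorem um_mul (x y : ∀ i, L i) : um U (fun i => x i * y i) = um U x * um U y :=
  map_mul (Ideal.Quotient.mk (ui U L)) x y

theorem um_neg (x : ∀ i, L i) : um U (fun i => -x i) = -um U x :=
  map_neg (Ideal.Quotient.mk (ui U L)) x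

theorem um_zero : um U (fun i => (0 : L i)) = 0 := map_zero (Ideal.Quotient.mk (ui U L))

theorem um_one : um U (fun i => (1 : L i)) = 1 := map_one (Ideal.Quotient.mk (ui U L))

theorem um_pow (x : ∀ i, L i) (d : ℕ) : um U (fun i => x i ^ d) = um U x ^ d :=
  map_pow (Ideal.Quotient.mk (ui U L)) x d

theorem um_sum {J : Type} (s : Finset J) (x : J → ∀ i, L i) :
    um U (fun i => ∑ j ∈ s, x j i) = ∑ j ∈ s, um U (x j) := by
  have h : (fun i => ∑ j ∈ s, x j i) = ∑ j ∈ s, x j := by
    funext i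
    rw [Finset.sum_apply]
  unfold um
  rw [h, map_sum]

theorem um_inv (x : ∀ i, L i) : um U (fun i => (x i)⁻¹) = (um U x)⁻¹ := by
  by_cases h : um U x = 0
  · rw [h, inv_zero, um_zero_iff]
    filter_upwards [(um_zero_iff U).1 h] with i hi
    rw [hi, inv_zero]
  · refine eq_inv_of_mul_eq_one_left ?_
    rw [← um_mul, ← um_one, um_eq]
    filter_upwards [(um_ne_iff U).1 h] with i hi
    exact inv_mul_cancel₀ hi

/-- the derivative of a class -/
noncomputable def dU (D : ∀ i, Derivation ℤ (L i) (L i)) (z : UP U L) : UP U L :=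
  um U fun i => D i ((um_surj U z).choose i)

theorem dU_um (D : ∀ i, Derivation ℤ (L i) (L i)) (z : ∀ i, L i) :
    dU U D (um U z) = um U fun i => D i (z i) := by
  unfold dU
  rw [um_eq]
  filter_upwards [(um_eq U).1 (um_surj U (um U z)).choose_spec] with i hi
  rw [hi]

/-- the derivation of the ultraproduct -/
noncomputable def DU (D : ∀ i, Derivation ℤ (L i) (L i)) : Derivation ℤ (UP U L) (UP U L) :=
  Derivation.mk'
    (AddMonoidHom.toIntLinearMap
      { toFun := dU U D
        map_zero' := by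
          rw [← um_zero, dU_um]
          congr 1
          funext i
          rw [map_zero]
        map_add' := by
          intro a b
          obtain ⟨a, rfl⟩ := um_surj U a
          obtain ⟨b, rfl⟩ := um_surj U b
          rw [← um_add, dU_um, dU_um, dU_um, ← um_add]
          congr 1
          funext i
          rw [map_add] })
    (by
      intro a b
      obtain ⟨a, rfl⟩ := um_surj U a
      obtain ⟨b, rfl⟩ := um_surj U b
      change dU U D (um U a * um U b) = um U a • dU U D (um U b) + um U b • dU U D (um U a)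
      rw [← um_mul, dU_um, dU_um, dU_um, smul_eq_mul, smul_eq_mul, ← um_mul, ← um_mul, ← um_add]
      congr 1
      funext i
      rw [Derivation.leibniz, smul_eq_mul, smul_eq_mul])

theorem DU_um (D : ∀ i, Derivation ℤ (L i) (L i)) (z : ∀ i, L i) :
    DU U D (um U z) = um U fun i => D i (z i) := dU_um U D z

end field

section small

variable {k : Type} [Field k] {ι : Type} (U : Ultrafilter ι) {L : ι → Type} [∀ i, Field (L i)]
  [∀ i, Algebra k (L i)]

theorem um_alg (c : k) : um U (fun i => algebraMap k (L i) c) = algebraMap k (UP U L) c := rfl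

variable [IsAlgClosed k] [CharZero k] [∀ i, IsFF k (L i)]

variable (k) in
/-- the field of the elements of small height -/
def small (χ : ι → ℤ) : Subfield (UP U L) where
  carrier := {x | ∃ a : ∀ i, L i, um U a = x ∧ ∃ B : ℕ,
    ∀ᶠ i in (U : Filter ι), hgt k (a i) ≤ B * χ i}
  mul_mem' := by
    rintro _ _ ⟨a, rfl, B, hB⟩ ⟨b, rfl, C, hC⟩
    refine ⟨_, um_mul U a b, B + C, ?_⟩
    filter_upwards [hB, hC] with i h1 h2
    refine (hgt_mul_le _ _).trans ((add_le_add h1 h2).trans (le_of_eq ?_))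
    push_cast
    ring
  add_mem' := by
    rintro _ _ ⟨a, rfl, B, hB⟩ ⟨b, rfl, C, hC⟩
    refine ⟨_, um_add U a b, B + C, ?_⟩
    filter_upwards [hB, hC] with i h1 h2
    refine (hgt_add_le _ _).trans ((add_le_add h1 h2).trans (le_of_eq ?_))
    push_cast
    ring
  one_mem' := by
    refine ⟨_, um_one U, 0, Eventually.of_forall fun i => ?_⟩
    rw [hgt_one]
    simp
  zero_mem' := by
    refine ⟨_, um_zero U, 0, Eventually.of_forall fun i => ?_⟩
    rw [hgt_zero]
    simp
  neg_mem' := by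
    rintro _ ⟨a, rfl, B, hB⟩
    refine ⟨_, um_neg U a, B, ?_⟩
    filter_upwards [hB] with i h1
    have : hgt k (-a i) = hgt k (a i) := by
      refine hgt_congr fun P => ?_
      rw [P.ord_neg]
    rw [this]
    exact h1
  inv_mem' := by
    rintro _ ⟨a, rfl, B, hB⟩
    refine ⟨_, um_inv U a, B, ?_⟩
    filter_upwards [hB] with i h1
    rw [hgt_inv]
    exact h1

variable {U}

theorem mem_small {χ : ι → ℤ} {a : ∀ i, L i} :
    um U a ∈ (small k U χ : Subfield (UP U L)) ↔ ∃ B : ℕ,
      ∀ᶠ i in (U : Filter ι), hgt k (a i) ≤ B * χ i := by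
  constructor
  · rintro ⟨b, hb, B, hB⟩
    refine ⟨B, ?_⟩
    filter_upwards [(um_eq U).1 hb, hB] with i h1 h2
    rw [← h1]
    exact h2
  · rintro ⟨B, hB⟩
    exact ⟨a, rfl, B, hB⟩

theorem alg_small {χ : ι → ℤ} (c : k) :
    algebraMap k (UP U L) c ∈ (small k U χ : Subfield (UP U L)) := by
  refine ⟨_, um_alg U c, 0, Eventually.of_forall fun i => ?_⟩
  rw [hgt_algebraic (isAlgebraic_algebraMap c)]
  simp

/-- the field of the elements of small height is algebraically closed in the ultraproduct -/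
theorem small_closed {χ : ι → ℤ} {z : UP U L}
    (hz : IsAlgebraic (small k U χ : Subfield (UP U L)) z) :
    z ∈ (small k U χ : Subfield (UP U L)) := by
  obtain ⟨p, hp, hp0⟩ := hz
  obtain ⟨w, rfl⟩ := um_surj U z
  have h1 : ∀ t : ℕ, ∃ e : ∀ i, L i,
      um U e = ((p.coeff t : (small k U χ : Subfield (UP U L))) : UP U L) ∧
      ∃ B : ℕ, ∀ᶠ i in (U : Filter ι), hgt k (e i) ≤ B * χ i := by
    intro t
    exact (p.coeff t).2
  choose e he B hB using h1
  have h2 : um U (fun i => ∑ t ∈ Finset.range (p.natDegree + 1), e t i * w i ^ t) = 0 := by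
    rw [um_sum U (Finset.range (p.natDegree + 1)) (fun t i => e t i * w i ^ t)]
    rw [Polynomial.aeval_eq_sum_range] at hp0
    rw [← hp0]
    refine Finset.sum_congr rfl fun t _ => ?_
    rw [um_mul, um_pow, he]
    rfl
  have h3 : um U (e p.natDegree) ≠ 0 := by
    rw [he]
    intro h
    have h4 : p.coeff p.natDegree = 0 := Subtype.ext h
    exact hp (Polynomial.leadingCoeff_eq_zero.1 h4)
  rw [mem_small]
  refine ⟨B p.natDegree + ∑ t ∈ Finset.range p.natDegree, B t, ?_⟩
  have h5 : ∀ᶠ i in (U : Filter ι), ∀ t ∈ Finset.range (p.natDegree + 1),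
      hgt k (e t i) ≤ B t * χ i := (Filter.eventually_all_finset _).2 fun t _ => hB t
  filter_upwards [(um_zero_iff U).1 h2, (um_ne_iff U).1 h3, h5] with i q1 q2 q3
  refine (hgt_root (fun t => e t i) q2 (w i) q1).trans ?_
  push_cast
  rw [add_mul, Finset.sum_mul]
  refine add_le_add (q3 _ (Finset.mem_range.2 (Nat.lt_succ_self _)))
    (Finset.sum_le_sum fun t ht => q3 t (Finset.mem_range.2 ?_))
  have := Finset.mem_range.1 ht
  omega

variable (U) in
/-- the ring of the elements with few poles in given sets -/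
def RT (χ : ι → ℤ) (T : ∀ i, Set (Place k (L i))) : Subring (UP U L) where
  carrier := {x | ∃ a : ∀ i, L i, um U a = x ∧ ∃ B : ℕ,
    ∀ᶠ i in (U : Filter ι), ph (T i) (a i) ≤ B * χ i}
  mul_mem' := by
    rintro _ _ ⟨a, rfl, B, hB⟩ ⟨b, rfl, C, hC⟩
    refine ⟨_, um_mul U a b, B + C, ?_⟩
    filter_upwards [hB, hC] with i h1 h2
    refine (ph_mul_le _ _ _).trans ((add_le_add h1 h2).trans (le_of_eq ?_))
    push_cast
    ring
  add_mem' := by
    rintro _ _ ⟨a, rfl, B, hB⟩ ⟨b, rfl, C, hC⟩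
    refine ⟨_, um_add U a b, B + C, ?_⟩
    filter_upwards [hB, hC] with i h1 h2
    refine (ph_add_le _ _ _).trans ((add_le_add h1 h2).trans (le_of_eq ?_))
    push_cast
    ring
  one_mem' := by
    refine ⟨_, um_one U, 0, Eventually.of_forall fun i => ?_⟩
    rw [ph_zero_of _ _ fun P _ => by rw [P.ord_one]]
    simp
  zero_mem' := by
    refine ⟨_, um_zero U, 0, Eventually.of_forall fun i => ?_⟩
    rw [ph_zero_of _ _ fun P _ => by rw [P.ord_zero]]
    simp
  neg_mem' := by
    rintro _ ⟨a, rfl, B, hB⟩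
    refine ⟨_, um_neg U a, B, ?_⟩
    filter_upwards [hB] with i h1
    rw [ph_neg]
    exact h1

theorem mem_RT {χ : ι → ℤ} {T : ∀ i, Set (Place k (L i))} {a : ∀ i, L i} :
    um U a ∈ RT U χ T ↔ ∃ B : ℕ, ∀ᶠ i in (U : Filter ι), ph (T i) (a i) ≤ B * χ i := by
  constructor
  · rintro ⟨b, hb, B, hB⟩
    refine ⟨B, ?_⟩
    filter_upwards [(um_eq U).1 hb, hB] with i h1 h2
    rw [← h1]
    exact h2
  · rintro ⟨B, hB⟩
    exact ⟨a, rfl, B, hB⟩

theorem small_le_RT {χ : ι → ℤ} {T : ∀ i, Set (Place k (L i))} {x : UP U L}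
    (hx : x ∈ (small k U χ : Subfield (UP U L))) : x ∈ RT U χ T := by
  obtain ⟨a, rfl⟩ := um_surj U x
  obtain ⟨B, hB⟩ := mem_small.1 hx
  rw [mem_RT]
  refine ⟨B, ?_⟩
  filter_upwards [hB] with i hi
  exact (ph_le_hgt _ _).trans hi

theorem RT_int {χ : ι → ℤ} {T : ∀ i, Set (Place k (L i))} {x : UP U L}
    (hx : IsIntegral (RT U χ T) x) : x ∈ RT U χ T := by
  obtain ⟨p, hp, hp0⟩ := hx
  obtain ⟨w, rfl⟩ := um_surj U x
  choose e he B hB using fun t : ℕ => (p.coeff t).2
  have h2 : um U (fun i => w i ^ p.natDegree +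
      ∑ t ∈ Finset.range p.natDegree, e t i * w i ^ t) = 0 := by
    rw [um_add, um_pow, um_sum U (Finset.range p.natDegree) (fun t i => e t i * w i ^ t)]
    rw [Polynomial.eval₂_eq_sum_range, Finset.sum_range_succ, add_comm] at hp0
    have h3 : p.coeff p.natDegree = 1 := hp
    rw [h3, map_one, one_mul] at hp0
    rw [← hp0]
    congr 1
    refine Finset.sum_congr rfl fun t _ => ?_
    rw [um_mul, um_pow, he]
    rfl
  rw [mem_RT]
  refine ⟨∑ t ∈ Finset.range p.natDegree, B t, ?_⟩
  have h5 : ∀ᶠ i in (U : Filter ι), ∀ t ∈ Finset.range p.natDegree,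
      ph (T i) (e t i) ≤ B t * χ i := (Filter.eventually_all_finset _).2 fun t _ => hB t
  filter_upwards [(um_zero_iff U).1 h2, h5] with i q1 q3
  refine (ph_root (T i) (fun t => e t i) q1).trans ?_
  push_cast
  rw [Finset.sum_mul]
  exact Finset.sum_le_sum fun t ht => q3 t ht

theorem RT_der {χ : ι → ℤ} {T : ∀ i, Set (Place k (L i))} {D : ∀ i, Derivation k (L i) (L i)}
    (hD0 : ∀ i, D i ≠ 0) (hD : ∀ i, pol (D i) ≤ χ i) {x : UP U L} (hx : x ∈ RT U χ T) :
    DU U (fun i => (D i).restrictScalars ℤ) x ∈ RT U χ T := by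
  obtain ⟨a, rfl⟩ := um_surj U x
  obtain ⟨B, hB⟩ := mem_RT.1 hx
  rw [DU_um, mem_RT]
  refine ⟨2 * B + 1, ?_⟩
  filter_upwards [hB] with i hi
  refine (ph_der (T i) (hD0 i) (a i)).trans ?_
  have := hD i
  push_cast
  linarith

theorem small_der {χ : ι → ℤ} {D : ∀ i, Derivation k (L i) (L i)}
    (hD0 : ∀ i, D i ≠ 0) (hD : ∀ i, pol (D i) ≤ χ i) {x : UP U L}
    (hx : x ∈ (small k U χ : Subfield (UP U L))) :
    DU U (fun i => (D i).restrictScalars ℤ) x ∈ (small k U χ : Subfield (UP U L)) := by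
  obtain ⟨a, rfl⟩ := um_surj U x
  obtain ⟨B, hB⟩ := mem_small.1 hx
  rw [DU_um, mem_small]
  refine ⟨2 * B + 1, ?_⟩
  filter_upwards [hB] with i hi
  refine (hgt_der (hD0 i) (a i)).trans ?_
  have := hD i
  push_cast
  linarith

theorem small_cst {χ : ι → ℤ} {D : ∀ i, Derivation k (L i) (L i)}
    (hD0 : ∀ i, D i ≠ 0) {x : UP U L}
    (hx : DU U (fun i => (D i).restrictScalars ℤ) x = 0) :
    x ∈ (small k U χ : Subfield (UP U L)) := by
  obtain ⟨a, rfl⟩ := um_surj U x
  rw [DU_um, um_zero_iff] at hx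
  rw [mem_small]
  refine ⟨0, ?_⟩
  filter_upwards [hx] with i hi
  obtain ⟨c, hc⟩ := const_of_der (hD0 i) (show D i (a i) = 0 from hi)
  rw [hc, hgt_algebraic (isAlgebraic_algebraMap c)]
  simp

/-- **The data in the ultraproduct.** -/
theorem exists_pre (χ : ι → ℤ) (hχ : ∀ i, max (canDeg k (L i)) 0 ≤ χ i) (z : UP U L)
    (hz : z ∉ (small k U χ : Subfield (UP U L))) :
    ∃ (D0 : Derivation ℤ (UP U L) (UP U L)) (R0 R1 : Subring (UP U L)),
      Pre D0 (small k U χ) z R0 R1 := by
  choose D hD0 hD using fun i => exists_pol_der (k := k) (K := L i)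
  have hD' : ∀ i, pol (D i) ≤ χ i := fun i => (hD i).trans (hχ i)
  have hχ0 : ∀ i, 0 ≤ χ i := fun i => (le_max_right _ _).trans (hχ i)
  obtain ⟨a, rfl⟩ := um_surj U z
  refine ⟨DU U fun i => (D i).restrictScalars ℤ, RT U χ fun i => {P : Place k (L i) | 0 ≤ P.ord (a i)},
    RT U χ fun i => {P : Place k (L i) | P.ord (a i) ≤ 0}, ?_⟩
  exact
  { closed := fun x hx => small_closed hx
    stab := fun s hs => small_der hD0 hD' hs
    cst := fun x hx => small_cst hD0 hx
    nz := hz
    le0 := fun s hs => small_le_RT hs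
    le1 := fun s hs => small_le_RT hs
    z0 := by
      rw [mem_RT]
      refine ⟨0, Eventually.of_forall fun i => ?_⟩
      rw [ph_zero_of _ _ fun P (hP : P ∈ {P : Place k (L i) | 0 ≤ P.ord (a i)}) => by
        have : 0 ≤ P.ord (a i) := hP
        exact this]
      simp
    z1 := by
      rw [← um_inv, mem_RT]
      refine ⟨0, Eventually.of_forall fun i => ?_⟩
      rw [ph_zero_of _ _ fun P (hP : P ∈ {P : Place k (L i) | P.ord (a i) ≤ 0}) => by
        rw [P.ord_inv]
        have : P.ord (a i) ≤ 0 := hP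
        omega]
      simp
    der0 := fun x hx => RT_der hD0 hD' hx
    der1 := fun x hx => RT_der hD0 hD' hx
    int0 := fun x hx => RT_int hx
    int1 := fun x hx => RT_int hx
    inter := by
      intro x hx0 hx1
      obtain ⟨b, rfl⟩ := um_surj U x
      obtain ⟨B0, hB0⟩ := mem_RT.1 hx0
      obtain ⟨B1, hB1⟩ := mem_RT.1 hx1
      rw [mem_small]
      refine ⟨B0 + B1, ?_⟩
      filter_upwards [hB0, hB1] with i h0 h1
      refine (hgt_le_ph (T0 := {P | 0 ≤ P.ord (a i)}) (T1 := {P | P.ord (a i) ≤ 0})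
        (fun P => by
          rw [Set.mem_ofPred_eq, Set.mem_ofPred_eq]
          exact le_total _ _) (b i)).trans ?_
      push_cast
      linarith }

end small

end Pool.Agent.H916
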