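import Pool.Agent.H916.LCore
import Pool.Agent.H916.Ul

/-! The data in the ultraproduct, with logarithmic derivatives. -/

set_option autoImplicit false
set_option linter.overlappingInstances false
set_option linter.unusedSectionVars false

open FF Filter Pool.Agent.W603.LV Pool.Agent.W603.PV Module IntermediateField
open Pool.Agent.E8helper90.AF (pol pol_finset)

namespace Pool.Agent.H916

section pre

variable {K0 K : Type} [Field K0] [Field K] [Algebra K0 K] [CharZero K0] {S0 : Subfield K0}

/-- **The theorem on the data in the ultraproduct, with logarithmic derivatives.** -/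
theorem preL_main {D0 : Derivation ℤ K0 K0} {z : K0} {R0 R1 : Subring K0}
    (h : Pre D0 S0 z R0 R1) (hl : D0 z / z ∈ R1) [Algebra.IsAlgebraic K0 K] [IsAlgClosed K]
    (F : IntermediateField (algebraicClosure S0 K) K) (hF : F ≤ CM K S0)
    [IsFF (algebraicClosure S0 K) F] (hz : algebraMap K0 K z ∈ F) :
    canDeg (algebraicClosure S0 K) F +
      npo (algebraicClosure S0 K) (⟨algebraMap K0 K z, hz⟩ : F) ≤ 0 := by
  have h0 : IsAlgClosed (algebraicClosure S0 K) :=
    (IsAlgClosed.algebraicClosure_eq_bot_iff (algebraicClosure S0 K) K).1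
      (algebraicClosure.algebraicClosure_eq_bot S0 K)
  have h1 : CharZero (algebraicClosure S0 K) :=
    charZero_of_injective_algebraMap (algebraMap S0 (algebraicClosure S0 K)).injective
  obtain ⟨D, hD⟩ := exists_der_ext (K := K) D0
  refine sysL_main (h.sys hD) ?_ F hF hz
  rw [hD, ← map_div₀]
  exact Subring.subset_closure (Or.inl ⟨_, hl, rfl⟩)

end pre

section ph

variable {k K : Type} [Field k] [Field K] [Algebra k K] [CharZero k] [IsFF k K] [IsAlgClosed k]

/-- logarithmic derivatives -/
theorem ph_dlog {D : Derivation k K K} (hD : D ≠ 0) (a : K) :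
    ph {P : Place k K | P.ord a < 0} (D a / a) ≤ npo k a + pol D := by
  classical
  obtain ⟨Z, hZ, hcard⟩ := exists_Z (S := k) a
  obtain ⟨s, hs⟩ : ∃ s : Finset (Place k K), s = Z ∪ (vo_finite hD).toFinset := ⟨_, rfl⟩
  have hsv : ∀ P, vo P D ≠ 0 → P ∈ s := fun P hP => by rw [hs]; simp [hP]
  have h3 := ph_le_of {P : Place k K | P.ord a < 0} (D a / a) s
    (fun P => (if P ∈ Z then 1 else 0) + max (-vo P D) 0)
    (fun P => by split_ifs <;> positivity) (fun P hP => ?_) (fun P hP => by
      have h4 : P ∉ Z := fun h => hP (by rw [hs]; exact Finset.mem_union_left _ h)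
      have h5 : vo P D = 0 := by
        by_contra h6
        exact hP (hsv P h6)
      rw [if_neg h4, h5]
      simp)
  · refine h3.trans ?_
    rw [pol_finset D s hsv, hcard]
    have h4 : ((Z.card : ℕ) : ℤ) = ∑ P ∈ s, if P ∈ Z then 1 else 0 := by
      rw [← Finset.sum_filter]
      have h5 : s.filter (fun P => P ∈ Z) = Z := by
        ext P
        rw [Finset.mem_filter]
        exact ⟨fun h => h.2, fun h => ⟨by rw [hs]; exact Finset.mem_union_left _ h, h⟩⟩
      rw [h5]
      simp
    rw [h4, ← Finset.sum_add_distrib]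
    refine Finset.sum_le_sum fun P _ => ?_
    have h6 := le_max_right (-vo P D) 0
    have h7 : (0 : ℤ) ≤ if P ∈ Z then 1 else 0 := by split_ifs <;> norm_num
    split_ifs <;> omega
  · have hPa : P.ord a < 0 := hP
    have ha0 : a ≠ 0 := by
      rintro rfl
      rw [P.ord_zero] at hPa
      omega
    rw [if_pos ((hZ P).2 hPa)]
    by_cases h0 : D a = 0
    · left
      rw [h0, zero_div]
    · right
      rw [P.ord_div h0 ha0, (ord_der P hD hPa.ne).2]
      have := le_max_left (-vo P D) 0
      omega

end ph

section small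

variable {k : Type} [Field k] {ι : Type} (U : Ultrafilter ι) {L : ι → Type} [∀ i, Field (L i)]
  [∀ i, Algebra k (L i)] [IsAlgClosed k] [CharZero k] [∀ i, IsFF k (L i)]

variable {U}

/-- **The data in the ultraproduct, with logarithmic derivatives.** -/
theorem exists_preL (χ : ι → ℤ) (hχ : ∀ i, max (canDeg k (L i)) 0 ≤ χ i) (a : ∀ i, L i)
    {C : ℕ} (hN : ∀ᶠ i in (U : Filter ι), (npo k (a i) : ℤ) ≤ C * χ i)
    (hz : um U a ∉ (small k U χ : Subfield (UP U L))) :
    ∃ (D0 : Derivation ℤ (UP U L) (UP U L)) (R0 R1 : Subring (UP U L)),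
      Pre D0 (small k U χ) (um U a) R0 R1 ∧ D0 (um U a) / um U a ∈ R1 := by
  choose D hD0 hD using fun i => exists_pol_der (k := k) (K := L i)
  have hD' : ∀ i, pol (D i) ≤ χ i := fun i => (hD i).trans (hχ i)
  have hχ0 : ∀ i, 0 ≤ χ i := fun i => (le_max_right _ _).trans (hχ i)
  refine ⟨DU U fun i => (D i).restrictScalars ℤ, RT U χ fun i => {P : Place k (L i) | 0 ≤ P.ord (a i)},
    RT U χ fun i => {P : Place k (L i) | P.ord (a i) < 0}, ?_, ?_⟩
  · exact
    { closed := fun x hx => small_closed hx
      stab := fun s hs => small_der hD0 hD' hs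
      cst := fun x hx => small_cst hD0 hx
      nz := hz
      le0 := fun s hs => small_le_RT hs
      le1 := fun s hs => small_le_RT hs
      z0 := by
        rw [mem_RT]
        refine ⟨0, Eventually.of_forall fun i => ?_⟩
        rw [ph_zero_of _ _ fun P (hP : P ∈ {P : Place k (L i) | 0 ≤ P.ord (a i)}) => by
          have : 0 ≤ P.ord (a i) := hP
          exact this]
        simp
      z1 := by
        rw [← um_inv, mem_RT]
        refine ⟨0, Eventually.of_forall fun i => ?_⟩
        rw [ph_zero_of _ _ fun P (hP : P ∈ {P : Place k (L i) | P.ord (a i) < 0}) => by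
          rw [P.ord_inv]
          have : P.ord (a i) < 0 := hP
          omega]
        simp
      der0 := fun x hx => RT_der hD0 hD' hx
      der1 := fun x hx => RT_der hD0 hD' hx
      int0 := fun x hx => RT_int hx
      int1 := fun x hx => RT_int hx
      inter := by
        intro x hx0 hx1
        obtain ⟨b, rfl⟩ := um_surj U x
        obtain ⟨B0, hB0⟩ := mem_RT.1 hx0
        obtain ⟨B1, hB1⟩ := mem_RT.1 hx1
        rw [mem_small]
        refine ⟨B0 + B1, ?_⟩
        filter_upwards [hB0, hB1] with i h0 h1
        refine (hgt_le_ph (T0 := {P | 0 ≤ P.ord (a i)}) (T1 := {P | P.ord (a i) < 0})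
          (fun P => by
            rw [Set.mem_ofPred_eq, Set.mem_ofPred_eq]
            exact le_or_gt _ _) (b i)).trans ?_
        push_cast
        linarith }
  · rw [DU_um, div_eq_mul_inv, ← um_inv, ← um_mul, mem_RT]
    refine ⟨C + 1, ?_⟩
    filter_upwards [hN] with i h3
    have h1 := ph_dlog (hD0 i) (a i)
    have h2 := hD' i
    have h4 : (D i).restrictScalars ℤ (a i) * (a i)⁻¹ = D i (a i) / a i := by
      rw [div_eq_mul_inv]
      rfl
    rw [h4]
    push_cast
    linarith

end small

end Pool.Agent.H916
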