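import Pool.Agent.H916.Conv

/-! Several rational maps to hyperbolic varieties. -/

set_option autoImplicit false
set_option linter.overlappingInstances false
set_option linter.unusedSectionVars false

open FF Pool.Agent.W603.LV Pool.Agent.W603.PV MvPolynomial
open Pool.Agent.W602.GT (val IsForm VarPts coords val_smul)
open Pool.Agent.W602.RG (HasValue PointedMaps PseudoGeomHyp)
open Pool.Agent.Y216 (OnVar canDeg_ratFunc CurveBound)
open Pool.Agent.R882.HY (PseudoBounded)
open scoped LinearAlgebra.Projectivization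

namespace Pool.Agent.H916

variable {k : Type} [Field k] [IsAlgClosed k] [CharZero k] {M r : ℕ} {N : Fin r → ℕ} {K : Type}
  [Field K] [Algebra k K]

/-- Data for rational maps to several varieties. -/
theorem exists_multi {x : Fin (M + 1) → K} (hx : x ≠ 0) (hgen : coords k x = ⊤)
    {y : ∀ l : Fin r, Fin (N l + 1) → K} (hy : ∀ l, y l ≠ 0)
    (hfib : HypFibres (⨆ l, coords k (y l))) :
    ∃ (j : ∀ l, Fin (N l + 1)) (e : ℕ) (H : ∀ l, Fin (N l + 1) → MvPolynomial (Fin (M + 1)) k),
      (∀ l, RatMap x (y l) (j l) e (H l)) ∧ ∃ G : MvPolynomial (Fin (M + 1)) k,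
      IsForm G ∧ val x G ≠ 0 ∧
      (∀ (E : Type) [Field E] [Algebra k E] (f : Fin (M + 1) → E), OnVar k x f → val f G ≠ 0 →
        ∀ l, aeval f (H l (j l)) ≠ 0) ∧ ∃ A : ℕ,
      ∀ (E : Type) [Field E] [Algebra k E] [IsFF k E] (f : Fin (M + 1) → E), OnVar k x f →
        val f G ≠ 0 → pht k f ≤ A * (max (canDeg k E) 0 +
          ∑ l, pht k fun i => aeval f (H l i)) := by
  classical
  obtain ⟨i0, hi0⟩ := Function.ne_iff.1 hx
  have hi0 : x i0 ≠ 0 := hi0
  have hj : ∀ l, ∃ j, y l j ≠ 0 := fun l => Function.ne_iff.1 (hy l)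
  choose j hj using hj
  -- the ratios
  let S : Type := Σ l : Fin r, Fin (N l + 1)
  let v : S → K := fun s => y s.1 s.2 / y s.1 (j s.1)
  let c : S ≃ Fin (Fintype.card S) := Fintype.equivFin S
  let y' : Fin (Fintype.card S + 1) → K := Fin.cons 1 fun s => v (c.symm s)
  have hy'0 : y' 0 = 1 := rfl
  have hy's : ∀ s : S, y' (c s).succ = v s := fun s => by
    change v (c.symm (c s)) = v s
    rw [Equiv.symm_apply_apply]
  have hy'ne : y' 0 ≠ 0 := by
    rw [hy'0]
    exact one_ne_zero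
  -- the coordinates
  have hC : coords k y' = ⨆ l, coords k (y l) := by
    apply le_antisymm
    · rw [coords_eq hy'ne, IntermediateField.adjoin_le_iff]
      rintro _ ⟨a, rfl⟩
      refine Fin.cases ?_ (fun s => ?_) a
      · change y' 0 / y' 0 ∈ _
        rw [div_self hy'ne]
        exact one_mem _
      · change v (c.symm s) / 1 ∈ _
        rw [div_one]
        have h1 : coords k (y (c.symm s).1) ≤ ⨆ l, coords k (y l) :=
          le_iSup (fun l => coords k (y l)) _
        exact h1 (IntermediateField.subset_adjoin _ _ ⟨_, _, hj _, rfl⟩)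
    · refine iSup_le fun l => ?_
      rw [coords_eq (hj l), coords_eq hy'ne, IntermediateField.adjoin_le_iff]
      rintro _ ⟨a, rfl⟩
      refine IntermediateField.subset_adjoin _ _ ⟨(c ⟨l, a⟩).succ, ?_⟩
      change y' (c ⟨l, a⟩).succ / y' 0 = _
      rw [hy's, hy'0, div_one]
  obtain ⟨e, H', hH', hne, heq⟩ := exists_forms (k := k) hi0 hy'ne (by rw [hgen]; exact le_top)
  obtain ⟨G, hGf, hGx, A, hA⟩ := rel_rat hi0 hgen hH' hy'ne hne heq (by rw [hC]; exact hfib)
  have heq' : ∀ s : S, v s = aeval x (H' (c s).succ) / aeval x (H' 0) := fun s => by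
    rw [← heq, hy's, hy'0, div_one]
  have hvj : ∀ l, v ⟨l, j l⟩ = 1 := fun l => div_self (hj l)
  have hHj : ∀ l, aeval x (H' (c ⟨l, j l⟩).succ) = aeval x (H' 0) := by
    intro l
    have h1 := heq' ⟨l, j l⟩
    rw [hvj, eq_comm, div_eq_iff hne, one_mul] at h1
    exact h1
  refine ⟨j, e, fun l a => H' (c ⟨l, a⟩).succ, fun l => ⟨fun a => hH' _, ?_, hj l, fun a => ?_⟩,
    G * H' 0, isForm_mul hGf ⟨e, hH' 0⟩, ?_, fun E _ _ f hf hfG l => ?_,
    A * (∑ l, (N l + 1) + 1), fun E _ _ _ f hf hfG => ?_⟩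
  · rw [hHj]
    exact hne
  · change v ⟨l, a⟩ = _
    rw [heq', hHj]
  · unfold Pool.Agent.W602.GT.val at hGx ⊢
    rw [map_mul]
    exact mul_ne_zero hGx hne
  · unfold Pool.Agent.W602.GT.val at hfG
    rw [map_mul] at hfG
    have h1 := hf.2 (H' (c ⟨l, j l⟩).succ - H' 0) ⟨e, (hH' _).sub (hH' _)⟩ (by
      unfold Pool.Agent.W602.GT.val
      rw [map_sub, hHj, sub_self])
    unfold Pool.Agent.W602.GT.val at h1
    rw [map_sub, sub_eq_zero] at h1
    rw [h1]
    exact right_ne_zero_of_mul hfG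
  · have hfG' := hfG
    unfold Pool.Agent.W602.GT.val at hfG
    rw [map_mul] at hfG
    have hf0 := right_ne_zero_of_mul hfG
    have hf1 : ∀ l, aeval f (H' (c ⟨l, j l⟩).succ) = aeval f (H' 0) := by
      intro l
      have h1 := hf.2 (H' (c ⟨l, j l⟩).succ - H' 0) ⟨e, (hH' _).sub (hH' _)⟩ (by
        unfold Pool.Agent.W602.GT.val
        rw [map_sub, hHj, sub_self])
      unfold Pool.Agent.W602.GT.val at h1
      rw [map_sub, sub_eq_zero] at h1
      exact h1
    have h2 := (hA E f hf (left_ne_zero_of_mul hfG)).2.2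
    have h3 := pht_le (k := k) (fun a => aeval f (H' a)) hf0
    have hnn : ∀ l, 0 ≤ pht k fun i => aeval f (H' (c ⟨l, i⟩).succ) := fun l =>
      pht_nn ⟨j l, by rw [hf1]; exact hf0⟩
    have h4 : ∀ s : S, hgt k (aeval f (H' (c s).succ) / aeval f (H' 0)) ≤
        pht k fun i => aeval f (H' (c ⟨s.1, i⟩).succ) := by
      rintro ⟨l, a⟩
      by_cases h0 : aeval f (H' (c ⟨l, a⟩).succ) = 0
      · rw [h0, zero_div, hgt_zero]
        exact hnn l
      · have h5 := Pool.Agent.W603.CX.hgt_le_pht (k := k)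
          (fun i => aeval f (H' (c ⟨l, i⟩).succ)) (j := a) (l := j l) h0
          (by rw [hf1]; exact hf0)
        rw [hf1] at h5
        exact h5
    have h5 : ∑ a, hgt k (aeval f (H' a) / aeval f (H' 0)) ≤
        ∑ l, ((N l : ℤ) + 1) * pht k fun i => aeval f (H' (c ⟨l, i⟩).succ) := by
      rw [Fin.sum_univ_succ, div_self hf0, hgt_one, zero_add,
        ← Equiv.sum_comp c (fun a => hgt k (aeval f (H' a.succ) / aeval f (H' 0)))]
      refine (Finset.sum_le_sum fun s _ => h4 s).trans ?_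
      rw [Fintype.sum_sigma]
      refine Finset.sum_le_sum fun l _ => ?_
      change (∑ _ : Fin (N l + 1), pht k fun i => aeval f (H' (c ⟨l, i⟩).succ)) ≤ _
      rw [Finset.sum_const, Finset.card_univ, Fintype.card_fin, nsmul_eq_mul]
      push_cast
      exact le_rfl
    have h6 : ∑ l, ((N l : ℤ) + 1) * (pht k fun i => aeval f (H' (c ⟨l, i⟩).succ)) ≤
        (∑ l, ((N l : ℤ) + 1)) * ∑ l, pht k fun i => aeval f (H' (c ⟨l, i⟩).succ) := by
      rw [Finset.sum_mul]
      refine Finset.sum_le_sum fun l _ => ?_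
      refine mul_le_mul_of_nonneg_left ?_ (by positivity)
      exact Finset.single_le_sum (f := fun l => pht k fun i => aeval f (H' (c ⟨l, i⟩).succ))
        (fun l _ => hnn l) (Finset.mem_univ l)
    have hs : 0 ≤ ∑ l, pht k fun i => aeval f (H' (c ⟨l, i⟩).succ) :=
      Finset.sum_nonneg fun l _ => hnn l
    have hN : (0 : ℤ) ≤ ∑ l, ((N l : ℤ) + 1) := Finset.sum_nonneg fun l _ => by positivity
    have hm : (0 : ℤ) ≤ max (canDeg k E) 0 := le_max_right _ _
    have h7 : max (canDeg k E) 0 + pht k (fun a => aeval f (H' a)) ≤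
        ((∑ l, ((N l : ℤ) + 1)) + 1) * (max (canDeg k E) 0 +
          ∑ l, pht k fun i => aeval f (H' (c ⟨l, i⟩).succ)) := by
      have h8 := (h3.trans h5).trans h6
      nlinarith
    calc pht k f ≤ A * (max (canDeg k E) 0 + pht k fun a => aeval f (H' a)) := h2
      _ ≤ A * (((∑ l, ((N l : ℤ) + 1)) + 1) * (max (canDeg k E) 0 +
          ∑ l, pht k fun i => aeval f (H' (c ⟨l, i⟩).succ))) :=
        mul_le_mul_of_nonneg_left h7 (Int.natCast_nonneg _)
      _ = ((A * (∑ l, (N l + 1) + 1) : ℕ) : ℤ) * (max (canDeg k E) 0 +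
          ∑ l, pht k fun i => aeval f (H' (c ⟨l, i⟩).succ)) := by
        push_cast
        ring

theorem isForm_prod {ι : Type} [Fintype ι] {G : ι → MvPolynomial (Fin (M + 1)) k}
    (hG : ∀ l, IsForm (G l)) : IsForm (∏ l, G l) := by
  choose d hd using hG
  exact ⟨_, IsHomogeneous.prod Finset.univ G d fun l _ => hd l⟩

theorem val_prod_ne {ι : Type} [Fintype ι] {G : ι → MvPolynomial (Fin (M + 1)) k} {E : Type}
    [Field E] [Algebra k E] {f : Fin (M + 1) → E} :
    val f (∏ l, G l) ≠ 0 ↔ ∀ l, val f (G l) ≠ 0 := by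
  unfold Pool.Agent.W602.GT.val
  rw [map_prod, Finset.prod_ne_zero_iff]
  exact ⟨fun h l => h l (Finset.mem_univ l), fun h l _ => h l⟩

theorem val_mul_ne {G G' : MvPolynomial (Fin (M + 1)) k} {E : Type}
    [Field E] [Algebra k E] {f : Fin (M + 1) → E} :
    val f (G * G') ≠ 0 ↔ val f G ≠ 0 ∧ val f G' ≠ 0 := by
  unfold Pool.Agent.W602.GT.val
  rw [map_mul, mul_ne_zero_iff]

/-- **Linear bounds.** -/
theorem curveBound_multi {x : Fin (M + 1) → K} (hx : x ≠ 0) (hgen : coords k x = ⊤)
    {y : ∀ l : Fin r, Fin (N l + 1) → K} (hy : ∀ l, y l ≠ 0)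
    (hfib : HypFibres (⨆ l, coords k (y l))) (h : ∀ l, CurveBound k (y l)) :
    CurveBound k x := by
  classical
  obtain ⟨j, e, H, hR, G, hGf, hGx, hGH, A, hA⟩ := exists_multi hx hgen hy hfib
  choose G' hG'f hG'y B hB using h
  refine ⟨G * ∏ l, aeval (H l) (G' l),
    isForm_mul hGf (isForm_prod fun l => isForm_comp (hR l).hom (hG'f l)), ?_,
    A * (1 + ∑ l, B l), fun E _ _ _ f hf hfG => ?_⟩
  · rw [val_mul_ne, val_prod_ne]
    exact ⟨hGx, fun l h0 => hG'y l (((hR l).val_iff (hG'f l)).1 h0)⟩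
  · rw [val_mul_ne, val_prod_ne] at hfG
    have h3 := hA E f hf hfG.1
    have h4 : ∀ l, pht k (fun i => aeval f (H l i)) ≤ B l * max (canDeg k E) 0 := fun l =>
      hB l E (fun i => aeval f (H l i)) ((hR l).on hf (hGH E f hf hfG.1 l)) (by
        rw [← val_comp]
        exact hfG.2 l)
    calc pht k f ≤ A * (max (canDeg k E) 0 + ∑ l, pht k fun i => aeval f (H l i)) := h3
      _ ≤ A * (max (canDeg k E) 0 + ∑ l, B l * max (canDeg k E) 0) :=
        mul_le_mul_of_nonneg_left (add_le_add le_rfl (Finset.sum_le_sum fun l _ => h4 l))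
          (Int.natCast_nonneg _)
      _ = ((A * (1 + ∑ l, B l) : ℕ) : ℤ) * max (canDeg k E) 0 := by
        rw [← Finset.sum_mul]
        push_cast
        ring

/-- **Bounds for every curve.** -/
theorem pseudoBounded_multi {x : Fin (M + 1) → K} (hx : x ≠ 0) (hgen : coords k x = ⊤)
    {y : ∀ l : Fin r, Fin (N l + 1) → K} (hy : ∀ l, y l ≠ 0)
    (hfib : HypFibres (⨆ l, coords k (y l))) (h : ∀ l, PseudoBounded k (y l)) :
    PseudoBounded k x := by
  classical
  obtain ⟨j, e, H, hR, G, hGf, hGx, hGH, A, hA⟩ := exists_multi hx hgen hy hfib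
  choose G' hG'f hG'y hB using h
  refine ⟨G * ∏ l, aeval (H l) (G' l),
    isForm_mul hGf (isForm_prod fun l => isForm_comp (hR l).hom (hG'f l)), ?_,
    fun E _ _ _ => ?_⟩
  · rw [val_mul_ne, val_prod_ne]
    exact ⟨hGx, fun l h0 => hG'y l (((hR l).val_iff (hG'f l)).1 h0)⟩
  · choose D hD using fun l => hB l E
    refine ⟨A * (max (canDeg k E) 0 + ∑ l, D l), fun f hf hfG => ?_⟩
    rw [val_mul_ne, val_prod_ne] at hfG
    have h3 := hA E f hf hfG.1
    have h4 : ∀ l, pht k (fun i => aeval f (H l i)) ≤ D l := fun l =>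
      hD l (fun i => aeval f (H l i)) ((hR l).on hf (hGH E f hf hfG.1 l)) (by
        rw [← val_comp]
        exact hfG.2 l)
    exact h3.trans (mul_le_mul_of_nonneg_left
      (add_le_add le_rfl (Finset.sum_le_sum fun l _ => h4 l)) (Int.natCast_nonneg _))

/-- **Pseudo-geometric hyperbolicity.** -/
theorem pgh_multi {x : Fin (M + 1) → K} (hx : x ≠ 0) (hgen : coords k x = ⊤)
    {y : ∀ l : Fin r, Fin (N l + 1) → K} (hy : ∀ l, y l ≠ 0)
    (hfib : HypFibres (⨆ l, coords k (y l))) (h : ∀ l, PseudoGeomHyp k (y l)) :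
    PseudoGeomHyp k x := by
  classical
  obtain ⟨j, e, H, hR, G, hGf, hGx, hGH, A, hA⟩ := exists_multi hx hgen hy hfib
  choose G' hG'f hG'y hB using h
  have hGG' : IsForm (G * ∏ l, aeval (H l) (G' l)) :=
    isForm_mul hGf (isForm_prod fun l => isForm_comp (hR l).hom (hG'f l))
  refine ⟨G * ∏ l, aeval (H l) (G' l), hGG', ?_, fun L _ _ _ c p hp hpG => ?_⟩
  · rw [val_mul_ne, val_prod_ne]
    exact ⟨hGx, fun l h0 => hG'y l (((hR l).val_iff (hG'f l)).1 h0)⟩
  · have hpG' := hpG
    rw [val_mul_ne, val_prod_ne] at hpG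
    have hpon : OnVar k x p := ⟨Function.ne_iff.1 hp.1, hp.2⟩
    -- the degrees of the compositions
    have hDl : ∀ l, ∃ D : ℤ, ∀ f : Fin (M + 1) → L, OnVar k x f → HasValue c p f →
        pht k (fun i => aeval f (H l i)) ≤ D := by
      intro l
      have hpH : val p (H l (j l)) ≠ 0 := hGH k p hpon hpG.1 l
      obtain ⟨q, hq⟩ : ∃ q : Fin (N l + 1) → k, q = fun i => val p (H l i) := ⟨_, rfl⟩
      have hq1 := (hR l).on hpon hpH
      have hqV : q ∈ VarPts k (y l) := by
        refine ⟨?_, fun F hF hFy => ?_⟩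
        · rw [hq]
          exact Function.ne_iff.2 hq1.1
        · rw [hq]
          exact hq1.2 F hF hFy
      have hqG : val q (G' l) ≠ 0 := by
        have h1 := val_comp p (H l) (G' l)
        rw [hq]
        intro h0
        apply hpG.2 l
        exact h1.trans h0
      have hfin := hB l L c q hqV hqG
      let ht : ℙ L (Fin (N l + 1) → L) → ℤ := fun φ => pht k φ.rep
      obtain ⟨D, hD⟩ := (hfin.image ht).bddAbove
      refine ⟨D, fun f hf hv => ?_⟩
      have hfG := value_ne hp.1 hf.1 hv hGG' hpG'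
      rw [val_mul_ne, val_prod_ne] at hfG
      have h1 := hGH L f hf hfG.1 l
      have h2 := (hR l).on hf h1
      have h3 := (hR l).value hp.1 hf.1 hv hpH
      have hne : (fun i => aeval f (H l i)) ≠ 0 := Function.ne_iff.2 h2.1
      have h4 : Projectivization.mk L (fun i => aeval f (H l i)) hne ∈ PointedMaps (y l) c q := by
        refine ⟨_, hne, h2.2, ?_, rfl⟩
        rw [hq]
        exact h3
      have h5 := hD ⟨_, h4, rfl⟩
      obtain ⟨a, ha⟩ := Projectivization.exists_smul_eq_mk_rep L _ hne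
      have h6 : ht (Projectivization.mk L (fun i => aeval f (H l i)) hne) =
          pht k fun i => aeval f (H l i) := by
        change pht k (Projectivization.mk L (fun i => aeval f (H l i)) hne).rep = _
        rw [← ha]
        exact pht_scale h2.1 a.ne_zero
      rw [h6] at h5
      exact h5
    choose D hD using hDl
    rcases finite_or_rat (L := L) (c := c) hp (A * (max (canDeg k L) 0 + ∑ l, D l))
      (fun f hf hv => by
        have hfG := value_ne hp.1 hf.1 hv hGG' hpG'
        rw [val_mul_ne, val_prod_ne] at hfG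
        refine (hA L f hf hfG.1).trans ?_
        exact mul_le_mul_of_nonneg_left (add_le_add le_rfl
          (Finset.sum_le_sum fun l _ => hD l f hf hv)) (Int.natCast_nonneg _)) with
      h1 | ⟨g, hg, hgF, hgpos⟩
    · exact h1
    · exfalso
      have h2 := hgF _ hGG' hpG'
      rw [val_mul_ne, val_prod_ne] at h2
      have h5 := hA (RatFunc k) g hg h2.1
      have h7 : ∀ l, pht k (fun i => aeval g (H l i)) ≤ 0 := fun l =>
        no_rat (x := y l) (hG'f l) (fun c q hq hqG => hB l (RatFunc k) c q hq hqG)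
          ((hR l).on hg (hGH (RatFunc k) g hg h2.1 l)) (by
            rw [← val_comp]
            exact h2.2 l)
      rw [canDeg_ratFunc] at h5
      have h8 : (A : ℤ) * (max (-2) 0 + ∑ l, pht k fun i => aeval g (H l i)) ≤ 0 := by
        have h9 : (0 : ℤ) ≤ A := Int.natCast_nonneg _
        have h10 : max (-2 : ℤ) 0 = 0 := by norm_num
        rw [h10, zero_add]
        exact mul_nonpos_of_nonneg_of_nonpos h9 (Finset.sum_nonpos fun l _ => h7 l)
      omega

end Pool.Agent.H916
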