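import Pool.Agent.H916.Bb

/-! Pseudo-geometric hyperbolicity of varieties which are fibred by curves. -/

set_option autoImplicit false
set_option linter.overlappingInstances false
set_option linter.unusedSectionVars false

open FF Pool.Agent.W603.LV Pool.Agent.W603.PV MvPolynomial
open Pool.Agent.W602.GT (val IsForm VarPts coords val_smul)
open Pool.Agent.W602.RG (HasValue PointedMaps PseudoGeomHyp)
open Pool.Agent.Y216 (OnVar canDeg_ratFunc CurveBound)
open Pool.Agent.R882.HY (PseudoBounded)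
open scoped LinearAlgebra.Projectivization

namespace Pool.Agent.H916

variable {k : Type} [Field k] [IsAlgClosed k] [CharZero k] {M N : ℕ} {K : Type} [Field K]
  [Algebra k K]

theorem isForm_mul {G H : MvPolynomial (Fin (M + 1)) k} (hG : IsForm G) (hH : IsForm H) :
    IsForm (G * H) := by
  obtain ⟨d, hd⟩ := hG
  obtain ⟨e, he⟩ := hH
  exact ⟨d + e, hd.mul he⟩

/-- composition of forms -/
theorem isForm_comp {e : ℕ} {H : Fin (N + 1) → MvPolynomial (Fin (M + 1)) k}
    (hH : ∀ j, (H j).IsHomogeneous e) {G : MvPolynomial (Fin (N + 1)) k} (hG : IsForm G) :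
    IsForm (aeval H G) := by
  obtain ⟨d, hd⟩ := hG
  exact ⟨e * d, hd.aeval H hH⟩

theorem val_comp {E : Type} [Field E] [Algebra k E] (f : Fin (M + 1) → E)
    (H : Fin (N + 1) → MvPolynomial (Fin (M + 1)) k) (G : MvPolynomial (Fin (N + 1)) k) :
    val f (aeval H G) = val (fun j => aeval f (H j)) G := by
  unfold Pool.Agent.W602.GT.val
  exact MvPolynomial.comp_aeval_apply H (aeval f : MvPolynomial (Fin (M + 1)) k →ₐ[k] E) G

theorem val_scale_iff {E : Type} [Field E] [Algebra k E] {f g : Fin (N + 1) → E} {c : E}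
    (hc : c ≠ 0) (h : ∀ j, f j = c * g j) {G : MvPolynomial (Fin (N + 1)) k} (hG : IsForm G) :
    val f G = 0 ↔ val g G = 0 := by
  obtain ⟨d, hd⟩ := hG
  have h1 : f = fun j => c * g j := funext h
  rw [h1, val_smul hd, mul_eq_zero]
  constructor
  · intro h
    exact h.resolve_left (pow_ne_zero _ hc)
  · exact Or.inr

/-- A rational map `X ⇢ Y` given by forms. -/
structure RatMap (x : Fin (M + 1) → K) (y : Fin (N + 1) → K) (j0 : Fin (N + 1)) (e : ℕ)
    (H : Fin (N + 1) → MvPolynomial (Fin (M + 1)) k) : Prop where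
  hom : ∀ j, (H j).IsHomogeneous e
  ne : aeval x (H j0) ≠ 0
  ny : y j0 ≠ 0
  eq : ∀ j, y j / y j0 = aeval x (H j) / aeval x (H j0)

section

variable {x : Fin (M + 1) → K} {y : Fin (N + 1) → K} {j0 : Fin (N + 1)} {e : ℕ}
  {H : Fin (N + 1) → MvPolynomial (Fin (M + 1)) k}

theorem RatMap.val_iff (h : RatMap x y j0 e H) {G : MvPolynomial (Fin (N + 1)) k}
    (hG : IsForm G) : val x (aeval H G) = 0 ↔ val y G = 0 := by
  rw [val_comp]
  refine val_scale_iff (c := aeval x (H j0) / y j0) (div_ne_zero h.ne h.ny) (fun j => ?_) hG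
  have h1 := h.eq j
  rw [div_eq_div_iff h.ny h.ne] at h1
  have h2 := h.ny
  field_simp
  rw [← h1, mul_comm]

theorem RatMap.on (h : RatMap x y j0 e H) {E : Type} [Field E] [Algebra k E]
    {f : Fin (M + 1) → E} (hf : OnVar k x f) (hfj : aeval f (H j0) ≠ 0) :
    OnVar k y fun j => aeval f (H j) := by
  refine ⟨⟨j0, hfj⟩, fun G hG hy => ?_⟩
  rw [← val_comp]
  exact hf.2 _ (isForm_comp h.hom hG) ((h.val_iff hG).2 hy)

/-- values of the composition -/
theorem RatMap.value (h : RatMap x y j0 e H) {L : Type} [Field L] [Algebra k L]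
    {c : Place k L} {p : Fin (M + 1) → k} (hp : p ≠ 0) {f : Fin (M + 1) → L}
    (hf : ∃ j, f j ≠ 0) (hv : HasValue c p f) (hpj : val p (H j0) ≠ 0) :
    HasValue c (fun j => val p (H j)) fun j => aeval f (H j) := by
  obtain ⟨i0, hi0⟩ := Function.ne_iff.1 hp
  have hi0 : p i0 ≠ 0 := hi0
  obtain ⟨hf0, hn⟩ := value_norm hf hv hi0
  -- the normalized values
  obtain ⟨u, hu⟩ : ∃ u : Fin (N + 1) → k, ∀ j, u j = eval (fun i => p i / p i0) (H j) :=
    ⟨_, fun _ => rfl⟩
  obtain ⟨v, hv'⟩ : ∃ v : Fin (N + 1) → L, ∀ j, v j = aeval (fun i => f i / f i0) (H j) :=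
    ⟨_, fun _ => rfl⟩
  have huv : ∀ j, Ge c 1 (v j - algebraMap k L (u j)) := fun j => by
    rw [hu, hv']
    exact value_poly hn (H j)
  have hfv : (fun j => aeval f (H j)) = fun j => f i0 ^ e * v j := by
    funext j
    rw [hv']
    have h1 := val_smul (h.hom j) (f i0) (fun i => f i / f i0)
    have h2 : (fun i => f i0 * (f i / f i0)) = f := by
      funext i
      field_simp
    rw [h2] at h1
    exact h1
  have hpu : ∀ j, val p (H j) = p i0 ^ e * u j := by
    intro j
    rw [hu]
    have h1 := val_smul (h.hom j) (p i0) (fun i => p i / p i0)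
    have h2 : (fun i => p i0 * (p i / p i0)) = p := by
      funext i
      field_simp
    rw [h2] at h1
    rw [h1]
    congr 1
  have hu0 : u j0 ≠ 0 := by
    intro h0
    apply hpj
    rw [hpu, h0, mul_zero]
  have hv0 : v j0 ≠ 0 ∧ c.ord (v j0) = 0 := by
    have h1 : v j0 = algebraMap k L (u j0) + (v j0 - algebraMap k L (u j0)) := by ring
    have h2 : algebraMap k L (u j0) ≠ 0 := (map_ne_zero _).2 hu0
    rcases huv j0 with h3 | h3
    · rw [h1, h3, add_zero]
      exact ⟨h2, c.ord_const hu0⟩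
    · by_cases h4 : v j0 - algebraMap k L (u j0) = 0
      · rw [h1, h4, add_zero]
        exact ⟨h2, c.ord_const hu0⟩
      · have h5 := c.ord_add_eq (f := algebraMap k L (u j0)) h2 h4
          (by rw [c.ord_const hu0]; omega)
        rw [← h1] at h5
        exact ⟨h5.1, by rw [h5.2, c.ord_const hu0]⟩
  have hpo : pord c v ≤ 0 := by
    have h1 := pord_le c hv0.1
    rwa [hv0.2] at h1
  have hval : HasValue c (fun j => val p (H j)) v := by
    intro i j
    beta_reduce
    rw [hpu, hpu]
    have e1 : algebraMap k L (p i0 ^ e * u i) * v j - algebraMap k L (p i0 ^ e * u j) * v i =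
        algebraMap k L (p i0 ^ e * u i) * (v j - algebraMap k L (u j)) -
          algebraMap k L (p i0 ^ e * u j) * (v i - algebraMap k L (u i)) := by
      simp only [map_mul]
      ring
    have h1 : Ge c 1 (algebraMap k L (p i0 ^ e * u i) * v j -
        algebraMap k L (p i0 ^ e * u j) * v i) := by
      rw [e1]
      have h2 := ((Ge.const (P := c) (p i0 ^ e * u i)).mul (huv j)).sub
        ((Ge.const (P := c) (p i0 ^ e * u j)).mul (huv i))
      exact h2.mono (by simp)
    rcases h1 with h1 | h1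
    · exact Or.inl h1
    · exact Or.inr (by omega)
  rw [hfv]
  exact Pool.Agent.W273.RG.FNW.hv_scale ⟨j0, hv0.1⟩ hval (pow_ne_zero _ hf0)

end

/-- Data for a rational map with hyperbolic fibres. -/
theorem exists_data {x : Fin (M + 1) → K} (hx : x ≠ 0) (hgen : coords k x = ⊤)
    {y : Fin (N + 1) → K} (hy : y ≠ 0) (hfib : HypFibres (coords k y)) :
    ∃ (j0 : Fin (N + 1)) (e : ℕ) (H : Fin (N + 1) → MvPolynomial (Fin (M + 1)) k),
      RatMap x y j0 e H ∧ ∃ G : MvPolynomial (Fin (M + 1)) k, IsForm G ∧ val x G ≠ 0 ∧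
      (∀ (E : Type) [Field E] [Algebra k E] (f : Fin (M + 1) → E), val f G ≠ 0 →
        aeval f (H j0) ≠ 0) ∧ ∃ A : ℕ,
      ∀ (E : Type) [Field E] [Algebra k E] [IsFF k E] (f : Fin (M + 1) → E), OnVar k x f →
        val f G ≠ 0 → pht k f ≤ A * (max (canDeg k E) 0 + pht k fun j => aeval f (H j)) := by
  obtain ⟨i0, hi0⟩ := Function.ne_iff.1 hx
  obtain ⟨j0, hj0⟩ := Function.ne_iff.1 hy
  have hi0 : x i0 ≠ 0 := hi0
  have hj0 : y j0 ≠ 0 := hj0
  obtain ⟨e, H, hH, hne, heq⟩ := exists_forms (k := k) hi0 hj0 (by rw [hgen]; exact le_top)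
  obtain ⟨G, hGf, hGx, A, hA⟩ := rel_rat hi0 hgen hH hj0 hne heq hfib
  refine ⟨j0, e, H, ⟨hH, hne, hj0, heq⟩, G * H j0, isForm_mul hGf ⟨e, hH j0⟩, ?_, fun E _ _ f hf => ?_,
    A, fun E _ _ _ f hf hfG => ?_⟩
  · unfold Pool.Agent.W602.GT.val at hGx ⊢
    rw [map_mul]
    exact mul_ne_zero hGx hne
  · unfold Pool.Agent.W602.GT.val at hf
    rw [map_mul] at hf
    exact right_ne_zero_of_mul hf
  · refine (hA E f hf ?_).2.2
    unfold Pool.Agent.W602.GT.val at hfG ⊢
    rw [map_mul] at hfG
    exact left_ne_zero_of_mul hfG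

/-- **Linear bounds.** -/
theorem curveBound_of {x : Fin (M + 1) → K} (hx : x ≠ 0) (hgen : coords k x = ⊤)
    {y : Fin (N + 1) → K} (hy : y ≠ 0) (hfib : HypFibres (coords k y)) (h : CurveBound k y) :
    CurveBound k x := by
  obtain ⟨j0, e, H, hR, G, hGf, hGx, hGH, A, hA⟩ := exists_data hx hgen hy hfib
  obtain ⟨G', hG'f, hG'y, B, hB⟩ := h
  refine ⟨G * aeval H G', isForm_mul hGf (isForm_comp hR.hom hG'f), ?_, A * (1 + B),
    fun E _ _ _ f hf hfG => ?_⟩
  · unfold Pool.Agent.W602.GT.val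
    rw [map_mul]
    exact mul_ne_zero hGx fun h0 => hG'y ((hR.val_iff hG'f).1 h0)
  · unfold Pool.Agent.W602.GT.val at hfG
    rw [map_mul] at hfG
    have h1 := left_ne_zero_of_mul hfG
    have h2 := right_ne_zero_of_mul hfG
    have h3 := hA E f hf h1
    have h4 := hB E (fun j => aeval f (H j)) (hR.on hf (hGH E f h1)) (by
      rw [← val_comp]
      exact h2)
    calc pht k f ≤ A * (max (canDeg k E) 0 + pht k fun j => aeval f (H j)) := h3
      _ ≤ A * (max (canDeg k E) 0 + B * max (canDeg k E) 0) :=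
        mul_le_mul_of_nonneg_left (by linarith) (Int.natCast_nonneg _)
      _ = ((A * (1 + B) : ℕ) : ℤ) * max (canDeg k E) 0 := by
        push_cast
        ring

/-- **Bounds for every curve.** -/
theorem pseudoBounded_of {x : Fin (M + 1) → K} (hx : x ≠ 0) (hgen : coords k x = ⊤)
    {y : Fin (N + 1) → K} (hy : y ≠ 0) (hfib : HypFibres (coords k y)) (h : PseudoBounded k y) :
    PseudoBounded k x := by
  obtain ⟨j0, e, H, hR, G, hGf, hGx, hGH, A, hA⟩ := exists_data hx hgen hy hfib
  obtain ⟨G', hG'f, hG'y, hB⟩ := h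
  refine ⟨G * aeval H G', isForm_mul hGf (isForm_comp hR.hom hG'f), ?_, fun E _ _ _ => ?_⟩
  · unfold Pool.Agent.W602.GT.val
    rw [map_mul]
    exact mul_ne_zero hGx fun h0 => hG'y ((hR.val_iff hG'f).1 h0)
  · obtain ⟨D, hD⟩ := hB E
    refine ⟨A * (max (canDeg k E) 0 + D), fun f hf hfG => ?_⟩
    unfold Pool.Agent.W602.GT.val at hfG
    rw [map_mul] at hfG
    have h1 := left_ne_zero_of_mul hfG
    have h2 := right_ne_zero_of_mul hfG
    have h3 := hA E f hf h1
    have h4 := hD (fun j => aeval f (H j)) (hR.on hf (hGH E f h1)) (by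
      rw [← val_comp]
      exact h2)
    exact h3.trans (mul_le_mul_of_nonneg_left (by linarith) (Int.natCast_nonneg _))

/-- **Pseudo-geometric hyperbolicity.** -/
theorem pgh_of {x : Fin (M + 1) → K} (hx : x ≠ 0) (hgen : coords k x = ⊤)
    {y : Fin (N + 1) → K} (hy : y ≠ 0) (hfib : HypFibres (coords k y)) (h : PseudoGeomHyp k y) :
    PseudoGeomHyp k x := by
  classical
  obtain ⟨j0, e, H, hR, G, hGf, hGx, hGH, A, hA⟩ := exists_data hx hgen hy hfib
  obtain ⟨G', hG'f, hG'y, hB⟩ := h
  have hGG' := isForm_mul hGf (isForm_comp hR.hom hG'f)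
  refine ⟨G * aeval H G', hGG', ?_, fun L _ _ _ c p hp hpG => ?_⟩
  · unfold Pool.Agent.W602.GT.val
    rw [map_mul]
    exact mul_ne_zero hGx fun h0 => hG'y ((hR.val_iff hG'f).1 h0)
  · have hpG' := hpG
    unfold Pool.Agent.W602.GT.val at hpG
    rw [map_mul] at hpG
    have hp1 := left_ne_zero_of_mul hpG
    have hp2 := right_ne_zero_of_mul hpG
    have hpH : val p (H j0) ≠ 0 := hGH k p hp1
    obtain ⟨q, hq⟩ : ∃ q : Fin (N + 1) → k, q = fun j => val p (H j) := ⟨_, rfl⟩
    have hpon : OnVar k x p := ⟨Function.ne_iff.1 hp.1, hp.2⟩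
    have hq1 := hR.on hpon hpH
    have hqV : q ∈ VarPts k y := by
      refine ⟨?_, fun F hF hFy => ?_⟩
      · rw [hq]
        exact Function.ne_iff.2 hq1.1
      · rw [hq]
        exact hq1.2 F hF hFy
    have hqG : val q G' ≠ 0 := by
      have h1 := val_comp p H G'
      rw [hq]
      intro h0
      apply hp2
      exact h1.trans h0
    have hfin := hB L c q hqV hqG
    -- the degrees of the compositions
    obtain ⟨D, hD⟩ : ∃ D : ℤ, ∀ f : Fin (M + 1) → L, OnVar k x f → HasValue c p f →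
        pht k (fun j => aeval f (H j)) ≤ D := by
      let ht : ℙ L (Fin (N + 1) → L) → ℤ := fun φ => pht k φ.rep
      obtain ⟨D, hD⟩ := (hfin.image ht).bddAbove
      refine ⟨D, fun f hf hv => ?_⟩
      have hfG := value_ne hp.1 hf.1 hv hGG' hpG'
      unfold Pool.Agent.W602.GT.val at hfG
      rw [map_mul] at hfG
      have h1 := hGH L f (left_ne_zero_of_mul hfG)
      have h2 := hR.on hf h1
      have h3 := hR.value hp.1 hf.1 hv hpH
      have hne : (fun j => aeval f (H j)) ≠ 0 := Function.ne_iff.2 h2.1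
      have h4 : Projectivization.mk L (fun j => aeval f (H j)) hne ∈ PointedMaps y c q := by
        refine ⟨_, hne, h2.2, ?_, rfl⟩
        rw [hq]
        exact h3
      have h5 := hD ⟨_, h4, rfl⟩
      obtain ⟨a, ha⟩ := Projectivization.exists_smul_eq_mk_rep L _ hne
      have h6 : ht (Projectivization.mk L (fun j => aeval f (H j)) hne) =
          pht k fun j => aeval f (H j) := by
        change pht k (Projectivization.mk L (fun j => aeval f (H j)) hne).rep = _
        rw [← ha]
        exact pht_scale h2.1 a.ne_zero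
      rw [h6] at h5
      exact h5
    rcases finite_or_rat (L := L) (c := c) hp (A * (max (canDeg k L) 0 + D)) (fun f hf hv => by
      have hfG := value_ne hp.1 hf.1 hv hGG' hpG'
      unfold Pool.Agent.W602.GT.val at hfG
      rw [map_mul] at hfG
      refine (hA L f hf (left_ne_zero_of_mul hfG)).trans ?_
      exact mul_le_mul_of_nonneg_left (by linarith [hD f hf hv]) (Int.natCast_nonneg _)) with
      h1 | ⟨g, hg, hgF, hgpos⟩
    · exact h1
    · exfalso
      have h2 := hgF _ hGG' hpG'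
      unfold Pool.Agent.W602.GT.val at h2
      rw [map_mul] at h2
      have h3 := left_ne_zero_of_mul h2
      have h4 := right_ne_zero_of_mul h2
      have h5 := hA (RatFunc k) g hg h3
      have h6 := hR.on hg (hGH (RatFunc k) g h3)
      have h7 := no_rat (x := y) hG'f (fun c q hq hqG => hB (RatFunc k) c q hq hqG) h6 (by
        rw [← val_comp]
        exact h4)
      rw [canDeg_ratFunc] at h5
      have h8 : (A : ℤ) * (max (-2) 0 + pht k fun j => aeval g (H j)) ≤ 0 := by
        have h9 : (0 : ℤ) ≤ A := Int.natCast_nonneg _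
        have h10 : max (-2 : ℤ) 0 = 0 := by norm_num
        rw [h10, zero_add]
        exact mul_nonpos_of_nonneg_of_nonpos h9 h7
      omega

end Pool.Agent.H916
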