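import Pool.Agent.H916.Gt
import Pool.Graph.R_seed8.Y216.Point
import Pool.Graph.R_seed8.R882.HP

/-! Rational maps between projective varieties, in homogeneous coordinates. -/

set_option autoImplicit false
set_option linter.overlappingInstances false
set_option linter.unusedSectionVars false

open FF Pool.Agent.W603.LV Pool.Agent.W603.PV MvPolynomial
open Pool.Agent.W602.GT (val IsForm VarPts coords val_smul)

namespace Pool.Agent.H916

section hz

variable {k : Type} [Field k] {M : ℕ}

/-- homogenization -/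
noncomputable def hz (i0 : Fin (M + 1)) (P : MvPolynomial (Fin (M + 1)) k) :
    MvPolynomial (Fin (M + 1)) k :=
  ∑ e ∈ Finset.range (P.totalDegree + 1), homogeneousComponent e P * X i0 ^ (P.totalDegree - e)

theorem hz_hom (i0 : Fin (M + 1)) (P : MvPolynomial (Fin (M + 1)) k) :
    (hz i0 P).IsHomogeneous P.totalDegree := by
  refine IsHomogeneous.sum _ _ _ fun e he => ?_
  have h1 := (homogeneousComponent_isHomogeneous e P).mul
    ((isHomogeneous_X k i0).pow (P.totalDegree - e))
  have h2 : e + 1 * (P.totalDegree - e) = P.totalDegree := by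
    rw [Finset.mem_range] at he
    omega
  rwa [h2] at h1

theorem hz_val {K : Type} [Field K] [Algebra k K] (x : Fin (M + 1) → K) {i0 : Fin (M + 1)}
    (hx : x i0 ≠ 0) (P : MvPolynomial (Fin (M + 1)) k) :
    aeval x (hz i0 P) = x i0 ^ P.totalDegree * aeval (fun i => x i / x i0) P := by
  have h0 : aeval (fun i => x i / x i0) P = ∑ e ∈ Finset.range (P.totalDegree + 1),
      aeval (fun i => x i / x i0) (homogeneousComponent e P) := by
    rw [← map_sum, sum_homogeneousComponent]
  unfold hz
  rw [h0, map_sum, Finset.mul_sum]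
  refine Finset.sum_congr rfl fun e he => ?_
  have h1 : aeval x (homogeneousComponent e P) =
      x i0 ^ e * aeval (fun i => x i / x i0) (homogeneousComponent e P) := by
    have h2 := val_smul (homogeneousComponent_isHomogeneous e P) (x i0) (fun i => x i / x i0)
    have h3 : (fun i => x i0 * (x i / x i0)) = x := by
      funext i
      field_simp
    rw [h3] at h2
    exact h2
  rw [map_mul, map_pow, aeval_X, h1]
  have h4 : x i0 ^ P.totalDegree = x i0 ^ e * x i0 ^ (P.totalDegree - e) := by
    rw [← pow_add]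
    congr 1
    rw [Finset.mem_range] at he
    omega
  rw [h4]
  ring

/-- relations between the affine coordinates -/
theorem on_aff {K E : Type} [Field K] [Algebra k K] [Field E] [Algebra k E] {x : Fin (M + 1) → K}
    {f : Fin (M + 1) → E} {i0 : Fin (M + 1)} (hx : x i0 ≠ 0) (hf : f i0 ≠ 0)
    (h : ∀ H : MvPolynomial (Fin (M + 1)) k, IsForm H → val x H = 0 → val f H = 0)
    {P : MvPolynomial (Fin (M + 1)) k} (hP : aeval (fun i => x i / x i0) P = 0) :
    aeval (fun i => f i / f i0) P = 0 := by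
  have h1 := h (hz i0 P) ⟨_, hz_hom i0 P⟩ (by
    unfold Pool.Agent.W602.GT.val
    rw [hz_val x hx, hP, mul_zero])
  unfold Pool.Agent.W602.GT.val at h1
  rw [hz_val f hf] at h1
  exact (mul_eq_zero.1 h1).resolve_left (pow_ne_zero _ hf)

theorem coords_eq {K : Type} [Field K] [Algebra k K] {x : Fin (M + 1) → K} {i0 : Fin (M + 1)}
    (hx : x i0 ≠ 0) : coords k x = IntermediateField.adjoin k (Set.range fun i => x i / x i0) := by
  apply le_antisymm
  · unfold coords
    rw [IntermediateField.adjoin_le_iff]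
    rintro _ ⟨i, j, hj, rfl⟩
    have h1 : x i / x j = (x i / x i0) / (x j / x i0) := by
      field_simp
    rw [h1]
    exact div_mem (IntermediateField.subset_adjoin _ _ ⟨i, rfl⟩)
      (IntermediateField.subset_adjoin _ _ ⟨j, rfl⟩)
  · rw [IntermediateField.adjoin_le_iff]
    rintro _ ⟨i, rfl⟩
    exact IntermediateField.subset_adjoin _ _ ⟨i, i0, hx, rfl⟩

/-- A rational map between projective varieties is given by forms of the same degree. -/
theorem exists_forms {N : ℕ} {K : Type} [Field K] [Algebra k K] {x : Fin (M + 1) → K}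
    {y : Fin (N + 1) → K} {i0 : Fin (M + 1)} {j0 : Fin (N + 1)} (hx : x i0 ≠ 0) (hy : y j0 ≠ 0)
    (hxy : coords k y ≤ coords k x) :
    ∃ (e : ℕ) (H : Fin (N + 1) → MvPolynomial (Fin (M + 1)) k), (∀ j, (H j).IsHomogeneous e) ∧
      aeval x (H j0) ≠ 0 ∧ ∀ j, y j / y j0 = aeval x (H j) / aeval x (H j0) := by
  classical
  have h1 : ∀ j, ∃ P Q : MvPolynomial (Fin (M + 1)) k, aeval (fun i => x i / x i0) Q ≠ 0 ∧
      y j / y j0 = aeval (fun i => x i / x i0) P / aeval (fun i => x i / x i0) Q := by
    intro j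
    have h2 : y j / y j0 ∈ coords k x :=
      hxy (IntermediateField.subset_adjoin _ _ ⟨j, j0, hy, rfl⟩)
    rw [coords_eq hx, IntermediateField.mem_adjoin_range_iff] at h2
    obtain ⟨P, Q, h3⟩ := h2
    by_cases hQ : aeval (fun i => x i / x i0) Q = 0
    · refine ⟨0, 1, by rw [map_one]; exact one_ne_zero, ?_⟩
      rw [h3, hQ, div_zero, map_zero, zero_div]
    · exact ⟨P, Q, hQ, h3⟩
  choose P Q hQ hPQ using h1
  obtain ⟨R, hR⟩ : ∃ R : Fin (N + 1) → MvPolynomial (Fin (M + 1)) k,
      ∀ j, R j = P j * ∏ l ∈ Finset.univ.erase j, Q l := ⟨_, fun _ => rfl⟩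
  obtain ⟨q, hq⟩ : ∃ q : K, q = ∏ l, aeval (fun i => x i / x i0) (Q l) := ⟨_, rfl⟩
  have hq0 : q ≠ 0 := by
    rw [hq]
    exact Finset.prod_ne_zero_iff.2 fun l _ => hQ l
  have hRq : ∀ j, aeval (fun i => x i / x i0) (R j) = y j / y j0 * q := by
    intro j
    rw [hR, map_mul, map_prod, hPQ j, hq, ← Finset.mul_prod_erase Finset.univ _ (Finset.mem_univ j)]
    have := hQ j
    field_simp
  obtain ⟨e, he⟩ : ∃ e, ∀ j, (R j).totalDegree ≤ e :=
    ⟨∑ j, (R j).totalDegree, fun j => Finset.single_le_sum (f := fun j => (R j).totalDegree)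
      (fun _ _ => Nat.zero_le _) (Finset.mem_univ j)⟩
  have hval : ∀ j, aeval x (hz i0 (R j) * X i0 ^ (e - (R j).totalDegree)) =
      x i0 ^ e * (y j / y j0 * q) := by
    intro j
    rw [map_mul, map_pow, aeval_X, hz_val x hx, hRq]
    have h2 : x i0 ^ e = x i0 ^ (R j).totalDegree * x i0 ^ (e - (R j).totalDegree) := by
      rw [← pow_add]
      congr 1
      have := he j
      omega
    rw [h2]
    ring
  have h0 : aeval x (hz i0 (R j0) * X i0 ^ (e - (R j0).totalDegree)) ≠ 0 := by
    rw [hval, div_self hy, one_mul]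
    exact mul_ne_zero (pow_ne_zero _ hx) hq0
  refine ⟨e, fun j => hz i0 (R j) * X i0 ^ (e - (R j).totalDegree), fun j => ?_, h0, fun j => ?_⟩
  · have h1 := (hz_hom i0 (R j)).mul ((isHomogeneous_X k i0).pow (e - (R j).totalDegree))
    have h2 : (R j).totalDegree + 1 * (e - (R j).totalDegree) = e := by
      have := he j
      omega
    rwa [h2] at h1
  · have h2 : x i0 ^ e ≠ 0 := pow_ne_zero _ hx
    rw [hval, hval, div_self hy, one_mul]
    field_simp

end hz

/-- homomorphisms from generators -/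
theorem exists_hom_of_ker {k P A E : Type} [CommRing k] [CommRing P] [CommRing A] [CommRing E]
    [Algebra k P] [Algebra k A] [Algebra k E] (π : P →ₐ[k] A) (hπ : Function.Surjective π)
    (f : P →ₐ[k] E) (h : ∀ p, π p = 0 → f p = 0) : ∃ g : A →ₐ[k] E, ∀ p, g (π p) = f p := by
  refine ⟨(Ideal.Quotient.liftₐ (RingHom.ker π) f fun p hp => h p hp).comp
    (Ideal.quotientKerAlgEquivOfSurjective hπ).symm.toAlgHom, fun p => ?_⟩
  have h1 : (Ideal.quotientKerAlgEquivOfSurjective hπ).symm (π p) =
      Ideal.Quotient.mk (RingHom.ker π) p := by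
    rw [AlgEquiv.symm_apply_eq]
    rfl
  change Ideal.Quotient.liftₐ (RingHom.ker π) f (fun p hp => h p hp)
    ((Ideal.quotientKerAlgEquivOfSurjective hπ).symm (π p)) = _
  rw [h1]
  rfl

end Pool.Agent.H916
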