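import Pool.Agent.H916.Rat

/-! The affine ring on which a rational map is defined. -/

set_option autoImplicit false
set_option linter.overlappingInstances false
set_option linter.unusedSectionVars false

open FF Pool.Agent.W603.LV Pool.Agent.W603.PV MvPolynomial
open Pool.Agent.W602.GT (val IsForm VarPts coords val_smul)
open Pool.Agent.Y216 (OnVar)

namespace Pool.Agent.H916

variable {k : Type} [Field k] {M N : ℕ} {K : Type} [Field K] [Algebra k K]

theorem exists_ring {x : Fin (M + 1) → K} {i0 : Fin (M + 1)} (hx : x i0 ≠ 0) {e : ℕ}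
    {H : Fin (N + 1) → MvPolynomial (Fin (M + 1)) k} (hH : ∀ j, (H j).IsHomogeneous e)
    {j0 : Fin (N + 1)} (hj0 : aeval x (H j0) ≠ 0) :
    ∃ (B : Type) (_ : CommRing B) (_ : Algebra k B) (_ : Algebra B K) (_ : IsScalarTower k B K)
      (xh : Fin (M + 1) → B) (η : Fin (N + 1) → B) (n : ℕ) (z : Fin n → B),
      Function.Injective (algebraMap B K) ∧ (∀ i, algebraMap B K (xh i) = x i / x i0) ∧
      (∀ j, algebraMap B K (η j) = aeval x (H j) / aeval x (H j0)) ∧
      (∀ i, ∃ l, z l = xh i) ∧ Algebra.adjoin k (Set.range z) = ⊤ ∧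
      ∀ g : B, g ≠ 0 → ∃ G : MvPolynomial (Fin (M + 1)) k, IsForm G ∧ val x G ≠ 0 ∧
        ∀ (E : Type) [Field E] [Algebra k E] (f : Fin (M + 1) → E), OnVar k x f → val f G ≠ 0 →
          f i0 ≠ 0 ∧ aeval f (H j0) ≠ 0 ∧ ∃ φ : B →ₐ[k] E, φ g ≠ 0 ∧
            (∀ i, φ (xh i) = f i / f i0) ∧ ∀ j, φ (η j) = aeval f (H j) / aeval f (H j0) := by
  classical
  obtain ⟨a, ha⟩ : ∃ a : Fin (M + 1) → K, a = fun i => x i / x i0 := ⟨_, rfl⟩
  let A : Type := (aeval a : MvPolynomial (Fin (M + 1)) k →ₐ[k] K).range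
  let π : MvPolynomial (Fin (M + 1)) k →ₐ[k] A :=
    (aeval a : MvPolynomial (Fin (M + 1)) k →ₐ[k] K).rangeRestrict
  have hπ : Function.Surjective π := AlgHom.rangeRestrict_surjective _
  have hπK : ∀ p, ((π p : A) : K) = aeval a p := fun p => rfl
  -- values of forms
  have hval : ∀ {E : Type} [Field E] [Algebra k E] (f : Fin (M + 1) → E), f i0 ≠ 0 → ∀ j,
      aeval f (H j) = f i0 ^ e * aeval (fun i => f i / f i0) (H j) := by
    intro E _ _ f hf j
    have h2 := val_smul (hH j) (f i0) (fun i => f i / f i0)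
    have h3 : (fun i => f i0 * (f i / f i0)) = f := by
      funext i
      field_simp
    rw [h3] at h2
    exact h2
  have hratio : ∀ {E : Type} [Field E] [Algebra k E] (f : Fin (M + 1) → E), f i0 ≠ 0 → ∀ j,
      aeval (fun i => f i / f i0) (H j) / aeval (fun i => f i / f i0) (H j0) =
        aeval f (H j) / aeval f (H j0) := by
    intro E _ _ f hf j
    rw [hval f hf j, hval f hf j0, mul_div_mul_left _ _ (pow_ne_zero _ hf)]
  let h : A := π (H j0)
  have hhK : ((h : A) : K) ≠ 0 := by
    change aeval a (H j0) ≠ 0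
    rw [ha]
    intro h0
    apply hj0
    rw [hval x hx, h0, mul_zero]
  have hh0 : h ≠ 0 := fun h0 => hhK (by rw [h0]; rfl)
  let B : Type := Localization.Away h
  let iAK : Algebra A K := inferInstance
  have hu : ∀ y : Submonoid.powers h, IsUnit (algebraMap A K y) := by
    rintro ⟨_, m, rfl⟩
    rw [isUnit_iff_ne_zero]
    change ((h ^ m : A) : K) ≠ 0
    exact pow_ne_zero _ hhK
  let ρ : B →+* K := IsLocalization.lift hu
  let iBK : Algebra B K := ρ.toAlgebra
  have hρ : ∀ s : A, algebraMap B K (algebraMap A B s) = (s : K) := fun s =>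
    IsLocalization.lift_eq hu s
  have tw : IsScalarTower k B K := IsScalarTower.of_algebraMap_eq fun c => by
    rw [IsScalarTower.algebraMap_apply k A B, hρ]
    rfl
  have hmk : ∀ (s : A) (m : ℕ), algebraMap B K (IsLocalization.mk' B s
      (⟨h ^ m, m, rfl⟩ : Submonoid.powers h)) = (s : K) / (h : K) ^ m := by
    intro s m
    have h1 := IsLocalization.mk'_spec B s (⟨h ^ m, m, rfl⟩ : Submonoid.powers h)
    have h2 := congrArg (algebraMap B K) h1
    rw [map_mul, hρ, hρ] at h2
    rw [eq_div_iff (pow_ne_zero _ hhK), ← h2]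
    rfl
  have hsurj : ∀ b : B, ∃ (s : A) (m : ℕ), b = IsLocalization.mk' B s
      (⟨h ^ m, m, rfl⟩ : Submonoid.powers h) := by
    intro b
    obtain ⟨s, ⟨_, m, rfl⟩, hb⟩ := IsLocalization.exists_mk'_eq (Submonoid.powers h) b
    exact ⟨s, m, hb.symm⟩
  have hinj : Function.Injective (algebraMap B K) := by
    rw [injective_iff_map_eq_zero]
    intro b hb
    obtain ⟨s, m, rfl⟩ := hsurj b
    rw [hmk, div_eq_zero_iff] at hb
    have h1 := hb.resolve_right (pow_ne_zero _ hhK)
    have h2 : s = 0 := Subtype.ext h1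
    rw [h2, IsLocalization.mk'_zero]
  let xh : Fin (M + 1) → B := fun i => algebraMap A B (π (X i))
  let η : Fin (N + 1) → B := fun j => IsLocalization.mk' B (π (H j))
    (⟨h ^ 1, 1, rfl⟩ : Submonoid.powers h)
  let iv : B := IsLocalization.mk' B (1 : A) (⟨h ^ 1, 1, rfl⟩ : Submonoid.powers h)
  refine ⟨B, inferInstance, inferInstance, iBK, tw, xh, η, M + 2, Fin.snoc xh iv, hinj,
    fun i => ?_, fun j => ?_, fun i => ⟨Fin.castSucc i, by rw [Fin.snoc_castSucc]⟩, ?_, ?_⟩
  · rw [hρ, hπK, aeval_X, ha]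
  · rw [hmk, hπK, pow_one]
    change _ / aeval a (H j0) = _
    rw [ha]
    exact hratio x hx j
  · rw [eq_top_iff]
    rintro b -
    have hA : ∀ s : A, algebraMap A B s ∈ Algebra.adjoin k (Set.range (Fin.snoc xh iv :
        Fin (M + 2) → B)) := by
      intro s
      obtain ⟨p, rfl⟩ := hπ s
      have h1 : algebraMap A B (π p) = aeval xh p := by
        apply hinj
        rw [hρ, hπK, ← MvPolynomial.aeval_algebraMap_apply]
        congr 2
        funext i
        change _ = algebraMap B K (algebraMap A B (π (X i)))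
        rw [hρ, hπK, aeval_X]
      rw [h1]
      have h2 : aeval xh p ∈ Algebra.adjoin k (Set.range xh) := by
        rw [Algebra.adjoin_range_eq_range_aeval]
        exact ⟨p, rfl⟩
      refine Algebra.adjoin_mono ?_ h2
      rintro _ ⟨i, rfl⟩
      exact ⟨Fin.castSucc i, by rw [Fin.snoc_castSucc]⟩
    have hiv : iv ∈ Algebra.adjoin k (Set.range (Fin.snoc xh iv : Fin (M + 2) → B)) :=
      Algebra.subset_adjoin ⟨Fin.last _, by rw [Fin.snoc_last]⟩
    obtain ⟨s, m, rfl⟩ := hsurj b
    have h1 : IsLocalization.mk' B s (⟨h ^ m, m, rfl⟩ : Submonoid.powers h) =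
        algebraMap A B s * iv ^ m := by
      apply hinj
      rw [hmk, map_mul, map_pow, hρ]
      change _ = _ * (algebraMap B K (IsLocalization.mk' B (1 : A) _)) ^ m
      rw [hmk]
      push_cast
      rw [pow_one, div_eq_mul_inv, one_div, inv_pow]
    rw [h1]
    exact mul_mem (hA s) (pow_mem hiv m)
  · intro g hg
    obtain ⟨s, m, rfl⟩ := hsurj g
    obtain ⟨p, rfl⟩ := hπ s
    have hp : aeval a p ≠ 0 := by
      intro h0
      apply hg
      have h1 : π p = 0 := Subtype.ext h0
      rw [h1, IsLocalization.mk'_zero]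
    refine ⟨X i0 * H j0 * hz i0 p, ⟨_, ((isHomogeneous_X k i0).mul (hH j0)).mul (hz_hom i0 p)⟩,
      ?_, fun E _ _ f hf hG => ?_⟩
    · unfold Pool.Agent.W602.GT.val
      rw [map_mul, map_mul, aeval_X, hz_val x hx]
      rw [ha] at hp
      exact mul_ne_zero (mul_ne_zero hx hj0) (mul_ne_zero (pow_ne_zero _ hx) hp)
    · unfold Pool.Agent.W602.GT.val at hG
      rw [map_mul, map_mul, aeval_X] at hG
      have hfi : f i0 ≠ 0 := left_ne_zero_of_mul (left_ne_zero_of_mul hG)
      have hfj : aeval f (H j0) ≠ 0 := right_ne_zero_of_mul (left_ne_zero_of_mul hG)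
      have hfp : aeval (fun i => f i / f i0) p ≠ 0 := by
        have h1 := right_ne_zero_of_mul hG
        rw [hz_val f hfi] at h1
        exact right_ne_zero_of_mul h1
      obtain ⟨ψ, hψ⟩ := exists_hom_of_ker π hπ (aeval fun i => f i / f i0) (fun q hq => by
        refine on_aff hx hfi hf.2 ?_
        have h1 := congrArg (fun s : A => (s : K)) hq
        change aeval a q = 0 at h1
        rw [ha] at h1
        exact h1)
      have hψh : ψ h ≠ 0 := by
        change ψ (π (H j0)) ≠ 0
        rw [hψ]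
        intro h0
        apply hfj
        rw [hval f hfi, h0, mul_zero]
      have hu' : ∀ y : Submonoid.powers h, IsUnit (ψ y) := by
        rintro ⟨_, m, rfl⟩
        rw [isUnit_iff_ne_zero]
        change ψ (h ^ m) ≠ 0
        rw [map_pow]
        exact pow_ne_zero _ hψh
      let φ : B →ₐ[k] E := IsLocalization.liftAlgHom (M := Submonoid.powers h) (f := ψ) hu'
      have hφ : ∀ s : A, φ (algebraMap A B s) = ψ s := fun s => IsLocalization.lift_eq hu' s
      have hφmk : ∀ (s : A) (m : ℕ), φ (IsLocalization.mk' B s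
          (⟨h ^ m, m, rfl⟩ : Submonoid.powers h)) = ψ s / ψ h ^ m := by
        intro s m
        have h1 := IsLocalization.mk'_spec B s (⟨h ^ m, m, rfl⟩ : Submonoid.powers h)
        have h2 := congrArg φ h1
        rw [map_mul, hφ, hφ] at h2
        rw [eq_div_iff (pow_ne_zero _ hψh), ← h2]
        change _ = _ * ψ (h ^ m)
        rw [map_pow]
      refine ⟨hfi, hfj, φ, ?_, fun i => ?_, fun j => ?_⟩
      · rw [hφmk, hψ]
        exact div_ne_zero hfp (pow_ne_zero _ hψh)
      · change φ (algebraMap A B (π (X i))) = _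
        rw [hφ, hψ, aeval_X]
      · change φ (IsLocalization.mk' B (π (H j)) _) = _
        rw [hφmk, pow_one]
        change _ / ψ (π (H j0)) = _
        rw [hψ, hψ]
        exact hratio f hfi j

end Pool.Agent.H916
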