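import Pool.Agent.H916.Rel
import Pool.Graph.R_pool_sql_team_seeded_c8625f6e.K4H62.EL.Double
import Pool.Graph.R_seed8.W602.GT.War

/-! Specialization of maps from curves of genus at most one. -/

set_option autoImplicit false
set_option linter.overlappingInstances false
set_option linter.unusedSectionVars false

open FF Filter Pool.Agent.W603.LV Pool.Agent.W603.PV Pool.Agent.K4H62.EL Pool.Agent.W619.PQ
open Pool.Agent.K4H62.IT

namespace Pool.Agent.H916

section low

variable {Ω M : Type} [Field Ω] [Field M] [Algebra Ω M] [CharZero Ω] [IsAlgClosed Ω] [IsFF Ω M]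

theorem hno_of_canDeg {D : Derivation Ω M M} (hD : D ≠ 0) (hc : canDeg Ω M ≤ 0) (Q : Place Ω M)
    (f : M) (_ : f ≠ 0) (h : ∀ P : Place Ω M, vo P D ≤ P.ord f) : Q.ord f = vo Q D := by
  classical
  set T : Finset (Place Ω M) := insert Q ((finite_support (k := Ω) f).toFinset ∪
    (vo_finite hD).toFinset) with hT
  have h1 := sum_ord_finset f T (fun P hP => by simp [hT, hP])
  have h2 := canDeg_finset hD T (fun P hP => by simp [hT, hP])
  have h3 : ∑ P ∈ T, (P.ord f - vo P D) = canDeg Ω M := by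
    rw [Finset.sum_sub_distrib, h1, h2]
    ring
  have h4 : ∀ P ∈ T, P.ord f - vo P D = 0 := by
    have h5 : 0 ≤ ∑ P ∈ T, (P.ord f - vo P D) := Finset.sum_nonneg fun P _ => by
      have := h P
      omega
    exact (Finset.sum_eq_zero_iff_of_nonneg fun P _ => by
      have := h P
      omega).1 (le_antisymm (h3.trans_le hc) h5)
  have h5 := h4 Q (by simp [hT])
  omega

/-- **Curves of genus at most one** are dominated by cubic curves. -/
theorem exists_cubic (hc : canDeg Ω M ≤ 0) :
    ∃ (G : Type) (_ : Field G) (_ : Algebra Ω G) (_ : IsFF Ω G) (O : Place Ω G) (a b : Ω)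
      (X Y : G) (_ : M →ₐ[Ω] G), Weier O a b X Y := by
  classical
  obtain ⟨D, hD⟩ := exists_der (k := Ω) (K := M)
  by_cases hrat : ∃ s : M, IntermediateField.adjoin Ω {s} = ⊤
  · obtain ⟨s, hs⟩ := hrat
    obtain ⟨G, i1, i2, i3, O, X, Y, hW⟩ := exists_model (k := Ω) (-1) 0 (by norm_num)
    have hX : Transcendental Ω X := O.transcendental_of_ord_ne (by rw [hW.ordX]; norm_num)
    have hst : Transcendental Ω s := by
      intro hc
      have h1 := IsAlgClosed.degree_eq_one_of_irreducible Ω (minpoly.irreducible hc.isIntegral)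
      obtain ⟨c, hc⟩ := minpoly.mem_range_of_degree_eq_one Ω s h1
      obtain ⟨t, ht⟩ := IsFF.exists_transcendental (k := Ω) (K := M)
      have h2 : t ∈ IntermediateField.adjoin Ω {s} := by
        rw [hs]
        exact IntermediateField.mem_top
      rw [← hc] at h2
      have h3 : IntermediateField.adjoin Ω {algebraMap Ω M c} = ⊥ := by
        rw [IntermediateField.adjoin_simple_eq_bot_iff]
        exact IntermediateField.algebraMap_mem _ c
      rw [h3] at h2
      obtain ⟨d, hd⟩ := IntermediateField.mem_bot.1 h2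
      apply ht
      rw [← hd]
      exact isAlgebraic_algebraMap d
    obtain ⟨σ, -⟩ := exists_hom (k := Ω) (Polynomial.aeval s : Polynomial Ω →ₐ[Ω] M)
      (Polynomial.aeval X : Polynomial Ω →ₐ[Ω] G) (fun p => by
        constructor
        · intro h
          by_contra hne
          exact hst ⟨p, fun h0 => hne (by rw [h0, map_zero]), h⟩
        · intro h
          by_contra hne
          exact hX ⟨p, fun h0 => hne (by rw [h0, map_zero]), h⟩) (fun z => by
        have hz : z ∈ IntermediateField.adjoin Ω {s} := by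
          rw [hs]
          exact IntermediateField.mem_top
        rw [IntermediateField.mem_adjoin_simple_iff] at hz
        obtain ⟨p, q, hpq⟩ := hz
        by_cases hq : Polynomial.aeval s q = 0
        · refine ⟨0, 1, by rw [map_one]; exact one_ne_zero, ?_⟩
          rw [hpq, hq, div_zero, zero_mul, map_zero]
        · refine ⟨p, q, hq, ?_⟩
          rw [hpq, div_mul_cancel₀ _ hq])
    exact ⟨G, i1, i2, i3, O, -1, 0, X, Y, σ, hW⟩
  · obtain ⟨Q⟩ : Nonempty (Place Ω M) := by
      obtain ⟨Q, -⟩ := exists_place_not_mem (k := Ω) (K := M) ∅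
      exact ⟨Q⟩
    obtain ⟨a, b, X, Y, hW⟩ := exists_weier hD Q (hno_of_canDeg hD hc Q) hrat
    exact ⟨M, inferInstance, inferInstance, inferInstance, Q, a, b, X, Y, AlgHom.id Ω M, hW⟩

end low

section scale

/-- scaling of a weighted homogeneous polynomial -/
theorem aeval_weighted {k ι A : Type*} [CommRing k] [CommRing A] [Algebra k A]
    {w : ι → ℕ} {H : MvPolynomial ι k} {d : ℕ} (hH : MvPolynomial.IsWeightedHomogeneous w H d)
    (z : ι → A) (c : A) :
    MvPolynomial.aeval (fun i => c ^ w i * z i) H = c ^ d * MvPolynomial.aeval z H := by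
  classical
  rw [MvPolynomial.aeval_def, MvPolynomial.aeval_def, MvPolynomial.eval₂_eq, MvPolynomial.eval₂_eq,
    Finset.mul_sum]
  refine Finset.sum_congr rfl fun s hs => ?_
  have h1 := hH (MvPolynomial.mem_support_iff.1 hs)
  have h2 : ∏ i ∈ s.support, (c ^ w i * z i) ^ s i = c ^ d * ∏ i ∈ s.support, z i ^ s i := by
    simp only [mul_pow, ← pow_mul]
    rw [Finset.prod_mul_distrib, Finset.prod_pow_eq_pow_sum]
    congr 2
    rw [← h1, Finsupp.weight_apply, Finsupp.sum]
    refine Finset.sum_congr rfl fun i _ => ?_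
    rw [smul_eq_mul, mul_comm]
  rw [h2]
  ring

/-- `H` is homogeneous in the second group of variables -/
def Hom2 {k : Type*} [CommRing k] {n m : ℕ} (H : MvPolynomial (Fin n ⊕ Fin m) k) : Prop :=
  ∃ d : ℕ, MvPolynomial.IsWeightedHomogeneous (Sum.elim (fun _ => 0) (fun _ => 1) :
    Fin n ⊕ Fin m → ℕ) H d

theorem hom2_scale {k A : Type*} [CommRing k] [Field A] [Algebra k A] {n m : ℕ}
    {H : MvPolynomial (Fin n ⊕ Fin m) k} (hH : Hom2 H) (y : Fin n → A) (x : Fin m → A) {c : A}
    (hc : c ≠ 0) : MvPolynomial.aeval (Sum.elim y (fun l => c * x l)) H = 0 ↔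
      MvPolynomial.aeval (Sum.elim y x) H = 0 := by
  obtain ⟨d, hd⟩ := hH
  have h1 := aeval_weighted hd (Sum.elim y x) c
  have h2 : (fun i => c ^ (Sum.elim (fun _ => 0) (fun _ => 1) : Fin n ⊕ Fin m → ℕ) i *
      (Sum.elim y x : Fin n ⊕ Fin m → A) i) = Sum.elim y (fun l => c * x l) := by
    funext i
    rcases i with i | i
    · simp
    · simp
  rw [h2] at h1
  rw [h1, mul_eq_zero]
  constructor
  · intro h
    exact h.resolve_left (pow_ne_zero _ hc)
  · exact Or.inr

end scale

section spec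

/-- the polynomials with the given coefficients -/
noncomputable def pp {A : Type*} [CommRing A] {m D : ℕ} (u : Fin m × Fin 2 × Fin D → A) (l : Fin m)
    (s : Fin 2) : Polynomial A := ∑ t : Fin D, Polynomial.C (u (l, s, t)) * Polynomial.X ^ (t : ℕ)

theorem pp_coeff {A : Type*} [CommRing A] {m D : ℕ} (u : Fin m × Fin 2 × Fin D → A) (l : Fin m)
    (s : Fin 2) (t : Fin D) : (pp u l s).coeff t = u (l, s, t) := by
  classical
  unfold pp
  rw [Polynomial.finsetSum_coeff, Finset.sum_eq_single t]
  · simp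
  · intro b _ hb
    rw [Polynomial.coeff_C_mul_X_pow, if_neg]
    intro h
    exact hb (Fin.ext h.symm)
  · intro h
    exact absurd (Finset.mem_univ t) h

theorem pp_of {A : Type*} [CommRing A] {m D : ℕ} (r : Fin m → Fin 2 → Polynomial A)
    (hr : ∀ l s, (r l s).natDegree < D) (l : Fin m) (s : Fin 2) :
    pp (fun q : Fin m × Fin 2 × Fin D => (r q.1 q.2.1).coeff q.2.2) l s = r l s := by
  unfold pp
  have h1 := (r l s).as_sum_range_C_mul_X_pow' (hr l s)
  rw [Finset.sum_range] at h1
  exact h1.symm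

/-- the element of the cubic field -/
noncomputable def el {A G : Type*} [CommRing A] [CommRing G] [Algebra A G] {m D : ℕ}
    (u : Fin m × Fin 2 × Fin D → A) (x y : G) (l : Fin m) : G :=
  Polynomial.aeval x (pp u l 1) * y + Polynomial.aeval x (pp u l 0)

variable {k : Type} [Field k] [IsAlgClosed k] [CharZero k]

theorem el_indep {A G : Type} [Field A] [Field G] [Algebra A G] [CharZero A] [IsAlgClosed A]
    [IsFF A G] {Q : Place A G} {a b : A} {X Y : G} (hW : Weier Q a b X Y) {m D : ℕ}
    {u : Fin m × Fin 2 × Fin D → A} {i j : Fin m} {s s' : Fin 2} {t t' : Fin D}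
    (hm : u (i, s, t) * u (j, s', t') ≠ u (j, s, t) * u (i, s', t')) {c c' : A}
    (h : algebraMap A G c * el u X Y i = algebraMap A G c' * el u X Y j) : c = 0 ∧ c' = 0 := by
  have h1 : Polynomial.aeval X (Polynomial.C c * pp u i 1 - Polynomial.C c' * pp u j 1) * Y +
      Polynomial.aeval X (Polynomial.C c * pp u i 0 - Polynomial.C c' * pp u j 0) = 0 := by
    unfold el at h
    simp only [map_sub, map_mul, Polynomial.aeval_C]
    linear_combination h
  obtain ⟨h0, h1⟩ := indep (P := Q) (m := 1) one_pos (by rw [hW.ordX]; rfl) (by rw [hW.ordY]; rfl) h1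
  have h2 : ∀ (s : Fin 2) (t : Fin D), c * u (i, s, t) = c' * u (j, s, t) := by
    intro s t
    have h3 : Polynomial.C c * pp u i s = Polynomial.C c' * pp u j s := by
      fin_cases s
      · exact sub_eq_zero.1 h0
      · exact sub_eq_zero.1 h1
    have h4 := congrArg (fun p : Polynomial A => p.coeff t) h3
    simp only [Polynomial.coeff_C_mul, pp_coeff] at h4
    exact h4
  have h3 := h2 s t
  have h4 := h2 s' t'
  constructor
  · by_contra hc
    apply hm
    apply mul_left_cancel₀ hc
    linear_combination (u (j, s', t')) * h3 - (u (j, s, t)) * h4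
  · by_contra hc
    apply hm
    apply mul_left_cancel₀ hc
    linear_combination (u (i, s', t')) * h3 - (u (i, s, t)) * h4

/-- the substitution commutes with the evaluation of polynomials -/
theorem bi_aeval' {E G : Type} [Field E] [Algebra k E] [Field G] [Algebra E G]
    [Algebra k G] [IsScalarTower k E G] {ι : Type} (x y : G)
    (g : ι → Polynomial (Polynomial E)) (H : MvPolynomial ι k) :
    bi x y (MvPolynomial.aeval g H) = MvPolynomial.aeval (fun i => bi (R := E) x y (g i)) H := by
  have h1 : ((bi (R := E) x y).restrictScalars k).comp (MvPolynomial.aeval g) =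
      MvPolynomial.aeval fun i => bi (R := E) x y (g i) := by
    apply MvPolynomial.algHom_ext
    intro i
    rw [AlgHom.comp_apply, MvPolynomial.aeval_X, MvPolynomial.aeval_X]
    rfl
  exact DFunLike.congr_fun h1 H

/-- **Specialization** of maps from cubic curves. -/
theorem spec_cubic {Ω : Type} [Field Ω] [Algebra k Ω] [CharZero Ω] [IsAlgClosed Ω] {G : Type}
    [Field G] [Algebra Ω G] [Algebra k G] [IsScalarTower k Ω G] [IsFF Ω G] {Q : Place Ω G}
    {a b : Ω} {X Y : G} (hW : Weier Q a b X Y) {n m : ℕ} (y : Fin n → Ω) (x : Fin m → G)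
    {i j : Fin m} (hj : x j ≠ 0) (hij : ∀ c : Ω, x i ≠ algebraMap Ω G c * x j)
    (V : MvPolynomial (Fin n) k) (hV : MvPolynomial.aeval y V ≠ 0) :
    ∃ (y0 : Fin n → k) (G0 : Type) (_ : Field G0) (_ : Algebra k G0) (_ : IsFF k G0)
      (O : Place k G0) (a0 b0 : k) (X0 Y0 : G0) (x0 : Fin m → G0), Weier O a0 b0 X0 Y0 ∧
      MvPolynomial.aeval y0 V ≠ 0 ∧ x0 j ≠ 0 ∧ (∀ c : k, x0 i ≠ algebraMap k G0 c * x0 j) ∧
      (∀ H : MvPolynomial (Fin n) k, MvPolynomial.aeval y H = 0 → MvPolynomial.aeval y0 H = 0) ∧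
      ∀ H : MvPolynomial (Fin n ⊕ Fin m) k, Hom2 H →
        MvPolynomial.aeval (Sum.elim (fun l => algebraMap Ω G (y l)) x) H = 0 →
        MvPolynomial.aeval (Sum.elim (fun l => algebraMap k G0 (y0 l)) x0) H = 0 := by
  classical
  -- the common denominator
  choose P' Q' hQ' hPQ using fun l => exists_frac hW.gen (x l)
  obtain ⟨q, hq⟩ : ∃ q : G, q = ∏ l, bi X Y (Q' l) := ⟨_, rfl⟩
  have hq0 : q ≠ 0 := by
    rw [hq]
    exact Finset.prod_ne_zero_iff.2 fun l _ => hQ' l
  have hgbi : ∀ l, q * x l = bi X Y (P' l * ∏ m ∈ Finset.univ.erase l, Q' m) := by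
    intro l
    rw [hq, ← Finset.mul_prod_erase _ _ (Finset.mem_univ l), map_mul, map_prod, ← hPQ]
    ring
  obtain ⟨r, hr⟩ : ∃ r : Fin m → Fin 2 → Polynomial Ω, ∀ l s, r l s =
      ((P' l * ∏ m ∈ Finset.univ.erase l, Q' m) %ₘ wp a b).coeff s := ⟨_, fun _ _ => rfl⟩
  have hgr : ∀ l, q * x l = Polynomial.aeval X (r l 1) * Y + Polynomial.aeval X (r l 0) := by
    intro l
    rw [hgbi, bi_mod hW.eqn, hr, hr]
    rfl
  obtain ⟨D, hD⟩ : ∃ D : ℕ, ∀ l s, (r l s).natDegree < D := by
    refine ⟨(∑ l, ∑ s, (r l s).natDegree) + 1, fun l s => ?_⟩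
    have h1 : (r l s).natDegree ≤ ∑ s, (r l s).natDegree :=
      Finset.single_le_sum (f := fun s => (r l s).natDegree) (fun _ _ => Nat.zero_le _)
        (Finset.mem_univ s)
    have h2 : (∑ s, (r l s).natDegree) ≤ ∑ l, ∑ s, (r l s).natDegree :=
      Finset.single_le_sum (f := fun l => ∑ s, (r l s).natDegree) (fun _ _ => Nat.zero_le _)
        (Finset.mem_univ l)
    omega
  obtain ⟨c, hc⟩ : ∃ c : Fin m × Fin 2 × Fin D → Ω, c = fun q => (r q.1 q.2.1).coeff q.2.2 :=
    ⟨_, rfl⟩
  have hel : ∀ l, q * x l = el c X Y l := by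
    intro l
    unfold el
    rw [hgr, hc, pp_of r hD, pp_of r hD]
  -- the minor
  obtain ⟨s, t, s', t', hmin⟩ : ∃ (s : Fin 2) (t : Fin D) (s' : Fin 2) (t' : Fin D),
      c (i, s, t) * c (j, s', t') ≠ c (j, s, t) * c (i, s', t') := by
    by_contra hcon
    push Not at hcon
    obtain ⟨s', t', h0⟩ : ∃ (s' : Fin 2) (t' : Fin D), c (j, s', t') ≠ 0 := by
      by_contra h0
      push Not at h0
      apply mul_ne_zero hq0 hj
      rw [hel]
      have h1 : ∀ s, pp c j s = 0 := by
        intro s
        unfold pp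
        refine Finset.sum_eq_zero fun t _ => ?_
        rw [h0, Polynomial.C_0, zero_mul]
      unfold el
      rw [h1, h1, map_zero, zero_mul, add_zero]
    obtain ⟨e, he⟩ : ∃ e : Ω, e = c (i, s', t') / c (j, s', t') := ⟨_, rfl⟩
    have h1 : ∀ s, pp c i s = Polynomial.C e * pp c j s := by
      intro s
      unfold pp
      rw [Finset.mul_sum]
      refine Finset.sum_congr rfl fun t _ => ?_
      rw [← mul_assoc, ← Polynomial.C_mul]
      congr 2
      rw [he]
      field_simp
      linear_combination hcon s t s' t'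
    apply hij e
    apply mul_left_cancel₀ hq0
    have h2 : q * (algebraMap Ω G e * x j) = algebraMap Ω G e * (q * x j) := by ring
    rw [h2, hel, hel]
    unfold el
    rw [h1, h1]
    simp only [map_mul, Polynomial.aeval_C]
    ring
  let σ : Type := (Fin m × Fin 2 × Fin D) ⊕ (Fin 2 ⊕ Fin n)
  let RA : Type := MvPolynomial σ k
  let GA : Fin m → Polynomial (Polynomial RA) := fun l =>
    Polynomial.C (pp (fun w => (MvPolynomial.X (Sum.inl w) : RA)) l 1) * Polynomial.X +
      Polynomial.C (pp (fun w => (MvPolynomial.X (Sum.inl w) : RA)) l 0)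
  let aA : RA := MvPolynomial.X (Sum.inr (Sum.inl 0))
  let bA : RA := MvPolynomial.X (Sum.inr (Sum.inl 1))
  let HA : Fin n ⊕ Fin m → Polynomial (Polynomial RA) := Sum.elim
    (fun l => Polynomial.C (Polynomial.C (MvPolynomial.X (Sum.inr (Sum.inr l))))) GA
  let mp : ∀ (A : Type) [Field A] [Algebra k A] (u : σ → A),
      Polynomial (Polynomial RA) →ₐ[k] Polynomial (Polynomial A) := fun A _ _ u =>
    Polynomial.mapAlgHom (Polynomial.mapAlgHom (MvPolynomial.aeval u))
  have hmpmap : ∀ (A : Type) [Field A] [Algebra k A] (u : σ → A) (p : Polynomial (Polynomial RA)),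
      mp A u p = p.map (Polynomial.mapRingHom (MvPolynomial.aeval u : RA →ₐ[k] A).toRingHom) := by
    intro A _ _ u p
    rfl
  have hpp : ∀ (A : Type) [Field A] [Algebra k A] (u : σ → A) (l : Fin m) (s : Fin 2),
      (pp (fun w => (MvPolynomial.X (Sum.inl w) : RA)) l s).map
        (MvPolynomial.aeval u : RA →ₐ[k] A).toRingHom = pp (fun w => u (Sum.inl w)) l s := by
    intro A _ _ u l s
    unfold pp
    rw [Polynomial.map_sum]
    refine Finset.sum_congr rfl fun t _ => ?_
    rw [Polynomial.map_mul, Polynomial.map_C, Polynomial.map_pow, Polynomial.map_X]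
    congr 2
    exact MvPolynomial.aeval_X u _
  have hG : ∀ (A : Type) [Field A] [Algebra k A] (u : σ → A) (l : Fin m),
      mp A u (GA l) = Polynomial.C (pp (fun w => u (Sum.inl w)) l 1) * Polynomial.X +
        Polynomial.C (pp (fun w => u (Sum.inl w)) l 0) := by
    intro A _ _ u l
    simp only [GA]
    rw [hmpmap, Polynomial.map_add, Polynomial.map_mul, Polynomial.map_X, Polynomial.map_C,
      Polynomial.map_C]
    change Polynomial.C (Polynomial.map _ _) * _ + Polynomial.C (Polynomial.map _ _) = _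
    rw [hpp, hpp]
  have hco : ∀ (A : Type) [Field A] [Algebra k A] (u : σ → A) (p : Polynomial (Polynomial RA))
      (s t : ℕ), ((mp A u p).coeff s).coeff t = MvPolynomial.aeval u ((p.coeff s).coeff t) := by
    intro A _ _ u p s t
    rw [hmpmap, Polynomial.coeff_map, Polynomial.coe_mapRingHom, Polynomial.coeff_map]
    rfl
  have hcomp : ∀ (A : Type) [Field A] [Algebra k A] (u : σ → A)
      (H : MvPolynomial (Fin n ⊕ Fin m) k), mp A u (MvPolynomial.aeval HA H) =
        MvPolynomial.aeval (fun i => mp A u (HA i)) H := by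
    intro A _ _ u H
    have h1 : (mp A u).comp (MvPolynomial.aeval HA) =
        MvPolynomial.aeval (fun i => mp A u (HA i)) := by
      apply MvPolynomial.algHom_ext
      intro i
      rw [AlgHom.comp_apply, MvPolynomial.aeval_X, MvPolynomial.aeval_X]
    exact DFunLike.congr_fun h1 H
  have hbi : ∀ (A : Type) [Field A] [Algebra k A] (u : σ → A) (G : Type) [Field G] [Algebra A G]
      [Algebra k G] [IsScalarTower k A G] (x y : G) (H : MvPolynomial (Fin n ⊕ Fin m) k),
      bi x y (mp A u (MvPolynomial.aeval HA H)) =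
        MvPolynomial.aeval (Sum.elim (fun l => algebraMap A G (u (Sum.inr (Sum.inr l))))
          (el (fun w => u (Sum.inl w)) x y)) H := by
    intro A _ _ u G _ _ _ _ x y H
    rw [hcomp, bi_aeval']
    congr 2
    funext l
    rcases l with l | l
    · simp only [HA, Sum.elim_inl]
      rw [hmpmap, Polynomial.map_C]
      change bi x y (Polynomial.C (Polynomial.map _ (Polynomial.C _))) = _
      rw [Polynomial.map_C, bi_C, Polynomial.aeval_C]
      congr 1
      exact MvPolynomial.aeval_X u _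
    · simp only [HA, Sum.elim_inr]
      rw [hG, map_add, map_mul, bi_C, bi_C, bi_X]
      rfl
  have hmod : ∀ (A : Type) [Field A] [Algebra k A] (u : σ → A) (p : Polynomial (Polynomial RA)),
      mp A u (p %ₘ wp aA bA) = mp A u p %ₘ wp (u (Sum.inr (Sum.inl 0))) (u (Sum.inr (Sum.inl 1))) := by
    intro A _ _ u p
    rw [hmpmap, hmpmap, Polynomial.map_modByMonic _ (wp_monic aA bA)]
    congr 1
    rw [wp_map]
    have h1 : (MvPolynomial.aeval u : RA →ₐ[k] A).toRingHom aA = u (Sum.inr (Sum.inl 0)) :=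
      MvPolynomial.aeval_X u _
    have h2 : (MvPolynomial.aeval u : RA →ₐ[k] A).toRingHom bA = u (Sum.inr (Sum.inl 1)) :=
      MvPolynomial.aeval_X u _
    rw [h1, h2]
  -- the generic point
  let z : σ → Ω := Sum.elim c (Sum.elim (fun t => if t = 0 then a else b) y)
  have hz1 : ∀ w, z (Sum.inl w) = c w := fun _ => rfl
  have hza : z (Sum.inr (Sum.inl 0)) = a := rfl
  have hzb : z (Sum.inr (Sum.inl 1)) = b := rfl
  have hzy : ∀ l, z (Sum.inr (Sum.inr l)) = y l := fun _ => rfl
  obtain ⟨W, hWd⟩ : ∃ W : RA, W = (4 * aA ^ 3 + 27 * bA ^ 2) *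
    (MvPolynomial.aeval (fun l => (MvPolynomial.X (Sum.inr (Sum.inr l)) : RA)) V *
      (MvPolynomial.X (Sum.inl (i, s, t)) * MvPolynomial.X (Sum.inl (j, s', t')) -
        MvPolynomial.X (Sum.inl (j, s, t)) * MvPolynomial.X (Sum.inl (i, s', t')))) := ⟨_, rfl⟩
  have hpull : ∀ (A : Type) [Field A] [Algebra k A] (u : σ → A) (H : MvPolynomial (Fin n) k),
      MvPolynomial.aeval u (MvPolynomial.aeval
        (fun l => (MvPolynomial.X (Sum.inr (Sum.inr l)) : RA)) H) =
        MvPolynomial.aeval (fun l => u (Sum.inr (Sum.inr l))) H := by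
    intro A _ _ u H
    have h2 : (MvPolynomial.aeval u : RA →ₐ[k] A).comp (MvPolynomial.aeval
        (fun l => (MvPolynomial.X (Sum.inr (Sum.inr l)) : RA))) =
        MvPolynomial.aeval (fun l : Fin n => u (Sum.inr (Sum.inr l))) := by
      apply MvPolynomial.algHom_ext
      intro i
      rw [AlgHom.comp_apply, MvPolynomial.aeval_X, MvPolynomial.aeval_X, MvPolynomial.aeval_X]
    exact DFunLike.congr_fun h2 H
  have hWu : ∀ (A : Type) [Field A] [Algebra k A] (u : σ → A), MvPolynomial.aeval u W =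
      (4 * u (Sum.inr (Sum.inl 0)) ^ 3 + 27 * u (Sum.inr (Sum.inl 1)) ^ 2) *
        (MvPolynomial.aeval (fun l => u (Sum.inr (Sum.inr l))) V *
          (u (Sum.inl (i, s, t)) * u (Sum.inl (j, s', t')) -
            u (Sum.inl (j, s, t)) * u (Sum.inl (i, s', t')))) := by
    intro A _ _ u
    rw [hWd]
    simp only [map_mul, map_add, map_sub, map_pow, map_ofNat, MvPolynomial.aeval_X, hpull, aA, bA]
  have hWz : MvPolynomial.aeval z W ≠ 0 := by
    rw [hWu Ω z]
    simp only [hz1, hza, hzb, hzy]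
    exact mul_ne_zero hW.disc (mul_ne_zero hV (sub_ne_zero.2 hmin))
  obtain ⟨z0, hz0, hrel⟩ := Pool.Agent.W602.GT.specialise z W hWz
  rw [hWu k z0] at hz0
  obtain ⟨G0, i1, i2, i3, O, X0, Y0, hW0⟩ := exists_model (z0 (Sum.inr (Sum.inl 0)))
    (z0 (Sum.inr (Sum.inl 1))) (left_ne_zero_of_mul hz0)
  have hV0 := left_ne_zero_of_mul (right_ne_zero_of_mul hz0)
  have hm0 := sub_ne_zero.1 (right_ne_zero_of_mul (right_ne_zero_of_mul hz0))
  refine ⟨fun l => z0 (Sum.inr (Sum.inr l)), G0, i1, i2, i3, O, _, _, X0, Y0,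
    el (fun w => z0 (Sum.inl w)) X0 Y0, hW0, hV0, ?_, ?_, ?_, ?_⟩
  · intro h0
    have h1 := el_indep hW0 (u := fun w => z0 (Sum.inl w)) hm0 (c := 0) (c' := 1) (by
      rw [map_zero, zero_mul, h0, mul_zero])
    exact one_ne_zero h1.2
  · intro e he
    have h1 := el_indep hW0 (u := fun w => z0 (Sum.inl w)) hm0 (c := 1) (c' := e) (by
      rw [map_one, one_mul, he])
    exact one_ne_zero h1.1
  · intro H hH
    have h1 := hrel (MvPolynomial.aeval
        (fun l => (MvPolynomial.X (Sum.inr (Sum.inr l)) : RA)) H) (by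
      rw [hpull Ω z]
      exact hH)
    rwa [hpull k z0] at h1
  · intro H hH2 hH
    rw [← hom2_scale hH2 _ _ hq0] at hH
    have h1 : bi X Y (mp Ω z (MvPolynomial.aeval HA H)) = 0 := by
      rw [hbi Ω z G X Y H, ← hH]
      congr 2
      funext l
      rcases l with l | l
      · rfl
      · exact (hel l).symm
    rw [bi_eq_zero_iff (P := Q) (m := 1) one_pos (by rw [hW.ordX]; rfl) (by rw [hW.ordY]; rfl)
      hW.eqn] at h1
    have h2 : mp Ω z (MvPolynomial.aeval HA H %ₘ wp aA bA) = 0 := by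
      rw [hmod Ω z, hza, hzb]
      exact h1
    have h3 : mp k z0 (MvPolynomial.aeval HA H %ₘ wp aA bA) = 0 := by
      ext s t
      rw [hco k z0]
      have h4 := hrel (((MvPolynomial.aeval HA H %ₘ wp aA bA).coeff s).coeff t) (by
        rw [← hco Ω z, h2]
        simp)
      rw [h4]
      simp
    rw [hmod k z0] at h3
    have h4 := hbi k z0 G0 X0 Y0 H
    rw [← h4, bi_mod hW0.eqn, h3]
    simp

end spec

end Pool.Agent.H916
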